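import Mathlib.Topology.Sheaves.Presheaf
import Mathlib.Tactic.Monotonicity.Lemmas
import Mathlib.Analysis.SpecialFunctions.Arsinh
import Mathlib.Analysis.Real.Pi.Bounds
import Mathlib.NumberTheory.LSeries.RiemannZeta

/-! Project SIX: definitions and elementary facts. -/

set_option autoImplicit false

namespace Pool.Agent.MP_3d0d30_nt.Six

open MeasureTheory Finset Filter
open scoped ComplexConjugate

/-- `e(x) = exp (2 π i x)` -/
noncomputable def E (x : ℝ) : ℂ := Complex.exp (2 * Real.pi * x * Complex.I)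

/-- the Cauchy kernel -/
noncomputable def ck (x : ℝ) : ℝ := 1 / (1 + x ^ 2)

/-- `δ`-separated finite sets -/
def Sep (δ : ℝ) (U : Finset ℝ) : Prop := ∀ s ∈ U, ∀ t ∈ U, s ≠ t → δ ≤ |s - t|

/-- contained in the window `[s, s + L]` -/
def Win (U : Finset ℝ) (s L : ℝ) : Prop := ∀ t ∈ U, s ≤ t ∧ t ≤ s + L

/-- two derivatives with bounds at scale `l` on `[α, β]` -/
structure C2D (a a1 a2 : ℝ → ℂ) (α β l A : ℝ) : Prop where
  d1 : ∀ y ∈ Set.Icc α β, HasDerivAt a (a1 y) y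
  d2 : ∀ y ∈ Set.Icc α β, HasDerivAt a1 (a2 y) y
  cont : ContinuousOn a2 (Set.Icc α β)
  b0 : ∀ y ∈ Set.Icc α β, ‖a y‖ ≤ A
  b1 : ∀ y ∈ Set.Icc α β, ‖a1 y‖ ≤ A / l
  b2 : ∀ y ∈ Set.Icc α β, ‖a2 y‖ ≤ A / l ^ 2

/-- `C²` on `[α, β]` with size `A` at scale `l` -/
def C2 (a : ℝ → ℂ) (α β l A : ℝ) : Prop := ∃ a1 a2 : ℝ → ℂ, C2D a a1 a2 α β l A

/-- as `C2`, vanishing to second order at both ends -/
def C20 (a : ℝ → ℂ) (α β l A : ℝ) : Prop :=
  ∃ a1 a2 : ℝ → ℂ, C2D a a1 a2 α β l A ∧ a α = 0 ∧ a β = 0 ∧ a1 α = 0 ∧ a1 β = 0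

/-- amplitudes at scale `Y` -/
def Amp (Y : ℝ) (a : ℝ → ℂ) : Prop :=
  C20 a (Y / 8) (4 * Y) Y 1 ∧ ∀ y, y ∉ Set.Icc (Y / 8) (4 * Y) → a y = 0

/-- globally `C²` functions supported in `[1/2, 2]` -/
def G2 (w : ℝ → ℂ) (A : ℝ) : Prop := ∃ w1 w2 : ℝ → ℂ, Continuous w2 ∧
  (∀ y, HasDerivAt w (w1 y) y ∧ HasDerivAt w1 (w2 y) y ∧ ‖w y‖ ≤ A ∧ ‖w1 y‖ ≤ A ∧ ‖w2 y‖ ≤ A) ∧
  ∀ y, y ∉ Set.Ioo (1 / 2 : ℝ) 2 → w y = 0 ∧ w1 y = 0

/-- the frequency function -/
noncomputable def gg (β x : ℝ) : ℝ := Real.arsinh (β * Real.sqrt x) / β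

/-- the inverse of `gg β` -/
noncomputable def XX (β y : ℝ) : ℝ := Real.sinh (β * y) ^ 2 / β ^ 2

/-- the Atkinson type sum -/
noncomputable def Dsum (N : ℕ) (β : ℝ) (a : ℕ → ℂ) (τ : ℝ) : ℂ :=
  ∑ k ∈ Ioc N (2 * N), a k * E (τ * gg β (k / N))

/-- exponential sum over a set of points -/
noncomputable def RR (U : Finset ℝ) (z : ℝ) : ℂ := ∑ t ∈ U, E (t * z)

/-- close pairs at scale `Λ` -/
noncomputable def PP (U : Finset ℝ) (Λ : ℝ) : ℝ := ∑ s ∈ U, ∑ t ∈ U, ck ((s - t) / Λ)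

/-- additive energy at scale `Λ` -/
noncomputable def EE (U : Finset ℝ) (Λ : ℝ) : ℝ :=
  ∑ t1 ∈ U, ∑ t2 ∈ U, ∑ t3 ∈ U, ∑ t4 ∈ U, ck ((t1 + t2 - t3 - t4) / Λ)

/-- the dual kernel -/
noncomputable def hm (N : ℕ) (β : ℝ) (w : ℝ → ℂ) (m : ℤ) (τ : ℝ) : ℂ :=
  N * ∫ y : ℝ, w y * E (τ * y - N * m * XX β y)

/-- the bilinear form of one dual frequency -/
noncomputable def FM (N : ℕ) (β : ℝ) (w ε : ℝ → ℂ) (U : Finset ℝ) (m : ℤ) : ℂ :=
  ∑ t ∈ U, ∑ t' ∈ U, ε t * conj (ε t') * hm N β w m (t - t')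

/-- `λ(y) = log (1 + 1/y) / 2π` -/
noncomputable def lam (y : ℝ) : ℝ := Real.log (1 + 1 / y) / (2 * Real.pi)

/-- the oscillatory integral -/
noncomputable def II (a : ℝ → ℂ) (Y t k : ℝ) : ℂ :=
  ∫ y in (Y / 8)..(4 * Y), a y * E (t * lam y + k * y)

/-- the off-diagonal sum with a separated amplitude -/
noncomputable def SS (a : ℝ → ℂ) (c : ℕ → ℂ) (H R : ℕ) (t : ℝ) : ℂ :=
  ∑ h ∈ Ico H (2 * H), c h / h * ∑ n ∈ range R, a (n / h) * E (t * lam (n / h))

/-- smooth step, one on `(-∞, 1]`, zero on `[2, ∞)` -/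
noncomputable def psi (x : ℝ) : ℝ := Real.smoothTransition (2 - x)

/-- dyadic bump supported in `[1/2, 2]` -/
noncomputable def ww (x : ℝ) : ℝ := psi x - psi (2 * x)

/-- the modified bump -/
noncomputable def wb (x : ℝ) : ℝ := 2 * x * ww x

/-- summation range -/
noncomputable def rg (P : ℝ) : ℕ := ⌈8 * P⌉₊ + 1

/-- a smooth dyadic piece of the zeta sum (complex conjugate of the usual one) -/
noncomputable def Zs (P t : ℝ) : ℂ :=
  ∑ n ∈ range (rg P), ((ww (n / P) / Real.sqrt n : ℝ) : ℂ) * E (t * (Real.log n / (2 * Real.pi)))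

/-- a dyadic block of the off-diagonal part of the local mean square -/
noncomputable def SH (P G : ℝ) (H : ℕ) (t : ℝ) : ℂ :=
  ∑ h ∈ Ico H (2 * H), ∑ n ∈ range (rg P),
    ((wb (n / P) * wb ((n + h) / P) / Real.sqrt (n * (n + h)) *
      Real.exp (-(2 * Real.pi * G * lam (n / h))) : ℝ) : ℂ) * E (t * lam (n / h))

/-- zeta on the critical line -/
noncomputable def zl (t : ℝ) : ℝ := ‖riemannZeta (1 / 2 + t * Complex.I)‖

/-! ### Elementary facts on `E` -/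

@[simp] theorem norm_E (x : ℝ) : ‖E x‖ = 1 := by
  have : E x = Complex.exp (((2 * Real.pi * x : ℝ) : ℂ) * Complex.I) := by
    unfold E; push_cast; rfl
  rw [this, Complex.norm_exp_ofReal_mul_I]

theorem E_add (x y : ℝ) : E (x + y) = E x * E y := by
  simp only [E, ← Complex.exp_add]; congr 1; push_cast; ring

@[simp] theorem E_zero : E 0 = 1 := by simp [E]

theorem conj_E (x : ℝ) : conj (E x) = E (-x) := by
  simp only [E, ← Complex.exp_conj, map_mul, Complex.conj_ofReal, Complex.conj_I, map_ofNat]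
  congr 1; push_cast; ring

theorem E_sub (x y : ℝ) : E (x - y) = E x * conj (E y) := by
  rw [conj_E, ← E_add, sub_eq_add_neg]

theorem E_ne_zero (x : ℝ) : E x ≠ 0 := Complex.exp_ne_zero _

@[fun_prop] theorem continuous_E : Continuous E := by unfold E; fun_prop

theorem hasDerivAt_E (x : ℝ) : HasDerivAt E (2 * Real.pi * Complex.I * E x) x := by
  have h : HasDerivAt (fun w : ℂ => Complex.exp (2 * Real.pi * w * Complex.I))
      (Complex.exp (2 * Real.pi * x * Complex.I) * (2 * Real.pi * 1 * Complex.I)) (x : ℂ) :=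
    (((hasDerivAt_id (x : ℂ)).const_mul (2 * Real.pi : ℂ)).mul_const Complex.I).cexp
  have e : 2 * Real.pi * Complex.I * E x =
      Complex.exp (2 * Real.pi * x * Complex.I) * (2 * Real.pi * 1 * Complex.I) := by
    unfold E; ring
  rw [e]
  exact h.comp_ofReal

theorem hasDerivAt_E_comp {φ : ℝ → ℝ} {φ1 x : ℝ} (h : HasDerivAt φ φ1 x) :
    HasDerivAt (fun y => E (φ y)) (2 * Real.pi * Complex.I * φ1 * E (φ x)) x := by
  have e : 2 * Real.pi * Complex.I * φ1 * E (φ x) =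
      φ1 • (2 * Real.pi * Complex.I * E (φ x)) := by
    rw [Complex.real_smul]; ring
  rw [e]
  exact (hasDerivAt_E (φ x)).scomp x h

/-! ### Elementary facts on `ck` -/

theorem ck_pos (x : ℝ) : 0 < ck x := by unfold ck; positivity

theorem ck_nonneg (x : ℝ) : 0 ≤ ck x := (ck_pos x).le

theorem ck_le_one (x : ℝ) : ck x ≤ 1 := by
  unfold ck; rw [div_le_one (by positivity)]; nlinarith [sq_nonneg x]

@[simp] theorem ck_zero : ck 0 = 1 := by simp [ck]

theorem ck_neg (x : ℝ) : ck (-x) = ck x := by simp [ck]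

theorem ck_abs (x : ℝ) : ck |x| = ck x := by simp [ck]

@[fun_prop] theorem continuous_ck : Continuous ck := by
  unfold ck
  exact continuous_const.div (by fun_prop) fun x => by positivity

theorem ck_anti {x y : ℝ} (h : |x| ≤ |y|) : ck y ≤ ck x := by
  unfold ck
  have : x ^ 2 ≤ y ^ 2 := sq_le_sq.2 h
  gcongr

theorem ck_le_mul {x y c : ℝ} (hc : 1 ≤ c) (h : |x| ≤ c * |y|) : ck y ≤ c ^ 2 * ck x := by
  unfold ck
  have h1 : x ^ 2 ≤ c ^ 2 * y ^ 2 := by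
    rw [← mul_pow, ← sq_abs x, ← sq_abs (c * y), abs_mul, abs_of_nonneg (by linarith : 0 ≤ c)]
    gcongr
  rw [mul_one_div, div_le_div_iff₀ (by positivity) (by positivity)]
  nlinarith

theorem ck_le_inv_sq {x : ℝ} (hx : x ≠ 0) : ck x ≤ 1 / x ^ 2 := by
  unfold ck
  gcongr
  linarith

theorem half_le_ck {x : ℝ} (h : |x| ≤ 1) : 1 / 2 ≤ ck x := by
  unfold ck
  have : x ^ 2 ≤ 1 := by rwa [sq_le_one_iff_abs_le_one]
  gcongr
  linarith

theorem ck_mul_ck_le (a b : ℝ) : ck a * ck b ≤ 2 * ck (a + b) := by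
  unfold ck
  rw [div_mul_div_comm, mul_one_div, div_le_div_iff₀ (by positivity) (by positivity)]
  nlinarith [sq_nonneg (a - b), sq_nonneg (a * b)]

theorem exp_le_ck (x : ℝ) : Real.exp (-(2 * Real.pi * |x|)) ≤ ck x := by
  have h1 := Real.quadratic_le_exp_of_nonneg (show 0 ≤ 2 * Real.pi * |x| by positivity)
  have h2 : 1 + x ^ 2 ≤ Real.exp (2 * Real.pi * |x|) := by
    refine le_trans ?_ h1
    have h3 := Real.pi_gt_three
    have h4 : (2 * Real.pi * |x|) ^ 2 = 4 * Real.pi ^ 2 * x ^ 2 := by rw [mul_pow, sq_abs]; ring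
    have h5 : 0 ≤ 2 * Real.pi * |x| := by positivity
    have h6 : 9 ≤ Real.pi ^ 2 := by nlinarith
    rw [h4]
    nlinarith [sq_nonneg x]
  rw [Real.exp_neg, ck, one_div]
  exact inv_anti₀ (by positivity) h2

theorem ck_div_mono {Λ Λ' : ℝ} (h0 : 0 < Λ) (h : Λ ≤ Λ') (x : ℝ) : ck (x / Λ) ≤ ck (x / Λ') := by
  apply ck_anti
  rw [abs_div, abs_div, abs_of_pos h0, abs_of_pos (h0.trans_le h)]
  gcongr

theorem integrable_ck : Integrable ck := by
  have := integrable_inv_one_add_sq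
  refine this.congr (Filter.Eventually.of_forall fun x => ?_)
  simp [ck]

theorem integral_ck : ∫ x, ck x = Real.pi := by
  rw [← integral_univ_inv_one_add_sq]
  congr 1
  ext x
  simp [ck]

theorem integrable_ck_affine {c : ℝ} (hc : c ≠ 0) (x : ℝ) :
    Integrable fun z : ℝ => ck (x - c * z) := by
  have h1 : Integrable fun z : ℝ => ck (x - z) := integrable_ck.comp_sub_left x
  exact h1.comp_mul_left' hc

theorem integral_ck_affine {c : ℝ} (hc : 0 < c) (x : ℝ) :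
    ∫ z : ℝ, ck (x - c * z) = Real.pi / c := by
  rw [Measure.integral_comp_mul_left (fun z => ck (x - z)) c, integral_sub_left_eq_self ck,
    integral_ck, abs_of_pos (inv_pos.2 hc), smul_eq_mul]
  field_simp

theorem integrable_ck_div {Λ : ℝ} (h : Λ ≠ 0) : Integrable fun s : ℝ => ck (s / Λ) :=
  integrable_ck.comp_div h

theorem integral_ck_div {Λ : ℝ} (h : 0 < Λ) : ∫ s : ℝ, ck (s / Λ) = Real.pi * Λ := by
  rw [Measure.integral_comp_div ck Λ, integral_ck, abs_of_pos h, smul_eq_mul, mul_comm]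

theorem Sep.mono {δ : ℝ} {U U' : Finset ℝ} (h : Sep δ U) (hU : U' ⊆ U) : Sep δ U' :=
  fun s hs t ht hst => h s (hU hs) t (hU ht) hst

theorem Win.mono {s L : ℝ} {U U' : Finset ℝ} (h : Win U s L) (hU : U' ⊆ U) : Win U' s L :=
  fun t ht => h t (hU ht)

theorem norm_RR_le (U : Finset ℝ) (z : ℝ) : ‖RR U z‖ ≤ U.card :=
  (norm_sum_le _ _).trans (by simp)

@[fun_prop] theorem continuous_RR (U : Finset ℝ) : Continuous (RR U) := by
  unfold RR; fun_prop

theorem PP_nonneg (U : Finset ℝ) (Λ : ℝ) : 0 ≤ PP U Λ :=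
  sum_nonneg fun _ _ => sum_nonneg fun _ _ => ck_nonneg _

theorem EE_nonneg (U : Finset ℝ) (Λ : ℝ) : 0 ≤ EE U Λ :=
  sum_nonneg fun _ _ => sum_nonneg fun _ _ => sum_nonneg fun _ _ => sum_nonneg fun _ _ =>
    ck_nonneg _

/-! ### Closure properties of `C2` -/

theorem C2D.mono {a a1 a2 : ℝ → ℂ} {α β l l' A A' : ℝ} (h : C2D a a1 a2 α β l A) (h0 : 0 < l')
    (hl : l' ≤ l) (hA0 : 0 ≤ A') (hA : A ≤ A') : C2D a a1 a2 α β l' A' where
  d1 := h.d1
  d2 := h.d2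
  cont := h.cont
  b0 := fun y hy => (h.b0 y hy).trans hA
  b1 := fun y hy => (h.b1 y hy).trans (by gcongr)
  b2 := fun y hy => (h.b2 y hy).trans (by gcongr)

theorem C2D.contOn {a a1 a2 : ℝ → ℂ} {α β l A : ℝ} (h : C2D a a1 a2 α β l A) :
    ContinuousOn a (Set.Icc α β) := fun y hy => (h.d1 y hy).continuousAt.continuousWithinAt

theorem C2D.contOn1 {a a1 a2 : ℝ → ℂ} {α β l A : ℝ} (h : C2D a a1 a2 α β l A) :
    ContinuousOn a1 (Set.Icc α β) := fun y hy => (h.d2 y hy).continuousAt.continuousWithinAt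

theorem C2D.mul {a a1 a2 b b1 b2 : ℝ → ℂ} {α β l A B : ℝ} (h : C2D a a1 a2 α β l A)
    (h' : C2D b b1 b2 α β l B) :
    C2D (fun y => a y * b y) (fun y => a1 y * b y + a y * b1 y)
      (fun y => (a2 y * b y + a1 y * b1 y) + (a1 y * b1 y + a y * b2 y)) α β l (4 * (A * B)) := by
  have k : ∀ {u v : ℂ} {p q : ℝ}, ‖u‖ ≤ p → ‖v‖ ≤ q → ‖u * v‖ ≤ p * q := fun hu hv => by
    rw [norm_mul]; exact mul_le_mul hu hv (norm_nonneg _) ((norm_nonneg _).trans hu)
  refine ⟨fun y hy => (h.d1 y hy).mul (h'.d1 y hy),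
    fun y hy => ((h.d2 y hy).mul (h'.d1 y hy)).add ((h.d1 y hy).mul (h'.d2 y hy)), ?_,
    fun y hy => ?_, fun y hy => ?_, fun y hy => ?_⟩
  · exact ((h.cont.mul h'.contOn).add (h.contOn1.mul h'.contOn1)).add
      ((h.contOn1.mul h'.contOn1).add (h.contOn.mul h'.cont))
  · have := k (h.b0 y hy) (h'.b0 y hy)
    linarith [norm_nonneg (a y * b y)]
  · have e1 := k (h.b1 y hy) (h'.b0 y hy)
    have e2 := k (h.b0 y hy) (h'.b1 y hy)
    have e3 : A / l * B = A * B / l := by ring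
    have e4 : A * (B / l) = A * B / l := by ring
    have e5 : 4 * (A * B) / l = 4 * (A * B / l) := by ring
    linarith [norm_add_le (a1 y * b y) (a y * b1 y), norm_nonneg (a1 y * b y)]
  · have e1 := k (h.b2 y hy) (h'.b0 y hy)
    have e2 := k (h.b1 y hy) (h'.b1 y hy)
    have e3 := k (h.b0 y hy) (h'.b2 y hy)
    have e4 : A / l ^ 2 * B = A * B / l ^ 2 := by ring
    have e5 : A / l * (B / l) = A * B / l ^ 2 := by ring
    have e6 : A * (B / l ^ 2) = A * B / l ^ 2 := by ring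
    have e7 : 4 * (A * B) / l ^ 2 = 4 * (A * B / l ^ 2) := by ring
    linarith [norm_add_le (a2 y * b y + a1 y * b1 y) (a1 y * b1 y + a y * b2 y),
      norm_add_le (a2 y * b y) (a1 y * b1 y), norm_add_le (a1 y * b1 y) (a y * b2 y)]

theorem C2.mono {a : ℝ → ℂ} {α β l l' A A' : ℝ} (h : C2 a α β l A) (h0 : 0 < l')
    (hl : l' ≤ l) (hA0 : 0 ≤ A') (hA : A ≤ A') : C2 a α β l' A' := by
  obtain ⟨a1, a2, h⟩ := h
  exact ⟨a1, a2, h.mono h0 hl hA0 hA⟩

theorem C20.mono {a : ℝ → ℂ} {α β l l' A A' : ℝ} (h : C20 a α β l A) (h0 : 0 < l')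
    (hl : l' ≤ l) (hA0 : 0 ≤ A') (hA : A ≤ A') : C20 a α β l' A' := by
  obtain ⟨a1, a2, h, h'⟩ := h
  exact ⟨a1, a2, h.mono h0 hl hA0 hA, h'⟩

theorem C20.toC2 {a : ℝ → ℂ} {α β l A : ℝ} (h : C20 a α β l A) : C2 a α β l A := by
  obtain ⟨a1, a2, h, _⟩ := h
  exact ⟨a1, a2, h⟩

theorem C2.mul {a b : ℝ → ℂ} {α β l A B : ℝ} (h : C2 a α β l A) (h' : C2 b α β l B) :
    C2 (fun y => a y * b y) α β l (4 * (A * B)) := by
  obtain ⟨a1, a2, h⟩ := h
  obtain ⟨b1, b2, h'⟩ := h'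
  exact ⟨_, _, h.mul h'⟩

theorem C20.mul {a b : ℝ → ℂ} {α β l A B : ℝ} (h : C20 a α β l A) (h' : C2 b α β l B) :
    C20 (fun y => a y * b y) α β l (4 * (A * B)) := by
  obtain ⟨a1, a2, h, e1, e2, e3, e4⟩ := h
  obtain ⟨b1, b2, h'⟩ := h'
  exact ⟨_, _, h.mul h', by simp [e1], by simp [e2], by simp [e1, e3], by simp [e2, e4]⟩

theorem C2.const (c : ℂ) (α β : ℝ) {l : ℝ} (hl : 0 < l) : C2 (fun _ => c) α β l ‖c‖ :=
  ⟨fun _ => 0, fun _ => 0, fun y _ => hasDerivAt_const y c, fun y _ => hasDerivAt_const y 0,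
    continuousOn_const, fun _ _ => le_rfl, fun _ _ => by simp; positivity,
    fun _ _ => by simp; positivity⟩

/-- real functions -/
theorem C2.ofReal {f f1 f2 : ℝ → ℝ} {α β l A : ℝ}
    (h : ∀ y ∈ Set.Icc α β, HasDerivAt f (f1 y) y ∧ HasDerivAt f1 (f2 y) y ∧ |f y| ≤ A ∧
      |f1 y| ≤ A / l ∧ |f2 y| ≤ A / l ^ 2) (hc : ContinuousOn f2 (Set.Icc α β)) :
    C2 (fun y => (f y : ℂ)) α β l A :=
  ⟨fun y => (f1 y : ℂ), fun y => (f2 y : ℂ), fun y hy => (h y hy).1.ofReal_comp,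
    fun y hy => (h y hy).2.1.ofReal_comp, Complex.continuous_ofReal.comp_continuousOn hc,
    fun y hy => by simpa using (h y hy).2.2.1, fun y hy => by simpa using (h y hy).2.2.2.1,
    fun y hy => by simpa using (h y hy).2.2.2.2⟩

/-- unimodular factors -/
theorem C2.phase {f f1 f2 : ℝ → ℝ} {α β l : ℝ} (hl : 0 < l)
    (h : ∀ y ∈ Set.Icc α β, HasDerivAt f (f1 y) y ∧ HasDerivAt f1 (f2 y) y ∧
      |f1 y| ≤ 1 / l ∧ |f2 y| ≤ 1 / l ^ 2) (hc : ContinuousOn f2 (Set.Icc α β)) :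
    C2 (fun y => E (f y)) α β l 50 := by
  have c0 : ContinuousOn f (Set.Icc α β) := fun y hy => (h y hy).1.continuousAt.continuousWithinAt
  have c1 : ContinuousOn f1 (Set.Icc α β) :=
    fun y hy => (h y hy).2.1.continuousAt.continuousWithinAt
  have p1 := Real.pi_pos
  have p2 := Real.pi_lt_d2
  refine ⟨fun y => 2 * Real.pi * Complex.I * f1 y * E (f y),
    fun y => 2 * Real.pi * Complex.I * f2 y * E (f y) +
      2 * Real.pi * Complex.I * f1 y * (2 * Real.pi * Complex.I * f1 y * E (f y)),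
    fun y hy => hasDerivAt_E_comp (h y hy).1,
    fun y hy => ((h y hy).2.1.ofReal_comp.const_mul _).mul (hasDerivAt_E_comp (h y hy).1), ?_,
    fun y hy => by simp, fun y hy => ?_, fun y hy => ?_⟩
  · have e0 : ContinuousOn (fun y => E (f y)) (Set.Icc α β) := continuous_E.comp_continuousOn c0
    have e1 : ContinuousOn (fun y => (f1 y : ℂ)) (Set.Icc α β) :=
      Complex.continuous_ofReal.comp_continuousOn c1
    have e2 : ContinuousOn (fun y => (f2 y : ℂ)) (Set.Icc α β) :=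
      Complex.continuous_ofReal.comp_continuousOn hc
    exact ((continuousOn_const.mul e2).mul e0).add
      ((continuousOn_const.mul e1).mul ((continuousOn_const.mul e1).mul e0))
  · have := (h y hy).2.2.1
    simp only [norm_mul, norm_E, Complex.norm_I, Complex.norm_real, Real.norm_eq_abs,
      Complex.norm_ofNat, abs_of_pos p1, mul_one]
    calc _ ≤ 50 * (1 / l) := by gcongr; linarith
      _ = _ := by ring
  · have e1 := (h y hy).2.2.1
    have e2 := (h y hy).2.2.2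
    refine (norm_add_le _ _).trans ?_
    simp only [norm_mul, norm_E, Complex.norm_I, Complex.norm_real, Real.norm_eq_abs,
      Complex.norm_ofNat, abs_of_pos p1, mul_one]
    calc _ ≤ 7 * (1 / l ^ 2) + 6.4 * (1 / l) * (6.4 * (1 / l)) := by gcongr <;> linarith
      _ = 47.96 * (1 / l ^ 2) := by ring
      _ ≤ 50 * (1 / l ^ 2) := by gcongr; norm_num
      _ = _ := by ring

end Pool.Agent.MP_3d0d30_nt.Six
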