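import Pool.Agent.MP_3d0d30_nt.Six.Spec

/-! Project SIX, module DAB: the two bounds for the Atkinson type sums on a window. -/

set_option autoImplicit false

namespace Pool.Agent.MP_3d0d30_nt.Six

open Finset Filter Real

namespace DAB

lemma ev_const (c : ℝ) {δ : ℝ} (hδ : 0 < δ) : ∀ᶠ T : ℝ in atTop, c ≤ exp (δ * log T) :=
  (tendsto_exp_atTop.comp (tendsto_log_atTop.const_mul_atTop hδ)).eventually_ge_atTop c

lemma ev_log {δ : ℝ} (hδ : 0 < δ) : ∀ᶠ T : ℝ in atTop, 1 + log T ≤ exp (δ * log T) := by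
  filter_upwards [tendsto_log_atTop.eventually_ge_atTop (2 / δ ^ 2)] with T hT
  have h0 : 0 < 2 / δ ^ 2 := by positivity
  have h1 : 2 ≤ log T * δ ^ 2 := (div_le_iff₀ (by positivity)).mp hT
  have h2 : 0 ≤ δ * log T := mul_nonneg hδ.le (h0.le.trans hT)
  have h3 := quadratic_le_exp_of_nonneg h2
  nlinarith

lemma split (U : Finset ℝ) (f : ℝ → ℝ) {V : ℝ} (hV : 0 ≤ V) :
    ∑ t ∈ U, f t ≤ V * U.card + ∑ t ∈ U.filter (fun t => V ≤ f t), f t := by
  rw [← Finset.sum_filter_not_add_sum_filter U (fun t => V ≤ f t)]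
  gcongr
  calc ∑ t ∈ U.filter (fun t => ¬V ≤ f t), f t ≤ ∑ t ∈ U.filter (fun t => ¬V ≤ f t), V :=
        Finset.sum_le_sum fun t ht => (not_le.mp (mem_filter.mp ht).2).le
    _ = V * (U.filter (fun t => ¬V ≤ f t)).card := by rw [sum_const, nsmul_eq_mul, mul_comm]
    _ ≤ V * U.card := by gcongr; exact filter_subset _ _

lemma windows (U : Finset ℝ) (f : ℝ → ℝ) {L W B : ℝ} (hW : 0 < W) (hL : 0 ≤ L) (hB : 0 ≤ B)
    (hU : Win U 0 L) (h : ∀ s : ℝ, ∀ U' ⊆ U, Win U' s W → ∑ t ∈ U', f t ≤ B) :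
    ∑ t ∈ U, f t ≤ (L / W + 1) * B := by
  rw [← Finset.sum_fiberwise_of_maps_to (g := fun t => ⌊t / W⌋₊) (t := range (⌊L / W⌋₊ + 1))]
  · calc _ ≤ ∑ _j ∈ range (⌊L / W⌋₊ + 1), B := by
          refine Finset.sum_le_sum fun j _ => h (j * W) _ (filter_subset _ _) fun t ht => ?_
          obtain ⟨ht1, ht2⟩ := mem_filter.mp ht
          have h0 : 0 ≤ t / W := div_nonneg (hU t ht1).1 hW.le
          have h1 := Nat.floor_le h0
          have h2 := Nat.lt_floor_add_one (t / W)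
          rw [ht2] at h1 h2
          rw [le_div_iff₀ hW] at h1
          rw [div_lt_iff₀ hW] at h2
          constructor <;> nlinarith
      _ = (⌊L / W⌋₊ + 1 : ℝ) * B := by simp
      _ ≤ _ := by gcongr; exact Nat.floor_le (div_nonneg hL hW.le)
  · intro t ht
    have h1 := (hU t ht).2
    rw [zero_add] at h1
    exact mem_range.mpr (Nat.lt_succ_of_le (Nat.floor_le_floor (by gcongr)))

lemma sep_mono {U U' : Finset ℝ} (h : Sep 1 U) (hs : U' ⊆ U) : Sep 1 U' :=
  fun s h1 t h2 => h s (hs h1) t (hs h2)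

lemma win_mono {U U' : Finset ℝ} {s L : ℝ} (h : Win U s L) (hs : U' ⊆ U) : Win U' s L :=
  fun t h1 => h t (hs h1)

lemma absorb {S A w V c : ℝ} (hV : 0 < V) (hw : 0 ≤ w) (hc : 0 ≤ c)
    (h1 : V * c ≤ S) (h2 : S ≤ A * √(w * c)) : S ≤ A ^ 2 * w / V := by
  have hS : 0 ≤ S := (mul_nonneg hV.le hc).trans h1
  have h3 : S ^ 2 ≤ A ^ 2 * (w * c) := by
    calc S ^ 2 ≤ (A * √(w * c)) ^ 2 := by gcongr
      _ = A ^ 2 * (w * c) := by rw [mul_pow, sq_sqrt (mul_nonneg hw hc)]
  rw [le_div_iff₀ hV]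
  rcases hS.eq_or_lt with h | h
  · rw [← h]
    have : 0 ≤ A ^ 2 * w := by positivity
    linarith
  · refine le_of_mul_le_mul_left ?_ h
    have h4 : A ^ 2 * w * (V * c) ≤ A ^ 2 * w * S := by gcongr
    nlinarith

/-- the common set-up in logarithmic variables -/
lemma setup {T Y k : ℝ} {N : ℕ} (hT : 0 < T) (hY : 0 < Y) (hk : 512 ≤ exp k)
    (h1 : T / Y ^ 2 / 512 ≤ N) (h2 : (N : ℝ) ≤ 64 * (T / Y ^ 2)) :
    1 ≤ N ∧ log T - 2 * log Y - k ≤ log N ∧ log N ≤ k + log T - 2 * log Y ∧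
      (N * T) ^ (1 / 4 : ℝ) = exp ((log N + log T) / 4) ∧
      √(T * Y) = exp ((log T + log Y) / 2) := by
  have h0 : (0 : ℝ) < N := lt_of_lt_of_le (by positivity) h1
  have e : T / Y ^ 2 = exp (log T - 2 * log Y) := by
    rw [exp_sub, exp_log hT, show 2 * log Y = (2 : ℕ) * log Y by norm_num, exp_nat_mul, exp_log hY]
  refine ⟨by exact_mod_cast h0, ?_, ?_, ?_, ?_⟩
  · rw [le_log_iff_exp_le h0, exp_sub, ← e]
    refine le_trans ?_ h1
    gcongr
  · rw [log_le_iff_le_exp h0, add_sub_assoc, exp_add, ← e]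
    refine h2.trans ?_
    gcongr
    linarith
  · rw [rpow_def_of_pos (by positivity), log_mul h0.ne' hT.ne']
    congr 1
    ring
  · rw [sqrt_eq_rpow, rpow_def_of_pos (by positivity), log_mul hT.ne' hY.ne']
    congr 1
    ring

lemma exp_add_one_le {a k : ℝ} (ha : 0 ≤ a) (hk : 2 ≤ exp k) : exp a + 1 ≤ exp (k + a) := by
  rw [exp_add]
  have := one_le_exp ha
  nlinarith

end DAB

open DAB

theorem da_of (hH : HalaszStmt) : DAStmt := by
  obtain ⟨C, hC0, hC⟩ := hH
  intro ε hε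
  have hδ : 0 < min ε 1 / 100 := by positivity
  have hδ1 : min ε 1 / 100 ≤ ε / 100 := by gcongr; exact min_le_left _ _
  have hδ2 : min ε 1 / 100 ≤ 1 / 100 := by gcongr; exact min_le_right _ _
  filter_upwards [ev_const C hδ, ev_const 512 hδ, ev_log hδ, eventually_gt_atTop 1]
    with T e1 e2 e3 hT1 Y hY1 hY2 N β a U hN1 hN2 hβ0 hβ1 _ ha hS hW
  have hT : 0 < T := by linarith
  have hY : 0 < Y := lt_of_lt_of_le (rpow_pos_of_pos hT _) hY1
  obtain ⟨hN, n1, n2, eV, eL⟩ := setup hT hY e2 hN1 hN2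
  have hN0 : (0 : ℝ) < N := by exact_mod_cast hN
  have hl : 0 < log T := log_pos hT1
  have y1 : log T / 10 ≤ log Y := by
    have := log_le_log (rpow_pos_of_pos hT _) hY1
    rw [log_rpow hT] at this
    linarith
  have y2 : 3 * log Y ≤ log T := by
    have := log_le_log (by positivity) hY2
    rw [log_pow] at this
    exact_mod_cast this
  have eZ : T ^ (2 + ε) / Y ^ 5 = exp ((2 + ε) * log T - 5 * log Y) := by
    rw [exp_sub, rpow_def_of_pos hT, show 5 * log Y = (5 : ℕ) * log Y by norm_num, exp_nat_mul,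
      exp_log hY, mul_comm]
  have k1 : min ε 1 / 100 * log T ≤ ε / 100 * log T := by gcongr
  have k2 : min ε 1 / 100 * log T ≤ 1 / 100 * log T := by gcongr
  have k0 : 0 ≤ min ε 1 / 100 * log T := by positivity
  rw [eZ, eV]
  rw [eL] at hW
  have eN : (N : ℝ) = exp (log N) := (exp_log hN0).symm
  generalize min ε 1 / 100 * log T = k at *
  generalize log T = l at *
  generalize log Y = y at *
  generalize hn : log (N : ℝ) = n at *
  refine (split U _ (exp_pos ((n + l) / 4)).le).trans (add_le_add le_rfl ?_)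
  set U1 := U.filter (fun t => exp ((n + l) / 4) ≤ ‖Dsum N β a t‖) with hU1
  have hsub : U1 ⊆ U := filter_subset _ _
  have hCV : C * √(N : ℝ) ≤ exp ((n + l) / 4) := by
    rw [eN, ← exp_half]
    calc C * exp (n / 2) ≤ exp k * exp (n / 2) := by gcongr
      _ = exp (k + n / 2) := (exp_add _ _).symm
      _ ≤ _ := exp_le_exp.mpr (by linarith)
  have h1 := hC N β a _ 0 _ U1 hN hβ0 hβ1 ha (by positivity) hCV (sep_mono hS hsub)
    (win_mono hW hsub) (fun t ht => (mem_filter.mp ht).2)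
  rw [← mul_assoc, hn] at h1
  have hn0 : 0 ≤ n := by linarith
  have h2 : exp ((n + l) / 4) * U1.card ≤ ∑ t ∈ U1, ‖Dsum N β a t‖ := by
    rw [mul_comm, ← nsmul_eq_mul]
    exact Finset.card_nsmul_le_sum _ _ _ fun t ht => (mem_filter.mp ht).2
  have hw0 : 0 ≤ 7 * exp ((l + y) / 2) * N ^ 2 / exp ((n + l) / 4) ^ 4 + 1 := by positivity
  refine (absorb (exp_pos _) hw0 (Nat.cast_nonneg _) h2 h1).trans ?_
  have h3 : 7 * exp ((l + y) / 2) * N ^ 2 / exp ((n + l) / 4) ^ 4 + 1 ≤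
      exp (k + (2 * k + l / 2 - 3 * y / 2)) := by
    refine le_trans ?_ (exp_add_one_le (by linarith) (by linarith))
    gcongr
    calc _ ≤ exp k * exp ((l + y) / 2) * N ^ 2 / exp ((n + l) / 4) ^ 4 := by gcongr; linarith
      _ = exp (k + (l + y) / 2 + (2 : ℕ) * n - (4 : ℕ) * ((n + l) / 4)) := by
        rw [exp_sub, exp_add, exp_add, exp_nat_mul, exp_nat_mul, ← eN]
      _ ≤ _ := exp_le_exp.mpr (by push_cast; linarith)
  have h4 : 1 + n ≤ exp k := by linarith
  calc _ ≤ (exp k * (N * exp k)) ^ 2 * exp (k + (2 * k + l / 2 - 3 * y / 2)) /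
        exp ((n + l) / 4) := by gcongr
    _ = exp ((2 : ℕ) * (k + (n + k)) + (k + (2 * k + l / 2 - 3 * y / 2)) - (n + l) / 4) := by
        rw [exp_sub, exp_add _ (k + _), exp_nat_mul, exp_add k (n + k), exp_add n k, ← eN]
    _ ≤ _ := exp_le_exp.mpr (by push_cast; linarith)

theorem db_of (hL : LVStmt) : DBStmt := by
  obtain ⟨C, hC0, hC⟩ := hL
  intro ε hε
  have hδ : 0 < min ε 1 / 100 := by positivity
  have hδ1 : min ε 1 / 100 ≤ ε / 100 := by gcongr; exact min_le_left _ _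
  have hδ2 : min ε 1 / 100 ≤ 1 / 100 := by gcongr; exact min_le_right _ _
  filter_upwards [ev_const C hδ, ev_const 512 hδ, ev_log hδ, eventually_gt_atTop 1]
    with T e1 e2 e3 hT1 v Y hv1 hv2 hY1 hY2 N β a U hN1 hN2 hβ0 _ hβ ha hS hW
  have hT : 0 < T := by linarith
  have hY : 0 < Y := lt_of_lt_of_le (rpow_pos_of_pos hT _) hY1
  obtain ⟨hN, n1, n2, eV, eL⟩ := setup hT hY e2 hN1 hN2
  have hN0 : (0 : ℝ) < N := by exact_mod_cast hN
  have hl : 0 < log T := log_pos hT1
  have y1 : 2 * (v * log T) ≤ log Y := by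
    have := log_le_log (rpow_pos_of_pos hT _) hY1
    rw [log_rpow hT] at this
    linarith
  have y2 : 3 * log Y ≤ log T := by
    have := log_le_log (by positivity) hY2
    rw [log_pow] at this
    exact_mod_cast this
  have eZ : T ^ (41 / 29 - 156 / 29 * v + ε) =
      exp (41 / 29 * log T - 156 / 29 * (v * log T) + ε * log T) := by
    rw [rpow_def_of_pos hT]
    congr 1
    ring
  have k1 : min ε 1 / 100 * log T ≤ ε * log T / 100 := by
    calc _ ≤ ε / 100 * log T := by gcongr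
      _ = _ := by ring
  have k2 : min ε 1 / 100 * log T ≤ 1 / 100 * log T := by gcongr
  have k0 : 0 ≤ min ε 1 / 100 * log T := by positivity
  have v1 : 12 / 100 * log T ≤ v * log T := by gcongr
  have v2 : v * log T ≤ 13 / 100 * log T := by gcongr
  rw [eZ, eV]
  rw [eL] at hW
  have eN : (N : ℝ) = exp (log N) := (exp_log hN0).symm
  have eT : T = exp (log T) := (exp_log hT).symm
  generalize min ε 1 / 100 * log T = k at *
  generalize v * log T = w at *
  generalize ε * log T = e at *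
  generalize log T = l at *
  generalize log Y = y at *
  generalize log (N : ℝ) = n at *
  obtain ⟨m, hm⟩ : ∃ m : ℝ, m = (88 * w - 9 * l) / 29 := ⟨_, rfl⟩
  obtain ⟨f, hf⟩ : ∃ f : ℝ, f = (2 * k + 6 * m + (k + (3 * k + l + m - 8 * w)) + 14 * n) / 8 :=
    ⟨_, rfl⟩
  refine (split U _ (exp_pos ((n + l) / 4)).le).trans (add_le_add le_rfl ?_)
  set U1 := U.filter (fun t => exp ((n + l) / 4) ≤ ‖Dsum N β a t‖) with hU1
  have hsub : U1 ⊆ U := filter_subset _ _
  have hn0 : 0 ≤ n := by linarith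
  have hβ2 : β ^ 2 ≤ exp (k + n - l) := by
    refine hβ.trans ?_
    rw [exp_sub, exp_add, ← eN, ← eT]
    gcongr
    linarith
  have hβ3 : β ≤ 1 / 10 := by
    have h1 : exp (k + n - l) * exp k ≤ 1 := by
      rw [← exp_add]
      exact exp_le_one_iff.mpr (by linarith)
    have h2 : β ^ 2 * 512 ≤ exp (k + n - l) * exp k := by gcongr
    nlinarith
  have eNM : (N : ℝ) * exp m = exp (n + m) := by rw [exp_add, ← eN]
  have hΦ : (1 + log (N * exp m)) ^ 2 * exp m ^ 6 * (1 + β ^ 2 * N * exp m) * N ^ 14 ≤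
      exp f ^ 8 := by
    have h1 : 1 + log (N * exp m) ≤ exp k := by
      rw [eNM, log_exp]
      linarith
    have h1' : 0 ≤ 1 + log (N * exp m) := by
      rw [eNM, log_exp]
      linarith
    have h2 : 1 + β ^ 2 * N * exp m ≤ exp (k + (3 * k + l + m - 8 * w)) := by
      refine le_trans ?_ (exp_add_one_le (by linarith) (by linarith))
      rw [add_comm, mul_assoc, eNM]
      gcongr
      calc _ ≤ exp (k + n - l) * exp (n + m) := by gcongr
        _ = exp (k + n - l + (n + m)) := (exp_add _ _).symm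
        _ ≤ _ := exp_le_exp.mpr (by linarith)
    calc _ ≤ exp k ^ 2 * exp m ^ 6 * exp (k + (3 * k + l + m - 8 * w)) * N ^ 14 := by gcongr
      _ = exp ((2 : ℕ) * k + (6 : ℕ) * m + (k + (3 * k + l + m - 8 * w)) + (14 : ℕ) * n) := by
        rw [exp_add _ (_ * n), exp_add _ (k + _), exp_add _ (_ * m), exp_nat_mul, exp_nat_mul,
          exp_nat_mul, ← eN]
      _ = exp ((8 : ℕ) * f) := by
        congr 1
        push_cast
        linarith
      _ = _ := exp_nat_mul _ _
  have h1 := windows U1 (fun t => ‖Dsum N β a t‖) (W := N * exp m) (by positivity) (by positivity)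
    (by positivity) (win_mono hW hsub) fun s U' hU' hw =>
      hC N β s (exp m) (exp ((n + l) / 4)) (exp f) a U' hN (one_le_exp (by linarith)) hβ0 hβ3 ha
        (e1.trans (exp_le_exp.mpr (by linarith)))
        (by
          rw [eNM, ← exp_nat_mul]
          exact exp_le_exp.mpr (by push_cast; linarith))
        (exp_pos _).le hΦ (sep_mono hS (hU'.trans hsub)) hw
        (fun t ht => (mem_filter.mp (hU' ht)).2)
  refine h1.trans ?_
  have h2 : 7 * exp ((l + y) / 2) / (N * exp m) + 1 ≤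
      exp (k + (2 * k + 5 * y / 2 - l / 2 - m)) := by
    refine le_trans ?_ (exp_add_one_le (by linarith) (by linarith))
    gcongr
    calc _ ≤ exp k * exp ((l + y) / 2) / (N * exp m) := by gcongr; linarith
      _ = exp (k + (l + y) / 2 - (n + m)) := by rw [exp_sub, exp_add, eNM]
      _ ≤ _ := exp_le_exp.mpr (by linarith)
  obtain ⟨b, hb⟩ : ∃ b : ℝ, b = 41 / 29 * l - 156 / 29 * w + e - 5 * k - (5 * y / 2 - l / 2 - m) :=
    ⟨_, rfl⟩
  have t1 : (N : ℝ) ^ 2 / exp ((n + l) / 4) ≤ exp b := by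
    rw [eN, ← exp_nat_mul, ← exp_sub]
    exact exp_le_exp.mpr (by push_cast; linarith)
  have t2 : exp f * N / exp ((n + l) / 4) ^ 2 ≤ exp b := by
    rw [eN, ← exp_nat_mul, ← exp_add, ← exp_sub]
    exact exp_le_exp.mpr (by push_cast; linarith)
  have t3 : exp f ^ 4 * exp m / (N * exp ((n + l) / 4) ^ 7) ≤ exp b := by
    rw [eN, ← exp_nat_mul, ← exp_nat_mul, ← exp_add, ← exp_add, ← exp_sub]
    exact exp_le_exp.mpr (by push_cast; linarith)
  have t4 : (N : ℝ) ^ 2 / exp ((n + l) / 4) + exp f * N / exp ((n + l) / 4) ^ 2 +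
      exp f ^ 4 * exp m / (N * exp ((n + l) / 4) ^ 7) ≤ exp k * exp b := by
    have := exp_pos b
    nlinarith
  calc _ ≤ exp (k + (2 * k + 5 * y / 2 - l / 2 - m)) * (exp k * (exp k * exp b)) := by gcongr
    _ = _ := by
      rw [← exp_add, ← exp_add, ← exp_add]
      congr 1
      linarith

end Pool.Agent.MP_3d0d30_nt.Six
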