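import Pool.Agent.MP_3d0d30_nt.Six.Defs

/-! Project SIX: the statements of the modules. -/

set_option autoImplicit false

namespace Pool.Agent.MP_3d0d30_nt.Six

open MeasureTheory Finset Filter
open scoped ComplexConjugate

/-- facts on the Cauchy and Laplace kernels -/
structure Kern : Prop where
  cauchy : ∀ Λ θ : ℝ, 0 < Λ → ∫ s : ℝ, (ck (s / Λ) : ℂ) * E (s * θ) =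
    ((Real.pi * Λ * Real.exp (-(2 * Real.pi * Λ * |θ|)) : ℝ) : ℂ)
  laplace : ∀ b θ : ℝ, 0 < b →
    ∫ s : ℝ, ((Real.exp (-(2 * Real.pi * |s| / b)) : ℝ) : ℂ) * E (s * θ) =
      ((b / Real.pi * ck (b * θ) : ℝ) : ℂ)
  intExp : ∀ b : ℝ, 0 < b → Integrable fun s : ℝ => Real.exp (-(2 * Real.pi * |s| / b))
  intExp0 : ∀ b : ℝ, 0 < b → ∫ s : ℝ, Real.exp (-(2 * Real.pi * |s| / b)) = b / Real.pi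
  intExp1 : ∀ b : ℝ, 0 < b → Integrable (fun s : ℝ => Real.exp (-(2 * Real.pi * |s| / b)) * |s|) ∧
    ∫ s : ℝ, Real.exp (-(2 * Real.pi * |s| / b)) * |s| ≤ b ^ 2
  intC : ∀ {ι : Type} (S : Finset ι) (a : ι → ℂ) (θ : ι → ℝ) (Λ : ℝ), 0 < Λ →
    Integrable fun s : ℝ => ck (s / Λ) * ‖∑ i ∈ S, a i * E (s * θ i)‖ ^ 2
  msC : ∀ {ι : Type} (S : Finset ι) (a : ι → ℂ) (θ : ι → ℝ) (Λ : ℝ), 0 < Λ →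
    ((∫ s : ℝ, ck (s / Λ) * ‖∑ i ∈ S, a i * E (s * θ i)‖ ^ 2 : ℝ) : ℂ) =
      Real.pi * Λ * ∑ i ∈ S, ∑ j ∈ S,
        a i * conj (a j) * ((Real.exp (-(2 * Real.pi * Λ * |θ i - θ j|)) : ℝ) : ℂ)
  intL : ∀ {ι : Type} (S : Finset ι) (a : ι → ℂ) (θ : ι → ℝ) (b : ℝ), 0 < b →
    Integrable fun s : ℝ => Real.exp (-(2 * Real.pi * |s| / b)) * ‖∑ i ∈ S, a i * E (s * θ i)‖ ^ 2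
  msL : ∀ {ι : Type} (S : Finset ι) (a : ι → ℂ) (θ : ι → ℝ) (b : ℝ), 0 < b →
    ((∫ s : ℝ, Real.exp (-(2 * Real.pi * |s| / b)) * ‖∑ i ∈ S, a i * E (s * θ i)‖ ^ 2 : ℝ) : ℂ) =
      b / Real.pi * ∑ i ∈ S, ∑ j ∈ S, a i * conj (a j) * ((ck (b * (θ i - θ j)) : ℝ) : ℂ)
  trick : ∀ {ι : Type} (S : Finset ι) (a : ι → ℂ) (θ : ι → ℝ) (θ0 : ℝ), (∀ i ∈ S, θ0 ≤ θ i) →
    ‖∑ i ∈ S, a i‖ ^ 2 ≤ 1 / Real.pi * ∫ s : ℝ, ck s *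
      ‖∑ i ∈ S, a i * ((Real.exp (2 * Real.pi * (θ i - θ0)) : ℝ) : ℂ) * E (s * θ i)‖ ^ 2
  sepsum : ∀ (U : Finset ℝ) (u : ℝ), Sep 1 U → ∑ t ∈ U, ck (u - t) ≤ 10
  sepsumL : ∀ (U : Finset ℝ) (Λ u : ℝ), Sep 1 U → 1 ≤ Λ → ∑ t ∈ U, ck ((u - t) / Λ) ≤ 10 * Λ
  two : ∀ (U : Finset ℝ) (Λ σ u : ℝ), Sep 1 U → 1 ≤ Λ →
    ∑ t ∈ U, ck ((σ - t) / Λ) * ck (u - t) ≤ 200 * ck ((u - σ) / Λ)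
  twoI : ∀ Λ τ : ℝ, 1 ≤ Λ → ∫ w : ℝ, ck (w / Λ) * ck (τ + w) ≤ 200 * ck (τ / Λ)
  sieve : ∀ (U : Finset ℝ) (η : ℝ → ℂ), Sep 1 U → (∀ t, ‖η t‖ ≤ 1) →
    ∫ s in (-4 : ℝ)..4, ‖∑ t ∈ U, η t * E (s * t)‖ ^ 2 ≤ Real.exp 30 * U.card
  elog : ∀ (U : Finset ℝ) (s L : ℝ), 1 ≤ L → Win U s L →
    ∑ t1 ∈ U, ∑ t2 ∈ U, ∑ t3 ∈ U, ∑ t4 ∈ U, 1 / (1 + |t1 + t2 - t3 - t4|) ≤
      20 * (1 + Real.log L) * EE U 1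

/-- non-stationary phase, two integrations by parts -/
def NonStatStmt : Prop := ∃ C : ℝ, 0 < C ∧ ∀ (a : ℝ → ℂ) (φ φ1 φ2 φ3 : ℝ → ℝ) (α β l A μ : ℝ),
  α ≤ β → 0 < l → 0 < μ → C20 a α β l A →
  (∀ y ∈ Set.Icc α β, HasDerivAt φ (φ1 y) y ∧ HasDerivAt φ1 (φ2 y) y ∧ HasDerivAt φ2 (φ3 y) y ∧
    μ ≤ |φ1 y| ∧ |φ2 y| ≤ μ / l ∧ |φ3 y| ≤ μ / l ^ 2) → ContinuousOn φ3 (Set.Icc α β) →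
  ‖∫ y in α..β, a y * E (φ y)‖ ≤ C * ((β - α) * A / (μ * l) ^ 2)

/-- first derivative test for integrals -/
def FirstDerStmt : Prop := ∃ C : ℝ, 0 < C ∧ ∀ (a a1 : ℝ → ℂ) (φ φ1 φ2 : ℝ → ℝ) (α β A A1 μ : ℝ),
  α ≤ β → 0 < μ →
  (∀ y ∈ Set.Icc α β, HasDerivAt a (a1 y) y ∧ ‖a y‖ ≤ A ∧ ‖a1 y‖ ≤ A1) →
  ContinuousOn a1 (Set.Icc α β) →
  (∀ y ∈ Set.Icc α β, HasDerivAt φ (φ1 y) y ∧ HasDerivAt φ1 (φ2 y) y ∧ μ ≤ |φ1 y|) →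
  ContinuousOn φ2 (Set.Icc α β) →
  ((∀ y ∈ Set.Icc α β, 0 ≤ φ2 y) ∨ (∀ y ∈ Set.Icc α β, φ2 y ≤ 0)) →
  ‖∫ y in α..β, a y * E (φ y)‖ ≤ C * ((A + (β - α) * A1) / μ)

/-- second derivative test for integrals -/
def SecDerStmt : Prop := ∃ C : ℝ, 0 < C ∧ ∀ (a a1 : ℝ → ℂ) (φ φ1 φ2 : ℝ → ℝ) (α β A A1 κ : ℝ),
  α ≤ β → 0 < κ →
  (∀ y ∈ Set.Icc α β, HasDerivAt a (a1 y) y ∧ ‖a y‖ ≤ A ∧ ‖a1 y‖ ≤ A1) →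
  ContinuousOn a1 (Set.Icc α β) →
  (∀ y ∈ Set.Icc α β, HasDerivAt φ (φ1 y) y ∧ HasDerivAt φ1 (φ2 y) y) →
  ContinuousOn φ2 (Set.Icc α β) →
  ((∀ y ∈ Set.Icc α β, κ ≤ φ2 y) ∨ (∀ y ∈ Set.Icc α β, φ2 y ≤ -κ)) →
  ‖∫ y in α..β, a y * E (φ y)‖ ≤ C * ((A + (β - α) * A1) / Real.sqrt κ)

/-- Poisson summation -/
def PoissonStmt : Prop := ∀ (g : ℝ → ℂ) (α β h : ℝ) (R : ℕ), 0 < α → α ≤ β → 0 < h → h * β < R →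
  ContinuousOn g (Set.Icc α β) → g α = 0 → g β = 0 →
  (∀ y, 0 ≤ y → y ∉ Set.Icc α β → g y = 0) →
  (Summable fun ν : ℤ => ∫ y in α..β, g y * E (h * ν * y)) →
  HasSum (fun ν : ℤ => (h : ℂ) * ∫ y in α..β, g y * E (h * ν * y)) (∑ n ∈ range R, g (n / h))

/-- the divisor bound -/
def DivisorStmt : Prop := ∀ ε : ℝ, 0 < ε → ∃ C : ℝ, 0 < C ∧ ∀ n : ℕ, 1 ≤ n →
  (n.divisors.card : ℝ) ≤ C * (n : ℝ) ^ ε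

/-- first and second derivative tests for the kernel of the sums -/
def HBoundStmt : Prop := ∃ C : ℝ, 0 < C ∧ ∀ (N : ℕ) (β τ : ℝ), 1 ≤ N → 0 < β → β ≤ 1 →
  ‖Dsum N β (fun _ => 1) τ‖ ≤ C * (N / (1 + |τ|) + Real.sqrt (1 + |τ|))

/-- the Halasz inequality on windows -/
def HalaszStmt : Prop := ∃ C : ℝ, 0 < C ∧ ∀ (N : ℕ) (β : ℝ) (a : ℕ → ℂ) (V s L : ℝ) (U : Finset ℝ),
  1 ≤ N → 0 < β → β ≤ 1 → (∀ k, ‖a k‖ ≤ 1) → 0 ≤ L → C * Real.sqrt N ≤ V → Sep 1 U → Win U s L →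
  (∀ t ∈ U, V ≤ ‖Dsum N β a t‖) →
  ∑ t ∈ U, ‖Dsum N β a t‖ ≤
    C * (N * (1 + Real.log N) * Real.sqrt ((L * N ^ 2 / V ^ 4 + 1) * U.card))

/-- the energy lemma -/
def EnergyStmt : Prop := ∃ C : ℝ, 0 < C ∧
  ∀ (N : ℕ) (β : ℝ) (a : ℕ → ℂ) (V s L : ℝ) (U : Finset ℝ),
  1 ≤ N → 0 < β → β ≤ 1 → (∀ k, ‖a k‖ ≤ 1) → 0 < V → 1 ≤ L → L ≤ V ^ 2 → Sep 1 U → Win U s L →
  (∀ t ∈ U, V ≤ ‖Dsum N β a t‖) →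
  EE U 1 ≤ C * (N ^ 4 / V ^ 4 * U.card + L * U.card ^ 4 / N ^ 2)

/-- the `L⁴` bound for one dual frequency -/
def L4Stmt : Prop := ∀ A0 : ℝ, ∃ C : ℝ, 0 < C ∧
  ∀ (N m : ℕ) (β s L : ℝ) (w ε : ℝ → ℂ) (U : Finset ℝ),
  1 ≤ N → 1 ≤ m → 0 < β → β ≤ 1 / 10 → G2 w A0 → (∀ t, ‖ε t‖ ≤ 1) → 1 ≤ L → Sep 1 U → Win U s L →
  ‖FM N β w ε U m‖ ^ 4 ≤ C * (N ^ 4 * U.card ^ 3 / (N * m) *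
    Real.sqrt (1 + β ^ 2 * L ^ 2 / (N * m)) * (1 + Real.log L) * EE U 1)

/-- duality and Poisson summation -/
def B0Stmt : Prop := ∃ A0 C : ℝ, 0 < C ∧
  ∀ (N : ℕ) (β s M : ℝ) (a : ℕ → ℂ) (U : Finset ℝ),
  1 ≤ N → 1 ≤ M → 0 < β → β ≤ 1 → (∀ k, ‖a k‖ ≤ 1) → Sep 1 U → Win U s (N * M) →
  ∃ w ε : ℝ → ℂ, G2 w A0 ∧ (∀ t, ‖ε t‖ ≤ 1) ∧
    (∑ t ∈ U, ‖Dsum N β a t‖) ^ 2 ≤ C * (N ^ 2 * U.card + U.card ^ 2 +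
      N * ∑ m ∈ Icc 1 ⌈2 * M⌉₊, ‖FM N β w ε U m‖)

/-- the new large values estimate -/
def LVStmt : Prop := ∃ C : ℝ, 0 < C ∧
  ∀ (N : ℕ) (β s M V Φ : ℝ) (a : ℕ → ℂ) (U : Finset ℝ),
  1 ≤ N → 1 ≤ M → 0 < β → β ≤ 1 / 10 → (∀ k, ‖a k‖ ≤ 1) → C ≤ V → N * M ≤ V ^ 2 → 0 ≤ Φ →
  (1 + Real.log (N * M)) ^ 2 * M ^ 6 * (1 + β ^ 2 * N * M) * N ^ 14 ≤ Φ ^ 8 →
  Sep 1 U → Win U s (N * M) → (∀ t ∈ U, V ≤ ‖Dsum N β a t‖) →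
  ∑ t ∈ U, ‖Dsum N β a t‖ ≤ C * (N ^ 2 / V + Φ * N / V ^ 2 + Φ ^ 4 * M / (N * V ^ 7))

/-- size of the oscillatory integral -/
def IBoundStmt : Prop := ∃ C : ℝ, 0 < C ∧ ∀ (T Y t k : ℝ) (a : ℝ → ℂ), 0 < T → 8 ≤ Y → Amp Y a →
  T ≤ t → t ≤ 2 * T → ‖II a Y t k‖ ≤ C * Real.sqrt (Y ^ 3 / T)

/-- the oscillatory integral without stationary point -/
def INonStatStmt : Prop := ∃ C : ℝ, 0 < C ∧ ∀ (T Y t k : ℝ) (a : ℝ → ℂ), 0 < T → 8 ≤ Y →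
  Amp Y a → T ≤ t → t ≤ 2 * T → (k ≤ T / Y ^ 2 / 256 ∨ 32 * (T / Y ^ 2) ≤ k) →
  ‖II a Y t k‖ ≤ C / (Y * (T / Y ^ 2 + |k|) ^ 2)

/-- the frequency in the variable `√t` -/
noncomputable def gam (u0 k : ℝ) : ℝ :=
  2 * u0 / Real.pi * Real.arsinh (Real.sqrt (Real.pi * k / 2) / u0)

/-- slow variation of the amplitude -/
def AtkStmt : Prop := ∃ C : ℝ, 0 < C ∧ ∀ (T Y k u0 L u u' : ℝ) (a : ℝ → ℂ), 0 < T → 100 ≤ Y →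
  Amp Y a → T / Y ^ 2 / 1000 ≤ k → k ≤ 1000 * (T / Y ^ 2) → 0 < u0 → T ≤ u0 ^ 2 →
  u0 ≤ u → u ≤ u0 + L → u ^ 2 ≤ 2 * T → u0 ≤ u' → u' ≤ u0 + L → u' ^ 2 ≤ 2 * T →
  ‖II a Y (u ^ 2) k * E (-((u - u0) * gam u0 k)) - II a Y (u' ^ 2) k * E (-((u' - u0) * gam u0 k))‖
    ≤ C * (Real.sqrt (Y ^ 3 / T) * (1 / Real.sqrt T + L / Y ^ 3) * |u - u'|)

/-- the coefficients after Poisson summation -/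
noncomputable def dk (c : ℕ → ℂ) (H k : ℕ) : ℂ := ∑ h ∈ (Ico H (2 * H)).filter (· ∣ k), c h

/-- Poisson summation in the off-diagonal sum -/
def Star00Stmt : Prop := ∃ C : ℝ, 0 < C ∧
  ∀ (T Y t : ℝ) (H R N1 N2 : ℕ) (a : ℝ → ℂ) (c : ℕ → ℂ), 0 < T → 8 ≤ Y → 1 ≤ H → H * Y ≤ 4 * T →
  8 * Y * H < R → Amp Y a → (∀ h, ‖c h‖ ≤ 1) → T ≤ t → t ≤ 2 * T →
  (N1 : ℝ) ≤ T / Y ^ 2 / 256 → 32 * (T / Y ^ 2) ≤ N2 →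
  ‖SS a c H R t - ∑ k ∈ Ioc N1 N2, dk c H k * II a Y t k‖ ≤ C * Y

/-- a bound for the off-diagonal sums on well spaced points -/
def StarBound (T Y D M : ℝ) : Prop := ∀ (H R : ℕ) (a : ℝ → ℂ) (c : ℕ → ℂ) (J : Finset ℝ),
  1 ≤ H → H * Y ≤ 4 * T → 8 * Y * H < R → Amp Y a → (∀ h, ‖c h‖ ≤ 1) → Win J T T →
  Sep (100 * Y) J → ∑ t ∈ J, ‖SS a c H R t‖ ≤ Y * (D * J.card + M)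

/-- a bound for the Atkinson type sums on a window -/
def DBound (T Y Z : ℝ) : Prop := ∀ (N : ℕ) (β : ℝ) (a : ℕ → ℂ) (U : Finset ℝ),
  T / Y ^ 2 / 512 ≤ N → (N : ℝ) ≤ 64 * (T / Y ^ 2) → 0 < β → β ≤ 1 → β ^ 2 ≤ 2 * N / T →
  (∀ k, ‖a k‖ ≤ 1) → Sep 1 U → Win U 0 (7 * Real.sqrt (T * Y)) →
  ∑ t ∈ U, ‖Dsum N β a t‖ ≤ (N * T) ^ (1 / 4 : ℝ) * U.card + Z

def Star0Stmt : Prop := ∀ ε : ℝ, 0 < ε → ∀ᶠ T : ℝ in atTop, ∀ Y Z : ℝ, 100 ≤ Y → Y ^ 3 ≤ T →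
  0 ≤ Z → DBound T Y Z → StarBound T Y (T ^ ε) (T ^ ε * Z / Y)

def StarTrivStmt : Prop := ∀ ε : ℝ, 0 < ε → ∀ᶠ T : ℝ in atTop, ∀ Y : ℝ, 100 ≤ Y → T ≤ Y ^ 3 →
  StarBound T Y (T ^ ε) 0

def DAStmt : Prop := ∀ ε : ℝ, 0 < ε → ∀ᶠ T : ℝ in atTop, ∀ Y : ℝ, T ^ (1 / 10 : ℝ) ≤ Y →
  Y ^ 3 ≤ T → DBound T Y (T ^ (2 + ε) / Y ^ 5)

def DBStmt : Prop := ∀ ε : ℝ, 0 < ε → ∀ᶠ T : ℝ in atTop, ∀ v Y : ℝ, 12 / 100 ≤ v → v ≤ 13 / 100 →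
  T ^ (2 * v) ≤ Y → Y ^ 3 ≤ T → DBound T Y (T ^ (41 / 29 - 156 / 29 * v + ε))

/-- the local mean square -/
def R1Stmt : Prop := ∃ C : ℝ, 0 < C ∧ ∀ (P G t0 : ℝ) (J : ℕ) (U : Finset ℝ), 0 < P → 1 ≤ G →
  2 * P ≤ 2 ^ J → Sep 1 U → Win U t0 G →
  ∑ t ∈ U, ‖Zs P t‖ ^ 2 ≤ C * (G * (1 + ∑ i ∈ range J, ‖SH P G (2 ^ i) t0‖))

/-- separation of variables -/
def R2Stmt : Prop := ∃ C : ℝ, 0 < C ∧ ∀ (T P G D M : ℝ) (H : ℕ) (J : Finset ℝ), 1 ≤ H →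
  100 ≤ P / H → P ≤ 2 * T → 0 ≤ G → 0 ≤ D → 0 ≤ M → StarBound T (P / H) D M → Win J T T →
  Sep (100 * (P / H)) J → ∑ t ∈ J, ‖SH P G H t‖ ≤ C * (D * J.card + M)

/-- zeta by smooth dyadic pieces -/
def RZetaStmt : Prop := ∃ C : ℝ, 0 < C ∧ ∀ (T t : ℝ) (J : ℕ), 2 ≤ T → T ≤ t → t ≤ 2 * T →
  4 * T ≤ 2 ^ J → zl t ≤ ∑ j ∈ range J, ‖Zs (2 * T / 2 ^ j) t‖ + C * (1 + Real.log T)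

/-- large values of a smooth piece -/
def RedZStmt : Prop := ∀ ε : ℝ, 0 < ε → ε ≤ 1 / 100 → ∀ᶠ T : ℝ in atTop, ∀ V M : ℝ,
  T ^ (1 / 9 : ℝ) ≤ V → 0 ≤ M →
  (∀ Y : ℝ, V ^ 2 / T ^ (2 * ε) ≤ Y → Y ≤ 2 * T → ∃ MY : ℝ, 0 ≤ MY ∧
    StarBound T Y (T ^ (ε / 2)) MY ∧ (Y * T ^ ε / V ^ 2 + 1) * MY ≤ M) →
  ∀ (P : ℝ) (U : Finset ℝ), 0 < P → P ≤ 2 * T → Win U T T → Sep 1 U →
    (∀ t ∈ U, V ≤ ‖Zs P t‖) → (U.card : ℝ) ≤ M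

/-- large values of zeta, twelfth moment type -/
def LZ1Stmt : Prop := ∀ ε : ℝ, 0 < ε → ∀ᶠ T : ℝ in atTop, ∀ (V : ℝ) (U : Finset ℝ),
  T ^ (1 / 8 : ℝ) ≤ V → Win U T T → Sep 1 U → (∀ t ∈ U, V ≤ zl t) →
  (U.card : ℝ) ≤ T ^ (2 + ε) / V ^ 12

/-- large values of zeta, the new estimate -/
def LZ2Stmt : Prop := ∀ ε : ℝ, 0 < ε → ∀ᶠ T : ℝ in atTop, ∀ (V : ℝ) (U : Finset ℝ),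
  T ^ (6 / 49 : ℝ) ≤ V → Win U T T → Sep 1 U → (∀ t ∈ U, V ≤ zl t) →
  (U.card : ℝ) ≤ T ^ (41 / 29 + ε) / V ^ (214 / 29 : ℝ)

/-- the theorem -/
def MainStmt : Prop := ∀ k ε : ℝ, 2 ≤ k → k ≤ 6 → 0 < ε → ∃ C : ℝ, ∀ T : ℝ, 1 ≤ T →
  ∫ t in (0 : ℝ)..T, ‖riemannZeta (1 / 2 + t * Complex.I)‖ ^ (2 * k) ≤
    C * T ^ (max (1 + 12 * (k - 2) / 49) (2 - 17 * (6 - k) / 67) + ε)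

end Pool.Agent.MP_3d0d30_nt.Six
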