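import Mathlib.RingTheory.PiTensorProduct
import Pool.Agent.MP_3d0d30_nt.Six.Spec

/-! Project SIX: the additive energy bound. -/

set_option autoImplicit false

namespace Pool.Agent.MP_3d0d30_nt.Six

open MeasureTheory Finset Filter
open scoped ComplexConjugate

namespace Energy

theorem normsq (z : ℂ) : ((‖z‖ ^ 2 : ℝ) : ℂ) = z * conj z := by
  rw [Complex.mul_conj, Complex.normSq_eq_norm_sq]

/-- exchange of the two sides of a double mean square -/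
theorem swap_sq {ι κ : Type} (A : Finset ι) (K : Finset κ) (x : ι → ℝ) (g : κ → ℝ) :
    ∑ k ∈ K, ∑ k' ∈ K, ‖∑ i ∈ A, E (x i * (g k - g k'))‖ ^ 2 =
      ∑ i ∈ A, ∑ j ∈ A, ‖∑ k ∈ K, E ((x i - x j) * g k)‖ ^ 2 := by
  have h1 : ∀ k k', ((‖∑ i ∈ A, E (x i * (g k - g k'))‖ ^ 2 : ℝ) : ℂ) =
      ∑ i ∈ A, ∑ j ∈ A, E ((x i - x j) * (g k - g k')) := fun k k' => by
    rw [normsq, map_sum, sum_mul_sum]
    refine sum_congr rfl fun i _ => sum_congr rfl fun j _ => ?_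
    rw [← E_sub]; congr 1; ring
  have h2 : ∀ i j, ((‖∑ k ∈ K, E ((x i - x j) * g k)‖ ^ 2 : ℝ) : ℂ) =
      ∑ k ∈ K, ∑ k' ∈ K, E ((x i - x j) * (g k - g k')) := fun i j => by
    rw [normsq, map_sum, sum_mul_sum]
    refine sum_congr rfl fun k _ => sum_congr rfl fun k' _ => ?_
    rw [← E_sub]; congr 1; ring
  apply Complex.ofReal_injective
  simp only [Complex.ofReal_sum, h1, h2]
  calc _ = ∑ k ∈ K, ∑ i ∈ A, ∑ k' ∈ K, ∑ j ∈ A, E ((x i - x j) * (g k - g k')) :=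
        sum_congr rfl fun k _ => sum_comm
    _ = ∑ i ∈ A, ∑ k ∈ K, ∑ j ∈ A, ∑ k' ∈ K, E ((x i - x j) * (g k - g k')) := by
        rw [sum_comm]
        exact sum_congr rfl fun i _ => sum_congr rfl fun k _ => sum_comm
    _ = _ := sum_congr rfl fun i _ => sum_comm

theorem gg_nonneg {β : ℝ} (hβ : 0 < β) (x : ℝ) : 0 ≤ gg β x := by
  unfold gg
  exact div_nonneg (Real.arsinh_nonneg_iff.2 (by positivity)) hβ.le

theorem gg_le {β : ℝ} (hβ : 0 < β) (x : ℝ) : gg β x ≤ Real.sqrt x := by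
  unfold gg
  rw [div_le_iff₀ hβ, mul_comm _ β]
  have h0 : 0 ≤ β * Real.sqrt x := by positivity
  calc _ ≤ Real.arsinh (Real.sinh (β * Real.sqrt x)) :=
        Real.arsinh_le_arsinh.2 (Real.self_le_sinh_iff.2 h0)
    _ = _ := Real.arsinh_sinh _

/-- the weighted sum -/
noncomputable def Db {κ : Type} (K : Finset κ) (b : κ → ℂ) (g : κ → ℝ) (u : ℝ) : ℂ :=
  ∑ k ∈ K, b k * E (u * g k)

theorem Db_shift {κ : Type} (K : Finset κ) (b : κ → ℂ) (g : κ → ℝ) (σ w : ℝ) :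
    Db K b g (σ + w) = ∑ k ∈ K, b k * E (σ * g k) * E (w * g k) := by
  unfold Db
  refine sum_congr rfl fun k _ => ?_
  rw [add_mul, E_add, mul_assoc]

theorem int_shift (hK : Kern) {κ : Type} (K : Finset κ) (b : κ → ℂ) (g : κ → ℝ) (σ : ℝ) :
    Integrable fun u : ℝ => ck (u - σ) * ‖Db K b g u‖ ^ 2 := by
  have h := (hK.intC K (fun k => b k * E (σ * g k)) g 1 one_pos).comp_sub_right σ
  refine h.congr (Eventually.of_forall fun u => ?_)
  simp only [div_one, ← Db_shift, add_sub_cancel]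

/-- the local mean -/
noncomputable def FF {κ : Type} (K : Finset κ) (b : κ → ℂ) (g : κ → ℝ) (σ : ℝ) : ℝ :=
  ∫ u : ℝ, ck (u - σ) * ‖Db K b g u‖ ^ 2

theorem FF_eq {κ : Type} (K : Finset κ) (b : κ → ℂ) (g : κ → ℝ) (σ : ℝ) :
    FF K b g σ = ∫ w : ℝ, ck w * ‖∑ k ∈ K, b k * E (σ * g k) * E (w * g k)‖ ^ 2 := by
  unfold FF
  rw [← integral_add_left_eq_self (fun u : ℝ => ck (u - σ) * ‖Db K b g u‖ ^ 2) σ]
  simp only [add_sub_cancel_left, Db_shift]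

theorem FF_ms (hK : Kern) {κ : Type} (K : Finset κ) (b : κ → ℂ) (g : κ → ℝ) (σ : ℝ) :
    (FF K b g σ : ℂ) = Real.pi * ∑ k ∈ K, ∑ k' ∈ K, b k * conj (b k') *
      ((Real.exp (-(2 * Real.pi * |g k - g k'|)) : ℝ) : ℂ) * E (σ * (g k - g k')) := by
  have h := hK.msC K (fun k => b k * E (σ * g k)) g 1 one_pos
  simp only [div_one, mul_one, Complex.ofReal_one] at h
  rw [FF_eq, h]
  congr 1
  refine sum_congr rfl fun k _ => sum_congr rfl fun k' _ => ?_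
  rw [mul_sub, E_sub, map_mul]
  ring

theorem point_le (hK : Kern) {κ : Type} (K : Finset κ) (a : κ → ℂ) (g : κ → ℝ)
    (hg : ∀ k ∈ K, 0 ≤ g k) (t : ℝ) :
    ‖∑ k ∈ K, a k * E (t * g k)‖ ^ 2 ≤
      1 / Real.pi * FF K (fun k => a k * ((Real.exp (2 * Real.pi * g k) : ℝ) : ℂ)) g t := by
  have h := hK.trick K (fun k => a k * E (t * g k)) g 0 hg
  rw [FF_eq]
  refine h.trans (le_of_eq ?_)
  congr 2
  ext w
  congr 3
  refine sum_congr rfl fun k _ => ?_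
  rw [sub_zero]
  ring

theorem two_le (hK : Kern) {κ : Type} (K : Finset κ) (b : κ → ℂ) (g : κ → ℝ) (U : Finset ℝ)
    (hU : Sep 1 U) (σ : ℝ) : ∑ t ∈ U, ck (σ - t) * FF K b g t ≤ 200 * FF K b g σ := by
  unfold FF
  simp only [← integral_const_mul]
  rw [← integral_finsetSum _ fun t _ => (int_shift hK K b g t).const_mul _]
  refine integral_mono (integrable_finsetSum _ fun t _ => (int_shift hK K b g t).const_mul _)
    ((int_shift hK K b g σ).const_mul _) fun u => ?_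
  have h := hK.two U 1 σ u hU le_rfl
  simp only [div_one] at h
  simp only [← mul_assoc, ← sum_mul]
  gcongr

theorem cube_le (hK : Kern) {κ : Type} (K : Finset κ) (b : κ → ℂ) (g : κ → ℝ) (U : Finset ℝ)
    {B : ℝ} (hb : ∀ k ∈ K, ‖b k‖ ≤ B) :
    ∑ t1 ∈ U, ∑ t2 ∈ U, ∑ t3 ∈ U, FF K b g (t1 + t2 - t3) ≤
      Real.pi * B ^ 2 * ∑ k ∈ K, ∑ k' ∈ K, ‖RR U (g k - g k')‖ ^ 3 := by
  have h1 : ∀ z : ℝ, ∑ t1 ∈ U, ∑ t2 ∈ U, ∑ t3 ∈ U, E ((t1 + t2 - t3) * z) =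
      RR U z * RR U z * conj (RR U z) := fun z => by
    unfold RR
    rw [map_sum, sum_mul_sum, sum_mul]
    refine sum_congr rfl fun t1 _ => ?_
    rw [sum_mul_sum]
    refine sum_congr rfl fun t2 _ => sum_congr rfl fun t3 _ => ?_
    rw [← E_add, ← E_sub]; congr 1; ring
  have h2 : ((∑ t1 ∈ U, ∑ t2 ∈ U, ∑ t3 ∈ U, FF K b g (t1 + t2 - t3) : ℝ) : ℂ) =
      Real.pi * ∑ k ∈ K, ∑ k' ∈ K, b k * conj (b k') *
      ((Real.exp (-(2 * Real.pi * |g k - g k'|)) : ℝ) : ℂ) *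
        (RR U (g k - g k') * RR U (g k - g k') * conj (RR U (g k - g k'))) := by
    simp only [Complex.ofReal_sum, FF_ms hK, ← h1, ← mul_sum]
    congr 1
    simp only [mul_sum]
    simp only [sum_comm (s := U) (t := K)]
  refine (le_abs_self _).trans ?_
  rw [← Real.norm_eq_abs, ← Complex.norm_real, h2, norm_mul, Complex.norm_real,
    Real.norm_of_nonneg Real.pi_pos.le, mul_assoc, mul_sum]
  gcongr
  refine (norm_sum_le _ _).trans (sum_le_sum fun k hk => ?_)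
  rw [mul_sum]
  refine (norm_sum_le _ _).trans (sum_le_sum fun k' hk' => ?_)
  have e1 : Real.exp (-(2 * Real.pi * |g k - g k'|)) ≤ 1 :=
    Real.exp_le_one_iff.2 (neg_nonpos.2 (by positivity))
  have hB : 0 ≤ B := (norm_nonneg _).trans (hb k hk)
  simp only [norm_mul, Complex.norm_conj, Complex.norm_real,
    Real.norm_of_nonneg (Real.exp_pos _).le]
  calc _ ≤ B * B * 1 * (‖RR U (g k - g k')‖ * ‖RR U (g k - g k')‖ * ‖RR U (g k - g k')‖) := by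
        gcongr
        · exact hb k hk
        · exact hb k' hk'
    _ = _ := by ring

theorem cs_cube {κ : Type} (K : Finset κ) (r : κ → κ → ℝ) :
    (∑ k ∈ K, ∑ k' ∈ K, r k k' ^ 3) ^ 2 ≤
      (∑ k ∈ K, ∑ k' ∈ K, r k k' ^ 2) * ∑ k ∈ K, ∑ k' ∈ K, r k k' ^ 4 := by
  simp only [← sum_product']
  have h := sum_mul_sq_le_sq_mul_sq (K ×ˢ K) (fun p => r p.1 p.2) fun p => r p.1 p.2 ^ 2
  refine le_trans (le_of_eq ?_) (h.trans (le_of_eq ?_))
  · congr 1; exact sum_congr rfl fun _ _ => by ring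
  · congr 1; exact sum_congr rfl fun _ _ => by ring

theorem sq_bound {C n y z : ℝ} (hz : 0 ≤ z) (h : z ≤ C * (n / (1 + |y|) + Real.sqrt (1 + |y|))) :
    z ^ 2 ≤ 2 * C ^ 2 * (n ^ 2 * ck y + (1 + |y|)) := by
  have h0 : 0 < 1 + |y| := by positivity
  have h1 : (n / (1 + |y|)) ^ 2 ≤ n ^ 2 * ck y := by
    rw [div_pow, ck, mul_one_div]
    gcongr
    nlinarith [abs_nonneg y, sq_abs y]
  have h2 : Real.sqrt (1 + |y|) ^ 2 = 1 + |y| := Real.sq_sqrt h0.le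
  calc z ^ 2 ≤ (C * (n / (1 + |y|) + Real.sqrt (1 + |y|))) ^ 2 := by gcongr
    _ = C ^ 2 * (n / (1 + |y|) + Real.sqrt (1 + |y|)) ^ 2 := by ring
    _ ≤ C ^ 2 * (2 * (n ^ 2 * ck y + (1 + |y|))) := by
        gcongr
        nlinarith [sq_nonneg (n / (1 + |y|) - Real.sqrt (1 + |y|))]
    _ = _ := by ring

theorem finish {K N V L n e : ℝ} (hK : 0 ≤ K) (hN : 0 < N) (hV : 0 < V) (hL : 0 ≤ L)
    (hLV : L ≤ V ^ 2) (hn : 0 ≤ n) (he : 0 ≤ e)
    (h : V ^ 4 * e ^ 2 ≤ K * ((N ^ 2 * n + L * n ^ 2) * (N ^ 2 * e + L * n ^ 4))) :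
    e ≤ (4 * K + 1) * (N ^ 4 / V ^ 4 * n + L * n ^ 4 / N ^ 2) := by
  have p1 : 0 ≤ N ^ 4 / V ^ 4 * n := by positivity
  have p2 : 0 ≤ L * n ^ 4 / N ^ 2 := by positivity
  have h1 : L * n ^ 2 * N ^ 2 / V ^ 4 ≤ N ^ 4 / V ^ 4 * n + L * n ^ 4 / N ^ 2 := by
    rcases le_total (L * n) (N ^ 2) with c | c
    · have : L * n ^ 2 * N ^ 2 / V ^ 4 ≤ N ^ 4 / V ^ 4 * n := by
        calc _ = L * n * (n * N ^ 2 / V ^ 4) := by ring
          _ ≤ N ^ 2 * (n * N ^ 2 / V ^ 4) := by gcongr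
          _ = _ := by ring
      linarith
    · have c2 : N ^ 2 ≤ V ^ 2 * n := c.trans (by gcongr)
      have : L * n ^ 2 * N ^ 2 / V ^ 4 ≤ L * n ^ 4 / N ^ 2 := by
        rw [div_le_div_iff₀ (by positivity) (by positivity)]
        calc _ = L * n ^ 2 * (N ^ 2) ^ 2 := by ring
          _ ≤ L * n ^ 2 * (V ^ 2 * n) ^ 2 := by gcongr
          _ = _ := by ring
      linarith
  rcases le_total (N ^ 2 * e) (L * n ^ 4) with c | c
  · have : e ≤ L * n ^ 4 / N ^ 2 := by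
      rw [le_div_iff₀ (by positivity)]; linarith
    nlinarith [mul_nonneg hK (add_nonneg p1 p2)]
  · rcases he.eq_or_lt with e0 | e0
    · rw [← e0]; positivity
    have h2 : V ^ 4 * e * e ≤ K * ((N ^ 2 * n + L * n ^ 2) * (2 * N ^ 2)) * e := by
      calc _ = V ^ 4 * e ^ 2 := by ring
        _ ≤ _ := h
        _ ≤ K * ((N ^ 2 * n + L * n ^ 2) * (N ^ 2 * e + N ^ 2 * e)) := by gcongr
        _ = _ := by ring
    have h3 := le_of_mul_le_mul_right h2 e0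
    have h4 : e ≤ 2 * K * (N ^ 4 / V ^ 4 * n + L * n ^ 2 * N ^ 2 / V ^ 4) := by
      calc e = V ^ 4 * e / V ^ 4 := by field_simp
        _ ≤ K * ((N ^ 2 * n + L * n ^ 2) * (2 * N ^ 2)) / V ^ 4 := by gcongr
        _ = _ := by ring
    nlinarith [mul_le_mul_of_nonneg_left h1 hK, mul_nonneg hK p2]

end Energy

open Energy in
theorem energy_of (hK : Kern) (h : HBoundStmt) : EnergyStmt := by
  obtain ⟨C, hC, h⟩ := h
  set B : ℝ := Real.exp (2 * Real.pi * 2) with hB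
  refine ⟨4 * ((200 * B ^ 2) ^ 2 * (20 * C ^ 2 * (6 * C ^ 2))) + 1, by positivity, ?_⟩
  intro N β a V s L U hN hβ hβ1 ha hV hL hLV hS hW hD
  have hN' : (0 : ℝ) < N := by exact_mod_cast hN
  refine finish (by positivity) hN' hV (by linarith) hLV (Nat.cast_nonneg _) (EE_nonneg U 1) ?_
  set K := Ioc N (2 * N) with hKd
  set g : ℕ → ℝ := fun k => gg β (k / N) with hg
  set b : ℕ → ℂ := fun k => a k * ((Real.exp (2 * Real.pi * g k) : ℝ) : ℂ) with hb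
  have hbB : ∀ k ∈ K, ‖b k‖ ≤ B := fun k hk => by
    have k2 : (k : ℝ) ≤ 2 * N := by exact_mod_cast (mem_Ioc.1 hk).2
    have g2 : g k ≤ 2 := (gg_le hβ _).trans (Real.sqrt_le_iff.2 ⟨by norm_num, by
      rw [div_le_iff₀ hN']; linarith⟩)
    simp only [hb, norm_mul, Complex.norm_real, Real.norm_of_nonneg (Real.exp_pos _).le]
    calc _ ≤ 1 * B := by
          gcongr
          · exact ha k
          · exact Real.exp_le_exp.2 (by gcongr)
      _ = B := one_mul _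
  have s1 : ∀ t ∈ U, V ^ 2 ≤ 1 / Real.pi * FF K b g t := fun t ht =>
    le_trans (pow_le_pow_left₀ hV.le (hD t ht) 2) (point_le hK K a g (fun k _ => gg_nonneg hβ _) t)
  have s2 : ∀ σ : ℝ, V ^ 2 * ∑ t ∈ U, ck (σ - t) ≤ 200 / Real.pi * FF K b g σ := fun σ => by
    calc _ = ∑ t ∈ U, ck (σ - t) * V ^ 2 := by rw [mul_comm, sum_mul]
      _ ≤ ∑ t ∈ U, ck (σ - t) * (1 / Real.pi * FF K b g t) :=
          sum_le_sum fun t ht => mul_le_mul_of_nonneg_left (s1 t ht) (ck_nonneg _)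
      _ = 1 / Real.pi * ∑ t ∈ U, ck (σ - t) * FF K b g t := by
          rw [mul_sum]; exact sum_congr rfl fun _ _ => by ring
      _ ≤ 1 / Real.pi * (200 * FF K b g σ) := by gcongr; exact two_le hK K b g U hS σ
      _ = _ := by ring
  have s3 : V ^ 2 * EE U 1 ≤ 200 * B ^ 2 * ∑ k ∈ K, ∑ k' ∈ K, ‖RR U (g k - g k')‖ ^ 3 := by
    calc _ = ∑ t1 ∈ U, ∑ t2 ∈ U, ∑ t3 ∈ U, V ^ 2 * ∑ t ∈ U, ck (t1 + t2 - t3 - t) := by
          simp only [EE, div_one, ← mul_sum]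
      _ ≤ ∑ t1 ∈ U, ∑ t2 ∈ U, ∑ t3 ∈ U, 200 / Real.pi * FF K b g (t1 + t2 - t3) :=
          sum_le_sum fun _ _ => sum_le_sum fun _ _ => sum_le_sum fun _ _ => s2 _
      _ = 200 / Real.pi * ∑ t1 ∈ U, ∑ t2 ∈ U, ∑ t3 ∈ U, FF K b g (t1 + t2 - t3) := by
          simp only [← mul_sum]
      _ ≤ 200 / Real.pi * (Real.pi * B ^ 2 * ∑ k ∈ K, ∑ k' ∈ K, ‖RR U (g k - g k')‖ ^ 3) := by
          gcongr; exact cube_le hK K b g U hbB
      _ = _ := by have := Real.pi_pos; field_simp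
  have hh : ∀ y : ℝ, ‖∑ k ∈ K, E (y * g k)‖ ^ 2 ≤ 2 * C ^ 2 * (N ^ 2 * ck y + (1 + |y|)) :=
    fun y => sq_bound (norm_nonneg _) (by simpa [Dsum] using h N β y hN hβ hβ1)
  have hd : ∀ t ∈ U, ∀ t' ∈ U, |t - t'| ≤ L := fun t ht t' ht' => by
    have := hW t ht; have := hW t' ht'
    rw [abs_le]; constructor <;> linarith
  have s4 : ∑ k ∈ K, ∑ k' ∈ K, ‖RR U (g k - g k')‖ ^ 2 ≤
      20 * C ^ 2 * (N ^ 2 * U.card + L * U.card ^ 2) := by
    calc _ = _ := swap_sq U K (fun t => t) g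
      _ ≤ ∑ t ∈ U, ∑ t' ∈ U, 2 * C ^ 2 * (N ^ 2 * ck (t - t') + 2 * L) :=
          sum_le_sum fun t ht => sum_le_sum fun t' ht' => (hh _).trans (by
            gcongr; linarith [hd t ht t' ht'])
      _ = ∑ t ∈ U, 2 * C ^ 2 * (N ^ 2 * ∑ t' ∈ U, ck (t - t') + U.card * (2 * L)) :=
          sum_congr rfl fun t _ => by
            rw [← mul_sum, sum_add_distrib, ← mul_sum, sum_const, nsmul_eq_mul]
      _ ≤ ∑ t ∈ U, 2 * C ^ 2 * (N ^ 2 * 10 + U.card * (10 * L)) :=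
          sum_le_sum fun t _ => by
            gcongr
            · exact hK.sepsum U t hS
            · norm_num
      _ = _ := by rw [sum_const, nsmul_eq_mul]; ring
  have s5 : ∑ k ∈ K, ∑ k' ∈ K, ‖RR U (g k - g k')‖ ^ 4 ≤
      6 * C ^ 2 * (N ^ 2 * EE U 1 + L * U.card ^ 4) := by
    have e : ∀ z : ℝ, ‖RR U z‖ ^ 4 = ‖∑ p ∈ U ×ˢ U, E ((p.1 + p.2) * z)‖ ^ 2 := fun z => by
      have : ∑ p ∈ U ×ˢ U, E ((p.1 + p.2) * z) = RR U z * RR U z := by
        unfold RR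
        rw [sum_mul_sum, sum_product]
        refine sum_congr rfl fun _ _ => sum_congr rfl fun _ _ => ?_
        rw [add_mul, E_add]
      rw [this, norm_mul]; ring
    simp only [e]
    calc _ = _ := swap_sq (U ×ˢ U) K (fun p => p.1 + p.2) g
      _ ≤ ∑ p ∈ U ×ˢ U, ∑ q ∈ U ×ˢ U,
            2 * C ^ 2 * (N ^ 2 * ck (p.1 + p.2 - q.1 - q.2) + 3 * L) :=
          sum_le_sum fun p hp => sum_le_sum fun q hq => (hh _).trans (by
            have e1 := hd _ (mem_product.1 hp).1 _ (mem_product.1 hq).1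
            have e2 := hd _ (mem_product.1 hp).2 _ (mem_product.1 hq).2
            have e3 := abs_add_le (p.1 - q.1) (p.2 - q.2)
            have e4 : p.1 - q.1 + (p.2 - q.2) = p.1 + p.2 - (q.1 + q.2) := by ring
            rw [e4] at e3
            rw [sub_sub]
            gcongr; linarith)
      _ = 2 * C ^ 2 * (N ^ 2 * EE U 1 + 3 * L * U.card ^ 4) := by
          simp only [sum_product, EE, div_one, ← mul_sum, sum_add_distrib, sum_const, nsmul_eq_mul,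
            card_product, Nat.cast_mul]
          ring
      _ ≤ 2 * C ^ 2 * (3 * (N ^ 2 * EE U 1) + 3 * L * U.card ^ 4) := by
          have := mul_nonneg (sq_nonneg (N : ℝ)) (EE_nonneg U 1)
          exact mul_le_mul_of_nonneg_left (by linarith) (by positivity)
      _ = _ := by ring
  have s6 := cs_cube K fun k k' => ‖RR U (g k - g k')‖
  have n4 : 0 ≤ ∑ k ∈ K, ∑ k' ∈ K, ‖RR U (g k - g k')‖ ^ 4 := by positivity
  have n0 := EE_nonneg U 1
  calc _ = (V ^ 2 * EE U 1) ^ 2 := by ring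
    _ ≤ (200 * B ^ 2 * ∑ k ∈ K, ∑ k' ∈ K, ‖RR U (g k - g k')‖ ^ 3) ^ 2 := by gcongr
    _ = (200 * B ^ 2) ^ 2 * (∑ k ∈ K, ∑ k' ∈ K, ‖RR U (g k - g k')‖ ^ 3) ^ 2 := by ring
    _ ≤ (200 * B ^ 2) ^ 2 * ((20 * C ^ 2 * (N ^ 2 * U.card + L * U.card ^ 2)) *
          (6 * C ^ 2 * (N ^ 2 * EE U 1 + L * U.card ^ 4))) := by
        gcongr
        exact s6.trans (mul_le_mul s4 s5 n4 (by positivity))
    _ = _ := by ring

end Pool.Agent.MP_3d0d30_nt.Six
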