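import Mathlib.Analysis.Calculus.ParametricIntervalIntegral
import Mathlib.Order.CompletePartialOrder
import Pool.Agent.MP_3d0d30_nt.Six.Spec
import Mathlib.Analysis.Complex.ExponentialBounds
import Mathlib.Analysis.SpecialFunctions.Log.Base

-- ======== part 0: formerly Pool.Agent.MP_3d0d30_nt.Six.L4A
section MrgPart0

/-! Project SIX, module L4, part A: general tools. -/

set_option autoImplicit false

namespace Pool.Agent.MP_3d0d30_nt.Six.L4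

open MeasureTheory Finset Filter Set
open scoped ComplexConjugate Topology

theorem cosh_le {x : ℝ} (hx : |x| ≤ 1) : Real.cosh x ≤ 1 + x ^ 2 := by
  have h1 := abs_le.1 (Real.abs_exp_sub_one_sub_id_le hx)
  have h2 := abs_le.1 (Real.abs_exp_sub_one_sub_id_le (x := -x) (by rwa [abs_neg]))
  rw [Real.cosh_eq]; nlinarith [h1.2, h2.2]

theorem abs_sinh_le {x : ℝ} (hx : |x| ≤ 1) : |Real.sinh x| ≤ |x| + x ^ 2 := by
  have h1 := abs_le.1 (Real.abs_exp_sub_one_sub_id_le hx)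
  have h2 := abs_le.1 (Real.abs_exp_sub_one_sub_id_le (x := -x) (by rwa [abs_neg]))
  rw [Real.sinh_eq, abs_le]
  constructor <;> nlinarith [h1.1, h1.2, h2.1, h2.2, le_abs_self x, neg_abs_le x]

/-- hyperbolic tangent -/
noncomputable def th (x : ℝ) : ℝ := Real.sinh x / Real.cosh x

theorem abs_th_le (x : ℝ) : |th x| ≤ 1 := by
  have h := Real.cosh_pos x
  have h2 := Real.cosh_sq x
  rw [th, abs_div, abs_of_pos h, div_le_one h]
  exact abs_le_of_sq_le_sq (by nlinarith) h.le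

theorem hasDerivAt_th (x : ℝ) : HasDerivAt th (1 - th x ^ 2) x := by
  have h := Real.cosh_pos x
  have := (Real.hasDerivAt_sinh x).div (Real.hasDerivAt_cosh x) h.ne'
  refine HasDerivAt.congr_deriv this ?_
  unfold th; field_simp

@[fun_prop] theorem continuous_th : Continuous th :=
  continuous_iff_continuousAt.2 fun x => (hasDerivAt_th x).continuousAt

theorem cosh_sub (A B : ℝ) :
    Real.cosh A - Real.cosh B = th ((A + B) / 2) * (Real.sinh A - Real.sinh B) := by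
  have h := Real.cosh_pos ((A + B) / 2)
  have eA : A = (A + B) / 2 + (A - B) / 2 := by ring
  have eB : B = (A + B) / 2 - (A - B) / 2 := by ring
  generalize (A + B) / 2 = x at *
  generalize (A - B) / 2 = y at *
  subst eA eB
  rw [Real.cosh_add, Real.cosh_sub, Real.sinh_add, Real.sinh_sub, th]
  field_simp; ring

/-- differentiation under the integral sign for jointly continuous data -/
theorem hasDerivAt_param {F F' : ℝ → ℝ → ℂ} (hF : Continuous F.uncurry)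
    (hF' : Continuous F'.uncurry) (h : ∀ c a, HasDerivAt (fun c => F c a) (F' c a) c)
    (α β c : ℝ) : HasDerivAt (fun c => ∫ a in α..β, F c a) (∫ a in α..β, F' c a) c := by
  obtain ⟨B, hB⟩ := ((isCompact_Icc (a := c - 1) (b := c + 1)).prod
    (isCompact_uIcc (a := α) (b := β))).exists_bound_of_continuousOn hF'.continuousOn
  have c1 : ∀ x, Continuous (F x) := fun x => hF.comp (Continuous.prodMk_right x)
  have c2 : ∀ x, Continuous (F' x) := fun x => hF'.comp (Continuous.prodMk_right x)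
  exact (intervalIntegral.hasDerivAt_integral_of_dominated_loc_of_deriv_le
    (s := Icc (c - 1) (c + 1)) (bound := fun _ => B)
    (Icc_mem_nhds (by linarith) (by linarith))
    (Eventually.of_forall fun x => (c1 x).aestronglyMeasurable) ((c1 c).intervalIntegrable _ _)
    (c2 c).aestronglyMeasurable
    (Eventually.of_forall fun t ht x hx => hB (x, t) ⟨hx, uIoc_subset_uIcc ht⟩)
    intervalIntegrable_const (Eventually.of_forall fun t _ x _ => h x t)).2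

/-- the second derivative test for both signs -/
theorem secder_abs (hS : SecDerStmt) : ∃ C : ℝ, 0 < C ∧
    ∀ (a a1 : ℝ → ℂ) (φ φ1 φ2 : ℝ → ℝ) (α β A A1 κ : ℝ), α ≤ β → 0 < κ →
    (∀ y ∈ Icc α β, HasDerivAt a (a1 y) y ∧ ‖a y‖ ≤ A ∧ ‖a1 y‖ ≤ A1) → ContinuousOn a1 (Icc α β) →
    (∀ y ∈ Icc α β, HasDerivAt φ (φ1 y) y ∧ HasDerivAt φ1 (φ2 y) y) →
    ((∀ y ∈ Icc α β, κ ≤ φ2 y) ∨ ∀ y ∈ Icc α β, φ2 y ≤ -κ) → ContinuousOn φ2 (Icc α β) →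
    ‖∫ y in α..β, a y * E (φ y)‖ ≤ C * ((A + (β - α) * A1) / Real.sqrt κ) := by
  obtain ⟨C, hC, h⟩ := hS
  exact ⟨C, hC, fun a a1 φ φ1 φ2 α β A A1 κ h1 h2 h3 h4 h5 h6 h7 =>
    h a a1 φ φ1 φ2 α β A A1 κ h1 h2 h3 h4 h5 h7 h6⟩

/-- the first derivative test -/
theorem firstder {a a1 : ℝ → ℂ} {φ φ1 φ2 : ℝ → ℝ} {α β A μ : ℝ} (h1 : α ≤ β) (h2 : 0 < μ)
    (h3 : ∀ y ∈ Icc α β, HasDerivAt a (a1 y) y ∧ ‖a y‖ ≤ A ∧ ‖a1 y‖ ≤ A)
    (h4 : ContinuousOn a1 (Icc α β))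
    (h5 : ∀ y ∈ Icc α β, HasDerivAt φ (φ1 y) y ∧ HasDerivAt φ1 (φ2 y) y ∧ μ ≤ |φ1 y| ∧ |φ2 y| ≤ μ)
    (h7 : ContinuousOn φ2 (Icc α β)) :
    ‖∫ y in α..β, a y * E (φ y)‖ ≤ (1 + (β - α)) * (A / μ) := by
  have hA : 0 ≤ A := (norm_nonneg _).trans (h3 α ⟨le_rfl, h1⟩).2.1
  have ne : ∀ y ∈ Icc α β, φ1 y ≠ 0 := fun y hy h => by
    have := (h5 y hy).2.2.1; rw [h, abs_zero] at this; linarith
  have ca : ContinuousOn a (Icc α β) := fun y hy => (h3 y hy).1.continuousAt.continuousWithinAt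
  have c0 : ContinuousOn φ (Icc α β) := fun y hy => (h5 y hy).1.continuousAt.continuousWithinAt
  have c1 : ContinuousOn φ1 (Icc α β) := fun y hy => (h5 y hy).2.1.continuousAt.continuousWithinAt
  have cE : ContinuousOn (fun y => E (φ y)) (Icc α β) := continuous_E.comp_continuousOn c0
  have c1' : ContinuousOn (fun y => (φ1 y : ℂ)) (Icc α β) :=
    Complex.continuous_ofReal.comp_continuousOn c1
  have c2' : ContinuousOn (fun y => (φ2 y : ℂ)) (Icc α β) :=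
    Complex.continuous_ofReal.comp_continuousOn h7
  have ne' : ∀ y ∈ Icc α β, (φ1 y : ℂ) ≠ 0 := fun y hy => Complex.ofReal_ne_zero.2 (ne y hy)
  set k : ℂ := 2 * Real.pi * Complex.I with hk
  have hk0 : k ≠ 0 := by simp [hk, Real.pi_ne_zero]
  have hk1 : 2 ≤ ‖k‖ := by
    simp only [hk, norm_mul, Complex.norm_I, Complex.norm_real, Real.norm_eq_abs,
      Complex.norm_ofNat, abs_of_pos Real.pi_pos]
    linarith [Real.pi_gt_three]
  set r : ℝ → ℂ := fun y => (a1 y * φ1 y - a y * φ2 y) / φ1 y ^ 2 * E (φ y) with hr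
  have cr : ContinuousOn r (Icc α β) :=
    (((h4.mul c1').sub (ca.mul c2')).div (c1'.pow 2) fun y hy => pow_ne_zero _ (ne' y hy)).mul cE
  have hd : ∀ y ∈ uIcc α β, HasDerivAt (fun y => a y / φ1 y * E (φ y))
      (r y + k * (a y * E (φ y))) y := fun y hy => by
    rw [uIcc_of_le h1] at hy
    have := (((h3 y hy).1.div (h5 y hy).2.1.ofReal_comp (ne' y hy)).mul
      (hasDerivAt_E_comp (h5 y hy).1))
    refine HasDerivAt.congr_deriv this ?_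
    have := ne' y hy
    simp only [hr, hk, Pi.div_apply]; field_simp
  have i1 : IntervalIntegrable r volume α β := (cr.mono (uIcc_of_le h1).le).intervalIntegrable
  have i2 : IntervalIntegrable (fun y => k * (a y * E (φ y))) volume α β :=
    (((ca.mul cE).mono (uIcc_of_le h1).le).intervalIntegrable).const_mul k
  have e := intervalIntegral.integral_eq_sub_of_hasDerivAt hd (i1.add i2)
  rw [intervalIntegral.integral_add i1 i2, intervalIntegral.integral_const_mul] at e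
  have b1 : ∀ y ∈ Icc α β, ‖a y / φ1 y * E (φ y)‖ ≤ A / μ := fun y hy => by
    rw [norm_mul, norm_E, mul_one, norm_div, Complex.norm_real, Real.norm_eq_abs]
    exact div_le_div₀ hA (h3 y hy).2.1 h2 (h5 y hy).2.2.1
  have b2 : ‖∫ y in α..β, r y‖ ≤ 2 * (A / μ) * |β - α| := by
    refine intervalIntegral.norm_integral_le_of_norm_le_const fun y hy => ?_
    have hy' : y ∈ Icc α β := by rw [← uIcc_of_le h1]; exact uIoc_subset_uIcc hy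
    obtain ⟨-, p1, p2⟩ := h3 y hy'
    obtain ⟨-, -, p3, p4⟩ := h5 y hy'
    have p5 : 0 < |φ1 y| := h2.trans_le p3
    simp only [hr, norm_mul, norm_E, mul_one, norm_div, norm_pow, Complex.norm_real,
      Real.norm_eq_abs]
    rw [div_le_iff₀ (by positivity)]
    refine (norm_sub_le _ _).trans ?_
    simp only [norm_mul, Complex.norm_real, Real.norm_eq_abs]
    have q1 : A ≤ A / μ * |φ1 y| := by rw [div_mul_eq_mul_div, le_div_iff₀ h2]; gcongr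
    have q2 : ‖a1 y‖ * |φ1 y| ≤ A / μ * |φ1 y| * |φ1 y| := by gcongr; exact p2.trans q1
    have q3 : ‖a y‖ * |φ2 y| ≤ A / μ * |φ1 y| * |φ1 y| :=
      mul_le_mul (p1.trans q1) (p4.trans p3) (abs_nonneg _) (by positivity)
    nlinarith
  have e2 : k * ∫ y in α..β, a y * E (φ y) =
      (a β / φ1 β * E (φ β) - a α / φ1 α * E (φ α)) - ∫ y in α..β, r y := by
    rw [← e]; ring
  have b3 := norm_sub_le (a β / φ1 β * E (φ β) - a α / φ1 α * E (φ α)) (∫ y in α..β, r y)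
  have b4 := norm_sub_le (a β / φ1 β * E (φ β)) (a α / φ1 α * E (φ α))
  rw [← e2, norm_mul] at b3
  rw [abs_of_nonneg (by linarith)] at b2
  have b5 := b1 α ⟨le_rfl, h1⟩
  have b6 := b1 β ⟨h1, le_rfl⟩
  nlinarith [norm_nonneg (∫ y in α..β, a y * E (φ y))]

/-- Cauchy-Schwarz on an interval -/
theorem cs_interval {f g : ℝ → ℝ} (hf : Continuous f) (hg : Continuous g) {α β : ℝ} (h : α ≤ β) :
    (∫ y in α..β, f y * g y) ^ 2 ≤ (∫ y in α..β, f y ^ 2) * ∫ y in α..β, g y ^ 2 := by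
  have key : ∀ x : ℝ, 0 ≤ (∫ y in α..β, f y ^ 2) * (x * x) + 2 * (∫ y in α..β, f y * g y) * x +
      ∫ y in α..β, g y ^ 2 := fun x => by
    have i1 : IntervalIntegrable (fun y => f y ^ 2 * (x * x)) volume α β :=
      Continuous.intervalIntegrable (by fun_prop) _ _
    have i2 : IntervalIntegrable (fun y => f y * g y * (2 * x)) volume α β :=
      Continuous.intervalIntegrable (by fun_prop) _ _
    have i3 : IntervalIntegrable (fun y => g y ^ 2) volume α β :=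
      Continuous.intervalIntegrable (by fun_prop) _ _
    have e : ∫ y in α..β, (f y * x + g y) ^ 2 = (∫ y in α..β, f y ^ 2) * (x * x) +
        (∫ y in α..β, f y * g y) * (2 * x) + ∫ y in α..β, g y ^ 2 := by
      rw [← intervalIntegral.integral_mul_const, ← intervalIntegral.integral_mul_const,
        ← intervalIntegral.integral_add i1 i2, ← intervalIntegral.integral_add (i1.add i2) i3]
      congr 1; ext y; ring
    have := intervalIntegral.integral_nonneg (μ := volume) h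
      (f := fun y => (f y * x + g y) ^ 2) fun y _ => sq_nonneg _
    linarith
  have := discrim_le_zero key
  unfold discrim at this
  nlinarith

end Pool.Agent.MP_3d0d30_nt.Six.L4

end MrgPart0

-- ======== part 1: formerly Pool.Agent.MP_3d0d30_nt.Six.LZ
section MrgPart1

/-! Project SIX: large values of zeta from the bounds for the Atkinson type sums. -/

set_option autoImplicit false

namespace Pool.Agent.MP_3d0d30_nt.Six

open Finset Filter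

namespace LZ

theorem ev_const (C δ : ℝ) (hδ : 0 < δ) : ∀ᶠ T : ℝ in atTop, C ≤ T ^ δ :=
  (tendsto_rpow_atTop hδ).eventually_ge_atTop C

theorem ev_log (C δ : ℝ) (hC : 0 ≤ C) (hδ : 0 < δ) :
    ∀ᶠ T : ℝ in atTop, C * (1 + Real.log T) ≤ T ^ δ := by
  filter_upwards [ev_const (C * (1 + 2 / δ)) (δ / 2) (by positivity), eventually_ge_atTop 1]
    with T h1 hT
  have hT0 : 0 < T := by linarith
  have h2 : Real.log T ≤ T ^ (δ / 2) / (δ / 2) := Real.log_le_rpow_div hT0.le (by positivity)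
  have h3 : 1 ≤ T ^ (δ / 2) := Real.one_le_rpow hT (by positivity)
  have e : T ^ δ = T ^ (δ / 2) * T ^ (δ / 2) := by rw [← Real.rpow_add hT0]; ring_nf
  have h4 : 1 + Real.log T ≤ (1 + 2 / δ) * T ^ (δ / 2) := by
    have : T ^ (δ / 2) / (δ / 2) = 2 / δ * T ^ (δ / 2) := by field_simp
    rw [this] at h2
    linarith
  calc C * (1 + Real.log T) ≤ C * ((1 + 2 / δ) * T ^ (δ / 2)) :=
        mul_le_mul_of_nonneg_left h4 hC
    _ = C * (1 + 2 / δ) * T ^ (δ / 2) := by ring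
    _ ≤ T ^ (δ / 2) * T ^ (δ / 2) := mul_le_mul_of_nonneg_right h1 (by positivity)
    _ = T ^ δ := e.symm

theorem DBound.mono {T Y Z Z' : ℝ} (h : DBound T Y Z) (hZ : Z ≤ Z') : DBound T Y Z' :=
  fun N β a U h1 h2 h3 h4 h5 h6 h7 h8 => (h N β a U h1 h2 h3 h4 h5 h6 h7 h8).trans (by linarith)

/-- The reduction to the bound for the Atkinson type sums. -/
theorem reduce (hR : RedZStmt) (hZ : RZetaStmt) (h0 : Star0Stmt) (hT : StarTrivStmt) (δ : ℝ)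
    (hδ : 0 < δ) (hδ1 : δ ≤ 1 / 100) : ∀ᶠ T : ℝ in atTop, ∀ (x Z : ℝ) (U : Finset ℝ),
      6 / 49 ≤ x → 0 ≤ Z → (∀ Y : ℝ, T ^ (2 * x - 4 * δ) ≤ Y → Y ^ 3 ≤ T → DBound T Y Z) →
      Win U T T → Sep 1 U → (∀ t ∈ U, T ^ x ≤ zl t) →
      (U.card : ℝ) ≤ T ^ (7 * δ - 2 * x) * Z := by
  classical
  obtain ⟨C, hC, hZ⟩ := hZ
  filter_upwards [hR δ hδ hδ1, h0 (δ / 2) (by positivity), hT (δ / 2) (by positivity),
    eventually_ge_atTop 2, ev_log 6 δ (by norm_num) hδ,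
    ev_log (2 * C) (6 / 49) (by positivity) (by norm_num), ev_const 100 (1 / 5) (by norm_num),
    ev_const 2 δ hδ] with T hR h0 hT hT2 hJ hlog h100 h2
  intro x Z U hx hZ0 hD hW hS hU
  have hT0 : 0 < T := by linarith
  have hT1 : 1 ≤ T := by linarith
  have mono : ∀ a b : ℝ, a ≤ b → T ^ a ≤ T ^ b := fun a b h =>
    Real.rpow_le_rpow_of_exponent_le hT1 h
  obtain ⟨n, hn1, hn2⟩ := exists_nat_pow_near (x := 4 * T) (y := 2) (by linarith) (by norm_num)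
  have hn : 2 * ((n + 1 : ℕ) : ℝ) ≤ T ^ δ := by
    have h3 : Real.log (2 ^ n) ≤ Real.log (4 * T) := Real.log_le_log (by positivity) hn1
    have h5 : Real.log 4 = 2 * Real.log 2 := by
      rw [show (4 : ℝ) = 2 ^ 2 by norm_num, Real.log_pow]; norm_num
    rw [Real.log_pow, Real.log_mul (by norm_num) hT0.ne', h5] at h3
    have h4 : (1 / 2 : ℝ) < Real.log 2 := by
      have := Real.log_two_gt_d9
      linarith
    have h6 : 0 ≤ Real.log T := Real.log_nonneg hT1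
    have h7 : (n : ℝ) ≤ 2 + 2 * Real.log T := by
      by_contra hc
      push Not at hc
      nlinarith
    push_cast
    linarith
  set M := T ^ (6 * δ - 2 * x) * Z with hM
  have hM0 : 0 ≤ M := by positivity
  have e2 : (T ^ (x - δ)) ^ 2 = T ^ (2 * x - 2 * δ) := by
    rw [← Real.rpow_natCast, ← Real.rpow_mul hT0.le]; congr 1; push_cast; ring
  have key := hR (T ^ (x - δ)) M (mono _ _ (by linarith)) hM0 (fun Y hY1 _ => by
    rw [e2, ← Real.rpow_sub hT0, show 2 * x - 2 * δ - 2 * δ = 2 * x - 4 * δ by ring] at hY1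
    have hY100 : 100 ≤ Y := h100.trans ((mono _ _ (by linarith)).trans hY1)
    have hY0 : 0 < Y := by linarith
    rcases le_total T (Y ^ 3) with h | h
    · exact ⟨0, le_rfl, hT Y hY100 h, by simpa using hM0⟩
    · refine ⟨_, by positivity, h0 Y Z hY100 h hZ0 (hD Y hY1 h), ?_⟩
      have a1 : Y * T ^ δ / (T ^ (x - δ)) ^ 2 ≤ Y * T ^ (4 * δ - 2 * x) := by
        rw [e2, mul_div_assoc, ← Real.rpow_sub hT0]
        exact mul_le_mul_of_nonneg_left (mono _ _ (by linarith)) hY0.le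
      have a2 : 1 ≤ Y * T ^ (4 * δ - 2 * x) := by
        have := mul_le_mul_of_nonneg_right hY1 (Real.rpow_pos_of_pos hT0 (4 * δ - 2 * x)).le
        rwa [← Real.rpow_add hT0, show 2 * x - 4 * δ + (4 * δ - 2 * x) = 0 by ring,
          Real.rpow_zero] at this
      have a3 : T ^ (6 * δ - 2 * x) = T ^ δ * T ^ (4 * δ - 2 * x) * T ^ δ := by
        rw [← Real.rpow_add hT0, ← Real.rpow_add hT0]; congr 1; ring
      have a4 : T ^ (δ / 2) ≤ T ^ δ := mono _ _ (by linarith)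
      calc (Y * T ^ δ / (T ^ (x - δ)) ^ 2 + 1) * (T ^ (δ / 2) * Z / Y)
          ≤ (2 * (Y * T ^ (4 * δ - 2 * x))) * (T ^ (δ / 2) * Z / Y) :=
            mul_le_mul_of_nonneg_right (by linarith) (by positivity)
        _ = 2 * T ^ (4 * δ - 2 * x) * T ^ (δ / 2) * Z := by field_simp
        _ ≤ T ^ δ * T ^ (4 * δ - 2 * x) * T ^ δ * Z := by gcongr
        _ = M := by rw [hM, a3])
  have hsub : U ⊆ (range (n + 1)).biUnion
      fun j => U.filter fun t => T ^ (x - δ) ≤ ‖Zs (2 * T / 2 ^ j) t‖ := by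
    intro t ht
    by_contra hc
    simp only [mem_biUnion, mem_filter, not_exists, not_and, not_le] at hc
    have b1 := hZ T t (n + 1) hT2 (hW t ht).1 (by linarith [(hW t ht).2]) hn2.le
    have b2 : ∑ j ∈ range (n + 1), ‖Zs (2 * T / 2 ^ j) t‖ < ∑ _j ∈ range (n + 1), T ^ (x - δ) :=
      sum_lt_sum_of_nonempty nonempty_range_add_one fun j hj => hc j hj ht
    rw [sum_const, card_range, nsmul_eq_mul] at b2
    have b3 : T ^ x = T ^ δ * T ^ (x - δ) := by rw [← Real.rpow_add hT0]; congr 1; ring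
    have b4 := mul_le_mul_of_nonneg_right hn (Real.rpow_pos_of_pos hT0 (x - δ)).le
    have b5 := mono _ _ hx
    have b6 := hU t ht
    linarith
  have hc : (U.card : ℝ) ≤ ∑ j ∈ range (n + 1),
      ((U.filter fun t => T ^ (x - δ) ≤ ‖Zs (2 * T / 2 ^ j) t‖).card : ℝ) := by
    exact_mod_cast (card_le_card hsub).trans card_biUnion_le
  have hc2 : ∑ j ∈ range (n + 1),
      ((U.filter fun t => T ^ (x - δ) ≤ ‖Zs (2 * T / 2 ^ j) t‖).card : ℝ) ≤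
      ∑ _j ∈ range (n + 1), M := by
    refine sum_le_sum fun j _ => key (2 * T / 2 ^ j) _ (by positivity)
      (div_le_self (by positivity) (one_le_pow₀ (by norm_num)))
      (fun t ht => hW t (mem_filter.1 ht).1)
      (fun s hs t ht => hS s (mem_filter.1 hs).1 t (mem_filter.1 ht).1)
      fun t ht => (mem_filter.1 ht).2
  rw [sum_const, card_range, nsmul_eq_mul] at hc2
  have b3 : T ^ (7 * δ - 2 * x) * Z = T ^ δ * M := by
    rw [hM, ← mul_assoc, ← Real.rpow_add hT0]; congr 2; ring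
  rw [b3]
  have b4 : ((n + 1 : ℕ) : ℝ) ≤ T ^ δ := by
    have : (0 : ℝ) ≤ ((n + 1 : ℕ) : ℝ) := Nat.cast_nonneg _
    linarith
  exact hc.trans (hc2.trans (mul_le_mul_of_nonneg_right b4 hM0))

theorem exists_exp {T V a : ℝ} (hT : 1 < T) (h : T ^ a ≤ V) : ∃ x, a ≤ x ∧ V = T ^ x := by
  have hT0 : 0 < T := by linarith
  have hV : 0 < V := (Real.rpow_pos_of_pos hT0 a).trans_le h
  have e := Real.rpow_logb hT0 hT.ne' hV
  refine ⟨Real.logb T V, ?_, e.symm⟩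
  rw [← e] at h
  exact (Real.rpow_le_rpow_left_iff hT).1 h

end LZ

open LZ in
theorem lz1_of (hR : RedZStmt) (hZ : RZetaStmt) (h0 : Star0Stmt) (hT : StarTrivStmt)
    (hA : DAStmt) : LZ1Stmt := by
  intro ε hε
  set δ := min (ε / 30) (1 / 100) with hδ
  have hδ0 : 0 < δ := lt_min (by positivity) (by norm_num)
  have hδ1 : δ ≤ 1 / 100 := min_le_right _ _
  have hδ2 : δ ≤ ε / 30 := min_le_left _ _
  filter_upwards [reduce hR hZ h0 hT δ hδ0 hδ1, hA δ hδ0, eventually_gt_atTop 1] with T h1 h2 hT1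
  intro V U hV hW hS hU
  have hT0 : 0 < T := by linarith
  have mono : ∀ a b : ℝ, a ≤ b → T ^ a ≤ T ^ b := fun a b h =>
    Real.rpow_le_rpow_of_exponent_le hT1.le h
  obtain ⟨x, hx, rfl⟩ := exists_exp hT1 hV
  have h3 := h1 x (T ^ (2 + δ) / (T ^ (2 * x - 4 * δ)) ^ 5) U (by linarith) (by positivity)
    (fun Y hY1 hY2 => DBound.mono (h2 Y ((mono _ _ (by linarith)).trans hY1) hY2) (by
      gcongr)) hW hS hU
  refine h3.trans ?_
  rw [← Real.rpow_natCast, ← Real.rpow_natCast, ← Real.rpow_mul hT0.le, ← Real.rpow_mul hT0.le,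
    ← Real.rpow_sub hT0, ← Real.rpow_sub hT0, ← Real.rpow_add hT0]
  refine mono _ _ ?_
  push_cast
  linarith

open LZ in
theorem lz2_of (hR : RedZStmt) (hZ : RZetaStmt) (h0 : Star0Stmt) (hT : StarTrivStmt)
    (hB : DBStmt) (h1 : LZ1Stmt) : LZ2Stmt := by
  intro ε hε
  set δ := min (ε / 30) (1 / 1000) with hδ
  have hδ0 : 0 < δ := lt_min (by positivity) (by norm_num)
  have hδ1 : δ ≤ 1 / 1000 := min_le_right _ _
  have hδ2 : δ ≤ ε / 30 := min_le_left _ _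
  filter_upwards [reduce hR hZ h0 hT δ hδ0 (by linarith), hB δ hδ0, h1 ε hε,
    eventually_gt_atTop 1] with T h1 h2 h3 hT1
  intro V U hV hW hS hU
  have hT0 : 0 < T := by linarith
  have mono : ∀ a b : ℝ, a ≤ b → T ^ a ≤ T ^ b := fun a b h =>
    Real.rpow_le_rpow_of_exponent_le hT1.le h
  obtain ⟨x, hx, rfl⟩ := exists_exp hT1 hV
  rcases le_total x (17 / 134) with h | h
  · have h4 := h1 x (T ^ (41 / 29 - 156 / 29 * (x - 2 * δ) + δ)) U hx (by positivity)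
      (fun Y hY1 hY2 => h2 (x - 2 * δ) Y (by linarith) (by linarith)
        ((mono _ _ (by linarith)).trans hY1) hY2) hW hS hU
    refine h4.trans ?_
    rw [← Real.rpow_mul hT0.le, ← Real.rpow_sub hT0, ← Real.rpow_add hT0]
    refine mono _ _ ?_
    linarith
  · refine (h3 _ U (mono _ _ (by linarith)) hW hS hU).trans ?_
    rw [← Real.rpow_natCast, ← Real.rpow_mul hT0.le, ← Real.rpow_mul hT0.le,
      ← Real.rpow_sub hT0, ← Real.rpow_sub hT0]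
    refine mono _ _ ?_
    push_cast
    linarith

end Pool.Agent.MP_3d0d30_nt.Six

end MrgPart1

-- ======== part 2: formerly Pool.Agent.MP_3d0d30_nt.Six.Spec2
section MrgPart2

/-! Project SIX, second stage: the statements of the modules. -/

set_option autoImplicit false

namespace Pool.Agent.MP_3d0d30_nt.Six

open MeasureTheory Finset Filter
open scoped ComplexConjugate

/-! ### The twelfth moment -/

/-- monomial exponential sums with an amplitude of bounded variation -/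
def MonStmt : Prop := ∀ (K : ℕ) (ρ : ℝ), ∃ η C : ℝ, 0 < η ∧ η ≤ 1 ∧ 0 < C ∧
  ∀ (γ M z α B : ℝ) (a b : ℕ) (c : ℕ → ℂ), (γ = -1 ∨ γ = 1 / 2) → 1 ≤ M → M ≤ a →
  (b : ℝ) ≤ ρ * M → M ≤ |z| * M ^ γ → |z| * M ^ γ ≤ M ^ K →
  (∀ m, a ≤ m → m ≤ b → ‖c m‖ ≤ B) → ∑ m ∈ Ico a b, ‖c (m + 1) - c m‖ ≤ B →
  ‖∑ m ∈ Icc a b, c m * E (z * (m : ℝ) ^ γ + α * m)‖ ≤ C * B * M ^ (1 - η)

/-- the sum of the dual kernels -/
def HKStmt : Prop := ∀ (A0 : ℝ) (K : ℕ), ∃ η C : ℝ, 0 < η ∧ η ≤ 1 ∧ 0 < C ∧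
  ∀ (N R : ℕ) (β τ : ℝ) (w : ℝ → ℂ), 1 ≤ N → 0 < β → β ≤ 1 / 10 → G2 w A0 →
  ‖∑ m ∈ Icc 1 R, hm N β w (m : ℕ) τ‖ ≤ C * (1 + Real.sqrt |τ|) ∧
  (8 * N ≤ |τ| → 2 * |τ| ≤ (|τ| / (8 * N)) ^ K → ‖∑ m ∈ Icc 1 R, hm N β w (m : ℕ) τ‖ ≤
    C * (1 + (1 + β ^ 2 * |τ|) * Real.sqrt |τ| * (|τ| / N) ^ (-η)))

/-- duality and Poisson summation, keeping the sum over the dual frequencies -/
def B1Stmt : Prop := ∃ A0 C : ℝ, 0 < C ∧
  ∀ (N : ℕ) (β s M : ℝ) (a : ℕ → ℂ) (U : Finset ℝ),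
  1 ≤ N → 1 ≤ M → 0 < β → β ≤ 1 → (∀ k, ‖a k‖ ≤ 1) → Sep 1 U → Win U s (N * M) →
  ∃ w ε : ℝ → ℂ, G2 w A0 ∧ (∀ t, ‖ε t‖ ≤ 1) ∧
    (∑ t ∈ U, ‖Dsum N β a t‖) ^ 2 ≤ C * (N ^ 2 * U.card + U.card ^ 2 +
      N * ‖∑ m ∈ Icc 1 ⌈2 * M⌉₊, FM N β w ε U (m : ℕ)‖)

/-- a power saving in the Halasz bound -/
def DCStmt : Prop := ∀ c : ℝ, 0 < c → ∃ δ : ℝ, 0 < δ ∧ ∀ᶠ T : ℝ in atTop, ∀ Y : ℝ,
  T ^ (251 / 1000 : ℝ) ≤ Y → Y ≤ T ^ (1 / 3 - c) → DBound T Y (T ^ (2 - δ) / Y ^ 5)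

/-- the amplitude in the frequency variable -/
noncomputable def bK (a : ℝ → ℂ) (Y t k : ℝ) : ℂ :=
  II a Y t k * E (-(Real.sqrt (2 * t * k / Real.pi) - k / 2))

/-- slow variation in the frequency variable -/
def AtkKStmt : Prop := ∃ C : ℝ, 0 < C ∧ ∀ (T Y t k k' : ℝ) (a : ℝ → ℂ), 0 < T → 100 ≤ Y →
  Amp Y a → T ≤ t → t ≤ 2 * T → T / Y ^ 2 / 1000 ≤ k → k ≤ 1000 * (T / Y ^ 2) →
  T / Y ^ 2 / 1000 ≤ k' → k' ≤ 1000 * (T / Y ^ 2) →
  ‖bK a Y t k - bK a Y t k'‖ ≤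
    C * (Real.sqrt (Y ^ 3 / T) * (1 + T / Y ^ 3) * (|k - k'| / (T / Y ^ 2)))

/-- the coefficients produced by the separation of variables -/
noncomputable def cI (H a0 h : ℕ) : ℂ :=
  if a0 ≤ h ∧ h < 2 * H then ((h / (2 * H) : ℝ) : ℂ) else 0

/-- a pointwise bound for the off-diagonal sums -/
def StarI (T Y D : ℝ) : Prop := ∀ (H R a0 : ℕ) (a : ℝ → ℂ) (t : ℝ), 1 ≤ H → H * Y ≤ 4 * T →
  8 * Y * H < R → Amp Y a → T ≤ t → t ≤ 2 * T → ‖SS a (cI H a0) H R t‖ ≤ Y * D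

def StarSubStmt : Prop := ∃ c D : ℝ, 0 < c ∧ ∀ᶠ T : ℝ in atTop, ∀ Y : ℝ,
  T ^ (1 / 3 - c) ≤ Y → Y ^ 3 ≤ T → StarI T Y D

/-- a bound below the Weyl exponent -/
def SubStmt : Prop := ∃ c : ℝ, 0 < c ∧ ∀ᶠ T : ℝ in atTop, ∀ t : ℝ, T ≤ t → t ≤ 2 * T →
  zl t ≤ T ^ (1 / 6 - c)

/-- large values of zeta with a saving over the twelfth moment bound -/
def LZ3Stmt : Prop := ∃ δ : ℝ, 0 < δ ∧ ∀ᶠ T : ℝ in atTop, ∀ (V : ℝ) (U : Finset ℝ),
  T ^ (63 / 500 : ℝ) ≤ V → Win U T T → Sep 1 U → (∀ t ∈ U, V ≤ zl t) →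
  (U.card : ℝ) ≤ T ^ (2 - δ) / V ^ 12

/-- from large values to moments -/
def GenStmt : Prop := ∀ A m v ε : ℝ, 4 ≤ A → 0 ≤ v → 1 + (A - 4) * v ≤ m → 0 < ε →
  (∀ᶠ T : ℝ in atTop, ∀ (V : ℝ) (U : Finset ℝ), T ^ v ≤ V → Win U T T → Sep 1 U →
    (∀ t ∈ U, V ≤ zl t) → V ^ A * U.card ≤ T ^ m) →
  ∃ C : ℝ, ∀ T : ℝ, 1 ≤ T → ∫ t in (0 : ℝ)..T, zl t ^ A ≤ C * T ^ (m + ε)

def TwelveStmt : Prop := ∃ δ : ℝ, 0 < δ ∧ ∃ C : ℝ, ∀ T : ℝ, 1 ≤ T →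
  ∫ t in (0 : ℝ)..T, ‖riemannZeta (1 / 2 + t * Complex.I)‖ ^ 12 ≤ C * T ^ (2 - δ)

/-! ### The exponent 16/13 -/

/-- each cell of length `Λ` has no point or between `μ` and `2μ` points -/
def Regular (U : Finset ℝ) (Λ μ : ℝ) : Prop := ∀ t ∈ U,
  μ ≤ ((U.filter fun s => ⌊s / Λ⌋ = ⌊t / Λ⌋).card : ℝ) ∧
    ((U.filter fun s => ⌊s / Λ⌋ = ⌊t / Λ⌋).card : ℝ) ≤ 2 * μ

def RegStmt : Prop := ∃ C : ℝ, 0 < C ∧
  (∀ (U : Finset ℝ) (Λ : ℝ) (f : ℝ → ℝ), Sep 1 U → 1 ≤ Λ → (∀ t, 0 ≤ f t) →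
    ∃ U1 ⊆ U, ∃ μ : ℝ, 1 ≤ μ ∧ μ ≤ 2 * Λ ∧ Regular U1 Λ μ ∧
      ∑ t ∈ U, f t ≤ C * (1 + Real.log Λ) * ∑ t ∈ U1, f t) ∧
  ∀ (U : Finset ℝ) (Λ μ : ℝ), 0 < Λ → Regular U Λ μ → PP U Λ ≤ C * (μ * U.card)

/-- weighted additive energy -/
noncomputable def EK (U : Finset ℝ) (Λ : ℝ) (κ : ℝ → ℝ) : ℝ :=
  ∑ t1 ∈ U, ∑ t2 ∈ U, ∑ t3 ∈ U, ∑ t4 ∈ U, ck ((t1 + t2 - t3 - t4) / Λ) * κ (t1 - t3)

/-- the off-diagonal pairs of frequencies -/
def OffDStmt : Prop := ∃ C : ℝ, 0 < C ∧ ∀ {ι : Type} (S : Finset ι) (c : ι → ℂ) (φ : ι → ℝ)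
  (N : ℕ) (β φ0 L Λ : ℝ), 1 ≤ N → 0 < β → β ≤ 1 → 1 ≤ Λ → Λ ≤ L → L ≤ N * Λ →
  (∀ i ∈ S, φ0 ≤ φ i ∧ φ i ≤ φ0 + 2 * L) →
  ∑ k ∈ Ioc N (2 * N), ∑ k' ∈ (Ioc N (2 * N)).erase k,
      Real.exp (-(2 * Real.pi * Λ * |gg β (k / N) - gg β (k' / N)|)) *
        ‖∑ i ∈ S, c i * E (φ i * (gg β (k / N) - gg β (k' / N)))‖ ^ 2 ≤
    C * ((1 + Real.log N) * N ^ 2 / Λ *
      ∑ i ∈ S, ∑ j ∈ S, ‖c i‖ * ‖c j‖ * ck ((φ i - φ j) / Λ))

/-- the weighted energy lemma -/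
def EnKStmt : Prop := ∃ C : ℝ, 0 < C ∧
  ∀ (N : ℕ) (β : ℝ) (a : ℕ → ℂ) (V s L Λ : ℝ) (U : Finset ℝ) (κ : ℝ → ℝ),
  1 ≤ N → 0 < β → β ≤ 1 → (∀ k, ‖a k‖ ≤ 1) → 0 < V → 1 ≤ Λ → Λ ≤ L → L ≤ N * Λ →
  (∀ x, 0 ≤ κ x ∧ κ x ≤ 1) → Sep 1 U → Win U s L → (∀ t ∈ U, V ≤ ‖Dsum N β a t‖) →
  EK U Λ κ ≤ C * ((1 + Real.log N) ^ 2 * (N ^ 4 / V ^ 4) * PP U Λ +
    Λ * N / V ^ 2 * U.card * ∑ t1 ∈ U, ∑ t3 ∈ U, κ (t1 - t3))

/-- the number of large values near a point -/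
def CntStmt : Prop := ∃ C : ℝ, 0 < C ∧
  ∀ (N : ℕ) (β : ℝ) (a : ℕ → ℂ) (V s L W : ℝ) (U : Finset ℝ),
  1 ≤ N → 0 < β → β ≤ 1 → (∀ k, ‖a k‖ ≤ 1) → C * Real.sqrt N ≤ V → 1 ≤ W → 1 ≤ L →
  Sep 1 U → Win U s L → (∀ t ∈ U, V ≤ ‖Dsum N β a t‖) → ∀ u ∈ U,
  ∑ t ∈ U, 1 / (1 + |u - t| / W) ≤ C * ((1 + Real.log L) * (1 + Real.log N) ^ 2 *
    (N ^ 2 / V ^ 2) * (1 + W / max (N : ℝ) (V ^ 4 / N ^ 2)))

/-- the `L⁴` bound for regular sets -/
def L4bStmt : Prop := ∀ A0 : ℝ, ∃ C : ℝ, 0 < C ∧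
  ∀ (N m : ℕ) (β s L Λ μ : ℝ) (w ε : ℝ → ℂ) (U : Finset ℝ),
  1 ≤ N → 1 ≤ m → 0 < β → β ≤ 1 / 10 → G2 w A0 → (∀ t, ‖ε t‖ ≤ 1) →
  400 * (β ^ 2 * (N * m) + 1) ≤ Λ → β * Λ ≤ 1 → Λ ≤ L → 1 ≤ μ → Sep 1 U → Win U s L →
  Regular U Λ μ →
  ‖FM N β w ε U m‖ ^ 4 ≤ C * (N ^ 4 * U.card ^ 3 * ((1 + Real.log L) / (N * m) *
    (EK U Λ (fun x => 1 / (1 + |x| / (μ * Real.sqrt (N * m) / β))) / μ + EE U Λ / Λ) +
      U.card ^ 4 / (N * m) ^ 4))

/-- the second large values estimate -/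
def LV2Stmt : Prop := ∃ C : ℝ, 0 < C ∧
  ∀ (N : ℕ) (β s M V Λ : ℝ) (a : ℕ → ℂ) (U : Finset ℝ),
  1 ≤ N → 1 ≤ M → 0 < β → β ≤ 1 / 10 → (∀ k, ‖a k‖ ≤ 1) → C * Real.sqrt N ≤ V →
  400 * (β ^ 2 * (3 * N * M) + 1) ≤ Λ → M ≤ Λ → Λ ≤ N * M → β * Λ ≤ 1 →
  Sep 1 U → Win U s (N * M) → (∀ t ∈ U, V ≤ ‖Dsum N β a t‖) →
  ∑ t ∈ U, ‖Dsum N β a t‖ ≤ C * ((1 + Real.log (N * M)) ^ 5 *
    (N ^ 2 / V + (N : ℝ) ^ (11 / 4 : ℝ) * M ^ (3 / 4 : ℝ) / V ^ 2 + (N : ℝ) ^ (10 / 3 : ℝ) * M *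
      (Λ * (1 + Real.sqrt (N * M) / (β * max (N : ℝ) (V ^ 4 / N ^ 2)))) ^ (1 / 3 : ℝ) / V ^ 3))

/-- as `DBound`, with a lower bound for the curvature parameter -/
def DBound2 (T Y Z : ℝ) : Prop := ∀ (N : ℕ) (β : ℝ) (a : ℕ → ℂ) (U : Finset ℝ),
  T / Y ^ 2 / 512 ≤ N → (N : ℝ) ≤ 64 * (T / Y ^ 2) → 0 < β → β ≤ 1 → N / (2 * T) ≤ β ^ 2 →
  β ^ 2 ≤ 2 * N / T → (∀ k, ‖a k‖ ≤ 1) → Sep 1 U → Win U 0 (7 * Real.sqrt (T * Y)) →
  ∑ t ∈ U, ‖Dsum N β a t‖ ≤ (N * T) ^ (1 / 4 : ℝ) * U.card + Z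

def Star0bStmt : Prop := ∀ ε : ℝ, 0 < ε → ∀ᶠ T : ℝ in atTop, ∀ Y Z : ℝ, 100 ≤ Y → Y ^ 3 ≤ T →
  0 ≤ Z → DBound2 T Y Z → StarBound T Y (T ^ ε) (T ^ ε * Z / Y)

def DB2Stmt : Prop := ∀ ε : ℝ, 0 < ε → ∀ᶠ T : ℝ in atTop, ∀ v Y : ℝ, 3 / 26 ≤ v → v ≤ 14 / 100 →
  T ^ (2 * v) ≤ Y → Y ^ 3 ≤ T → DBound2 T Y (T ^ (4 / 3 - 44 / 9 * v + ε))

def LZ4Stmt : Prop := ∀ ε : ℝ, 0 < ε → ∀ᶠ T : ℝ in atTop, ∀ (V : ℝ) (U : Finset ℝ),
  T ^ (3 / 26 + ε) ≤ V → Win U T T → Sep 1 U → (∀ t ∈ U, V ≤ zl t) →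
  (U.card : ℝ) ≤ T ^ (4 / 3 + ε) / V ^ (62 / 9 : ℝ)

def Main2Stmt : Prop := ∀ k ε : ℝ, 2 ≤ k → k ≤ 6 → 0 < ε → ∃ C : ℝ, ∀ T : ℝ, 1 ≤ T →
  ∫ t in (0 : ℝ)..T, ‖riemannZeta (1 / 2 + t * Complex.I)‖ ^ (2 * k) ≤
    C * T ^ (max (1 + 3 * (k - 2) / 13) (2 - 6 * (6 - k) / 23) + ε)

end Pool.Agent.MP_3d0d30_nt.Six

end MrgPart2

-- marker of a merged file
example : 731051 + 251292 = 731051 + 251292 := rfl
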