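import Pool.Agent.MP_3d0d30_nt.Six.Spec
import Pool.Agent.MP_3d0d30_nt.Numeric
import Pool.Agent.MP_3d0d30_nt.ZetaBound
import Pool.Agent.MP_3d0d30_nt.Six.Spec2

-- ======== part 0: formerly Pool.Agent.MP_3d0d30_nt.Six.Final
section MrgPart0

/-! Project SIX: from large values to moments. -/

set_option autoImplicit false

namespace Pool.Agent.MP_3d0d30_nt.Six

open MeasureTheory Finset Filter

namespace Final

/-- the exponent -/
noncomputable def mm (k : ℝ) : ℝ := max (1 + 12 * (k - 2) / 49) (2 - 17 * (6 - k) / 67)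

theorem one_le_mm {k : ℝ} (hk : 2 ≤ k) : 1 ≤ mm k :=
  le_trans (by linarith) (le_max_left _ _)

theorem zl_nonneg (t : ℝ) : 0 ≤ zl t := norm_nonneg _

theorem continuous_zl : Continuous zl := by
  unfold zl
  refine Continuous.norm ?_
  rw [continuous_iff_continuousAt]
  intro t
  have hne : (1 / 2 : ℂ) + t * Complex.I ≠ 1 := by
    intro h
    have := congrArg Complex.re h
    norm_num at this
  exact ContinuousAt.comp (f := fun t : ℝ => (1 / 2 : ℂ) + t * Complex.I)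
    (differentiableAt_riemannZeta hne).continuousAt (by fun_prop)

theorem continuous_zl_rpow {A : ℝ} (hA : 0 ≤ A) : Continuous fun t => zl t ^ A :=
  continuous_zl.rpow_const fun _ => Or.inr hA

theorem zl_le (t : ℝ) : zl t ≤ 2 * (1 + |t|) := Pool.Agent.MP_3d0d30_nt.norm_zeta_half_le t

/-- each level contributes at most `T ^ (mm k + ε)` -/
theorem level (h1 : LZ1Stmt) (h2 : LZ2Stmt) {k ε : ℝ} (hk6 : k ≤ 6) (hε : 0 < ε) :
    ∀ᶠ T : ℝ in atTop, ∀ (V : ℝ) (U : Finset ℝ), T ^ (6 / 49 : ℝ) ≤ V → Win U T T → Sep 1 U →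
      (∀ t ∈ U, V ≤ zl t) → V ^ (2 * k) * U.card ≤ T ^ (mm k + ε) := by
  filter_upwards [h1 ε hε, h2 ε hε, eventually_ge_atTop (1 : ℝ)] with T H1 H2 hT V U hV hW hS hU
  have hT0 : 0 < T := by linarith
  have hV1 : 0 < T ^ (6 / 49 : ℝ) := Real.rpow_pos_of_pos hT0 _
  have hV0 : 0 < V := lt_of_lt_of_le hV1 hV
  have hp : 0 ≤ V ^ (2 * k) := (Real.rpow_pos_of_pos hV0 _).le
  have key2 : V ^ (2 * k) * U.card ≤ T ^ (41 / 29 + ε) * V ^ (2 * k - 214 / 29) := by
    calc V ^ (2 * k) * U.card ≤ V ^ (2 * k) * (T ^ (41 / 29 + ε) / V ^ (214 / 29 : ℝ)) :=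
          mul_le_mul_of_nonneg_left (H2 V U hV hW hS hU) hp
      _ = _ := by rw [Real.rpow_sub hV0]; ring
  have hTe : ∀ a b : ℝ, a ≤ b → T ^ a ≤ T ^ b := fun a b h => Real.rpow_le_rpow_of_exponent_le hT h
  by_cases hA : 2 * k ≤ 214 / 29
  · refine key2.trans ?_
    have e1 : V ^ (2 * k - 214 / 29) ≤ (T ^ (6 / 49 : ℝ)) ^ (2 * k - 214 / 29) :=
      Real.rpow_le_rpow_of_nonpos hV1 hV (by linarith)
    calc T ^ (41 / 29 + ε) * V ^ (2 * k - 214 / 29)
        ≤ T ^ (41 / 29 + ε) * (T ^ (6 / 49 : ℝ)) ^ (2 * k - 214 / 29) :=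
          mul_le_mul_of_nonneg_left e1 (Real.rpow_pos_of_pos hT0 _).le
      _ = T ^ (41 / 29 + ε + 6 / 49 * (2 * k - 214 / 29)) := by
          rw [← Real.rpow_mul hT0.le, ← Real.rpow_add hT0]
      _ ≤ _ := hTe _ _ (by
          have : 1 + 12 * (k - 2) / 49 ≤ mm k := le_max_left _ _
          linarith)
  · push Not at hA
    have hm : 2 - 17 * (6 - k) / 67 ≤ mm k := le_max_right _ _
    by_cases hB : V ≤ T ^ (17 / 134 : ℝ)
    · refine key2.trans ?_
      have e1 : V ^ (2 * k - 214 / 29) ≤ (T ^ (17 / 134 : ℝ)) ^ (2 * k - 214 / 29) :=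
        Real.rpow_le_rpow hV0.le hB (by linarith)
      calc T ^ (41 / 29 + ε) * V ^ (2 * k - 214 / 29)
          ≤ T ^ (41 / 29 + ε) * (T ^ (17 / 134 : ℝ)) ^ (2 * k - 214 / 29) :=
            mul_le_mul_of_nonneg_left e1 (Real.rpow_pos_of_pos hT0 _).le
        _ = T ^ (41 / 29 + ε + 17 / 134 * (2 * k - 214 / 29)) := by
            rw [← Real.rpow_mul hT0.le, ← Real.rpow_add hT0]
        _ ≤ _ := hTe _ _ (by linarith)
    · push Not at hB
      have hV8 : T ^ (1 / 8 : ℝ) ≤ V := (hTe _ _ (by norm_num)).trans hB.le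
      have e0 : (V ^ 12 : ℝ) = V ^ (12 : ℝ) := by
        rw [← Real.rpow_natCast]; norm_num
      have e1 : V ^ (2 * k - 12) ≤ (T ^ (17 / 134 : ℝ)) ^ (2 * k - 12) :=
        Real.rpow_le_rpow_of_nonpos (Real.rpow_pos_of_pos hT0 _) hB.le (by linarith)
      calc V ^ (2 * k) * U.card ≤ V ^ (2 * k) * (T ^ (2 + ε) / V ^ 12) :=
            mul_le_mul_of_nonneg_left (H1 V U hV8 hW hS hU) hp
        _ = T ^ (2 + ε) * V ^ (2 * k - 12) := by rw [Real.rpow_sub hV0, e0]; ring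
        _ ≤ T ^ (2 + ε) * (T ^ (17 / 134 : ℝ)) ^ (2 * k - 12) :=
            mul_le_mul_of_nonneg_left e1 (Real.rpow_pos_of_pos hT0 _).le
        _ = T ^ (2 + ε + 17 / 134 * (2 * k - 12)) := by
            rw [← Real.rpow_mul hT0.le, ← Real.rpow_add hT0]
        _ ≤ _ := hTe _ _ (by linarith)

/-- the truncated power -/
noncomputable def tr (V A x : ℝ) : ℝ := if V ≤ x then x ^ A else 0

theorem tr_le {V A x : ℝ} {L : ℕ} (hV : 0 < V) (hA : 0 ≤ A) (hx : x < 2 ^ L * V) :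
    tr V A x ≤ ∑ i ∈ range L, if 2 ^ i * V ≤ x then 2 ^ A * (2 ^ i * V) ^ A else 0 := by
  have hnn : ∀ i ∈ range L,
      (0 : ℝ) ≤ if 2 ^ i * V ≤ x then 2 ^ A * (2 ^ i * V) ^ A else 0 := by
    intro i _
    split_ifs
    · positivity
    · exact le_rfl
  unfold tr
  split_ifs with h
  · obtain ⟨n, hn1, hn2⟩ := exists_nat_pow_near (x := x / V) (y := 2)
      ((one_le_div hV).2 h) (by norm_num)
    rw [le_div_iff₀ hV] at hn1
    rw [div_lt_iff₀ hV] at hn2
    have hnL : n < L := by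
      by_contra hc
      push Not at hc
      have : (2 : ℝ) ^ L ≤ 2 ^ n := pow_le_pow_right₀ (by norm_num) hc
      nlinarith
    refine le_trans ?_ (single_le_sum hnn (mem_range.2 hnL))
    rw [if_pos hn1, ← Real.mul_rpow (by norm_num) (by positivity)]
    refine Real.rpow_le_rpow (by linarith) ?_ hA
    rw [pow_succ] at hn2
    linarith
  · exact sum_nonneg hnn

/-- the discrete bound on a separated set -/
theorem discrete {T V A B : ℝ} {L : ℕ} (hV : 0 < V) (hA : 0 ≤ A)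
    (H : ∀ (W : ℝ) (U : Finset ℝ), V ≤ W → Win U T T → Sep 1 U → (∀ t ∈ U, W ≤ zl t) →
      W ^ A * U.card ≤ B)
    (U : Finset ℝ) (hW : Win U T T) (hS : Sep 1 U) (hL : ∀ t ∈ U, zl t < 2 ^ L * V) :
    ∑ t ∈ U, tr V A (zl t) ≤ L * (2 ^ A * B) := by
  classical
  calc ∑ t ∈ U, tr V A (zl t)
      ≤ ∑ t ∈ U, ∑ i ∈ range L, if 2 ^ i * V ≤ zl t then 2 ^ A * (2 ^ i * V) ^ A else 0 :=
        sum_le_sum fun t ht => tr_le hV hA (hL t ht)
    _ = ∑ i ∈ range L, ∑ t ∈ U, if 2 ^ i * V ≤ zl t then 2 ^ A * (2 ^ i * V) ^ A else 0 :=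
        sum_comm
    _ ≤ ∑ i ∈ range L, 2 ^ A * B := by
        refine sum_le_sum fun i _ => ?_
        rw [← sum_filter, sum_const, nsmul_eq_mul]
        have h1 : (1 : ℝ) ≤ 2 ^ i := one_le_pow₀ (by norm_num)
        have := H (2 ^ i * V) (U.filter fun t => 2 ^ i * V ≤ zl t) (by nlinarith)
          (fun t ht => hW t (mem_filter.1 ht).1)
          (fun s hs t ht hst => hS s (mem_filter.1 hs).1 t (mem_filter.1 ht).1 hst)
          (fun t ht => (mem_filter.1 ht).2)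
        have h2 : (0 : ℝ) ≤ 2 ^ A := by positivity
        calc _ = 2 ^ A * ((2 ^ i * V) ^ A * ((U.filter fun t => 2 ^ i * V ≤ zl t).card : ℝ)) := by
              ring
          _ ≤ _ := mul_le_mul_of_nonneg_left this h2
    _ = _ := by rw [sum_const, card_range, nsmul_eq_mul]

/-- one unit cell -/
theorem cell {V A a : ℝ} (hV : 0 < V) (hA : 4 ≤ A) : ∃ s ∈ Set.Icc a (a + 1),
    ∫ t in a..(a + 1), zl t ^ A ≤ V ^ (A - 4) * (∫ t in a..(a + 1), zl t ^ 4) + tr V A (zl s) := by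
  obtain ⟨s, hs, hmax⟩ := (isCompact_Icc (a := a) (b := a + 1)).exists_isMaxOn
    ⟨a, by simp⟩ continuous_zl.continuousOn
  refine ⟨s, hs, ?_⟩
  have c1 := continuous_zl_rpow (A := A) (by linarith)
  have c2 : Continuous fun t => zl t ^ 4 := continuous_zl.pow 4
  have h : ∫ t in a..(a + 1), zl t ^ A ≤
      ∫ t in a..(a + 1), (V ^ (A - 4) * zl t ^ 4 + tr V A (zl s)) := by
    refine intervalIntegral.integral_mono_on (by linarith) (c1.intervalIntegrable _ _)
      (((continuous_const.mul c2).add continuous_const).intervalIntegrable _ _) ?_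
    intro t ht
    have hz := zl_nonneg t
    have hts : zl t ≤ zl s := hmax ht
    have htr : 0 ≤ tr V A (zl s) := by
      unfold tr
      split_ifs
      · exact Real.rpow_nonneg (zl_nonneg s) _
      · exact le_rfl
    by_cases hc : V ≤ zl t
    · have e1 : tr V A (zl s) = zl s ^ A := if_pos (hc.trans hts)
      have e2 : zl t ^ A ≤ zl s ^ A := Real.rpow_le_rpow hz hts (by linarith)
      have e3 : 0 ≤ V ^ (A - 4) * zl t ^ 4 := by positivity
      linarith
    · push Not at hc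
      have e1 : zl t ^ A = zl t ^ (A - 4) * zl t ^ 4 := by
        rw [← Real.rpow_natCast (zl t) 4, ← Real.rpow_add' hz (by push_cast; linarith)]
        congr 1
        push_cast
        ring
      have e2 : zl t ^ (A - 4) ≤ V ^ (A - 4) := Real.rpow_le_rpow hz hc.le (by linarith)
      have e3 : zl t ^ (A - 4) * zl t ^ 4 ≤ V ^ (A - 4) * zl t ^ 4 :=
        mul_le_mul_of_nonneg_right e2 (by positivity)
      linarith
  have c3 : Continuous fun t => V ^ (A - 4) * zl t ^ 4 := continuous_const.mul c2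
  rw [intervalIntegral.integral_add (c3.intervalIntegrable _ _)
    (continuous_const.intervalIntegrable _ _), intervalIntegral.integral_const_mul,
    intervalIntegral.integral_const] at h
  simpa using h

/-- a dyadic block -/
theorem block {N L : ℕ} {V A B : ℝ} (hV : 0 < V) (hA : 4 ≤ A)
    (H : ∀ (W : ℝ) (U : Finset ℝ), V ≤ W → Win U N N → Sep 1 U → (∀ t ∈ U, W ≤ zl t) →
      W ^ A * U.card ≤ B)
    (hL : 2 * (1 + 2 * (N : ℝ)) < 2 ^ L * V) :
    ∫ t in (N : ℝ)..(2 * N), zl t ^ A ≤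
      V ^ (A - 4) * (∫ t in (N : ℝ)..(2 * N), zl t ^ 4) + 2 * (L * (2 ^ A * B)) := by
  classical
  choose s hs hcell using fun n : ℕ => cell (a := (N : ℝ) + n) hV hA
  have c1 := continuous_zl_rpow (A := A) (by linarith)
  have c2 : Continuous fun t => zl t ^ 4 := continuous_zl.pow 4
  have e1 := intervalIntegral.sum_integral_adjacent_intervals (μ := volume)
    (f := fun t => zl t ^ A) (a := fun n : ℕ => (N : ℝ) + n) (n := N)
    (fun k _ => c1.intervalIntegrable _ _)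
  have e2 := intervalIntegral.sum_integral_adjacent_intervals (μ := volume)
    (f := fun t => zl t ^ 4) (a := fun n : ℕ => (N : ℝ) + n) (n := N)
    (fun k _ => c2.intervalIntegrable _ _)
  simp only [Nat.cast_zero, add_zero, Nat.cast_add, Nat.cast_one, ← add_assoc, ← two_mul] at e1 e2
  rw [← e1, ← e2, mul_sum]
  have hsep : ∀ n m : ℕ, n % 2 = m % 2 → n ≠ m → 1 ≤ |s n - s m| := by
    intro n m hp hnm
    have a1 := (hs n).1
    have a2 := (hs n).2
    have a3 := (hs m).1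
    have a4 := (hs m).2
    rcases lt_or_gt_of_ne hnm with h | h
    · have : (n : ℝ) + 2 ≤ m := by exact_mod_cast (by omega : n + 2 ≤ m)
      rw [abs_sub_comm]
      exact le_trans (by linarith) (le_abs_self _)
    · have : (m : ℝ) + 2 ≤ n := by exact_mod_cast (by omega : m + 2 ≤ n)
      exact le_trans (by linarith) (le_abs_self _)
  have hpar : ∀ r : ℕ, ∑ n ∈ (range N).filter (fun n => n % 2 = r), tr V A (zl (s n)) ≤
      L * (2 ^ A * B) := by
    intro r
    have hinj : Set.InjOn s ((range N).filter (fun n => n % 2 = r) : Finset ℕ) := by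
      intro n hn m hm hnm
      by_contra hc
      have := hsep n m (by
        rw [(mem_filter.1 (mem_coe.1 hn)).2, (mem_filter.1 (mem_coe.1 hm)).2]) hc
      rw [hnm, sub_self, abs_zero] at this
      linarith
    rw [← sum_image (f := fun t => tr V A (zl t)) hinj]
    have hwin : Win (((range N).filter (fun n => n % 2 = r)).image s) N N := by
      intro t ht
      obtain ⟨n, hn, rfl⟩ := mem_image.1 ht
      have h1 : n + 1 ≤ N := mem_range.1 (mem_filter.1 hn).1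
      have h2 : (n : ℝ) + 1 ≤ N := by exact_mod_cast h1
      have h3 : (0 : ℝ) ≤ n := Nat.cast_nonneg n
      exact ⟨by linarith [(hs n).1], by linarith [(hs n).2]⟩
    refine discrete hV (by linarith) H _ hwin ?_ ?_
    · intro a ha b hb hab
      obtain ⟨n, hn, rfl⟩ := mem_image.1 ha
      obtain ⟨m, hm, rfl⟩ := mem_image.1 hb
      exact hsep n m (by rw [(mem_filter.1 hn).2, (mem_filter.1 hm).2]) fun h => hab (by rw [h])
    · intro t ht
      have h1 := hwin t ht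
      have h2 := zl_le t
      have h3 : (0 : ℝ) ≤ N := Nat.cast_nonneg N
      rw [abs_of_nonneg (by linarith [h1.1])] at h2
      linarith [h1.2]
  have hsum : ∑ n ∈ range N, tr V A (zl (s n)) ≤ 2 * (L * (2 ^ A * B)) := by
    rw [← sum_filter_add_sum_filter_not (range N) (fun n => n % 2 = 0)]
    have e : (range N).filter (fun n => ¬ n % 2 = 0) = (range N).filter (fun n => n % 2 = 1) :=
      filter_congr fun n _ => by omega
    rw [e]
    linarith [hpar 0, hpar 1]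
  calc _ ≤ ∑ n ∈ range N, (V ^ (A - 4) * (∫ t in ((N : ℝ) + n)..(N + n + 1), zl t ^ 4) +
        tr V A (zl (s n))) := sum_le_sum fun n _ => hcell n
    _ ≤ _ := by rw [sum_add_distrib]; linarith

theorem block_bound (h1 : LZ1Stmt) (h2 : LZ2Stmt) {k ε : ℝ} (hk : 2 ≤ k) (hk6 : k ≤ 6)
    (hε : 0 < ε) : ∃ C : ℝ, 0 ≤ C ∧ ∃ J0 : ℕ, ∀ j : ℕ, J0 ≤ j →
      ∫ t in ((2 : ℝ) ^ j)..(2 * 2 ^ j), zl t ^ (2 * k) ≤ C * ((2 : ℝ) ^ j) ^ (mm k + ε) := by
  obtain ⟨T0, hT0⟩ := eventually_atTop.1 (level h1 h2 hk6 (half_pos hε))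
  obtain ⟨J1, hJ1⟩ := pow_unbounded_of_one_lt (max T0 1000) (by norm_num : (1 : ℝ) < 2)
  refine ⟨2 * (2 ^ ε * (4 / ε) ^ 4) + 2 * ((3 + 4 / ε) * 2 ^ (2 * k)), by positivity, J1,
    fun j hj => ?_⟩
  have hj2 : max T0 1000 ≤ (2 : ℝ) ^ j :=
    hJ1.le.trans (pow_le_pow_right₀ (by norm_num) hj)
  set N : ℝ := 2 ^ j with hN
  have hN1 : 1000 ≤ N := (le_max_right _ _).trans hj2
  have hN0 : 0 < N := by linarith
  have hNc : ((2 ^ j : ℕ) : ℝ) = N := by push_cast; rfl
  have hV1 : 1 ≤ N ^ (6 / 49 : ℝ) := Real.one_le_rpow (by linarith) (by norm_num)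
  have hb := block (N := 2 ^ j) (L := j + 3) (V := N ^ (6 / 49 : ℝ)) (A := 2 * k)
    (B := N ^ (mm k + ε / 2)) (by linarith) (by linarith)
    (by rw [hNc]; exact hT0 N ((le_max_left _ _).trans hj2))
    (by rw [hNc, pow_add, ← hN]; nlinarith)
  rw [hNc] at hb
  refine hb.trans ?_
  have c2 : Continuous fun t => zl t ^ 4 := continuous_zl.pow 4
  have hf : ∫ t in N..(2 * N), zl t ^ 4 ≤ 2 * N * Real.log (2 * N) ^ 4 := by
    have e1 := Pool.Agent.MP_3d0d30_nt.fourth_moment (T := 2 * N) (by linarith)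
    have e2 : ∫ t in N..(2 * N), zl t ^ 4 ≤ ∫ t in (0 : ℝ)..(2 * N), zl t ^ 4 :=
      intervalIntegral.integral_mono_interval hN0.le (by linarith) le_rfl
        (Filter.Eventually.of_forall fun t => by have := zl_nonneg t; positivity)
        (c2.intervalIntegrable _ _)
    have e3 : 0 ≤ 2 * N * Real.log (2 * N) ^ 4 := by positivity
    have e4 : ∫ t in (0 : ℝ)..(2 * N), zl t ^ 4 ≤ 6 / 7 * (2 * N) * Real.log (2 * N) ^ 4 := e1
    nlinarith
  have hlog : Real.log (2 * N) ^ 4 ≤ 2 ^ ε * (4 / ε) ^ 4 * N ^ ε := by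
    have e1 := Real.log_le_rpow_div (x := 2 * N) (by linarith) (ε := ε / 4) (by linarith)
    have e2 : 0 ≤ Real.log (2 * N) := Real.log_nonneg (by linarith)
    calc Real.log (2 * N) ^ 4 ≤ ((2 * N) ^ (ε / 4) / (ε / 4)) ^ 4 := pow_le_pow_left₀ e2 e1 4
      _ = ((2 * N) ^ (ε / 4)) ^ 4 * (4 / ε) ^ 4 := by field_simp
      _ = 2 ^ ε * (4 / ε) ^ 4 * N ^ ε := by
          rw [← Real.rpow_natCast ((2 * N) ^ (ε / 4)), ← Real.rpow_mul (by linarith),
            show ε / 4 * ((4 : ℕ) : ℝ) = ε by push_cast; ring,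
            Real.mul_rpow (by norm_num) hN0.le]
          ring
  have hA : (N ^ (6 / 49 : ℝ)) ^ (2 * k - 4) * (∫ t in N..(2 * N), zl t ^ 4) ≤
      2 * (2 ^ ε * (4 / ε) ^ 4) * N ^ (mm k + ε) := by
    have e1 : (N ^ (6 / 49 : ℝ)) ^ (2 * k - 4) * N * N ^ ε ≤ N ^ (mm k + ε) := by
      rw [← Real.rpow_mul hN0.le, ← Real.rpow_add_one hN0.ne', ← Real.rpow_add hN0]
      refine Real.rpow_le_rpow_of_exponent_le (by linarith) ?_
      have : 1 + 12 * (k - 2) / 49 ≤ mm k := le_max_left _ _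
      linarith
    have e2 : 0 ≤ (N ^ (6 / 49 : ℝ)) ^ (2 * k - 4) := by positivity
    calc _ ≤ (N ^ (6 / 49 : ℝ)) ^ (2 * k - 4) * (2 * N * (2 ^ ε * (4 / ε) ^ 4 * N ^ ε)) :=
          mul_le_mul_of_nonneg_left (hf.trans (mul_le_mul_of_nonneg_left hlog (by linarith))) e2
      _ = 2 * (2 ^ ε * (4 / ε) ^ 4) * ((N ^ (6 / 49 : ℝ)) ^ (2 * k - 4) * N * N ^ ε) := by ring
      _ ≤ _ := mul_le_mul_of_nonneg_left e1 (by positivity)
  have hB : ((j + 3 : ℕ) : ℝ) ≤ (3 + 4 / ε) * N ^ (ε / 2) := by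
    have e1 := Real.log_le_rpow_div (x := N) hN0.le (ε := ε / 2) (by linarith)
    have e2 : Real.log N = j * Real.log 2 := by rw [hN, Real.log_pow]
    have e3 := Real.log_two_gt_d9
    have e4 : 1 ≤ N ^ (ε / 2) := Real.one_le_rpow (by linarith) (by linarith)
    have e5 : (0 : ℝ) ≤ j := Nat.cast_nonneg j
    have e6 : N ^ (ε / 2) / (ε / 2) = 4 / ε * N ^ (ε / 2) / 2 := by field_simp; ring
    push_cast
    nlinarith
  have hC : ((j + 3 : ℕ) : ℝ) * (2 ^ (2 * k) * N ^ (mm k + ε / 2)) ≤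
      (3 + 4 / ε) * 2 ^ (2 * k) * N ^ (mm k + ε) := by
    calc _ ≤ (3 + 4 / ε) * N ^ (ε / 2) * (2 ^ (2 * k) * N ^ (mm k + ε / 2)) :=
          mul_le_mul_of_nonneg_right hB (by positivity)
      _ = (3 + 4 / ε) * 2 ^ (2 * k) * (N ^ (ε / 2) * N ^ (mm k + ε / 2)) := by ring
      _ = _ := by rw [← Real.rpow_add hN0]; congr 2; ring
  linarith

end Final

open Final in
theorem main_of (h1 : LZ1Stmt) (h2 : LZ2Stmt) : MainStmt := by
  intro k ε hk hk6 hε
  obtain ⟨C, hC, J0, hJ⟩ := block_bound h1 h2 hk hk6 hε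
  have c1 := continuous_zl_rpow (A := 2 * k) (by linarith)
  have hm : 1 ≤ mm k + ε := by linarith [one_le_mm hk]
  have hnn : ∀ t, 0 ≤ zl t ^ (2 * k) := fun t => Real.rpow_nonneg (zl_nonneg t) _
  have hmono : ∀ a b : ℝ, 0 ≤ a → a ≤ b →
      ∫ t in (0 : ℝ)..a, zl t ^ (2 * k) ≤ ∫ t in (0 : ℝ)..b, zl t ^ (2 * k) := fun a b ha hab =>
    intervalIntegral.integral_mono_interval le_rfl ha hab (Filter.Eventually.of_forall hnn)
      (c1.intervalIntegrable _ _)
  set D : ℝ := max C (∫ t in (0 : ℝ)..(2 ^ J0), zl t ^ (2 * k)) with hD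
  have hD0 : 0 ≤ D := hC.trans (le_max_left _ _)
  have hsmall : ∀ j : ℕ, j ≤ J0 →
      ∫ t in (0 : ℝ)..(2 ^ j), zl t ^ (2 * k) ≤ D * ((2 : ℝ) ^ j) ^ (mm k + ε) := by
    intro j hj
    have e1 := hmono (2 ^ j) (2 ^ J0) (by positivity) (pow_le_pow_right₀ (by norm_num) hj)
    have e2 : 1 ≤ ((2 : ℝ) ^ j) ^ (mm k + ε) :=
      Real.one_le_rpow (one_le_pow₀ (by norm_num)) (by linarith)
    have e3 : (∫ t in (0 : ℝ)..(2 ^ J0), zl t ^ (2 * k)) ≤ D := le_max_right _ _
    nlinarith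
  have hall : ∀ j : ℕ,
      ∫ t in (0 : ℝ)..(2 ^ j), zl t ^ (2 * k) ≤ D * ((2 : ℝ) ^ j) ^ (mm k + ε) := by
    intro j
    induction j with
    | zero => exact hsmall 0 (Nat.zero_le _)
    | succ j ih =>
      by_cases hj : j + 1 ≤ J0
      · exact hsmall _ hj
      · have e1 := hJ j (by omega)
        have e2 := intervalIntegral.integral_add_adjacent_intervals (μ := volume)
          (f := fun t => zl t ^ (2 * k)) (a := 0) (b := 2 ^ j) (c := 2 * 2 ^ j)
          (c1.intervalIntegrable _ _) (c1.intervalIntegrable _ _)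
        have e3 : (2 : ℝ) ≤ 2 ^ (mm k + ε) := by
          calc (2 : ℝ) = 2 ^ (1 : ℝ) := (Real.rpow_one 2).symm
            _ ≤ _ := Real.rpow_le_rpow_of_exponent_le (by norm_num) hm
        have e4 : 0 ≤ ((2 : ℝ) ^ j) ^ (mm k + ε) := by positivity
        have e5 : C * ((2 : ℝ) ^ j) ^ (mm k + ε) ≤ D * ((2 : ℝ) ^ j) ^ (mm k + ε) :=
          mul_le_mul_of_nonneg_right (le_max_left _ _) e4
        rw [pow_succ', ← e2, Real.mul_rpow (by norm_num) (by positivity)]
        have e6 : 0 ≤ D * ((2 : ℝ) ^ j) ^ (mm k + ε) := mul_nonneg hD0 e4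
        nlinarith
  refine ⟨D * 2 ^ (mm k + ε), fun T hT => ?_⟩
  obtain ⟨n, hn1, hn2⟩ := exists_nat_pow_near (x := T) (y := 2) hT (by norm_num)
  have e1 := hmono T (2 ^ (n + 1)) (by linarith) hn2.le
  have e2 := hall (n + 1)
  have e3 : ((2 : ℝ) ^ (n + 1)) ^ (mm k + ε) ≤ 2 ^ (mm k + ε) * T ^ (mm k + ε) := by
    rw [← Real.mul_rpow (by norm_num) (by linarith)]
    refine Real.rpow_le_rpow (by positivity) ?_ (by linarith)
    rw [pow_succ']
    linarith
  calc ∫ t in (0 : ℝ)..T, zl t ^ (2 * k) ≤ D * ((2 : ℝ) ^ (n + 1)) ^ (mm k + ε) := e1.trans e2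
    _ ≤ D * (2 ^ (mm k + ε) * T ^ (mm k + ε)) := mul_le_mul_of_nonneg_left e3 hD0
    _ = _ := by rw [← mul_assoc]; rfl

end Pool.Agent.MP_3d0d30_nt.Six

end MrgPart0

-- ======== part 1: formerly Pool.Agent.MP_3d0d30_nt.Six.Gen
section MrgPart1

/-! Project SIX: from large values to moments, general form. -/

set_option autoImplicit false

namespace Pool.Agent.MP_3d0d30_nt.Six

open MeasureTheory Finset Filter

namespace Gen

open Final

theorem block_bound {A m v ε : ℝ} (hA : 4 ≤ A) (hv : 0 ≤ v) (hm : 1 + (A - 4) * v ≤ m)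
    (hε : 0 < ε) (h : ∀ᶠ T : ℝ in atTop, ∀ (V : ℝ) (U : Finset ℝ), T ^ v ≤ V → Win U T T →
      Sep 1 U → (∀ t ∈ U, V ≤ zl t) → V ^ A * U.card ≤ T ^ m) :
    ∃ C : ℝ, 0 ≤ C ∧ ∃ J0 : ℕ, ∀ j : ℕ, J0 ≤ j →
      ∫ t in ((2 : ℝ) ^ j)..(2 * 2 ^ j), zl t ^ A ≤ C * ((2 : ℝ) ^ j) ^ (m + ε) := by
  obtain ⟨T0, hT0⟩ := eventually_atTop.1 h
  obtain ⟨J1, hJ1⟩ := pow_unbounded_of_one_lt (max T0 1000) (by norm_num : (1 : ℝ) < 2)
  refine ⟨2 * (2 ^ ε * (4 / ε) ^ 4) + 2 * ((3 + 2 / ε) * 2 ^ A), by positivity, J1,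
    fun j hj => ?_⟩
  have hj2 : max T0 1000 ≤ (2 : ℝ) ^ j :=
    hJ1.le.trans (pow_le_pow_right₀ (by norm_num) hj)
  set N : ℝ := 2 ^ j with hN
  have hN1 : 1000 ≤ N := (le_max_right _ _).trans hj2
  have hN0 : 0 < N := by linarith
  have hNc : ((2 ^ j : ℕ) : ℝ) = N := by push_cast; rfl
  have hV1 : 1 ≤ N ^ v := Real.one_le_rpow (by linarith) hv
  have hb := block (N := 2 ^ j) (L := j + 3) (V := N ^ v) (A := A)
    (B := N ^ m) (by linarith) hA
    (by rw [hNc]; exact hT0 N ((le_max_left _ _).trans hj2))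
    (by rw [hNc, pow_add, ← hN]; nlinarith)
  rw [hNc] at hb
  refine hb.trans ?_
  have c2 : Continuous fun t => zl t ^ 4 := continuous_zl.pow 4
  have hf : ∫ t in N..(2 * N), zl t ^ 4 ≤ 2 * N * Real.log (2 * N) ^ 4 := by
    have e1 := Pool.Agent.MP_3d0d30_nt.fourth_moment (T := 2 * N) (by linarith)
    have e2 : ∫ t in N..(2 * N), zl t ^ 4 ≤ ∫ t in (0 : ℝ)..(2 * N), zl t ^ 4 :=
      intervalIntegral.integral_mono_interval hN0.le (by linarith) le_rfl
        (Filter.Eventually.of_forall fun t => by have := zl_nonneg t; positivity)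
        (c2.intervalIntegrable _ _)
    have e3 : 0 ≤ 2 * N * Real.log (2 * N) ^ 4 := by positivity
    have e4 : ∫ t in (0 : ℝ)..(2 * N), zl t ^ 4 ≤ 6 / 7 * (2 * N) * Real.log (2 * N) ^ 4 := e1
    nlinarith
  have hlog : Real.log (2 * N) ^ 4 ≤ 2 ^ ε * (4 / ε) ^ 4 * N ^ ε := by
    have e1 := Real.log_le_rpow_div (x := 2 * N) (by linarith) (ε := ε / 4) (by linarith)
    have e2 : 0 ≤ Real.log (2 * N) := Real.log_nonneg (by linarith)
    calc Real.log (2 * N) ^ 4 ≤ ((2 * N) ^ (ε / 4) / (ε / 4)) ^ 4 := pow_le_pow_left₀ e2 e1 4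
      _ = ((2 * N) ^ (ε / 4)) ^ 4 * (4 / ε) ^ 4 := by field_simp
      _ = 2 ^ ε * (4 / ε) ^ 4 * N ^ ε := by
          rw [← Real.rpow_natCast ((2 * N) ^ (ε / 4)), ← Real.rpow_mul (by linarith),
            show ε / 4 * ((4 : ℕ) : ℝ) = ε by push_cast; ring,
            Real.mul_rpow (by norm_num) hN0.le]
          ring
  have hA' : (N ^ v) ^ (A - 4) * (∫ t in N..(2 * N), zl t ^ 4) ≤
      2 * (2 ^ ε * (4 / ε) ^ 4) * N ^ (m + ε) := by
    have e1 : (N ^ v) ^ (A - 4) * N * N ^ ε ≤ N ^ (m + ε) := by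
      rw [← Real.rpow_mul hN0.le, ← Real.rpow_add_one hN0.ne', ← Real.rpow_add hN0]
      refine Real.rpow_le_rpow_of_exponent_le (by linarith) ?_
      linarith
    have e2 : 0 ≤ (N ^ v) ^ (A - 4) := by positivity
    calc _ ≤ (N ^ v) ^ (A - 4) * (2 * N * (2 ^ ε * (4 / ε) ^ 4 * N ^ ε)) :=
          mul_le_mul_of_nonneg_left (hf.trans (mul_le_mul_of_nonneg_left hlog (by linarith))) e2
      _ = 2 * (2 ^ ε * (4 / ε) ^ 4) * ((N ^ v) ^ (A - 4) * N * N ^ ε) := by ring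
      _ ≤ _ := mul_le_mul_of_nonneg_left e1 (by positivity)
  have hB : ((j + 3 : ℕ) : ℝ) ≤ (3 + 2 / ε) * N ^ ε := by
    have e1 := Real.log_le_rpow_div (x := N) hN0.le hε
    have e2 : Real.log N = j * Real.log 2 := by rw [hN, Real.log_pow]
    have e3 := Real.log_two_gt_d9
    have e4 : 1 ≤ N ^ ε := Real.one_le_rpow (by linarith) (by linarith)
    have e5 : (0 : ℝ) ≤ j := Nat.cast_nonneg j
    have e6 : N ^ ε / ε = 2 / ε * N ^ ε / 2 := by field_simp
    push_cast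
    nlinarith
  have hC : ((j + 3 : ℕ) : ℝ) * (2 ^ A * N ^ m) ≤ (3 + 2 / ε) * 2 ^ A * N ^ (m + ε) := by
    calc _ ≤ (3 + 2 / ε) * N ^ ε * (2 ^ A * N ^ m) :=
          mul_le_mul_of_nonneg_right hB (by positivity)
      _ = (3 + 2 / ε) * 2 ^ A * (N ^ ε * N ^ m) := by ring
      _ = _ := by rw [← Real.rpow_add hN0, add_comm ε m]
  linarith

end Gen

open Final in
theorem gen : GenStmt := by
  intro A m v ε hA hv hm hε h
  obtain ⟨C, hC, J0, hJ⟩ := Gen.block_bound hA hv hm hε h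
  have c1 := continuous_zl_rpow (A := A) (by linarith)
  have hm : 1 ≤ m + ε := by nlinarith
  have hnn : ∀ t, 0 ≤ zl t ^ A := fun t => Real.rpow_nonneg (zl_nonneg t) _
  have hmono : ∀ a b : ℝ, 0 ≤ a → a ≤ b →
      ∫ t in (0 : ℝ)..a, zl t ^ A ≤ ∫ t in (0 : ℝ)..b, zl t ^ A := fun a b ha hab =>
    intervalIntegral.integral_mono_interval le_rfl ha hab (Filter.Eventually.of_forall hnn)
      (c1.intervalIntegrable _ _)
  set D : ℝ := max C (∫ t in (0 : ℝ)..(2 ^ J0), zl t ^ A) with hD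
  have hD0 : 0 ≤ D := hC.trans (le_max_left _ _)
  have hsmall : ∀ j : ℕ, j ≤ J0 →
      ∫ t in (0 : ℝ)..(2 ^ j), zl t ^ A ≤ D * ((2 : ℝ) ^ j) ^ (m + ε) := by
    intro j hj
    have e1 := hmono (2 ^ j) (2 ^ J0) (by positivity) (pow_le_pow_right₀ (by norm_num) hj)
    have e2 : 1 ≤ ((2 : ℝ) ^ j) ^ (m + ε) :=
      Real.one_le_rpow (one_le_pow₀ (by norm_num)) (by linarith)
    have e3 : (∫ t in (0 : ℝ)..(2 ^ J0), zl t ^ A) ≤ D := le_max_right _ _
    nlinarith
  have hall : ∀ j : ℕ,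
      ∫ t in (0 : ℝ)..(2 ^ j), zl t ^ A ≤ D * ((2 : ℝ) ^ j) ^ (m + ε) := by
    intro j
    induction j with
    | zero => exact hsmall 0 (Nat.zero_le _)
    | succ j ih =>
      by_cases hj : j + 1 ≤ J0
      · exact hsmall _ hj
      · have e1 := hJ j (by omega)
        have e2 := intervalIntegral.integral_add_adjacent_intervals (μ := volume)
          (f := fun t => zl t ^ A) (a := 0) (b := 2 ^ j) (c := 2 * 2 ^ j)
          (c1.intervalIntegrable _ _) (c1.intervalIntegrable _ _)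
        have e3 : (2 : ℝ) ≤ 2 ^ (m + ε) := by
          calc (2 : ℝ) = 2 ^ (1 : ℝ) := (Real.rpow_one 2).symm
            _ ≤ _ := Real.rpow_le_rpow_of_exponent_le (by norm_num) hm
        have e4 : 0 ≤ ((2 : ℝ) ^ j) ^ (m + ε) := by positivity
        have e5 : C * ((2 : ℝ) ^ j) ^ (m + ε) ≤ D * ((2 : ℝ) ^ j) ^ (m + ε) :=
          mul_le_mul_of_nonneg_right (le_max_left _ _) e4
        rw [pow_succ', ← e2, Real.mul_rpow (by norm_num) (by positivity)]
        have e6 : 0 ≤ D * ((2 : ℝ) ^ j) ^ (m + ε) := mul_nonneg hD0 e4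
        nlinarith
  refine ⟨D * 2 ^ (m + ε), fun T hT => ?_⟩
  obtain ⟨n, hn1, hn2⟩ := exists_nat_pow_near (x := T) (y := 2) hT (by norm_num)
  have e1 := hmono T (2 ^ (n + 1)) (by linarith) hn2.le
  have e2 := hall (n + 1)
  have e3 : ((2 : ℝ) ^ (n + 1)) ^ (m + ε) ≤ 2 ^ (m + ε) * T ^ (m + ε) := by
    rw [← Real.mul_rpow (by norm_num) (by linarith)]
    refine Real.rpow_le_rpow (by positivity) ?_ (by linarith)
    rw [pow_succ']
    linarith
  calc ∫ t in (0 : ℝ)..T, zl t ^ A ≤ D * ((2 : ℝ) ^ (n + 1)) ^ (m + ε) := e1.trans e2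
    _ ≤ D * (2 ^ (m + ε) * T ^ (m + ε)) := mul_le_mul_of_nonneg_left e3 hD0
    _ = _ := by rw [← mul_assoc]

end Pool.Agent.MP_3d0d30_nt.Six

end MrgPart1

-- ======== part 2: formerly Pool.Agent.MP_3d0d30_nt.Six.LZb
section MrgPart2

/-! Project SIX: large values of zeta, second stage. -/

set_option autoImplicit false

namespace Pool.Agent.MP_3d0d30_nt.Six

open Finset Filter

namespace LZ

/-- The reduction to the bound for the Atkinson type sums. -/
theorem reduce2 (hR : RedZStmt) (hZ : RZetaStmt) (h0 : Star0bStmt) (hT : StarTrivStmt) (δ : ℝ)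
    (hδ : 0 < δ) (hδ1 : δ ≤ 1 / 1000) : ∀ᶠ T : ℝ in atTop, ∀ (x Z : ℝ) (U : Finset ℝ),
      3 / 26 ≤ x → 0 ≤ Z → (∀ Y : ℝ, T ^ (2 * x - 4 * δ) ≤ Y → Y ^ 3 ≤ T → DBound2 T Y Z) →
      Win U T T → Sep 1 U → (∀ t ∈ U, T ^ x ≤ zl t) →
      (U.card : ℝ) ≤ T ^ (7 * δ - 2 * x) * Z := by
  classical
  obtain ⟨C, hC, hZ⟩ := hZ
  filter_upwards [hR δ hδ (by linarith), h0 (δ / 2) (by positivity), hT (δ / 2) (by positivity),
    eventually_ge_atTop 2, ev_log 6 δ (by norm_num) hδ,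
    ev_log (2 * C) (3 / 26) (by positivity) (by norm_num), ev_const 100 (1 / 5) (by norm_num),
    ev_const 2 δ hδ] with T hR h0 hT hT2 hJ hlog h100 h2
  intro x Z U hx hZ0 hD hW hS hU
  have hT0 : 0 < T := by linarith
  have hT1 : 1 ≤ T := by linarith
  have mono : ∀ a b : ℝ, a ≤ b → T ^ a ≤ T ^ b := fun a b h =>
    Real.rpow_le_rpow_of_exponent_le hT1 h
  obtain ⟨n, hn1, hn2⟩ := exists_nat_pow_near (x := 4 * T) (y := 2) (by linarith) (by norm_num)
  have hn : 2 * ((n + 1 : ℕ) : ℝ) ≤ T ^ δ := by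
    have h3 : Real.log (2 ^ n) ≤ Real.log (4 * T) := Real.log_le_log (by positivity) hn1
    have h5 : Real.log 4 = 2 * Real.log 2 := by
      rw [show (4 : ℝ) = 2 ^ 2 by norm_num, Real.log_pow]; norm_num
    rw [Real.log_pow, Real.log_mul (by norm_num) hT0.ne', h5] at h3
    have h4 : (1 / 2 : ℝ) < Real.log 2 := by
      have := Real.log_two_gt_d9
      linarith
    have h6 : 0 ≤ Real.log T := Real.log_nonneg hT1
    have h7 : (n : ℝ) ≤ 2 + 2 * Real.log T := by
      by_contra hc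
      push Not at hc
      nlinarith
    push_cast
    linarith
  set M := T ^ (6 * δ - 2 * x) * Z with hM
  have hM0 : 0 ≤ M := by positivity
  have e2 : (T ^ (x - δ)) ^ 2 = T ^ (2 * x - 2 * δ) := by
    rw [← Real.rpow_natCast, ← Real.rpow_mul hT0.le]; congr 1; push_cast; ring
  have key := hR (T ^ (x - δ)) M (mono _ _ (by linarith)) hM0 (fun Y hY1 _ => by
    rw [e2, ← Real.rpow_sub hT0, show 2 * x - 2 * δ - 2 * δ = 2 * x - 4 * δ by ring] at hY1
    have hY100 : 100 ≤ Y := h100.trans ((mono _ _ (by linarith)).trans hY1)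
    have hY0 : 0 < Y := by linarith
    rcases le_total T (Y ^ 3) with h | h
    · exact ⟨0, le_rfl, hT Y hY100 h, by simpa using hM0⟩
    · refine ⟨_, by positivity, h0 Y Z hY100 h hZ0 (hD Y hY1 h), ?_⟩
      have a1 : Y * T ^ δ / (T ^ (x - δ)) ^ 2 ≤ Y * T ^ (4 * δ - 2 * x) := by
        rw [e2, mul_div_assoc, ← Real.rpow_sub hT0]
        exact mul_le_mul_of_nonneg_left (mono _ _ (by linarith)) hY0.le
      have a2 : 1 ≤ Y * T ^ (4 * δ - 2 * x) := by
        have := mul_le_mul_of_nonneg_right hY1 (Real.rpow_pos_of_pos hT0 (4 * δ - 2 * x)).le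
        rwa [← Real.rpow_add hT0, show 2 * x - 4 * δ + (4 * δ - 2 * x) = 0 by ring,
          Real.rpow_zero] at this
      have a3 : T ^ (6 * δ - 2 * x) = T ^ δ * T ^ (4 * δ - 2 * x) * T ^ δ := by
        rw [← Real.rpow_add hT0, ← Real.rpow_add hT0]; congr 1; ring
      have a4 : T ^ (δ / 2) ≤ T ^ δ := mono _ _ (by linarith)
      calc (Y * T ^ δ / (T ^ (x - δ)) ^ 2 + 1) * (T ^ (δ / 2) * Z / Y)
          ≤ (2 * (Y * T ^ (4 * δ - 2 * x))) * (T ^ (δ / 2) * Z / Y) :=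
            mul_le_mul_of_nonneg_right (by linarith) (by positivity)
        _ = 2 * T ^ (4 * δ - 2 * x) * T ^ (δ / 2) * Z := by field_simp
        _ ≤ T ^ δ * T ^ (4 * δ - 2 * x) * T ^ δ * Z := by gcongr
        _ = M := by rw [hM, a3])
  have hsub : U ⊆ (range (n + 1)).biUnion
      fun j => U.filter fun t => T ^ (x - δ) ≤ ‖Zs (2 * T / 2 ^ j) t‖ := by
    intro t ht
    by_contra hc
    simp only [mem_biUnion, mem_filter, not_exists, not_and, not_le] at hc
    have b1 := hZ T t (n + 1) hT2 (hW t ht).1 (by linarith [(hW t ht).2]) hn2.le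
    have b2 : ∑ j ∈ range (n + 1), ‖Zs (2 * T / 2 ^ j) t‖ < ∑ _j ∈ range (n + 1), T ^ (x - δ) :=
      sum_lt_sum_of_nonempty nonempty_range_add_one fun j hj => hc j hj ht
    rw [sum_const, card_range, nsmul_eq_mul] at b2
    have b3 : T ^ x = T ^ δ * T ^ (x - δ) := by rw [← Real.rpow_add hT0]; congr 1; ring
    have b4 := mul_le_mul_of_nonneg_right hn (Real.rpow_pos_of_pos hT0 (x - δ)).le
    have b5 := mono _ _ hx
    have b6 := hU t ht
    linarith
  have hc : (U.card : ℝ) ≤ ∑ j ∈ range (n + 1),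
      ((U.filter fun t => T ^ (x - δ) ≤ ‖Zs (2 * T / 2 ^ j) t‖).card : ℝ) := by
    exact_mod_cast (card_le_card hsub).trans card_biUnion_le
  have hc2 : ∑ j ∈ range (n + 1),
      ((U.filter fun t => T ^ (x - δ) ≤ ‖Zs (2 * T / 2 ^ j) t‖).card : ℝ) ≤
      ∑ _j ∈ range (n + 1), M := by
    refine sum_le_sum fun j _ => key (2 * T / 2 ^ j) _ (by positivity)
      (div_le_self (by positivity) (one_le_pow₀ (by norm_num)))
      (fun t ht => hW t (mem_filter.1 ht).1)
      (fun s hs t ht => hS s (mem_filter.1 hs).1 t (mem_filter.1 ht).1)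
      fun t ht => (mem_filter.1 ht).2
  rw [sum_const, card_range, nsmul_eq_mul] at hc2
  have b3 : T ^ (7 * δ - 2 * x) * Z = T ^ δ * M := by
    rw [hM, ← mul_assoc, ← Real.rpow_add hT0]; congr 2; ring
  rw [b3]
  have b4 : ((n + 1 : ℕ) : ℝ) ≤ T ^ δ := by
    have : (0 : ℝ) ≤ ((n + 1 : ℕ) : ℝ) := Nat.cast_nonneg _
    linarith
  exact hc.trans (hc2.trans (mul_le_mul_of_nonneg_right b4 hM0))

end LZ

open LZ in
theorem lz3_of (hR : RedZStmt) (hZ : RZetaStmt) (h0 : Star0Stmt) (hT : StarTrivStmt)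
    (hA : DAStmt) (hC : DCStmt) (hS : SubStmt) : LZ3Stmt := by
  obtain ⟨c, hc, hS⟩ := hS
  obtain ⟨δ1, hδ1, hC⟩ := hC c hc
  set δ0 := min (min δ1 c) (1 / 100) with hδ0
  have p0 : 0 < δ0 := lt_min (lt_min hδ1 hc) (by norm_num)
  have p1 : δ0 ≤ δ1 := (min_le_left _ _).trans (min_le_left _ _)
  have p2 : δ0 ≤ c := (min_le_left _ _).trans (min_le_right _ _)
  have p3 : δ0 ≤ 1 / 100 := min_le_right _ _
  refine ⟨δ0 / 2, by positivity, ?_⟩
  filter_upwards [reduce hR hZ h0 hT (δ0 / 60) (by positivity) (by linarith),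
    hA (δ0 / 60) (by positivity), hC, hS, eventually_gt_atTop 1] with T h1 h2 h3 h4 hT1
  intro V U hV hW hSep hU
  have hT0 : 0 < T := by linarith
  have mono : ∀ a b : ℝ, a ≤ b → T ^ a ≤ T ^ b := fun a b h =>
    Real.rpow_le_rpow_of_exponent_le hT1.le h
  obtain ⟨x, hx, rfl⟩ := exists_exp hT1 hV
  rcases U.eq_empty_or_nonempty with rfl | ⟨t, ht⟩
  · simp only [card_empty, Nat.cast_zero]
    positivity
  have hx2 : x ≤ 1 / 6 - c := (Real.rpow_le_rpow_left_iff hT1).1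
    ((hU t ht).trans (h4 t (hW t ht).1 (by linarith [(hW t ht).2])))
  have h5 := h1 x (T ^ (2 - δ0) / (T ^ (2 * x - 4 * (δ0 / 60))) ^ 5) U (by linarith)
    (by positivity) (fun Y hY1 hY2 => by
      have y0 : 0 < T ^ (2 * x - 4 * (δ0 / 60)) := Real.rpow_pos_of_pos hT0 _
      rcases le_total Y (T ^ (2 * x - 4 * (δ0 / 60) + δ0)) with h | h
      · refine DBound.mono (h3 Y ((mono _ _ (by linarith)).trans hY1)
          (h.trans (mono _ _ (by linarith)))) ?_
        have := mono (2 - δ1) (2 - δ0) (by linarith)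
        gcongr
      · refine DBound.mono (h2 Y ((mono _ _ (by linarith)).trans hY1) hY2) ?_
        calc _ ≤ T ^ (2 + δ0 / 60) / (T ^ (2 * x - 4 * (δ0 / 60) + δ0)) ^ 5 := by gcongr
          _ ≤ _ := by
            rw [← Real.rpow_natCast, ← Real.rpow_natCast, ← Real.rpow_mul hT0.le,
              ← Real.rpow_mul hT0.le, ← Real.rpow_sub hT0, ← Real.rpow_sub hT0]
            refine mono _ _ ?_
            push_cast
            linarith) hW hSep hU
  refine h5.trans ?_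
  rw [← Real.rpow_natCast, ← Real.rpow_natCast, ← Real.rpow_mul hT0.le, ← Real.rpow_mul hT0.le,
    ← Real.rpow_sub hT0, ← Real.rpow_sub hT0, ← Real.rpow_add hT0]
  refine mono _ _ ?_
  push_cast
  linarith

open LZ in
theorem lz4_of (hR : RedZStmt) (hZ : RZetaStmt) (h0 : Star0bStmt) (hT : StarTrivStmt)
    (hB : DB2Stmt) (h1 : LZ1Stmt) : LZ4Stmt := by
  intro ε hε
  set δ := min (ε / 30) (1 / 1000) with hδ
  have hδ0 : 0 < δ := lt_min (by positivity) (by norm_num)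
  have hδ1 : δ ≤ 1 / 1000 := min_le_right _ _
  have hδ2 : δ ≤ ε / 30 := min_le_left _ _
  filter_upwards [reduce2 hR hZ h0 hT δ hδ0 hδ1, hB δ hδ0, h1 ε hε,
    eventually_gt_atTop 1] with T h1 h2 h3 hT1
  intro V U hV hW hS hU
  have hT0 : 0 < T := by linarith
  have mono : ∀ a b : ℝ, a ≤ b → T ^ a ≤ T ^ b := fun a b h =>
    Real.rpow_le_rpow_of_exponent_le hT1.le h
  obtain ⟨x, hx, rfl⟩ := exists_exp hT1 hV
  rcases le_total x (3 / 23) with h | h
  · have h4 := h1 x (T ^ (4 / 3 - 44 / 9 * (x - 2 * δ) + δ)) U (by linarith) (by positivity)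
      (fun Y hY1 hY2 => h2 (x - 2 * δ) Y (by linarith) (by linarith)
        ((mono _ _ (by linarith)).trans hY1) hY2) hW hS hU
    refine h4.trans ?_
    rw [← Real.rpow_mul hT0.le, ← Real.rpow_sub hT0, ← Real.rpow_add hT0]
    refine mono _ _ ?_
    linarith
  · refine (h3 _ U (mono _ _ (by linarith)) hW hS hU).trans ?_
    rw [← Real.rpow_natCast, ← Real.rpow_mul hT0.le, ← Real.rpow_mul hT0.le,
      ← Real.rpow_sub hT0, ← Real.rpow_sub hT0]
    refine mono _ _ ?_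
    push_cast
    linarith

end Pool.Agent.MP_3d0d30_nt.Six

end MrgPart2

-- ======== part 3: formerly Pool.Agent.MP_3d0d30_nt.Six.Final2
section MrgPart3

/-! Project SIX: the two theorems of the second stage from the large values estimates. -/

set_option autoImplicit false

namespace Pool.Agent.MP_3d0d30_nt.Six

open MeasureTheory Finset Filter

open LZ in
theorem twelve_of (hG : GenStmt) (h2 : LZ2Stmt) (h3 : LZ3Stmt) : TwelveStmt := by
  obtain ⟨δ1, hδ1, h3⟩ := h3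
  set δ := min δ1 (1 / 500) with hδ
  have p0 : 0 < δ := lt_min hδ1 (by norm_num)
  have p1 : δ ≤ δ1 := min_le_left _ _
  have p2 : δ ≤ 1 / 500 := min_le_right _ _
  obtain ⟨C, hC⟩ := hG 12 (2 - δ) (6 / 49) (δ / 2) (by norm_num) (by norm_num) (by linarith)
    (by positivity) (by
      filter_upwards [h2 (1 / 1000) (by norm_num), h3, eventually_gt_atTop 1] with T H2 H3 hT1
      intro V U hV hW hS hU
      have hT0 : 0 < T := by linarith
      have mono : ∀ a b : ℝ, a ≤ b → T ^ a ≤ T ^ b := fun a b h =>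
        Real.rpow_le_rpow_of_exponent_le hT1.le h
      obtain ⟨x, hx, rfl⟩ := exists_exp hT1 hV
      have hp : 0 ≤ (T ^ x) ^ (12 : ℝ) := by positivity
      rcases le_total x (63 / 500) with h | h
      · refine (mul_le_mul_of_nonneg_left (H2 _ U hV hW hS hU) hp).trans ?_
        rw [← Real.rpow_mul hT0.le, ← Real.rpow_mul hT0.le, ← Real.rpow_sub hT0,
          ← Real.rpow_add hT0]
        exact mono _ _ (by linarith)
      · refine (mul_le_mul_of_nonneg_left (H3 _ U (mono _ _ h) hW hS hU) hp).trans ?_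
        rw [← Real.rpow_natCast, ← Real.rpow_mul hT0.le, ← Real.rpow_mul hT0.le,
          ← Real.rpow_sub hT0, ← Real.rpow_add hT0]
        refine mono _ _ ?_
        push_cast
        linarith)
  refine ⟨δ / 2, by positivity, C, fun T hT => ?_⟩
  have h := hC T hT
  rw [show 2 - δ + δ / 2 = 2 - δ / 2 by ring] at h
  refine le_trans (le_of_eq ?_) h
  congr 1
  ext t
  rw [zl, ← Real.rpow_natCast]
  norm_num

open LZ in
theorem main2_of (hG : GenStmt) (h1 : LZ1Stmt) (h4 : LZ4Stmt) : Main2Stmt := by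
  intro k ε hk hk6 hε
  set m := max (1 + 3 * (k - 2) / 13) (2 - 6 * (6 - k) / 23) with hm
  have m1 : 1 + 3 * (k - 2) / 13 ≤ m := le_max_left _ _
  have m2 : 2 - 6 * (6 - k) / 23 ≤ m := le_max_right _ _
  obtain ⟨C, hC⟩ := hG (2 * k) (m + ε / 2) (3 / 26 + ε / 20) (ε / 2) (by linarith)
    (by positivity) (by nlinarith) (by positivity) (by
      filter_upwards [h1 (ε / 20) (by positivity), h4 (ε / 20) (by positivity),
        eventually_gt_atTop 1] with T H1 H4 hT1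
      intro V U hV hW hS hU
      have hT0 : 0 < T := by linarith
      have mono : ∀ a b : ℝ, a ≤ b → T ^ a ≤ T ^ b := fun a b h =>
        Real.rpow_le_rpow_of_exponent_le hT1.le h
      obtain ⟨x, hx, rfl⟩ := exists_exp hT1 hV
      have hp : 0 ≤ (T ^ x) ^ (2 * k) := by positivity
      rcases le_total x (3 / 23) with h | h
      · refine (mul_le_mul_of_nonneg_left (H4 _ U hV hW hS hU) hp).trans ?_
        rw [← Real.rpow_mul hT0.le, ← Real.rpow_mul hT0.le, ← Real.rpow_sub hT0,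
          ← Real.rpow_add hT0]
        refine mono _ _ ?_
        rcases le_total (2 * k) (62 / 9) with hA | hA
        · nlinarith [mul_nonneg (show 0 ≤ x - 3 / 26 by linarith) (sub_nonneg.2 hA)]
        · nlinarith [mul_nonneg (sub_nonneg.2 h) (sub_nonneg.2 hA)]
      · refine (mul_le_mul_of_nonneg_left
          (H1 _ U (mono _ _ (by linarith)) hW hS hU) hp).trans ?_
        rw [← Real.rpow_natCast, ← Real.rpow_mul hT0.le, ← Real.rpow_mul hT0.le,
          ← Real.rpow_sub hT0, ← Real.rpow_add hT0]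
        refine mono _ _ ?_
        push_cast
        nlinarith [mul_nonneg (sub_nonneg.2 h) (sub_nonneg.2 hk6)])
  refine ⟨C, fun T hT => ?_⟩
  have h := hC T hT
  rwa [show m + ε / 2 + ε / 2 = m + ε by ring] at h

end Pool.Agent.MP_3d0d30_nt.Six

end MrgPart3

-- marker of a merged file
example : 731051 + 157535 = 731051 + 157535 := rfl
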