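import Mathlib.Analysis.Calculus.Deriv.Star
import Mathlib.RingTheory.PiTensorProduct
import Pool.Agent.MP_3d0d30_nt.Six.Spec2

-- ======== part 0: formerly Pool.Agent.MP_3d0d30_nt.Six.L4B
section MrgPart0

/-! Project SIX, module L4, part B: the inner integral. -/

set_option autoImplicit false

namespace Pool.Agent.MP_3d0d30_nt.Six.L4

open MeasureTheory Finset Filter Set
open scoped ComplexConjugate Topology

/-- the data of `G2` -/
structure GD (w w1 w2 : ℝ → ℂ) (A : ℝ) : Prop where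
  c2 : Continuous w2
  d : ∀ y, HasDerivAt w (w1 y) y ∧ HasDerivAt w1 (w2 y) y ∧ ‖w y‖ ≤ A ∧ ‖w1 y‖ ≤ A ∧ ‖w2 y‖ ≤ A
  z : ∀ y, y ∉ Ioo (1 / 2 : ℝ) 2 → w y = 0 ∧ w1 y = 0

variable {w w1 w2 : ℝ → ℂ} {A q β d c : ℝ}

theorem GD.c0 (h : GD w w1 w2 A) : Continuous w :=
  continuous_iff_continuousAt.2 fun y => (h.d y).1.continuousAt

theorem GD.c1 (h : GD w w1 w2 A) : Continuous w1 :=
  continuous_iff_continuousAt.2 fun y => (h.d y).2.1.continuousAt

theorem GD.nonneg (h : GD w w1 w2 A) : 0 ≤ A := (norm_nonneg _).trans (h.d 0).2.2.1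

theorem GD.dp (h : GD w w1 w2 A) (c a : ℝ) : HasDerivAt (fun a => w (c + a)) (w1 (c + a)) a :=
  (h.d _).1.comp_const_add c a

theorem GD.dm (h : GD w w1 w2 A) (c a : ℝ) : HasDerivAt (fun a => w (c - a)) (-w1 (c - a)) a :=
  (h.d _).1.comp_const_sub c a

theorem GD.dp1 (h : GD w w1 w2 A) (c a : ℝ) : HasDerivAt (fun a => w1 (c + a)) (w2 (c + a)) a :=
  (h.d _).2.1.comp_const_add c a

theorem GD.dm1 (h : GD w w1 w2 A) (c a : ℝ) : HasDerivAt (fun a => w1 (c - a)) (-w2 (c - a)) a :=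
  (h.d _).2.1.comp_const_sub c a

theorem GD.amp (h : GD w w1 w2 A) (c : ℝ) :
    C20 (fun a => w (c + a) * w (c - a)) (-1) 1 1 (4 * (A * A)) := by
  have hc := h.c2
  have p : C2D (fun a => w (c + a)) (fun a => w1 (c + a)) (fun a => w2 (c + a)) (-1) 1 1 A :=
    ⟨fun y _ => h.dp c y, fun y _ => h.dp1 c y, by fun_prop, fun y _ => (h.d _).2.2.1,
      fun y _ => by simpa using (h.d _).2.2.2.1, fun y _ => by simpa using (h.d _).2.2.2.2⟩
  have m : C2D (fun a => w (c - a)) (fun a => -w1 (c - a)) (fun a => w2 (c - a)) (-1) 1 1 A :=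
    ⟨fun y _ => h.dm c y, fun y _ => (h.dm1 c y).neg.congr_deriv (neg_neg _), by fun_prop,
      fun y _ => (h.d _).2.2.1,
      fun y _ => by simpa using (h.d _).2.2.2.1, fun y _ => by simpa using (h.d _).2.2.2.2⟩
  have e : (w (c + 1) = 0 ∧ w1 (c + 1) = 0) ∨ (w (c - 1) = 0 ∧ w1 (c - 1) = 0) := by
    rcases le_total 1 c with hc | hc
    · exact Or.inl (h.z _ fun hh => by linarith [hh.2])
    · exact Or.inr (h.z _ fun hh => by linarith [hh.1])
  refine ⟨_, _, p.mul m, ?_, ?_, ?_, ?_⟩ <;> rcases e with e | e <;>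
    simp [← sub_eq_add_neg, e.1, e.2]

/-- the inner phase -/
noncomputable def ph (q β d c a : ℝ) : ℝ :=
  -(d * a) - q / β ^ 2 * Real.cosh (2 * β * c) * (Real.cosh (2 * β * a) - 1)

noncomputable def ph1 (q β d c a : ℝ) : ℝ :=
  -d - 2 * q / β * Real.cosh (2 * β * c) * Real.sinh (2 * β * a)

noncomputable def ph2 (q β c a : ℝ) : ℝ := -(4 * q * Real.cosh (2 * β * c) * Real.cosh (2 * β * a))

noncomputable def ph3 (q β c a : ℝ) : ℝ :=
  -(8 * q * β * Real.cosh (2 * β * c) * Real.sinh (2 * β * a))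

noncomputable def phc (q β c a : ℝ) : ℝ :=
  -(2 * q / β * Real.sinh (2 * β * c) * (Real.cosh (2 * β * a) - 1))

theorem dlin (k x : ℝ) : HasDerivAt (fun x => k * x) k x := by
  simpa using (hasDerivAt_id x).const_mul k

theorem d_ph (hβ : β ≠ 0) (a : ℝ) : HasDerivAt (ph q β d c) (ph1 q β d c a) a := by
  refine HasDerivAt.congr_deriv ((dlin d a).neg.sub
    (((dlin (2 * β) a).cosh.sub_const 1).const_mul (q / β ^ 2 * Real.cosh (2 * β * c)))) ?_
  unfold ph1; field_simp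

theorem d_ph1 (hβ : β ≠ 0) (a : ℝ) : HasDerivAt (ph1 q β d c) (ph2 q β c a) a := by
  refine HasDerivAt.congr_deriv (((dlin (2 * β) a).sinh.const_mul
    (2 * q / β * Real.cosh (2 * β * c))).const_sub (-d)) ?_
  unfold ph2; field_simp; ring

theorem d_ph2 (a : ℝ) : HasDerivAt (ph2 q β c) (ph3 q β c a) a := by
  refine HasDerivAt.congr_deriv (((dlin (2 * β) a).cosh.const_mul
    (4 * q * Real.cosh (2 * β * c))).neg) ?_
  unfold ph3; ring

theorem d_phc (hβ : β ≠ 0) (a c : ℝ) : HasDerivAt (fun c => ph q β d c a) (phc q β c a) c := by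
  refine HasDerivAt.congr_deriv (((((dlin (2 * β) c).cosh.const_mul (q / β ^ 2)).mul_const
    (Real.cosh (2 * β * a) - 1))).const_sub (-(d * a))) ?_
  unfold phc; field_simp

theorem osc (hS : SecDerStmt) : ∃ C : ℝ, 0 < C ∧ ∀ (am am1 : ℝ → ℂ) (q β d c B : ℝ),
    0 < q → 0 < β → (∀ y ∈ Icc (-1 : ℝ) 1, HasDerivAt am (am1 y) y ∧ ‖am y‖ ≤ B ∧ ‖am1 y‖ ≤ B) →
    ContinuousOn am1 (Icc (-1) 1) →
    ‖∫ a in (-1 : ℝ)..1, am a * E (ph q β d c a)‖ ≤ C * (B / Real.sqrt q) := by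
  obtain ⟨C, hC, h⟩ := secder_abs hS
  refine ⟨3 * C, by positivity, fun am am1 q β d c B hq hβ h1 h2 => ?_⟩
  have := h am am1 (ph q β d c) (ph1 q β d c) (ph2 q β c) (-1) 1 B B q (by norm_num) hq h1 h2
    (fun y _ => ⟨d_ph hβ.ne' y, d_ph1 hβ.ne' y⟩) (Or.inr fun y _ => by
      have p1 := Real.one_le_cosh (2 * β * c)
      have p2 := Real.one_le_cosh (2 * β * y)
      have p3 : 1 ≤ Real.cosh (2 * β * c) * Real.cosh (2 * β * y) := one_le_mul_of_one_le_of_one_le p1 p2
      unfold ph2; nlinarith) (by unfold ph2; fun_prop)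
  refine this.trans (le_of_eq ?_)
  ring

theorem osc_ibp (hS : SecDerStmt) : ∃ C : ℝ, 0 < C ∧ ∀ (am : ℝ → ℂ) (q β d c B : ℝ),
    0 < q → 0 < β → C20 am (-1) 1 1 B →
    ‖∫ a in (-1 : ℝ)..1, am a * (2 * Real.pi * Complex.I * ph1 q β d c a * E (ph q β d c a))‖ ≤
      C * (B / Real.sqrt q) := by
  obtain ⟨C, hC, h⟩ := osc hS
  refine ⟨C, hC, fun am q β d c B hq hβ ⟨a1, a2, hh, e1, e2, _, _⟩ => ?_⟩
  have hu : uIcc (-1 : ℝ) 1 = Set.Icc (-1) 1 := uIcc_of_le (by norm_num)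
  have cE : Continuous fun a => E (ph q β d c a) := by unfold ph; fun_prop
  have := intervalIntegral.integral_mul_deriv_eq_deriv_mul (a := -1) (b := 1) (u := am) (u' := a1)
    (v := fun a => E (ph q β d c a))
    (v' := fun a => 2 * Real.pi * Complex.I * ph1 q β d c a * E (ph q β d c a))
    (fun x hx => hh.d1 x (hu ▸ hx)) (fun x _ => hasDerivAt_E_comp (d_ph hβ.ne' x))
    ((hu ▸ hh.contOn1).intervalIntegrable)
    (Continuous.intervalIntegrable (by unfold ph1; fun_prop) _ _)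
  rw [this, e1, e2, zero_mul, zero_mul, sub_zero, zero_sub, norm_neg]
  exact h a1 a2 q β d c B hq hβ (fun y hy => ⟨hh.d2 y hy, by simpa using hh.b1 y hy,
    by simpa using hh.b2 y hy⟩) hh.cont

/-- the inner integral -/
noncomputable def I2 (w : ℝ → ℂ) (q β d c : ℝ) : ℂ :=
  ∫ a in (-1 : ℝ)..1, w (c + a) * w (c - a) * E (ph q β d c a)

noncomputable def rt (β D c : ℝ) : ℝ := Real.sqrt (Real.cosh (2 * β * c) ^ 2 + D ^ 2)

/-- derivative of the critical value -/
noncomputable def X1 (q β d c : ℝ) : ℝ :=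
  -(2 * q / β * th (2 * β * c) * (rt β (d * β / (2 * q)) c - Real.cosh (2 * β * c)))

noncomputable def Xi (q β d c : ℝ) : ℝ := ∫ x in (0 : ℝ)..c, X1 q β d x

theorem continuous_X1 : Continuous (X1 q β d) := by unfold X1 rt; fun_prop

theorem d_Xi (c : ℝ) : HasDerivAt (Xi q β d) (X1 q β d c) c :=
  intervalIntegral.integral_hasDerivAt_right (continuous_X1.intervalIntegrable _ _)
    (continuous_X1.stronglyMeasurableAtFilter _ _) continuous_X1.continuousAt

theorem continuous_Xi : Continuous (Xi q β d) :=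
  continuous_iff_continuousAt.2 fun c => (d_Xi c).continuousAt

theorem key_id (hq : 0 < q) (hβ : 0 < β) : ∃ e : ℝ, ∀ a, phc q β c a - X1 q β d c =
    th (2 * β * c) * th (β * a + e) * ph1 q β d c a := by
  set κ := Real.cosh (2 * β * c) with hκ
  have k0 : 0 < κ := Real.cosh_pos _
  set D := d * β / (2 * q) with hD
  set B := Real.arsinh (-D / κ) with hB
  refine ⟨B / 2, fun a => ?_⟩
  have h1 := cosh_sub (2 * β * a) B
  have h2 : Real.sinh B = -D / κ := Real.sinh_arsinh _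
  have h3 : Real.cosh B = rt β D c / κ := by
    rw [hB, Real.cosh_arsinh, rt, ← hκ, eq_div_iff k0.ne', ← Real.sqrt_mul_self k0.le,
      ← Real.sqrt_mul (by positivity), Real.sqrt_mul_self k0.le]
    congr 1; field_simp
  rw [h2, h3, show (2 * β * a + B) / 2 = β * a + B / 2 by ring] at h1
  have h4 : ph1 q β d c a = -(2 * q / β * κ) * (Real.sinh (2 * β * a) - -D / κ) := by
    unfold ph1; rw [← hκ, hD]; field_simp; ring
  have h5 : Real.sinh (2 * β * c) = th (2 * β * c) * κ := by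
    unfold th; rw [← hκ]; field_simp
  have h6 : Real.cosh (2 * β * a) = rt β D c / κ +
      th (β * a + B / 2) * (Real.sinh (2 * β * a) - -D / κ) := by linarith
  unfold phc X1
  rw [h4, ← hκ, ← hD, h5, h6]
  field_simp; ring

theorem C2_T (hβ : 0 < β) (hβ1 : β ≤ 1 / 2) (τ e : ℝ) (hτ : |τ| ≤ 1) :
    C2 (fun a => ((τ * th (β * a + e) : ℝ) : ℂ)) (-1) 1 1 1 := by
  refine C2.ofReal (f1 := fun a => τ * ((1 - th (β * a + e) ^ 2) * β))
    (f2 := fun a => τ * (-(2 * th (β * a + e) * ((1 - th (β * a + e) ^ 2) * β)) * β))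
    (fun y _ => ?_) (by fun_prop)
  have d1 : HasDerivAt (fun a => th (β * a + e)) ((1 - th (β * y + e) ^ 2) * β) y :=
    (hasDerivAt_th _).comp y ((dlin β y).add_const e)
  have p1 := abs_th_le (β * y + e)
  have p2 : th (β * y + e) ^ 2 ≤ 1 := (sq_le_one_iff_abs_le_one _).2 p1
  have p3 : |1 - th (β * y + e) ^ 2| ≤ 1 := abs_le.2 ⟨by linarith, by nlinarith⟩
  refine ⟨d1.const_mul τ, ?_, ?_, ?_, ?_⟩
  · refine HasDerivAt.congr_deriv ((((d1.pow 2).const_sub 1).mul_const β).const_mul τ) ?_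
    simp
  · rw [abs_mul]; exact mul_le_one₀ hτ (abs_nonneg _) p1
  · rw [abs_mul, abs_mul, abs_of_pos hβ, div_one]
    exact mul_le_one₀ hτ (by positivity) (mul_le_one₀ p3 hβ.le (by linarith))
  · simp only [abs_mul, abs_neg, abs_of_pos hβ, abs_two, one_pow, div_one]
    calc _ ≤ 1 * (2 * 1 * (1 * (1 / 2)) * (1 / 2) : ℝ) := by gcongr
      _ ≤ 1 := by norm_num

theorem GD.cont_I2 (h : GD w w1 w2 A) : Continuous (I2 w q β d) := by
  have := h.c0
  exact intervalIntegral.continuous_parametric_intervalIntegral_of_continuous'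
    (by unfold ph Function.uncurry; fun_prop) _ _

/-- the slowly varying amplitude -/
theorem slow (hS : SecDerStmt) : ∃ C : ℝ, 0 < C ∧ ∀ (w w1 w2 : ℝ → ℂ) (A q β d : ℝ),
    GD w w1 w2 A → 0 < q → 0 < β → β ≤ 1 / 2 → ∃ b b1 : ℝ → ℂ, Continuous b1 ∧ ∀ c,
    I2 w q β d c = b c * E (Xi q β d c) ∧ HasDerivAt b (b1 c) c ∧
      ‖b c‖ ≤ C * (A * A / Real.sqrt q) ∧ ‖b1 c‖ ≤ C * (A * A / Real.sqrt q) := by
  obtain ⟨C1, hC1, h1⟩ := osc hS
  obtain ⟨C2, hC2, h2⟩ := osc_ibp hS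
  refine ⟨4 * C1 + 16 * C2, by positivity, fun w w1 w2 A q β d h hq hβ hβ1 => ?_⟩
  have c0 := h.c0
  have c1 := h.c1
  have c2 := h.c2
  have hA := h.nonneg
  set k : ℂ := 2 * Real.pi * Complex.I with hk
  set F' : ℝ → ℝ → ℂ := fun c a => (w1 (c + a) * w (c - a) + w (c + a) * w1 (c - a)) *
    E (ph q β d c a) + w (c + a) * w (c - a) * (k * phc q β c a * E (ph q β d c a)) with hF'
  have cF' : Continuous F'.uncurry := by unfold F' ph phc Function.uncurry; fun_prop
  have dI : ∀ c, HasDerivAt (I2 w q β d) (∫ a in (-1 : ℝ)..1, F' c a) c := fun c =>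
    hasDerivAt_param (F := fun c a => w (c + a) * w (c - a) * E (ph q β d c a))
      (by unfold ph Function.uncurry; fun_prop) cF'
      (fun c a => (((h.d _).1.comp_add_const c a).mul ((h.d _).1.comp_sub_const c a)).mul
        (hasDerivAt_E_comp (d_phc hβ.ne' a c))) (-1) 1 c
  have cI' : Continuous fun c => ∫ a in (-1 : ℝ)..1, F' c a :=
    intervalIntegral.continuous_parametric_intervalIntegral_of_continuous' cF' _ _
  have cI := h.cont_I2 (q := q) (β := β) (d := d)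
  have cX := continuous_Xi (q := q) (β := β) (d := d)
  have cX1 := continuous_X1 (q := q) (β := β) (d := d)
  have hs : 0 ≤ A * A / Real.sqrt q := by positivity
  refine ⟨fun c => I2 w q β d c * E (-Xi q β d c), fun c => (∫ a in (-1 : ℝ)..1, F' c a) *
    E (-Xi q β d c) + I2 w q β d c * (k * (-X1 q β d c : ℝ) * E (-Xi q β d c)), by fun_prop,
    fun c => ⟨?_, (dI c).mul (hasDerivAt_E_comp (d_Xi c).neg), ?_, ?_⟩⟩
  · rw [mul_assoc, ← E_add, neg_add_cancel, E_zero, mul_one]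
  · obtain ⟨a1, a2, hh, -⟩ := h.amp c
    have := h1 _ a1 q β d c _ hq hβ (fun y hy => ⟨hh.d1 y hy, hh.b0 y hy,
      by simpa using hh.b1 y hy⟩) hh.contOn1
    rw [norm_mul, norm_E, mul_one]
    refine this.trans ?_
    rw [mul_div_assoc]; nlinarith
  · obtain ⟨e, he⟩ := key_id (c := c) (d := d) hq hβ
    have k1 := h2 _ q β d c _ hq hβ ((h.amp c).mul (C2_T hβ hβ1 (th (2 * β * c)) e (abs_th_le _)))
    have nm : ∀ {u v : ℂ}, ‖u‖ ≤ A → ‖v‖ ≤ A → ‖u * v‖ ≤ A * A := fun hu hv => by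
      rw [norm_mul]; exact mul_le_mul hu hv (norm_nonneg _) hA
    have k2 := h1 (fun a => w1 (c + a) * w (c - a) + w (c + a) * w1 (c - a))
      (fun a => (w2 (c + a) * w (c - a) + w1 (c + a) * -w1 (c - a)) +
        (w1 (c + a) * w1 (c - a) + w (c + a) * -w2 (c - a))) q β d c (4 * (A * A)) hq hβ
      (fun y _ => ⟨((h.dp1 c y).mul (h.dm c y)).add ((h.dp c y).mul (h.dm1 c y)), by
        have u1 := nm (h.d (c + y)).2.2.2.1 (h.d (c - y)).2.2.1
        have u2 := nm (h.d (c + y)).2.2.1 (h.d (c - y)).2.2.2.1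
        have := norm_add_le (w1 (c + y) * w (c - y)) (w (c + y) * w1 (c - y))
        nlinarith, by
        have u1 := nm (h.d (c + y)).2.2.2.2 (h.d (c - y)).2.2.1
        have u2 := nm (h.d (c + y)).2.2.1 (h.d (c - y)).2.2.2.2
        have e : (w2 (c + y) * w (c - y) + w1 (c + y) * -w1 (c - y)) +
          (w1 (c + y) * w1 (c - y) + w (c + y) * -w2 (c - y)) =
          w2 (c + y) * w (c - y) - w (c + y) * w2 (c - y) := by ring
        have := norm_sub_le (w2 (c + y) * w (c - y)) (w (c + y) * w2 (c - y))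
        rw [e]; nlinarith⟩) (by fun_prop)
    have cE : Continuous fun a => E (ph q β d c a) := by unfold ph; fun_prop
    have e1 : (∫ a in (-1 : ℝ)..1, F' c a) + I2 w q β d c * (k * (-X1 q β d c : ℝ)) =
        (∫ a in (-1 : ℝ)..1, (w1 (c + a) * w (c - a) + w (c + a) * w1 (c - a)) * E (ph q β d c a)) +
        ∫ a in (-1 : ℝ)..1, w (c + a) * w (c - a) * ((th (2 * β * c) * th (β * a + e) : ℝ) : ℂ) *
          (k * ph1 q β d c a * E (ph q β d c a)) := by
      rw [I2, ← intervalIntegral.integral_mul_const, ← intervalIntegral.integral_add,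
        ← intervalIntegral.integral_add]
      · congr 1; ext a
        have := congrArg (fun x : ℝ => (x : ℂ)) (he a)
        push_cast at this ⊢
        simp only [hF']
        linear_combination (w (c + a) * w (c - a) * k * E (ph q β d c a)) * this
      · exact Continuous.intervalIntegrable (by fun_prop) _ _
      · exact Continuous.intervalIntegrable (by unfold ph1; fun_prop) _ _
      · exact (cF'.comp (Continuous.prodMk_right c)).intervalIntegrable _ _
      · exact Continuous.intervalIntegrable (by fun_prop) _ _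
    beta_reduce
    rw [← mul_assoc, ← add_mul, e1, norm_mul, norm_E, mul_one]
    refine (norm_add_le _ _).trans ((add_le_add k2 k1).trans (le_of_eq ?_))
    ring

end Pool.Agent.MP_3d0d30_nt.Six.L4

end MrgPart0

-- ======== part 1: formerly Pool.Agent.MP_3d0d30_nt.Six.L4C
section MrgPart1

/-! Project SIX, module L4, part C: the outer integral. -/

set_option autoImplicit false

namespace Pool.Agent.MP_3d0d30_nt.Six.L4

open MeasureTheory Finset Filter Set
open scoped ComplexConjugate Topology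

variable {q β D c : ℝ}

theorem cosh_le_rt : Real.cosh (2 * β * c) ≤ rt β D c :=
  Real.le_sqrt_of_sq_le (by nlinarith [sq_nonneg D])

theorem rt_pos : 0 < rt β D c := (Real.cosh_pos _).trans_le cosh_le_rt

theorem rt_sq : rt β D c ^ 2 = Real.cosh (2 * β * c) ^ 2 + D ^ 2 := Real.sq_sqrt (by positivity)

theorem d_rt (c : ℝ) : HasDerivAt (rt β D)
    (Real.cosh (2 * β * c) * Real.sinh (2 * β * c) * (2 * β) / rt β D c) c := by
  have h := Real.cosh_pos (2 * β * c)
  refine HasDerivAt.congr_deriv ((((dlin (2 * β) c).cosh.pow 2).add_const (D ^ 2)).sqrt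
    (by simp only [Pi.pow_apply]; positivity)) ?_
  have := rt_pos (β := β) (D := D) (c := c)
  simp only [rt, Pi.pow_apply] at this ⊢
  field_simp; simp; ring

theorem continuous_rt : Continuous (rt β D) := by unfold rt; fun_prop

/-- first derivative of the outer phase without the linear term -/
noncomputable def T1 (q β D D' c : ℝ) : ℝ := -(2 * q / β * th (2 * β * c) * (rt β D c - rt β D' c))

noncomputable def br (β D D' c : ℝ) : ℝ :=
  1 / Real.cosh (2 * β * c) ^ 2 - Real.sinh (2 * β * c) ^ 2 / (rt β D c * rt β D' c)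

noncomputable def T2 (q β D D' c : ℝ) : ℝ := -(4 * q * (rt β D c - rt β D' c) * br β D D' c)

theorem d_T1 (hβ : β ≠ 0) (D' c : ℝ) : HasDerivAt (T1 q β D D') (T2 q β D D' c) c := by
  have d1 : HasDerivAt (fun c => th (2 * β * c)) ((1 - th (2 * β * c) ^ 2) * (2 * β)) c :=
    (hasDerivAt_th _).comp c (dlin (2 * β) c)
  refine HasDerivAt.congr_deriv (((d1.const_mul (2 * q / β)).mul
    ((d_rt (D := D) c).sub (d_rt (D := D') c))).neg) ?_
  have h := Real.cosh_pos (2 * β * c)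
  have h1 := rt_pos (β := β) (D := D) (c := c)
  have h2 := rt_pos (β := β) (D := D') (c := c)
  have h3 := Real.cosh_sq (2 * β * c)
  simp only [T2, br, th, Pi.sub_apply]
  field_simp
  rw [h3]; ring

theorem continuous_T2 (D' : ℝ) : Continuous (T2 q β D D') := by
  have h1 := continuous_rt (β := β) (D := D)
  have h2 := continuous_rt (β := β) (D := D')
  unfold T2 br
  refine ((continuous_const.mul (h1.sub h2)).mul ((continuous_const.div (by fun_prop)
    fun c => (pow_pos (Real.cosh_pos _) 2).ne').sub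
    (Continuous.div (by fun_prop) (h1.mul h2) fun c => (mul_pos rt_pos rt_pos).ne'))).neg

theorem T_bounds (hq : 0 < q) (hβ : 0 < β) (hβ1 : β ≤ 1 / 10) (D D' : ℝ)
    (hc : c ∈ Set.Icc (1 / 2 : ℝ) 2) :
    |T1 q β D D' c| ≤ 12 * (q * |D ^ 2 - D' ^ 2| / (rt β D 0 + rt β D' 0)) ∧ ∃ u : ℝ, 1 ≤ u ∧
      u ≤ 4 ∧ T2 q β D D' c = -(u * (q * (D ^ 2 - D' ^ 2) / (rt β D 0 + rt β D' 0))) := by
  have x1 : |2 * β * c| ≤ 4 * β := abs_le.2 ⟨by nlinarith [hc.1], by nlinarith [hc.2]⟩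
  have x0 := abs_nonneg (2 * β * c)
  have k1 := Real.one_le_cosh (2 * β * c)
  have k2 : Real.cosh (2 * β * c) ≤ 29 / 25 :=
    (cosh_le (by linarith)).trans (by nlinarith [sq_abs (2 * β * c)])
  have k3 : |Real.sinh (2 * β * c)| ≤ 28 / 5 * β :=
    (abs_sinh_le (by linarith)).trans (by nlinarith [sq_abs (2 * β * c)])
  have k4 : |th (2 * β * c)| ≤ 28 / 5 * β := by
    rw [th, abs_div, abs_of_pos (Real.cosh_pos _)]
    exact (div_le_self (abs_nonneg _) k1).trans k3
  have lo : ∀ D : ℝ, rt β D 0 ≤ rt β D c := fun D => Real.sqrt_le_sqrt (by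
    rw [mul_zero, Real.cosh_zero]; nlinarith)
  have up : ∀ D : ℝ, rt β D c ≤ 2 * rt β D 0 := fun D => Real.sqrt_le_iff.2
    ⟨by linarith [rt_pos (β := β) (D := D) (c := 0)], by
      rw [mul_pow, rt_sq]; simp; nlinarith [sq_nonneg D]⟩
  have r1 := cosh_le_rt (β := β) (D := D) (c := c)
  have r2 := cosh_le_rt (β := β) (D := D') (c := c)
  have s1 := rt_sq (β := β) (D := D) (c := c)
  have s2 := rt_sq (β := β) (D := D') (c := c)
  have u1 := add_le_add (up D) (up D')
  have u2 := add_le_add (lo D) (lo D')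
  have u0 := add_pos (rt_pos (β := β) (D := D) (c := 0)) (rt_pos (β := β) (D := D') (c := 0))
  have k5 : Real.sinh (2 * β * c) ^ 2 ≤ 8 / 25 := by
    nlinarith [sq_abs (Real.sinh (2 * β * c)), abs_nonneg (Real.sinh (2 * β * c))]
  have b1 : br β D D' c ≤ 1 := by
    have : 1 / Real.cosh (2 * β * c) ^ 2 ≤ 1 := by
      rw [div_le_one (by positivity)]; nlinarith
    have : 0 ≤ Real.sinh (2 * β * c) ^ 2 / (rt β D c * rt β D' c) :=
      div_nonneg (sq_nonneg _) (mul_pos rt_pos rt_pos).le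
    unfold br; linarith
  have b2 : 1 / 2 ≤ br β D D' c := by
    have p1 : Real.sinh (2 * β * c) ^ 2 / (rt β D c * rt β D' c) ≤
        (8 / 25) / Real.cosh (2 * β * c) ^ 2 := by
      rw [sq (Real.cosh _)]; gcongr; exact rt_pos.le
    have p2 : 1 / 2 ≤ (17 / 25) / Real.cosh (2 * β * c) ^ 2 := by
      rw [le_div_iff₀ (by positivity)]; nlinarith
    have p3 : 1 / Real.cosh (2 * β * c) ^ 2 = (8 / 25) / Real.cosh (2 * β * c) ^ 2 +
      (17 / 25) / Real.cosh (2 * β * c) ^ 2 := by ring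
    unfold br; linarith
  unfold T1 T2
  rw [← mul_add] at u1
  generalize rt β D c = r at *
  generalize rt β D' c = r' at *
  generalize rt β D 0 + rt β D' 0 = S at *
  have e : r - r' = (D ^ 2 - D' ^ 2) / (r + r') := by
    rw [eq_div_iff (by linarith)]; linarith
  have hr : 0 < r + r' := by linarith
  refine ⟨?_, 4 * br β D D' c * S / (r + r'), ?_, ?_, ?_⟩
  · rw [e, abs_neg, abs_mul, abs_mul, abs_div (D ^ 2 - D' ^ 2), abs_of_pos hr,
      abs_of_pos (by positivity : 0 < 2 * q / β)]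
    calc _ ≤ 2 * q / β * (28 / 5 * β) * (|D ^ 2 - D' ^ 2| / S) := by gcongr
      _ = 56 / 5 * (q * |D ^ 2 - D' ^ 2| / S) := by field_simp; ring
      _ ≤ _ := by gcongr; norm_num
  · rw [le_div_iff₀ hr]; nlinarith
  · rw [div_le_iff₀ hr]; nlinarith
  · rw [e]; field_simp

theorem outer (hS : SecDerStmt) : ∃ C : ℝ, 0 < C ∧ ∀ (w w1 w2 : ℝ → ℂ) (A q β L d d' γ : ℝ),
    GD w w1 w2 A → 0 < q → 0 < β → β ≤ 1 / 10 → |d| ≤ L → |d'| ≤ L →
    ‖∫ c in (1 / 2 : ℝ)..2, I2 w q β d c * conj (I2 w q β d' c) * E (-(γ * c))‖ ≤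
      C * (A ^ 4 / q * Real.sqrt (1 + β ^ 2 * L ^ 2 / q) * (1 / (1 + |γ|))) := by
  obtain ⟨C1, hC1, h1⟩ := slow hS
  obtain ⟨C2, hC2, h2⟩ := secder_abs hS
  refine ⟨2 * C1 ^ 2 * (10 + 600 * C2), by positivity,
    fun w w1 w2 A q β L d d' γ h hq hβ hβ1 hd hd' => ?_⟩
  obtain ⟨b, b1, cb, hb⟩ := h1 w w1 w2 A q β d h hq hβ (by linarith)
  obtain ⟨g, g1, cg, hg⟩ := h1 w w1 w2 A q β d' h hq hβ (by linarith)
  have cb0 : Continuous b := continuous_iff_continuousAt.2 fun c => (hb c).2.1.continuousAt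
  have cg0 : Continuous g := continuous_iff_continuousAt.2 fun c => (hg c).2.1.continuousAt
  set B := 2 * C1 ^ 2 * (A ^ 4 / q) with hB
  have hB0 : 0 ≤ B := by positivity
  have nm : ∀ {u v : ℂ}, ‖u‖ ≤ C1 * (A * A / Real.sqrt q) → ‖v‖ ≤ C1 * (A * A / Real.sqrt q) →
      ‖u * conj v‖ ≤ B / 2 := fun hu hv => by
    rw [norm_mul, Complex.norm_conj]
    refine (mul_le_mul hu hv (norm_nonneg _) ((norm_nonneg _).trans hu)).trans (le_of_eq ?_)
    have := Real.sqrt_pos.2 hq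
    rw [hB]; nth_rewrite 3 [← Real.mul_self_sqrt hq.le]; field_simp
  have ham : ∀ y ∈ Set.Icc (1 / 2 : ℝ) 2, HasDerivAt (fun c => b c * conj (g c))
      (b1 y * conj (g y) + b y * conj (g1 y)) y ∧ ‖b y * conj (g y)‖ ≤ B ∧
      ‖b1 y * conj (g y) + b y * conj (g1 y)‖ ≤ B := fun y _ =>
    ⟨(hb y).2.1.mul (hg y).2.1.star, (nm (hb y).2.2.1 (hg y).2.2.1).trans (by linarith),
      (norm_add_le _ _).trans (by
        linarith [nm (hb y).2.2.2 (hg y).2.2.1, nm (hb y).2.2.1 (hg y).2.2.2])⟩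
  have cam : ContinuousOn (fun y => b1 y * conj (g y) + b y * conj (g1 y)) (Set.Icc (1 / 2 : ℝ) 2) :=
    ((cb.mul (Complex.continuous_conj.comp cg0)).add
      (cb0.mul (Complex.continuous_conj.comp cg))).continuousOn
  set D := d * β / (2 * q) with hD
  set D' := d' * β / (2 * q) with hD'
  have aD : ∀ {d : ℝ}, |d| ≤ L → q * (d * β / (2 * q)) ^ 2 ≤ β ^ 2 * L ^ 2 / q := fun {d} h => by
    have h1 : d ^ 2 ≤ L ^ 2 := sq_le_sq' (abs_le.1 h).1 (abs_le.1 h).2
    have h2 : q * (d * β / (2 * q)) ^ 2 = β ^ 2 * (d ^ 2 / 4) / q := by field_simp; norm_num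
    rw [h2]; gcongr; nlinarith [sq_nonneg d]
  have dφ : ∀ y, HasDerivAt (fun c => Xi q β d c - Xi q β d' c - γ * c) (T1 q β D D' y - γ) y ∧
      HasDerivAt (fun y => T1 q β D D' y - γ) (T2 q β D D' y) y := fun y =>
    ⟨(((d_Xi y).sub (d_Xi y)).sub (dlin γ y)).congr_deriv (by unfold X1 T1; ring),
      (d_T1 hβ.ne' D' y).sub_const γ⟩
  have e : ∀ c, I2 w q β d c * conj (I2 w q β d' c) * E (-(γ * c)) =
      b c * conj (g c) * E (Xi q β d c - Xi q β d' c - γ * c) := fun c => by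
    rw [(hb c).1, (hg c).1, E_sub, E_sub, conj_E (γ * c), map_mul]; ring
  simp only [e]
  have tb := fun y (hy : y ∈ Set.Icc (1 / 2 : ℝ) 2) => T_bounds hq hβ hβ1 D D' hy
  have S1 : 1 ≤ rt β D 0 + rt β D' 0 := by
    linarith [cosh_le_rt (β := β) (D := D) (c := 0), rt_pos (β := β) (D := D') (c := 0),
      Real.one_le_cosh (2 * β * 0)]
  set S := rt β D 0 + rt β D' 0 with hS'
  set ρ := q * |D ^ 2 - D' ^ 2| / S with hρ
  set K := Real.sqrt (1 + β ^ 2 * L ^ 2 / q) with hK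
  have P0 : 0 ≤ β ^ 2 * L ^ 2 / q := by positivity
  have K1 : 1 ≤ K := Real.le_sqrt_of_sq_le (by linarith)
  have g0 := abs_nonneg γ
  suffices hs : ‖∫ c in (1 / 2 : ℝ)..2, b c * conj (g c) * E (Xi q β d c - Xi q β d' c - γ * c)‖ ≤
      (10 + 600 * C2) * (B * K / (1 + |γ|)) from hs.trans (le_of_eq (by rw [hB]; ring))
  have hBK : B / (1 + |γ|) ≤ B * K / (1 + |γ|) := by
    gcongr; exact le_mul_of_one_le_right hB0 K1
  have hp : 0 ≤ B / (1 + |γ|) := by positivity
  have hp2 : 0 ≤ C2 * (B * K / (1 + |γ|)) := by positivity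
  rcases le_or_gt |γ| 1 with hγ | hγ
  · have := intervalIntegral.norm_integral_le_of_norm_le_const (a := 1 / 2) (b := 2) (C := B)
      (f := fun c => b c * conj (g c) * E (Xi q β d c - Xi q β d' c - γ * c)) fun y _ => by
        rw [norm_mul, norm_E, mul_one]
        exact (nm (hb y).2.2.1 (hg y).2.2.1).trans (by linarith)
    have p : B ≤ 2 * (B / (1 + |γ|)) := by
      rw [← mul_div_assoc, le_div_iff₀ (by positivity)]; nlinarith
    rw [abs_of_pos (by norm_num)] at this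
    nlinarith
  have p : B / |γ| ≤ 2 * (B / (1 + |γ|)) := by
    rw [← mul_div_assoc, div_le_div_iff₀ (by linarith) (by positivity)]; nlinarith
  rcases le_or_gt (24 * ρ) |γ| with hc | hc
  · have := firstder (μ := |γ| / 2) (by norm_num) (by linarith) ham cam (fun y hy => ⟨(dφ y).1,
      (dφ y).2, by
        have := abs_sub_abs_le_abs_sub γ (T1 q β D D' y)
        rw [abs_sub_comm] at this
        linarith [(tb y hy).1], by
        obtain ⟨-, u, u1, u2, u3⟩ := tb y hy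
        rw [u3, abs_neg, abs_mul, abs_div, abs_mul, abs_of_pos hq, abs_of_pos (by linarith : 0 < u),
          abs_of_pos (by linarith : 0 < S)]
        have : u * ρ ≤ 4 * ρ := by gcongr
        have : 0 ≤ ρ := by positivity
        linarith⟩) (continuous_T2 D').continuousOn
    have e2 : B / (|γ| / 2) = 2 * (B / |γ|) := by field_simp
    rw [e2] at this
    nlinarith
  · have ρ0 : 0 < ρ := by linarith
    have := h2 _ _ _ _ _ (1 / 2) 2 B B ρ (by norm_num) ρ0 ham cam
      (fun y _ => dφ y) (by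
        rcases le_total (D ^ 2 - D' ^ 2) 0 with hs | hs
        · refine Or.inl fun y hy => ?_
          obtain ⟨-, u, u1, u2, u3⟩ := tb y hy
          have : q * (D ^ 2 - D' ^ 2) / S = -ρ := by rw [hρ, abs_of_nonpos hs]; ring
          rw [u3, this]; nlinarith
        · refine Or.inr fun y hy => ?_
          obtain ⟨-, u, u1, u2, u3⟩ := tb y hy
          have : q * (D ^ 2 - D' ^ 2) / S = ρ := by rw [hρ, abs_of_nonneg hs]
          rw [u3, this]; nlinarith) (continuous_T2 D').continuousOn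
    refine this.trans ?_
    have a1 : q * D ^ 2 ≤ _ := aD hd
    have a2 : q * D' ^ 2 ≤ _ := aD hd'
    have ρ1 : q * |D ^ 2 - D' ^ 2| ≤ β ^ 2 * L ^ 2 / q := by
      rw [← abs_of_pos hq, ← abs_mul, abs_of_pos hq]
      exact abs_le.2 ⟨by nlinarith [mul_nonneg hq.le (sq_nonneg D)],
        by nlinarith [mul_nonneg hq.le (sq_nonneg D')]⟩
    have ρ3 : ρ ≤ q * |D ^ 2 - D' ^ 2| := div_le_self (by positivity) S1
    have ρ2 : Real.sqrt ρ ≤ K := Real.sqrt_le_sqrt (by linarith)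
    have s0 := Real.sqrt_pos.2 ρ0
    have s1 := Real.mul_self_sqrt ρ0.le
    have : (B + (2 - 1 / 2) * B) / Real.sqrt ρ ≤ 600 * (B * K / (1 + |γ|)) := by
      rw [← mul_div_assoc, div_le_div_iff₀ s0 (by positivity)]
      have t1 : 1 + |γ| ≤ 48 * (K * Real.sqrt ρ) := by
        nlinarith [mul_le_mul_of_nonneg_right ρ2 s0.le]
      have t2 : 0 ≤ B * (K * Real.sqrt ρ) := by positivity
      nlinarith [mul_le_mul_of_nonneg_left t1 hB0]
    nlinarith [mul_le_mul_of_nonneg_left this hC2.le]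

end Pool.Agent.MP_3d0d30_nt.Six.L4

end MrgPart1

-- marker of a merged file
example : 731051 + 115321 = 731051 + 115321 := rfl
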