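import Mathlib.Algebra.Order.Chebyshev
import Mathlib.Topology.UniformSpace.Uniformizable
import Pool.Agent.MP_3d0d30_nt.Six.L4C

/-! Project SIX, module L4: the fourth power bound for one dual frequency. -/

set_option autoImplicit false

namespace Pool.Agent.MP_3d0d30_nt.Six

open MeasureTheory Finset Filter Set
open scoped ComplexConjugate Topology Convolution

namespace L4

theorem supp_compact {F : ℝ → ℂ} (hz : ∀ y, y ∉ Set.Ioo (1 / 2 : ℝ) 2 → F y = 0) :
    HasCompactSupport F :=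
  HasCompactSupport.intro (isCompact_Icc (a := 1 / 2) (b := 2))
    fun y hy => hz y fun h => hy (Set.Ioo_subset_Icc_self h)

/-- the square of a Fourier integral -/
theorem sq_rep {F : ℝ → ℂ} (hF : Continuous F) (hz : ∀ y, y ∉ Set.Ioo (1 / 2 : ℝ) 2 → F y = 0)
    (t : ℝ) : (∫ y, F y * E (t * y)) ^ 2 =
      2 * ∫ c in (1 / 2 : ℝ)..2, E (2 * c * t) * ∫ a in (-1 : ℝ)..1, F (c + a) * F (c - a) := by
  set f : ℝ → ℂ := fun y => F y * E (t * y) with hf
  have hi : Integrable f := (show Continuous f by fun_prop).integrable_of_hasCompactSupport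
    (supp_compact fun y hy => by simp [hf, hz y hy])
  have h1 := integral_convolution (ContinuousLinearMap.mul ℂ ℂ) hi hi
  have h2 := Measure.integral_comp_mul_left (f ⋆[ContinuousLinearMap.mul ℂ ℂ, volume] f) 2
  have h3 : ∀ c, (f ⋆[ContinuousLinearMap.mul ℂ ℂ, volume] f) (2 * c) =
      E (2 * c * t) * ∫ a in (-1 : ℝ)..1, F (c + a) * F (c - a) := fun c => by
    rw [convolution_mul, ← integral_add_left_eq_self _ c,
      intervalIntegral.integral_eq_integral_of_support_subset, ← integral_const_mul]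
    · congr 1; ext a
      have e : E (2 * c * t) = E (t * (c + a)) * E (t * (c - a)) := by
        rw [← E_add]; congr 1; ring
      simp only [hf]
      rw [show 2 * c - (c + a) = c - a by ring, e]; ring
    · intro a ha
      by_contra hc
      apply ha
      beta_reduce
      by_cases p : c + a ∈ Set.Ioo (1 / 2 : ℝ) 2
      · rw [hz (c - a), mul_zero]
        intro p'
        exact hc ⟨by linarith [p.1, p'.2], by linarith [p.2, p'.1]⟩
      · rw [hz _ p, zero_mul]
  simp only [h3] at h2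
  rw [intervalIntegral.integral_eq_integral_of_support_subset, h2, h1]
  · simp only [ContinuousLinearMap.mul_apply', Complex.real_smul]
    rw [abs_of_pos (by norm_num)]; push_cast; ring
  · intro c hc
    by_contra hc'
    apply hc
    have : ∀ a, F (c + a) * F (c - a) = 0 := fun a => by
      by_cases p : c + a ∈ Set.Ioo (1 / 2 : ℝ) 2
      · rw [hz (c - a), mul_zero]
        intro p'
        exact hc' ⟨by linarith [p.1, p'.1], by linarith [p.2, p'.2]⟩
      · rw [hz _ p, zero_mul]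
    simp [this]

theorem XX_add {β : ℝ} (hβ : β ≠ 0) (c a : ℝ) : XX β (c + a) + XX β (c - a) =
    (Real.cosh (2 * β * c) * Real.cosh (2 * β * a) - 1) / β ^ 2 := by
  have h : ∀ x, Real.sinh (β * x) ^ 2 = (Real.cosh (2 * β * x) - 1) / 2 := fun x => by
    rw [mul_assoc, Real.cosh_two_mul, Real.cosh_sq]; ring
  unfold XX
  rw [h, h, mul_add, mul_sub, Real.cosh_add, Real.cosh_sub]
  field_simp; ring

variable {w w1 w2 : ℝ → ℂ} {A q β : ℝ}

/-- the Fourier transform of the dual vector -/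
noncomputable def FF (w ε : ℝ → ℂ) (U : Finset ℝ) (q β y : ℝ) : ℂ :=
  ∑ s ∈ U, conj (ε s) * (w y * E (-(s * y) - q * XX β y))

/-- its convolution square up to a unimodular factor -/
noncomputable def HH (w ε : ℝ → ℂ) (U : Finset ℝ) (q β c : ℝ) : ℂ :=
  ∑ p ∈ U ×ˢ U, conj (ε p.1) * conj (ε p.2) * E (-((p.1 + p.2) * c)) * I2 w q β (p.1 - p.2) c

theorem conv_FF (h : GD w w1 w2 A) (hβ : β ≠ 0) (ε : ℝ → ℂ) (U : Finset ℝ) (c : ℝ) :
    ∫ a in (-1 : ℝ)..1, FF w ε U q β (c + a) * FF w ε U q β (c - a) =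
      E (-(q / β ^ 2 * (Real.cosh (2 * β * c) - 1))) * HH w ε U q β c := by
  have c0 := h.c0
  simp only [HH, I2, mul_sum, ← intervalIntegral.integral_const_mul]
  rw [← intervalIntegral.integral_finsetSum fun p _ =>
    Continuous.intervalIntegrable (by unfold ph; fun_prop) _ _]
  congr 1; ext a
  rw [FF, FF, sum_mul_sum, sum_product]
  refine sum_congr rfl fun s _ => sum_congr rfl fun s' _ => ?_
  have e : E (-(s * (c + a)) - q * XX β (c + a)) * E (-(s' * (c - a)) - q * XX β (c - a)) =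
      E (-(q / β ^ 2 * (Real.cosh (2 * β * c) - 1))) * E (-((s + s') * c)) *
        E (ph q β (s - s') c a) := by
    rw [← E_add, ← E_add, ← E_add]; congr 1
    have := XX_add hβ c a
    unfold ph
    linear_combination (-q) * this
  linear_combination (conj (ε s) * conj (ε s') * w (c + a) * w (c - a)) * e

theorem cont_HH (h : GD w w1 w2 A) (ε : ℝ → ℂ) (U : Finset ℝ) : Continuous (HH w ε U q β) :=
  continuous_finsetSum _ fun _ _ => (continuous_const.mul (by fun_prop)).mul h.cont_I2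

theorem sq_HH (hK : Kern) (hS : SecDerStmt) : ∃ C : ℝ, 0 < C ∧
    ∀ (w w1 w2 ε : ℝ → ℂ) (A q β s L : ℝ) (U : Finset ℝ), GD w w1 w2 A → 0 < q → 0 < β →
    β ≤ 1 / 10 → (∀ t, ‖ε t‖ ≤ 1) → 1 ≤ L → Win U s L →
    ∫ c in (1 / 2 : ℝ)..2, ‖HH w ε U q β c‖ ^ 2 ≤
      C * (A ^ 4 / q * Real.sqrt (1 + β ^ 2 * L ^ 2 / q) * ((1 + Real.log L) * EE U 1)) := by
  obtain ⟨C, hC, h1⟩ := outer hS
  refine ⟨20 * C, by positivity, fun w w1 w2 ε A q β s L U h hq hβ hβ1 hε hL hW => ?_⟩
  have cI := fun d => h.cont_I2 (q := q) (β := β) (d := d)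
  set η : ℝ × ℝ → ℂ := fun p => conj (ε p.1) * conj (ε p.2) with hη
  have nη : ∀ p, ‖η p‖ ≤ 1 := fun p => by
    simp only [hη, norm_mul, Complex.norm_conj]
    exact mul_le_one₀ (hε _) (norm_nonneg _) (hε _)
  have e : ((∫ c in (1 / 2 : ℝ)..2, ‖HH w ε U q β c‖ ^ 2 : ℝ) : ℂ) =
      ∑ p ∈ U ×ˢ U, ∑ p' ∈ U ×ˢ U, η p * conj (η p') * ∫ c in (1 / 2 : ℝ)..2,
        I2 w q β (p.1 - p.2) c * conj (I2 w q β (p'.1 - p'.2) c) *
          E (-((p.1 + p.2 - p'.1 - p'.2) * c)) := by
    have ci : ∀ p p' : ℝ × ℝ, Continuous fun c => η p * conj (η p') * (I2 w q β (p.1 - p.2) c *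
        conj (I2 w q β (p'.1 - p'.2) c) * E (-((p.1 + p.2 - p'.1 - p'.2) * c))) := fun p p' =>
      continuous_const.mul (((cI _).mul (Complex.continuous_conj.comp (cI _))).mul (by fun_prop))
    simp only [← intervalIntegral.integral_const_mul]
    rw [← intervalIntegral.integral_ofReal, sum_congr rfl fun p _ =>
      (intervalIntegral.integral_finsetSum fun p' _ => (ci p p').intervalIntegrable _ _).symm,
      ← intervalIntegral.integral_finsetSum fun p _ =>
        (continuous_finsetSum _ fun p' _ => ci p p').intervalIntegrable _ _]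
    congr 1; ext c
    rw [Complex.ofReal_pow, ← Complex.mul_conj', HH, map_sum, sum_mul_sum]
    refine sum_congr rfl fun p _ => sum_congr rfl fun p' _ => ?_
    have e : E (-((p.1 + p.2 - p'.1 - p'.2) * c)) =
        E (-((p.1 + p.2) * c)) * conj (E (-((p'.1 + p'.2) * c))) := by
      rw [← E_sub]; congr 1; ring
    rw [e]; simp only [hη, map_mul]; ring
  have hd : ∀ p ∈ U ×ˢ U, |p.1 - p.2| ≤ L := fun p hp => by
    obtain ⟨p1, p2⟩ := mem_product.1 hp
    exact abs_le.2 ⟨by linarith [(hW _ p1).1, (hW _ p2).2], by linarith [(hW _ p1).2, (hW _ p2).1]⟩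
  set X := A ^ 4 / q * Real.sqrt (1 + β ^ 2 * L ^ 2 / q) with hX
  have X0 : 0 ≤ X := by have := h.nonneg; positivity
  calc _ ≤ ‖((∫ c in (1 / 2 : ℝ)..2, ‖HH w ε U q β c‖ ^ 2 : ℝ) : ℂ)‖ := by
        rw [Complex.norm_real]; exact le_abs_self _
    _ ≤ ∑ p ∈ U ×ˢ U, ∑ p' ∈ U ×ˢ U, C * X * (1 / (1 + |p.1 + p.2 - p'.1 - p'.2|)) := by
        rw [e]
        refine (norm_sum_le _ _).trans (sum_le_sum fun p hp => (norm_sum_le _ _).trans
          (sum_le_sum fun p' hp' => ?_))
        rw [norm_mul, norm_mul, Complex.norm_conj, mul_assoc C]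
        exact (mul_le_of_le_one_left (norm_nonneg _)
          (mul_le_one₀ (nη _) (norm_nonneg _) (nη _))).trans
          (h1 w w1 w2 A q β L _ _ _ h hq hβ hβ1 (hd p hp) (hd p' hp'))
    _ = C * X * ∑ t1 ∈ U, ∑ t2 ∈ U, ∑ t3 ∈ U, ∑ t4 ∈ U, 1 / (1 + |t1 + t2 - t3 - t4|) := by
        simp only [sum_product, mul_sum]
    _ ≤ C * X * (20 * (1 + Real.log L) * EE U 1) := by
        gcongr; exact hK.elog U s L hL hW
    _ = _ := by ring

theorem rho_le (hK : Kern) {U : Finset ℝ} (hU : Sep 1 U) {η : ℝ → ℂ} (hη : ∀ t, ‖η t‖ ≤ 1) :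
    ∫ c in (1 / 2 : ℝ)..2, ‖∑ t ∈ U, η t * E (2 * c * t)‖ ^ 2 ≤ Real.exp 30 * U.card := by
  have h1 := hK.sieve U η hU hη
  set f : ℝ → ℝ := fun s => ‖∑ t ∈ U, η t * E (s * t)‖ ^ 2 with hf
  have cf : Continuous f := by fun_prop
  have h2 := intervalIntegral.integral_comp_mul_left f (a := 1 / 2) (b := 2) two_ne_zero
  have h3 : ∫ x in 2 * (1 / 2 : ℝ)..2 * 2, f x ≤ ∫ x in (-4 : ℝ)..4, f x :=
    intervalIntegral.integral_mono_interval (by norm_num) (by norm_num) (by norm_num)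
      (Eventually.of_forall fun _ => sq_nonneg _) (cf.intervalIntegrable _ _)
  have h4 : 0 ≤ ∫ x in 2 * (1 / 2 : ℝ)..2 * 2, f x :=
    intervalIntegral.integral_nonneg (by norm_num) fun _ _ => sq_nonneg _
  rw [smul_eq_mul] at h2
  change ∫ c in (1 / 2 : ℝ)..2, f (2 * c) ≤ _
  linarith

end L4

open L4 in
theorem l4_of (hK : Kern) (_hF : FirstDerStmt) (hS : SecDerStmt) : L4Stmt := fun A => by
  obtain ⟨C, hC, h1⟩ := sq_HH hK hS
  refine ⟨4 * Real.exp 30 * C * (1 + A ^ 4), by positivity,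
    fun N m β s L w ε U hN hm hβ hβ1 ⟨w1, w2, g1, g2, g3⟩ hε hL hU hW => ?_⟩
  have h : GD w w1 w2 A := ⟨g1, g2, g3⟩
  have c0 := h.c0
  set q : ℝ := N * m with hq
  have q0 : 0 < q := by positivity
  have cF : Continuous (FF w ε U q β) := by unfold FF XX; fun_prop
  have zF : ∀ y, y ∉ Set.Ioo (1 / 2 : ℝ) 2 → FF w ε U q β y = 0 := fun y hy => by
    simp [FF, (h.z y hy).1]
  set g : ℝ → ℂ := fun t => ∫ y, FF w ε U q β y * E (t * y) with hg
  have e1 : FM N β w ε U m = N * ∑ t ∈ U, ε t * g t := by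
    rw [FM, mul_sum]
    refine sum_congr rfl fun t _ => ?_
    simp only [hg, FF, sum_mul, Six.hm]
    rw [integral_finsetSum _ fun s _ => Continuous.integrable_of_hasCompactSupport
      (by unfold XX; fun_prop) (supp_compact fun y hy => by simp [(h.z y hy).1]), mul_sum, mul_sum]
    refine sum_congr rfl fun s _ => ?_
    have e : ∀ y, conj (ε s) * (w y * E (-(s * y) - q * XX β y)) * E (t * y) =
        conj (ε s) * (w y * E ((t - s) * y - N * ((m : ℤ) : ℝ) * XX β y)) := fun y => by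
      rw [mul_assoc, mul_assoc, ← E_add]; congr 3; rw [hq]; push_cast; ring
    simp only [e]
    rw [integral_const_mul]; ring
  choose η hη using fun t => RCLike.exists_norm_eq_mul_self (g t ^ 2)
  have cH := cont_HH (q := q) (β := β) h ε U
  set ρ : ℝ → ℂ := fun c => ∑ t ∈ U, η t * E (2 * c * t) with hρ
  have cρ : Continuous ρ := by fun_prop
  set S := ∑ t ∈ U, ‖g t‖ ^ 2 with hS'
  have e2 : (S : ℂ) = 2 * ∫ c in (1 / 2 : ℝ)..2,
      ρ c * (E (-(q / β ^ 2 * (Real.cosh (2 * β * c) - 1))) * HH w ε U q β c) := by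
    simp only [hρ, sum_mul]
    rw [intervalIntegral.integral_finsetSum fun t _ =>
      Continuous.intervalIntegrable (by fun_prop) _ _, mul_sum, hS']
    push_cast
    refine sum_congr rfl fun t _ => ?_
    have := (hη t).2
    rw [norm_pow] at this
    push_cast at this
    refine this.trans ?_
    simp only [hg]
    rw [sq_rep cF zF t]
    simp only [conv_FF h hβ.ne', mul_assoc (η t)]
    rw [intervalIntegral.integral_const_mul]; ring
  have S0 : 0 ≤ S := by positivity
  have b1 : S ≤ 2 * ∫ c in (1 / 2 : ℝ)..2, ‖ρ c‖ * ‖HH w ε U q β c‖ := by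
    calc S = ‖(S : ℂ)‖ := by rw [Complex.norm_real, Real.norm_of_nonneg S0]
      _ ≤ _ := by
        rw [e2, norm_mul, Complex.norm_ofNat]
        refine mul_le_mul_of_nonneg_left ((intervalIntegral.norm_integral_le_integral_norm
          (by norm_num)).trans (le_of_eq ?_)) zero_le_two
        simp only [norm_mul, norm_E, one_mul]
  have b2 := cs_interval cρ.norm cH.norm (show (1 / 2 : ℝ) ≤ 2 by norm_num)
  have b3 := rho_le hK hU (η := η) fun t => (hη t).1.le
  have b4 := h1 w w1 w2 ε A q β s L U h q0 hβ hβ1 hε hL hW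
  set Y := Real.sqrt (1 + β ^ 2 * L ^ 2 / q) * ((1 + Real.log L) * EE U 1) with hY
  have Y0 : 0 ≤ Y := by
    have := EE_nonneg U 1
    have := Real.log_nonneg hL
    positivity
  have b5 : S ^ 2 ≤ 4 * (Real.exp 30 * U.card * (C * (A ^ 4 / q * Y))) := by
    have := mul_le_mul b3 b4 (intervalIntegral.integral_nonneg (by norm_num) fun _ _ => sq_nonneg _)
      (by positivity)
    rw [mul_assoc (A ^ 4 / q)] at this
    nlinarith [pow_le_pow_left₀ S0 b1 2]
  have b6 : ‖∑ t ∈ U, ε t * g t‖ ^ 2 ≤ U.card * S :=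
    (pow_le_pow_left₀ (norm_nonneg _) ((norm_sum_le _ _).trans (sum_le_sum fun t _ => by
      rw [norm_mul]; exact mul_le_of_le_one_left (norm_nonneg _) (hε t))) 2).trans
      sq_sum_le_card_mul_sum_sq
  rw [e1, norm_mul, Complex.norm_natCast, mul_pow]
  calc _ = (N : ℝ) ^ 4 * (‖∑ t ∈ U, ε t * g t‖ ^ 2) ^ 2 := by ring
    _ ≤ (N : ℝ) ^ 4 * (U.card * S) ^ 2 := by gcongr
    _ = (N : ℝ) ^ 4 * U.card ^ 2 * S ^ 2 := by ring
    _ ≤ (N : ℝ) ^ 4 * U.card ^ 2 * (4 * (Real.exp 30 * U.card * (C * ((1 + A ^ 4) / q * Y)))) := by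
        refine mul_le_mul_of_nonneg_left (b5.trans ?_) (by positivity)
        gcongr; linarith
    _ = _ := by rw [hY]; ring

end Pool.Agent.MP_3d0d30_nt.Six
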