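import Pool.Agent.MP_3d0d30_nt.Six.Spec

/-! Project SIX: the new large values estimate from its three ingredients. -/

set_option autoImplicit false

namespace Pool.Agent.MP_3d0d30_nt.Six

open MeasureTheory Finset Filter

namespace LV

theorem sum_inv_sqrt (K : ℕ) : ∑ m ∈ Icc 1 K, 1 / Real.sqrt m ≤ 2 * Real.sqrt K := by
  induction K with
  | zero => simp
  | succ K ih =>
    rw [sum_Icc_succ_top (by omega)]
    have h0 : (0 : ℝ) ≤ K := K.cast_nonneg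
    have e1 := Real.mul_self_sqrt h0
    have e2 := Real.mul_self_sqrt (show (0 : ℝ) ≤ (K + 1 : ℕ) by positivity)
    have p1 := Real.sqrt_nonneg (K : ℝ)
    have p2 : 0 < Real.sqrt ((K + 1 : ℕ) : ℝ) := Real.sqrt_pos.2 (by positivity)
    set a := Real.sqrt (K : ℝ)
    set b := Real.sqrt ((K + 1 : ℕ) : ℝ)
    push_cast at e2
    have : 1 / b ≤ 2 * b - 2 * a := by
      rw [div_le_iff₀ p2]
      nlinarith [sq_nonneg (a - b)]
    linarith

theorem solve {S κ a b : ℝ} (hS : 0 < S) (hκ : 0 ≤ κ) (ha : 0 ≤ a) (hb : 0 ≤ b)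
    (h : S ^ 8 ≤ κ * (a ^ 4 * S ^ 4 + b * S ^ 7)) : S ≤ (1 + 2 * κ) * (a + b) := by
  rcases le_total (b * S ^ 7) (a ^ 4 * S ^ 4) with h1 | h1
  · have h2 : S ^ 4 * S ^ 4 ≤ (2 * κ * a ^ 4) * S ^ 4 := by nlinarith
    have h3 := le_of_mul_le_mul_right h2 (by positivity)
    have h4 : 2 * κ ≤ (1 + 2 * κ) ^ 4 :=
      le_trans (by linarith) (le_self_pow₀ (by linarith) (by norm_num))
    have h5 : S ^ 4 ≤ ((1 + 2 * κ) * a) ^ 4 := by
      rw [mul_pow]; exact h3.trans (by gcongr)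
    have h6 := (pow_le_pow_iff_left₀ hS.le (by positivity) (by norm_num)).1 h5
    nlinarith
  · have h2 : S * S ^ 7 ≤ (2 * κ * b) * S ^ 7 := by nlinarith
    have h3 := le_of_mul_le_mul_right h2 (by positivity)
    nlinarith

end LV

theorem lv_of (hE : EnergyStmt) (h4 : L4Stmt) (hB : B0Stmt) : LVStmt := by
  obtain ⟨CE, cE, hE⟩ := hE
  obtain ⟨A0, CB, cB, hB⟩ := hB
  obtain ⟨C4, c4, h4⟩ := h4 A0
  set κ : ℝ := (4 * CB) ^ 4 * (432 * C4 * CE) with hκ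
  have κ0 : 0 ≤ κ := by positivity
  clear_value κ
  refine ⟨1 + 2 * κ + 4 * CB, by positivity,
    fun N β s M V Φ a U hN hM hβ hβ' ha hV hL hΦ hΦ8 hU hW hD => ?_⟩
  have N1 : (1 : ℝ) ≤ N := by exact_mod_cast hN
  have V1 : 1 ≤ V := by linarith
  have V0 : 0 < V := by linarith
  have L1 : 1 ≤ N * M := by nlinarith
  have lg := Real.log_nonneg L1
  obtain ⟨w, ε, hw, hε, hS⟩ := hB N β s M a U hN hM hβ (by linarith) ha hU hW
  have hEE := hE N β a V s (N * M) U hN hβ (by linarith) ha V0 L1 hL hU hW hD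
  have E0 := EE_nonneg U 1
  have h4' := fun (m : ℕ) (m1 : 1 ≤ m) => h4 N m β s (N * M) w ε U hN m1 hβ hβ' hw hε L1 hU hW
  clear h4 hE hB
  generalize EE U 1 = e at hEE E0 h4'
  generalize Real.log (N * M) = l at lg h4' hΦ8
  set S := ∑ t ∈ U, ‖Dsum N β a t‖ with hSd
  set n : ℝ := (U.card : ℝ) with hn
  have n0 : 0 ≤ n := by positivity
  have hnS : n ≤ S / V := by
    rw [le_div_iff₀ V0]
    simpa [hn] using card_nsmul_le_sum U _ V hD
  have S0 : 0 ≤ S := sum_nonneg fun _ _ => norm_nonneg _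
  clear_value S n
  have t1 : 0 ≤ (N : ℝ) ^ 2 / V := by positivity
  have t2 : 0 ≤ Φ * N / V ^ 2 := by positivity
  have t3 : 0 ≤ Φ ^ 4 * M / (N * V ^ 7) := by positivity
  rcases le_or_gt S (4 * CB * (N ^ 2 / V)) with hc | hc
  · refine hc.trans ?_
    gcongr <;> linarith
  have Sp : 0 < S := lt_of_le_of_lt (by positivity) hc
  set K := ⌈2 * M⌉₊ with hK
  have hK3 : (K : ℝ) ≤ 3 * M := (Nat.ceil_lt_add_one (by linarith)).le.trans (by linarith)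
  set X := N * ∑ m ∈ Icc 1 K, ‖FM N β w ε U m‖ with hX
  have X0 : 0 ≤ X := mul_nonneg (by positivity) (sum_nonneg fun _ _ => norm_nonneg _)
  clear_value X
  have hSX : S ^ 2 ≤ 4 * CB * X := by
    have a1 : CB * (N ^ 2 * n) ≤ S ^ 2 / 4 := by
      calc _ ≤ CB * (N ^ 2 * (S / V)) := by gcongr
        _ = 4 * CB * (N ^ 2 / V) * S / 4 := by ring
        _ ≤ S * S / 4 := by gcongr
        _ = _ := by ring
    have a2 : CB * n ^ 2 ≤ S ^ 2 / 4 := by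
      have b1 : 4 * CB ≤ V ^ 2 := by nlinarith
      calc _ ≤ CB * (S / V) ^ 2 := by gcongr
        _ = 4 * CB * (S ^ 2 / 4) / V ^ 2 := by ring
        _ ≤ V ^ 2 * (S ^ 2 / 4) / V ^ 2 := by gcongr
        _ = _ := by field_simp
    nlinarith
  set Q : ℝ := C4 ^ 2 * N ^ 6 * n ^ 6 * (1 + l) ^ 2 * e ^ 2 *
    (1 + β ^ 2 * N * M) * (3 * M) ^ 2 with hQ
  have Q0 : 0 ≤ Q := by positivity
  clear_value Q
  set Ψ := Q ^ ((8 : ℕ) : ℝ)⁻¹ with hΨ
  have Ψ0 : 0 ≤ Ψ := Real.rpow_nonneg Q0 _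
  have Ψ8 : Ψ ^ 8 = Q := Real.rpow_inv_natCast_pow Q0 (by norm_num)
  clear_value Ψ
  have hm : ∀ m ∈ Icc 1 K, ‖FM N β w ε U m‖ ≤ Ψ * (1 / Real.sqrt m) := by
    intro m hm
    obtain ⟨m1, m2⟩ := mem_Icc.1 hm
    have m1' : (1 : ℝ) ≤ m := by exact_mod_cast m1
    have m2' : (m : ℝ) ≤ 3 * M := le_trans (by exact_mod_cast m2) hK3
    have h := h4' m m1
    have h' := pow_le_pow_left₀ (by positivity) h 2
    have e1 : Real.sqrt (m : ℝ) ^ 8 = m ^ 4 := by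
      rw [show 8 = 2 * 4 from rfl, pow_mul, Real.sq_sqrt (by linarith)]
    have e2 : 1 + β ^ 2 * (N * M) ^ 2 / (N * m) ≤ (1 + β ^ 2 * N * M) * (3 * M / m) := by
      have f1 : 1 ≤ 3 * M / m := by rwa [one_le_div (by linarith)]
      have f2 : β ^ 2 * (N * M) ^ 2 / (N * m) = β ^ 2 * N * M * (M / m) := by field_simp
      have f3 : M / m ≤ 3 * M / m := by gcongr; linarith
      rw [f2, add_mul, one_mul]
      gcongr
    have f1 : 1 ≤ 3 * M / m := by rwa [one_le_div (by linarith)]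
    refine (pow_le_pow_iff_left₀ (norm_nonneg _) (by positivity) (n := 8) (by norm_num)).1 ?_
    rw [mul_pow, Ψ8, div_pow, e1, one_pow]
    calc _ = (‖FM N β w ε U m‖ ^ 4) ^ 2 := by ring
      _ ≤ _ := h'
      _ = C4 ^ 2 * (N ^ 4 * n ^ 3 / (N * m)) ^ 2 * (1 + l) ^ 2 * e ^ 2 *
          Real.sqrt (1 + β ^ 2 * (N * M) ^ 2 / (N * m)) ^ 2 * 1 := by ring
      _ ≤ C4 ^ 2 * (N ^ 4 * n ^ 3 / (N * m)) ^ 2 * (1 + l) ^ 2 * e ^ 2 *
          ((1 + β ^ 2 * N * M) * (3 * M / m)) * (3 * M / m) := by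
          rw [Real.sq_sqrt (by positivity)]
          gcongr
      _ = _ := by rw [hQ]; field_simp
  have hX1 : X ≤ N * (Ψ * (2 * Real.sqrt (3 * M))) := by
    rw [hX]
    gcongr
    refine (sum_le_sum hm).trans ?_
    rw [← mul_sum]
    gcongr
    exact (LV.sum_inv_sqrt K).trans (by gcongr)
  have hX4 : X ^ 4 ≤ 432 * C4 * (Φ ^ 4 * n ^ 3 * e) := by
    refine (pow_le_pow_iff_left₀ (by positivity) (by positivity) (n := 2) (by norm_num)).1 ?_
    have e1 : Real.sqrt (3 * M) ^ 8 = (3 * M) ^ 4 := by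
      rw [show 8 = 2 * 4 from rfl, pow_mul, Real.sq_sqrt (by linarith)]
    calc _ = X ^ 8 := by ring
      _ ≤ (N * (Ψ * (2 * Real.sqrt (3 * M)))) ^ 8 := by gcongr
      _ = N ^ 8 * Ψ ^ 8 * 2 ^ 8 * Real.sqrt (3 * M) ^ 8 := by ring
      _ = (432 * C4) ^ 2 * (n ^ 6 * e ^ 2) *
          ((1 + l) ^ 2 * M ^ 6 * (1 + β ^ 2 * N * M) * N ^ 14) := by
          rw [Ψ8, e1, hQ]; ring
      _ ≤ (432 * C4) ^ 2 * (n ^ 6 * e ^ 2) * Φ ^ 8 := by gcongr
      _ = _ := by ring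
  have key : S ^ 8 ≤ κ * ((Φ * N / V ^ 2) ^ 4 * S ^ 4 + Φ ^ 4 * M / (N * V ^ 7) * S ^ 7) := by
    calc _ = (S ^ 2) ^ 4 := by ring
      _ ≤ (4 * CB * X) ^ 4 := by gcongr
      _ = (4 * CB) ^ 4 * X ^ 4 := by ring
      _ ≤ (4 * CB) ^ 4 * (432 * C4 * (Φ ^ 4 * (S / V) ^ 3 *
          (CE * (N ^ 4 / V ^ 4 * (S / V) + N * M * (S / V) ^ 4 / N ^ 2)))) := by
          gcongr (4 * CB) ^ 4 * ?_
          refine hX4.trans ?_
          gcongr
          exact hEE.trans (by gcongr)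
      _ = _ := by rw [hκ]; field_simp
  exact (LV.solve Sp κ0 t2 t3 key).trans
    (mul_le_mul (by linarith) (by linarith) (by linarith) (by linarith))

end Pool.Agent.MP_3d0d30_nt.Six
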