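import Mathlib.Analysis.Complex.ExponentialBounds
import Mathlib.Combinatorics.SimpleGraph.Basic
import Mathlib.NumberTheory.Harmonic.Bounds
import Mathlib.Topology.UniformSpace.Uniformizable
import Pool.Agent.MP_3d0d30_nt.Six.Spec
import Pool.Agent.Lib.helper44.VdC

-- ======== part 0: formerly Pool.Agent.MP_3d0d30_nt.Six.HB
section MrgPart0

/-! Project SIX, module HB: the kernel bound and the Halasz inequality. -/

set_option autoImplicit false

namespace Pool.Agent.MP_3d0d30_nt.Six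

open Finset Pool.Agent.Lib.helper44
open scoped ComplexConjugate

namespace HB

theorem mvt1 {F F1 : ℝ → ℝ} (h : ∀ x, 0 < x → HasDerivAt F (F1 x) x) {a : ℝ} (ha : 0 < a) :
    ∃ ξ, a ≤ ξ ∧ ξ ≤ a + 1 ∧ F (a + 1) - F a = F1 ξ := by
  obtain ⟨c, hc, e⟩ := exists_hasDerivAt_eq_slope F F1 (show a < a + 1 by linarith)
    (fun x hx => (h x (by linarith [hx.1])).continuousAt.continuousWithinAt)
    (fun x hx => h x (by linarith [hx.1]))
  exact ⟨c, hc.1.le, hc.2.le, by rw [e, add_sub_cancel_left, div_one]⟩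

theorem mvt2 {F F1 F2 : ℝ → ℝ} (h : ∀ x, 0 < x → HasDerivAt F (F1 x) x)
    (h' : ∀ x, 0 < x → HasDerivAt F1 (F2 x) x) {a : ℝ} (ha : 0 < a) :
    ∃ ξ, a ≤ ξ ∧ ξ ≤ a + 2 ∧ F (a + 1 + 1) - F (a + 1) - (F (a + 1) - F a) = F2 ξ := by
  obtain ⟨c, c1, c2, e⟩ := mvt1 (F := fun x => F (x + 1) - F x) (F1 := fun x => F1 (x + 1) - F1 x)
    (fun x hx => (HasDerivAt.comp_add_const x 1 (h _ (by linarith))).fun_sub (h x hx)) ha
  obtain ⟨d, d1, d2, e'⟩ := mvt1 h' (show 0 < c by linarith)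
  exact ⟨d, by linarith, by linarith, e.trans e'⟩

/-- the first derivative of `gg β` -/
noncomputable def g1 (β x : ℝ) : ℝ := 1 / (2 * √(x + β ^ 2 * x ^ 2))

/-- the second derivative of `gg β` -/
noncomputable def g2 (β x : ℝ) : ℝ :=
  -((1 + 2 * β ^ 2 * x) / (4 * (x + β ^ 2 * x ^ 2) * √(x + β ^ 2 * x ^ 2)))

theorem hasDerivAt_gg {β x : ℝ} (hβ : 0 < β) (hx : 0 < x) : HasDerivAt (gg β) (g1 β x) x := by
  refine ((((Real.hasDerivAt_sqrt hx.ne').const_mul β).arsinh).div_const β).congr_deriv ?_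
  have h1 : 0 < √x := Real.sqrt_pos.2 hx
  have h2 : 0 < √(1 + β ^ 2 * x) := Real.sqrt_pos.2 (by positivity)
  rw [g1, show x + β ^ 2 * x ^ 2 = x * (1 + β ^ 2 * x) by ring, Real.sqrt_mul hx.le, mul_pow,
    Real.sq_sqrt hx.le, smul_eq_mul]
  field_simp

theorem hasDerivAt_g1 {β x : ℝ} (hx : 0 < x) : HasDerivAt (g1 β) (g2 β x) x := by
  have h0 : 0 < x + β ^ 2 * x ^ 2 := by positivity
  have h1 : 0 < √(x + β ^ 2 * x ^ 2) := Real.sqrt_pos.2 h0
  have h2 : HasDerivAt (fun x => x + β ^ 2 * x ^ 2) (1 + 2 * β ^ 2 * x) x :=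
    ((hasDerivAt_id' x).fun_add ((hasDerivAt_pow 2 x).const_mul _)).congr_deriv (by
      push_cast; ring)
  refine ((hasDerivAt_const x 1).fun_div ((h2.sqrt h0.ne').const_mul 2)
    (by positivity)).congr_deriv ?_
  rw [g2, mul_pow, Real.sq_sqrt h0.le]
  field_simp
  ring

theorem g_bounds {β x : ℝ} (hβ : 0 < β) (hβ1 : β ≤ 1) (h1 : 1 ≤ x) (h4 : x ≤ 4) :
    1 / 9 ≤ g1 β x ∧ g1 β x ≤ 1 / 2 ∧ 1 / 400 ≤ -g2 β x ∧ -g2 β x ≤ 9 / 4 := by
  have b0 : 0 ≤ β ^ 2 := by positivity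
  have b1 : β ^ 2 ≤ 1 := by nlinarith
  have p1 : 1 ≤ x + β ^ 2 * x ^ 2 := by nlinarith
  have p2 : x + β ^ 2 * x ^ 2 ≤ 20 := by nlinarith
  have q1 : 1 ≤ √(x + β ^ 2 * x ^ 2) := Real.one_le_sqrt.2 p1
  have q2 : √(x + β ^ 2 * x ^ 2) ≤ 9 / 2 := Real.sqrt_le_iff.2 ⟨by norm_num, by linarith⟩
  have r1 : 0 ≤ β ^ 2 * x := by positivity
  have r2 : β ^ 2 * x ≤ 4 := by nlinarith
  rw [g1, g2, neg_neg]
  generalize √(x + β ^ 2 * x ^ 2) = r at *
  generalize x + β ^ 2 * x ^ 2 = p at *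
  refine ⟨one_div_le_one_div_of_le (by linarith) (by linarith),
    one_div_le_one_div_of_le (by norm_num) (by linarith), ?_, ?_⟩
  · rw [le_div_iff₀ (by positivity)]
    nlinarith
  · rw [div_le_iff₀ (by positivity)]
    nlinarith

theorem core : ∃ C : ℝ, 0 < C ∧ ∀ (N : ℕ) (β τ : ℝ), 1 ≤ N → 0 < β → β ≤ 1 → 0 ≤ τ →
    ‖∑ n ∈ range N, ee (-(2 * Real.pi * τ * gg β (((N : ℝ) + 1 + n) / N)))‖ ≤
      C * (N / (1 + τ) + √(1 + τ)) := by
  obtain ⟨C, hC, hT⟩ := test_two (h := 1600) (by norm_num)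
  refine ⟨18 * C, by linarith, fun N β τ hN hβ hβ1 hτ => ?_⟩
  have hN1 : (1 : ℝ) ≤ N := by exact_mod_cast hN
  have hN0 : (0 : ℝ) < N := by linarith
  have p1 := Real.pi_gt_three
  have p2 := Real.pi_lt_d2
  have s1 : 1 ≤ √(1 + τ) := Real.one_le_sqrt.2 (by linarith)
  have s2 : 0 ≤ (N : ℝ) / (1 + τ) := by positivity
  rcases le_total τ 1 with h1 | h1
  · refine (norm_sum_ee_le _ _).trans ?_
    have : (N : ℝ) ≤ 2 * (N / (1 + τ)) := by
      rw [mul_div_assoc', le_div_iff₀ (by linarith)]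
      nlinarith
    nlinarith
  set F : ℝ → ℝ := fun x => -(2 * Real.pi * τ * gg β (x / N)) with hF
  have d1 : ∀ x, 0 < x → HasDerivAt F (-(2 * Real.pi * τ * (g1 β (x / N) / N))) x := fun x hx =>
    ((((hasDerivAt_gg hβ (div_pos hx hN0)).comp x
      ((hasDerivAt_id' x).div_const _)).const_mul _).fun_neg).congr_deriv (by ring)
  have d2 : ∀ x, 0 < x → HasDerivAt (fun x => -(2 * Real.pi * τ * (g1 β (x / N) / N)))
      (2 * Real.pi * (τ / N ^ 2) * -g2 β (x / N)) x := fun x hx =>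
    (((((hasDerivAt_g1 (β := β) (div_pos hx hN0)).comp x
      ((hasDerivAt_id' x).div_const _)).div_const _).const_mul _).fun_neg).congr_deriv (by ring)
  have hb : ∀ n < N, ∀ ξ : ℝ, (N : ℝ) + 1 + n ≤ ξ → ξ ≤ N + 1 + n + 2 →
      1 / 9 ≤ g1 β (ξ / N) ∧ g1 β (ξ / N) ≤ 1 / 2 ∧ 1 / 400 ≤ -g2 β (ξ / N) ∧
        -g2 β (ξ / N) ≤ 9 / 4 := fun n hn ξ a1 a2 => by
    have a3 : (n : ℝ) + 1 ≤ N := by exact_mod_cast hn
    have a4 : (0 : ℝ) ≤ n := n.cast_nonneg
    exact g_bounds hβ hβ1 (by rw [one_le_div hN0]; linarith) (by rw [div_le_iff₀ hN0]; linarith)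
  have e2 : ∀ n < N, τ / N ^ 2 / 100 ≤ F (N + 1 + (n + 1 + 1 : ℕ)) - F (N + 1 + (n + 1 : ℕ)) -
      (F (N + 1 + (n + 1 : ℕ)) - F (N + 1 + n)) ∧ F (N + 1 + (n + 1 + 1 : ℕ)) -
      F (N + 1 + (n + 1 : ℕ)) - (F (N + 1 + (n + 1 : ℕ)) - F (N + 1 + n)) ≤
        1600 * (τ / N ^ 2 / 100) := fun n hn => by
    obtain ⟨ξ, a1, a2, e⟩ := mvt2 d1 d2 (a := N + 1 + n) (by positivity)
    obtain ⟨-, -, b1, b2⟩ := hb n hn ξ a1 a2
    push_cast
    simp only [← add_assoc]
    rw [e]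
    have b3 : 0 ≤ τ / N ^ 2 := by positivity
    have b4 : 1 / 100 ≤ 2 * Real.pi * -g2 β (ξ / N) := by nlinarith
    have b5 : 2 * Real.pi * -g2 β (ξ / N) ≤ 16 := by nlinarith
    constructor <;> nlinarith
  change ‖∑ n ∈ range N, ee (F (N + 1 + n))‖ ≤ _
  rcases le_total τ N with h2 | h2
  · have a0 : 0 < τ / N := by positivity
    have a1 : τ / N ≤ 1 := (div_le_one hN0).2 h2
    refine (kusmin_landau' (f := fun n => F (N + 1 + n)) (θ := 2 * Real.pi * (τ / N) / 9)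
      (by positivity) (-1) (fun n hn => ?_) fun n hn => ?_).trans ?_
    · obtain ⟨ξ, b1, b2, e⟩ := mvt1 d1 (a := N + 1 + n) (by positivity)
      obtain ⟨b3, b4, -⟩ := hb n hn ξ b1 (by linarith)
      push_cast
      rw [← add_assoc, e, show 2 * Real.pi * τ * (g1 β (ξ / N) / N) =
        2 * Real.pi * (τ / N) * g1 β (ξ / N) by ring]
      have b5 : 0 < 2 * Real.pi * (τ / N) := by positivity
      have b6 : 2 * Real.pi * (τ / N) ≤ 2 * Real.pi := mul_le_of_le_one_right (by linarith) a1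
      constructor <;> nlinarith
    · have := (e2 n (by omega)).1
      have b3 : 0 ≤ τ / N ^ 2 / 100 := by positivity
      linarith
    · have b1 : 2 * Real.pi / (2 * Real.pi * (τ / N) / 9) = 9 * (N / τ) := by field_simp
      have b2 : (N : ℝ) / τ ≤ 2 * (N / (1 + τ)) := by
        rw [mul_div_assoc', div_le_div_iff₀ (by linarith) (by linarith)]
        nlinarith
      rw [b1]
      nlinarith
  · refine (hT (fun n => F (N + 1 + n)) N (τ / N ^ 2 / 100) (by positivity) fun n hn => by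
      simpa only [Function.iterate_succ, Function.iterate_zero, Function.comp, id, fwdDiff]
        using e2 n hn).trans ?_
    have r0 : 0 < √τ := Real.sqrt_pos.2 (by linarith)
    have r1 : √τ * √τ = τ := Real.mul_self_sqrt hτ
    have r2 : √τ ≤ √(1 + τ) := Real.sqrt_le_sqrt (by linarith)
    have r3 : (τ / N ^ 2 / 100) ^ (1 / 2 : ℝ) = √τ / (10 * N) := by
      rw [← Real.sqrt_eq_rpow, Real.sqrt_eq_iff_mul_self_eq (by positivity) (by positivity),
        div_mul_div_comm, r1]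
      field_simp
      norm_num
    have r4 : 10 * N / √τ ≤ 10 * √τ := by
      rw [div_le_iff₀ r0]
      nlinarith
    rw [Real.rpow_neg (by positivity), r3, Real.rpow_zero, one_mul, inv_div,
      show N * (√τ / (10 * N)) = √τ / 10 by field_simp]
    nlinarith

theorem Dsum_one (N : ℕ) (β τ : ℝ) : Dsum N β (fun _ => 1) τ =
    ∑ n ∈ range N, ee (2 * Real.pi * τ * gg β (((N : ℝ) + 1 + n) / N)) := by
  rw [Dsum, ← Ico_add_one_add_one_eq_Ioc, sum_Ico_eq_sum_range,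
    show 2 * N + 1 - (N + 1) = N by omega]
  refine sum_congr rfl fun n _ => ?_
  rw [one_mul, E, ee]
  push_cast
  congr 1
  ring

theorem half {U : Finset ℝ} {φ : ℝ → ℝ} {T : ℝ} (hT : 0 ≤ T)
    (hs : ∀ s ∈ U, ∀ t ∈ U, s ≠ t → 1 ≤ |φ s - φ t|) (h : ∀ t ∈ U, 0 ≤ φ t ∧ φ t ≤ T) :
    ∑ t ∈ U, 1 / (1 + φ t) ≤ 1 + Real.log (T + 1) := by
  have hi : Set.InjOn (fun t => ⌊φ t⌋₊) U := fun s h1 t h2 e => by
    by_contra hne
    have a1 := hs s h1 t h2 hne
    have a2 := Nat.floor_le (h s h1).1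
    have a3 := Nat.floor_le (h t h2).1
    have a4 := Nat.lt_floor_add_one (φ s)
    have a5 := Nat.lt_floor_add_one (φ t)
    simp only at e
    rw [e] at a2 a4
    exact (abs_lt.2 ⟨by linarith, by linarith⟩).not_ge a1
  calc _ ≤ ∑ t ∈ U, 1 / (1 + (⌊φ t⌋₊ : ℝ)) := sum_le_sum fun t ht => by
        gcongr
        exact Nat.floor_le (h t ht).1
    _ = ∑ j ∈ U.image fun t => ⌊φ t⌋₊, 1 / (1 + (j : ℝ)) :=
        (sum_image (f := fun j : ℕ => 1 / (1 + (j : ℝ))) hi).symm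
    _ ≤ ∑ j ∈ range (⌊T⌋₊ + 1), 1 / (1 + (j : ℝ)) := by
        refine sum_le_sum_of_subset_of_nonneg (fun j hj => ?_) fun _ _ _ => by positivity
        obtain ⟨t, ht, rfl⟩ := mem_image.1 hj
        exact mem_range.2 (Nat.lt_succ_of_le (Nat.floor_le_floor (h t ht).2))
    _ = (harmonic (⌊T⌋₊ + 1) : ℝ) := by
        simp [harmonic, add_comm]
    _ ≤ _ := by
        refine (harmonic_le_one_add_log _).trans ?_
        push_cast
        gcongr
        exact Nat.floor_le hT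

theorem sep_sum {U : Finset ℝ} {T t : ℝ} (hT : 0 ≤ T) (hs : Sep 1 U) (h : ∀ s ∈ U, |t - s| ≤ T) :
    ∑ s ∈ U, 1 / (1 + |t - s|) ≤ 2 * (1 + Real.log (T + 1)) := by
  rw [← sum_filter_add_sum_filter_not U (· ≤ t), two_mul]
  refine add_le_add (half hT (fun a ha b hb hab => ?_) fun s hs' => ⟨abs_nonneg _, ?_⟩)
    (half hT (fun a ha b hb hab => ?_) fun s hs' => ⟨abs_nonneg _, ?_⟩)
  · rw [mem_filter] at ha hb
    rw [abs_of_nonneg (sub_nonneg.2 ha.2), abs_of_nonneg (sub_nonneg.2 hb.2),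
      show t - a - (t - b) = b - a by ring]
    exact hs b hb.1 a ha.1 hab.symm
  · exact h s (mem_filter.1 hs').1
  · rw [mem_filter, not_le] at ha hb
    rw [abs_of_neg (sub_neg.2 ha.2), abs_of_neg (sub_neg.2 hb.2),
      show -(t - a) - -(t - b) = a - b by ring]
    exact hs a ha.1 b hb.1 hab
  · exact h s (mem_filter.1 hs').1

theorem dual (N : ℕ) (β : ℝ) {a : ℕ → ℂ} (ha : ∀ k, ‖a k‖ ≤ 1) (U : Finset ℝ) :
    (∑ t ∈ U, ‖Dsum N β a t‖) ^ 2 ≤ N * ∑ t ∈ U, ∑ s ∈ U, ‖Dsum N β (fun _ => 1) (t - s)‖ := by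
  choose ε h1 h2 using fun t => Complex.exists_norm_eq_mul_self (Dsum N β a t)
  set ρ : ℕ → ℂ := fun k => ∑ t ∈ U, ε t * E (t * gg β (k / N)) with hρ
  have a1 : ∑ t ∈ U, ‖Dsum N β a t‖ ≤ ∑ k ∈ Ioc N (2 * N), ‖ρ k‖ := by
    have e : ((∑ t ∈ U, ‖Dsum N β a t‖ : ℝ) : ℂ) = ∑ k ∈ Ioc N (2 * N), a k * ρ k := by
      push_cast
      simp only [h2, hρ]
      simp only [Dsum, mul_sum]
      rw [sum_comm]
      exact sum_congr rfl fun _ _ => sum_congr rfl fun _ _ => by ring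
    refine (Real.le_norm_self _).trans ?_
    rw [← Complex.norm_real, e]
    refine (norm_sum_le _ _).trans (sum_le_sum fun k _ => ?_)
    rw [norm_mul]
    exact mul_le_of_le_one_left (norm_nonneg _) (ha k)
  have a2 : ∑ k ∈ Ioc N (2 * N), ‖ρ k‖ ^ 2 ≤
      ∑ t ∈ U, ∑ s ∈ U, ‖Dsum N β (fun _ => 1) (t - s)‖ := by
    have e : ((∑ k ∈ Ioc N (2 * N), ‖ρ k‖ ^ 2 : ℝ) : ℂ) =
        ∑ t ∈ U, ∑ s ∈ U, ε t * conj (ε s) * Dsum N β (fun _ => 1) (t - s) := by
      push_cast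
      simp only [← Complex.mul_conj', hρ, map_sum, sum_mul_sum]
      simp only [Dsum, mul_sum]
      rw [sum_comm]
      refine sum_congr rfl fun _ _ => ?_
      rw [sum_comm]
      refine sum_congr rfl fun _ _ => sum_congr rfl fun _ _ => ?_
      rw [sub_mul, E_sub, map_mul]
      ring
    refine (Real.le_norm_self _).trans ?_
    rw [← Complex.norm_real, e]
    refine (norm_sum_le _ _).trans (sum_le_sum fun t _ => (norm_sum_le _ _).trans
      (sum_le_sum fun s _ => ?_))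
    simp [h1]
  refine (pow_le_pow_left₀ (sum_nonneg fun _ _ => norm_nonneg _) a1 2).trans
    (sq_sum_le_card_mul_sum_sq.trans ?_)
  rw [Nat.card_Ioc, show 2 * N - N = N by omega]
  gcongr

theorem window {C T V β : ℝ} {N : ℕ} {a : ℕ → ℂ} {U : Finset ℝ} (hC : 0 < C) (hT : 0 ≤ T)
    (hV : 0 ≤ V) (h : ∀ τ, ‖Dsum N β (fun _ => 1) τ‖ ≤ C * (N / (1 + |τ|) + √(1 + |τ|)))
    (ha : ∀ k, ‖a k‖ ≤ 1) (hs : Sep 1 U) (hU : ∀ t ∈ U, ∀ s ∈ U, |t - s| ≤ T)
    (hl : ∀ t ∈ U, V ≤ ‖Dsum N β a t‖) (hTV : N * C * √(1 + T) ≤ V ^ 2 / 2) :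
    (∑ t ∈ U, ‖Dsum N β a t‖) ^ 2 ≤ 4 * C * N ^ 2 * (1 + Real.log (T + 1)) * U.card := by
  have a1 := dual N β ha U
  have a2 : ∑ t ∈ U, ∑ s ∈ U, ‖Dsum N β (fun _ => 1) (t - s)‖ ≤
      U.card * (C * (N * (2 * (1 + Real.log (T + 1))) + U.card * √(1 + T))) := by
    rw [← nsmul_eq_mul]
    refine sum_le_card_nsmul _ _ _ fun t ht => (sum_le_sum fun s _ => h _).trans ?_
    rw [← mul_sum, sum_add_distrib]
    gcongr
    · simp only [div_eq_mul_one_div (N : ℝ)]
      rw [← mul_sum]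
      gcongr
      exact sep_sum hT hs (hU t ht)
    · rw [← nsmul_eq_mul]
      refine sum_le_card_nsmul _ _ _ fun s hs' => ?_
      gcongr
      exact hU t ht s hs'
  have a3 : U.card * V ≤ ∑ t ∈ U, ‖Dsum N β a t‖ := by
    rw [← nsmul_eq_mul]
    exact card_nsmul_le_sum _ _ _ hl
  have a4 := pow_le_pow_left₀ (by positivity) a3 2
  have a5 := mul_le_mul_of_nonneg_left hTV (sq_nonneg (U.card : ℝ))
  have a6 := mul_le_mul_of_nonneg_left a2 (Nat.cast_nonneg (α := ℝ) N)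
  nlinarith

end HB

open HB

theorem hbound : HBoundStmt := by
  obtain ⟨C, hC, h⟩ := core
  refine ⟨C, hC, fun N β τ hN hβ hβ1 => le_of_eq_of_le ?_ (h N β |τ| hN hβ hβ1 (abs_nonneg _))⟩
  rw [Dsum_one]
  rcases le_total 0 τ with h0 | h0
  · rw [abs_of_nonneg h0, norm_sum_ee_neg]
  · rw [abs_of_nonpos h0]
    simp

theorem halasz_of (h : HBoundStmt) : HalaszStmt := by
  obtain ⟨C, hC, h⟩ := h
  refine ⟨12 * (C + 1) ^ 2, by positivity, fun N β a V s L U hN hβ hβ1 ha hL hV hs hw hl => ?_⟩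
  have hN1 : (1 : ℝ) ≤ N := by exact_mod_cast hN
  have hlog : 0 ≤ Real.log N := Real.log_nonneg hN1
  rcases U.eq_empty_or_nonempty with rfl | ⟨t0, ht0⟩
  · simp
  have hVN : V ≤ N := by
    refine (hl t0 ht0).trans ((norm_sum_le _ _).trans
      ((sum_le_card_nsmul _ _ 1 fun k _ => ?_).trans ?_))
    · simpa using ha k
    · simp [show 2 * N - N = N by omega]
  have r1 : 1 ≤ √(N : ℝ) := Real.one_le_sqrt.2 hN1
  have c1 : C + 1 ≤ (C + 1) ^ 2 := by nlinarith
  have hV0 : 0 < V := lt_of_lt_of_le (by positivity) hV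
  have hV2 : 4 * (C + 1) * N ≤ V ^ 2 := by
    have := pow_le_pow_left₀ (by positivity) hV 2
    rw [mul_pow, Real.sq_sqrt (by positivity)] at this
    refine le_trans ?_ this
    gcongr
    nlinarith
  set r := V ^ 2 / (4 * (C + 1) * N) with hr
  have r2 : 1 ≤ r := (one_le_div (by positivity)).2 hV2
  have r3 : r ≤ N := by
    rw [hr, div_le_iff₀ (by positivity)]
    nlinarith [pow_le_pow_left₀ hV0.le hVN 2, mul_pos hC (show (0 : ℝ) < N ^ 2 by positivity)]
  set T := r ^ 2 with hT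
  have T1 : 1 ≤ T := one_le_pow₀ r2
  have T2 : N * C * √(1 + T) ≤ V ^ 2 / 2 := by
    have b1 : √(1 + T) ≤ 2 * r := Real.sqrt_le_iff.2 ⟨by linarith, by nlinarith⟩
    calc _ ≤ N * (C + 1) * (2 * r) := by gcongr; linarith
      _ = _ := by rw [hr]; field_simp; ring
  have T3 : 1 + Real.log (T + 1) ≤ 2 * (1 + Real.log N) ^ 2 := by
    have b1 : Real.log (T + 1) ≤ Real.log (2 * N ^ 2) :=
      Real.log_le_log (by linarith) (by nlinarith)
    rw [Real.log_mul two_ne_zero (by positivity), Real.log_pow] at b1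
    have b2 := Real.log_two_lt_d9
    push_cast at b1
    nlinarith
  set J := ⌊L / T⌋₊ + 1 with hJ
  have hm : ∀ t ∈ U, ⌊(t - s) / T⌋₊ ∈ range J := fun t ht =>
    mem_range.2 (Nat.lt_succ_of_le (Nat.floor_le_floor (by gcongr; linarith [(hw t ht).2])))
  have key : (∑ t ∈ U, ‖Dsum N β a t‖) ^ 2 ≤
      J * (4 * C * N ^ 2 * (1 + Real.log (T + 1)) * U.card) := by
    rw [← sum_fiberwise_of_maps_to hm, card_eq_sum_card_fiberwise hm]
    refine sq_sum_le_card_mul_sum_sq.trans ?_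
    rw [card_range, Nat.cast_sum]
    refine mul_le_mul_of_nonneg_left ?_ J.cast_nonneg
    rw [mul_sum]
    refine sum_le_sum fun j _ => ?_
    refine window hC (by linarith) hV0.le (fun τ => h N β τ hN hβ hβ1) ha
      (hs.mono (filter_subset _ _)) (fun t ht u hu => ?_)
      (fun t ht => hl t (mem_filter.1 ht).1) T2
    rw [mem_filter] at ht hu
    have T0 : 0 < T := by linarith
    have b1 := (Nat.floor_eq_iff (div_nonneg (sub_nonneg.2 (hw t ht.1).1) T0.le)).1 ht.2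
    have b2 := (Nat.floor_eq_iff (div_nonneg (sub_nonneg.2 (hw u hu.1).1) T0.le)).1 hu.2
    rw [le_div_iff₀ T0, div_lt_iff₀ T0] at b1 b2
    exact abs_le.2 ⟨by linarith [b1.1, b2.2], by linarith [b1.2, b2.1]⟩
  have J1 : (J : ℝ) ≤ 16 * (C + 1) ^ 2 * (L * N ^ 2 / V ^ 4 + 1) := by
    have b1 : L / T = 16 * (C + 1) ^ 2 * (L * N ^ 2 / V ^ 4) := by
      rw [hT, hr]
      field_simp
      ring
    have b2 := Nat.floor_le (show 0 ≤ L / T by positivity)
    rw [hJ]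
    push_cast
    nlinarith
  have T4 : 0 ≤ Real.log (T + 1) := Real.log_nonneg (by linarith)
  refine le_of_pow_le_pow_left₀ two_ne_zero (by positivity) (key.trans ?_)
  rw [mul_pow, mul_pow _ (√_), Real.sq_sqrt (by positivity)]
  calc _ ≤ 16 * (C + 1) ^ 2 * (L * N ^ 2 / V ^ 4 + 1) *
        (4 * (C + 1) ^ 2 * N ^ 2 * (2 * (1 + Real.log N) ^ 2) * U.card) := by
        gcongr
        linarith
    _ = 128 * ((C + 1) ^ 4 * ((N * (1 + Real.log N)) ^ 2 *
        ((L * N ^ 2 / V ^ 4 + 1) * U.card))) := by ring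
    _ ≤ 144 * ((C + 1) ^ 4 * ((N * (1 + Real.log N)) ^ 2 *
        ((L * N ^ 2 / V ^ 4 + 1) * U.card))) := by gcongr; norm_num
    _ = _ := by ring

end Pool.Agent.MP_3d0d30_nt.Six

end MrgPart0

-- ======== part 1: formerly Pool.Agent.MP_3d0d30_nt.Six.AtkA
section MrgPart1

/-! Project SIX, module Atk, part A: derivatives of `lam`, the two phase bounds. -/

set_option autoImplicit false

namespace Pool.Agent.MP_3d0d30_nt.Six

open MeasureTheory Finset Filter

namespace Atk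

/-- first derivative of `lam` -/
noncomputable def l1 (y : ℝ) : ℝ := ((y + 1)⁻¹ - y⁻¹) / (2 * Real.pi)

/-- second derivative of `lam` -/
noncomputable def l2 (y : ℝ) : ℝ := ((y ^ 2)⁻¹ - ((y + 1) ^ 2)⁻¹) / (2 * Real.pi)

/-- third derivative of `lam` -/
noncomputable def l3 (y : ℝ) : ℝ := (2 * ((y + 1) ^ 3)⁻¹ - 2 * (y ^ 3)⁻¹) / (2 * Real.pi)

theorem der_lam {y : ℝ} (hy : 0 < y) : HasDerivAt lam (l1 y) y := by
  have h1 : HasDerivAt (fun y : ℝ => 1 + 1 / y) (-(y ^ 2)⁻¹) y := by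
    simpa [one_div] using (hasDerivAt_inv hy.ne').const_add 1
  have h2 := (h1.log (by positivity)).div_const (2 * Real.pi)
  have e : l1 y = -(y ^ 2)⁻¹ / (1 + 1 / y) / (2 * Real.pi) := by
    unfold l1
    congr 1
    field_simp
    ring
  rw [e]
  exact h2

theorem der_l1 {y : ℝ} (hy : 0 < y) : HasDerivAt l1 (l2 y) y := by
  have h1 : HasDerivAt (fun y : ℝ => (y + 1)⁻¹) (-1 / (y + 1) ^ 2) y :=
    ((hasDerivAt_id y).add_const 1).inv (by positivity : y + 1 ≠ 0)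
  have h2 := (h1.sub (hasDerivAt_inv hy.ne')).div_const (2 * Real.pi)
  have e : l2 y = (-1 / (y + 1) ^ 2 - -(y ^ 2)⁻¹) / (2 * Real.pi) := by
    unfold l2
    ring
  rw [e]
  exact h2

theorem der_l2 {y : ℝ} (hy : 0 < y) : HasDerivAt l2 (l3 y) y := by
  have h0 : HasDerivAt (fun y : ℝ => y ^ 2) (2 * y) y := by simpa using hasDerivAt_pow 2 y
  have h0' : HasDerivAt (fun y : ℝ => (y + 1) ^ 2) (2 * (y + 1)) y := by
    simpa using ((hasDerivAt_id' y).add_const 1).fun_pow 2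
  have h1 := h0.inv (by positivity : y ^ 2 ≠ 0)
  have h2 := h0'.inv (by positivity : (y + 1) ^ 2 ≠ 0)
  have h3 := (h1.sub h2).div_const (2 * Real.pi)
  have e : l3 y = (-(2 * y) / (y ^ 2) ^ 2 - -(2 * (y + 1)) / ((y + 1) ^ 2) ^ 2) / (2 * Real.pi) := by
    unfold l3
    congr 1
    field_simp
    ring
  rw [e]
  exact h3

theorem contOn_l1 : ContinuousOn l1 (Set.Ioi 0) := fun _ hy =>
  (der_l1 hy).continuousAt.continuousWithinAt

theorem contOn_l2 : ContinuousOn l2 (Set.Ioi 0) := fun _ hy =>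
  (der_l2 hy).continuousAt.continuousWithinAt

theorem contOn_lam : ContinuousOn lam (Set.Ioi 0) := fun _ hy =>
  (der_lam hy).continuousAt.continuousWithinAt

theorem contOn_l3 : ContinuousOn l3 (Set.Ioi 0) := by
  intro y hy
  have hy' : (0 : ℝ) < y := hy
  apply ContinuousAt.continuousWithinAt
  unfold l3
  have h1 : (y + 1) ^ 3 ≠ 0 := by positivity
  have h2 : y ^ 3 ≠ 0 := by positivity
  fun_prop (disch := assumption)

theorem l1_eq {y : ℝ} (hy : 0 < y) : l1 y = -(1 / (2 * Real.pi * (y * (y + 1)))) := by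
  unfold l1
  have := Real.pi_pos
  field_simp
  ring

theorem l2_eq {y : ℝ} (hy : 0 < y) :
    l2 y = (2 * y + 1) / (2 * Real.pi * (y ^ 2 * (y + 1) ^ 2)) := by
  unfold l2
  have := Real.pi_pos
  field_simp
  ring

theorem l3_eq {y : ℝ} (hy : 0 < y) :
    l3 y = -((3 * y ^ 2 + 3 * y + 1) / (Real.pi * (y ^ 3 * (y + 1) ^ 3))) := by
  unfold l3
  have := Real.pi_pos
  field_simp
  ring

/-- lower bound of the second derivative -/
theorem l2_ge {Y y : ℝ} (hY : 8 ≤ Y) (h1 : Y / 8 ≤ y) (h2 : y ≤ 4 * Y) :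
    1 / (512 * Y ^ 3) ≤ l2 y := by
  have hy : 0 < y := by linarith
  have p1 := Real.pi_pos
  have p2 := Real.pi_lt_d2
  rw [l2_eq hy]
  calc 1 / (512 * Y ^ 3) ≤ 1 / (2 * Real.pi * (y ^ 2 * (y + 1))) := by
        apply one_div_le_one_div_of_le (by positivity)
        calc 2 * Real.pi * (y ^ 2 * (y + 1)) ≤ 2 * 3.15 * ((4 * Y) ^ 2 * (5 * Y)) := by
              gcongr; linarith
          _ = 504 * Y ^ 3 := by ring
          _ ≤ 512 * Y ^ 3 := by gcongr; norm_num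
    _ = (y + 1) / (2 * Real.pi * (y ^ 2 * (y + 1) ^ 2)) := by field_simp
    _ ≤ _ := by gcongr; linarith

theorem l2_le {Y y : ℝ} (hY : 8 ≤ Y) (h1 : Y / 8 ≤ y) : |l2 y| ≤ 171 / Y ^ 3 := by
  have hy : 0 < y := by linarith
  have p1 := Real.pi_gt_three
  rw [l2_eq hy, abs_of_pos (by positivity)]
  calc (2 * y + 1) / (2 * Real.pi * (y ^ 2 * (y + 1) ^ 2))
      ≤ (2 * (y + 1)) / (2 * 3 * (y ^ 2 * (y + 1) ^ 2)) := by gcongr; linarith
    _ = 1 / (3 * (y ^ 2 * (y + 1))) := by field_simp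
    _ ≤ 1 / (3 * ((Y / 8) ^ 2 * (Y / 8))) := by gcongr; linarith
    _ = (512 / 3) / Y ^ 3 := by field_simp; ring
    _ ≤ 171 / Y ^ 3 := by gcongr; norm_num

theorem l3_le {Y y : ℝ} (hY : 8 ≤ Y) (h1 : Y / 8 ≤ y) : |l3 y| ≤ 4096 / Y ^ 4 := by
  have hy : 0 < y := by linarith
  have p1 := Real.pi_gt_three
  rw [l3_eq hy, abs_neg, abs_of_pos (by positivity)]
  calc (3 * y ^ 2 + 3 * y + 1) / (Real.pi * (y ^ 3 * (y + 1) ^ 3))
      ≤ (3 * (y + 1) ^ 2) / (3 * (y ^ 3 * (y + 1) ^ 3)) := by gcongr; nlinarith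
    _ = 1 / (y ^ 3 * (y + 1)) := by field_simp
    _ ≤ 1 / ((Y / 8) ^ 3 * (Y / 8)) := by gcongr; linarith
    _ = 4096 / Y ^ 4 := by field_simp; ring

theorem l1_bounds {Y y : ℝ} (hY : 8 ≤ Y) (h1 : Y / 8 ≤ y) (h2 : y ≤ 4 * Y) :
    1 / (104 * Y ^ 2) ≤ -l1 y ∧ -l1 y ≤ 11 / Y ^ 2 := by
  have hy : 0 < y := by linarith
  have p1 := Real.pi_gt_three
  have p2 := Real.pi_lt_d2
  rw [l1_eq hy, neg_neg]
  constructor
  · apply one_div_le_one_div_of_le (by positivity)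
    calc 2 * Real.pi * (y * (y + 1)) ≤ 2 * 3.15 * ((4 * Y) * (33 / 8 * Y)) := by
          gcongr; linarith
      _ = 103.95 * Y ^ 2 := by ring
      _ ≤ 104 * Y ^ 2 := by gcongr; norm_num
  · calc 1 / (2 * Real.pi * (y * (y + 1))) ≤ 1 / (2 * 3 * ((Y / 8) * (Y / 8))) := by
          gcongr; linarith
      _ = (32 / 3) / Y ^ 2 := by field_simp; ring
      _ ≤ 11 / Y ^ 2 := by gcongr; norm_num

theorem der_phi {t k y : ℝ} (hy : 0 < y) :
    HasDerivAt (fun y => t * lam y + k * y) (t * l1 y + k) y := by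
  simpa using ((der_lam hy).const_mul t).fun_add ((hasDerivAt_id' y).const_mul k)

theorem der_phi1 {t k y : ℝ} (hy : 0 < y) :
    HasDerivAt (fun y => t * l1 y + k) (t * l2 y) y :=
  ((der_l1 hy).const_mul t).add_const k

/-- the second derivative test for the phase `t lam y + k y` -/
theorem sec (hS : SecDerStmt) : ∃ C : ℝ, 0 < C ∧ ∀ (T Y t k A : ℝ) (a a1 : ℝ → ℂ), 0 < T → 8 ≤ Y →
    T ≤ t → 0 ≤ A →
    (∀ y ∈ Set.Icc (Y / 8) (4 * Y), HasDerivAt a (a1 y) y ∧ ‖a y‖ ≤ A ∧ ‖a1 y‖ ≤ A / Y) →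
    ContinuousOn a1 (Set.Icc (Y / 8) (4 * Y)) →
    ‖∫ y in (Y / 8)..(4 * Y), a y * E (t * lam y + k * y)‖ ≤ C * A * Real.sqrt (Y ^ 3 / T) := by
  obtain ⟨C, hC, h⟩ := hS
  refine ⟨C * 5 * 23, by positivity, fun T Y t k A a a1 hT hY ht hA ha hc => ?_⟩
  have hY0 : 0 < Y := by linarith
  have hsub : Set.Icc (Y / 8) (4 * Y) ⊆ Set.Ioi 0 := fun y hy =>
    lt_of_lt_of_le (by positivity : (0 : ℝ) < Y / 8) hy.1
  have key := h a a1 (fun y => t * lam y + k * y) (fun y => t * l1 y + k) (fun y => t * l2 y)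
    (Y / 8) (4 * Y) A (A / Y) (T / (512 * Y ^ 3)) (by linarith) (by positivity) ha hc
    (fun y hy => ⟨der_phi (hsub hy), der_phi1 (hsub hy)⟩)
    (continuousOn_const.mul (contOn_l2.mono hsub))
    (Or.inl fun y hy => by
      have := l2_ge hY hy.1 hy.2
      calc T / (512 * Y ^ 3) = T * (1 / (512 * Y ^ 3)) := by ring
        _ ≤ t * l2 y := by gcongr; linarith)
  refine key.trans ?_
  have e1 : A + (4 * Y - Y / 8) * (A / Y) ≤ 5 * A := by
    have : (4 * Y - Y / 8) * (A / Y) = 31 / 8 * A := by field_simp; ring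
    linarith
  have e2 : 1 / Real.sqrt (T / (512 * Y ^ 3)) ≤ 23 * Real.sqrt (Y ^ 3 / T) := by
    rw [one_div, ← Real.sqrt_inv, inv_div, show (23 : ℝ) = Real.sqrt (23 ^ 2) by simp,
      ← Real.sqrt_mul (by positivity)]
    apply Real.sqrt_le_sqrt
    rw [mul_div_assoc]
    gcongr
    norm_num
  calc C * ((A + (4 * Y - Y / 8) * (A / Y)) / Real.sqrt (T / (512 * Y ^ 3)))
      = C * ((A + (4 * Y - Y / 8) * (A / Y)) * (1 / Real.sqrt (T / (512 * Y ^ 3)))) := by ring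
    _ ≤ C * ((5 * A) * (23 * Real.sqrt (Y ^ 3 / T))) := by gcongr
    _ = _ := by ring

end Atk

open Atk

theorem ibound_of (hS : SecDerStmt) : IBoundStmt := by
  obtain ⟨C, hC, h⟩ := sec hS
  refine ⟨C, hC, fun T Y t k a hT hY ha h1 _ => ?_⟩
  obtain ⟨⟨a1, a2, hd, -⟩, -⟩ := ha
  simpa [II] using h T Y t k 1 a a1 hT hY h1 zero_le_one
    (fun y hy => ⟨hd.d1 y hy, hd.b0 y hy, hd.b1 y hy⟩) hd.contOn1

theorem inonstat_of (hN : NonStatStmt) : INonStatStmt := by
  obtain ⟨C, hC, h⟩ := hN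
  refine ⟨C * 4 * (200 * 70000) ^ 2, by positivity, fun T Y t k a hT hY ha h1 h2 hk => ?_⟩
  have hY0 : 0 < Y := by linarith
  have hsub : Set.Icc (Y / 8) (4 * Y) ⊆ Set.Ioi 0 := fun y hy =>
    lt_of_lt_of_le (by positivity : (0 : ℝ) < Y / 8) hy.1
  set K := T / Y ^ 2 with hK
  have hK0 : 0 < K := by positivity
  have hk0 := abs_nonneg k
  have ht0 : 0 < t := by linarith
  have key := h a (fun y => t * lam y + k * y) (fun y => t * l1 y + k) (fun y => t * l2 y)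
    (fun y => t * l3 y) (Y / 8) (4 * Y) (Y / 70000) 1 ((K + |k|) / 200) (by linarith)
    (by positivity) (by positivity) (ha.1.mono (by positivity) (by linarith) zero_le_one le_rfl)
    (fun y hy => ⟨der_phi (hsub hy), der_phi1 (hsub hy), (der_l2 (hsub hy)).const_mul t, ?_, ?_, ?_⟩)
    (continuousOn_const.mul (contOn_l3.mono hsub))
  · refine key.trans ?_
    have e : C * ((4 * Y - Y / 8) * 1 / ((K + |k|) / 200 * (Y / 70000)) ^ 2) =
        C * (31 / 8) * (200 * 70000) ^ 2 / (Y * (K + |k|) ^ 2) := by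
      field_simp
      ring
    rw [e]
    gcongr
    norm_num
  · obtain ⟨b1, b2⟩ := l1_bounds hY hy.1 hy.2
    have c1 : K / 104 ≤ t * -l1 y := by
      calc K / 104 = T * (1 / (104 * Y ^ 2)) := by rw [hK]; field_simp
        _ ≤ t * -l1 y := by gcongr
    have c2 : t * -l1 y ≤ 22 * K := by
      calc t * -l1 y ≤ (2 * T) * (11 / Y ^ 2) := by
            gcongr
            exact le_trans (by positivity) b1
        _ = 22 * K := by rw [hK]; ring
    rcases hk with hk | hk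
    · have : (K + |k|) / 200 ≤ -(t * l1 y + k) := by
        rcases abs_cases k with ⟨e, _⟩ | ⟨e, _⟩ <;> rw [e] <;> linarith
      exact this.trans (neg_le_abs _)
    · have : (K + |k|) / 200 ≤ t * l1 y + k := by
        rw [abs_of_nonneg (by linarith)]
        linarith
      exact this.trans (le_abs_self _)
  · rw [abs_mul, abs_of_pos ht0]
    have := l2_le hY hy.1
    calc t * |l2 y| ≤ (2 * T) * (171 / Y ^ 3) := by gcongr
      _ = (342 / 350) * (K / 200 / (Y / 70000)) := by rw [hK]; field_simp; ring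
      _ ≤ 1 * ((K + |k|) / 200 / (Y / 70000)) := by gcongr; · norm_num
                                                    · linarith
      _ = _ := one_mul _
  · rw [abs_mul, abs_of_pos ht0]
    have := l3_le hY hy.1
    calc t * |l3 y| ≤ (2 * T) * (4096 / Y ^ 4) := by gcongr
      _ = (8192 / 24500000) * (K / 200 / (Y / 70000) ^ 2) := by rw [hK]; field_simp; ring
      _ ≤ 1 * ((K + |k|) / 200 / (Y / 70000) ^ 2) := by gcongr; · norm_num
                                                        · linarith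
      _ = _ := one_mul _

end Pool.Agent.MP_3d0d30_nt.Six

end MrgPart1

-- ======== part 2: formerly Pool.Agent.MP_3d0d30_nt.Six.AtkB
section MrgPart2

/-! Project SIX, module Atk, part B: the integral against `lam y - lam y0`. -/

set_option autoImplicit false

namespace Pool.Agent.MP_3d0d30_nt.Six

open MeasureTheory Finset Filter

namespace Atk

theorem swapFTC {F F' : ℝ → ℝ → ℂ} {p q α β M : ℝ} (hpq : p ≤ q) (hab : α ≤ β)
    (hd : ∀ s ∈ Set.Icc p q, ∀ y ∈ Set.Icc α β, HasDerivAt (fun s => F s y) (F' s y) s)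
    (hc : ContinuousOn (Function.uncurry F') (Set.Icc p q ×ˢ Set.Icc α β))
    (hp : ContinuousOn (F p) (Set.Icc α β)) (hq : ContinuousOn (F q) (Set.Icc α β))
    (hM : ∀ s ∈ Set.Icc p q, ‖∫ y in α..β, F' s y‖ ≤ M) :
    ‖(∫ y in α..β, F q y) - ∫ y in α..β, F p y‖ ≤ M * (q - p) := by
  rw [← intervalIntegral.integral_sub (hq.intervalIntegrable_of_Icc hab)
    (hp.intervalIntegrable_of_Icc hab)]
  have e : ∫ y in α..β, (F q y - F p y) = ∫ y in α..β, ∫ s in p..q, F' s y := by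
    refine intervalIntegral.integral_congr fun y hy => ?_
    rw [Set.uIcc_of_le hab] at hy
    have h1 : ContinuousOn (fun s => F' s y) (Set.Icc p q) :=
      hc.comp (f := fun s : ℝ => (s, y)) (by fun_prop) fun s hs => ⟨hs, hy⟩
    exact (intervalIntegral.integral_eq_sub_of_hasDerivAt (f := fun s => F s y)
      (fun s hs => hd s (by rwa [Set.uIcc_of_le hpq] at hs) y hy)
      (h1.intervalIntegrable_of_Icc hpq)).symm
  have hi : IntegrableOn (Function.uncurry F') (Set.uIoc p q ×ˢ Set.uIoc α β) := by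
    refine (hc.integrableOn_compact (isCompact_Icc.prod isCompact_Icc)).mono_set ?_
    rw [Set.uIoc_of_le hpq, Set.uIoc_of_le hab]
    exact Set.prod_mono Set.Ioc_subset_Icc_self Set.Ioc_subset_Icc_self
  rw [e, ← intervalIntegral_intervalIntegral_swap hi]
  have := intervalIntegral.norm_integral_le_of_norm_le_const (a := p) (b := q) (C := M)
    (f := fun s => ∫ y in α..β, F' s y) fun s hs => hM s (by
      rw [Set.uIoc_of_le hpq] at hs
      exact Set.Ioc_subset_Icc_self hs)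
  rwa [abs_of_nonneg (sub_nonneg.2 hpq)] at this

theorem c2_inv {p s α β l : ℝ} (hl : 0 < l) (hs : |s| ≤ 1)
    (h : ∀ y ∈ Set.Icc α β, l ≤ p + s * y) :
    C2 (fun y => (((p + s * y)⁻¹ : ℝ) : ℂ)) α β l (2 / l) := by
  refine C2.ofReal (f1 := fun y => -s / (p + s * y) ^ 2) (f2 := fun y => 2 * s ^ 2 / (p + s * y) ^ 3)
    (fun y hy => ?_) ?_
  · have h1 := h y hy
    have h0 : 0 < p + s * y := hl.trans_le h1
    have d0 : HasDerivAt (fun y => p + s * y) s y := by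
      simpa using ((hasDerivAt_id' y).const_mul s).const_add p
    have d1 := (d0.fun_pow 2).fun_inv (by positivity : (p + s * y) ^ 2 ≠ 0)
    have hs2 : s ^ 2 ≤ 1 := by rwa [sq_le_one_iff_abs_le_one]
    refine ⟨d0.fun_inv h0.ne', ?_, ?_, ?_, ?_⟩
    · have d2 := d1.const_mul (-s)
      have e1 : (fun y => -s / (p + s * y) ^ 2) = fun y => -s * ((p + s * y) ^ 2)⁻¹ := by
        funext y; rw [div_eq_mul_inv]
      rw [e1]
      refine d2.congr_deriv ?_
      simp only [Nat.cast_ofNat, Nat.add_one_sub_one, pow_one]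
      field_simp
    · rw [abs_of_pos (inv_pos.2 h0), inv_eq_one_div]
      gcongr
      norm_num
    · rw [abs_div, abs_neg, abs_of_pos (by positivity : 0 < (p + s * y) ^ 2)]
      calc |s| / (p + s * y) ^ 2 ≤ 2 / l ^ 2 := by gcongr; linarith
        _ = 2 / l / l := by field_simp
    · rw [abs_of_nonneg (by positivity)]
      calc 2 * s ^ 2 / (p + s * y) ^ 3 ≤ 2 * 1 / l ^ 3 := by gcongr
        _ = 2 / l / l ^ 2 := by field_simp
  · intro y hy
    have h0 : (p + s * y) ^ 3 ≠ 0 := (pow_pos (hl.trans_le (h y hy)) 3).ne'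
    apply ContinuousAt.continuousWithinAt
    fun_prop (disch := assumption)

theorem c2_aff {c α β l A : ℝ} (hl : 0 < l) (hA : l ≤ A) (h : ∀ y ∈ Set.Icc α β, |y + c| ≤ A) :
    C2 (fun y => ((y + c : ℝ) : ℂ)) α β l A := by
  refine C2.ofReal (f1 := fun _ => 1) (f2 := fun _ => 0) (fun y hy => ?_) continuousOn_const
  have hA0 : 0 < A := hl.trans_le hA
  refine ⟨(hasDerivAt_id' y).add_const c, hasDerivAt_const y 1, h y hy, ?_, ?_⟩
  · rwa [abs_one, one_le_div hl]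
  · rw [abs_zero]; positivity

/-- integration by parts against the phase -/
theorem ibp {A A1 : ℝ → ℂ} {φ φ1 : ℝ → ℝ} {α β : ℝ} (hab : α ≤ β)
    (hA : ∀ y ∈ Set.Icc α β, HasDerivAt A (A1 y) y) (hA1 : ContinuousOn A1 (Set.Icc α β))
    (hφ : ∀ y ∈ Set.Icc α β, HasDerivAt φ (φ1 y) y) (hφ1 : ContinuousOn φ1 (Set.Icc α β))
    (h0 : A α = 0) (h1 : A β = 0) :
    ‖∫ y in α..β, A y * φ1 y * E (φ y)‖ ≤ ‖∫ y in α..β, A1 y * E (φ y)‖ := by
  have cA : ContinuousOn A (Set.Icc α β) := fun y hy => (hA y hy).continuousAt.continuousWithinAt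
  have cφ : ContinuousOn (fun y => E (φ y)) (Set.Icc α β) :=
    continuous_E.comp_continuousOn fun y hy => (hφ y hy).continuousAt.continuousWithinAt
  have cφ1 : ContinuousOn (fun y => (φ1 y : ℂ)) (Set.Icc α β) :=
    Complex.continuous_ofReal.comp_continuousOn hφ1
  have i1 : IntervalIntegrable (fun y => A1 y * E (φ y)) volume α β :=
    (hA1.mul cφ).intervalIntegrable_of_Icc hab
  have i2 : IntervalIntegrable (fun y => A y * φ1 y * E (φ y)) volume α β :=
    ((cA.mul cφ1).mul cφ).intervalIntegrable_of_Icc hab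
  have key := intervalIntegral.integral_eq_sub_of_hasDerivAt (a := α) (b := β)
    (f := fun y => A y * E (φ y))
    (f' := fun y => A1 y * E (φ y) + 2 * Real.pi * Complex.I * (A y * φ1 y * E (φ y)))
    (fun y hy => by
      rw [Set.uIcc_of_le hab] at hy
      refine ((hA y hy).fun_mul (hasDerivAt_E_comp (hφ y hy))).congr_deriv ?_
      ring) (i1.add (i2.const_mul _))
  rw [intervalIntegral.integral_add i1 (i2.const_mul _), intervalIntegral.integral_const_mul] at key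
  simp only [h0, h1, zero_mul, sub_zero] at key
  have e : (∫ y in α..β, A1 y * E (φ y)) =
      -(2 * Real.pi * Complex.I * ∫ y in α..β, A y * φ1 y * E (φ y)) :=
    eq_neg_of_add_eq_zero_left key
  rw [e, norm_neg, norm_mul]
  have : 1 ≤ ‖(2 * Real.pi * Complex.I : ℂ)‖ := by
    have := Real.pi_gt_three
    simp only [norm_mul, Complex.norm_I, Complex.norm_real, Real.norm_eq_abs, Complex.norm_ofNat,
      abs_of_pos Real.pi_pos]
    linarith
  exact le_mul_of_one_le_left (norm_nonneg _) this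

/-- the key estimate -/
theorem jone (hS : SecDerStmt) : ∃ C : ℝ, 0 < C ∧ ∀ (T Y t k y0 : ℝ) (a : ℝ → ℂ), 0 < T →
    100 ≤ Y → Amp Y a → T ≤ t → Y / 200 ≤ y0 → y0 ≤ 18 * Y →
    k = t / (2 * Real.pi * (y0 * (y0 + 1))) →
    ‖(∫ y in (Y / 8)..(4 * Y), a y * (lam y : ℂ) * E (t * lam y + k * y)) - lam y0 * II a Y t k‖ ≤
      C * (Real.sqrt (Y ^ 3 / T) / T) := by
  obtain ⟨C, hC, h⟩ := sec hS
  refine ⟨C * (40000 * (4 ^ 6 * 400 ^ 3 * 25 * 342)), by positivity,
    fun T Y t k y0 a hT hY ha ht h1 h2 hk => ?_⟩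
  have hY0 : 0 < Y := by linarith
  have hy0 : 0 < y0 := lt_of_lt_of_le (by positivity) h1
  have ht0 : 0 < t := by linarith
  have hab : Y / 8 ≤ 4 * Y := by linarith
  have hsub : Set.Icc (Y / 8) (4 * Y) ⊆ Set.Ioi 0 := fun y hy =>
    lt_of_lt_of_le (by positivity : (0 : ℝ) < Y / 8) hy.1
  have hz : ∀ s ∈ Set.Icc (0 : ℝ) 1, ∀ y ∈ Set.Icc (Y / 8) (4 * Y), Y / 200 ≤ y0 + s * (y - y0) := by
    intro s hs y hy
    nlinarith [mul_nonneg hs.1 (show 0 ≤ y - Y / 200 by linarith [hy.1]),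
      mul_nonneg (sub_nonneg.2 hs.2) (sub_nonneg.2 h1)]
  have hz0 : ∀ s ∈ Set.Icc (0 : ℝ) 1, ∀ y ∈ Set.Icc (Y / 8) (4 * Y), 0 < y0 + s * (y - y0) :=
    fun s hs y hy => lt_of_lt_of_le (by positivity) (hz s hs y hy)
  obtain ⟨b1, b2, hd, -⟩ := ha.1
  have ca : ContinuousOn a (Set.Icc (Y / 8) (4 * Y)) := hd.contOn
  have cφ : ContinuousOn (fun y => E (t * lam y + k * y)) (Set.Icc (Y / 8) (4 * Y)) :=
    continuous_E.comp_continuousOn fun y hy => (der_phi (hsub hy)).continuousAt.continuousWithinAt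
  have cF : ∀ s ∈ Set.Icc (0 : ℝ) 1, ContinuousOn
      (fun y => a y * (lam (y0 + s * (y - y0)) : ℂ) * E (t * lam y + k * y))
      (Set.Icc (Y / 8) (4 * Y)) := fun s hs =>
    (ca.mul (Complex.continuous_ofReal.comp_continuousOn
      (contOn_lam.comp (by fun_prop) fun y hy => hz0 s hs y hy))).mul cφ
  have key := swapFTC (p := 0) (q := 1) (α := Y / 8) (β := 4 * Y)
    (M := C * (40000 * (4 ^ 6 * 400 ^ 3 * 25 * 342)) * (Real.sqrt (Y ^ 3 / T) / T))
    (F := fun s y => a y * (lam (y0 + s * (y - y0)) : ℂ) * E (t * lam y + k * y))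
    (F' := fun s y => a y * ((l1 (y0 + s * (y - y0)) * (y - y0) : ℝ) : ℂ) * E (t * lam y + k * y))
    zero_le_one hab (fun s hs y hy => ?_) ?_ (cF 0 (by simp)) (cF 1 (by simp)) (fun s hs => ?_)
  · simp only [one_mul, add_sub_cancel, zero_mul, add_zero, sub_zero, mul_one] at key
    have e : (lam y0 : ℂ) * II a Y t k =
        ∫ y in (Y / 8)..(4 * Y), a y * (lam y0 : ℂ) * E (t * lam y + k * y) := by
      rw [II, ← intervalIntegral.integral_const_mul]
      congr 1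
      funext y
      ring
    rw [e]
    exact key
  · have d0 : HasDerivAt (fun s => y0 + s * (y - y0)) (y - y0) s := by
      simpa using ((hasDerivAt_id' s).mul_const (y - y0)).const_add y0
    have d1 := ((der_lam (hz0 s hs y hy)).comp s d0).ofReal_comp
    exact (d1.const_mul (a y)).mul_const _
  · have c1 : ContinuousOn (fun p : ℝ × ℝ => l1 (y0 + p.1 * (p.2 - y0)))
        (Set.Icc 0 1 ×ˢ Set.Icc (Y / 8) (4 * Y)) :=
      contOn_l1.comp (by fun_prop) fun p hp => hz0 p.1 hp.1 p.2 hp.2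
    exact ((ca.comp continuousOn_snd fun p hp => hp.2).mul
      (Complex.continuous_ofReal.comp_continuousOn (c1.mul (by fun_prop)))).mul
      (cφ.comp continuousOn_snd fun p hp => hp.2)
  · have hl : 0 < Y / 200 := by positivity
    have hs1 : |s| ≤ 1 := abs_le.2 ⟨by linarith [hs.1], hs.2⟩
    have q0 := ha.1.mono hl (by linarith) zero_le_one le_rfl
    have q1 := c2_inv (p := y0 - s * y0) (α := Y / 8) (β := 4 * Y) hl hs1
      fun y hy => by linarith [hz s hs y hy]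
    have q2 := c2_inv (p := y0 - s * y0 + 1) (α := Y / 8) (β := 4 * Y) hl hs1
      fun y hy => by linarith [hz s hs y hy]
    have q3 := c2_aff (c := 0) (α := Y / 8) (β := 4 * Y) (A := 5 * Y) hl (by linarith)
      fun y hy => abs_le.2 ⟨by linarith [hy.1], by linarith [hy.2]⟩
    have q4 := c2_aff (c := 1) (α := Y / 8) (β := 4 * Y) (A := 5 * Y) hl (by linarith)
      fun y hy => abs_le.2 ⟨by linarith [hy.1], by linarith [hy.2]⟩
    have q5 := c2_inv (p := y0 + 1) (s := 1) (α := Y / 8) (β := 4 * Y) hl (by simp)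
      fun y hy => by linarith [hy.1]
    have q6 := C2.const (((-(y0 * (y0 + 1) / t) : ℝ)) : ℂ) (Y / 8) (4 * Y) hl
    have hn : ‖(((-(y0 * (y0 + 1) / t) : ℝ)) : ℂ)‖ ≤ 342 * Y ^ 2 / T := by
      rw [Complex.norm_real, norm_neg, Real.norm_of_nonneg (by positivity)]
      calc y0 * (y0 + 1) / t ≤ (18 * Y) * (19 * Y) / T := by gcongr; linarith
        _ = _ := by ring
    have q7 := q6.mono hl le_rfl (by positivity) hn
    obtain ⟨A1, A2, hA, z1, z2, -, -⟩ := (((((q0.mul q1).mul q2).mul q3).mul q4).mul q5).mul q7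
    have eS : 4 * (4 * (4 * (4 * (4 * (4 * (1 * (2 / (Y / 200))) * (2 / (Y / 200))) * (5 * Y)) *
        (5 * Y)) * (2 / (Y / 200))) * (342 * Y ^ 2 / T)) = (4 ^ 6 * 400 ^ 3 * 25 * 342) * (Y / T) := by
      field_simp
      ring
    rw [eS] at hA
    have i1 := ibp hab hA.d1 hA.contOn1 (φ := fun y => t * lam y + k * y)
      (φ1 := fun y => t * l1 y + k) (fun y hy => der_phi (hsub hy))
      ((continuousOn_const.mul (contOn_l1.mono hsub)).add continuousOn_const) z1 z2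
    have i2 := h T Y t k (40000 * (4 ^ 6 * 400 ^ 3 * 25 * 342) / T) A1 A2 hT (by linarith) ht
      (by positivity) (fun y hy => ⟨hA.d2 y hy, (hA.b1 y hy).trans ?_, (hA.b2 y hy).trans ?_⟩)
      hA.cont
    · refine le_trans (le_of_eq ?_) (i1.trans (i2.trans (le_of_eq (by ring))))
      congr 1
      refine intervalIntegral.integral_congr fun y hy => ?_
      rw [Set.uIcc_of_le hab] at hy
      have hy' : 0 < y := hsub hy
      have w := hz0 s hs y hy
      have e1 : y0 - s * y0 + s * y = y0 + s * (y - y0) := by ring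
      have e2 : y0 - s * y0 + 1 + s * y = y0 + s * (y - y0) + 1 := by ring
      have e : l1 (y0 + s * (y - y0)) * (y - y0) = (y0 - s * y0 + s * y)⁻¹ *
          (y0 - s * y0 + 1 + s * y)⁻¹ * (y + 0) * (y + 1) * (y0 + 1 + 1 * y)⁻¹ *
          (-(y0 * (y0 + 1) / t)) * (t * l1 y + k) := by
        rw [e1, e2, l1_eq w, l1_eq hy', hk]
        generalize y0 + s * (y - y0) = z at w
        have := Real.pi_pos
        field_simp
        ring
      rw [e]
      push_cast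
      ring
    · apply le_of_le_of_eq (b := 40000 * (4 ^ 6 * 400 ^ 3 * 25 * 342) / T) _ rfl
      rw [show (4 ^ 6 * 400 ^ 3 * 25 * 342 : ℝ) * (Y / T) / (Y / 200) =
        200 * (4 ^ 6 * 400 ^ 3 * 25 * 342) / T by field_simp]
      gcongr
      norm_num
    · apply le_of_eq
      field_simp
      norm_num

end Atk

end Pool.Agent.MP_3d0d30_nt.Six

end MrgPart2

-- ======== part 3: formerly Pool.Agent.MP_3d0d30_nt.Six.R2
section MrgPart3

/-! Project SIX, module R2: separation of variables (by telescoping in the shift). -/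

set_option autoImplicit false

namespace Pool.Agent.MP_3d0d30_nt.Six

open MeasureTheory Finset Filter
open scoped ComplexConjugate ContDiff Topology

namespace R2

theorem ww_lo {x : ℝ} (h : x ≤ 1 / 2) : ww x = 0 := by
  unfold ww psi
  rw [Real.smoothTransition.one_of_one_le (by linarith),
    Real.smoothTransition.one_of_one_le (by linarith), sub_self]

theorem ww_hi {x : ℝ} (h : 2 ≤ x) : ww x = 0 := by
  unfold ww psi
  rw [Real.smoothTransition.zero_of_nonpos (by linarith),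
    Real.smoothTransition.zero_of_nonpos (by linarith), sub_self]

noncomputable def ff (x : ℝ) : ℝ := 2 * Real.sqrt x * ww x

theorem ff_zero {x : ℝ} (h : x < 1 / 2 ∨ 2 < x) : ff x = 0 := by
  rcases h with h | h
  · simp [ff, ww_lo h.le]
  · simp [ff, ww_hi h.le]

theorem ff_ev {x : ℝ} (h : x < 1 / 2 ∨ 2 < x) : ff =ᶠ[𝓝 x] fun _ => 0 := by
  have : IsOpen {x : ℝ | x < 1 / 2 ∨ 2 < x} := isOpen_Iio.union isOpen_Ioi
  filter_upwards [this.mem_nhds h] with y hy using ff_zero hy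

theorem ff_smooth : ContDiff ℝ ∞ ff := by
  refine contDiff_iff_contDiffAt.2 fun x => ?_
  by_cases h : x < 1 / 2
  · exact contDiffAt_const.congr_of_eventuallyEq (ff_ev (Or.inl h))
  have hx : x ≠ 0 := by intro e; rw [e] at h; norm_num at h
  have h1 : ContDiff ℝ ∞ ww := by
    unfold ww psi
    exact (Real.smoothTransition.contDiff.comp (by fun_prop)).sub
      (Real.smoothTransition.contDiff.comp (by fun_prop))
  exact (contDiffAt_const.mul (Real.contDiffAt_sqrt hx)).mul h1.contDiffAt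

theorem wb_div {P m : ℝ} (hP : 0 < P) (hm : 0 ≤ m) :
    wb (m / P) / Real.sqrt m = ff (m / P) / Real.sqrt P := by
  rcases hm.eq_or_lt with rfl | hm
  · simp [wb, ff]
  obtain ⟨a, ha, rfl⟩ : ∃ a : ℝ, 0 < a ∧ m = a ^ 2 :=
    ⟨Real.sqrt m, Real.sqrt_pos.2 hm, (Real.sq_sqrt hm.le).symm⟩
  obtain ⟨b, hb, rfl⟩ : ∃ b : ℝ, 0 < b ∧ P = b ^ 2 :=
    ⟨Real.sqrt P, Real.sqrt_pos.2 hP, (Real.sq_sqrt hP.le).symm⟩
  unfold wb ff
  rw [Real.sqrt_div (by positivity), Real.sqrt_sq ha.le, Real.sqrt_sq hb.le]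
  field_simp

/-- three bounded derivatives -/
structure Dat (f1 f2 f3 : ℝ → ℝ) (K : ℝ) : Prop where
  pos : 0 < K
  d1 : ∀ x, HasDerivAt ff (f1 x) x
  d2 : ∀ x, HasDerivAt f1 (f2 x) x
  d3 : ∀ x, HasDerivAt f2 (f3 x) x
  b1 : ∀ x, |f1 x| ≤ K
  b2 : ∀ x, |f2 x| ≤ K
  b3 : ∀ x, |f3 x| ≤ K
  z1 : ∀ x, x < 1 / 2 ∨ 2 < x → f1 x = 0

theorem exists_dat : ∃ f1 f2 f3 K, Dat f1 f2 f3 K := by
  have s0 : HasCompactSupport ff :=
    HasCompactSupport.intro (isCompact_Icc (a := (1 / 2 : ℝ)) (b := 2)) fun x hx => ff_zero (by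
      simpa only [Set.mem_Icc, not_and_or, not_le] using hx)
  obtain ⟨a0, c1⟩ := contDiff_infty_iff_deriv.1 ff_smooth
  obtain ⟨a1, c2⟩ := contDiff_infty_iff_deriv.1 c1
  obtain ⟨a2, c3⟩ := contDiff_infty_iff_deriv.1 c2
  obtain ⟨K1, h1⟩ := c1.continuous.bounded_above_of_compact_support s0.deriv
  obtain ⟨K2, h2⟩ := c2.continuous.bounded_above_of_compact_support s0.deriv.deriv
  obtain ⟨K3, h3⟩ := c3.continuous.bounded_above_of_compact_support s0.deriv.deriv.deriv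
  have p1 := (norm_nonneg _).trans (h1 0)
  have p2 := (norm_nonneg _).trans (h2 0)
  have p3 := (norm_nonneg _).trans (h3 0)
  refine ⟨deriv ff, deriv (deriv ff), deriv (deriv (deriv ff)), K1 + K2 + K3 + 1, by linarith,
    fun x => (a0 x).hasDerivAt, fun x => (a1 x).hasDerivAt, fun x => (a2 x).hasDerivAt,
    fun x => ?_, fun x => ?_, fun x => ?_, fun x hx => ?_⟩
  · linarith [h1 x, Real.norm_eq_abs (deriv ff x)]
  · linarith [h2 x, Real.norm_eq_abs (deriv (deriv ff) x)]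
  · linarith [h3 x, Real.norm_eq_abs (deriv (deriv (deriv ff)) x)]
  · rw [(ff_ev hx).deriv_eq]; simp

theorem lip {g g1 : ℝ → ℝ} {K : ℝ} (hd : ∀ x, HasDerivAt g (g1 x) x) (hb : ∀ x, |g1 x| ≤ K)
    {ρ ρ' x : ℝ} (h : ρ ≤ ρ') (h0 : 0 ≤ x) (h5 : x ≤ 5) :
    |g (ρ' * x) - g (ρ * x)| ≤ 5 * K * (ρ' - ρ) := by
  have hK := (abs_nonneg _).trans (hb 0)
  have := Convex.norm_image_sub_le_of_norm_hasDerivWithin_le (f := g) (f' := g1) (s := Set.univ)
    (fun x _ => (hd x).hasDerivWithinAt) (fun x _ => hb x) convex_univ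
    (Set.mem_univ (ρ * x)) (Set.mem_univ (ρ' * x))
  rw [Real.norm_eq_abs, Real.norm_eq_abs, ← sub_mul,
    abs_of_nonneg (mul_nonneg (sub_nonneg.2 h) h0)] at this
  refine this.trans ?_
  have : (ρ' - ρ) * x ≤ (ρ' - ρ) * 5 := by gcongr
  nlinarith

theorem diff_c2d {f1 f2 f3 : ℝ → ℝ} {K : ℝ} (hD : Dat f1 f2 f3 K) {Y σ ρ ρ' : ℝ} (hY : 1 ≤ Y)
    (s0 : 0 ≤ σ) (s1 : σ ≤ 1) (r0 : 0 ≤ ρ) (r1 : ρ ≤ ρ') (r2 : ρ' ≤ 2) :
    C2D (fun y => ((ff (ρ' * ((y + σ) / Y)) - ff (ρ * ((y + σ) / Y)) : ℝ) : ℂ))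
      (fun y => ((f1 (ρ' * ((y + σ) / Y)) * (ρ' / Y) - f1 (ρ * ((y + σ) / Y)) * (ρ / Y) : ℝ) : ℂ))
      (fun y => ((f2 (ρ' * ((y + σ) / Y)) * (ρ' / Y) * (ρ' / Y) -
        f2 (ρ * ((y + σ) / Y)) * (ρ / Y) * (ρ / Y) : ℝ) : ℂ))
      (Y / 8) (4 * Y) Y (24 * K * (ρ' - ρ)) := by
  have hY0 : 0 < Y := by linarith
  have hK := hD.pos
  have hδ : 0 ≤ ρ' - ρ := sub_nonneg.2 r1
  have af : ∀ r y : ℝ, HasDerivAt (fun y : ℝ => r * ((y + σ) / Y)) (r / Y) y := fun r y => by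
    have := ((((hasDerivAt_id y).add_const σ).div_const Y).const_mul r)
    simpa only [id, mul_one_div] using this
  have hx : ∀ y ∈ Set.Icc (Y / 8) (4 * Y), 0 ≤ (y + σ) / Y ∧ (y + σ) / Y ≤ 5 := fun y hy =>
    ⟨div_nonneg (by linarith [hy.1]) hY0.le, by rw [div_le_iff₀ hY0]; linarith [hy.2]⟩
  have c2 : Continuous f2 := continuous_iff_continuousAt.2 fun x => (hD.d3 x).continuousAt
  refine ⟨fun y _ => (((hD.d1 _).comp y (af ρ' y)).sub ((hD.d1 _).comp y (af ρ y))).ofReal_comp,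
    fun y _ => ((((hD.d2 _).comp y (af ρ' y)).mul_const _).sub
      (((hD.d2 _).comp y (af ρ y)).mul_const _)).ofReal_comp, by fun_prop,
    fun y hy => ?_, fun y hy => ?_, fun y hy => ?_⟩
  · rw [Complex.norm_real, Real.norm_eq_abs]
    refine (lip hD.d1 hD.b1 r1 (hx y hy).1 (hx y hy).2).trans ?_
    gcongr; norm_num
  · have h1 := lip hD.d2 hD.b2 r1 (hx y hy).1 (hx y hy).2
    have h2 := hD.b1 (ρ' * ((y + σ) / Y))
    rw [Complex.norm_real, Real.norm_eq_abs]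
    generalize f1 (ρ' * ((y + σ) / Y)) = u at h1 h2 ⊢
    generalize f1 (ρ * ((y + σ) / Y)) = v at h1 ⊢
    have e : u * (ρ' / Y) - v * (ρ / Y) = (u * (ρ' - ρ) + (u - v) * ρ) / Y := by ring
    rw [e, abs_div, abs_of_pos hY0]
    gcongr
    refine (abs_add_le _ _).trans ?_
    rw [abs_mul, abs_mul, abs_of_nonneg hδ, abs_of_nonneg r0]
    calc _ ≤ K * (ρ' - ρ) + 5 * K * (ρ' - ρ) * 2 := by gcongr; linarith
      _ ≤ _ := by nlinarith
  · have h1 := lip hD.d3 hD.b3 r1 (hx y hy).1 (hx y hy).2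
    have h2 := hD.b2 (ρ' * ((y + σ) / Y))
    rw [Complex.norm_real, Real.norm_eq_abs]
    generalize f2 (ρ' * ((y + σ) / Y)) = u at h1 h2 ⊢
    generalize f2 (ρ * ((y + σ) / Y)) = v at h1 ⊢
    have e : u * (ρ' / Y) * (ρ' / Y) - v * (ρ / Y) * (ρ / Y) =
        (u * ((ρ' - ρ) * (ρ' + ρ)) + (u - v) * (ρ * ρ)) / Y ^ 2 := by ring
    rw [e, abs_div, abs_of_pos (pow_pos hY0 2)]
    gcongr
    refine (abs_add_le _ _).trans ?_
    rw [abs_mul, abs_mul (u - v), abs_of_nonneg (mul_nonneg hδ (by linarith)),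
      abs_of_nonneg (mul_nonneg r0 r0)]
    have p0 : 0 ≤ (ρ' - ρ) * (ρ' + ρ) := mul_nonneg hδ (by linarith)
    calc _ ≤ K * ((ρ' - ρ) * 4) + 5 * K * (ρ' - ρ) * (2 * 2) := by gcongr <;> linarith
      _ = _ := by ring

/-- the damping factor -/
noncomputable def QQ (G y : ℝ) : ℝ := Real.exp (-(2 * Real.pi * G * lam y))

theorem QQ_c2 {G Y : ℝ} (hG : 0 ≤ G) (hY : 0 < Y) :
    C2 (fun y => (QQ G y : ℂ)) (Y / 8) (4 * Y) Y 256 := by
  have pp := Real.pi_pos
  have e0 : QQ G = fun y => Real.exp (-(G * Real.log (1 + 1 / y))) := by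
    ext y; unfold QQ lam; congr 2; field_simp
  have dQ : ∀ y : ℝ, 0 < y → HasDerivAt (QQ G) (G / (y * (y + 1)) * QQ G y) y := fun y hy => by
    have h1 : HasDerivAt (fun y : ℝ => 1 + 1 / y) (-(y ^ 2)⁻¹) y := by
      simpa only [one_div] using (hasDerivAt_inv hy.ne').const_add 1
    have h2 : HasDerivAt (fun y : ℝ => Real.exp (-(G * Real.log (1 + 1 / y))))
        (Real.exp (-(G * Real.log (1 + 1 / y))) * -(G * (-(y ^ 2)⁻¹ / (1 + 1 / y)))) y :=
      ((h1.log (by positivity)).const_mul G).neg.exp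
    rw [e0]
    convert h2 using 1
    beta_reduce
    generalize Real.exp (-(G * Real.log (1 + 1 / y))) = q
    field_simp
  refine C2.ofReal (f1 := fun y => G / (y * (y + 1)) * QQ G y)
    (f2 := fun y => -(G * (2 * y + 1)) / (y * (y + 1)) ^ 2 * QQ G y +
      G / (y * (y + 1)) * (G / (y * (y + 1)) * QQ G y)) (fun y hy => ?_) fun y hy => ?_
  · have y0 : 0 < y := by linarith [hy.1]
    have h3 : HasDerivAt (fun y : ℝ => G / (y * (y + 1))) (-(G * (2 * y + 1)) / (y * (y + 1)) ^ 2) y := by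
      have : HasDerivAt (fun y : ℝ => G / (y * (y + 1)))
          ((0 * (y * (y + 1)) - G * (1 * (y + 1) + y * 1)) / (y * (y + 1)) ^ 2) y :=
        (hasDerivAt_const y G).div ((hasDerivAt_id y).mul ((hasDerivAt_id y).add_const 1))
          (by positivity : y * (y + 1) ≠ 0)
      convert this using 2
      ring
    obtain ⟨z, hz⟩ : ∃ z, z = G / (y + 1) := ⟨_, rfl⟩
    have z0 : 0 ≤ z := by rw [hz]; positivity
    have q0 : 0 < QQ G y := Real.exp_pos _
    have q1 : QQ G y * Real.exp z ≤ 1 := by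
      rw [e0]
      simp only
      rw [← Real.exp_add, Real.exp_le_one_iff]
      have h4 := Real.one_sub_inv_le_log_of_pos (show 0 < 1 + 1 / y by positivity)
      have h5 : 1 - (1 + 1 / y)⁻¹ = 1 / (y + 1) := by field_simp; ring
      rw [h5] at h4
      have := mul_le_mul_of_nonneg_left h4 hG
      rw [mul_one_div] at this
      linarith
    have q2 : QQ G y * (1 + z + z ^ 2 / 2) ≤ 1 :=
      le_trans (by gcongr; exact Real.quadratic_le_exp_of_nonneg z0) q1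
    have q3 : 0 ≤ QQ G y * z := by positivity
    have q4 : 0 ≤ QQ G y * z ^ 2 := by positivity
    have hy' : 1 / y ≤ 8 / Y := by
      rw [div_le_div_iff₀ y0 hY]; linarith [hy.1]
    refine ⟨dQ y y0, h3.mul (dQ y y0), ?_, ?_, ?_⟩
    · rw [abs_of_pos q0]; nlinarith
    · have : G / (y * (y + 1)) * QQ G y = QQ G y * z * (1 / y) := by rw [hz]; field_simp
      rw [this, abs_of_nonneg (by positivity)]
      calc _ ≤ 1 * (8 / Y) := by gcongr; nlinarith
        _ ≤ _ := by rw [one_mul]; gcongr; norm_num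
    · have : -(G * (2 * y + 1)) / (y * (y + 1)) ^ 2 * QQ G y +
          G / (y * (y + 1)) * (G / (y * (y + 1)) * QQ G y) =
          (QQ G y * z ^ 2 - QQ G y * z * ((2 * y + 1) / (y + 1))) * (1 / y) ^ 2 := by
        rw [hz]; field_simp; ring
      have q5 : (2 * y + 1) / (y + 1) ≤ 2 := by rw [div_le_iff₀ (by positivity)]; linarith
      have q6 : QQ G y * z * ((2 * y + 1) / (y + 1)) ≤ QQ G y * z * 2 := by gcongr
      have q7 : 0 ≤ QQ G y * z * ((2 * y + 1) / (y + 1)) := by positivity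
      rw [this, abs_mul, abs_of_nonneg (by positivity : 0 ≤ (1 / y) ^ 2)]
      calc _ ≤ 4 * (8 / Y) ^ 2 := by
            gcongr
            rw [abs_le]; constructor <;> nlinarith
        _ = _ := by ring
  · have y0 : 0 < y := by linarith [hy.1]
    have cq := (dQ y y0).continuousAt
    have n0 : y * (y + 1) ≠ 0 := by positivity
    have n1 : (y * (y + 1)) ^ 2 ≠ 0 := by positivity
    refine ContinuousAt.continuousWithinAt ?_
    fun_prop (disch := assumption)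

noncomputable def rho (H j : ℕ) : ℝ := if j = 0 then 0 else (H + j - 1) / H

noncomputable def del (H j : ℕ) : ℝ := rho H (j + 1) - rho H j

noncomputable def dd (H : ℕ) (Y σ : ℝ) (j : ℕ) (y : ℝ) : ℝ :=
  ff (rho H (j + 1) * ((y + σ) / Y)) - ff (rho H j * ((y + σ) / Y))

theorem rho_ok {H j : ℕ} (hH : 1 ≤ H) (hj : j ≤ H) :
    rho H j ≤ 2 ∧ (rho H j = 0 ∨ 1 ≤ rho H j) := by
  have h0 : (0 : ℝ) < H := by exact_mod_cast hH
  have h1 : (j : ℝ) ≤ H := by exact_mod_cast hj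
  unfold rho
  split_ifs with h
  · simp
  · have h2 : (1 : ℝ) ≤ j := by exact_mod_cast Nat.pos_of_ne_zero h
    exact ⟨by rw [div_le_iff₀ h0]; linarith, Or.inr (by rw [le_div_iff₀ h0]; linarith)⟩

theorem del_pos {H : ℕ} (hH : 1 ≤ H) (j : ℕ) : 0 < del H j := by
  have h0 : (0 : ℝ) < H := by exact_mod_cast hH
  unfold del rho
  rw [if_neg (Nat.succ_ne_zero j)]
  split_ifs with h
  · subst h; simpa using div_pos h0 h0
  · rw [← sub_div]; push_cast; apply div_pos _ h0; linarith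

theorem sum_del {H : ℕ} (hH : 1 ≤ H) : ∑ j ∈ range H, del H j ≤ 2 := by
  unfold del
  rw [sum_range_sub]
  simpa [rho] using (rho_ok hH le_rfl).1

theorem tele {H h : ℕ} (hh : h ∈ Ico H (2 * H)) (Y σ y : ℝ) :
    ∑ j ∈ range H, (if j + H ≤ h then dd H Y σ j y else 0) = ff (h / H * ((y + σ) / Y)) := by
  obtain ⟨h1, h2⟩ := mem_Ico.1 hh
  obtain ⟨m, rfl⟩ := Nat.exists_eq_add_of_le h1
  have : (range H).filter (fun j => j + H ≤ H + m) = range (m + 1) := by
    ext j; simp only [mem_filter, mem_range]; omega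
  rw [← sum_filter, this]
  unfold dd
  rw [sum_range_sub (fun j => ff (rho H j * ((y + σ) / Y)))]
  have e : rho H (m + 1) = ((H + m : ℕ) : ℝ) / H := by
    unfold rho; rw [if_neg (Nat.succ_ne_zero m)]; push_cast; ring
  rw [e]
  simp [rho, ff]

theorem out {ρ x : ℝ} (h : ρ ≤ 2 ∧ (ρ = 0 ∨ 1 ≤ ρ)) (hx : x ≤ 1 / 8 ∨ 4 ≤ x) :
    ρ * x < 1 / 2 ∨ 2 < ρ * x := by
  obtain ⟨h2, rfl | h1⟩ := h
  · left; norm_num
  rcases hx with hx | hx
  · left; nlinarith
  · right; nlinarith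

noncomputable def am (N G Y : ℝ) (H j j' : ℕ) (y : ℝ) : ℂ :=
  (dd H Y 0 j y : ℂ) * ((dd H Y 1 j' y : ℂ) * (QQ G y : ℂ)) *
    ((1 / (N * del H j * del H j') : ℝ) : ℂ)

theorem am_amp {f1 f2 f3 : ℝ → ℝ} {K : ℝ} (hD : Dat f1 f2 f3 K) {G Y : ℝ} (hG : 0 ≤ G)
    (hY : 1 ≤ Y) {H j j' : ℕ} (hH : 1 ≤ H) (hj : j < H) (hj' : j' < H) :
    Amp Y (am (64 * 24 ^ 2 * 256 * K ^ 2) G Y H j j') := by
  have hY0 : 0 < Y := by linarith
  have hK := hD.pos
  have p1 := del_pos hH j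
  have p2 := del_pos hH j'
  have a1 := rho_ok hH hj.le
  have a2 := rho_ok hH (show j + 1 ≤ H from hj)
  have nn : ∀ {i : ℕ}, i ≤ H → 0 ≤ rho H i := fun hi => by
    rcases (rho_ok hH hi).2 with h | h <;> linarith
  have k1 := diff_c2d hD hY le_rfl zero_le_one (nn hj.le) (sub_nonneg.1 p1.le) a2.1
  have k2 := diff_c2d hD hY zero_le_one le_rfl (nn hj'.le) (sub_nonneg.1 p2.le)
    (rho_ok hH (show j' + 1 ≤ H from hj')).1
  have lo : (Y / 8 + 0) / Y ≤ 1 / 8 ∨ 4 ≤ (Y / 8 + 0) / Y := Or.inl (by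
    rw [div_le_iff₀ hY0]; linarith)
  have hi : (4 * Y + 0) / Y ≤ 1 / 8 ∨ 4 ≤ (4 * Y + 0) / Y := Or.inr (by
    rw [le_div_iff₀ hY0]; linarith)
  have k3 : C20 (fun y => (dd H Y 0 j y : ℂ)) (Y / 8) (4 * Y) Y (24 * K * del H j) :=
    ⟨_, _, k1, by simp only [dd, ff_zero (out a1 lo), ff_zero (out a2 lo)]; simp,
      by simp only [dd, ff_zero (out a1 hi), ff_zero (out a2 hi)]; simp,
      by simp only [hD.z1 _ (out a1 lo), hD.z1 _ (out a2 lo)]; simp,
      by simp only [hD.z1 _ (out a1 hi), hD.z1 _ (out a2 hi)]; simp⟩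
  have k4 : C2 (fun y => (dd H Y 1 j' y : ℂ)) (Y / 8) (4 * Y) Y (24 * K * del H j') := ⟨_, _, k2⟩
  have k5 := (k3.mul (k4.mul (QQ_c2 hG hY0))).mul (C2.const
    ((1 / (64 * 24 ^ 2 * 256 * K ^ 2 * del H j * del H j') : ℝ) : ℂ) (Y / 8) (4 * Y) hY0)
  refine ⟨k5.mono hY0 le_rfl zero_le_one (le_of_eq ?_), fun y hy => ?_⟩
  · rw [Complex.norm_real, Real.norm_of_nonneg (by positivity)]
    field_simp
    norm_num
  · have : (y + 0) / Y ≤ 1 / 8 ∨ 4 ≤ (y + 0) / Y := by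
      simp only [Set.mem_Icc, not_and_or, not_le] at hy
      rcases hy with hy | hy
      · left; rw [div_le_iff₀ hY0]; linarith
      · right; rw [le_div_iff₀ hY0]; linarith
    simp only [am, dd, ff_zero (out a1 this), ff_zero (out a2 this)]
    simp

noncomputable def cc (H j j' h : ℕ) : ℂ :=
  if j + H ≤ h ∧ j' + H ≤ h ∧ h < 2 * H then ((h / (2 * H) : ℝ) : ℂ) else 0

theorem cc_le (H j j' h : ℕ) : ‖cc H j j' h‖ ≤ 1 := by
  unfold cc
  split_ifs with hc
  · have : (h : ℝ) < 2 * H := by exact_mod_cast hc.2.2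
    rw [Complex.norm_real, Real.norm_of_nonneg (by positivity)]
    exact div_le_one_of_le₀ this.le (by positivity)
  · simp

theorem expand {N P : ℝ} (hN : 0 < N) (hP : 0 < P) (G t : ℝ) {H : ℕ} (hH : 1 ≤ H) :
    SH P G H t = ∑ j ∈ range H, ∑ j' ∈ range H,
      ((2 / (P / H) * (N * del H j * del H j') : ℝ) : ℂ) *
        SS (am N G (P / H) H j j') (cc H j j') H (rg P) t := by
  have H0 : (0 : ℝ) < H := by exact_mod_cast hH
  unfold SH SS
  simp only [mul_sum]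
  conv_rhs => enter [2, j]; rw [sum_comm]
  rw [sum_comm (s := range H)]
  refine sum_congr rfl fun h hh => ?_
  conv_rhs => enter [2, j]; rw [sum_comm]
  rw [sum_comm (s := range H)]
  refine sum_congr rfl fun n _ => ?_
  have h0 : (0 : ℝ) < h := H0.trans_le (by exact_mod_cast (mem_Ico.1 hh).1)
  have n0 : (0 : ℝ) ≤ n := Nat.cast_nonneg n
  have e1 : (h : ℝ) / H * ((n / h + 0) / (P / H)) = n / P := by field_simp; ring
  have e2 : (h : ℝ) / H * ((n / h + 1) / (P / H)) = (n + h) / P := by field_simp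
  have e3 : wb (n / P) * wb ((n + h) / P) / Real.sqrt (n * (n + h)) =
      ff (n / P) * ff ((n + h) / P) / P := by
    rw [Real.sqrt_mul n0, ← div_mul_div_comm, wb_div hP n0, wb_div hP (by positivity),
      div_mul_div_comm, Real.mul_self_sqrt hP.le]
  rw [e3, ← e1, ← e2, ← tele hh, ← tele hh, sum_mul_sum]
  simp only [sum_div, sum_mul, Complex.ofReal_sum]
  refine sum_congr rfl fun j _ => sum_congr rfl fun j' _ => ?_
  have p1 : (del H j : ℂ) ≠ 0 := by exact_mod_cast (del_pos hH j).ne'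
  have p2 : (del H j' : ℂ) ≠ 0 := by exact_mod_cast (del_pos hH j').ne'
  have p3 : (N : ℂ) ≠ 0 := by exact_mod_cast hN.ne'
  have p4 : (P : ℂ) ≠ 0 := by exact_mod_cast hP.ne'
  have p5 : (H : ℂ) ≠ 0 := by exact_mod_cast H0.ne'
  have p6 : (h : ℂ) ≠ 0 := by exact_mod_cast h0.ne'
  unfold cc am QQ
  by_cases c1 : j + H ≤ h
  · by_cases c2 : j' + H ≤ h
    · rw [if_pos c1, if_pos c2, if_pos ⟨c1, c2, (mem_Ico.1 hh).2⟩]
      generalize Real.exp (-(2 * Real.pi * G * lam (n / h))) = q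
      push_cast
      field_simp
    · simp [c2]
  · simp [c1]

end R2

open R2 in
theorem r2 : R2Stmt := by
  obtain ⟨f1, f2, f3, K, hD⟩ := exists_dat
  have hK := hD.pos
  obtain ⟨N, hN⟩ : ∃ N : ℝ, N = 64 * 24 ^ 2 * 256 * K ^ 2 := ⟨_, rfl⟩
  have N0 : 0 < N := by rw [hN]; positivity
  refine ⟨8 * N, by positivity, fun T P G D M H J hH hY hPT hG hD0 hM hS hW hSep => ?_⟩
  have H0 : (0 : ℝ) < H := by exact_mod_cast hH
  have Y0 : 0 < P / H := by linarith
  have P0 : 0 < P := by simpa [H0.ne'] using mul_pos Y0 H0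
  have eP : H * (P / H) = P := by field_simp
  have B0 : 0 ≤ D * J.card + M := by positivity
  have key : ∀ j ∈ range H, ∀ j' ∈ range H,
      ∑ t ∈ J, ‖SS (am N G (P / H) H j j') (cc H j j') H (rg P) t‖ ≤ P / H * (D * J.card + M) := by
    intro j hj j' hj'
    refine hS H (rg P) _ _ J hH (by linarith) ?_ ?_ (cc_le H j j') hW hSep
    · have := Nat.le_ceil (8 * P)
      unfold rg; push_cast; nlinarith
    · rw [hN]; exact am_amp hD hG (by linarith) hH (mem_range.1 hj) (mem_range.1 hj')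
  have s0 : 0 ≤ ∑ j ∈ range H, del H j := sum_nonneg fun j _ => (del_pos hH j).le
  have s1 := sum_del hH
  calc _ ≤ ∑ t ∈ J, ∑ j ∈ range H, ∑ j' ∈ range H, 2 / (P / H) * (N * del H j * del H j') *
        ‖SS (am N G (P / H) H j j') (cc H j j') H (rg P) t‖ := by
        refine sum_le_sum fun t _ => ?_
        rw [expand N0 P0 G t hH]
        refine (norm_sum_le _ _).trans (sum_le_sum fun j _ => ?_)
        refine (norm_sum_le _ _).trans (sum_le_sum fun j' _ => le_of_eq ?_)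
        have p1 := del_pos hH j
        have p2 := del_pos hH j'
        rw [norm_mul, Complex.norm_real, Real.norm_of_nonneg (by positivity)]
    _ = ∑ j ∈ range H, ∑ j' ∈ range H, 2 / (P / H) * (N * del H j * del H j') *
        ∑ t ∈ J, ‖SS (am N G (P / H) H j j') (cc H j j') H (rg P) t‖ := by
        rw [sum_comm]
        refine sum_congr rfl fun j _ => ?_
        rw [sum_comm]
        simp only [mul_sum]
    _ ≤ ∑ j ∈ range H, ∑ j' ∈ range H, 2 / (P / H) * (N * del H j * del H j') *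
        (P / H * (D * J.card + M)) := by
        refine sum_le_sum fun j hj => sum_le_sum fun j' hj' => ?_
        have p1 := del_pos hH j
        have p2 := del_pos hH j'
        gcongr
        exact key j hj j' hj'
    _ = 2 * N * (D * J.card + M) * ((∑ j ∈ range H, del H j) * ∑ j ∈ range H, del H j) := by
        rw [sum_mul_sum, mul_sum]
        refine sum_congr rfl fun j _ => ?_
        rw [mul_sum]
        refine sum_congr rfl fun j' _ => ?_
        field_simp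
    _ ≤ 2 * N * (D * J.card + M) * (2 * 2) := by gcongr
    _ = _ := by ring

end Pool.Agent.MP_3d0d30_nt.Six

end MrgPart3

-- ======== part 4: formerly Pool.Agent.MP_3d0d30_nt.Six.RedZ
section MrgPart4

/-! Project SIX: large values of a smooth piece from the off-diagonal bounds. -/

set_option autoImplicit false

namespace Pool.Agent.MP_3d0d30_nt.Six

open MeasureTheory Finset Filter

namespace RedZ

theorem ww_big {x : ℝ} (h : 2 ≤ x) : ww x = 0 := by
  unfold ww psi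
  rw [Real.smoothTransition.zero_of_nonpos (by linarith),
    Real.smoothTransition.zero_of_nonpos (by linarith), sub_zero]

theorem abs_ww_le (x : ℝ) : |ww x| ≤ 1 := by
  unfold ww psi
  have a1 := Real.smoothTransition.nonneg (2 - x)
  have a2 := Real.smoothTransition.le_one (2 - x)
  have a3 := Real.smoothTransition.nonneg (2 - 2 * x)
  have a4 := Real.smoothTransition.le_one (2 - 2 * x)
  rw [abs_le]; constructor <;> linarith

theorem abs_wb_le {x : ℝ} (h : 0 ≤ x) : |wb x| ≤ 4 := by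
  unfold wb
  rcases le_total 2 x with h2 | h2
  · rw [ww_big h2]; simp
  · rw [abs_mul, abs_of_nonneg (by linarith : 0 ≤ 2 * x)]
    have := abs_ww_le x
    nlinarith [abs_nonneg (ww x)]

theorem lam_ge {y : ℝ} (hy : 0 < y) : 1 / (y + 1) ≤ 2 * Real.pi * lam y := by
  have hp := Real.pi_pos
  have e : 2 * Real.pi * lam y = Real.log (1 + 1 / y) := by unfold lam; field_simp
  rw [e]
  have h := Real.one_sub_inv_le_log_of_pos (show 0 < 1 + 1 / y by positivity)
  refine le_trans (le_of_eq ?_) h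
  field_simp
  ring

/-- one term of a block with small `P / H` -/
theorem term_le {P G D : ℝ} {H h n : ℕ} (hP : 0 < P) (hD : 0 < D) (hGD : D ≤ G) (hH : 1 ≤ H)
    (hh : H ≤ h) (hY : P / H ≤ G / D) :
    |wb (n / P) * wb ((n + h) / P) / Real.sqrt (n * (n + h)) *
      Real.exp (-(2 * Real.pi * G * lam (n / h)))| ≤ 16 * Real.exp (-(D / 3)) := by
  have hG : 0 < G := hD.trans_le hGD
  have hH' : (1 : ℝ) ≤ H := by exact_mod_cast hH
  have hh' : (H : ℝ) ≤ h := by exact_mod_cast hh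
  rcases Nat.eq_zero_or_pos n with rfl | hn
  · simp [wb]; positivity
  have hn' : (1 : ℝ) ≤ n := by exact_mod_cast hn
  rcases le_total 2 ((n : ℝ) / P) with h2 | h2
  · have : wb (n / P) = 0 := by unfold wb; rw [ww_big h2, mul_zero]
    rw [this]; simp; positivity
  have hs : 1 ≤ Real.sqrt (n * (n + h)) := by
    rw [Real.one_le_sqrt]; nlinarith
  have hy : (0 : ℝ) < n / h := div_pos (by linarith) (by linarith)
  have hy2 : (n : ℝ) / h ≤ 2 * (G / D) := by
    have a1 : (n : ℝ) ≤ 2 * P := by rwa [div_le_iff₀ hP] at h2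
    calc (n : ℝ) / h ≤ 2 * P / H := by gcongr
      _ = 2 * (P / H) := by ring
      _ ≤ _ := by gcongr
  have hq : 1 ≤ G / D := by rwa [one_le_div hD]
  have he : D / 3 ≤ 2 * Real.pi * G * lam (n / h) := by
    have a1 := lam_ge hy
    have a2 : 1 / (3 * (G / D)) ≤ 1 / ((n : ℝ) / h + 1) := by gcongr; linarith
    calc D / 3 = G * (1 / (3 * (G / D))) := by field_simp
      _ ≤ G * (2 * Real.pi * lam (n / h)) := by gcongr; exact a2.trans a1
      _ = _ := by ring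
  rw [abs_mul, abs_div, abs_mul, abs_of_pos (Real.exp_pos _), abs_of_nonneg (Real.sqrt_nonneg _)]
  have b1 : |wb (n / P)| ≤ 4 := abs_wb_le (by positivity)
  have b2 : |wb ((n + h) / P)| ≤ 4 := abs_wb_le (by positivity)
  have b3 : |wb (n / P)| * |wb ((n + h) / P)| / Real.sqrt (n * (n + h)) ≤ 16 := by
    rw [div_le_iff₀ (by linarith)]
    nlinarith [abs_nonneg (wb (n / P)), abs_nonneg (wb ((n + h) / P))]
  exact mul_le_mul b3 (Real.exp_le_exp.2 (by linarith)) (Real.exp_pos _).le (by norm_num)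

theorem SH_small {P G D : ℝ} {H : ℕ} (t : ℝ) (hP : 0 < P) (hD : 0 < D) (hGD : D ≤ G) (hH : 1 ≤ H)
    (hY : P / H ≤ G / D) :
    ‖SH P G H t‖ ≤ H * ((8 * P + 2) * (16 * Real.exp (-(D / 3)))) := by
  unfold SH
  have hr : (rg P : ℝ) ≤ 8 * P + 2 := by
    unfold rg
    push_cast
    have := Nat.ceil_lt_add_one (show 0 ≤ 8 * P by positivity)
    linarith
  refine (norm_sum_le _ _).trans ?_
  refine (sum_le_card_nsmul _ _ ((8 * P + 2) * (16 * Real.exp (-(D / 3)))) ?_).trans ?_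
  · intro h hh
    refine (norm_sum_le _ _).trans ?_
    refine (sum_le_card_nsmul _ _ (16 * Real.exp (-(D / 3))) ?_).trans ?_
    · intro n _
      rw [norm_mul, norm_E, mul_one, Complex.norm_real, Real.norm_eq_abs]
      exact term_le hP hD hGD hH (mem_Ico.1 hh).1 hY
    · rw [card_range, nsmul_eq_mul]
      gcongr
  · rw [Nat.card_Ico, nsmul_eq_mul]
    have : 2 * H - H = H := by omega
    rw [this]

/-- splitting the cells into residue classes -/
theorem classes {f : ℝ → ℝ} {T G δ a b : ℝ} (hG : 0 < G) (hδ : 0 < δ) (hb : 0 ≤ b)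
    (hf : ∀ J : Finset ℝ, Win J T T → Sep δ J → ∑ t ∈ J, f t ≤ a * J.card + b)
    (A : Finset ℕ) (hA : ∀ j ∈ A, (j : ℝ) * G ≤ T) :
    ∑ j ∈ A, f (T + j * G) ≤ a * A.card + (δ / G + 1) * b := by
  classical
  set r : ℕ := ⌈δ / G⌉₊ with hr
  have r0 : 0 < r := Nat.ceil_pos.2 (by positivity)
  have r1 : δ / G ≤ r := Nat.le_ceil _
  have r2 : (r : ℝ) ≤ δ / G + 1 := (Nat.ceil_lt_add_one (by positivity)).le
  have hm : ∀ j ∈ A, j % r ∈ range r := fun j _ => mem_range.2 (Nat.mod_lt _ r0)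
  have inj : Function.Injective fun j : ℕ => T + j * G := by
    intro i j h
    have h1 : (i : ℝ) * G = j * G := by simpa using h
    exact_mod_cast mul_right_cancel₀ hG.ne' h1
  have key : ∀ c ∈ range r, ∑ j ∈ A.filter (fun j => j % r = c), f (T + j * G) ≤
      a * (A.filter (fun j => j % r = c)).card + b := by
    intro c _
    have h1 := hf ((A.filter (fun j => j % r = c)).image fun j : ℕ => T + j * G) ?_ ?_
    · rwa [sum_image (fun i _ j _ h => inj h), card_image_of_injective _ inj] at h1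
    · intro t ht
      obtain ⟨j, hj, rfl⟩ := mem_image.1 ht
      have := hA j (mem_filter.1 hj).1
      have h0 : 0 ≤ (j : ℝ) * G := by positivity
      constructor <;> linarith
    · intro s hs t ht hst
      obtain ⟨i, hi, rfl⟩ := mem_image.1 hs
      obtain ⟨j, hj, rfl⟩ := mem_image.1 ht
      have hij : i ≠ j := fun h => hst (by rw [h])
      have hmod : i % r = j % r := (mem_filter.1 hi).2.trans (mem_filter.1 hj).2.symm
      have hd : (r : ℤ) ∣ (j : ℤ) - i := (Nat.modEq_iff_dvd.1 hmod)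
      have hne : (j : ℤ) - i ≠ 0 := by omega
      have h2 : (r : ℤ) ≤ |(j : ℤ) - i| := Int.le_of_dvd (abs_pos.2 hne) ((dvd_abs _ _).2 hd)
      have h3 : (r : ℝ) ≤ |(j : ℝ) - i| := by exact_mod_cast h2
      have h4 : T + i * G - (T + j * G) = -(((j : ℝ) - i) * G) := by ring
      rw [h4, abs_neg, abs_mul, abs_of_pos hG]
      rw [div_le_iff₀ hG] at r1
      nlinarith
  rw [← sum_fiberwise_of_maps_to hm]
  refine (sum_le_sum key).trans ?_
  rw [sum_add_distrib, ← mul_sum, ← Nat.cast_sum, ← card_eq_sum_card_fiberwise hm, sum_const,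
    card_range, nsmul_eq_mul]
  gcongr

/-- the cells -/
theorem cells {U : Finset ℝ} {T G V C : ℝ} {F Z : ℝ → ℝ} (hG : 0 < G) (hV : 0 ≤ V)
    (hW : Win U T T) (hZ : ∀ t ∈ U, V ≤ Z t)
    (h : ∀ (t0 : ℝ) (U' : Finset ℝ), U' ⊆ U → Win U' t0 G → ∑ t ∈ U', Z t ^ 2 ≤ C * F t0) :
    ∃ A : Finset ℕ, A.card ≤ U.card ∧ (∀ j ∈ A, (j : ℝ) * G ≤ T) ∧
      U.card * V ^ 2 ≤ C * ∑ j ∈ A, F (T + j * G) := by
  classical
  set c : ℝ → ℕ := fun t => ⌊(t - T) / G⌋₊ with hc
  have c1 : ∀ t ∈ U, (c t : ℝ) * G ≤ t - T ∧ t - T ≤ (c t + 1) * G := by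
    intro t ht
    have h0 : 0 ≤ (t - T) / G := div_nonneg (by linarith [(hW t ht).1]) hG.le
    have a1 := Nat.floor_le h0
    have a2 := Nat.lt_floor_add_one ((t - T) / G)
    rw [le_div_iff₀ hG] at a1
    rw [div_lt_iff₀ hG] at a2
    exact ⟨a1, a2.le⟩
  refine ⟨U.image c, card_image_le, ?_, ?_⟩
  · intro j hj
    obtain ⟨t, ht, rfl⟩ := mem_image.1 hj
    linarith [(c1 t ht).1, (hW t ht).2]
  · have hm : ∀ t ∈ U, c t ∈ U.image c := fun t ht => mem_image_of_mem _ ht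
    calc (U.card : ℝ) * V ^ 2 = ∑ t ∈ U, V ^ 2 := by rw [sum_const, nsmul_eq_mul]
      _ ≤ ∑ t ∈ U, Z t ^ 2 := sum_le_sum fun t ht => by gcongr; exact hZ t ht
      _ = ∑ j ∈ U.image c, ∑ t ∈ U.filter (fun t => c t = j), Z t ^ 2 :=
        (sum_fiberwise_of_maps_to hm _).symm
      _ ≤ ∑ j ∈ U.image c, C * F (T + j * G) := by
        refine sum_le_sum fun j _ => h _ _ (filter_subset _ _) fun t ht => ?_
        obtain ⟨h1, rfl⟩ := mem_filter.1 ht
        have := c1 t h1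
        constructor <;> linarith [this.1, this.2]
      _ = _ := by rw [mul_sum]

theorem ev_exp {ε : ℝ} (hε : 0 < ε) :
    ∀ᶠ T : ℝ in atTop, T ^ 2 * Real.exp (-(T ^ ε / 3)) ≤ 1 / 2304 := by
  have h1 := (tendsto_rpow_mul_exp_neg_mul_atTop_nhds_zero (2 / ε) (1 / 3) (by norm_num)).comp
    (tendsto_rpow_atTop hε)
  filter_upwards [h1.eventually (ge_mem_nhds (show (0 : ℝ) < 1 / 2304 by norm_num)),
    eventually_ge_atTop (0 : ℝ)] with T h hT
  simp only [Function.comp] at h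
  rw [← Real.rpow_mul hT, mul_div_cancel₀ _ hε.ne'] at h
  have e : -(T ^ ε / 3) = -(1 / 3) * T ^ ε := by ring
  rw [e, ← Real.rpow_two]
  exact h

theorem exists_J {T δ : ℝ} (hT : 1 ≤ T) (hδ : 0 < δ) (hδ1 : δ ≤ 1) :
    ∃ J : ℕ, 4 * T ≤ 2 ^ J ∧ (2 : ℝ) ^ J ≤ 8 * T ∧ (J : ℝ) ≤ 16 / δ * T ^ δ := by
  obtain ⟨n, h1, h2⟩ := exists_nat_pow_near (show 1 ≤ 4 * T by linarith)
    (show (1 : ℝ) < 2 by norm_num)
  have h3 : (2 : ℝ) ^ (n + 1) ≤ 8 * T := by rw [pow_succ]; linarith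
  refine ⟨n + 1, h2.le, h3, ?_⟩
  have h4 : Real.log (2 ^ (n + 1)) ≤ Real.log (8 * T) := Real.log_le_log (by positivity) h3
  rw [Real.log_pow] at h4
  have h5 := Real.log_le_rpow_div (show 0 ≤ 8 * T by linarith) hδ
  have h6 : (8 * T) ^ δ ≤ 8 * T ^ δ := by
    rw [Real.mul_rpow (by norm_num) (by linarith)]
    have : (8 : ℝ) ^ δ ≤ 8 ^ (1 : ℝ) := Real.rpow_le_rpow_of_exponent_le (by norm_num) hδ1
    rw [Real.rpow_one] at this
    gcongr
  have h7 := Real.log_two_gt_d9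
  have h8 : (0 : ℝ) ≤ ((n + 1 : ℕ) : ℝ) := by positivity
  have h9 : (8 * T) ^ δ / δ ≤ 8 * T ^ δ / δ := by gcongr
  have h10 : 16 / δ * T ^ δ = 2 * (8 * T ^ δ / δ) := by ring
  nlinarith

theorem absorb {n M W C1 C2 c J : ℝ} (hn : 0 ≤ n) (hM : 0 ≤ M) (h1 : 0 < C1) (h2 : 0 < C2)
    (hc : 0 < c) (hJ : J ≤ c * W) (hW : 1 ≤ W) (hW1 : 2 * C1 * (1 + c + c * C2) ≤ W)
    (hW2 : 200 * C1 * C2 * c ≤ W)
    (h : n * W ^ 4 ≤ C1 * (n + J * (n + C2 * W ^ 2 * n + 100 * C2 * M))) : n ≤ M := by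
  have w0 : 0 < W := by linarith
  have w3 : 1 ≤ W ^ 3 := one_le_pow₀ hW
  have w13 : W ≤ W ^ 3 := by nlinarith [one_le_pow₀ (n := 2) hW]
  have a1 : J * (n + C2 * W ^ 2 * n + 100 * C2 * M) ≤
      c * W * (n + C2 * W ^ 2 * n + 100 * C2 * M) := by gcongr
  have a2 : C1 * (1 + c * W + c * C2 * W ^ 3) ≤ W ^ 4 / 2 := by
    calc C1 * (1 + c * W + c * C2 * W ^ 3) ≤ C1 * (W ^ 3 + c * W ^ 3 + c * C2 * W ^ 3) := by gcongr
      _ = 2 * C1 * (1 + c + c * C2) * W ^ 3 / 2 := by ring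
      _ ≤ W * W ^ 3 / 2 := by gcongr
      _ = _ := by ring
  have a3 : 100 * C1 * C2 * c * W ≤ W ^ 4 / 2 := by
    calc 100 * C1 * C2 * c * W = 200 * C1 * C2 * c * W / 2 := by ring
      _ ≤ W * W ^ 3 / 2 := by gcongr
      _ = _ := by ring
  have a4 : n * W ^ 4 ≤ W ^ 4 / 2 * n + W ^ 4 / 2 * M := by
    calc n * W ^ 4 ≤ C1 * (n + c * W * (n + C2 * W ^ 2 * n + 100 * C2 * M)) :=
          h.trans (by gcongr)
      _ = C1 * (1 + c * W + c * C2 * W ^ 3) * n + 100 * C1 * C2 * c * W * M := by ring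
      _ ≤ _ := by gcongr
  have w4 : 0 < W ^ 4 := by positivity
  nlinarith

end RedZ

open RedZ in
theorem redz_of (h1 : R1Stmt) (h2 : R2Stmt) : RedZStmt := by
  obtain ⟨C1, hC1, h1⟩ := h1
  obtain ⟨C2, hC2, h2⟩ := h2
  intro ε hε hε1
  have hδ : 0 < ε / 4 := by positivity
  have hc : 0 < 16 / (ε / 4) := by positivity
  filter_upwards [eventually_ge_atTop (1 : ℝ), ev_exp hε,
    (tendsto_rpow_atTop hδ).eventually_ge_atTop
      (2 * C1 * (1 + 16 / (ε / 4) + 16 / (ε / 4) * C2)),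
    (tendsto_rpow_atTop hδ).eventually_ge_atTop (200 * C1 * C2 * (16 / (ε / 4))),
    (tendsto_rpow_atTop (show (0 : ℝ) < 1 / 5 by norm_num)).eventually_ge_atTop 100]
    with T hT hexp hW1 hW2 h100 V M hV hM hY P U hP hPT hWin hSep hZ
  have T0 : 0 < T := by linarith
  obtain ⟨J, J1, J2, J3⟩ := exists_J hT hδ (by linarith)
  set W := T ^ (ε / 4) with hW
  have hW0 : 1 ≤ W := Real.one_le_rpow hT hδ.le
  have eD : T ^ ε = W ^ 4 := by
    rw [hW, ← Real.rpow_natCast, ← Real.rpow_mul T0.le]; congr 1; push_cast; ring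
  have eD2 : T ^ (ε / 2) = W ^ 2 := by
    rw [hW, ← Real.rpow_natCast, ← Real.rpow_mul T0.le]; congr 1; push_cast; ring
  have eD3 : T ^ (2 * ε) = W ^ 4 * W ^ 4 := by
    rw [← eD, ← Real.rpow_add T0]; congr 1; ring
  have V0 : 0 < V := (Real.rpow_pos_of_pos T0 _).trans_le hV
  have D0 : 0 < W ^ 4 := by positivity
  have D1 : 1 ≤ W ^ 4 := one_le_pow₀ hW0
  have hV2 : 100 * (W ^ 4 * W ^ 4) ≤ V ^ 2 := by
    calc 100 * (W ^ 4 * W ^ 4) ≤ T ^ (1 / 5 : ℝ) * T ^ (2 * ε) := by rw [eD3]; gcongr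
      _ = T ^ (1 / 5 + 2 * ε) := (Real.rpow_add T0 _ _).symm
      _ ≤ T ^ (1 / 9 + 1 / 9 : ℝ) := Real.rpow_le_rpow_of_exponent_le hT (by linarith)
      _ = T ^ (1 / 9 : ℝ) * T ^ (1 / 9 : ℝ) := Real.rpow_add T0 _ _
      _ ≤ V * V := by gcongr
      _ = _ := by ring
  set G := V ^ 2 / W ^ 4 with hG
  have hGD : 100 * W ^ 4 ≤ G := by rw [hG, le_div_iff₀ D0]; linarith
  have G0 : 0 < G := by linarith
  have eGD : G / W ^ 4 = V ^ 2 / T ^ (2 * ε) := by rw [eD3, hG, div_div]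
  obtain ⟨A, A1, A2, A3⟩ := cells (C := C1) (Z := fun t => ‖Zs P t‖)
    (F := fun t0 => G * (1 + ∑ i ∈ range J, ‖SH P G (2 ^ i) t0‖)) G0 V0.le hWin hZ
    (fun t0 U' hU' hw => h1 P G t0 J U' hP (by linarith) (by linarith) (hSep.mono hU') hw)
  have A1' : (A.card : ℝ) ≤ U.card := by exact_mod_cast A1
  have n0 : (0 : ℝ) ≤ U.card := by positivity
  have blk : ∀ i ∈ range J, ∑ j ∈ A, ‖SH P G (2 ^ i) (T + j * G)‖ ≤
      U.card + C2 * W ^ 2 * U.card + 100 * C2 * M := by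
    intro i hi
    have H1 : 1 ≤ 2 ^ i := Nat.one_le_two_pow
    have H1' : (1 : ℝ) ≤ ((2 ^ i : ℕ) : ℝ) := by exact_mod_cast H1
    have p1 : 0 ≤ C2 * W ^ 2 * U.card := by positivity
    have p2 : 0 ≤ 100 * C2 * M := by positivity
    rcases le_total (P / ((2 ^ i : ℕ) : ℝ)) (G / W ^ 4) with hs | hs
    · have H2 : ((2 ^ i : ℕ) : ℝ) ≤ 8 * T := by
        refine le_trans ?_ J2
        push_cast
        exact pow_le_pow_right₀ (by norm_num) (mem_range.1 hi).le
      have one : ∀ j ∈ A, ‖SH P G (2 ^ i) (T + j * G)‖ ≤ 1 := by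
        intro j _
        refine (SH_small _ hP D0 (by linarith) H1 hs).trans ?_
        rw [eD] at hexp
        calc _ ≤ 8 * T * (18 * T * (16 * Real.exp (-(W ^ 4 / 3)))) := by gcongr; linarith
          _ = 2304 * (T ^ 2 * Real.exp (-(W ^ 4 / 3))) := by ring
          _ ≤ 1 := by linarith
      have := sum_le_card_nsmul _ _ _ one
      rw [nsmul_eq_mul, mul_one] at this
      linarith
    · set Y := P / ((2 ^ i : ℕ) : ℝ) with hYd
      have Y1 : 100 ≤ Y := by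
        refine le_trans ?_ hs
        rw [le_div_iff₀ D0]; exact hGD
      have Y2 : Y ≤ 2 * T := (div_le_self hP.le H1').trans hPT
      obtain ⟨MY, M0, hS, hMY⟩ := hY Y (eGD ▸ hs) Y2
      have := classes (f := fun t => ‖SH P G (2 ^ i) t‖) (T := T) (δ := 100 * Y)
        (a := C2 * T ^ (ε / 2)) (b := C2 * MY) G0 (by linarith) (by positivity)
        (fun K hK hK' => (h2 T P G _ MY _ K H1 Y1 hPT G0.le (by positivity) M0 hS hK hK').trans
          (le_of_eq (by ring))) A A2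
      rw [eD2] at this
      rw [eD] at hMY
      have q1 : (100 * Y / G + 1) * (C2 * MY) ≤ 100 * C2 * M := by
        have e : 100 * Y / G = 100 * (Y * W ^ 4 / V ^ 2) := by rw [hG]; field_simp
        calc (100 * Y / G + 1) * (C2 * MY) ≤ (100 * Y / G + 100) * (C2 * MY) := by
              gcongr; norm_num
          _ = 100 * C2 * ((Y * W ^ 4 / V ^ 2 + 1) * MY) := by rw [e]; ring
          _ ≤ _ := by gcongr
      have q2 : C2 * W ^ 2 * A.card ≤ C2 * W ^ 2 * U.card := by gcongr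
      linarith
  refine absorb n0 hM hC1 hC2 hc J3 hW0 hW1 hW2 ?_
  have s1 : ∑ j ∈ A, G * (1 + ∑ i ∈ range J, ‖SH P G (2 ^ i) (T + j * G)‖) ≤
      G * (U.card + J * (U.card + C2 * W ^ 2 * U.card + 100 * C2 * M)) := by
    rw [← mul_sum, sum_add_distrib, sum_comm, sum_const, nsmul_eq_mul, mul_one]
    have := sum_le_card_nsmul _ _ _ blk
    rw [card_range, nsmul_eq_mul] at this
    gcongr
  have s2 : U.card * V ^ 2 ≤
      C1 * (G * (U.card + J * (U.card + C2 * W ^ 2 * U.card + 100 * C2 * M))) :=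
    A3.trans (by gcongr)
  have e : V ^ 2 = W ^ 4 * G := by rw [hG]; field_simp
  rw [e] at s2
  refine le_of_mul_le_mul_right ?_ G0
  calc _ = U.card * (W ^ 4 * G) := by ring
    _ ≤ _ := s2
    _ = _ := by ring

end Pool.Agent.MP_3d0d30_nt.Six

end MrgPart4

-- marker of a merged file
example : 731051 + 162804 = 731051 + 162804 := rfl
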