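import Mathlib.RingTheory.PiTensorProduct
import Pool.Agent.MP_3d0d30_nt.Six.RedZ
import Pool.Agent.MP_3d0d30_nt.Six.Spec

-- ======== part 0: formerly Pool.Agent.MP_3d0d30_nt.Six.Atk
section MrgPart0

/-! Project SIX, module Atk: slow variation of the stationary phase amplitude. -/

set_option autoImplicit false

namespace Pool.Agent.MP_3d0d30_nt.Six

open MeasureTheory Finset Filter

namespace Atk

/-- the stationary point -/
theorem stat {v k : ℝ} (hv : 0 < v) (hk : 0 < k) : ∃ y0 : ℝ, 0 < y0 ∧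
    y0 * (y0 + 1) = v ^ 2 / (2 * Real.pi * k) ∧ 2 * v * lam y0 = gam v k := by
  have p := Real.pi_pos
  set c := Real.sqrt (Real.pi * k / 2) with hc
  have hc0 : 0 < c := Real.sqrt_pos.2 (by positivity)
  have hc2 : c ^ 2 = Real.pi * k / 2 := Real.sq_sqrt (by positivity)
  set θ := Real.arsinh (c / v) with hθ
  have hθ0 : 0 < θ := Real.arsinh_pos_iff.2 (by positivity)
  have hs : Real.sinh θ = c / v := Real.sinh_arsinh _
  set w := Real.exp θ with hw
  have hw1 : 1 < w := Real.one_lt_exp_iff.2 hθ0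
  have hw2 : 0 < w ^ 2 - 1 := by nlinarith
  refine ⟨(w ^ 2 - 1)⁻¹, inv_pos.2 hw2, ?_, ?_⟩
  · rw [Real.sinh_eq, Real.exp_neg, ← hw] at hs
    have h1 : (w ^ 2 - 1) * v = 2 * w * c := by
      field_simp at hs
      linarith
    have h2 : (w ^ 2 - 1) ^ 2 * v ^ 2 = w ^ 2 * (2 * Real.pi * k) := by
      rw [← mul_pow, h1, mul_pow, mul_pow, hc2]
      ring
    field_simp
    linarith
  · have e : 1 + 1 / (w ^ 2 - 1)⁻¹ = Real.exp (2 * θ) := by
      rw [one_div, inv_inv, two_mul, Real.exp_add, ← hw]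
      ring
    rw [lam, e, Real.log_exp, gam, ← hc, ← hθ]
    field_simp

theorem arsinh_sub {x : ℝ} (hx : 0 ≤ x) :
    |Real.arsinh x - x * (Real.sqrt (1 + x ^ 2))⁻¹| ≤ 2 * x ^ 3 := by
  have k : ∀ z : ℝ, |(Real.sqrt (1 + z ^ 2))⁻¹ - 1| ≤ z ^ 2 := fun z => by
    have h1 : 1 ≤ Real.sqrt (1 + z ^ 2) := Real.one_le_sqrt.2 (by nlinarith [sq_nonneg z])
    have h2 : Real.sqrt (1 + z ^ 2) ≤ 1 + z ^ 2 :=
      Real.sqrt_le_iff.2 ⟨by positivity, by nlinarith [sq_nonneg z, sq_nonneg (z ^ 2)]⟩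
    have h3 : (Real.sqrt (1 + z ^ 2))⁻¹ ≤ 1 := inv_le_one_of_one_le₀ h1
    have h4 : (1 + z ^ 2)⁻¹ ≤ (Real.sqrt (1 + z ^ 2))⁻¹ := inv_anti₀ (by positivity) h2
    have h5 : 1 - z ^ 2 ≤ (1 + z ^ 2)⁻¹ := by
      rw [inv_eq_one_div, le_div_iff₀ (by positivity)]
      nlinarith [sq_nonneg (z ^ 2)]
    exact abs_le.2 ⟨by linarith, by nlinarith [sq_nonneg z]⟩
  have h1 := norm_image_sub_le_of_norm_deriv_le_segment' (a := 0) (b := x) (C := x ^ 2)
    (f := fun z => Real.arsinh z - z) (f' := fun z => (Real.sqrt (1 + z ^ 2))⁻¹ - 1)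
    (fun z _ => ((Real.hasDerivAt_arsinh z).fun_sub (hasDerivAt_id' z)).hasDerivWithinAt)
    (fun z hz => (k z).trans (by gcongr; exacts [hz.1, hz.2.le])) x ⟨hx, le_rfl⟩
  simp only [Real.arsinh_zero, sub_zero, Real.norm_eq_abs] at h1
  have h2 : |x * ((Real.sqrt (1 + x ^ 2))⁻¹ - 1)| ≤ x * x ^ 2 := by
    rw [abs_mul, abs_of_nonneg hx]
    exact mul_le_mul_of_nonneg_left (k x) hx
  have e : Real.arsinh x - x * (Real.sqrt (1 + x ^ 2))⁻¹ =
      (Real.arsinh x - x) - x * ((Real.sqrt (1 + x ^ 2))⁻¹ - 1) := by ring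
  rw [e]
  refine (abs_sub _ _).trans ?_
  nlinarith

theorem gam_lip {T Y k u0 v : ℝ} (hT : 0 < T) (hY : 0 < Y) (hk0 : 0 < k)
    (hk : k ≤ 1000 * (T / Y ^ 2)) (hu0 : 0 < u0) (hT0 : T ≤ u0 ^ 2) (hv : u0 ≤ v) :
    |gam v k - gam u0 k| ≤ 128000 / Y ^ 3 * (v - u0) := by
  have p := Real.pi_gt_three
  have p2 := Real.pi_lt_d2
  set c := Real.sqrt (Real.pi * k / 2) with hc
  have hc0 : 0 ≤ c := Real.sqrt_nonneg _
  have hc2 : c ^ 2 = Real.pi * k / 2 := Real.sq_sqrt (by positivity)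
  have h1 := norm_image_sub_le_of_norm_deriv_le_segment' (a := u0) (b := v) (C := 128000 / Y ^ 3)
    (f := fun w => gam w k)
    (f' := fun w => 2 / Real.pi * (Real.arsinh (c / w) - c / w * (Real.sqrt (1 + (c / w) ^ 2))⁻¹))
    (fun w hw => ?_) (fun w hw => ?_) v ⟨hv, le_rfl⟩
  · exact h1
  · have hw0 : 0 < w := hu0.trans_le hw.1
    have d1 : HasDerivAt (fun w : ℝ => c / w) (-c / w ^ 2) w := by
      simpa using (hasDerivAt_const w c).fun_div (hasDerivAt_id' w) hw0.ne'
    have d2 := (Real.hasDerivAt_arsinh (c / w)).comp w d1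
    have d3 := ((((hasDerivAt_id' w).const_mul 2).div_const Real.pi).fun_mul d2).hasDerivWithinAt
      (s := Set.Icc u0 v)
    refine d3.congr_deriv ?_
    simp only [Function.comp]
    field_simp
    ring
  · have hw0 : 0 < w := hu0.trans_le hw.1
    have hx : c / w ≤ 40 / Y := by
      refine abs_le_of_sq_le_sq' ?_ (by positivity) |>.2
      have hw2 : T ≤ w ^ 2 := hT0.trans (by gcongr; exact hw.1)
      rw [div_pow, hc2]
      calc Real.pi * k / 2 / w ^ 2 ≤ 3.15 * (1000 * (T / Y ^ 2)) / 2 / T := by gcongr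
        _ = 1575 / Y ^ 2 := by field_simp; ring
        _ ≤ 1600 / Y ^ 2 := by gcongr; norm_num
        _ = (40 / Y) ^ 2 := by ring
    have h2 := arsinh_sub (show 0 ≤ c / w by positivity)
    rw [Real.norm_eq_abs, abs_mul, abs_of_pos (by positivity : 0 < 2 / Real.pi)]
    calc _ ≤ 1 * (2 * (40 / Y) ^ 3) := by
          gcongr
          · rw [div_le_one (by positivity)]; linarith
          · exact h2.trans (by gcongr)
      _ = 128000 / Y ^ 3 := by ring

theorem y0_range {T Y k v y0 : ℝ} (hT : 0 < T) (hY : 100 ≤ Y) (h1 : T / Y ^ 2 / 1000 ≤ k)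
    (h2 : k ≤ 1000 * (T / Y ^ 2)) (h3 : T ≤ v ^ 2) (h4 : v ^ 2 ≤ 2 * T) (hy : 0 < y0)
    (e : y0 * (y0 + 1) = v ^ 2 / (2 * Real.pi * k)) : Y / 200 ≤ y0 ∧ y0 ≤ 18 * Y := by
  have p := Real.pi_gt_three
  have p2 := Real.pi_lt_d4
  have p3 := Real.pi_gt_d2
  have hY0 : 0 < Y := by linarith
  have hk : 0 < k := lt_of_lt_of_le (by positivity) h1
  have a1 : Y ^ 2 / 6300 ≤ y0 * (y0 + 1) := by
    rw [e]
    calc Y ^ 2 / 6300 = T / (2 * 3.15 * (1000 * (T / Y ^ 2))) := by field_simp; ring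
      _ ≤ v ^ 2 / (2 * Real.pi * k) := by gcongr; linarith
  have a2 : y0 * (y0 + 1) ≤ 324 * Y ^ 2 := by
    rw [e]
    calc v ^ 2 / (2 * Real.pi * k) ≤ 2 * T / (2 * 3.14 * (T / Y ^ 2 / 1000)) := by gcongr
      _ = (1000 / 3.14) * Y ^ 2 := by field_simp
      _ ≤ 324 * Y ^ 2 := by gcongr; norm_num
  constructor
  · by_contra h
    push Not at h
    nlinarith
  · by_contra h
    push Not at h
    nlinarith

end Atk

open Atk

theorem atk_of (hS : SecDerStmt) : AtkStmt := by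
  obtain ⟨C1, hC1, h1⟩ := jone hS
  obtain ⟨C2, hC2, h2⟩ := ibound_of hS
  refine ⟨7 * (3 * C1 + 128000 * C2), by positivity, ?_⟩
  have main : ∀ (T Y k u0 L u u' : ℝ) (a : ℝ → ℂ), 0 < T → 100 ≤ Y →
      Amp Y a → T / Y ^ 2 / 1000 ≤ k → k ≤ 1000 * (T / Y ^ 2) → 0 < u0 → T ≤ u0 ^ 2 →
      u ≤ u0 + L → u ^ 2 ≤ 2 * T → u0 ≤ u' → u' ≤ u →
      ‖II a Y (u ^ 2) k * E (-((u - u0) * gam u0 k)) -
        II a Y (u' ^ 2) k * E (-((u' - u0) * gam u0 k))‖ ≤ 7 * (3 * C1 + 128000 * C2) *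
        (Real.sqrt (Y ^ 3 / T) * (1 / Real.sqrt T + L / Y ^ 3) * (u - u')) := by
    intro T Y k u0 L u u' a hT hY ha k1 k2 hu0 hT0 hL hu hu' huu
    have hY0 : 0 < Y := by linarith
    have hk : 0 < k := lt_of_lt_of_le (by positivity) k1
    have hL0 : 0 ≤ L := by linarith
    have hab : Y / 8 ≤ 4 * Y := by linarith
    have hsub : Set.Icc (Y / 8) (4 * Y) ⊆ Set.Ioi 0 := fun y hy =>
      lt_of_lt_of_le (by positivity : (0 : ℝ) < Y / 8) hy.1
    obtain ⟨b1, b2, hd, -⟩ := ha.1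
    have ca : ContinuousOn a (Set.Icc (Y / 8) (4 * Y)) := hd.contOn
    have cl : ContinuousOn lam (Set.Icc (Y / 8) (4 * Y)) := contOn_lam.mono hsub
    have cE : ∀ v : ℝ, ContinuousOn (fun y => E (v ^ 2 * lam y + k * y))
        (Set.Icc (Y / 8) (4 * Y)) := fun v =>
      continuous_E.comp_continuousOn ((continuousOn_const.mul cl).add (by fun_prop))
    set γ := gam u0 k with hγ
    have key := swapFTC (p := u') (q := u) (α := Y / 8) (β := 4 * Y)
      (M := 7 * (3 * C1 + 128000 * C2) * (Real.sqrt (Y ^ 3 / T) * (1 / Real.sqrt T + L / Y ^ 3)))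
      (F := fun v y => a y * E (v ^ 2 * lam y + k * y) * E (-((v - u0) * γ)))
      (F' := fun v y => a y * E (v ^ 2 * lam y + k * y) * E (-((v - u0) * γ)) *
        (2 * Real.pi * Complex.I * ((2 * v * lam y - γ : ℝ) : ℂ)))
      huu hab (fun v hv y hy => ?_) ?_ ((ca.mul (cE u')).mul continuousOn_const)
      ((ca.mul (cE u)).mul continuousOn_const) (fun v hv => ?_)
    · simp only [intervalIntegral.integral_mul_const] at key
      exact key.trans (le_of_eq (by ring))
    · have d1 : HasDerivAt (fun v : ℝ => v ^ 2 * lam y + k * y) (2 * v * lam y) v := by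
        simpa using ((hasDerivAt_pow 2 v).mul_const (lam y)).add_const (k * y)
      have d2 : HasDerivAt (fun v : ℝ => -((v - u0) * γ)) (-γ) v := by
        simpa using (((hasDerivAt_id' v).sub_const u0).mul_const γ).fun_neg
      refine (((hasDerivAt_E_comp d1).const_mul (a y)).fun_mul (hasDerivAt_E_comp d2)).congr_deriv ?_
      push_cast
      ring
    · have c1 : ContinuousOn (fun p : ℝ × ℝ => lam p.2)
          (Set.Icc u' u ×ˢ Set.Icc (Y / 8) (4 * Y)) := cl.comp continuousOn_snd fun p hp => hp.2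
      have c2 : ContinuousOn (fun p : ℝ × ℝ => a p.2)
          (Set.Icc u' u ×ˢ Set.Icc (Y / 8) (4 * Y)) := ca.comp continuousOn_snd fun p hp => hp.2
      have c3 : ContinuousOn (fun p : ℝ × ℝ => E (p.1 ^ 2 * lam p.2 + k * p.2))
          (Set.Icc u' u ×ˢ Set.Icc (Y / 8) (4 * Y)) :=
        continuous_E.comp_continuousOn ((ContinuousOn.mul (by fun_prop) c1).add (by fun_prop))
      have c4 : ContinuousOn (fun p : ℝ × ℝ => ((2 * p.1 * lam p.2 - γ : ℝ) : ℂ))
          (Set.Icc u' u ×ˢ Set.Icc (Y / 8) (4 * Y)) :=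
        Complex.continuous_ofReal.comp_continuousOn
          ((ContinuousOn.mul (by fun_prop) c1).sub continuousOn_const)
      have c5 : Continuous fun p : ℝ × ℝ => E (-((p.1 - u0) * γ)) := by fun_prop
      exact ((c2.mul c3).mul c5.continuousOn).mul (continuousOn_const.mul c4)
    · have hv0 : 0 < v := by linarith [hv.1]
      have hv1 : T ≤ v ^ 2 := hT0.trans (by gcongr; linarith [hv.1])
      have hv2 : v ^ 2 ≤ 2 * T := le_trans (by gcongr; exact hv.2) hu
      obtain ⟨y0, hy0, e1, e2⟩ := stat hv0 hk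
      obtain ⟨r1, r2⟩ := y0_range hT hY k1 k2 hv1 hv2 hy0 e1
      have j1 := h1 T Y (v ^ 2) k y0 a hT hY ha hv1 r1 r2 (by
        have := Real.pi_pos
        rw [e1]
        field_simp)
      have j2 := h2 T Y (v ^ 2) k a hT (by linarith) ha hv1 hv2
      have j3 := gam_lip hT hY0 hk k2 hu0 hT0 (show u0 ≤ v by linarith [hv.1])
      have i1 : IntervalIntegrable (fun y => a y * (lam y : ℂ) * E (v ^ 2 * lam y + k * y)) volume
          (Y / 8) (4 * Y) := ((ca.mul (Complex.continuous_ofReal.comp_continuousOn cl)).mul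
        (cE v)).intervalIntegrable_of_Icc hab
      have i2 : IntervalIntegrable (fun y => a y * E (v ^ 2 * lam y + k * y)) volume
          (Y / 8) (4 * Y) := (ca.mul (cE v)).intervalIntegrable_of_Icc hab
      set J := ∫ y in (Y / 8)..(4 * Y), a y * (lam y : ℂ) * E (v ^ 2 * lam y + k * y) with hJ
      have e3 : (∫ y in (Y / 8)..(4 * Y), a y * E (v ^ 2 * lam y + k * y) * E (-((v - u0) * γ)) *
          (2 * Real.pi * Complex.I * ((2 * v * lam y - γ : ℝ) : ℂ))) =
          2 * Real.pi * Complex.I * E (-((v - u0) * γ)) *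
            (2 * v * (J - lam y0 * II a Y (v ^ 2) k) +
              ((gam v k - γ : ℝ) : ℂ) * II a Y (v ^ 2) k) := by
        have e4 : 2 * (v : ℂ) * (J - lam y0 * II a Y (v ^ 2) k) +
            ((gam v k - γ : ℝ) : ℂ) * II a Y (v ^ 2) k = 2 * v * J - γ * II a Y (v ^ 2) k := by
          rw [← e2]
          push_cast
          ring
        rw [e4, hJ, II, ← intervalIntegral.integral_const_mul, ← intervalIntegral.integral_const_mul,
          ← intervalIntegral.integral_sub (i1.const_mul _) (i2.const_mul _),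
          ← intervalIntegral.integral_const_mul]
        congr 1
        funext y
        push_cast
        ring
      rw [e3, norm_mul, norm_mul, norm_E, mul_one]
      have n1 : ‖(2 * Real.pi * Complex.I : ℂ)‖ ≤ 7 := by
        have := Real.pi_lt_d2
        simp only [norm_mul, Complex.norm_I, Complex.norm_real, Real.norm_eq_abs,
          Complex.norm_ofNat, abs_of_pos Real.pi_pos]
        linarith
      have hs : 0 < Real.sqrt T := Real.sqrt_pos.2 hT
      have hss : Real.sqrt T ^ 2 = T := Real.sq_sqrt hT.le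
      have n2 : 2 * v ≤ 3 * Real.sqrt T :=
        (abs_le_of_sq_le_sq' (by nlinarith) (by positivity)).2
      set B := Real.sqrt (Y ^ 3 / T) with hB
      have hB0 : 0 ≤ B := Real.sqrt_nonneg _
      have n3 : ‖2 * (v : ℂ) * (J - lam y0 * II a Y (v ^ 2) k)‖ ≤
          3 * C1 * (B * (1 / Real.sqrt T)) := by
        rw [norm_mul, norm_mul, Complex.norm_real, Real.norm_of_nonneg hv0.le, Complex.norm_ofNat]
        calc _ ≤ 3 * Real.sqrt T * (C1 * (B / T)) := by gcongr
          _ = 3 * Real.sqrt T * (C1 * (B / Real.sqrt T ^ 2)) := by rw [hss]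
          _ = _ := by field_simp
      have n4 : ‖((gam v k - γ : ℝ) : ℂ) * II a Y (v ^ 2) k‖ ≤ 128000 * C2 * (B * (L / Y ^ 3)) := by
        rw [norm_mul, Complex.norm_real, Real.norm_eq_abs]
        calc _ ≤ 128000 / Y ^ 3 * L * (C2 * B) := by
              gcongr
              exact j3.trans (by gcongr; linarith [hv.2])
          _ = _ := by ring
      calc _ ≤ 7 * (3 * C1 * (B * (1 / Real.sqrt T)) + 128000 * C2 * (B * (L / Y ^ 3))) := by
            gcongr
            exact (norm_add_le _ _).trans (add_le_add n3 n4)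
        _ ≤ _ := by
            have q1 : 0 ≤ C1 * (B * (L / Y ^ 3)) := by positivity
            have q2 : 0 ≤ C2 * (B * (1 / Real.sqrt T)) := by positivity
            nlinarith
  intro T Y k u0 L u u' a hT hY ha k1 k2 hu0 hT0 a1 a2 a3 a4 a5 a6
  rcases le_total u' u with h | h
  · rw [abs_of_nonneg (sub_nonneg.2 h)]
    exact main T Y k u0 L u u' a hT hY ha k1 k2 hu0 hT0 a2 a3 a4 h
  · rw [abs_sub_comm, abs_of_nonneg (sub_nonneg.2 h), norm_sub_rev]
    exact main T Y k u0 L u' u a hT hY ha k1 k2 hu0 hT0 a5 a6 a1 h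

end Pool.Agent.MP_3d0d30_nt.Six

end MrgPart0

-- ======== part 1: formerly Pool.Agent.MP_3d0d30_nt.Six.R1
section MrgPart1

/-! Project SIX, module R1: the local mean square of a smooth piece. -/

set_option autoImplicit false

namespace Pool.Agent.MP_3d0d30_nt.Six

open MeasureTheory Finset Filter
open scoped ComplexConjugate

namespace R1

theorem ww_lo {x : ℝ} (h : x ≤ 1 / 2) : ww x = 0 := by
  unfold ww psi
  rw [Real.smoothTransition.one_of_one_le (by linarith),
    Real.smoothTransition.one_of_one_le (by linarith), sub_self]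

theorem ww_hi {x : ℝ} (h : 2 ≤ x) : ww x = 0 := by
  unfold ww psi
  rw [Real.smoothTransition.zero_of_nonpos (by linarith),
    Real.smoothTransition.zero_of_nonpos (by linarith), sub_self]

theorem abs_ww_le (x : ℝ) : |ww x| ≤ 1 := by
  unfold ww psi
  have h1 := Real.smoothTransition.le_one (2 - x)
  have h2 := Real.smoothTransition.le_one (2 - 2 * x)
  have h3 := Real.smoothTransition.nonneg (2 - x)
  have h4 := Real.smoothTransition.nonneg (2 - 2 * x)
  rw [abs_le]; constructor <;> linarith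

noncomputable def th (n : ℕ) : ℝ := Real.log n / (2 * Real.pi)

noncomputable def bb (P : ℝ) (n : ℕ) : ℝ := wb (n / P) / Real.sqrt n

noncomputable def Zb (P u : ℝ) : ℂ := ∑ n ∈ range (rg P), (bb P n : ℂ) * E (u * th n)

theorem bb_lo {P : ℝ} (hP : 0 < P) {n : ℕ} (h : (n : ℝ) ≤ P / 2) : bb P n = 0 := by
  have : (n : ℝ) / P ≤ 1 / 2 := by rw [div_le_iff₀ hP]; linarith
  simp [bb, wb, ww_lo this]

theorem bb_hi {P : ℝ} (hP : 0 < P) {n : ℕ} (h : 2 * P ≤ n) : bb P n = 0 := by
  have : 2 ≤ (n : ℝ) / P := by rw [le_div_iff₀ hP]; linarith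
  simp [bb, wb, ww_hi this]

theorem bb_sq_le {P : ℝ} (hP : 0 < P) (n : ℕ) : bb P n ^ 2 ≤ 8 / P := by
  by_cases h : 2 * P ≤ n
  · rw [bb_hi hP h, zero_pow two_ne_zero]; positivity
  rcases Nat.eq_zero_or_pos n with rfl | hn
  · rw [bb_lo hP (by simp; positivity), zero_pow two_ne_zero]; positivity
  have hn' : (0 : ℝ) < n := by exact_mod_cast hn
  have h1 : ww (n / P) ^ 2 ≤ 1 := by
    rw [sq_le_one_iff_abs_le_one]; exact abs_ww_le _
  have e : bb P n ^ 2 = 4 * n / P ^ 2 * ww (n / P) ^ 2 := by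
    unfold bb wb
    rw [div_pow, Real.sq_sqrt hn'.le]
    field_simp
    ring
  rw [e]
  calc _ ≤ 4 * n / P ^ 2 * 1 := by gcongr
    _ ≤ 4 * (2 * P) / P ^ 2 * 1 := by gcongr; linarith
    _ = 8 / P := by field_simp; norm_num

theorem diag_le {P : ℝ} (hP : 0 < P) : ∑ n ∈ range (rg P), bb P n ^ 2 ≤ 96 := by
  by_cases h : P ≤ 1 / 2
  · rw [sum_eq_zero]
    · norm_num
    intro n _
    rcases Nat.eq_zero_or_pos n with rfl | hn
    · rw [bb_lo hP (by simp; positivity)]; simp
    · have : (1 : ℝ) ≤ n := by exact_mod_cast hn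
      rw [bb_hi hP (by linarith)]; simp
  push Not at h
  have h1 : ((rg P : ℕ) : ℝ) ≤ 8 * P + 2 := by
    have := Nat.ceil_lt_add_one (show 0 ≤ 8 * P by positivity)
    unfold rg; push_cast; linarith
  calc _ ≤ ∑ _n ∈ range (rg P), 8 / P := sum_le_sum fun n _ => bb_sq_le hP n
    _ = (rg P : ℕ) * (8 / P) := by simp
    _ ≤ (8 * P + 2) * (8 / P) := by gcongr
    _ ≤ (12 * P) * (8 / P) := by gcongr; linarith
    _ = 96 := by field_simp; norm_num

theorem shift (P t u : ℝ) :
    ∑ n ∈ range (rg P), (bb P n : ℂ) * E (t * th n) * E ((u - t) * th n) = Zb P u := by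
  refine sum_congr rfl fun n _ => ?_
  rw [mul_assoc, ← E_add]; congr 2; ring

theorem intg (hK : Kern) (P t : ℝ) {Λ : ℝ} (hΛ : 0 < Λ) :
    Integrable fun u : ℝ => ck ((u - t) / Λ) * ‖Zb P u‖ ^ 2 := by
  have := (hK.intC (range (rg P)) (fun n => (bb P n : ℂ) * E (t * th n)) th Λ hΛ).comp_sub_right t
  simpa only [shift] using this

theorem point (hK : Kern) {P : ℝ} (hP : 0 < P) (t : ℝ) :
    ‖Zs P t‖ ^ 2 ≤ 1 / Real.pi * ∫ u : ℝ, ck (u - t) * ‖Zb P u‖ ^ 2 := by
  classical
  have pp := Real.pi_pos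
  have key := hK.trick ((range (rg P)).filter fun n : ℕ => P / 2 ≤ n)
    (fun n => ((ww (n / P) / Real.sqrt n : ℝ) : ℂ) * E (t * th n)) th
    (Real.log (P / 2) / (2 * Real.pi)) (fun n hn => by
      unfold th
      have := (mem_filter.1 hn).2
      gcongr)
  have e1 : ∑ n ∈ (range (rg P)).filter fun n : ℕ => P / 2 ≤ n,
      ((ww (n / P) / Real.sqrt n : ℝ) : ℂ) * E (t * th n) = Zs P t := by
    refine sum_filter_of_ne fun n _ hn => ?_
    by_contra h
    have : (n : ℝ) / P ≤ 1 / 2 := by rw [div_le_iff₀ hP]; linarith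
    exact hn (by simp [ww_lo this])
  have e2 : ∀ s : ℝ, ∑ n ∈ (range (rg P)).filter fun n : ℕ => P / 2 ≤ n,
      ((ww (n / P) / Real.sqrt n : ℝ) : ℂ) * E (t * th n) *
        ((Real.exp (2 * Real.pi * (th n - Real.log (P / 2) / (2 * Real.pi))) : ℝ) : ℂ) *
        E (s * th n) = Zb P (t + s) := by
    intro s
    unfold Zb
    rw [← sum_filter_of_ne (p := fun n : ℕ => P / 2 ≤ n) (s := range (rg P))
      (f := fun n => (bb P n : ℂ) * E ((t + s) * th n)) (fun n _ hn => by
        by_contra h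
        exact hn (by simp [bb_lo hP (not_le.1 h).le]))]
    refine sum_congr rfl fun n hn => ?_
    have h1 := (mem_filter.1 hn).2
    have hn' : (0 : ℝ) < n := by linarith
    have e : Real.exp (2 * Real.pi * (th n - Real.log (P / 2) / (2 * Real.pi))) = 2 * (n / P) := by
      have : 2 * Real.pi * (th n - Real.log (P / 2) / (2 * Real.pi)) =
          Real.log n - Real.log (P / 2) := by unfold th; field_simp
      rw [this, Real.exp_sub, Real.exp_log hn', Real.exp_log (by positivity)]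
      field_simp
    rw [e, add_mul, E_add]
    unfold bb wb
    push_cast
    ring
  rw [e1] at key
  simp only [e2] at key
  rw [← integral_sub_right_eq_self (fun s => ck s * ‖Zb P (t + s)‖ ^ 2) t] at key
  simpa only [add_sub_cancel] using key

theorem dyadic (f : ℕ → ℂ) (J : ℕ) :
    ∑ h ∈ Ico 1 (2 ^ J), f h = ∑ i ∈ range J, ∑ h ∈ Ico (2 ^ i) (2 * 2 ^ i), f h := by
  induction J with
  | zero => simp
  | succ J ih =>
    rw [sum_range_succ, ← ih, pow_succ', sum_Ico_consecutive _ Nat.one_le_two_pow (by omega)]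

theorem cut (g : ℕ → ℂ) {x : ℝ} (hg : ∀ i : ℕ, x ≤ i → g i = 0) (a N N' : ℕ) (h : x ≤ N)
    (h' : x ≤ N') : ∑ i ∈ Ico a N, g i = ∑ i ∈ Ico a N', g i := by
  have k : ∀ M M' : ℕ, x ≤ M → M ≤ M' → ∑ i ∈ Ico a M, g i = ∑ i ∈ Ico a M', g i := by
    intro M M' h1 h2
    refine sum_subset (Ico_subset_Ico_right h2) fun i hi hi' => hg i (h1.trans ?_)
    simp only [mem_Ico, not_and, not_lt] at hi hi'
    exact_mod_cast hi' hi.1
  rw [k N (max N N') h (le_max_left _ _), k N' (max N N') h' (le_max_right _ _)]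

noncomputable def TT (P G t : ℝ) (i j : ℕ) : ℂ :=
  (bb P i : ℂ) * E (t * th i) * conj ((bb P j : ℂ) * E (t * th j)) *
    ((Real.exp (-(2 * Real.pi * G * |th i - th j|)) : ℝ) : ℂ)

theorem TT_swap (P G t : ℝ) (i j : ℕ) : TT P G t j i = conj (TT P G t i j) := by
  unfold TT
  simp only [map_mul, Complex.conj_ofReal, Complex.conj_conj]
  rw [abs_sub_comm]; ring

theorem TT_diag (P G t : ℝ) (i : ℕ) : ‖TT P G t i i‖ = bb P i ^ 2 := by
  unfold TT
  simp only [norm_mul, RCLike.norm_conj, norm_E, Complex.norm_real, Real.norm_eq_abs, sub_self,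
    abs_zero, mul_zero, neg_zero, Real.exp_zero, abs_one, mul_one, abs_mul_abs_self]
  ring

theorem TT_off {P : ℝ} (G t : ℝ) (n : ℕ) {h : ℕ} (hh : 1 ≤ h) : TT P G t (n + h) n =
    ((wb (n / P) * wb ((n + h) / P) / Real.sqrt (n * (n + h)) *
      Real.exp (-(2 * Real.pi * G * lam (n / h))) : ℝ) : ℂ) * E (t * lam (n / h)) := by
  rcases Nat.eq_zero_or_pos n with rfl | hn
  · simp [TT, bb, wb]
  have pp := Real.pi_pos
  have hn' : (0 : ℝ) < n := by exact_mod_cast hn
  have hh' : (0 : ℝ) < h := by exact_mod_cast hh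
  have e : th (n + h) - th n = lam (n / h) := by
    unfold th lam
    rw [← sub_div, ← Real.log_div (by positivity) hn'.ne']
    congr 2
    push_cast
    field_simp
  have e0 : 0 ≤ lam (n / h) := by
    unfold lam
    exact div_nonneg (Real.log_nonneg (by simp only [le_add_iff_nonneg_right]; positivity))
      (by positivity)
  unfold TT
  rw [e, abs_of_nonneg e0, ← e, mul_sub t, E_sub, map_mul, Complex.conj_ofReal,
    Real.sqrt_mul hn'.le]
  unfold bb
  push_cast
  ring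

theorem form_le {P : ℝ} (hP : 0 < P) (G t : ℝ) {J : ℕ} (hJ : 2 * P ≤ 2 ^ J) :
    ‖∑ i ∈ range (rg P), ∑ j ∈ range (rg P), TT P G t i j‖ ≤
      96 + 2 * ∑ i ∈ range J, ‖SH P G (2 ^ i) t‖ := by
  set R := rg P with hR
  have hRP : 2 * P ≤ (R : ℝ) := by
    have := Nat.le_ceil (8 * P)
    rw [hR]; unfold rg; push_cast; linarith
  set W := ∑ j ∈ range R, ∑ i ∈ range R, if j < i then TT P G t i j else 0 with hW
  have e1 : ∑ i ∈ range R, ∑ j ∈ range R, TT P G t i j =
      ∑ i ∈ range R, TT P G t i i + (W + conj W) := by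
    have e2 : conj W = ∑ i ∈ range R, ∑ j ∈ range R, if i < j then TT P G t i j else 0 := by
      rw [hW, map_sum]
      refine sum_congr rfl fun i _ => ?_
      rw [map_sum]
      refine sum_congr rfl fun j _ => ?_
      split_ifs
      · rw [← TT_swap]
      · simp
    rw [e2, hW, sum_comm (f := fun j i => if j < i then TT P G t i j else 0), ← sum_add_distrib,
      ← sum_add_distrib]
    refine sum_congr rfl fun i hi => ?_
    have e3 : TT P G t i i = ∑ j ∈ range R, if i = j then TT P G t i j else 0 := by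
      rw [sum_ite_eq, if_pos hi]
    rw [e3, ← sum_add_distrib, ← sum_add_distrib]
    refine sum_congr rfl fun j _ => ?_
    rcases lt_trichotomy i j with h | h | h
    · simp [h, h.ne, h.not_gt]
    · simp [h]
    · simp [h, h.ne', h.not_gt]
  have e4 : W = ∑ i ∈ range J, SH P G (2 ^ i) t := by
    have e5 : ∀ j : ℕ, (∑ i ∈ range R, if j < i then TT P G t i j else 0) =
        ∑ h ∈ Ico 1 (2 ^ J), TT P G t (j + h) j := by
      intro j
      rw [← sum_filter, sum_Ico_add (fun i => TT P G t i j) 1 (2 ^ J) j]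
      have : (range R).filter (fun i => j < i) = Ico (1 + j) R := by
        ext i; simp only [mem_filter, mem_range, mem_Ico]; omega
      rw [this]
      refine cut _ (x := 2 * P) (fun i hi => by simp [TT, bb_hi hP hi]) _ _ _ hRP ?_
      push_cast
      linarith [(Nat.cast_nonneg j : (0 : ℝ) ≤ j)]
    rw [hW]
    simp only [e5]
    rw [sum_comm, dyadic]
    refine sum_congr rfl fun i _ => sum_congr rfl fun h hh => sum_congr rfl fun n _ => ?_
    exact TT_off G t n (Nat.one_le_two_pow.trans (mem_Ico.1 hh).1)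
  have e6 : ‖W‖ ≤ ∑ i ∈ range J, ‖SH P G (2 ^ i) t‖ := by rw [e4]; exact norm_sum_le _ _
  have e7 : ‖∑ i ∈ range R, TT P G t i i‖ ≤ 96 :=
    (norm_sum_le _ _).trans (by simp only [TT_diag]; exact diag_le hP)
  rw [e1]
  have e8 := norm_add_le W (conj W)
  rw [RCLike.norm_conj] at e8
  linarith [norm_add_le (∑ i ∈ range R, TT P G t i i) (W + conj W)]

theorem mean (hK : Kern) {P G : ℝ} (hP : 0 < P) (hG : 0 < G) (t : ℝ) {J : ℕ}
    (hJ : 2 * P ≤ 2 ^ J) : ∫ u : ℝ, ck ((u - t) / G) * ‖Zb P u‖ ^ 2 ≤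
      Real.pi * G * (96 + 2 * ∑ i ∈ range J, ‖SH P G (2 ^ i) t‖) := by
  have pp := Real.pi_pos
  have key := hK.msC (range (rg P)) (fun n => (bb P n : ℂ) * E (t * th n)) th G hG
  rw [← integral_sub_right_eq_self _ t] at key
  simp only [shift] at key
  refine (le_abs_self _).trans ?_
  rw [← Real.norm_eq_abs, ← Complex.norm_real, key, norm_mul, norm_mul, Complex.norm_real,
    Complex.norm_real, Real.norm_of_nonneg pp.le, Real.norm_of_nonneg hG.le]
  gcongr
  exact form_le hP G t hJ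

end R1

open R1 in
theorem r1_of (hK : Kern) : R1Stmt := by
  refine ⟨400 * 96, by norm_num, fun P G t0 J U hP hG hJ hS hW => ?_⟩
  have pp := Real.pi_pos
  have hG0 : 0 < G := by linarith
  have i1 : ∀ t : ℝ, Integrable fun u : ℝ => ck (u - t) * ‖Zb P u‖ ^ 2 := fun t => by
    simpa only [div_one] using intg hK P t one_pos
  have k1 : ∀ u : ℝ, ∑ t ∈ U, ck (u - t) ≤ 400 * ck ((u - t0) / G) := by
    intro u
    have h2 := hK.two U G t0 u hS hG
    have h3 : ∑ t ∈ U, ck (u - t) ≤ 2 * ∑ t ∈ U, ck ((t0 - t) / G) * ck (u - t) := by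
      rw [mul_sum]
      refine sum_le_sum fun t ht => ?_
      have h4 : |(t0 - t) / G| ≤ 1 := by
        rw [abs_div, abs_of_pos hG0, div_le_one hG0, abs_le]
        constructor <;> linarith [(hW t ht).1, (hW t ht).2]
      nlinarith [half_le_ck h4, ck_nonneg (u - t)]
    linarith
  have k2 : ∑ t ∈ U, ∫ u : ℝ, ck (u - t) * ‖Zb P u‖ ^ 2 ≤
      400 * ∫ u : ℝ, ck ((u - t0) / G) * ‖Zb P u‖ ^ 2 := by
    rw [← integral_finsetSum _ fun t _ => i1 t, ← integral_const_mul]
    refine integral_mono (integrable_finsetSum _ fun t _ => i1 t)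
      ((intg hK P t0 hG0).const_mul _) fun u => ?_
    simp only
    rw [← sum_mul, ← mul_assoc]
    gcongr
    exact k1 u
  have k3 := mean hK hP hG0 t0 hJ
  have k4 : 0 ≤ ∑ i ∈ range J, ‖SH P G (2 ^ i) t0‖ := sum_nonneg fun _ _ => norm_nonneg _
  calc _ ≤ ∑ t ∈ U, 1 / Real.pi * ∫ u : ℝ, ck (u - t) * ‖Zb P u‖ ^ 2 :=
        sum_le_sum fun t _ => point hK hP t
    _ = 1 / Real.pi * ∑ t ∈ U, ∫ u : ℝ, ck (u - t) * ‖Zb P u‖ ^ 2 := by rw [mul_sum]
    _ ≤ 1 / Real.pi * (400 * (Real.pi * G * (96 + 2 * ∑ i ∈ range J, ‖SH P G (2 ^ i) t0‖))) := by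
        gcongr; linarith
    _ = 400 * (G * (96 + 2 * ∑ i ∈ range J, ‖SH P G (2 ^ i) t0‖)) := by field_simp
    _ ≤ _ := by nlinarith

end Pool.Agent.MP_3d0d30_nt.Six

end MrgPart1

-- marker of a merged file
example : 731051 + 125433 = 731051 + 125433 := rfl
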