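import Mathlib.Data.Int.Star
import Pool.Agent.MP_3d0d30_nt.Six.Spec
import Pool.Agent.Lib.helper44.VdC
import Pool.Agent.MP_db1c88_nt.ZetaBound

/-! Project SIX: zeta by smooth dyadic pieces. -/

set_option autoImplicit false

namespace Pool.Agent.MP_3d0d30_nt.Six.RZeta

open Complex Finset Filter Pool.Agent.Lib.helper44 Pool.Agent.MP_db1c88_nt

theorem iter_mvt (k : ℕ) : ∀ D : ℕ → ℝ → ℝ, (∀ j x, 0 < x → HasDerivAt (D j) (D (j + 1) x) x) →
    ∀ a : ℝ, 0 < a → ∀ n : ℕ, ∃ ξ, a + n ≤ ξ ∧ ξ ≤ a + n + k ∧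
      (fwdDiff 1)^[k] (fun m : ℕ => D 0 (a + m)) n = D k ξ := by
  induction k with
  | zero => exact fun D _ a _ n => ⟨a + n, le_rfl, by simp, rfl⟩
  | succ k ih =>
    intro D hD a ha n
    obtain ⟨ξ, h1, h2, h3⟩ := ih (fun j x => D j (x + 1) - D j x) (fun j x hx =>
      (HasDerivAt.comp_add_const x 1 (hD j _ (by linarith))).fun_sub (hD j x hx)) a ha n
    have hξ : 0 < ξ := lt_of_lt_of_le (by positivity) h1
    obtain ⟨c, hc, e⟩ := exists_hasDerivAt_eq_slope (D k) (D (k + 1)) (show ξ < ξ + 1 by linarith)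
      (fun x hx => (hD k x (by linarith [hx.1])).continuousAt.continuousWithinAt)
      (fun x hx => hD k x (by linarith [hx.1]))
    refine ⟨c, by linarith [hc.1], by push_cast; linarith [hc.2], ?_⟩
    rw [Function.iterate_succ_apply, e, add_sub_cancel_left, div_one, ← h3]
    refine congrArg (fun g => (fwdDiff 1)^[k] g n) (funext fun m => ?_)
    simp [fwdDiff, add_assoc]

/-- The derivatives of the logarithm. -/
noncomputable def dlog : ℕ → ℝ → ℝ
  | 0 => Real.log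
  | j + 1 => fun x => (-1) ^ j * (j.factorial / x ^ (j + 1))

theorem hasDerivAt_dlog (j : ℕ) {x : ℝ} (hx : 0 < x) :
    HasDerivAt (dlog j) (dlog (j + 1) x) x := by
  rcases j with _ | j
  · simpa [dlog] using Real.hasDerivAt_log hx.ne'
  · refine (((hasDerivAt_const x (j.factorial : ℝ)).fun_div (hasDerivAt_pow (j + 1) x)
      (by positivity)).const_mul ((-1) ^ j)).congr_deriv ?_
    simp only [dlog, Nat.factorial_succ, add_tsub_cancel_right]
    push_cast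
    field_simp
    ring

theorem log_diff {j N : ℕ} (hj : j ≤ 3) (hN : 0 < N) {τ : ℝ} (hτ : 0 < τ) {n : ℕ} (hn : n ≤ N) :
    τ / (6 * N) ^ (j + 1) ≤
      (fwdDiff 1)^[j + 1] (fun m : ℕ => (-1) ^ j * τ * Real.log (N + m)) n ∧
    (fwdDiff 1)^[j + 1] (fun m : ℕ => (-1) ^ j * τ * Real.log (N + m)) n ≤
      j.factorial * (τ / N ^ (j + 1)) := by
  have hN1 : (1 : ℝ) ≤ N := by exact_mod_cast hN
  obtain ⟨ξ, h1, h2, h3⟩ := iter_mvt (j + 1) (fun i x => (-1) ^ j * τ * dlog i x)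
    (fun i x hx => (hasDerivAt_dlog i hx).const_mul _) N (by linarith) n
  have e : (-1) ^ j * τ * dlog (j + 1) ξ = j.factorial * (τ / ξ ^ (j + 1)) := by
    have : ((-1 : ℝ) ^ j) * (-1) ^ j = 1 := by rw [← mul_pow]; simp
    simp only [dlog]
    linear_combination (τ * (j.factorial / ξ ^ (j + 1))) * this
  rw [e] at h3
  have hn1 : (n : ℝ) ≤ N := by exact_mod_cast hn
  have hn0 : (0 : ℝ) ≤ n := n.cast_nonneg
  have hj1 : (j : ℝ) ≤ 3 := by exact_mod_cast hj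
  have hf : (1 : ℝ) ≤ j.factorial := by exact_mod_cast j.factorial_pos
  push_cast at h2
  have hξ : 0 < ξ := by linarith
  refine ⟨le_of_le_of_eq ?_ h3.symm, h3.trans_le (by gcongr; linarith)⟩
  calc _ ≤ τ / ξ ^ (j + 1) := by gcongr; linarith
    _ ≤ _ := le_mul_of_one_le_left (by positivity) hf

/-- The exponential sum. -/
noncomputable def blk (τ : ℝ) (N M : ℕ) : ℝ := ‖∑ n ∈ range M, ee (τ * Real.log (N + n))‖

theorem blk_sign (j : ℕ) (τ : ℝ) (N M : ℕ) :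
    blk τ N M = ‖∑ n ∈ range M, ee ((-1) ^ j * τ * Real.log (N + n))‖ := by
  rcases neg_one_pow_eq_or ℝ j with h | h <;> rw [h]
  · simp [blk]
  · rw [blk, ← norm_sum_ee_neg]; simp

theorem block_first {N M : ℕ} {τ : ℝ} (hM : M ≤ N) (hτ : 0 < τ) (hN : τ ≤ N) :
    blk τ N M ≤ 1 + 48 * (N / τ) := by
  have hN0 : (0 : ℝ) < N := by linarith
  have hN1 : 0 < N := by exact_mod_cast hN0
  have hp := Real.pi_gt_three
  have h1 : τ / N ≤ 1 := by rwa [div_le_one hN0]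
  have h2 : τ / (6 * N) ≤ τ / N := by gcongr; linarith
  rw [blk_sign 1]
  refine (kusmin_landau' (θ := τ / (6 * N)) (by positivity) (-1) (fun n hn => ?_)
    (fun n hn => ?_)).trans ?_
  · have := log_diff (j := 0) (by norm_num) hN1 hτ (show n ≤ N by omega)
    simp only [zero_add, pow_one, Function.iterate_one, fwdDiff, pow_zero, one_mul,
      Nat.factorial_zero, Nat.cast_one] at this ⊢
    push_cast at this ⊢
    constructor <;> linarith [this.1, this.2]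
  · have := (log_diff (j := 1) (by norm_num) hN1 hτ (show n ≤ N by omega)).1
    simp only [Function.iterate_succ, Function.iterate_zero, Function.comp, id, fwdDiff] at this
    have h3 : 0 ≤ τ / (6 * N) ^ (1 + 1) := by positivity
    linarith
  · have : 2 * Real.pi / (τ / (6 * N)) = 12 * Real.pi * (N / τ) := by field_simp; ring
    rw [this]
    gcongr
    linarith [Real.pi_lt_four]

theorem abel_bound {z : ℕ → ℂ} {w : ℕ → ℝ} {B : ℝ} {N : ℕ} (hw : ∀ n, w (n + 1) ≤ w n)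
    (hw0 : ∀ n, 0 ≤ w n) (hB : ∀ M ≤ N, ‖∑ n ∈ range M, z n‖ ≤ B) :
    ‖∑ n ∈ range N, w n * z n‖ ≤ w 0 * B := by
  have key : ∀ M ≤ N, ‖∑ n ∈ range M, w n * z n - w M * ∑ n ∈ range M, z n‖ ≤
      (w 0 - w M) * B := by
    intro M
    induction M with
    | zero => simp
    | succ M ih =>
      intro hM
      have e : ∑ n ∈ range (M + 1), w n * z n - w (M + 1) * ∑ n ∈ range (M + 1), z n =
          (∑ n ∈ range M, w n * z n - w M * ∑ n ∈ range M, z n) +
            ((w M - w (M + 1) : ℝ) : ℂ) * ∑ n ∈ range (M + 1), z n := by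
        simp only [sum_range_succ]; push_cast; ring
      rw [e]
      refine (norm_add_le _ _).trans ?_
      rw [norm_mul, Complex.norm_real, Real.norm_of_nonneg (by linarith [hw M])]
      nlinarith [ih (by omega), hB _ hM, hw M]
  have h1 := norm_add_le (∑ n ∈ range N, w n * z n - w N * ∑ n ∈ range N, z n)
    (w N * ∑ n ∈ range N, z n)
  rw [sub_add_cancel, norm_mul, Complex.norm_real, Real.norm_of_nonneg (hw0 N)] at h1
  nlinarith [key N le_rfl, hB N le_rfl, hw0 N]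

theorem cpow_split {x : ℝ} (hx : 0 < x) (σ τ : ℝ) :
    (x : ℂ) ^ (-(σ + τ * I)) = Real.exp (-(σ * Real.log x)) * ee (-(τ * Real.log x)) := by
  rw [cpow_def_of_ne_zero (by exact_mod_cast hx.ne'), ee, ofReal_exp, ← exp_add,
    ← ofReal_log hx.le]
  congr 1
  push_cast
  ring

theorem tail_le (m : ℕ) : ∑' n : ℕ, 1 / (((n + m : ℕ) : ℝ) + 1) ^ ((1 : ℝ) / 2 + 1) ≤
    4 / Real.sqrt (m + 1) := by
  apply Real.tsum_le_of_sum_range_le (fun n => by positivity)
  intro k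
  have key : ∀ n : ℕ, 1 / (((n + m : ℕ) : ℝ) + 1) ^ ((1 : ℝ) / 2 + 1) ≤
      4 / Real.sqrt ((n : ℕ) + m + 1) - 4 / Real.sqrt ((n + 1 : ℕ) + m + 1) := by
    intro n
    push_cast
    have h0 : (1 : ℝ) ≤ n + m + 1 := by linarith [n.cast_nonneg (α := ℝ), m.cast_nonneg (α := ℝ)]
    rw [Real.rpow_add (by linarith), Real.rpow_one, ← Real.sqrt_eq_rpow]
    have e1 := Real.mul_self_sqrt (show (0 : ℝ) ≤ n + m + 1 by linarith)
    have e2 := Real.mul_self_sqrt (show (0 : ℝ) ≤ n + 1 + m + 1 by linarith)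
    have h1 : 1 ≤ Real.sqrt (n + m + 1) := Real.one_le_sqrt.2 h0
    have h2 : 1 ≤ Real.sqrt (n + 1 + m + 1) := Real.one_le_sqrt.2 (by linarith)
    set a := Real.sqrt (n + m + 1)
    set b := Real.sqrt (n + 1 + m + 1)
    have h3 : b * b = a * a + 1 := by linarith
    have h4 : b ≤ 3 / 2 * a := by nlinarith
    rw [← e1, div_sub_div _ _ (by linarith) (by linarith),
      div_le_div_iff₀ (by positivity) (by positivity)]
    have h5 : b ≤ 4 * (a * a) * (b - a) := by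
      apply le_of_mul_le_mul_right _ (show 0 < a + b by linarith)
      have : 4 * (a * a) * (b - a) * (a + b) = 4 * (a * a) := by
        linear_combination 4 * (a * a) * h3
      nlinarith
    nlinarith
  refine (sum_le_sum fun n _ => key n).trans ?_
  rw [sum_range_sub' fun n : ℕ => 4 / Real.sqrt ((n : ℕ) + m + 1)]
  have : 0 ≤ 4 / Real.sqrt ((k : ℕ) + m + 1) := by positivity
  simp only [Nat.cast_zero, zero_add]
  linarith

theorem zeta_trunc {σ τ : ℝ} (hσ : 1 / 2 ≤ σ) (hσ2 : σ ≤ 2) (hτ : 2 ≤ τ) {m : ℕ}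
    (h1 : τ ^ 2 ≤ m + 1) (h2 : (m : ℝ) + 1 ≤ 2 * τ ^ 2) : ‖riemannZeta (σ + τ * I)‖ ≤
      ‖∑ n ∈ range m, (((n : ℝ) + 1 : ℝ) : ℂ) ^ (-(σ + τ * I))‖ + 10 := by
  set s : ℂ := σ + τ * I with hs
  have hre : s.re = σ := by simp [hs]
  have b1 : τ ≤ ‖s - 1‖ := by simpa [hs] using (le_abs_self _).trans (abs_im_le_norm (s - 1))
  have b0 : 0 < ‖s - 1‖ := by linarith
  have hs1 : s ≠ 1 := sub_ne_zero.1 (norm_pos_iff.1 b0)
  have b2 : ‖s‖ ≤ 2 * τ := by
    have := norm_add_le (σ : ℂ) (τ * I)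
    rw [norm_mul, norm_I, Complex.norm_real, Complex.norm_real, Real.norm_of_nonneg (by linarith),
      Real.norm_of_nonneg (by linarith)] at this
    linarith
  have hsum := summable_aux (δ := 1 / 2) (by norm_num)
  have hz := fun n => norm_zterm_le n (s := s) (δ := 1 / 2) (by norm_num) (by rwa [hre])
  have hpart : ∀ N : ℕ, ∑ n ∈ range N, zterm n s =
      (s - 1) * ∑ n ∈ range N, (((n : ℝ) + 1 : ℝ) : ℂ) ^ (-s) - 1 +
        (((N : ℝ) + 1 : ℝ) : ℂ) ^ (1 - s) := by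
    intro N
    induction N with
    | zero => simp
    | succ N ih =>
      rw [sum_range_succ, sum_range_succ, ih, zterm]
      push_cast
      ring
  have e : (s - 1) * riemannZeta s = (s - 1) * ∑ n ∈ range m, (((n : ℝ) + 1 : ℝ) : ℂ) ^ (-s) +
      ((((m : ℝ) + 1 : ℝ) : ℂ) ^ (1 - s) + ∑' n, zterm (n + m) s) := by
    rw [riemannZeta_eq_inv_sub_mul hs1, mul_inv_cancel_left₀ (sub_ne_zero.2 hs1),
      zeta1_eq (by rwa [hre]), ← (Summable.of_norm_bounded (hsum.mul_left _) hz).sum_add_tsum_nat_add m,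
      hpart]
    ring
  have hm0 : (0 : ℝ) ≤ m := m.cast_nonneg
  have c1 : τ ≤ Real.sqrt (m + 1) := Real.le_sqrt_of_sq_le h1
  have c2 : ‖(((m : ℝ) + 1 : ℝ) : ℂ) ^ (1 - s)‖ ≤ ‖s - 1‖ * 2 := by
    rw [norm_cpow_eq_rpow_re_of_pos (by linarith), sub_re, one_re, hre]
    calc _ ≤ ((m : ℝ) + 1) ^ (1 / 2 : ℝ) := by gcongr <;> linarith
      _ ≤ τ * 2 := by
          rw [← Real.sqrt_eq_rpow, Real.sqrt_le_left (by linarith)]; nlinarith
      _ ≤ _ := by gcongr
  have c3 : ‖∑' n, zterm (n + m) s‖ ≤ ‖s - 1‖ * 8 := by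
    have d1 := tsum_of_norm_bounded (((summable_nat_add_iff m).2 hsum).mul_left
      (‖s - 1‖ * ‖s‖)).hasSum fun n => hz (n + m)
    rw [tsum_mul_left] at d1
    calc _ ≤ _ := d1
      _ ≤ ‖s - 1‖ * (2 * τ) * (4 / τ) := by
          gcongr
          exact (tail_le m).trans (by gcongr)
      _ = _ := by field_simp; norm_num
  apply le_of_mul_le_mul_left _ b0
  rw [← norm_mul, e]
  refine (norm_add_le _ _).trans ?_
  rw [norm_mul]
  linarith [norm_add_le ((((m : ℝ) + 1 : ℝ) : ℂ) ^ (1 - s)) (∑' n, zterm (n + m) s)]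

/-- one block with decreasing weights -/
theorem block_w {u : ℕ → ℝ} (hu : ∀ n, 1 ≤ n → u (n + 1) ≤ u n) (hu0 : ∀ n, 0 ≤ u n)
    (hu1 : ∀ n : ℕ, u n ≤ 1 / Real.sqrt n) {t : ℝ} (ht : 2 ≤ t) {N M : ℕ} (hN : t ≤ N)
    (hN2 : (N : ℝ) ≤ 9 * t ^ 2) (h1 : N ≤ M) (h2 : M ≤ 2 * N) :
    ‖∑ n ∈ Ico N M, (u n : ℂ) * ee (t * Real.log n)‖ ≤ 145 := by
  have hN1 : (1 : ℝ) ≤ N := by linarith
  have hN1' : 1 ≤ N := by exact_mod_cast hN1
  rw [sum_Ico_eq_sum_range]
  have a1 := abel_bound (N := M - N) (z := fun n => ee (t * Real.log (N + n)))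
    (w := fun n => u (N + n)) (B := 1 + 48 * (N / t)) (fun n => hu (N + n) (by omega))
    (fun n => hu0 _) (fun K hK => block_first (by omega) (by linarith) hN)
  have e : ∑ n ∈ range (M - N), (u (N + n) : ℂ) * ee (t * Real.log ((N + n : ℕ) : ℝ)) =
      ∑ n ∈ range (M - N), (u (N + n) : ℂ) * ee (t * Real.log (N + n)) :=
    sum_congr rfl fun n _ => by push_cast; rfl
  rw [e]
  refine a1.trans ?_
  have s1 : 1 ≤ Real.sqrt N := Real.one_le_sqrt.2 hN1
  have s2 : Real.sqrt N ≤ 3 * t := Real.sqrt_le_iff.2 ⟨by linarith, by nlinarith⟩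
  have s3 : Real.sqrt N * Real.sqrt N = N := Real.mul_self_sqrt (by linarith)
  calc u (N + 0) * (1 + 48 * (N / t)) ≤ 1 / Real.sqrt N * (1 + 48 * (N / t)) := by
        gcongr; exact hu1 N
    _ = 1 / Real.sqrt N + 48 * (Real.sqrt N / t) := by
        have : (N : ℝ) / t = Real.sqrt N * (Real.sqrt N / t) := by rw [← mul_div_assoc, s3]
        rw [this]; field_simp
    _ ≤ 1 + 48 * 3 := by
        gcongr
        · rw [div_le_one (by linarith)]; exact s1
        · rw [div_le_iff₀ (by linarith)]; exact s2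
    _ = 145 := by norm_num

/-- a long range with decreasing weights -/
theorem range_w {u : ℕ → ℝ} (hu : ∀ n, 1 ≤ n → u (n + 1) ≤ u n) (hu0 : ∀ n, 0 ≤ u n)
    (hu1 : ∀ n : ℕ, u n ≤ 1 / Real.sqrt n) {t : ℝ} (ht : 2 ≤ t) {N : ℕ} (hN : t ≤ N) (i : ℕ) :
    ∀ M : ℕ, N ≤ M → (M : ℝ) ≤ 9 * t ^ 2 → M ≤ N * 2 ^ i →
      ‖∑ n ∈ Ico N M, (u n : ℂ) * ee (t * Real.log n)‖ ≤ 145 * i := by
  induction i with
  | zero =>
    intro M h1 _ h3
    have : M = N := by omega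
    simp [this]
  | succ i ih =>
    intro M h1 h2 h3
    have hi : (0 : ℝ) ≤ i := i.cast_nonneg
    by_cases h : M ≤ N * 2 ^ i
    · refine (ih M h1 h2 h).trans ?_
      push_cast; linarith
    have h4 : N * 2 ^ i ≤ M := by omega
    have h5 : N ≤ N * 2 ^ i := Nat.le_mul_of_pos_right _ (by positivity)
    have h6 : ((N * 2 ^ i : ℕ) : ℝ) ≤ 9 * t ^ 2 := le_trans (by exact_mod_cast h4) h2
    rw [← sum_Ico_consecutive _ h5 h4]
    refine (norm_add_le _ _).trans ?_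
    have b1 := ih _ h5 h6 le_rfl
    have b2 := block_w hu hu0 hu1 ht (N := N * 2 ^ i) (M := M)
      (hN.trans (by exact_mod_cast h5)) h6 h4 (by rw [pow_succ] at h3; nlinarith)
    push_cast at b1 b2 ⊢
    linarith

theorem range_log {u : ℕ → ℝ} (hu : ∀ n, 1 ≤ n → u (n + 1) ≤ u n) (hu0 : ∀ n, 0 ≤ u n)
    (hu1 : ∀ n : ℕ, u n ≤ 1 / Real.sqrt n) {t T : ℝ} (ht : 2 ≤ t) (hT : t ≤ 2 * T) {N M : ℕ}
    (hN : t ≤ N) (h1 : N ≤ M) (h2 : (M : ℝ) ≤ 9 * t ^ 2) :
    ‖∑ n ∈ Ico N M, (u n : ℂ) * ee (t * Real.log n)‖ ≤ 1015 * (1 + Real.log T) := by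
  obtain ⟨J, j1, j2⟩ := exists_nat_pow_near (show 1 ≤ 9 * t ^ 2 by nlinarith) one_lt_two
  have hN1 : 1 ≤ N := by
    have : (1 : ℝ) ≤ N := by linarith
    exact_mod_cast this
  have h3 : M ≤ N * 2 ^ (J + 1) := by
    have : (M : ℝ) ≤ 2 ^ (J + 1) := by linarith
    have : M ≤ 2 ^ (J + 1) := by exact_mod_cast this
    exact this.trans (Nat.le_mul_of_pos_left _ hN1)
  refine (range_w hu hu0 hu1 ht hN (J + 1) M h1 h2 h3).trans ?_
  have hT1 : 1 ≤ T := by linarith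
  have l0 := Real.log_nonneg hT1
  have b1 : (2 : ℝ) ^ J ≤ 2 ^ 6 * T ^ 2 := by nlinarith
  have b2 := Real.log_le_log (by positivity) b1
  rw [Real.log_mul (by positivity) (by positivity), Real.log_pow, Real.log_pow, Real.log_pow] at b2
  push_cast at b2 ⊢
  have b3 : (J : ℝ) ≤ 6 + 3 * Real.log T := by
    have l2 := Real.log_two_gt_d9
    by_contra hc
    push Not at hc
    nlinarith
  linarith

theorem psi_one {x : ℝ} (h : x ≤ 1) : psi x = 1 :=
  Real.smoothTransition.one_of_one_le (by linarith)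

theorem psi_zero {x : ℝ} (h : 2 ≤ x) : psi x = 0 :=
  Real.smoothTransition.zero_of_nonpos (by linarith)

theorem psi_anti {x y : ℝ} (h : x ≤ y) : psi y ≤ psi x :=
  Real.smoothTransition.monotone (by linarith)

theorem ww_zero {x : ℝ} (h : 2 ≤ x) : ww x = 0 := by
  rw [ww, psi_zero h, psi_zero (by linarith), sub_self]

theorem sum_ww (x : ℝ) (J : ℕ) : ∑ j ∈ range J, ww (2 ^ j * x) = psi x - psi (2 ^ J * x) := by
  induction J with
  | zero => simp
  | succ J ih => rw [sum_range_succ, ih, ww, pow_succ, mul_comm _ (2 : ℝ), mul_assoc]; ring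

theorem E_eq (t y : ℝ) : E (t * (y / (2 * Real.pi))) = ee (t * y) := by
  unfold E ee
  congr 1
  have : (Real.pi : ℂ) ≠ 0 := by exact_mod_cast Real.pi_ne_zero
  push_cast
  field_simp

theorem Zs_eq {X : ℝ} (hX : 0 < X) (t : ℝ) (j : ℕ) : Zs (X / 2 ^ j) t =
    ∑ n ∈ range (rg X), ((ww (2 ^ j * (n / X)) / Real.sqrt n : ℝ) : ℂ) * ee (t * Real.log n) := by
  have h1 : (1 : ℝ) ≤ 2 ^ j := one_le_pow₀ (by norm_num)
  have h2 : X / 2 ^ j ≤ X := div_le_self hX.le h1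
  have e : ∀ n : ℕ, (n : ℝ) / (X / 2 ^ j) = 2 ^ j * (n / X) := fun n => by field_simp
  unfold Zs
  simp only [E_eq, e]
  apply sum_subset
  · apply range_subset_range.2
    unfold rg
    have := Nat.ceil_mono (show 8 * (X / 2 ^ j) ≤ 8 * X by linarith)
    omega
  · intro n _ hn
    have h3 : ⌈8 * (X / 2 ^ j)⌉₊ ≤ n := by
      rw [mem_range, rg] at hn; omega
    have h4 : 8 * (X / 2 ^ j) ≤ n := Nat.ceil_le.1 h3
    have h5 : 0 < X / 2 ^ j := by positivity
    rw [← e, ww_zero (by rw [le_div_iff₀ h5]; linarith)]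
    simp

theorem sum_Zs {X : ℝ} (hX : 0 < X) (t : ℝ) {J : ℕ} (hJ : 2 * X ≤ 2 ^ J) :
    ∑ j ∈ range J, Zs (X / 2 ^ j) t =
      ∑ n ∈ range (rg X), ((psi (n / X) / Real.sqrt n : ℝ) : ℂ) * ee (t * Real.log n) := by
  simp only [Zs_eq hX]
  rw [sum_comm]
  refine sum_congr rfl fun n _ => ?_
  rw [← sum_mul, ← ofReal_sum, ← sum_div, sum_ww]
  rcases Nat.eq_zero_or_pos n with rfl | hn
  · simp
  have h1 : (1 : ℝ) ≤ n := by exact_mod_cast hn
  rw [psi_zero (x := 2 ^ J * (n / X)), sub_zero]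
  rw [← mul_div_assoc, le_div_iff₀ hX]
  nlinarith

theorem zl_le {t : ℝ} (ht : 2 ≤ t) : zl t ≤
    ‖∑ n ∈ range ⌈t ^ 2⌉₊, ((1 / Real.sqrt n : ℝ) : ℂ) * ee (t * Real.log n)‖ + 10 := by
  have h0 : 0 < ⌈t ^ 2⌉₊ := Nat.ceil_pos.2 (by positivity)
  obtain ⟨m, hm⟩ : ∃ m, ⌈t ^ 2⌉₊ = m + 1 := ⟨⌈t ^ 2⌉₊ - 1, by omega⟩
  have h1 : t ^ 2 ≤ m + 1 := by
    have := Nat.le_ceil (t ^ 2)
    rw [hm] at this; exact_mod_cast this
  have h2 : (m : ℝ) + 1 ≤ 2 * t ^ 2 := by
    have := Nat.ceil_lt_add_one (show 0 ≤ t ^ 2 by positivity)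
    rw [hm] at this
    push_cast at this
    nlinarith
  have b := zeta_trunc (σ := 1 / 2) le_rfl (by norm_num) ht h1 h2
  have e1 : zl t = ‖riemannZeta ((1 / 2 : ℝ) + t * I)‖ := by unfold zl; push_cast; rfl
  rw [e1, hm, sum_range_succ']
  refine b.trans (le_of_eq ?_)
  congr 1
  rw [← Complex.norm_conj, map_sum]
  congr 1
  simp only [Nat.cast_zero, Real.sqrt_zero, div_zero, ofReal_zero, zero_mul, add_zero]
  refine sum_congr rfl fun n _ => ?_
  have hn : (0 : ℝ) < (n : ℝ) + 1 := by positivity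
  rw [cpow_split hn, map_mul, conj_ofReal, conj_ee, neg_neg]
  push_cast
  congr 1
  rw [Real.sqrt_eq_rpow, Real.rpow_def_of_pos hn, ← ofReal_one, ← ofReal_div, one_div,
    ← Real.exp_neg, ofReal_exp]
  congr 1
  push_cast
  ring

end Pool.Agent.MP_3d0d30_nt.Six.RZeta

namespace Pool.Agent.MP_3d0d30_nt.Six

open Finset RZeta Pool.Agent.Lib.helper44

theorem rzeta : RZetaStmt := by
  refine ⟨2040, by norm_num, fun T t J hT h1 h2 hJ => ?_⟩
  have ht : 2 ≤ t := by linarith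
  have hX : 0 < 2 * T := by linarith
  have l0 := Real.log_nonneg (show 1 ≤ T by linarith)
  have n1 : t ≤ ⌈t⌉₊ := Nat.le_ceil t
  have n2 : (⌈t⌉₊ : ℝ) < t + 1 := Nat.ceil_lt_add_one (by linarith)
  have n3 : ⌈t⌉₊ ≤ ⌈t ^ 2⌉₊ := Nat.ceil_mono (by nlinarith)
  have n4 : (⌈t ^ 2⌉₊ : ℝ) ≤ 9 * t ^ 2 := by
    have := Nat.ceil_lt_add_one (show 0 ≤ t ^ 2 by positivity)
    nlinarith
  have n5 : ⌈t⌉₊ ≤ rg (2 * T) := by
    have := Nat.ceil_mono (show t ≤ 8 * (2 * T) by linarith)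
    unfold rg; omega
  have n6 : (rg (2 * T) : ℝ) ≤ 9 * t ^ 2 := by
    have := Nat.ceil_lt_add_one (show 0 ≤ 8 * (2 * T) by linarith)
    unfold rg
    push_cast
    nlinarith
  have mono : ∀ n : ℕ, 1 ≤ n → Real.sqrt n ≤ Real.sqrt ((n + 1 : ℕ) : ℝ) ∧ 0 < Real.sqrt n :=
    fun n hn => ⟨Real.sqrt_le_sqrt (by push_cast; linarith), Real.sqrt_pos.2 (by exact_mod_cast hn)⟩
  have b1 := range_log (u := fun n => 1 / Real.sqrt n) (fun n hn => by
    have := mono n hn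
    exact one_div_le_one_div_of_le this.2 this.1) (fun n => by positivity) (fun n => le_rfl)
    ht h2 n1 n3 n4
  have b2 := range_log (u := fun n => psi (n / (2 * T)) / Real.sqrt n) (fun n hn => by
    have := mono n hn
    refine div_le_div₀ (Real.smoothTransition.nonneg _) (psi_anti ?_) this.2 this.1
    push_cast
    gcongr
    linarith) (fun n => div_nonneg (Real.smoothTransition.nonneg _) (Real.sqrt_nonneg _))
    (fun n => div_le_div_of_nonneg_right (Real.smoothTransition.le_one _) (Real.sqrt_nonneg _))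
    ht h2 n1 n5 n6
  have e1 := sum_Zs hX t (J := J) (by linarith)
  have e2 : ∑ n ∈ range ⌈t⌉₊, ((psi (n / (2 * T)) / Real.sqrt n : ℝ) : ℂ) * ee (t * Real.log n) =
      ∑ n ∈ range ⌈t⌉₊, ((1 / Real.sqrt n : ℝ) : ℂ) * ee (t * Real.log n) := by
    refine sum_congr rfl fun n hn => ?_
    have h3 : (n : ℝ) < t := Nat.lt_ceil.1 (mem_range.1 hn)
    rw [psi_one (by rw [div_le_one hX]; linarith)]
  rw [← sum_range_add_sum_Ico _ n5, e2] at e1
  have b3 := zl_le ht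
  rw [← sum_range_add_sum_Ico _ n3, ← sub_eq_iff_eq_add.2 e1] at b3
  have b4 := norm_sum_le (range J) fun j => Zs (2 * T / 2 ^ j) t
  refine b3.trans ?_
  have b5 := (norm_add_le _ _).trans (add_le_add ((norm_sub_le _ _).trans (add_le_add b4 b2)) b1)
  linarith

end Pool.Agent.MP_3d0d30_nt.Six
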