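import Mathlib.Algebra.BigOperators.Group.Finset.Interval
import Mathlib.Algebra.Order.Chebyshev
import Mathlib.RingTheory.PiTensorProduct
import Pool.Agent.MP_3d0d30_nt.Six.Spec

-- ======== part 0: formerly Pool.Agent.MP_3d0d30_nt.Six.Star00
section MrgPart0

/-! Project SIX, module Star00: Poisson summation in the off-diagonal sum. -/

set_option autoImplicit false

namespace Pool.Agent.MP_3d0d30_nt.Six

open MeasureTheory Finset Filter
open scoped ComplexConjugate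

namespace Star00

/-- a series whose terms outside a finite set have a summable majorant -/
theorem tail_bound (f : ℤ → ℂ) (S : Finset ℤ) (b : ℤ → ℝ) (B : ℝ) (hb : HasSum b B)
    (h0 : ∀ ν, 0 ≤ b ν) (hf : ∀ ν, ν ∉ S → ‖f ν‖ ≤ b ν) :
    Summable f ∧ ∀ x, HasSum f x → ‖x - ∑ ν ∈ S, f ν‖ ≤ B := by
  classical
  set g : ℤ → ℂ := fun ν => if ν ∈ S then 0 else f ν with hg
  set k : ℤ → ℂ := fun ν => if ν ∈ S then f ν else 0 with hk
  have hgb : ∀ ν, ‖g ν‖ ≤ b ν := fun ν => by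
    by_cases h : ν ∈ S
    · simp [hg, h, h0]
    · simp [hg, h, hf ν h]
  have sg : Summable g := Summable.of_norm_bounded hb.summable hgb
  have sk : HasSum k (∑ ν ∈ S, f ν) := by
    have : HasSum k (∑ ν ∈ S, k ν) :=
      hasSum_sum_of_ne_finset_zero fun ν h => by simp [hk, h]
    rwa [sum_congr rfl (fun ν h => by simp [hk, h] : ∀ ν ∈ S, k ν = f ν)] at this
  have e : f = fun ν => g ν + k ν := by
    ext ν
    by_cases h : ν ∈ S <;> simp [hg, hk, h]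
  have sf : HasSum f (∑' ν, g ν + ∑ ν ∈ S, f ν) := by
    conv => enter [1]; rw [e]
    exact sg.hasSum.add sk
  refine ⟨sf.summable, fun x hx => ?_⟩
  rw [hx.unique sf, add_sub_cancel_right]
  exact tsum_of_norm_bounded hb hgb

/-- the sum of the inverse squares -/
noncomputable def Z2 : ℝ := ∑' ν : ℤ, 1 / (ν : ℝ) ^ 2

theorem hasSum_Z2 : HasSum (fun ν : ℤ => 1 / (ν : ℝ) ^ 2) Z2 :=
  (Real.summable_one_div_int_pow.2 (by norm_num)).hasSum

theorem Z2_nonneg : 0 ≤ Z2 := tsum_nonneg fun _ => by positivity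

theorem contOn_lam {α β : ℝ} (h : 0 < α) : ContinuousOn lam (Set.Icc α β) := by
  unfold lam
  refine ContinuousOn.div_const (ContinuousOn.log ?_ fun y hy => ?_) _
  · exact continuousOn_const.add (continuousOn_const.div continuousOn_id fun y hy =>
      (h.trans_le hy.1).ne')
  · have := h.trans_le hy.1
    positivity

/-- one value of `h` -/
theorem one_h (hP : PoissonStmt) {C : ℝ} (hC : 0 < C)
    (hI : ∀ (T Y t k : ℝ) (a : ℝ → ℂ), 0 < T → 8 ≤ Y →
      Amp Y a → T ≤ t → t ≤ 2 * T → (k ≤ T / Y ^ 2 / 256 ∨ 32 * (T / Y ^ 2) ≤ k) →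
      ‖II a Y t k‖ ≤ C / (Y * (T / Y ^ 2 + |k|) ^ 2))
    {T Y t : ℝ} {h R N1 N2 : ℕ} {a : ℝ → ℂ} (hT : 0 < T) (hY : 8 ≤ Y) (hh : 1 ≤ h)
    (hR : h * (4 * Y) < R) (ha : Amp Y a) (ht : T ≤ t) (ht' : t ≤ 2 * T)
    (h1 : (N1 : ℝ) ≤ T / Y ^ 2 / 256) (h2 : 32 * (T / Y ^ 2) ≤ N2) :
    ‖1 / (h : ℂ) * ∑ n ∈ range R, a (n / h) * E (t * lam (n / h)) -
      ∑ k ∈ (Ioc N1 N2).filter (h ∣ ·), II a Y t k‖ ≤
      C / (Y * (T / Y ^ 2) ^ 2) + C / (Y * h ^ 2) * Z2 := by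
  classical
  have hY0 : 0 < Y := by linarith
  have hh0 : (0 : ℝ) < h := by exact_mod_cast hh
  have hK : 0 < T / Y ^ 2 := by positivity
  set S : Finset ℤ := ((Ioc N1 N2).filter (h ∣ ·)).image fun k : ℕ => ((k / h : ℕ) : ℤ) with hS
  have hb : HasSum (fun ν : ℤ => (if ν = 0 then C / (Y * (T / Y ^ 2) ^ 2) else 0) +
      C / (Y * h ^ 2) * (1 / (ν : ℝ) ^ 2))
      (C / (Y * (T / Y ^ 2) ^ 2) + C / (Y * h ^ 2) * Z2) :=
    (hasSum_ite_eq 0 _).add (hasSum_Z2.mul_left _)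
  obtain ⟨sm, hx⟩ := tail_bound (fun ν : ℤ => II a Y t (h * ν)) S _ _ hb
    (fun ν => by split_ifs <;> positivity) (fun ν hν => by
      have hout : (h : ℝ) * ν ≤ T / Y ^ 2 / 256 ∨ 32 * (T / Y ^ 2) ≤ h * ν := by
        by_contra hcon
        rw [not_or, not_le, not_le] at hcon
        have a1 : (N1 : ℝ) < h * ν := h1.trans_lt hcon.1
        have a2 : (h : ℝ) * ν < N2 := hcon.2.trans_le h2
        have a3 : (0 : ℝ) < h * ν := (Nat.cast_nonneg N1).trans_lt a1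
        have a4 : (0 : ℝ) < ν := (mul_pos_iff_of_pos_left hh0).1 a3
        have a5 : 0 ≤ ν := by exact_mod_cast a4.le
        lift ν to ℕ using a5
        apply hν
        rw [hS, mem_image]
        refine ⟨h * ν, ?_, ?_⟩
        · rw [mem_filter, mem_Ioc]
          refine ⟨⟨?_, ?_⟩, Dvd.intro _ rfl⟩
          · exact_mod_cast a1
          · exact_mod_cast a2.le
        · rw [Nat.mul_div_cancel_left _ hh]
      refine (hI T Y t _ a hT hY ha ht ht' hout).trans ?_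
      split_ifs with h0
      · subst h0
        simp
      · have n0 : (ν : ℝ) ≠ 0 := by exact_mod_cast h0
        have n1 : 0 < |(h : ℝ) * ν| := abs_pos.2 (mul_ne_zero hh0.ne' n0)
        calc _ ≤ C / (Y * |(h : ℝ) * ν| ^ 2) := by gcongr; linarith
          _ = _ := by rw [sq_abs]; field_simp; ring)
  have eI : ∀ ν : ℤ, ∫ y in (Y / 8)..(4 * Y), a y * E (t * lam y) * E (h * ν * y) =
      II a Y t (h * ν) := fun ν => by
    unfold II
    simp only [E_add, mul_assoc]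
  obtain ⟨⟨a1, a2, hd, e1, e2, -, -⟩, hz⟩ := ha
  have hs := hP (fun y => a y * E (t * lam y)) (Y / 8) (4 * Y) h R (by positivity) (by linarith)
    hh0 hR (hd.contOn.mul (continuous_E.comp_continuousOn
      (continuousOn_const.mul (contOn_lam (by positivity))))) (by simp [e1]) (by simp [e2])
    (fun y _ hy => by simp [hz y hy]) (by simpa only [eI] using sm)
  simp only [eI] at hs
  have hc : (h : ℂ) ≠ 0 := by exact_mod_cast hh0.ne'
  have hs' := hs.mul_left (1 / (h : ℂ))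
  simp only [← mul_assoc, Complex.ofReal_natCast, one_div_mul_cancel hc, one_mul] at hs'
  have := hx _ hs'
  rw [hS, sum_image] at this
  · convert this using 3
    refine sum_congr rfl fun k hk => ?_
    have hk' := (mem_filter.1 hk).2
    congr 1
    rw [Int.cast_natCast, ← Nat.cast_mul, Nat.mul_div_cancel' hk']
  · intro k hk k' hk' e
    have e' : k / h = k' / h := Int.natCast_inj.1 e
    have hk1 := (mem_filter.1 (mem_coe.1 hk)).2
    have hk2 := (mem_filter.1 (mem_coe.1 hk')).2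
    rw [← Nat.mul_div_cancel' hk1, ← Nat.mul_div_cancel' hk2, e']

theorem regroup (c : ℕ → ℂ) (F : ℕ → ℂ) (H : ℕ) (S : Finset ℕ) :
    ∑ k ∈ S, dk c H k * F k = ∑ h ∈ Ico H (2 * H), c h * ∑ k ∈ S.filter (h ∣ ·), F k := by
  simp only [dk, sum_mul, mul_sum, sum_filter]
  rw [sum_comm]
  refine sum_congr rfl fun h _ => sum_congr rfl fun k _ => ?_
  split_ifs <;> simp

theorem norm_dk_le (c : ℕ → ℂ) (hc : ∀ h, ‖c h‖ ≤ 1) (H k : ℕ) (hk : k ≠ 0) :
    ‖dk c H k‖ ≤ k.divisors.card := by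
  unfold dk
  refine (norm_sum_le _ _).trans ((sum_le_sum fun h _ => hc h).trans ?_)
  rw [sum_const, nsmul_eq_mul, mul_one]
  exact_mod_cast card_le_card fun h hh => Nat.mem_divisors.2 ⟨(mem_filter.1 hh).2, hk⟩

end Star00

open Star00

theorem star00_of (hP : PoissonStmt) (hI : INonStatStmt) : Star00Stmt := by
  obtain ⟨C, hC, hI⟩ := hI
  have hZ := Z2_nonneg
  refine ⟨16 * C + C * Z2, by positivity, ?_⟩
  intro T Y t H R N1 N2 a c hT hY hH hHY hR ha hc ht ht' h1 h2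
  have hY0 : 0 < Y := by linarith
  have hH1 : (1 : ℝ) ≤ H := by exact_mod_cast hH
  rw [regroup c (fun k => II a Y t k), SS, ← sum_sub_distrib]
  have key : ∀ h ∈ Ico H (2 * H), ‖c h / h * ∑ n ∈ range R, a (n / h) * E (t * lam (n / h)) -
      c h * ∑ k ∈ (Ioc N1 N2).filter (h ∣ ·), II a Y t k‖ ≤
      C / (Y * (T / Y ^ 2) ^ 2) + C / (Y * H ^ 2) * Z2 := fun h hh => by
    obtain ⟨l1, l2⟩ := mem_Ico.1 hh
    have l3 : (H : ℝ) ≤ h := by exact_mod_cast l1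
    have l4 : (h : ℝ) ≤ 2 * H := by exact_mod_cast l2.le
    have := one_h hP hC hI (R := R) hT hY (hH.trans l1) (by nlinarith) ha ht ht' h1 h2
    rw [div_eq_mul_one_div, mul_assoc, ← mul_sub, norm_mul]
    calc _ ≤ 1 * (C / (Y * (T / Y ^ 2) ^ 2) + C / (Y * h ^ 2) * Z2) := by gcongr; exact hc h
      _ ≤ _ := by rw [one_mul]; gcongr
  refine (norm_sum_le _ _).trans ((sum_le_sum key).trans ?_)
  rw [sum_const, Nat.card_Ico, nsmul_eq_mul, show 2 * H - H = H by omega]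
  have e1 : H * (C / (Y * (T / Y ^ 2) ^ 2)) = C * Y * ((H * Y / T) * (Y / T)) := by
    field_simp
  have e2 : H * (C / (Y * H ^ 2) * Z2) = C * Z2 * (1 / (Y * H)) := by field_simp
  have e3 : H * Y / T ≤ 4 := by rw [div_le_iff₀ hT]; linarith
  have e4 : Y / T ≤ 4 := by rw [div_le_iff₀ hT]; nlinarith
  have e5 : 1 / (Y * H) ≤ Y := by
    rw [div_le_iff₀ (by positivity)]
    have : 1 ≤ Y * H := by nlinarith
    nlinarith
  rw [mul_add, e1, e2]
  calc _ ≤ C * Y * (4 * 4) + C * Z2 * Y := by gcongr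
    _ = _ := by ring

theorem startriv_of (h0 : Star00Stmt) (hI : IBoundStmt) (hD : DivisorStmt) : StarTrivStmt := by
  obtain ⟨C, hC, h0⟩ := h0
  obtain ⟨C1, hC1, hI⟩ := hI
  intro ε hε
  obtain ⟨C2, hC2, hD⟩ := hD (ε / 2) (by positivity)
  filter_upwards [eventually_ge_atTop (2 : ℝ),
    (tendsto_rpow_atTop (show 0 < ε / 2 by positivity)).eventually_ge_atTop
      (C + 34 * C1 * C2)] with T hT2 hTe
  intro Y hY hTY H R a c J hH hHY hR ha hc hW _
  have hT : 0 < T := by linarith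
  have hY0 : 0 < Y := by linarith
  have hH1 : (1 : ℝ) ≤ H := by exact_mod_cast hH
  have hK : 0 < T / Y ^ 2 := by positivity
  have hp1 : 1 ≤ T ^ (ε / 2) := Real.one_le_rpow (by linarith) (by positivity)
  have hB1 : Real.sqrt (Y ^ 3 / T) ≤ 2 * Y := by
    rw [Real.sqrt_le_left (by positivity), div_le_iff₀ hT]
    have : Y ≤ 4 * T := by nlinarith
    nlinarith [mul_le_mul_of_nonneg_left this (sq_nonneg Y)]
  have hB2 : T / Y ^ 2 * Real.sqrt (Y ^ 3 / T) ≤ Y := by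
    rw [← le_div_iff₀' hK, Real.sqrt_le_left (by positivity)]
    have e : (Y / (T / Y ^ 2)) ^ 2 = Y ^ 3 / T * (Y ^ 3 / T) := by field_simp
    have : 1 ≤ Y ^ 3 / T := by rw [le_div_iff₀ hT]; linarith
    rw [e]
    nlinarith
  have hN2 : (⌈32 * (T / Y ^ 2)⌉₊ : ℝ) ≤ 32 * (T / Y ^ 2) + 1 :=
    (Nat.ceil_lt_add_one (by positivity)).le
  have hKT : 32 * (T / Y ^ 2) + 1 ≤ T := by
    have : T / Y ^ 2 ≤ T / 100 ^ 2 := by gcongr
    linarith
  have key : ∀ t ∈ J, ‖SS a c H R t‖ ≤ Y * T ^ ε := fun t ht => by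
    obtain ⟨t1, t2⟩ := hW t ht
    have b1 := h0 T Y t H R ⌊T / Y ^ 2 / 256⌋₊ ⌈32 * (T / Y ^ 2)⌉₊ a c hT (by linarith) hH hHY hR ha
      hc t1 (by linarith) (Nat.floor_le (by positivity)) (Nat.le_ceil _)
    have b2 : ‖∑ k ∈ Ioc ⌊T / Y ^ 2 / 256⌋₊ ⌈32 * (T / Y ^ 2)⌉₊, dk c H k * II a Y t k‖ ≤
        (32 * (T / Y ^ 2) + 1) * (C2 * T ^ (ε / 2) * (C1 * Real.sqrt (Y ^ 3 / T))) := by
      have : ∀ k ∈ Ioc ⌊T / Y ^ 2 / 256⌋₊ ⌈32 * (T / Y ^ 2)⌉₊, ‖dk c H k * II a Y t k‖ ≤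
          C2 * T ^ (ε / 2) * (C1 * Real.sqrt (Y ^ 3 / T)) := fun k hk => by
        obtain ⟨k1, k2⟩ := mem_Ioc.1 hk
        have k3 : (k : ℝ) ≤ T := le_trans (by exact_mod_cast k2) (hN2.trans hKT)
        rw [norm_mul]
        refine mul_le_mul (((norm_dk_le c hc H k (by omega)).trans (hD k (by omega))).trans ?_)
          (hI T Y t k a hT (by linarith) ha t1 (by linarith)) (norm_nonneg _) (by positivity)
        gcongr
      refine (norm_sum_le _ _).trans ((sum_le_sum this).trans ?_)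
      rw [sum_const, Nat.card_Ioc, nsmul_eq_mul]
      gcongr
      exact le_trans (by exact_mod_cast Nat.sub_le _ _) hN2
    have b3 : (32 * (T / Y ^ 2) + 1) * (C2 * T ^ (ε / 2) * (C1 * Real.sqrt (Y ^ 3 / T))) ≤
        34 * C1 * C2 * T ^ (ε / 2) * Y := by
      calc _ = C1 * C2 * T ^ (ε / 2) *
            (32 * (T / Y ^ 2 * Real.sqrt (Y ^ 3 / T)) + Real.sqrt (Y ^ 3 / T)) := by ring
        _ ≤ C1 * C2 * T ^ (ε / 2) * (32 * Y + 2 * Y) := by gcongr
        _ = _ := by ring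
    have b4 : T ^ ε = T ^ (ε / 2) * T ^ (ε / 2) := by rw [← Real.rpow_add hT]; ring_nf
    have b5 := norm_add_le (SS a c H R t -
      ∑ k ∈ Ioc ⌊T / Y ^ 2 / 256⌋₊ ⌈32 * (T / Y ^ 2)⌉₊, dk c H k * II a Y t k)
      (∑ k ∈ Ioc ⌊T / Y ^ 2 / 256⌋₊ ⌈32 * (T / Y ^ 2)⌉₊, dk c H k * II a Y t k)
    rw [sub_add_cancel] at b5
    calc _ ≤ C * Y * 1 + 34 * C1 * C2 * T ^ (ε / 2) * Y := by linarith
      _ ≤ C * Y * T ^ (ε / 2) + 34 * C1 * C2 * T ^ (ε / 2) * Y := by gcongr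
      _ = Y * ((C + 34 * C1 * C2) * T ^ (ε / 2)) := by ring
      _ ≤ _ := by rw [b4]; gcongr
  refine (sum_le_sum key).trans (le_of_eq ?_)
  rw [sum_const, nsmul_eq_mul]
  ring

end Pool.Agent.MP_3d0d30_nt.Six

end MrgPart0

-- ======== part 1: formerly Pool.Agent.MP_3d0d30_nt.Six.B0
section MrgPart1

/-! Project SIX, module B0: duality and Poisson summation. -/

set_option autoImplicit false

namespace Pool.Agent.MP_3d0d30_nt.Six

open MeasureTheory Finset Filter Topology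
open scoped ComplexConjugate

namespace B0

/-- a smooth bump -/
noncomputable def om (y : ℝ) : ℝ :=
  Real.smoothTransition (10 * y - 6) * Real.smoothTransition (19 / 4 - 5 / 2 * y)

theorem om_smooth : ContDiff ℝ 2 om := by
  unfold om
  have h : ContDiff ℝ 2 Real.smoothTransition := Real.smoothTransition.contDiff (n := 2)
  exact (h.comp (by fun_prop)).mul (h.comp (by fun_prop))

theorem om_nonneg (y : ℝ) : 0 ≤ om y :=
  mul_nonneg (Real.smoothTransition.nonneg _) (Real.smoothTransition.nonneg _)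

theorem om_one {y : ℝ} (h1 : 7 / 10 ≤ y) (h2 : y ≤ 3 / 2) : om y = 1 := by
  unfold om
  rw [Real.smoothTransition.one_of_one_le (by linarith),
    Real.smoothTransition.one_of_one_le (by linarith), mul_one]

theorem om_ev {y : ℝ} (h : y ∉ Set.Ioo (1 / 2 : ℝ) 2) : om =ᶠ[𝓝 y] fun _ => 0 := by
  rw [Set.mem_Ioo, not_and_or, not_lt, not_lt] at h
  rcases h with h | h
  · filter_upwards [Iio_mem_nhds (show y < 6 / 10 by linarith)] with z hz
    have : z < 6 / 10 := hz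
    unfold om
    rw [Real.smoothTransition.zero_of_nonpos (by linarith), zero_mul]
  · filter_upwards [Ioi_mem_nhds (show 19 / 10 < y by linarith)] with z hz
    have : 19 / 10 < z := hz
    unfold om
    rw [Real.smoothTransition.zero_of_nonpos (x := 19 / 4 - 5 / 2 * z) (by linarith), mul_zero]

theorem om_zero {y : ℝ} (h : y ∉ Set.Ioo (1 / 2 : ℝ) 2) :
    om y = 0 ∧ deriv om y = 0 ∧ deriv (deriv om) y = 0 := by
  have e := om_ev h
  have e1 : deriv om =ᶠ[𝓝 y] fun _ => 0 := by simpa using e.deriv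
  have e2 : deriv (deriv om) =ᶠ[𝓝 y] fun _ => 0 := by simpa using e1.deriv
  exact ⟨e.eq_of_nhds, e1.eq_of_nhds, e2.eq_of_nhds⟩

theorem om_smooth1 : ContDiff ℝ 1 (deriv om) :=
  (contDiff_succ_iff_deriv.1 (show ContDiff ℝ (1 + 1) om from om_smooth)).2.2

theorem om_d1 (y : ℝ) : HasDerivAt om (deriv om y) y :=
  (om_smooth.differentiable (by norm_num) y).hasDerivAt

theorem om_d2 (y : ℝ) : HasDerivAt (deriv om) (deriv (deriv om) y) y :=
  (om_smooth1.differentiable (by norm_num) y).hasDerivAt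

theorem om_c2 : Continuous (deriv (deriv om)) := om_smooth1.continuous_deriv le_rfl

theorem om_bound : ∃ A : ℝ, 0 < A ∧ ∀ y ∈ Set.Icc (1 / 2 : ℝ) 2,
    |om y| ≤ A ∧ |deriv om y| ≤ A ∧ |deriv (deriv om) y| ≤ A := by
  obtain ⟨A0, h0⟩ := (isCompact_Icc (a := (1 / 2 : ℝ)) (b := 2)).exists_bound_of_continuousOn
    om_smooth.continuous.continuousOn
  obtain ⟨A1, h1⟩ := (isCompact_Icc (a := (1 / 2 : ℝ)) (b := 2)).exists_bound_of_continuousOn
    om_smooth1.continuous.continuousOn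
  obtain ⟨A2, h2⟩ := (isCompact_Icc (a := (1 / 2 : ℝ)) (b := 2)).exists_bound_of_continuousOn
    om_c2.continuousOn
  refine ⟨|A0| + |A1| + |A2| + 1, by positivity, fun y hy => ?_⟩
  have e0 := (h0 y hy).trans (le_abs_self _)
  have e1 := (h1 y hy).trans (le_abs_self _)
  have e2 := (h2 y hy).trans (le_abs_self _)
  rw [Real.norm_eq_abs] at e0 e1 e2
  refine ⟨?_, ?_, ?_⟩ <;> linarith [abs_nonneg A0, abs_nonneg A1, abs_nonneg A2]

/-- the derivatives of `XX` -/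
noncomputable def X1 (β y : ℝ) : ℝ := Real.sinh (2 * β * y) / β

noncomputable def X2 (β y : ℝ) : ℝ := 2 * Real.cosh (2 * β * y)

noncomputable def X3 (β y : ℝ) : ℝ := 4 * β * Real.sinh (2 * β * y)

theorem XX_d {β : ℝ} (hβ : β ≠ 0) (y : ℝ) : HasDerivAt (XX β) (X1 β y) y := by
  have h := ((((hasDerivAt_id y).const_mul β).sinh).pow 2).div_const (β ^ 2)
  refine h.congr_deriv (Eq.symm ?_)
  simp only [X1, id, mul_assoc 2 β y, Real.sinh_two_mul]
  field_simp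
  norm_num

theorem X1_d {β : ℝ} (hβ : β ≠ 0) (y : ℝ) : HasDerivAt (X1 β) (X2 β y) y := by
  have h := (((hasDerivAt_id y).const_mul (2 * β)).sinh).div_const β
  refine h.congr_deriv (Eq.symm ?_)
  simp only [X2, id]
  field_simp

theorem X2_d (β y : ℝ) : HasDerivAt (X2 β) (X3 β y) y := by
  have h := (((hasDerivAt_id y).const_mul (2 * β)).cosh).const_mul 2
  refine h.congr_deriv (Eq.symm ?_)
  simp only [X3, id]
  ring

theorem sinh_le_mul_exp {z : ℝ} : Real.sinh z ≤ z * Real.exp z := by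
  rw [Real.sinh_eq]
  have h1 := Real.add_one_le_exp (-(2 * z))
  have h2 : Real.exp (-z) = Real.exp z * Real.exp (-(2 * z)) := by
    rw [← Real.exp_add]; ring_nf
  have h3 := Real.exp_pos z
  rw [h2]
  nlinarith

theorem cosh_le_exp {z : ℝ} (hz : 0 ≤ z) : Real.cosh z ≤ Real.exp z := by
  rw [Real.cosh_eq]
  have : Real.exp (-z) ≤ Real.exp z := Real.exp_le_exp.2 (by linarith)
  linarith

theorem X_bound {β y : ℝ} (h0 : 0 < β) (h1 : β ≤ 1) (hy : y ∈ Set.Icc (1 / 2 : ℝ) 2) :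
    1 ≤ X1 β y ∧ |X1 β y| ≤ 4 * Real.exp 4 ∧ |X2 β y| ≤ 4 * Real.exp 4 ∧
      |X3 β y| ≤ 4 * Real.exp 4 := by
  obtain ⟨y1, y2⟩ := hy
  have z0 : 0 ≤ 2 * β * y := by positivity
  have z1 : 2 * β * y ≤ 4 := by nlinarith
  have e1 : Real.exp (2 * β * y) ≤ Real.exp 4 := Real.exp_le_exp.2 z1
  have e2 := Real.self_le_sinh_iff.2 z0
  have e3 := cosh_le_exp z0
  have e4 := Real.sinh_lt_cosh (2 * β * y)
  have e5 := Real.exp_pos 4
  have l1 : 1 ≤ X1 β y := by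
    unfold X1
    rw [le_div_iff₀ h0]
    nlinarith
  refine ⟨l1, ?_, ?_, ?_⟩
  · rw [abs_of_nonneg (by linarith), X1, div_le_iff₀ h0]
    calc _ ≤ 2 * β * y * Real.exp (2 * β * y) := sinh_le_mul_exp
      _ ≤ 2 * β * 2 * Real.exp 4 := by gcongr
      _ = _ := by ring
  · rw [X2, abs_of_nonneg (by positivity)]
    linarith
  · rw [X3, abs_of_nonneg (mul_nonneg (by positivity) (by linarith))]
    calc _ ≤ 4 * 1 * Real.exp 4 := by gcongr; linarith
      _ = _ := by ring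

/-- the weight and its derivatives -/
noncomputable def wr (β y : ℝ) : ℝ := om y * X1 β y

noncomputable def wr1 (β y : ℝ) : ℝ := deriv om y * X1 β y + om y * X2 β y

noncomputable def wr2 (β y : ℝ) : ℝ :=
  (deriv (deriv om) y * X1 β y + deriv om y * X2 β y) + (deriv om y * X2 β y + om y * X3 β y)

theorem exists_G2 : ∃ A : ℝ, 0 < A ∧ ∀ β : ℝ, 0 < β → β ≤ 1 → G2 (fun y => (wr β y : ℂ)) A := by
  obtain ⟨A, hA, hb⟩ := om_bound
  refine ⟨4 * (A * (4 * Real.exp 4)), by positivity, fun β h0 h1 => ?_⟩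
  have k : ∀ {u v : ℝ}, |u| ≤ A → |v| ≤ 4 * Real.exp 4 → |u * v| ≤ A * (4 * Real.exp 4) :=
    fun hu hv => by rw [abs_mul]; exact mul_le_mul hu hv (abs_nonneg _) hA.le
  have hp : 0 < A * (4 * Real.exp 4) := by positivity
  refine ⟨fun y => (wr1 β y : ℂ), fun y => (wr2 β y : ℂ), ?_, fun y => ⟨?_, ?_, ?_⟩, fun y hy => ?_⟩
  · have c0 := om_smooth.continuous
    have c1 := om_smooth1.continuous
    have c2 := om_c2
    unfold wr2 X1 X2 X3
    fun_prop
  · exact ((om_d1 y).mul (X1_d h0.ne' y)).ofReal_comp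
  · exact (((om_d2 y).mul (X1_d h0.ne' y)).add ((om_d1 y).mul (X2_d β y))).ofReal_comp
  · simp only [Complex.norm_real, Real.norm_eq_abs]
    by_cases hy : y ∈ Set.Ioo (1 / 2 : ℝ) 2
    · obtain ⟨a0, a1, a2⟩ := hb y (Set.Ioo_subset_Icc_self hy)
      obtain ⟨-, b1, b2, b3⟩ := X_bound h0 h1 (Set.Ioo_subset_Icc_self hy)
      refine ⟨?_, ?_, ?_⟩
      · have := k a0 b1
        unfold wr
        linarith
      · unfold wr1
        linarith [k a1 b1, k a0 b2, abs_add_le (deriv om y * X1 β y) (om y * X2 β y)]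
      · unfold wr2
        linarith [k a2 b1, k a1 b2, k a0 b3,
          abs_add_le (deriv (deriv om) y * X1 β y) (deriv om y * X2 β y),
          abs_add_le (deriv om y * X2 β y) (om y * X3 β y),
          abs_add_le (deriv (deriv om) y * X1 β y + deriv om y * X2 β y)
            (deriv om y * X2 β y + om y * X3 β y)]
    · obtain ⟨a0, a1, a2⟩ := om_zero hy
      simp [wr, wr1, wr2, a0, a1, a2, hp.le]
  · obtain ⟨a0, a1, a2⟩ := om_zero hy
    simp [wr, wr1, a0, a1]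

theorem G2.c20 {w : ℝ → ℂ} {A : ℝ} (h : G2 w A) : C20 w (1 / 2) 2 1 A := by
  obtain ⟨w1, w2, c, d, z⟩ := h
  have z1 := z (1 / 2) (by simp)
  have z2 := z 2 (by simp)
  exact ⟨w1, w2, ⟨fun y _ => (d y).1, fun y _ => (d y).2.1, c.continuousOn, fun y _ => (d y).2.2.1,
    fun y _ => by simpa using (d y).2.2.2.1, fun y _ => by simpa using (d y).2.2.2.2⟩,
    z1.1, z2.1, z1.2, z2.2⟩

theorem G2.cont {w : ℝ → ℂ} {A : ℝ} (h : G2 w A) : Continuous w := by
  obtain ⟨w1, w2, c, d, z⟩ := h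
  exact continuous_iff_continuousAt.2 fun y => (d y).1.continuousAt

theorem G2.bound {w : ℝ → ℂ} {A : ℝ} (h : G2 w A) (y : ℝ) : ‖w y‖ ≤ A := by
  obtain ⟨w1, w2, c, d, z⟩ := h
  exact (d y).2.2.1

theorem hm_eq {w : ℝ → ℂ} {A : ℝ} (h : G2 w A) (N : ℕ) (β : ℝ) (m : ℤ) (τ : ℝ) :
    hm N β w m τ = N * ∫ y in (1 / 2 : ℝ)..2, w y * E (τ * y - N * m * XX β y) := by
  obtain ⟨w1, w2, c, d, z⟩ := h
  unfold hm
  rw [intervalIntegral.integral_eq_integral_of_support_subset]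
  intro y hy
  by_contra hn
  exact hy (by simp [(z y fun h => hn (Set.Ioo_subset_Ioc_self h)).1])

/-- the exponential sum -/
noncomputable def rho (ε : ℝ → ℂ) (U : Finset ℝ) (y : ℝ) : ℂ := ∑ t ∈ U, ε t * E (y * t)

@[fun_prop] theorem continuous_rho (ε : ℝ → ℂ) (U : Finset ℝ) : Continuous (rho ε U) := by
  unfold rho; fun_prop

@[fun_prop] theorem continuous_XX (β : ℝ) : Continuous (XX β) := by unfold XX; fun_prop

@[fun_prop] theorem continuous_gg (β : ℝ) : Continuous (gg β) :=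
  ((continuous_const.mul Real.continuous_sqrt).arsinh).div_const β

theorem FM_eq {w : ℝ → ℂ} {A : ℝ} (h : G2 w A) (N : ℕ) (β : ℝ) (ε : ℝ → ℂ) (U : Finset ℝ)
    (m : ℤ) : FM N β w ε U m = N * ∫ y in (1 / 2 : ℝ)..2,
      w y * ((‖rho ε U y‖ ^ 2 : ℝ) : ℂ) * E (-(N * m * XX β y)) := by
  have c := G2.cont h
  have e : ∀ y, w y * ((‖rho ε U y‖ ^ 2 : ℝ) : ℂ) * E (-(N * m * XX β y)) =
      ∑ t ∈ U, ∑ t' ∈ U, ε t * conj (ε t') * (w y * E ((t - t') * y - N * m * XX β y)) := by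
    intro y
    rw [← Complex.normSq_eq_norm_sq, ← Complex.mul_conj, rho, map_sum, sum_mul_sum, mul_sum,
      sum_mul]
    refine sum_congr rfl fun t _ => ?_
    rw [mul_sum, sum_mul]
    refine sum_congr rfl fun t' _ => ?_
    rw [map_mul, show (t - t') * y - N * m * XX β y = (y * t - y * t') + -(N * m * XX β y) by ring,
      E_add, E_sub]
    ring
  simp only [e, FM, hm_eq h]
  rw [intervalIntegral.integral_finsetSum, mul_sum]
  · refine sum_congr rfl fun t _ => ?_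
    rw [intervalIntegral.integral_finsetSum, mul_sum]
    · refine sum_congr rfl fun t' _ => ?_
      rw [intervalIntegral.integral_const_mul]
      ring
    · intro t' _
      exact Continuous.intervalIntegrable (by fun_prop) _ _
  · intro t _
    exact Continuous.intervalIntegrable (by fun_prop) _ _

theorem FM_neg {w : ℝ → ℝ} {A : ℝ} (h : G2 (fun y => (w y : ℂ)) A) (N : ℕ) (β : ℝ) (ε : ℝ → ℂ)
    (U : Finset ℝ) (m : ℤ) :
    ‖FM N β (fun y => (w y : ℂ)) ε U (-m)‖ = ‖FM N β (fun y => (w y : ℂ)) ε U m‖ := by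
  rw [← Complex.norm_conj (FM N β (fun y => (w y : ℂ)) ε U m), FM_eq h, FM_eq h, map_mul,
    intervalIntegral.integral_of_le (by norm_num), intervalIntegral.integral_of_le (by norm_num),
    ← integral_conj]
  simp only [map_mul, Complex.conj_ofReal, conj_E, Complex.conj_natCast, Int.cast_neg, mul_neg,
    neg_mul]

theorem FM_zero (hK : Kern) {w : ℝ → ℂ} {A : ℝ} (h : G2 w A) (N : ℕ) (β : ℝ) {ε : ℝ → ℂ}
    {U : Finset ℝ} (hε : ∀ t, ‖ε t‖ ≤ 1) (hU : Sep 1 U) :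
    ‖FM N β w ε U 0‖ ≤ N * (A * (Real.exp 30 * U.card)) := by
  have hA : 0 ≤ A := (norm_nonneg _).trans (G2.bound h 0)
  rw [FM_eq h, norm_mul, Complex.norm_natCast]
  gcongr
  have c : Continuous fun y => ‖rho ε U y‖ ^ 2 := by fun_prop
  calc _ ≤ ∫ y in (1 / 2 : ℝ)..2, A * ‖rho ε U y‖ ^ 2 := by
        refine intervalIntegral.norm_integral_le_of_norm_le (by norm_num)
          (Eventually.of_forall fun y _ => ?_) ((continuous_const.mul c).intervalIntegrable _ _)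
        rw [norm_mul, norm_mul, norm_E, mul_one, Complex.norm_real, Real.norm_eq_abs,
          abs_of_nonneg (by positivity)]
        gcongr
        exact G2.bound h y
    _ = A * ∫ y in (1 / 2 : ℝ)..2, ‖rho ε U y‖ ^ 2 := intervalIntegral.integral_const_mul _ _
    _ ≤ A * ∫ y in (-4 : ℝ)..4, ‖rho ε U y‖ ^ 2 := by
        gcongr
        exact intervalIntegral.integral_mono_interval (by norm_num) (by norm_num) (by norm_num)
          (Eventually.of_forall fun y => by positivity) (c.intervalIntegrable _ _)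
    _ ≤ _ := by gcongr; exact hK.sieve U ε hU hε

theorem FM_tail (hN : NonStatStmt) {A : ℝ} (hA : 0 < A) : ∃ C : ℝ, 0 < C ∧
    ∀ (N : ℕ) (β s M : ℝ) (w ε : ℝ → ℂ) (U : Finset ℝ) (m : ℤ), 1 ≤ N → 1 ≤ M → 0 < β → β ≤ 1 →
      G2 w A → (∀ t, ‖ε t‖ ≤ 1) → Win U s (N * M) → 2 * M ≤ |(m : ℝ)| →
      ‖FM N β w ε U m‖ ≤ C * U.card ^ 2 / N * (1 / (m : ℝ) ^ 2) := by
  obtain ⟨C, hC, hN⟩ := hN
  obtain ⟨B, hB⟩ : ∃ B, B = 4 * Real.exp 4 := ⟨_, rfl⟩
  have hB1 : 1 ≤ B := by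
    have := Real.add_one_le_exp 4
    linarith
  refine ⟨C * (3 / 2 * A * (4 * B) ^ 2), by positivity, ?_⟩
  intro N β s M w ε U m hN1 hM h0 h1 hw hε hW hmM
  have n0 : (1 : ℝ) ≤ N := by exact_mod_cast hN1
  have m0 : 0 < |(m : ℝ)| := by linarith
  have key : ∀ τ : ℝ, |τ| ≤ N * M →
      ‖hm N β w m τ‖ ≤ C * (3 / 2 * A * (4 * B) ^ 2) / N * (1 / (m : ℝ) ^ 2) := fun τ hτ => by
    have := hN w (fun y => τ * y - N * m * XX β y) (fun y => τ - N * m * X1 β y)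
      (fun y => -(N * m * X2 β y)) (fun y => -(N * m * X3 β y)) (1 / 2) 2 (1 / (2 * B)) A
      (N * |(m : ℝ)| / 2) (by norm_num) (by positivity) (by positivity)
      ((G2.c20 hw).mono (by positivity) (by rw [div_le_one (by positivity)]; linarith) hA.le le_rfl)
      (fun y hy => ?_) (by unfold X3; fun_prop)
    · rw [hm_eq hw, norm_mul, Complex.norm_natCast]
      refine (mul_le_mul_of_nonneg_left this (by positivity)).trans (le_of_eq ?_)
      rw [← sq_abs (m : ℝ)]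
      field_simp
      ring
    · obtain ⟨b0, -, b2, b3⟩ := X_bound h0 h1 hy
      rw [← hB] at b2 b3
      refine ⟨?_, ?_, ?_, ?_, ?_, ?_⟩
      · exact (((hasDerivAt_id y).const_mul τ).sub
          ((XX_d h0.ne' y).const_mul (N * m : ℝ))).congr_deriv (by rw [mul_one])
      · simpa using ((X1_d h0.ne' y).const_mul (N * m : ℝ)).const_sub τ
      · exact ((X2_d β y).const_mul (N * m : ℝ)).neg
      · have e1 : |N * m * X1 β y| = N * |(m : ℝ)| * X1 β y := by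
          rw [abs_mul, abs_mul, Nat.abs_cast, abs_of_nonneg (by linarith : 0 ≤ X1 β y)]
        have e2 := abs_sub_abs_le_abs_sub (N * m * X1 β y) τ
        have e3 : N * |(m : ℝ)| * 1 ≤ N * |(m : ℝ)| * X1 β y := by gcongr
        have e4 : N * (2 * M) ≤ N * |(m : ℝ)| := by gcongr
        rw [abs_sub_comm]
        linarith
      · rw [abs_neg, abs_mul, abs_mul, Nat.abs_cast]
        calc _ ≤ N * |(m : ℝ)| * B := by gcongr
          _ = _ := by field_simp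
      · rw [abs_neg, abs_mul, abs_mul, Nat.abs_cast]
        calc _ ≤ N * |(m : ℝ)| * (2 * B ^ 2) := by gcongr; nlinarith
          _ = _ := by field_simp
  have k2 : ∀ t ∈ U, ∀ t' ∈ U, ‖ε t * conj (ε t') * hm N β w m (t - t')‖ ≤
      C * (3 / 2 * A * (4 * B) ^ 2) / N * (1 / (m : ℝ) ^ 2) := fun t ht t' ht' => by
    obtain ⟨a1, a2⟩ := hW t ht
    obtain ⟨a3, a4⟩ := hW t' ht'
    have := key (t - t') (abs_le.2 ⟨by linarith, by linarith⟩)
    rw [norm_mul, norm_mul, Complex.norm_conj]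
    calc _ ≤ 1 * 1 * (C * (3 / 2 * A * (4 * B) ^ 2) / N * (1 / (m : ℝ) ^ 2)) := by
          gcongr <;> apply hε
      _ = _ := by ring
  unfold FM
  refine (norm_sum_le _ _).trans ((sum_le_sum fun t ht => (norm_sum_le _ _).trans
    (sum_le_sum (k2 t ht))).trans (le_of_eq ?_))
  simp only [sum_const, nsmul_eq_mul]
  ring

theorem gg_XX {β y : ℝ} (h0 : 0 < β) (hy : 0 ≤ y) : gg β (XX β y) = y := by
  have e : 0 ≤ Real.sinh (β * y) := Real.sinh_nonneg_iff.2 (by positivity)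
  unfold gg XX
  rw [← div_pow, Real.sqrt_sq (by positivity), mul_div_cancel₀ _ h0.ne', Real.arsinh_sinh]
  field_simp

theorem XX_gg {β x : ℝ} (h0 : 0 < β) (hx : 0 ≤ x) : XX β (gg β x) = x := by
  unfold gg XX
  rw [mul_div_cancel₀ _ h0.ne', Real.sinh_arsinh, mul_pow, Real.sq_sqrt hx]
  field_simp

theorem XX_mono {β y y' : ℝ} (h0 : 0 < β) (hy : 0 ≤ y) (h : y ≤ y') : XX β y ≤ XX β y' := by
  have e : 0 ≤ Real.sinh (β * y) := Real.sinh_nonneg_iff.2 (by positivity)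
  have e' : Real.sinh (β * y) ≤ Real.sinh (β * y') := Real.sinh_le_sinh.2 (by gcongr)
  unfold XX
  gcongr

theorem XX_pos {β y : ℝ} (h0 : 0 < β) (hy : 0 < y) : 0 < XX β y := by
  have e : 0 < Real.sinh (β * y) := Real.sinh_pos_iff.2 (by positivity)
  unfold XX
  positivity

theorem gg_range {β x : ℝ} (h0 : 0 < β) (h1 : β ≤ 1) (x1 : 1 ≤ x) (x2 : x ≤ 2) :
    7 / 10 ≤ gg β x ∧ gg β x ≤ 3 / 2 := by
  have s1 : 1 ≤ Real.sqrt x := Real.one_le_sqrt.2 x1
  have s2 : Real.sqrt x ≤ 3 / 2 := by rw [Real.sqrt_le_left (by norm_num)]; linarith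
  unfold gg
  constructor
  · rw [le_div_iff₀ h0, ← Real.sinh_le_sinh, Real.sinh_arsinh, Real.sinh_eq]
    have e1 := Real.abs_exp_sub_one_sub_id_le (x := 7 / 10 * β)
      (by rw [abs_of_nonneg (by positivity)]; linarith)
    have e2 := Real.add_one_le_exp (-(7 / 10 * β))
    have e3 := (abs_le.1 e1).2
    nlinarith
  · rw [div_le_iff₀ h0, ← Real.sinh_le_sinh, Real.sinh_arsinh]
    refine le_trans ?_ (Real.self_le_sinh_iff.2 (by positivity))
    nlinarith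

theorem poisson_step (hP : PoissonStmt) {A β : ℝ} {N R : ℕ} (h0 : 0 < β) (hN : 1 ≤ N)
    (hw : G2 (fun y => (wr β y : ℂ)) A) (ε : ℝ → ℂ) (U : Finset ℝ) (hR : N * XX β 2 < R)
    (hs : Summable fun ν : ℤ => FM N β (fun y => (wr β y : ℂ)) ε U (-ν)) :
    HasSum (fun ν : ℤ => FM N β (fun y => (wr β y : ℂ)) ε U (-ν))
      (∑ n ∈ range R, ((om (gg β (n / N)) * ‖rho ε U (gg β (n / N))‖ ^ 2 : ℝ) : ℂ)) := by
  have n0 : (0 : ℝ) < N := by exact_mod_cast hN
  have nc : (N : ℂ) ≠ 0 := by exact_mod_cast n0.ne'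
  have c0 := om_smooth.continuous
  have e : ∀ ν : ℤ, ((N : ℝ) : ℂ) * ∫ x in (XX β (1 / 2))..(XX β 2),
      ((om (gg β x) * ‖rho ε U (gg β x)‖ ^ 2 : ℝ) : ℂ) * E (N * ν * x) =
      FM N β (fun y => (wr β y : ℂ)) ε U (-ν) := fun ν => by
    rw [FM_eq hw, ← intervalIntegral.integral_deriv_smul_comp (fun y _ => XX_d h0.ne' y)
      (by unfold X1; fun_prop) (by fun_prop), Complex.ofReal_natCast]
    congr 1
    refine intervalIntegral.integral_congr fun y hy => ?_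
    rw [Set.uIcc_of_le (by norm_num)] at hy
    have y0 : 0 ≤ y := by linarith [hy.1]
    simp only [Function.comp, gg_XX h0 y0, Complex.real_smul, wr, Int.cast_neg, mul_neg, neg_mul,
      neg_neg]
    push_cast
    ring
  have := hP (fun x => ((om (gg β x) * ‖rho ε U (gg β x)‖ ^ 2 : ℝ) : ℂ)) (XX β (1 / 2)) (XX β 2)
    N R (XX_pos h0 (by norm_num)) (XX_mono h0 (by norm_num) (by norm_num)) n0 hR (by fun_prop)
    (by simp only [gg_XX h0 (by norm_num : (0 : ℝ) ≤ 1 / 2), (om_zero (y := 1 / 2) (by simp)).1]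
        simp)
    (by simp only [gg_XX h0 (by norm_num : (0 : ℝ) ≤ 2), (om_zero (y := 2) (by simp)).1]
        simp)
    (fun x x0 hx => by
      have : gg β x ∉ Set.Ioo (1 / 2 : ℝ) 2 := fun h => hx (by
        rw [← XX_gg h0 x0]
        exact ⟨XX_mono h0 (by norm_num) h.1.le, XX_mono h0 (by linarith [h.1]) h.2.le⟩)
      simp [(om_zero this).1])
    (by
      refine (summable_mul_left_iff (a := ((N : ℝ) : ℂ)) (by exact_mod_cast n0.ne')).1 ?_
      simpa only [e] using hs)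
  simpa only [e] using this

theorem dual {N R : ℕ} {β : ℝ} {a : ℕ → ℂ} (U : Finset ℝ) (hN : 1 ≤ N) (h0 : 0 < β) (h1 : β ≤ 1)
    (ha : ∀ k, ‖a k‖ ≤ 1) (hR : 2 * N < R) {ε : ℝ → ℂ}
    (hε : ∀ t, ε t * Dsum N β a t = ‖Dsum N β a t‖) :
    (∑ t ∈ U, ‖Dsum N β a t‖) ^ 2 ≤
      N * ∑ n ∈ range R, om (gg β (n / N)) * ‖rho ε U (gg β (n / N))‖ ^ 2 := by
  have n0 : (0 : ℝ) < N := by exact_mod_cast hN
  have e1 : ((∑ t ∈ U, ‖Dsum N β a t‖ : ℝ) : ℂ) =
      ∑ k ∈ Ioc N (2 * N), a k * rho ε U (gg β (k / N)) := by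
    rw [Complex.ofReal_sum]
    simp only [← hε]
    simp only [Dsum, rho, mul_sum]
    rw [sum_comm]
    refine sum_congr rfl fun k _ => sum_congr rfl fun t _ => ?_
    rw [mul_comm t]
    ring
  have e2 : ∑ t ∈ U, ‖Dsum N β a t‖ ≤ ∑ k ∈ Ioc N (2 * N), ‖rho ε U (gg β (k / N))‖ := by
    have : ‖((∑ t ∈ U, ‖Dsum N β a t‖ : ℝ) : ℂ)‖ = ∑ t ∈ U, ‖Dsum N β a t‖ := by
      rw [Complex.norm_real, Real.norm_eq_abs, abs_of_nonneg (by positivity)]
    rw [← this, e1]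
    refine (norm_sum_le _ _).trans (sum_le_sum fun k _ => ?_)
    rw [norm_mul]
    exact mul_le_of_le_one_left (norm_nonneg _) (ha k)
  calc _ ≤ (∑ k ∈ Ioc N (2 * N), ‖rho ε U (gg β (k / N))‖) ^ 2 := by gcongr
    _ ≤ (Ioc N (2 * N)).card * ∑ k ∈ Ioc N (2 * N), ‖rho ε U (gg β (k / N))‖ ^ 2 :=
        sq_sum_le_card_mul_sum_sq
    _ = N * ∑ k ∈ Ioc N (2 * N), om (gg β (k / N)) * ‖rho ε U (gg β (k / N))‖ ^ 2 := by
        rw [Nat.card_Ioc, show 2 * N - N = N by omega]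
        congr 1
        refine sum_congr rfl fun k hk => ?_
        obtain ⟨k1, k2⟩ := mem_Ioc.1 hk
        have k3 : (N : ℝ) ≤ k := by exact_mod_cast k1.le
        have k4 : (k : ℝ) ≤ 2 * N := by exact_mod_cast k2
        obtain ⟨g1, g2⟩ := gg_range (x := k / N) h0 h1 (by rwa [one_le_div n0])
          (by rwa [div_le_iff₀ n0])
        rw [om_one g1 g2, one_mul]
    _ ≤ _ := by
        gcongr ?_ * ?_
        refine sum_le_sum_of_subset_of_nonneg (fun k hk => ?_) fun k _ _ =>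
          mul_nonneg (om_nonneg _) (by positivity)
        have := (mem_Ioc.1 hk).2
        exact mem_range.2 (by omega)

theorem sum_even (f : ℤ → ℝ) (hf : ∀ m, f (-m) = f m) (K : ℕ) :
    ∑ ν ∈ Icc (-(K : ℤ)) K, f ν = f 0 + 2 * ∑ m ∈ Icc 1 K, f (m : ℕ) := by
  rw [sum_Icc_of_even_eq_range hf, sum_range_succ', ← Finset.Ico_add_one_right_eq_Icc,
    sum_Ico_eq_sum_range]
  simp only [add_tsub_cancel_right, add_comm 1, Nat.cast_zero, two_nsmul]
  ring

end B0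

open B0

theorem b0_of (hK : Kern) (hN : NonStatStmt) (hP : PoissonStmt) : B0Stmt := by
  obtain ⟨A, hA, hG⟩ := exists_G2
  obtain ⟨C, hC, hT⟩ := FM_tail hN hA
  have hZ := Star00.Z2_nonneg
  refine ⟨A, A * Real.exp 30 + C * Star00.Z2 + 2, by positivity, ?_⟩
  intro N β s M a U hN1 hM h0 h1 ha hU hW
  have n0 : (0 : ℝ) < N := by exact_mod_cast hN1
  have hex : ∀ t, ∃ c : ℂ, ‖c‖ = 1 ∧ c * Dsum N β a t = ‖Dsum N β a t‖ := fun t =>
    Complex.exists_norm_eq_mul_self _ |>.imp fun c h => ⟨h.1, h.2.symm⟩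
  choose ε hε1 hε2 using hex
  have hε : ∀ t, ‖ε t‖ ≤ 1 := fun t => (hε1 t).le
  have hw := hG β h0 h1
  refine ⟨_, ε, hw, hε, ?_⟩
  obtain ⟨sm, hx⟩ := Star00.tail_bound (fun ν : ℤ => FM N β (fun y => (wr β y : ℂ)) ε U (-ν))
    (Icc (-(⌈2 * M⌉₊ : ℤ)) ⌈2 * M⌉₊) _ _ (Star00.hasSum_Z2.mul_left (C * U.card ^ 2 / N))
    (fun ν => by positivity) (fun ν hν => by
      rw [FM_neg hw]
      refine hT N β s M _ ε U ν hN1 hM h0 h1 hw hε hW ((Nat.le_ceil _).trans ?_)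
      rw [mem_Icc, ← abs_le, not_le] at hν
      exact_mod_cast hν.le)
  obtain ⟨R, hR⟩ := exists_nat_gt (N * XX β 2 + 2 * N)
  have x0 := XX_pos h0 (show (0 : ℝ) < 2 by norm_num)
  have hR1 : N * XX β 2 < R := by linarith
  have hR2 : 2 * N < R := by
    have : (2 * N : ℝ) < R := by nlinarith
    exact_mod_cast this
  have p := hx _ (poisson_step hP h0 hN1 hw ε U hR1 sm)
  have d := dual U hN1 h0 h1 ha hR2 hε2
  rw [← Complex.ofReal_sum] at p
  set x := ∑ n ∈ range R, om (gg β (n / N)) * ‖rho ε U (gg β (n / N))‖ ^ 2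
  set F := FM N β (fun y => (wr β y : ℂ)) ε U with hF
  have q1 : ‖∑ ν ∈ Icc (-(⌈2 * M⌉₊ : ℤ)) ⌈2 * M⌉₊, F (-ν)‖ ≤
      ‖F 0‖ + 2 * ∑ m ∈ Icc 1 ⌈2 * M⌉₊, ‖F (m : ℕ)‖ := by
    rw [← sum_even (fun ν => ‖F ν‖) (FM_neg hw N β ε U)]
    exact (norm_sum_le _ _).trans (sum_le_sum fun ν _ => (FM_neg hw N β ε U ν).le)
  have q2 : ‖F 0‖ ≤ N * (A * (Real.exp 30 * U.card)) := FM_zero hK hw N β hε hU
  have q3 : x ≤ ‖(x : ℂ)‖ := by rw [Complex.norm_real]; exact le_abs_self _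
  have q4 := norm_add_le ((x : ℂ) - ∑ ν ∈ Icc (-(⌈2 * M⌉₊ : ℤ)) ⌈2 * M⌉₊, F (-ν))
    (∑ ν ∈ Icc (-(⌈2 * M⌉₊ : ℤ)) ⌈2 * M⌉₊, F (-ν))
  rw [sub_add_cancel] at q4
  set S := ∑ m ∈ Icc 1 ⌈2 * M⌉₊, ‖F (m : ℕ)‖
  have S0 : 0 ≤ S := sum_nonneg fun _ _ => norm_nonneg _
  have q5 : x ≤ C * U.card ^ 2 / N * Star00.Z2 + (N * (A * (Real.exp 30 * U.card)) + 2 * S) := by
    linarith
  have a1 : 0 ≤ A * Real.exp 30 := by positivity
  have a2 : 0 ≤ C * Star00.Z2 := by positivity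
  have a3 : (0 : ℝ) ≤ N ^ 2 * U.card := by positivity
  have a4 : (0 : ℝ) ≤ U.card ^ 2 := by positivity
  have a5 : 0 ≤ N * S := by positivity
  calc _ ≤ N * x := d
    _ ≤ N * (C * U.card ^ 2 / N * Star00.Z2 + (N * (A * (Real.exp 30 * U.card)) + 2 * S)) := by
        gcongr
    _ = A * Real.exp 30 * (N ^ 2 * U.card) + C * Star00.Z2 * U.card ^ 2 + 2 * (N * S) := by
        field_simp
        ring
    _ ≤ _ := by nlinarith [mul_nonneg a1 a4, mul_nonneg a1 a5, mul_nonneg a2 a3, mul_nonneg a2 a5]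

end Pool.Agent.MP_3d0d30_nt.Six

end MrgPart1

-- ======== part 2: formerly Pool.Agent.MP_3d0d30_nt.Six.Star0
section MrgPart2

/-! Project SIX, module Star0: from the Atkinson type sums to the off-diagonal sums. -/

set_option autoImplicit false

namespace Pool.Agent.MP_3d0d30_nt.Six

open MeasureTheory Finset Filter
open scoped ComplexConjugate

namespace Star0

/-- scaling of the coefficient bound -/
theorem scale {S : Finset ℕ} {e : ℝ → ℕ → ℂ} {U : Finset ℝ} {W : ℝ}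
    (hW : ∀ a : ℕ → ℂ, (∀ k, ‖a k‖ ≤ 1) → ∑ u ∈ U, ‖∑ k ∈ S, a k * e u k‖ ≤ W)
    (a : ℕ → ℂ) {ρ : ℝ} (hρ : 0 ≤ ρ) (ha : ∀ k ∈ S, ‖a k‖ ≤ ρ) :
    ∑ u ∈ U, ‖∑ k ∈ S, a k * e u k‖ ≤ ρ * W := by
  classical
  rcases hρ.eq_or_lt with h | h
  · subst h
    have : ∀ u ∈ U, ‖∑ k ∈ S, a k * e u k‖ = 0 := fun u _ => by
      rw [norm_eq_zero]
      refine sum_eq_zero fun k hk => ?_
      rw [norm_le_zero_iff.1 (ha k hk), zero_mul]
    rw [sum_congr rfl this]
    simp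
  · have h1 := hW (fun k => if k ∈ S then a k / ρ else 0) fun k => by
      split_ifs with hk
      · rw [norm_div, Complex.norm_real, Real.norm_eq_abs, abs_of_pos h, div_le_one h]
        exact ha k hk
      · simp
    have h2 : ∀ u ∈ U, ‖∑ k ∈ S, a k * e u k‖ =
        ρ * ‖∑ k ∈ S, (if k ∈ S then a k / ρ else 0) * e u k‖ := fun u _ => by
      have hρ' : (ρ : ℂ) ≠ 0 := by exact_mod_cast h.ne'
      have : ∑ k ∈ S, a k * e u k = ρ * ∑ k ∈ S, (if k ∈ S then a k / ρ else 0) * e u k := by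
        rw [mul_sum]
        refine sum_congr rfl fun k hk => ?_
        rw [if_pos hk]
        field_simp
      rw [this, norm_mul, Complex.norm_real, Real.norm_eq_abs, abs_of_pos h]
    rw [sum_congr rfl h2, ← mul_sum]
    gcongr

/-- telescoping along the ordered points -/
theorem slow_aux {S : Finset ℕ} {e b : ℝ → ℕ → ℂ} {U : Finset ℝ} {W Λ M : ℝ} {p : ℝ → ℝ}
    (hW : ∀ a : ℕ → ℂ, (∀ k, ‖a k‖ ≤ 1) → ∑ u ∈ U, ‖∑ k ∈ S, a k * e u k‖ ≤ W)
    (hΛ : 0 ≤ Λ) (hM : ∀ u ∈ U, p u ≤ M) (hp : ∀ u ∈ U, ∀ u' ∈ U, u ≤ u' → p u ≤ p u')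
    (hb : ∀ u ∈ U, ∀ u' ∈ U, u ≤ u' → ∀ k ∈ S, ‖b u' k - b u k‖ ≤ Λ * (p u' - p u))
    (V : Finset ℝ) : V ⊆ U → ∀ m ∈ U, (∀ u ∈ V, m ≤ u) →
      ∑ u ∈ V, ‖∑ k ∈ S, (b u k - b m k) * e u k‖ ≤ Λ * (M - p m) * W := by
  have hW0 : 0 ≤ W := le_trans (sum_nonneg fun _ _ => norm_nonneg _) (hW 0 (by simp))
  induction V using Finset.induction_on_min with
  | empty =>
    intro _ m hm _
    have := hM m hm
    rw [sum_empty]
    exact mul_nonneg (mul_nonneg hΛ (by linarith)) hW0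
  | insert x s hx ih =>
    intro hsub m hm hmin
    have hxU : x ∈ U := hsub (mem_insert_self _ _)
    have hxs : x ∉ s := fun h => lt_irrefl _ (hx x h)
    have hmx : m ≤ x := hmin x (mem_insert_self _ _)
    have h1 := ih (fun u hu => hsub (mem_insert_of_mem hu)) x hxU fun u hu => (hx u hu).le
    have h2 := scale hW (fun k => b x k - b m k)
      (mul_nonneg hΛ (sub_nonneg.2 (hp m hm x hxU hmx))) (hb m hm x hxU hmx)
    have h3 : ∑ u ∈ insert x s, ‖∑ k ∈ S, (b x k - b m k) * e u k‖ ≤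
        ∑ u ∈ U, ‖∑ k ∈ S, (b x k - b m k) * e u k‖ :=
      sum_le_sum_of_subset_of_nonneg hsub fun _ _ _ => norm_nonneg _
    have h4 : ∑ u ∈ insert x s, ‖∑ k ∈ S, (b u k - b x k) * e u k‖ =
        ∑ u ∈ s, ‖∑ k ∈ S, (b u k - b x k) * e u k‖ := by
      rw [sum_insert hxs]; simp
    calc _ ≤ ∑ u ∈ insert x s, (‖∑ k ∈ S, (b u k - b x k) * e u k‖ +
          ‖∑ k ∈ S, (b x k - b m k) * e u k‖) := by
          refine sum_le_sum fun u _ => le_trans (le_of_eq ?_) (norm_add_le _ _)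
          rw [← sum_add_distrib]
          congr 1
          exact sum_congr rfl fun k _ => by ring
      _ ≤ Λ * (M - p x) * W + Λ * (p x - p m) * W := by
          rw [sum_add_distrib, h4]; linarith
      _ = _ := by ring

/-- slowly varying coefficients -/
theorem slow {S : Finset ℕ} {e b : ℝ → ℕ → ℂ} {U : Finset ℝ} {W A Λ s L : ℝ} {p : ℝ → ℝ}
    (hW : ∀ a : ℕ → ℂ, (∀ k, ‖a k‖ ≤ 1) → ∑ u ∈ U, ‖∑ k ∈ S, a k * e u k‖ ≤ W)
    (hA : 0 ≤ A) (hΛ : 0 ≤ Λ) (hL : 0 ≤ L) (hM : ∀ u ∈ U, s ≤ p u ∧ p u ≤ s + L)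
    (hp : ∀ u ∈ U, ∀ u' ∈ U, u ≤ u' → p u ≤ p u')
    (h0 : ∀ u ∈ U, ∀ k ∈ S, ‖b u k‖ ≤ A)
    (hb : ∀ u ∈ U, ∀ u' ∈ U, u ≤ u' → ∀ k ∈ S, ‖b u' k - b u k‖ ≤ Λ * (p u' - p u)) :
    ∑ u ∈ U, ‖∑ k ∈ S, b u k * e u k‖ ≤ (A + Λ * L) * W := by
  have hW0 : 0 ≤ W := le_trans (sum_nonneg fun _ _ => norm_nonneg _) (hW 0 (by simp))
  rcases U.eq_empty_or_nonempty with h | h
  · subst h
    rw [sum_empty]
    positivity
  · have hm := U.min'_mem h
    have h1 := slow_aux hW hΛ (fun u hu => (hM u hu).2) hp hb U Subset.rfl _ hm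
      fun u hu => U.min'_le u hu
    have h2 := scale hW (b (U.min' h)) hA (h0 _ hm)
    have h3 : Λ * (s + L - p (U.min' h)) * W ≤ Λ * L * W := by
      have := (hM _ hm).1
      gcongr
      linarith
    calc _ ≤ ∑ u ∈ U, (‖∑ k ∈ S, (b u k - b (U.min' h) k) * e u k‖ +
          ‖∑ k ∈ S, b (U.min' h) k * e u k‖) := by
          refine sum_le_sum fun u _ => le_trans (le_of_eq ?_) (norm_add_le _ _)
          rw [← sum_add_distrib]
          congr 1
          exact sum_congr rfl fun k _ => by ring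
      _ ≤ _ := by rw [sum_add_distrib]; linarith

/-- dyadic blocks -/
theorem sum_blocks (f : ℕ → ℂ) (N J : ℕ) :
    ∑ k ∈ Ioc N (2 ^ J * N), f k = ∑ j ∈ range J, ∑ k ∈ Ioc (2 ^ j * N) (2 * (2 ^ j * N)), f k := by
  induction J with
  | zero => simp
  | succ J ih =>
    rw [sum_range_succ, ← ih, pow_succ, mul_comm (2 ^ J) 2, mul_assoc]
    refine (sum_Ioc_consecutive f ?_ (by omega)).symm
    exact Nat.le_mul_of_pos_left _ (by positivity)

/-- the coefficients are bounded by the divisor function -/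
theorem norm_dk_le {c : ℕ → ℂ} (hc : ∀ h, ‖c h‖ ≤ 1) (H : ℕ) {k : ℕ} (hk : k ≠ 0) :
    ‖dk c H k‖ ≤ k.divisors.card := by
  unfold dk
  refine (norm_sum_le _ _).trans ((sum_le_card_nsmul _ _ 1 fun h _ => hc h).trans ?_)
  rw [nsmul_eq_mul, mul_one, Nat.cast_le]
  refine card_le_card fun h hh => ?_
  exact Nat.mem_divisors.2 ⟨(mem_filter.1 hh).2, hk⟩

/-- the rescaled frequency -/
theorem gam_eq {N : ℕ} (hN : 0 < N) {u0 : ℝ} (hu : 0 < u0) (x : ℝ) (k : ℕ) :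
    x * gam u0 k = x * (2 / Real.pi * Real.sqrt (Real.pi * N / 2)) *
      gg (Real.sqrt (Real.pi * N / 2) / u0) (k / N) := by
  have hN' : (0 : ℝ) < N := by exact_mod_cast hN
  have hs : 0 < Real.sqrt (Real.pi * N / 2) := Real.sqrt_pos.2 (by positivity)
  have e : Real.sqrt (Real.pi * N / 2) / u0 * Real.sqrt (k / N) =
      Real.sqrt (Real.pi * k / 2) / u0 := by
    rw [div_mul_eq_mul_div, ← Real.sqrt_mul (by positivity)]
    congr 2
    field_simp
  unfold gam gg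
  rw [e]
  field_simp

/-- the bound on one window in the original variable -/
theorem window_D {T Y Z u0 : ℝ} {N : ℕ} {J : Finset ℝ} (hT : 0 < T) (hY : 100 ≤ Y)
    (hD : DBound T Y Z) (hN1 : T / Y ^ 2 / 512 ≤ N) (hN2 : (N : ℝ) ≤ 32 * (T / Y ^ 2))
    (hu : 0 < u0) (hu2 : T ≤ u0 ^ 2) (hJ : Win J T T) (hS : Sep (100 * Y) J)
    (hw : ∀ t ∈ J, u0 ≤ Real.sqrt t ∧ Real.sqrt t ≤ u0 + Real.sqrt (Y ^ 3))
    (a : ℕ → ℂ) (ha : ∀ k, ‖a k‖ ≤ 1) :
    ∑ t ∈ J, ‖∑ k ∈ Ioc N (2 * N), a k * E ((Real.sqrt t - u0) * gam u0 k)‖ ≤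
      (N * T) ^ (1 / 4 : ℝ) * J.card + Z := by
  classical
  have hY0 : 0 < Y := by linarith
  have hK : 0 < T / Y ^ 2 := by positivity
  have hN' : (0 : ℝ) < N := lt_of_lt_of_le (by positivity) hN1
  have hN : 0 < N := by exact_mod_cast hN'
  have p1 := Real.pi_gt_three
  have p2 := Real.pi_lt_d2
  set s := Real.sqrt (Real.pi * N / 2) with hs
  have hs0 : 0 < s := Real.sqrt_pos.2 (by positivity)
  have hs2 : s ^ 2 = Real.pi * N / 2 := Real.sq_sqrt (by positivity)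
  set σ := 2 / Real.pi * s with hσ
  have hσ0 : 0 < σ := by positivity
  have hσ2 : σ ^ 2 = 2 * N / Real.pi := by
    rw [hσ, mul_pow, hs2]; field_simp
  have hβ2 : (s / u0) ^ 2 ≤ 2 * N / T := by
    rw [div_pow, hs2]
    gcongr
    nlinarith
  have hβ1 : s / u0 ≤ 1 := by
    have h1 : 2 * (N : ℝ) / T ≤ 1 := by
      rw [div_le_one hT]
      have h2 : T / Y ^ 2 ≤ T / 64 := by
        gcongr; nlinarith
      linarith
    exact (sq_le_one_iff₀ (by positivity)).1 (hβ2.trans h1)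
  set τ : ℝ → ℝ := fun t => (Real.sqrt t - u0) * σ with hτ
  have hsep : ∀ t ∈ J, ∀ t' ∈ J, t ≠ t' → 1 ≤ |τ t - τ t'| := by
    intro t ht t' ht' hne
    have h1 := hS t ht t' ht' hne
    obtain ⟨a1, a2⟩ := hJ t ht
    obtain ⟨b1, b2⟩ := hJ t' ht'
    have ht0 : 0 ≤ t := by linarith
    have ht0' : 0 ≤ t' := by linarith
    have e1 : τ t - τ t' = (Real.sqrt t - Real.sqrt t') * σ := by simp only [hτ]; ring
    have e2 : (t - t') ^ 2 = (Real.sqrt t - Real.sqrt t') ^ 2 * (Real.sqrt t + Real.sqrt t') ^ 2 := by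
      rw [← mul_pow]
      congr 1
      nlinarith [Real.sq_sqrt ht0, Real.sq_sqrt ht0']
    have e3 : (Real.sqrt t + Real.sqrt t') ^ 2 ≤ 8 * T := by
      nlinarith [Real.sq_sqrt ht0, Real.sq_sqrt ht0', sq_nonneg (Real.sqrt t - Real.sqrt t')]
    have e4 : (100 * Y) ^ 2 ≤ (t - t') ^ 2 := by
      rw [← sq_abs (t - t')]; gcongr
    have e5 : (100 * Y) ^ 2 ≤ (Real.sqrt t - Real.sqrt t') ^ 2 * (8 * T) := by
      refine e4.trans ?_
      rw [e2]; gcongr
    have e6 : T / Y ^ 2 / 1024 ≤ σ ^ 2 := by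
      rw [hσ2, le_div_iff₀ (by positivity)]
      nlinarith
    have e7 : (100 * Y) ^ 2 / (8 * T) ≤ (Real.sqrt t - Real.sqrt t') ^ 2 := by
      rwa [div_le_iff₀ (by positivity)]
    rw [← one_le_sq_iff_one_le_abs, e1, mul_pow]
    calc (1 : ℝ) ≤ (100 * Y) ^ 2 / (8 * T) * (T / Y ^ 2 / 1024) := by
          have : (100 * Y) ^ 2 / (8 * T) * (T / Y ^ 2 / 1024) = 10000 / 8192 := by
            field_simp; norm_num
          rw [this]; norm_num
      _ ≤ _ := by gcongr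
  have hinj : Set.InjOn τ J := fun t ht t' ht' h => by
    by_contra hne
    have := hsep t ht t' ht' hne
    rw [h, sub_self, abs_zero] at this
    linarith
  have h1 := hD N (s / u0) a (J.image τ) hN1 (by linarith) (by positivity) hβ1 hβ2 ha ?_ ?_
  · rw [sum_image hinj, card_image_of_injOn hinj] at h1
    refine le_trans (le_of_eq ?_) h1
    refine sum_congr rfl fun t _ => ?_
    unfold Dsum
    congr 1
    refine sum_congr rfl fun k _ => ?_
    rw [gam_eq hN hu]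
  · intro x hx y hy hxy
    obtain ⟨t, ht, rfl⟩ := mem_image.1 hx
    obtain ⟨t', ht', rfl⟩ := mem_image.1 hy
    exact hsep t ht t' ht' fun h => hxy (by rw [h])
  · intro x hx
    obtain ⟨t, ht, rfl⟩ := mem_image.1 hx
    obtain ⟨w1, w2⟩ := hw t ht
    refine ⟨mul_nonneg (by linarith) hσ0.le, ?_⟩
    have e1 : σ ^ 2 ≤ 49 * (T / Y ^ 2) := by
      rw [hσ2, div_le_iff₀ (by positivity)]
      nlinarith
    have e2 : Real.sqrt (Y ^ 3) * σ ≤ 7 * Real.sqrt (T * Y) := by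
      refine abs_le_of_sq_le_sq' ?_ (by positivity) |>.2
      rw [mul_pow (Real.sqrt (Y ^ 3)), mul_pow 7, Real.sq_sqrt (show 0 ≤ Y ^ 3 by positivity),
        Real.sq_sqrt (show 0 ≤ T * Y by positivity)]
      calc Y ^ 3 * σ ^ 2 ≤ Y ^ 3 * (49 * (T / Y ^ 2)) := by gcongr
        _ = _ := by field_simp; norm_num
    calc τ t ≤ Real.sqrt (Y ^ 3) * σ := by
          simp only [hτ]
          gcongr
          linarith
      _ ≤ _ := by linarith

/-- the two amplitude bounds, unpacked -/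
def AmpB (C1 C2 : ℝ) : Prop :=
  (∀ (T Y t k : ℝ) (a : ℝ → ℂ), 0 < T → 8 ≤ Y → Amp Y a →
    T ≤ t → t ≤ 2 * T → ‖II a Y t k‖ ≤ C1 * Real.sqrt (Y ^ 3 / T)) ∧
  ∀ (T Y k u0 L u u' : ℝ) (a : ℝ → ℂ), 0 < T → 100 ≤ Y →
    Amp Y a → T / Y ^ 2 / 1000 ≤ k → k ≤ 1000 * (T / Y ^ 2) → 0 < u0 → T ≤ u0 ^ 2 →
    u0 ≤ u → u ≤ u0 + L → u ^ 2 ≤ 2 * T → u0 ≤ u' → u' ≤ u0 + L → u' ^ 2 ≤ 2 * T →
    ‖II a Y (u ^ 2) k * E (-((u - u0) * gam u0 k)) -
      II a Y (u' ^ 2) k * E (-((u' - u0) * gam u0 k))‖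
      ≤ C2 * (Real.sqrt (Y ^ 3 / T) * (1 / Real.sqrt T + L / Y ^ 3) * |u - u'|)

/-- one window and one block -/
theorem window_I {C1 C2 T Y Z u0 d : ℝ} {N : ℕ} {J : Finset ℝ} {a : ℝ → ℂ} {c : ℕ → ℂ}
    (hC : AmpB C1 C2) (hC1 : 0 < C1) (hC2 : 0 < C2) (hT : 0 < T) (hY : 100 ≤ Y) (hYT : Y ^ 3 ≤ T)
    (hZ : 0 ≤ Z) (hD : DBound T Y Z) (hN1 : T / Y ^ 2 / 512 ≤ N) (hN2 : (N : ℝ) ≤ 32 * (T / Y ^ 2))
    (hu : 0 < u0) (hu2 : T ≤ u0 ^ 2) (hJ : Win J T T) (hS : Sep (100 * Y) J)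
    (hw : ∀ t ∈ J, u0 ≤ Real.sqrt t ∧ Real.sqrt t ≤ u0 + Real.sqrt (Y ^ 3))
    (ha : Amp Y a) (hd : 0 ≤ d) (hc : ∀ k ∈ Ioc N (2 * N), ‖c k‖ ≤ d) :
    ∑ t ∈ J, ‖∑ k ∈ Ioc N (2 * N), c k * II a Y t k‖ ≤
      d * (C1 + 2 * C2) * (3 * Y * J.card + Real.sqrt (Y ^ 3 / T) * Z) := by
  have hY0 : 0 < Y := by linarith
  have hK : 0 < T / Y ^ 2 := by positivity
  set B := Real.sqrt (Y ^ 3 / T) with hB
  set L := Real.sqrt (Y ^ 3) with hL
  have hB0 : 0 ≤ B := Real.sqrt_nonneg _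
  have hL0 : 0 ≤ L := Real.sqrt_nonneg _
  have hL2 : L ^ 2 = Y ^ 3 := Real.sq_sqrt (by positivity)
  have hsT : 0 < Real.sqrt T := Real.sqrt_pos.2 hT
  have hLT : L ≤ Real.sqrt T := Real.sqrt_le_sqrt hYT
  have ht0 : ∀ t ∈ J, 0 ≤ t := fun t ht => by linarith [(hJ t ht).1]
  have ht2 : ∀ t ∈ J, Real.sqrt t ^ 2 ≤ 2 * T := fun t ht => by
    rw [Real.sq_sqrt (ht0 t ht)]; linarith [(hJ t ht).2]
  have h1 := slow (S := Ioc N (2 * N)) (U := J) (p := Real.sqrt) (s := u0) (L := L)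
    (e := fun t k => E ((Real.sqrt t - u0) * gam u0 k))
    (b := fun t k => c k * (II a Y t k * E (-((Real.sqrt t - u0) * gam u0 k))))
    (A := d * (C1 * B)) (Λ := d * (C2 * (B * (1 / Real.sqrt T + L / Y ^ 3))))
    (window_D hT hY hD hN1 hN2 hu hu2 hJ hS hw) (by positivity) (by positivity) hL0 hw
    (fun u _ u' _ h => Real.sqrt_le_sqrt h) ?_ ?_
  · have e1 : ∀ t ∈ J, ‖∑ k ∈ Ioc N (2 * N), c k * II a Y t k‖ = ‖∑ k ∈ Ioc N (2 * N),
        c k * (II a Y t k * E (-((Real.sqrt t - u0) * gam u0 k))) *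
          E ((Real.sqrt t - u0) * gam u0 k)‖ := fun t _ => by
      congr 1
      refine sum_congr rfl fun k _ => ?_
      rw [mul_assoc, mul_assoc, ← E_add, neg_add_cancel, E_zero, mul_one]
    rw [sum_congr rfl e1]
    refine h1.trans ?_
    have e2 : (1 / Real.sqrt T + L / Y ^ 3) * L ≤ 2 := by
      have f1 : 1 / Real.sqrt T * L ≤ 1 := by
        rw [one_div_mul_eq_div, div_le_one hsT]; exact hLT
      have f2 : L / Y ^ 3 * L = 1 := by
        rw [div_mul_eq_mul_div, ← sq, hL2, div_self (by positivity)]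
      linarith [add_mul (1 / Real.sqrt T) (L / Y ^ 3) L]
    have e3 : d * (C1 * B) + d * (C2 * (B * (1 / Real.sqrt T + L / Y ^ 3))) * L ≤
        d * (C1 + 2 * C2) * B := by
      have : d * (C2 * (B * (1 / Real.sqrt T + L / Y ^ 3))) * L =
          d * C2 * B * ((1 / Real.sqrt T + L / Y ^ 3) * L) := by ring
      rw [this]
      have : d * C2 * B * ((1 / Real.sqrt T + L / Y ^ 3) * L) ≤ d * C2 * B * 2 := by gcongr
      linarith
    have hNT : 0 ≤ (N : ℝ) * T := by positivity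
    have e4 : B * (N * T) ^ (1 / 4 : ℝ) ≤ 3 * Y := by
      refine le_of_pow_le_pow_left₀ (n := 4) (by norm_num) (by positivity) ?_
      have f1 : ((N * T) ^ (1 / 4 : ℝ)) ^ 4 = N * T := by
        rw [← Real.rpow_natCast, ← Real.rpow_mul hNT]; norm_num
      have f2 : B ^ 4 = (Y ^ 3 / T) ^ 2 := by
        rw [show 4 = 2 * 2 from rfl, pow_mul, hB, Real.sq_sqrt (by positivity)]
      rw [mul_pow, f1, f2]
      calc (Y ^ 3 / T) ^ 2 * (N * T) ≤ (Y ^ 3 / T) ^ 2 * (81 * (T / Y ^ 2) * T) := by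
            gcongr; linarith
        _ = _ := by field_simp; norm_num
    calc _ ≤ d * (C1 + 2 * C2) * B * ((N * T) ^ (1 / 4 : ℝ) * J.card + Z) := by gcongr
      _ = d * (C1 + 2 * C2) * (B * (N * T) ^ (1 / 4 : ℝ) * J.card + B * Z) := by ring
      _ ≤ _ := by gcongr
  · intro t ht k hk
    rw [norm_mul, norm_mul, norm_E, mul_one]
    have := hC.1 T Y t k a hT (by linarith) ha (hJ t ht).1 (by linarith [(hJ t ht).2])
    exact mul_le_mul (hc k hk) this (norm_nonneg _) hd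
  · intro t ht t' ht' htt k hk
    obtain ⟨k1, k2⟩ := mem_Ioc.1 hk
    have k1' : (N : ℝ) ≤ k := by exact_mod_cast k1.le
    have k2' : (k : ℝ) ≤ 2 * N := by exact_mod_cast k2
    have := hC.2 T Y k u0 L (Real.sqrt t') (Real.sqrt t) a hT hY ha (by linarith) (by linarith)
      hu hu2 (hw t' ht').1 (hw t' ht').2 (ht2 t' ht') (hw t ht).1 (hw t ht).2 (ht2 t ht)
    rw [Real.sq_sqrt (ht0 t ht), Real.sq_sqrt (ht0 t' ht'),
      abs_of_nonneg (sub_nonneg.2 (Real.sqrt_le_sqrt htt))] at this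
    rw [← mul_sub, norm_mul]
    calc _ ≤ d * (C2 * (B * (1 / Real.sqrt T + L / Y ^ 3) * (Real.sqrt t' - Real.sqrt t))) :=
          mul_le_mul (hc k hk) this (norm_nonneg _) hd
      _ = _ := by ring

/-- all windows, one block -/
theorem block_I {C1 C2 T Y Z d : ℝ} {N : ℕ} {J : Finset ℝ} {a : ℝ → ℂ} {c : ℕ → ℂ}
    (hC : AmpB C1 C2) (hC1 : 0 < C1) (hC2 : 0 < C2) (hT : 0 < T) (hY : 100 ≤ Y) (hYT : Y ^ 3 ≤ T)
    (hZ : 0 ≤ Z) (hD : DBound T Y Z) (hN1 : T / Y ^ 2 / 512 ≤ N) (hN2 : (N : ℝ) ≤ 32 * (T / Y ^ 2))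
    (hJ : Win J T T) (hS : Sep (100 * Y) J)
    (ha : Amp Y a) (hd : 0 ≤ d) (hc : ∀ k ∈ Ioc N (2 * N), ‖c k‖ ≤ d) :
    ∑ t ∈ J, ‖∑ k ∈ Ioc N (2 * N), c k * II a Y t k‖ ≤
      d * (C1 + 2 * C2) * (3 * Y * J.card + 2 * Z) := by
  classical
  have hY0 : 0 < Y := by linarith
  set L := Real.sqrt (Y ^ 3) with hL
  have hL0 : 0 < L := Real.sqrt_pos.2 (by positivity)
  have hsT : 0 < Real.sqrt T := Real.sqrt_pos.2 hT
  have hLT : L ≤ Real.sqrt T := Real.sqrt_le_sqrt hYT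
  set g : ℝ → ℕ := fun t => ⌊(Real.sqrt t - Real.sqrt T) / L⌋₊ with hg
  set I : ℕ := ⌊Real.sqrt T / L⌋₊ + 1 with hI
  have h1 : ∀ t ∈ J, Real.sqrt T ≤ Real.sqrt t := fun t ht => Real.sqrt_le_sqrt (hJ t ht).1
  have h2 : ∀ t ∈ J, Real.sqrt t ≤ 2 * Real.sqrt T := fun t ht => by
    refine abs_le_of_sq_le_sq' ?_ (by positivity) |>.2
    have := hJ t ht
    rw [mul_pow, Real.sq_sqrt hT.le, Real.sq_sqrt (by linarith)]
    linarith
  have hmap : ∀ t ∈ J, g t ∈ range I := fun t ht => by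
    rw [mem_range, hI, Nat.lt_succ_iff]
    refine Nat.floor_le_floor ?_
    gcongr
    linarith [h2 t ht]
  have hIB : (I : ℝ) * Real.sqrt (Y ^ 3 / T) ≤ 2 := by
    have e1 : Real.sqrt (Y ^ 3 / T) = L / Real.sqrt T := Real.sqrt_div (by positivity) _
    have e2 : (I : ℝ) ≤ 2 * (Real.sqrt T / L) := by
      have f1 : 1 ≤ Real.sqrt T / L := (one_le_div hL0).2 hLT
      have f2 := Nat.floor_le (show 0 ≤ Real.sqrt T / L by positivity)
      rw [hI]; push_cast; linarith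
    rw [e1]
    calc _ ≤ 2 * (Real.sqrt T / L) * (L / Real.sqrt T) := by gcongr
      _ = 2 := by field_simp
  have hcard : ∑ i ∈ range I, ((J.filter fun t => g t = i).card : ℝ) = J.card := by
    rw [card_eq_sum_card_fiberwise hmap]; push_cast; rfl
  rw [← sum_fiberwise_of_maps_to hmap]
  calc _ ≤ ∑ i ∈ range I, d * (C1 + 2 * C2) *
        (3 * Y * (J.filter fun t => g t = i).card + Real.sqrt (Y ^ 3 / T) * Z) := by
        refine sum_le_sum fun i _ => ?_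
        have hi : (0 : ℝ) ≤ i * L := by positivity
        refine window_I (u0 := Real.sqrt T + i * L) hC hC1 hC2 hT hY hYT hZ hD hN1 hN2
          (by positivity) ?_ (hJ.mono (filter_subset _ _)) (hS.mono (filter_subset _ _)) ?_ ha hd hc
        · nlinarith [Real.sq_sqrt hT.le]
        · intro t ht
          obtain ⟨htJ, hti⟩ := mem_filter.1 ht
          have f0 : 0 ≤ (Real.sqrt t - Real.sqrt T) / L := div_nonneg (sub_nonneg.2 (h1 t htJ)) hL0.le
          have f1 := Nat.floor_le f0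
          have f2 := (Nat.lt_floor_add_one ((Real.sqrt t - Real.sqrt T) / L)).le
          simp only [hg] at hti
          rw [hti] at f1 f2
          rw [le_div_iff₀ hL0] at f1
          rw [div_le_iff₀ hL0] at f2
          constructor <;> linarith
    _ = d * (C1 + 2 * C2) * (3 * Y * J.card + I * Real.sqrt (Y ^ 3 / T) * Z) := by
        rw [← mul_sum, sum_add_distrib, ← mul_sum, hcard, sum_const, card_range, nsmul_eq_mul,
          mul_assoc (I : ℝ)]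
    _ ≤ _ := by gcongr

end Star0

open Star0 in
theorem star0_of (h0 : Star00Stmt) (hI : IBoundStmt) (hA : AtkStmt) (hD : DivisorStmt) :
    Star0Stmt := by
  obtain ⟨C0, hC0, h0⟩ := h0
  obtain ⟨C1, hC1, hI⟩ := hI
  obtain ⟨C2, hC2, hA⟩ := hA
  intro ε hε
  obtain ⟨C3, hC3, hD⟩ := hD (ε / 2) (by linarith)
  have hC : AmpB C1 C2 := ⟨hI, hA⟩
  filter_upwards [eventually_ge_atTop ((256 : ℝ) ^ 3),
    (tendsto_rpow_atTop (show 0 < ε / 2 by linarith)).eventually_ge_atTop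
      (C0 + 42 * (C3 * (C1 + 2 * C2)))] with T hT1 hT2
  intro Y Z hY hYT hZ hDB H R a c J hH hHY hR ha hc hJ hS
  have hT : 0 < T := lt_of_lt_of_le (by norm_num) hT1
  have hY0 : 0 < Y := by linarith
  have hK : 256 ≤ T / Y ^ 2 := by
    refine le_of_pow_le_pow_left₀ (n := 3) (by norm_num) (by positivity) (hT1.trans ?_)
    rw [div_pow, le_div_iff₀ (by positivity)]
    calc T * (Y ^ 2) ^ 3 = T * (Y ^ 3) ^ 2 := by ring
      _ ≤ T * T ^ 2 := by gcongr
      _ = _ := by ring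
  have hKT : 64 * (T / Y ^ 2) ≤ T := by
    have : T / Y ^ 2 ≤ T / 64 := by gcongr; nlinarith
    linarith
  set N0 : ℕ := ⌊T / Y ^ 2 / 256⌋₊ with hN0
  have n1 : (N0 : ℝ) ≤ T / Y ^ 2 / 256 := Nat.floor_le (by positivity)
  have n2 : T / Y ^ 2 / 512 ≤ N0 := by
    have f1 : 1 ≤ N0 := Nat.le_floor (by push_cast; linarith)
    have f2 : (1 : ℝ) ≤ N0 := by exact_mod_cast f1
    have f3 := Nat.lt_floor_add_one (T / Y ^ 2 / 256)
    linarith
  set P := T ^ (ε / 2) with hP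
  have hP1 : 1 ≤ P := Real.one_le_rpow (by linarith) (by linarith)
  have hPP : T ^ ε = P * P := by rw [hP, ← Real.rpow_add hT]; norm_num
  have hb : ∀ j ∈ range 14, ∑ t ∈ J, ‖∑ k ∈ Ioc (2 ^ j * N0) (2 * (2 ^ j * N0)),
      dk c H k * II a Y t k‖ ≤ C3 * P * (C1 + 2 * C2) * (3 * Y * J.card + 2 * Z) := by
    intro j hj
    have j1 : (1 : ℝ) ≤ 2 ^ j := one_le_pow₀ (by norm_num)
    have j2 : (2 : ℝ) ^ j ≤ 2 ^ 13 :=
      pow_le_pow_right₀ (by norm_num) (Nat.lt_succ_iff.1 (mem_range.1 hj))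
    have j0 : (0 : ℝ) ≤ N0 := by positivity
    have j3 : ((2 ^ j * N0 : ℕ) : ℝ) ≤ 32 * (T / Y ^ 2) := by
      push_cast
      calc (2 : ℝ) ^ j * N0 ≤ 2 ^ 13 * (T / Y ^ 2 / 256) := by gcongr
        _ = _ := by ring
    refine block_I hC hC1 hC2 hT hY hYT hZ hDB ?_ j3 hJ hS ha (by positivity) fun k hk => ?_
    · push_cast; nlinarith
    · obtain ⟨k1, k2⟩ := mem_Ioc.1 hk
      have k3 : (k : ℝ) ≤ 2 * ((2 ^ j * N0 : ℕ) : ℝ) := by exact_mod_cast k2
      refine (norm_dk_le hc H (by omega)).trans ((hD k (by omega)).trans ?_)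
      rw [hP]
      gcongr
      linarith
  have hs : ∀ t ∈ J, ‖SS a c H R t‖ ≤ C0 * Y + ∑ j ∈ range 14,
      ‖∑ k ∈ Ioc (2 ^ j * N0) (2 * (2 ^ j * N0)), dk c H k * II a Y t k‖ := by
    intro t ht
    have h1 := h0 T Y t H R N0 (2 ^ 14 * N0) a c hT (by linarith) hH hHY hR ha hc (hJ t ht).1
      (by linarith [(hJ t ht).2]) n1 (by push_cast; linarith)
    rw [sum_blocks] at h1
    exact (norm_le_norm_sub_add _ _).trans (add_le_add h1 (norm_sum_le _ _))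
  have hQ : 0 < C3 * (C1 + 2 * C2) := by positivity
  have hn : (0 : ℝ) ≤ J.card := by positivity
  calc _ ≤ _ := sum_le_sum hs
    _ = C0 * Y * J.card + ∑ j ∈ range 14, ∑ t ∈ J,
        ‖∑ k ∈ Ioc (2 ^ j * N0) (2 * (2 ^ j * N0)), dk c H k * II a Y t k‖ := by
        rw [sum_add_distrib, sum_const, nsmul_eq_mul, mul_comm, sum_comm]
    _ ≤ C0 * Y * J.card + 14 * (C3 * P * (C1 + 2 * C2) * (3 * Y * J.card + 2 * Z)) := by
        have := sum_le_card_nsmul _ _ _ hb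
        rw [card_range, nsmul_eq_mul] at this
        push_cast at this
        linarith
    _ = (C0 + P * (42 * (C3 * (C1 + 2 * C2)))) * (Y * J.card) +
        P * (28 * (C3 * (C1 + 2 * C2))) * Z := by ring
    _ ≤ (P * P) * (Y * J.card) + P * P * Z := by
        gcongr
        · nlinarith
        · linarith
    _ = _ := by rw [hPP]; field_simp

end Pool.Agent.MP_3d0d30_nt.Six

end MrgPart2

-- marker of a merged file
example : 731051 + 571735 = 731051 + 571735 := rfl
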