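import Pool.Agent.MP_3d0d30_nt.Six.Small
import Pool.Agent.MP_3d0d30_nt.Six.RedZ
import Pool.Agent.MP_3d0d30_nt.Six.Energy
import Pool.Agent.MP_3d0d30_nt.Six.L4
import Pool.Agent.MP_3d0d30_nt.Six.Star0
import Pool.Agent.MP_3d0d30_nt.Six.LV
import Pool.Agent.MP_3d0d30_nt.Six.R1
import Pool.Agent.MP_3d0d30_nt.Six.DAB
import Pool.Agent.MP_3d0d30_nt.Six.RZeta
import Pool.Agent.MP_3d0d30_nt.Six.Spec2
import Pool.Agent.MP_3d0d30_nt.Six.Final2

/-! Project SIX: assembly. -/

set_option autoImplicit false

namespace Pool.Agent.MP_3d0d30_nt.Six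

theorem star00 : Star00Stmt := star00_of poisson (inonstat_of nonstat)

theorem star0 : Star0Stmt := star0_of star00 (ibound_of secder) (atk_of secder) divisor

theorem startriv : StarTrivStmt := startriv_of star00 (ibound_of secder) divisor

theorem redz : RedZStmt := redz_of (r1_of kern) r2

theorem lz1 : LZ1Stmt := lz1_of redz rzeta star0 startriv (da_of (halasz_of hbound))

theorem lv : LVStmt :=
  lv_of (energy_of kern hbound) (l4_of kern firstder secder) (b0_of kern nonstat poisson)

theorem lz2 : LZ2Stmt := lz2_of redz rzeta star0 startriv (db_of lv) lz1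

theorem main : MainStmt := main_of lz1 lz2

end Pool.Agent.MP_3d0d30_nt.Six
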