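import Pool.Agent.MP_3d0d30_nt.Six.Spec2
import Pool.Agent.MP_3d0d30_nt.Six.Star0

/-! Project SIX, second stage, module HK: the sum of the dual kernels. -/

set_option autoImplicit false

namespace Pool.Agent.MP_3d0d30_nt.Six

open MeasureTheory Finset Filter
open scoped ComplexConjugate

namespace HK

open B0

theorem sinh_le {u : ℝ} (h0 : 0 ≤ u) (h1 : u ≤ 1) : Real.sinh u ≤ u + u ^ 3 / 4 := by
  have e1 := Real.exp_bound (x := u) (by rwa [abs_of_nonneg h0]) (n := 3) (by norm_num)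
  have e2 := Real.exp_bound (x := -u) (by rwa [abs_neg, abs_of_nonneg h0]) (n := 3) (by norm_num)
  rw [abs_neg] at e2
  rw [abs_of_nonneg h0] at e1 e2
  simp only [sum_range_succ, range_zero, sum_empty, Nat.factorial] at e1 e2
  norm_num at e1 e2
  have p := pow_nonneg h0 3
  rw [Real.sinh_eq]
  linarith [(abs_le.1 e1).2, (abs_le.1 e2).1]

theorem Xb {β y : ℝ} (h0 : 0 < β) (h1 : β ≤ 1 / 10) (hy : y ∈ Set.Icc (1 / 2 : ℝ) 2) :
    (0 ≤ XX β y - y ^ 2 ∧ XX β y - y ^ 2 ≤ 16 * β ^ 2) ∧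
    (0 ≤ X1 β y - 2 * y ∧ X1 β y - 2 * y ≤ 16 * β ^ 2) ∧
    (0 ≤ X2 β y - 2 ∧ X2 β y - 2 ≤ 32 * β ^ 2) ∧ |X3 β y| ≤ 1 := by
  obtain ⟨y1, y2⟩ := hy
  have y0 : 0 < y := by linarith
  have v0 : 0 ≤ β * y := by positivity
  have v1 : β * y ≤ 1 / 5 := by nlinarith
  have u0 : 0 ≤ 2 * β * y := by positivity
  have u1 : 2 * β * y ≤ 2 / 5 := by nlinarith
  have a1 := Real.self_le_sinh_iff.2 v0
  have a2 := sinh_le v0 (by linarith)
  have b1 := Real.self_le_sinh_iff.2 u0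
  have b2 := sinh_le u0 (by linarith)
  have c1 := Real.one_le_cosh (2 * β * y)
  have c2 := L4.cosh_le (x := 2 * β * y) (by rw [abs_of_nonneg u0]; linarith)
  have y4 : y ^ 2 ≤ 4 := by nlinarith
  have y8 : y ^ 3 ≤ 8 := by nlinarith
  have hb2 : 0 < β ^ 2 := by positivity
  refine ⟨⟨?_, ?_⟩, ⟨?_, ?_⟩, ⟨?_, ?_⟩, ?_⟩
  · rw [XX, sub_nonneg, le_div_iff₀ hb2]
    calc y ^ 2 * β ^ 2 = (β * y) ^ 2 := by ring
      _ ≤ _ := by gcongr
  · rw [XX, sub_le_iff_le_add, div_le_iff₀ hb2]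
    have e1 : (β * y) ^ 2 ≤ 1 := by nlinarith
    have e2 : y ^ 4 ≤ 16 := by nlinarith
    calc _ ≤ (β * y + (β * y) ^ 3 / 4) ^ 2 := by gcongr
      _ = (β * y) ^ 2 + (β * y) ^ 4 * (1 / 2 + (β * y) ^ 2 / 16) := by ring
      _ ≤ (β * y) ^ 2 + (β * y) ^ 4 * 1 := by gcongr; linarith
      _ = β ^ 2 * y ^ 4 * β ^ 2 + y ^ 2 * β ^ 2 := by ring
      _ ≤ β ^ 2 * 16 * β ^ 2 + y ^ 2 * β ^ 2 := by gcongr
      _ = _ := by ring
  · rw [X1, sub_nonneg, le_div_iff₀ h0]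
    linarith
  · rw [X1, sub_le_iff_le_add, div_le_iff₀ h0]
    calc _ ≤ _ := b2
      _ = 2 * β ^ 3 * y ^ 3 + 2 * y * β := by ring
      _ ≤ 2 * β ^ 3 * 8 + 2 * y * β := by gcongr
      _ = _ := by ring
  · rw [X2]; linarith
  · rw [X2]
    have : (2 * β * y) ^ 2 ≤ 16 * β ^ 2 := by nlinarith
    linarith
  · rw [X3, abs_of_nonneg (mul_nonneg (by positivity) (by linarith))]
    have e1 : (2 * β * y) ^ 3 ≤ 1 := pow_le_one₀ u0 (by linarith)
    nlinarith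

theorem dph {β : ℝ} (h0 : 0 < β) (q τ y : ℝ) :
    HasDerivAt (fun y => τ * y - q * XX β y) (τ - q * X1 β y) y :=
  (((hasDerivAt_id y).const_mul τ).sub ((XX_d h0.ne' y).const_mul q)).congr_deriv
    (by rw [mul_one])

theorem dph1 {β : ℝ} (h0 : 0 < β) (q τ y : ℝ) :
    HasDerivAt (fun y => τ - q * X1 β y) (-(q * X2 β y)) y := by
  simpa using ((X1_d h0.ne' y).const_mul q).const_sub τ

/-- the stationary bound -/
theorem osc (hS : SecDerStmt) : ∃ C : ℝ, 0 < C ∧ ∀ (am am1 : ℝ → ℂ) (q β τ B : ℝ),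
    0 < q → 0 < β →
    (∀ y ∈ Set.Icc (1 / 2 : ℝ) 2, HasDerivAt am (am1 y) y ∧ ‖am y‖ ≤ B ∧ ‖am1 y‖ ≤ B) →
    ContinuousOn am1 (Set.Icc (1 / 2) 2) →
    ‖∫ y in (1 / 2 : ℝ)..2, am y * E (τ * y - q * XX β y)‖ ≤ C * (B / Real.sqrt q) := by
  obtain ⟨C, hC, h⟩ := hS
  refine ⟨5 / 2 * C, by positivity, fun am am1 q β τ B hq hβ h1 h2 => ?_⟩
  have := h am am1 (fun y => τ * y - q * XX β y) (fun y => τ - q * X1 β y)
    (fun y => -(q * X2 β y)) (1 / 2) 2 B B q (by norm_num) hq h1 h2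
    (fun y _ => ⟨dph hβ q τ y, dph1 hβ q τ y⟩) (by unfold X2; fun_prop) (Or.inr fun y _ => by
      have p1 := Real.one_le_cosh (2 * β * y)
      unfold X2
      nlinarith)
  refine this.trans (le_of_eq ?_)
  ring

/-- the bound without stationary point -/
theorem nonstat (hN : NonStatStmt) : ∃ C : ℝ, 0 < C ∧ ∀ (w : ℝ → ℂ) (q β τ A : ℝ),
    0 < q → 0 < β → β ≤ 1 / 10 → G2 w A → (2 * τ ≤ q ∨ 8 * q ≤ τ) →
    ‖∫ y in (1 / 2 : ℝ)..2, w y * E (τ * y - q * XX β y)‖ ≤ C * (A / q ^ 2) := by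
  obtain ⟨C, hC, h⟩ := hN
  refine ⟨150 * C, by positivity, fun w q β τ A hq h0 h1 hw hτ => ?_⟩
  have hA : 0 ≤ A := (norm_nonneg _).trans (G2.bound hw 0)
  have hb : β ^ 2 ≤ 1 / 100 := by nlinarith
  have := h w (fun y => τ * y - q * XX β y) (fun y => τ - q * X1 β y)
    (fun y => -(q * X2 β y)) (fun y => -(q * X3 β y)) (1 / 2) 2 (1 / 5) A (q / 2) (by norm_num)
    (by norm_num) (by positivity) ((G2.c20 hw).mono (by norm_num) (by norm_num) hA le_rfl)
    (fun y hy => ?_) (by unfold X3; fun_prop)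
  · refine this.trans (le_of_eq ?_)
    field_simp
    ring
  · obtain ⟨-, ⟨a1, a2⟩, ⟨b1, b2⟩, c⟩ := Xb h0 h1 hy
    obtain ⟨y1, y2⟩ := hy
    refine ⟨dph h0 q τ y, dph1 h0 q τ y, ((X2_d β y).const_mul q).neg, ?_, ?_, ?_⟩
    · rcases hτ with hτ | hτ
      · have : q * 1 ≤ q * X1 β y := by gcongr; linarith
        exact le_abs.2 (Or.inr (by linarith))
      · have : q * X1 β y ≤ q * 5 := by gcongr; linarith
        exact le_abs.2 (Or.inl (by linarith))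
    · rw [abs_neg, abs_mul, abs_of_pos hq, abs_of_nonneg (by linarith)]
      calc _ ≤ q * (5 / 2) := by gcongr; linarith
        _ = _ := by ring
    · rw [abs_neg, abs_mul, abs_of_pos hq]
      calc _ ≤ q * (25 / 2) := by gcongr; linarith
        _ = _ := by ring

theorem mul_le {u v : ℂ} {p q : ℝ} (hu : ‖u‖ ≤ p) (hv : ‖v‖ ≤ q) : ‖u * v‖ ≤ p * q := by
  rw [norm_mul]
  exact mul_le_mul hu hv (norm_nonneg _) ((norm_nonneg _).trans hu)

/-- the derivative of the amplitude in the frequency -/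
theorem slow (hS : SecDerStmt) : ∃ C : ℝ, 0 < C ∧ ∀ (w : ℝ → ℂ) (n x β τ A : ℝ),
    0 < n → 0 < x → 0 < β → β ≤ 1 / 10 → G2 w A → τ ≤ 8 * (n * x) → 0 ≤ τ →
    ‖∫ y in (1 / 2 : ℝ)..2, w y * (2 * Real.pi * Complex.I *
        ((-(n * XX β y) + τ ^ 2 / (4 * n) / x ^ 2 : ℝ) : ℂ) * E (τ * y - n * x * XX β y))‖ ≤
      C * (A * (1 / x + n * β ^ 2) / Real.sqrt (n * x)) := by
  obtain ⟨C, hC, h⟩ := osc hS
  refine ⟨1200 * C, by positivity, fun w n x β τ A hn hx h0 h1 hw hτ τ0 => ?_⟩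
  have hA : 0 ≤ A := (norm_nonneg _).trans (G2.bound hw 0)
  have cw := G2.cont hw
  obtain ⟨w1, w2, c2, d, z⟩ := hw
  have cw1 : Continuous w1 := continuous_iff_continuousAt.2 fun y => (d y).2.1.continuousAt
  have hq : 0 < n * x := by positivity
  obtain ⟨y0, hy0⟩ : ∃ y0, y0 = τ / (2 * (n * x)) := ⟨_, rfl⟩
  have y00 : 0 ≤ y0 := by rw [hy0]; positivity
  have y01 : y0 ≤ 4 := by rw [hy0, div_le_iff₀ (by positivity)]; linarith
  have eτ : τ = 2 * (n * x) * y0 := by rw [hy0]; field_simp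
  set s : ℝ → ℝ := fun y => (y + y0) * (X1 β y - 2 * y) / 2 - (XX β y - y ^ 2) with hs
  set s1 : ℝ → ℝ := fun y => (y + y0) * (X2 β y - 2) / 2 - (X1 β y - 2 * y) / 2 with hs1
  have ds : ∀ y, HasDerivAt s (s1 y) y := fun y => by
    have := ((((hasDerivAt_id y).add_const y0).mul ((X1_d h0.ne' y).sub
      ((hasDerivAt_id y).const_mul 2))).div_const 2).sub ((XX_d h0.ne' y).sub (hasDerivAt_pow 2 y))
    refine this.congr_deriv ?_
    simp only [hs1, id, Pi.sub_apply]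
    norm_num
    ring
  have cs : Continuous s := continuous_iff_continuousAt.2 fun y => (ds y).continuousAt
  have cs1 : Continuous s1 := by rw [hs1]; unfold X1 X2; fun_prop
  have cE : Continuous fun y => E (τ * y - n * x * XX β y) := by fun_prop
  have cX1 : Continuous (X1 β) := by unfold X1; fun_prop
  have key : ∀ y, w y * (2 * Real.pi * Complex.I *
      ((-(n * XX β y) + τ ^ 2 / (4 * n) / x ^ 2 : ℝ) : ℂ) * E (τ * y - n * x * XX β y)) =
      ((1 / (2 * x) : ℝ) : ℂ) * ((w y * ((y + y0 : ℝ) : ℂ)) * (2 * Real.pi * Complex.I *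
        ((τ - n * x * X1 β y : ℝ) : ℂ) * E (τ * y - n * x * XX β y))) +
      2 * Real.pi * Complex.I * n * (w y * (s y : ℂ) * E (τ * y - n * x * XX β y)) := fun y => by
    have e : -(n * XX β y) + τ ^ 2 / (4 * n) / x ^ 2 =
        1 / (2 * x) * ((y + y0) * (τ - n * x * X1 β y)) + n * s y := by
      simp only [hs]
      rw [eτ]
      field_simp
      ring
    rw [e]
    push_cast
    ring
  simp only [key]
  rw [intervalIntegral.integral_add (Continuous.intervalIntegrable (by fun_prop) _ _)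
    (Continuous.intervalIntegrable (by fun_prop) _ _), intervalIntegral.integral_const_mul,
    intervalIntegral.integral_const_mul]
  have ibp := intervalIntegral.integral_mul_deriv_eq_deriv_mul (a := 1 / 2) (b := 2)
    (u := fun y => w y * ((y + y0 : ℝ) : ℂ)) (u' := fun y => w1 y * ((y + y0 : ℝ) : ℂ) + w y)
    (v := fun y => E (τ * y - n * x * XX β y))
    (v' := fun y => 2 * Real.pi * Complex.I * ((τ - n * x * X1 β y : ℝ) : ℂ) *
      E (τ * y - n * x * XX β y))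
    (fun y _ => ((d y).1.mul ((hasDerivAt_id y).add_const y0).ofReal_comp).congr_deriv (by simp))
    (fun y _ => hasDerivAt_E_comp (dph h0 (n * x) τ y))
    (Continuous.intervalIntegrable (by fun_prop) _ _)
    (Continuous.intervalIntegrable (by fun_prop) _ _)
  rw [ibp, (z (1 / 2) (by simp)).1, (z 2 (by simp)).1]
  have ny : ∀ y ∈ Set.Icc (1 / 2 : ℝ) 2, ‖((y + y0 : ℝ) : ℂ)‖ ≤ 6 := fun y hy => by
    rw [Complex.norm_real, Real.norm_eq_abs, abs_of_nonneg (by linarith [hy.1])]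
    linarith [hy.2]
  have t1 := h (fun y => w1 y * ((y + y0 : ℝ) : ℂ) + w y)
    (fun y => w2 y * ((y + y0 : ℝ) : ℂ) + w1 y + w1 y) (n * x) β τ (8 * A) hq h0
    (fun y hy => ⟨(((d y).2.1.mul ((hasDerivAt_id y).add_const y0).ofReal_comp).add
      (d y).1).congr_deriv (by simp), by
        linarith [norm_add_le (w1 y * ((y + y0 : ℝ) : ℂ)) (w y), mul_le (d y).2.2.2.1 (ny y hy),
          (d y).2.2.1], by
        linarith [norm_add_le (w2 y * ((y + y0 : ℝ) : ℂ) + w1 y) (w1 y),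
          norm_add_le (w2 y * ((y + y0 : ℝ) : ℂ)) (w1 y), mul_le (d y).2.2.2.2 (ny y hy),
          (d y).2.2.2.1]⟩) (by fun_prop)
  have sb : ∀ y ∈ Set.Icc (1 / 2 : ℝ) 2, ‖(s y : ℂ)‖ ≤ 64 * β ^ 2 ∧ ‖(s1 y : ℂ)‖ ≤ 104 * β ^ 2 :=
    fun y hy => by
      obtain ⟨⟨a1, a2⟩, ⟨b1, b2⟩, ⟨e1, e2⟩, -⟩ := Xb h0 h1 hy
      have p0 : 0 ≤ y + y0 := by linarith [hy.1]
      have p1 : y + y0 ≤ 6 := by linarith [hy.2]
      have p2 := mul_nonneg p0 b1
      have p3 := mul_le_mul p1 b2 b1 (by norm_num)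
      have p4 := mul_nonneg p0 e1
      have p5 := mul_le_mul p1 e2 e1 (by norm_num)
      have p6 := sq_nonneg β
      simp only [Complex.norm_real, Real.norm_eq_abs, abs_le, hs, hs1]
      refine ⟨⟨?_, ?_⟩, ?_, ?_⟩ <;> linarith
  have t2 := h (fun y => w y * (s y : ℂ)) (fun y => w1 y * (s y : ℂ) + w y * (s1 y : ℂ)) (n * x)
    β τ (168 * (A * β ^ 2)) hq h0
    (fun y hy => ⟨(d y).1.mul (ds y).ofReal_comp, by
        have : 0 ≤ A * β ^ 2 := by positivity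
        linarith [mul_le (d y).2.2.1 (sb y hy).1], by
        linarith [norm_add_le (w1 y * (s y : ℂ)) (w y * (s1 y : ℂ)),
          mul_le (d y).2.2.2.1 (sb y hy).1, mul_le (d y).2.2.1 (sb y hy).2]⟩) (by fun_prop)
  have n1 : ‖((1 / (2 * x) : ℝ) : ℂ)‖ ≤ 1 / (2 * x) := by
    rw [Complex.norm_real, Real.norm_eq_abs, abs_of_pos (by positivity)]
  have n2 : ‖2 * Real.pi * Complex.I * n‖ ≤ 7 * n := by
    simp only [norm_mul, Complex.norm_I, Complex.norm_real, Real.norm_eq_abs, Complex.norm_ofNat,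
      abs_of_pos Real.pi_pos, abs_of_pos hn, mul_one]
    gcongr
    linarith [Real.pi_lt_d2]
  simp only [zero_mul, sub_zero, zero_sub]
  refine (norm_add_le _ _).trans ((add_le_add (mul_le n1 ((norm_neg _).trans_le t1))
    (mul_le n2 t2)).trans ?_)
  have p1 : 0 ≤ C * (A * (1 / x) / Real.sqrt (n * x)) := by positivity
  have p2 : 0 ≤ C * (A * (n * β ^ 2) / Real.sqrt (n * x)) := by positivity
  calc _ = 4 * (C * (A * (1 / x) / Real.sqrt (n * x))) +
        1176 * (C * (A * (n * β ^ 2) / Real.sqrt (n * x))) := by ring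
    _ ≤ 1200 * (C * (A * (1 / x) / Real.sqrt (n * x))) +
        1200 * (C * (A * (n * β ^ 2) / Real.sqrt (n * x))) := by linarith
    _ = _ := by ring

/-- the amplitude -/
noncomputable def bb (w : ℝ → ℂ) (n β τ x : ℝ) : ℂ :=
  n * (∫ y in (1 / 2 : ℝ)..2, w y * E (τ * y - n * x * XX β y)) * E (-(τ ^ 2 / (4 * n) / x))

theorem bb_deriv {w : ℝ → ℂ} (cw : Continuous w) (n β τ : ℝ) {x : ℝ} (hx : x ≠ 0) :
    HasDerivAt (bb w n β τ) (n * (∫ y in (1 / 2 : ℝ)..2, w y * (2 * Real.pi * Complex.I *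
        ((-(n * XX β y) + τ ^ 2 / (4 * n) / x ^ 2 : ℝ) : ℂ) * E (τ * y - n * x * XX β y))) *
      E (-(τ ^ 2 / (4 * n) / x))) x := by
  have d1 := L4.hasDerivAt_param (F := fun x y => w y * E (τ * y - n * x * XX β y))
    (F' := fun x y => w y * (2 * Real.pi * Complex.I * ((-(n * XX β y) : ℝ) : ℂ) *
      E (τ * y - n * x * XX β y))) (by unfold Function.uncurry; fun_prop)
    (by unfold Function.uncurry; fun_prop)
    (fun c a => (hasDerivAt_E_comp (φ := fun c => τ * a - n * c * XX β a)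
      (by simpa using (((hasDerivAt_id c).const_mul n).mul_const (XX β a)).const_sub (τ * a))
        ).const_mul (w a)) (1 / 2) 2 x
  have d2 : HasDerivAt (fun x => -(τ ^ 2 / (4 * n) / x)) (τ ^ 2 / (4 * n) / x ^ 2) x := by
    have := ((hasDerivAt_inv hx).const_mul (τ ^ 2 / (4 * n))).neg
    refine HasDerivAt.congr_deriv this ?_
    ring
  refine ((d1.const_mul (n : ℂ)).mul (hasDerivAt_E_comp d2)).congr_deriv ?_
  have e : ∀ y, w y * (2 * Real.pi * Complex.I *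
        ((-(n * XX β y) + τ ^ 2 / (4 * n) / x ^ 2 : ℝ) : ℂ) * E (τ * y - n * x * XX β y)) =
      w y * (2 * Real.pi * Complex.I * ((-(n * XX β y) : ℝ) : ℂ) * E (τ * y - n * x * XX β y)) +
      2 * Real.pi * Complex.I * ((τ ^ 2 / (4 * n) / x ^ 2 : ℝ) : ℂ) *
        (w y * E (τ * y - n * x * XX β y)) := fun y => by
    rw [Complex.ofReal_add]
    ring
  simp only [e]
  rw [intervalIntegral.integral_add (Continuous.intervalIntegrable (by fun_prop) _ _)
    (Continuous.intervalIntegrable (by fun_prop) _ _), intervalIntegral.integral_const_mul]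
  ring

theorem hm_bb {w : ℝ → ℂ} {A : ℝ} (hw : G2 w A) (N m : ℕ) (β τ : ℝ) :
    hm N β w (m : ℕ) τ =
      bb w N β τ m * E (τ ^ 2 / (4 * N) * (m : ℝ) ^ (-1 : ℝ) + 0 * m) := by
  rw [hm_eq hw, bb, Real.rpow_neg_one, mul_assoc _ (E _), ← E_add]
  simp [div_eq_mul_inv]

theorem bb_bound (hS : SecDerStmt) : ∃ C : ℝ, 0 < C ∧ ∀ (w : ℝ → ℂ) (n β τ A M : ℝ),
    0 < n → 0 < β → β ≤ 1 / 10 → G2 w A → 0 < M → τ = 8 * (n * M) →
    (∀ x, M ≤ x → ‖bb w n β τ x‖ ≤ C * (A * n / Real.sqrt τ)) ∧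
    ∀ x, M ≤ x → ‖bb w n β τ (x + 1) - bb w n β τ x‖ ≤
      C * (A * n / Real.sqrt τ * (1 + β ^ 2 * τ) / M) := by
  obtain ⟨C1, hC1, h1⟩ := osc hS
  obtain ⟨C2, hC2, h2⟩ := slow hS
  refine ⟨3 * (C1 + C2), by positivity, fun w n β τ A M hn h0 hβ hw hM hτ => ?_⟩
  have hA : 0 ≤ A := (norm_nonneg _).trans (G2.bound hw 0)
  have τ0 : 0 < τ := by rw [hτ]; positivity
  have sq : ∀ x, M ≤ x → 1 / Real.sqrt (n * x) ≤ 3 / Real.sqrt τ := fun x hx => by
    have x0 : 0 < x := hM.trans_le hx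
    rw [div_le_div_iff₀ (by positivity) (by positivity), one_mul, Real.sqrt_le_left (by positivity),
      mul_pow, Real.sq_sqrt (by positivity), hτ]
    have : n * M ≤ n * x := by gcongr
    nlinarith [mul_pos hn hM]
  refine ⟨fun x hx => ?_, fun x hx => ?_⟩
  · have x0 : 0 < x := hM.trans_le hx
    obtain ⟨w1, w2, c2, d, z⟩ := hw
    have cw1 : Continuous w1 := continuous_iff_continuousAt.2 fun y => (d y).2.1.continuousAt
    have := h1 w w1 (n * x) β τ A (by positivity) h0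
      (fun y _ => ⟨(d y).1, (d y).2.2.1, (d y).2.2.2.1⟩) cw1.continuousOn
    rw [bb, norm_mul, norm_mul, norm_E, mul_one, Complex.norm_real, Real.norm_eq_abs,
      abs_of_pos hn]
    calc _ ≤ n * (C1 * (A / Real.sqrt (n * x))) := by gcongr
      _ = n * C1 * A * (1 / Real.sqrt (n * x)) := by ring
      _ ≤ n * (C1 + C2) * A * (3 / Real.sqrt τ) := by
          gcongr n * ?_ * A * ?_
          exacts [by linarith, sq x hx]
      _ = _ := by ring
  · have := norm_image_sub_le_of_norm_deriv_le_segment' (a := x) (b := x + 1)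
      (C := 3 * (C1 + C2) * (A * n / Real.sqrt τ * (1 + β ^ 2 * τ) / M))
      (fun u hu => (bb_deriv (G2.cont hw) n β τ
        (hM.trans_le (hx.trans hu.1)).ne').hasDerivWithinAt) (fun u hu => ?_) (x + 1)
      ⟨by linarith, le_rfl⟩
    · simpa using this
    · have hu' : M ≤ u := hx.trans hu.1
      have u0 : 0 < u := hM.trans_le hu'
      have t := h2 w n u β τ A hn u0 h0 hβ hw (by rw [hτ]; gcongr) τ0.le
      have e1 : 1 / u + n * β ^ 2 ≤ (1 + β ^ 2 * τ) / M := by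
        have e2 : 1 / u ≤ 1 / M := by gcongr
        have e3 : (1 + β ^ 2 * τ) / M = 1 / M + 8 * (n * β ^ 2) := by rw [hτ]; field_simp
        have e4 : 0 ≤ n * β ^ 2 := by positivity
        linarith
      rw [norm_mul, norm_mul, norm_E, mul_one, Complex.norm_real, Real.norm_eq_abs, abs_of_pos hn]
      calc _ ≤ n * (C2 * (A * (1 / u + n * β ^ 2) / Real.sqrt (n * u))) := by gcongr
        _ = n * C2 * A * (1 / u + n * β ^ 2) * (1 / Real.sqrt (n * u)) := by ring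
        _ ≤ n * (C1 + C2) * A * ((1 + β ^ 2 * τ) / M) * (3 / Real.sqrt τ) := by
            gcongr n * ?_ * A * ?_ * ?_
            exacts [by linarith, sq u hu']
        _ = _ := by ring

theorem tail (hN : NonStatStmt) : ∃ C : ℝ, 0 < C ∧ ∀ (N R : ℕ) (S : Finset ℕ) (β τ A : ℝ)
    (w : ℝ → ℂ), 1 ≤ N → 0 < β → β ≤ 1 / 10 → G2 w A → S ⊆ Icc 1 R →
    (∀ m ∈ S, 2 * τ ≤ N * m ∨ 8 * (N * m : ℝ) ≤ τ) →
    ‖∑ m ∈ S, hm N β w (m : ℕ) τ‖ ≤ C * A := by
  obtain ⟨C, hC, h⟩ := nonstat hN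
  refine ⟨2 * C, by positivity, fun N R S β τ A w hN1 h0 h1 hw hS hm' => ?_⟩
  have hA : 0 ≤ A := (norm_nonneg _).trans (G2.bound hw 0)
  have n1 : (1 : ℝ) ≤ N := by exact_mod_cast hN1
  have k : ∀ m ∈ S, ‖hm N β w (m : ℕ) τ‖ ≤ C * A * ((m : ℝ) ^ 2)⁻¹ := fun m hm'' => by
    have m1 : (1 : ℝ) ≤ m := by exact_mod_cast (mem_Icc.1 (hS hm'')).1
    have := h w (N * m) β τ A (by positivity) h0 h1 hw (hm' m hm'')
    rw [hm_eq hw, norm_mul, Complex.norm_natCast, Int.cast_natCast]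
    calc _ ≤ N * (C * (A / (N * m) ^ 2)) := by gcongr
      _ = C * A * ((m : ℝ) ^ 2)⁻¹ / N := by field_simp
      _ ≤ _ := div_le_self (by positivity) n1
  refine (norm_sum_le _ _).trans ((sum_le_sum k).trans ?_)
  rw [← mul_sum]
  have e1 : ∑ m ∈ S, ((m : ℝ) ^ 2)⁻¹ ≤ ∑ m ∈ Ioo 0 (R + 1), ((m : ℝ) ^ 2)⁻¹ :=
    sum_le_sum_of_subset_of_nonneg (fun m hm'' => by
      have := mem_Icc.1 (hS hm'')
      exact mem_Ioo.2 (by omega)) fun _ _ _ => by positivity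
  have e2 := sum_Ioo_inv_sq_le (α := ℝ) 0 (R + 1)
  calc _ ≤ C * A * 2 := by gcongr; exact e1.trans (by simpa using e2)
    _ = _ := by ring

end HK

open HK

theorem hk_of (hN : NonStatStmt) (hS : SecDerStmt) (hM : MonStmt) : HKStmt := by
  intro A0 K
  obtain ⟨η, C1, η0, η1, hC1, h1⟩ := hM K 16
  obtain ⟨C2, hC2, h2⟩ := bb_bound hS
  obtain ⟨C3, hC3, h3⟩ := tail hN
  refine ⟨η, (C3 + 2 * C2 + 16 * (C1 * C2)) * (|A0| + 1), η0, η1, by positivity, ?_⟩
  intro N R β τ w hN1 h0 hβ hw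
  have hA : 0 ≤ A0 := (norm_nonneg _).trans (B0.G2.bound hw 0)
  rw [abs_of_nonneg hA]
  have n1 : (1 : ℝ) ≤ N := by exact_mod_cast hN1
  have n0 : (0 : ℝ) < N := by linarith
  have p2 : 0 ≤ C1 * C2 := by positivity
  have c3 : C3 * A0 ≤ (C3 + 2 * C2 + 16 * (C1 * C2)) * (A0 + 1) := by
    gcongr <;> linarith
  rcases le_or_gt τ 0 with hτ | hτ
  · have := (h3 N R _ β τ A0 w hN1 h0 hβ hw Subset.rfl fun m _ => Or.inl (by
      have : (0 : ℝ) ≤ N * m := by positivity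
      linarith)).trans c3
    exact ⟨this.trans (le_mul_of_one_le_right (by positivity) (le_add_of_nonneg_right
      (by positivity))), fun _ _ => this.trans (le_mul_of_one_le_right (by positivity)
        (le_add_of_nonneg_right (by positivity)))⟩
  rw [abs_of_pos hτ]
  obtain ⟨M, hM⟩ : ∃ M, M = τ / (8 * N) := ⟨_, rfl⟩
  have M0 : 0 < M := by rw [hM]; positivity
  have eτ : τ = 8 * (N * M) := by rw [hM]; field_simp
  obtain ⟨b0, b1⟩ := h2 w N β τ A0 M n0 h0 hβ hw M0 eτ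
  have a1 : 1 ≤ ⌈M⌉₊ := Nat.one_le_ceil_iff.2 M0
  have sub : Icc ⌈M⌉₊ (min R ⌊16 * M⌋₊) ⊆ Icc 1 R :=
    Icc_subset_Icc a1 (min_le_left _ _)
  have hb : ((min R ⌊16 * M⌋₊ : ℕ) : ℝ) ≤ 16 * M :=
    (Nat.cast_le.2 (min_le_right _ _)).trans (Nat.floor_le (by positivity))
  have t := (h3 N R _ β τ A0 w hN1 h0 hβ hw (sdiff_subset (t := Icc ⌈M⌉₊ (min R ⌊16 * M⌋₊)))
    fun m hm' => by
      obtain ⟨e1, e2⟩ := mem_sdiff.1 hm'
      rw [mem_Icc] at e1 e2
      rcases lt_or_ge m ⌈M⌉₊ with e | e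
      · have : (m : ℝ) ≤ M := (Nat.lt_ceil.1 e).le
        exact Or.inr (by rw [eτ]; gcongr)
      · have : 16 * M ≤ m := ((Nat.floor_lt (by positivity)).1 (by omega)).le
        have : N * (16 * M) ≤ N * m := by gcongr
        exact Or.inl (by linarith))
  rw [← sum_sdiff sub]
  have sτ : 0 < Real.sqrt τ := Real.sqrt_pos.2 hτ
  have es : N / Real.sqrt τ * M = Real.sqrt τ / 8 := by
    have := Real.mul_self_sqrt hτ.le
    field_simp
    linarith
  have bm : ∀ m : ℕ, ⌈M⌉₊ ≤ m → M ≤ m := fun m h => Nat.ceil_le.1 h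
  refine ⟨(norm_add_le _ _).trans ?_, fun g1 g2 => (norm_add_le _ _).trans ?_⟩
  · have e1 : ‖∑ m ∈ Icc ⌈M⌉₊ (min R ⌊16 * M⌋₊), hm N β w (m : ℕ) τ‖ ≤
        2 * C2 * A0 * Real.sqrt τ := by
      refine (norm_sum_le _ _).trans ((sum_le_card_nsmul _ _ (C2 * (A0 * N / Real.sqrt τ))
        fun m hm' => ?_).trans ?_)
      · rw [hm_bb hw, norm_mul, norm_E, mul_one]
        exact b0 m (bm m (mem_Icc.1 hm').1)
      · rw [nsmul_eq_mul, Nat.card_Icc]
        have e2 : ((min R ⌊16 * M⌋₊ + 1 - ⌈M⌉₊ : ℕ) : ℝ) ≤ 16 * M :=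
          (Nat.cast_le.2 (by omega)).trans hb
        calc _ ≤ 16 * M * (C2 * (A0 * N / Real.sqrt τ)) := by gcongr
          _ = 16 * C2 * A0 * (N / Real.sqrt τ * M) := by ring
          _ = _ := by rw [es]; ring
    have c2 : 2 * C2 * A0 ≤ (C3 + 2 * C2 + 16 * (C1 * C2)) * (A0 + 1) := by
      gcongr <;> linarith
    have := mul_le_mul_of_nonneg_right c2 sτ.le
    linarith
  · have M1 : 1 ≤ M := by rw [hM, le_div_iff₀ (by positivity)]; linarith
    have ez : |τ ^ 2 / (4 * N)| * M ^ (-1 : ℝ) = 2 * τ := by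
      rw [abs_of_pos (by positivity), Real.rpow_neg_one, hM]
      field_simp
      norm_num
    have q1 : 1 ≤ 1 + β ^ 2 * τ := le_add_of_nonneg_right (by positivity)
    have e1 := h1 (-1) M (τ ^ 2 / (4 * N)) 0 (16 * (C2 * (A0 * N / Real.sqrt τ * (1 + β ^ 2 * τ))))
      ⌈M⌉₊ (min R ⌊16 * M⌋₊) (fun m => bb w N β τ m) (Or.inl rfl) M1 (Nat.le_ceil M) hb
      (by rw [ez]; nlinarith) (by rw [ez, hM]; exact g2)
      (fun m e _ => (b0 m (bm m e)).trans (by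
        have : 0 ≤ C2 * (A0 * N / Real.sqrt τ) := by positivity
        nlinarith)) (by
        refine (sum_le_card_nsmul _ _ (C2 * (A0 * N / Real.sqrt τ * (1 + β ^ 2 * τ) / M))
          fun m hm' => ?_).trans ?_
        · simpa using b1 m (bm m (mem_Ico.1 hm').1)
        · rw [nsmul_eq_mul, Nat.card_Ico]
          have e2 : ((min R ⌊16 * M⌋₊ - ⌈M⌉₊ : ℕ) : ℝ) ≤ 16 * M :=
            (Nat.cast_le.2 (by omega)).trans hb
          calc _ ≤ 16 * M * (C2 * (A0 * N / Real.sqrt τ * (1 + β ^ 2 * τ) / M)) := by gcongr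
            _ = _ := by field_simp)
    simp only [← hm_bb hw] at e1
    have e3 : M ^ (1 - η) ≤ M * (8 * (τ / N) ^ (-η)) := by
      have e4 : τ / N = 8 * M := by rw [hM]; field_simp
      have e5 : (8 : ℝ) ^ (-1 : ℝ) ≤ 8 ^ (-η) :=
        Real.rpow_le_rpow_of_exponent_le (by norm_num) (by linarith)
      rw [Real.rpow_neg_one] at e5
      rw [e4, Real.mul_rpow (by norm_num) M0.le, sub_eq_add_neg, Real.rpow_add M0, Real.rpow_one]
      have e6 : 0 ≤ M ^ (-η) := by positivity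
      gcongr
      nlinarith
    have c1 : 16 * (C1 * C2) * A0 ≤ (C3 + 2 * C2 + 16 * (C1 * C2)) * (A0 + 1) := by
      gcongr <;> linarith
    have e7 : C1 * (16 * (C2 * (A0 * N / Real.sqrt τ * (1 + β ^ 2 * τ)))) * M ^ (1 - η) ≤
        (C3 + 2 * C2 + 16 * (C1 * C2)) * (A0 + 1) *
          ((1 + β ^ 2 * τ) * Real.sqrt τ * (τ / N) ^ (-η)) := by
      calc _ ≤ C1 * (16 * (C2 * (A0 * N / Real.sqrt τ * (1 + β ^ 2 * τ)))) *
            (M * (8 * (τ / N) ^ (-η))) := by gcongr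
        _ = 16 * (C1 * C2) * A0 * ((1 + β ^ 2 * τ) * (8 * (N / Real.sqrt τ * M)) *
            (τ / N) ^ (-η)) := by ring
        _ = 16 * (C1 * C2) * A0 * ((1 + β ^ 2 * τ) * Real.sqrt τ * (τ / N) ^ (-η)) := by
            rw [es]; ring
        _ ≤ _ := by gcongr
    linarith

end Pool.Agent.MP_3d0d30_nt.Six
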