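import Pool.Agent.MP_3d0d30_nt.Six.Spec2

/-! Project SIX, second stage: a pointwise bound for the off-diagonal sums. -/

set_option autoImplicit false

namespace Pool.Agent.MP_3d0d30_nt.Six

open MeasureTheory Finset Filter
open scoped ComplexConjugate

namespace StarSub

theorem regroup (c : ℕ → ℂ) (F : ℕ → ℂ) (H : ℕ) (S : Finset ℕ) :
    ∑ k ∈ S, dk c H k * F k = ∑ h ∈ Ico H (2 * H), c h * ∑ k ∈ S.filter (h ∣ ·), F k := by
  simp only [dk, sum_mul, mul_sum, sum_filter]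
  rw [sum_comm]
  refine sum_congr rfl fun h _ => sum_congr rfl fun k _ => ?_
  split_ifs <;> simp

theorem mem_quot {h N1 N2 ν : ℕ} (hh : 0 < h) :
    ν ∈ Icc (N1 / h + 1) (N2 / h) ↔ N1 < h * ν ∧ h * ν ≤ N2 := by
  rw [mem_Icc, Nat.succ_le_iff, Nat.div_lt_iff_lt_mul hh, Nat.le_div_iff_mul_le hh, mul_comm]

theorem sum_mult (F : ℕ → ℂ) {h : ℕ} (hh : 0 < h) (N1 N2 : ℕ) :
    ∑ k ∈ (Ioc N1 N2).filter (h ∣ ·), F k = ∑ ν ∈ Icc (N1 / h + 1) (N2 / h), F (h * ν) := by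
  symm
  refine sum_bij (fun ν _ => h * ν) ?_ ?_ ?_ fun _ _ => rfl
  · intro ν hν
    obtain ⟨h1, h2⟩ := (mem_quot hh).1 hν
    exact mem_filter.2 ⟨mem_Ioc.2 ⟨h1, h2⟩, Dvd.intro _ rfl⟩
  · intro a _ b _ e
    exact Nat.eq_of_mul_eq_mul_left hh e
  · intro k hk
    obtain ⟨h1, ν, rfl⟩ := mem_filter.1 hk
    exact ⟨ν, (mem_quot hh).2 (mem_Ioc.1 h1), rfl⟩

theorem norm_cI_le (H a0 h : ℕ) : ‖cI H a0 h‖ ≤ 1 := by
  unfold cI
  split_ifs with h1
  · have h2 : (h : ℝ) < 2 * H := by exact_mod_cast h1.2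
    have h3 : (0 : ℝ) ≤ h := by positivity
    rw [Complex.norm_real, Real.norm_eq_abs, abs_of_nonneg (by positivity),
      div_le_one (by linarith)]
    exact h2.le
  · simp

/-- exchange of the two variables -/
theorem swap (F : ℕ → ℂ) {H : ℕ} (hH : 0 < H) (a0 N1 N2 : ℕ) :
    ∑ h ∈ Ico H (2 * H), cI H a0 h * ∑ ν ∈ Icc (N1 / h + 1) (N2 / h), F (h * ν) =
      ∑ ν ∈ Icc 1 (N2 / H), ∑ h ∈ Icc (max (max H a0) (N1 / ν + 1)) (min (2 * H - 1) (N2 / ν)),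
        ((h / (2 * H) : ℝ) : ℂ) * F (ν * h) := by
  have e1 : ∀ h ∈ Ico H (2 * H), cI H a0 h * ∑ ν ∈ Icc (N1 / h + 1) (N2 / h), F (h * ν) =
      ∑ ν ∈ Icc 1 (N2 / H), if a0 ≤ h ∧ N1 < h * ν ∧ h * ν ≤ N2 then
        ((h / (2 * H) : ℝ) : ℂ) * F (ν * h) else 0 := by
    intro h hh
    obtain ⟨l1, l2⟩ := mem_Ico.1 hh
    have h0 : 0 < h := lt_of_lt_of_le hH l1
    by_cases ha : a0 ≤ h
    · have e : Icc (N1 / h + 1) (N2 / h) =
          (Icc 1 (N2 / H)).filter fun ν => a0 ≤ h ∧ N1 < h * ν ∧ h * ν ≤ N2 := by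
        ext ν
        rw [mem_quot h0, mem_filter, mem_Icc, Nat.le_div_iff_mul_le hH]
        constructor
        · rintro ⟨p1, p2⟩
          refine ⟨⟨?_, ?_⟩, ha, p1, p2⟩
          · rcases Nat.eq_zero_or_pos ν with rfl | p
            · simp at p1
            · exact p
          · calc ν * H ≤ ν * h := Nat.mul_le_mul_left _ l1
              _ = h * ν := mul_comm _ _
              _ ≤ N2 := p2
        · exact fun p => p.2.2
      rw [e, sum_filter, mul_sum]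
      refine sum_congr rfl fun ν _ => ?_
      split_ifs
      · rw [cI, if_pos ⟨ha, l2⟩, mul_comm h ν]
      · simp
    · rw [cI, if_neg fun p => ha p.1, zero_mul]
      symm
      exact sum_eq_zero fun ν _ => if_neg fun p => ha p.1
  rw [sum_congr rfl e1, sum_comm]
  refine sum_congr rfl fun ν hν => ?_
  have h0 : 0 < ν := (mem_Icc.1 hν).1
  rw [← sum_filter]
  refine sum_congr ?_ fun _ _ => rfl
  ext h
  have q := @mem_quot ν N1 N2 h h0
  rw [mem_Icc] at q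
  rw [mem_filter, mem_Ico, mem_Icc, max_le_iff, max_le_iff, le_min_iff, mul_comm h ν, ← q]
  omega

/-- the monomial bound for the exponent `1/2` -/
def Mon2 (η C : ℝ) : Prop := ∀ (M s α B : ℝ) (a b : ℕ) (c : ℕ → ℂ), 1 ≤ M → M ≤ a →
  (b : ℝ) ≤ 65536 * M → M ^ 2 ≤ s * M → s * M ≤ M ^ 10 →
  (∀ m, a ≤ m → m ≤ b → ‖c m‖ ≤ B) → ∑ m ∈ Ico a b, ‖c (m + 1) - c m‖ ≤ B →
  ‖∑ m ∈ Icc a b, c m * E (Real.sqrt (s * m) + α * m)‖ ≤ C * B * M ^ (1 - η)

theorem mon2 (hM : MonStmt) : ∃ η C : ℝ, 0 < η ∧ η ≤ 1 ∧ 0 < C ∧ Mon2 η C := by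
  obtain ⟨η, C, h1, h2, h3, hM⟩ := hM 5 65536
  refine ⟨η, C, h1, h2, h3, ?_⟩
  intro M s α B a b c m1 m2 m3 m4 m5 m6 m7
  have hM0 : 0 < M := by linarith
  have hs : 0 ≤ s := by
    by_contra hs
    have : s * M < 0 := mul_neg_of_neg_of_pos (not_le.1 hs) hM0
    nlinarith
  have e : ∀ x : ℝ, Real.sqrt s * x ^ (1 / 2 : ℝ) = Real.sqrt (s * x) := fun x => by
    rw [← Real.sqrt_eq_rpow, Real.sqrt_mul hs]
  have := hM (1 / 2) M (Real.sqrt s) α B a b c (Or.inr rfl) m1 m2 m3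
    (by rw [abs_of_nonneg (Real.sqrt_nonneg _), e]; exact Real.le_sqrt_of_sq_le m4)
    (by
      rw [abs_of_nonneg (Real.sqrt_nonneg _), e, Real.sqrt_le_left (by positivity), ← pow_mul]
      exact m5) m6 m7
  simpa only [e] using this

/-- the data of the bilinear sum -/
structure Dat (K s M0 B1 B2 : ℝ) (N1 N2 : ℕ) (b : ℝ → ℂ) : Prop where
  m1 : 1 ≤ M0
  mK : (1024 * M0) ^ 2 ≤ K
  lo : (33 * K) ^ 2 ≤ s * (K / 1024)
  hi : s * (33 * K) ≤ M0 ^ 10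
  n1 : K / 512 ≤ N1
  n2 : (N2 : ℝ) ≤ 33 * K
  b1 : 0 ≤ B1
  b2 : 0 ≤ B2
  bd : ∀ k, ‖b k‖ ≤ B1
  lip : ∀ k k', K / 1000 ≤ k → k ≤ 1000 * K → K / 1000 ≤ k' → k' ≤ 1000 * K →
    ‖b k - b k'‖ ≤ B2 * (|k - k'| / K)

variable {K s M0 B1 B2 η C : ℝ} {N1 N2 : ℕ} {b : ℝ → ℂ}

theorem Dat.K_pos (D : Dat K s M0 B1 B2 N1 N2 b) : 0 < K := by
  have := D.m1
  have := D.mK
  nlinarith

theorem Dat.s_pos (D : Dat K s M0 B1 B2 N1 N2 b) : 0 < s := by
  have h1 := D.K_pos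
  have h2 := D.lo
  by_contra h
  have : s * (K / 1024) ≤ 0 := mul_nonpos_of_nonpos_of_nonneg (not_lt.1 h) (by positivity)
  have : 0 < (33 * K) ^ 2 := by positivity
  linarith

/-- variation of the amplitude along multiples of `u` -/
theorem Dat.step (D : Dat K s M0 B1 B2 N1 N2 b) {u m : ℕ} (h1 : N1 < u * m)
    (h2 : u * (m + 1) ≤ N2) :
    ‖b ((u * (m + 1) : ℕ) : ℝ) - b ((u * m : ℕ) : ℝ)‖ ≤ B2 * (u / K) := by
  have hK := D.K_pos
  have p1 : (N1 : ℝ) < ((u * m : ℕ) : ℝ) := by exact_mod_cast h1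
  have p2 : ((u * (m + 1) : ℕ) : ℝ) ≤ N2 := by exact_mod_cast h2
  have p3 : ((u * (m + 1) : ℕ) : ℝ) - ((u * m : ℕ) : ℝ) = u := by push_cast; ring
  have p4 : (0 : ℝ) ≤ u := by positivity
  have := D.lip ((u * (m + 1) : ℕ) : ℝ) ((u * m : ℕ) : ℝ) (by linarith [D.n1]) (by linarith [D.n2])
    (by linarith [D.n1]) (by linarith [D.n2])
  rwa [p3, abs_of_nonneg p4] at this

/-- one inner sum -/
theorem Dat.inner (D : Dat K s M0 B1 B2 N1 N2 b) (hm : Mon2 η C) (hη : 0 < η) (hC : 0 < C)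
    {M B : ℝ} {u p q : ℕ} {c : ℕ → ℂ} (hB : 0 ≤ B) (h1 : M0 ≤ M) (h2 : M ≤ p)
    (h3 : (q : ℝ) ≤ 65536 * M) (h4 : M ≤ 33 * K) (h5 : K / 1024 ≤ u * M) (h6 : u * M ≤ 33 * K)
    (h7 : ∀ m, p ≤ m → m ≤ q → ‖c m‖ ≤ B) (h8 : ∑ m ∈ Ico p q, ‖c (m + 1) - c m‖ ≤ B) :
    ‖∑ m ∈ Icc p q, c m * E (Real.sqrt (s * ((u * m : ℕ) : ℝ)) - ((u * m : ℕ) : ℝ) / 2)‖ ≤
      C * B * M0 ^ (-η) * M := by
  have hs := D.s_pos
  have m1 := D.m1
  have hM : 0 < M := by linarith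
  have := hm M (s * u) (-(u / 2)) B p q c (by linarith) h2 h3
    (by
      calc M ^ 2 ≤ (33 * K) ^ 2 := by gcongr
        _ ≤ s * (K / 1024) := D.lo
        _ ≤ s * (u * M) := by gcongr
        _ = _ := by ring)
    (by
      calc s * u * M = s * (u * M) := by ring
        _ ≤ s * (33 * K) := by gcongr
        _ ≤ M0 ^ 10 := D.hi
        _ ≤ M ^ 10 := by gcongr) h7 h8
  have e : ∀ m : ℕ, Real.sqrt (s * ((u * m : ℕ) : ℝ)) - ((u * m : ℕ) : ℝ) / 2 =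
      Real.sqrt (s * u * m) + -(u / 2) * m := fun m => by
    push_cast
    rw [mul_assoc]
    ring
  simp only [e]
  refine this.trans ?_
  rw [show 1 - η = -η + 1 by ring, Real.rpow_add hM, Real.rpow_one, ← mul_assoc]
  have : M ^ (-η) ≤ M0 ^ (-η) := Real.rpow_le_rpow_of_nonpos (by linarith) h1 (by linarith)
  gcongr

theorem Dat.caseA (D : Dat K s M0 B1 B2 N1 N2 b) (hm : Mon2 η C) (hη : 0 < η) (hC : 0 < C)
    {H : ℕ} (hH : 0 < H) (hHK : (H : ℝ) ^ 2 ≤ K) (a0 : ℕ) :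
    ‖∑ h ∈ Ico H (2 * H), cI H a0 h * ∑ ν ∈ Icc (N1 / h + 1) (N2 / h),
      b ((h * ν : ℕ) : ℝ) * E (Real.sqrt (s * ((h * ν : ℕ) : ℝ)) - ((h * ν : ℕ) : ℝ) / 2)‖ ≤
      33 * K * (C * (B1 + 33 * B2) * M0 ^ (-η)) := by
  have hK := D.K_pos
  have m1 := D.m1
  have b1 := D.b1
  have b2 := D.b2
  have hH1 : (1 : ℝ) ≤ H := by exact_mod_cast hH
  have hH0 : (0 : ℝ) < H := by linarith
  have hp : 0 < M0 ^ (-η) := Real.rpow_pos_of_pos (by linarith) _
  have hM0 : M0 ≤ K / (1024 * H) := by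
    rw [le_div_iff₀ (by positivity)]
    refine le_of_pow_le_pow_left₀ (n := 2) (by norm_num) hK.le ?_
    calc (M0 * (1024 * H)) ^ 2 = (1024 * M0) ^ 2 * H ^ 2 := by ring
      _ ≤ K * K := by gcongr; exact D.mK
      _ = _ := by ring
  have key : ∀ h ∈ Ico H (2 * H), ‖cI H a0 h * ∑ ν ∈ Icc (N1 / h + 1) (N2 / h),
      b ((h * ν : ℕ) : ℝ) * E (Real.sqrt (s * ((h * ν : ℕ) : ℝ)) - ((h * ν : ℕ) : ℝ) / 2)‖ ≤
      C * (B1 + 33 * B2) * M0 ^ (-η) * (K / (1024 * H)) := by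
    intro h hh
    obtain ⟨l1, l2⟩ := mem_Ico.1 hh
    have h0 : 0 < h := lt_of_lt_of_le hH l1
    have l3 : (H : ℝ) ≤ h := by exact_mod_cast l1
    have l4 : (h : ℝ) ≤ 2 * H := by exact_mod_cast l2.le
    have l5 : (0 : ℝ) < h := by linarith
    have q1 : (N1 : ℝ) < h * ((N1 / h + 1 : ℕ) : ℝ) := by
      have : N1 < h * (N1 / h + 1) := Nat.lt_mul_div_succ N1 h0
      exact_mod_cast this
    have q2 : (h : ℝ) * ((N2 / h : ℕ) : ℝ) ≤ N2 := by
      have : h * (N2 / h) ≤ N2 := Nat.mul_div_le N2 h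
      exact_mod_cast this
    have q3 : (0 : ℝ) ≤ ((N2 / h : ℕ) : ℝ) := by positivity
    have q4 : (0 : ℝ) ≤ ((N1 / h + 1 : ℕ) : ℝ) := by positivity
    rw [norm_mul]
    refine (mul_le_of_le_one_left (norm_nonneg _) (norm_cI_le _ _ _)).trans ?_
    refine D.inner hm hη hC (c := fun ν => b ((h * ν : ℕ) : ℝ)) (by positivity) hM0 ?_ ?_ ?_ ?_ ?_
      (fun m _ _ => (D.bd _).trans (by linarith)) ?_
    · rw [div_le_iff₀ (by positivity)]
      nlinarith [D.n1]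
    · rw [← mul_div_assoc, le_div_iff₀ (by positivity)]
      nlinarith [D.n2]
    · rw [div_le_iff₀ (by positivity)]
      nlinarith
    · rw [← mul_div_assoc, div_le_div_iff₀ (by positivity) (by positivity)]
      nlinarith
    · rw [← mul_div_assoc, div_le_iff₀ (by positivity)]
      nlinarith
    · have : ∀ m ∈ Ico (N1 / h + 1) (N2 / h),
          ‖b ((h * (m + 1) : ℕ) : ℝ) - b ((h * m : ℕ) : ℝ)‖ ≤ B2 * (h / K) := fun m hm => by
        obtain ⟨r1, r2⟩ := mem_Ico.1 hm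
        exact D.step ((mem_quot h0).1 (mem_Icc.2 ⟨r1, r2.le⟩)).1
          ((Nat.mul_le_mul_left h r2).trans (Nat.mul_div_le N2 h))
      refine (sum_le_sum this).trans ?_
      rw [sum_const, Nat.card_Ico, nsmul_eq_mul]
      have r1 : ((N2 / h - (N1 / h + 1) : ℕ) : ℝ) ≤ ((N2 / h : ℕ) : ℝ) := by
        exact_mod_cast Nat.sub_le _ _
      calc _ ≤ ((N2 / h : ℕ) : ℝ) * (B2 * (h / K)) := by gcongr
        _ = B2 * ((h * ((N2 / h : ℕ) : ℝ)) / K) := by ring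
        _ ≤ B2 * (33 * K / K) := by have := q2.trans D.n2; gcongr
        _ = 33 * B2 := by field_simp
        _ ≤ _ := by linarith
  refine (norm_sum_le _ _).trans ((sum_le_sum key).trans ?_)
  rw [sum_const, Nat.card_Ico, nsmul_eq_mul, show 2 * H - H = H by omega]
  calc _ = K / 1024 * (C * (B1 + 33 * B2) * M0 ^ (-η)) := by field_simp
    _ ≤ _ := by gcongr; linarith

theorem Dat.caseB (D : Dat K s M0 B1 B2 N1 N2 b) (hm : Mon2 η C) (hη : 0 < η) (hC : 0 < C)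
    {H : ℕ} (hH : 0 < H) (hHK : K ≤ (H : ℝ) ^ 2) (a0 : ℕ) :
    ‖∑ ν ∈ Icc 1 (N2 / H), ∑ h ∈ Icc (max (max H a0) (N1 / ν + 1)) (min (2 * H - 1) (N2 / ν)),
      ((h / (2 * H) : ℝ) : ℂ) * (b ((ν * h : ℕ) : ℝ) *
        E (Real.sqrt (s * ((ν * h : ℕ) : ℝ)) - ((ν * h : ℕ) : ℝ) / 2))‖ ≤
      33 * K * (C * (B1 + 33 * B2) * M0 ^ (-η)) := by
  have hK := D.K_pos
  have m1 := D.m1
  have b1 := D.b1
  have b2 := D.b2
  have hH1 : (1 : ℝ) ≤ H := by exact_mod_cast hH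
  have hH0 : (0 : ℝ) < H := by linarith
  have hp : 0 < M0 ^ (-η) := Real.rpow_pos_of_pos (by linarith) _
  have hM0 : M0 ≤ H := by
    refine le_of_pow_le_pow_left₀ (n := 2) (by norm_num) hH0.le ?_
    nlinarith [D.mK]
  have key : ∀ ν ∈ Icc 1 (N2 / H),
      ‖∑ h ∈ Icc (max (max H a0) (N1 / ν + 1)) (min (2 * H - 1) (N2 / ν)),
      ((h / (2 * H) : ℝ) : ℂ) * (b ((ν * h : ℕ) : ℝ) *
        E (Real.sqrt (s * ((ν * h : ℕ) : ℝ)) - ((ν * h : ℕ) : ℝ) / 2))‖ ≤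
      C * (B1 + 33 * B2) * M0 ^ (-η) * H := by
    intro ν hν
    obtain ⟨l1, l2⟩ := mem_Icc.1 hν
    have l3 : (1 : ℝ) ≤ ν := by exact_mod_cast l1
    have l4 : (ν : ℝ) * H ≤ 33 * K := by
      have : ν * H ≤ N2 := (Nat.le_div_iff_mul_le hH).1 l2
      exact le_trans (by exact_mod_cast this) D.n2
    set p := max (max H a0) (N1 / ν + 1) with hpd
    set q := min (2 * H - 1) (N2 / ν) with hqd
    have p1 : H ≤ p := (le_max_left _ _).trans (le_max_left _ _)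
    have p2 : N1 / ν + 1 ≤ p := le_max_right _ _
    have q1 : q ≤ 2 * H - 1 := min_le_left _ _
    have q2 : q ≤ N2 / ν := min_le_right _ _
    rcases lt_or_ge q p with hpq | hpq
    · rw [Icc_eq_empty_of_lt hpq, sum_empty, norm_zero]
      positivity
    have r1 : (N1 : ℝ) < ν * (2 * H) := by
      have a1 : N1 < ν * (N1 / ν + 1) := Nat.lt_mul_div_succ N1 l1
      have a2 : ν * (N1 / ν + 1) ≤ ν * (2 * H) := Nat.mul_le_mul_left _ (by omega)
      exact_mod_cast a1.trans_le a2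
    have w : ∀ m : ℕ, m ≤ q → ‖((m / (2 * H) : ℝ) : ℂ)‖ ≤ 1 := fun m hm => by
      have a1 : (m : ℝ) ≤ 2 * H := by
        have : m ≤ 2 * H := by omega
        exact_mod_cast this
      rw [Complex.norm_real, Real.norm_eq_abs, abs_of_nonneg (by positivity),
        div_le_one (by positivity)]
      exact a1
    simp only [← mul_assoc]
    refine D.inner hm hη hC (c := fun h : ℕ => ((h / (2 * H) : ℝ) : ℂ) * b ((ν * h : ℕ) : ℝ))
      (by positivity) hM0 (by exact_mod_cast p1) ?_ (by nlinarith) (by linarith [D.n1]) l4 ?_ ?_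
    · have : (q : ℝ) ≤ 2 * H := by
        have : q ≤ 2 * H := by omega
        exact_mod_cast this
      linarith
    · intro m _ hm
      rw [norm_mul]
      calc _ ≤ 1 * B1 := mul_le_mul (w m hm) (D.bd _) (norm_nonneg _) zero_le_one
        _ ≤ _ := by linarith
    · have : ∀ m ∈ Ico p q, ‖((((m + 1 : ℕ) : ℝ) / (2 * H) : ℝ) : ℂ) * b ((ν * (m + 1) : ℕ) : ℝ) -
          ((m / (2 * H) : ℝ) : ℂ) * b ((ν * m : ℕ) : ℝ)‖ ≤ B1 / H + B2 * (ν / K) := fun m hm => by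
        obtain ⟨a1, a2⟩ := mem_Ico.1 hm
        have a3 := D.step (u := ν) (m := m)
          ((mem_quot l1).1 (mem_Icc.2 ⟨p2.trans a1, a2.le.trans q2⟩)).1
          ((Nat.mul_le_mul_left ν (le_trans a2 q2)).trans (Nat.mul_div_le N2 ν))
        have e : ((((m + 1 : ℕ) : ℝ) / (2 * H) : ℝ) : ℂ) * b ((ν * (m + 1) : ℕ) : ℝ) -
            ((m / (2 * H) : ℝ) : ℂ) * b ((ν * m : ℕ) : ℝ) =
            ((1 / (2 * H) : ℝ) : ℂ) * b ((ν * (m + 1) : ℕ) : ℝ) + ((m / (2 * H) : ℝ) : ℂ) *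
              (b ((ν * (m + 1) : ℕ) : ℝ) - b ((ν * m : ℕ) : ℝ)) := by
          generalize b ((ν * (m + 1) : ℕ) : ℝ) = x
          generalize b ((ν * m : ℕ) : ℝ) = y
          push_cast
          ring
        rw [e]
        refine (norm_add_le _ _).trans (add_le_add ?_ ?_)
        · rw [norm_mul, Complex.norm_real, Real.norm_eq_abs, abs_of_nonneg (by positivity)]
          calc _ ≤ 1 / (H : ℝ) * B1 := by
                gcongr
                · linarith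
                · exact D.bd _
            _ = _ := by ring
        · rw [norm_mul]
          calc _ ≤ 1 * (B2 * (ν / K)) := mul_le_mul (w m a2.le) a3 (norm_nonneg _) zero_le_one
            _ = _ := one_mul _
      refine (sum_le_sum this).trans ?_
      rw [sum_const, Nat.card_Ico, nsmul_eq_mul]
      have a1 : ((q - p : ℕ) : ℝ) ≤ H := by
        have : q - p ≤ H := by omega
        exact_mod_cast this
      calc _ ≤ H * (B1 / H + B2 * (ν / K)) := by gcongr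
        _ = B1 + B2 * (ν * H / K) := by field_simp
        _ ≤ B1 + B2 * (33 * K / K) := by gcongr
        _ = _ := by field_simp
  refine (norm_sum_le _ _).trans ((sum_le_sum key).trans ?_)
  rw [sum_const, Nat.card_Icc, nsmul_eq_mul, Nat.add_sub_cancel]
  have a1 : ((N2 / H : ℕ) : ℝ) * H ≤ 33 * K := by
    have : N2 / H * H ≤ N2 := Nat.div_mul_le_self N2 H
    exact le_trans (by exact_mod_cast this) D.n2
  calc _ = ((N2 / H : ℕ) : ℝ) * H * (C * (B1 + 33 * B2) * M0 ^ (-η)) := by ring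
    _ ≤ _ := by gcongr

theorem Dat.main (D : Dat K s M0 B1 B2 N1 N2 b) (hm : Mon2 η C) (hη : 0 < η) (hC : 0 < C)
    {H : ℕ} (hH : 0 < H) (a0 : ℕ) :
    ‖∑ k ∈ Ioc N1 N2, dk (cI H a0) H k * (b k * E (Real.sqrt (s * k) - k / 2))‖ ≤
      33 * K * (C * (B1 + 33 * B2) * M0 ^ (-η)) := by
  have e : ∀ h ∈ Ico H (2 * H), cI H a0 h * ∑ k ∈ (Ioc N1 N2).filter (h ∣ ·),
      b k * E (Real.sqrt (s * k) - k / 2) = cI H a0 h * ∑ ν ∈ Icc (N1 / h + 1) (N2 / h),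
      b ((h * ν : ℕ) : ℝ) * E (Real.sqrt (s * ((h * ν : ℕ) : ℝ)) - ((h * ν : ℕ) : ℝ) / 2) :=
    fun h hh => by
      rw [sum_mult (fun k : ℕ => b k * E (Real.sqrt (s * k) - k / 2))
        (lt_of_lt_of_le hH (mem_Ico.1 hh).1)]
  rw [regroup (cI H a0) (fun k : ℕ => b k * E (Real.sqrt (s * k) - k / 2)), sum_congr rfl e]
  rcases le_total ((H : ℝ) ^ 2) K with h | h
  · exact D.caseA hm hη hC hH h a0
  · rw [swap (fun k : ℕ => b k * E (Real.sqrt (s * k) - k / 2)) hH]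
    exact D.caseB hm hη hC hH h a0

theorem II_eq (a : ℝ → ℂ) (Y t k : ℝ) :
    II a Y t k = bK a Y t k * E (Real.sqrt (2 * t / Real.pi * k) - k / 2) := by
  rw [bK, mul_assoc, ← E_add, show 2 * t / Real.pi * k = 2 * t * k / Real.pi by ring,
    neg_add_cancel, E_zero, mul_one]

theorem ev_le {A p : ℝ} (hp : 0 < p) : ∀ᶠ T : ℝ in atTop, A ≤ T ^ p :=
  (tendsto_rpow_atTop hp).eventually_ge_atTop A

end StarSub

open StarSub in
theorem starsub_of (h0 : Star00Stmt) (hI : IBoundStmt) (hA : AtkKStmt) (hM : MonStmt) :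
    StarSubStmt := by
  obtain ⟨C0, hC0, h0⟩ := h0
  obtain ⟨C1, hC1, hI⟩ := hI
  obtain ⟨C2, hC2, hA⟩ := hA
  obtain ⟨η, C, hη, hη1, hC, hm⟩ := mon2 hM
  refine ⟨η / 100, C0 + 1, by positivity, ?_⟩
  filter_upwards [eventually_ge_atTop (1 : ℝ),
    ev_le (A := 1024) (show (0 : ℝ) < 1 / 6 by norm_num),
    ev_le (A := 100) (show (0 : ℝ) < 1 / 4 by norm_num),
    ev_le (A := 4 * 1024 * 33 ^ 2) (show (0 : ℝ) < 1 / 2 by norm_num),
    ev_le (A := 66 * 1024 ^ 10) (show (0 : ℝ) < 1 / 6 by norm_num),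
    ev_le (A := 33 * 1024 * (C * (C1 + 66 * C2))) (show 0 < η / 10 by positivity)]
    with T hT1 t1 t2 t3 t4 t5
  intro Y hY hYT H R a0 a t hH hHY hR ha ht ht'
  have hT : 0 < T := by linarith
  have mono : ∀ {p q : ℝ}, p ≤ q → T ^ p ≤ T ^ q := fun h =>
    Real.rpow_le_rpow_of_exponent_le hT1 h
  have hY100 : 100 ≤ Y := t2.trans ((mono (by linarith)).trans hY)
  have hY0 : 0 < Y := by linarith
  set K := T / Y ^ 2 with hKd
  set ω := T / Y ^ 3 with hωd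
  set x := T ^ (1 / 6 : ℝ) with hx
  have hK0 : 0 < K := by positivity
  have hω1 : 1 ≤ ω := by rw [hωd, le_div_iff₀ (by positivity)]; linarith
  have hKω : K = Y * ω := by rw [hKd, hωd]; field_simp
  have xp : ∀ n : ℕ, x ^ n = T ^ (n / 6 : ℝ) := fun n => by
    rw [hx, ← Real.rpow_mul_natCast hT.le]; congr 1; ring
  have hx6 : x ^ 6 = T := by rw [xp]; norm_num
  have hx0 : 0 < x := by linarith
  have hYx : Y ≤ x ^ 2 := by
    refine le_of_pow_le_pow_left₀ (n := 3) (by norm_num) (by positivity) ?_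
    rw [← pow_mul, hx6]; exact hYT
  have hKx : x ^ 2 ≤ K := by
    rw [hKd, le_div_iff₀ (by positivity)]
    calc x ^ 2 * Y ^ 2 ≤ x ^ 2 * (x ^ 2) ^ 2 := by gcongr
      _ = T := by rw [← hx6]; ring
  have hω : ω ≤ T ^ (3 * (η / 100)) := by
    rw [hωd, div_le_iff₀ (by positivity)]
    calc T = T ^ (3 * (η / 100)) * (T ^ (1 / 3 - η / 100)) ^ 3 := by
          rw [← Real.rpow_mul_natCast hT.le, ← Real.rpow_add hT]
          norm_num
          rw [show 3 * (η / 100) + (1 / 3 - η / 100) * 3 = 1 by ring, Real.rpow_one]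
      _ ≤ _ := by gcongr
  have hKh : K ≤ T ^ (1 / 2 : ℝ) := by
    calc K = Y * ω := hKω
      _ ≤ x ^ 2 * T ^ (3 * (η / 100)) := by gcongr
      _ = T ^ (((2 : ℕ) : ℝ) / 6 + 3 * (η / 100)) := by rw [xp, ← Real.rpow_add hT]
      _ ≤ _ := mono (by push_cast; linarith)
  have hh : T ^ (1 / 2 : ℝ) = x ^ 3 := by rw [xp]; norm_num
  have hB : Real.sqrt (Y ^ 3 / T) ≤ 1 := by
    rw [Real.sqrt_le_left zero_le_one, div_le_iff₀ hT]; linarith
  have hs1 : T / 2 ≤ 2 * t / Real.pi := by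
    rw [div_le_div_iff₀ (by norm_num) Real.pi_pos]
    nlinarith [Real.pi_le_four, Real.pi_pos]
  have hs2 : 2 * t / Real.pi ≤ 2 * T := by
    rw [div_le_iff₀ Real.pi_pos]
    nlinarith [Real.pi_gt_three]
  have hKbig : 1024 ^ 2 ≤ K := le_trans (by gcongr) hKx
  have D : Dat K (2 * t / Real.pi) (x / 1024) C1 (2 * C2 * ω) ⌊K / 256⌋₊ ⌈32 * K⌉₊ (bK a Y t) := by
    refine ⟨by rw [le_div_iff₀ (by norm_num)]; linarith,
      by rw [mul_div_cancel₀ _ (by norm_num)]; exact hKx, ?_, ?_, ?_, ?_, hC1.le, by positivity, fun k => ?_, fun k k' k1 k2 k3 k4 => ?_⟩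
    · rw [hh] at t3 hKh
      calc (33 * K) ^ 2 = 4 * 1024 * 33 ^ 2 * K * (K / 4096) := by ring
        _ ≤ x ^ 3 * x ^ 3 * (K / 4096) := by gcongr
        _ = T / 2 * (K / 2048) := by rw [← hx6]; ring
        _ ≤ _ := mul_le_mul hs1 (by linarith) (by positivity) (by linarith)
    · rw [hh] at hKh
      rw [div_pow, le_div_iff₀ (by norm_num)]
      calc 2 * t / Real.pi * (33 * K) * 1024 ^ 10 ≤ 2 * T * (33 * x ^ 3) * 1024 ^ 10 := by gcongr
        _ = 66 * 1024 ^ 10 * x ^ 9 := by rw [← hx6]; ring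
        _ ≤ x * x ^ 9 := by gcongr
        _ = _ := by ring
    · have := Nat.lt_floor_add_one (K / 256)
      linarith
    · have := Nat.ceil_lt_add_one (show 0 ≤ 32 * K by positivity)
      linarith
    · rw [bK, norm_mul, norm_E, mul_one]
      refine (hI T Y t k a hT (by linarith) ha ht ht').trans ?_
      exact mul_le_of_le_one_right hC1.le hB
    · refine (hA T Y t k k' a hT hY100 ha ht ht' k1 k2 k3 k4).trans ?_
      calc _ ≤ C2 * (1 * (ω + ω) * (|k - k'| / K)) := by gcongr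
        _ = _ := by ring
  have b1 := h0 T Y t H R ⌊K / 256⌋₊ ⌈32 * K⌉₊ a (cI H a0) hT (by linarith) hH hHY hR ha
    (norm_cI_le H a0) ht ht' (Nat.floor_le (by positivity)) (Nat.le_ceil _)
  have b2 := D.main hm hη hC hH a0
  simp only [← II_eq] at b2
  have b3 : (x / 1024) ^ (-η) ≤ 1024 * T ^ (-(η / 6)) := by
    rw [Real.div_rpow hx0.le (by norm_num), Real.rpow_neg (by norm_num : (0 : ℝ) ≤ 1024),
      div_inv_eq_mul, hx, ← Real.rpow_mul hT.le, mul_comm,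
      show 1 / 6 * -η = -(η / 6) by ring]
    gcongr
    exact (Real.rpow_le_rpow_of_exponent_le (by norm_num) hη1).trans_eq (Real.rpow_one _)
  have b4 : 33 * K * (C * (C1 + 33 * (2 * C2 * ω)) * (x / 1024) ^ (-η)) ≤ Y := by
    have a1 : C1 + 33 * (2 * C2 * ω) ≤ (C1 + 66 * C2) * ω := by nlinarith
    have a2 : T ^ (η / 10) * (T ^ (3 * (η / 100)) * T ^ (3 * (η / 100)) * T ^ (-(η / 6))) ≤ 1 := by
      rw [← Real.rpow_add hT, ← Real.rpow_add hT, ← Real.rpow_add hT]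
      exact Real.rpow_le_one_of_one_le_of_nonpos hT1 (by linarith)
    calc _ ≤ 33 * (Y * ω) * (C * ((C1 + 66 * C2) * ω) * (1024 * T ^ (-(η / 6)))) := by
          rw [← hKω]; gcongr
      _ = Y * (33 * 1024 * (C * (C1 + 66 * C2)) * (ω * ω * T ^ (-(η / 6)))) := by ring
      _ ≤ Y * (T ^ (η / 10) * (T ^ (3 * (η / 100)) * T ^ (3 * (η / 100)) * T ^ (-(η / 6)))) := by
          gcongr
      _ ≤ Y * 1 := by gcongr
      _ = Y := mul_one _
  calc _ ≤ _ := norm_le_norm_sub_add _ _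
    _ ≤ C0 * Y + Y := add_le_add b1 (b2.trans b4)
    _ = _ := by ring

end Pool.Agent.MP_3d0d30_nt.Six
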