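import Pool.Agent.MP_3d0d30_nt.Six.Spec2
import Pool.Agent.MP_3d0d30_nt.Six.RedZ

/-! Project SIX, second stage, module Sub: a bound below the Weyl exponent. -/

set_option autoImplicit false

namespace Pool.Agent.MP_3d0d30_nt.Six

open MeasureTheory Finset Filter

namespace SubW

theorem cc_eq (H j j' : ℕ) : R2.cc H j j' = cI H (max j j' + H) := by
  funext h
  unfold R2.cc cI
  refine if_congr ?_ rfl rfl
  omega

theorem cI_le (H a0 h : ℕ) : ‖cI H a0 h‖ ≤ 1 := by
  unfold cI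
  split_ifs with hc
  · have : (h : ℝ) < 2 * H := by exact_mod_cast hc.2
    rw [Complex.norm_real, Real.norm_of_nonneg (by positivity)]
    exact div_le_one_of_le₀ this.le (by positivity)
  · simp

theorem of_bound {T Y D : ℝ} (h : StarBound T Y D 0) : StarI T Y D := by
  intro H R a0 a t hH h1 h2 ha t1 t2
  have := h H R a (cI H a0) {t} hH h1 h2 ha (cI_le H a0)
    (fun s hs => by rw [mem_singleton.1 hs]; exact ⟨t1, by linarith⟩)
    (fun s hs s' hs' hne => absurd ((mem_singleton.1 hs).trans (mem_singleton.1 hs').symm) hne)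
  simpa using this

theorem mono {T Y D D' : ℝ} (h : StarI T Y D) (hY : 0 ≤ Y) (hD : D ≤ D') : StarI T Y D' :=
  fun H R a0 a t hH h1 h2 ha t1 t2 => (h H R a0 a t hH h1 h2 ha t1 t2).trans (by gcongr)

open R2 in
theorem point : ∃ C : ℝ, 0 < C ∧ ∀ (T P G D t : ℝ) (H : ℕ), 1 ≤ H → 100 ≤ P / H → P ≤ 2 * T →
    0 ≤ G → 0 ≤ D → StarI T (P / H) D → T ≤ t → t ≤ 2 * T → ‖SH P G H t‖ ≤ C * D := by
  obtain ⟨f1, f2, f3, K, hD⟩ := exists_dat
  have hK := hD.pos
  obtain ⟨N, hN⟩ : ∃ N : ℝ, N = 64 * 24 ^ 2 * 256 * K ^ 2 := ⟨_, rfl⟩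
  have N0 : 0 < N := by rw [hN]; positivity
  refine ⟨8 * N, by positivity, fun T P G D t H hH hY hPT hG hD0 hS t1 t2 => ?_⟩
  have H0 : (0 : ℝ) < H := by exact_mod_cast hH
  have Y0 : 0 < P / H := by linarith
  have P0 : 0 < P := by simpa [H0.ne'] using mul_pos Y0 H0
  have eP : H * (P / H) = P := by field_simp
  have key : ∀ j ∈ range H, ∀ j' ∈ range H,
      ‖SS (am N G (P / H) H j j') (cc H j j') H (rg P) t‖ ≤ P / H * D := by
    intro j hj j' hj'
    rw [cc_eq]
    refine hS H (rg P) _ _ t hH (by linarith) ?_ ?_ t1 t2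
    · have := Nat.le_ceil (8 * P)
      unfold rg; push_cast; nlinarith
    · rw [hN]; exact am_amp hD hG (by linarith) hH (mem_range.1 hj) (mem_range.1 hj')
  have s0 : 0 ≤ ∑ j ∈ range H, del H j := sum_nonneg fun j _ => (del_pos hH j).le
  have s1 := sum_del hH
  calc _ ≤ ∑ j ∈ range H, ∑ j' ∈ range H, 2 / (P / H) * (N * del H j * del H j') *
        ‖SS (am N G (P / H) H j j') (cc H j j') H (rg P) t‖ := by
        rw [expand N0 P0 G t hH]
        refine (norm_sum_le _ _).trans (sum_le_sum fun j _ => ?_)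
        refine (norm_sum_le _ _).trans (sum_le_sum fun j' _ => le_of_eq ?_)
        have p1 := del_pos hH j
        have p2 := del_pos hH j'
        rw [norm_mul, Complex.norm_real, Real.norm_of_nonneg (by positivity)]
    _ ≤ ∑ j ∈ range H, ∑ j' ∈ range H, 2 / (P / H) * (N * del H j * del H j') *
        (P / H * D) := by
        refine sum_le_sum fun j hj => sum_le_sum fun j' hj' => ?_
        have p1 := del_pos hH j
        have p2 := del_pos hH j'
        gcongr
        exact key j hj j' hj'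
    _ = 2 * N * D * ((∑ j ∈ range H, del H j) * ∑ j ∈ range H, del H j) := by
        rw [sum_mul_sum, mul_sum]
        refine sum_congr rfl fun j _ => ?_
        rw [mul_sum]
        refine sum_congr rfl fun j' _ => ?_
        field_simp
    _ ≤ 2 * N * D * (2 * 2) := by gcongr
    _ = _ := by ring

end SubW

open SubW RedZ in
theorem sub_of (h1 : R1Stmt) (hZ : RZetaStmt) (hT : StarTrivStmt) (hS : StarSubStmt) :
    SubStmt := by
  obtain ⟨C1, hC1, h1⟩ := h1
  obtain ⟨CZ, hCZ, hZ⟩ := hZ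
  obtain ⟨c0, D, hc0, hS⟩ := hS
  obtain ⟨C2, hC2, h2⟩ := point
  obtain ⟨c, hc, c1, c2⟩ : ∃ c : ℝ, 0 < c ∧ c ≤ c0 ∧ c ≤ 1 / 100 :=
    ⟨min c0 (1 / 100), lt_min hc0 (by norm_num), min_le_left _ _, min_le_right _ _⟩
  have hε : 0 < c / 20 := by positivity
  obtain ⟨b, hb⟩ : ∃ b : ℝ, b = 16 / (c / 20) := ⟨_, rfl⟩
  have b0 : 0 < b := by rw [hb]; positivity
  refine ⟨c / 4, by positivity, ?_⟩
  filter_upwards [hS, hT (c / 20) hε, eventually_ge_atTop (2 : ℝ), ev_exp hε,
    LZ.ev_const (C1 * (1 + b + b * C2)) _ hε, LZ.ev_const b _ hε, LZ.ev_const 2 _ hε,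
    LZ.ev_const D _ hε, LZ.ev_const 10 (1 / 10) (by norm_num),
    LZ.ev_log CZ (1 / 10) hCZ.le (by norm_num)]
    with T hS hT T2 hexp w1 w2 w3 w4 h10 hlog t t1 t2
  have T0 : 0 < T := by linarith
  have T1 : 1 ≤ T := by linarith
  obtain ⟨J, J1, J2, J3⟩ := exists_J T1 hε (by linarith)
  rw [← hb] at J3
  have eS : T ^ (1 / 3 - c) = (T ^ (1 / 6 - c / 2)) ^ 2 := by
    rw [← Real.rpow_natCast, ← Real.rpow_mul T0.le]; congr 1; push_cast; ring
  have eF : T ^ (1 / 6 - c / 4) = T ^ (1 / 6 - c / 2) * (T ^ (c / 20)) ^ 5 := by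
    rw [← Real.rpow_natCast, ← Real.rpow_mul T0.le, ← Real.rpow_add T0]; congr 1; push_cast; ring
  have S1 : T ^ (1 / 10 : ℝ) ≤ T ^ (1 / 6 - c / 2) :=
    Real.rpow_le_rpow_of_exponent_le T1 (by linarith)
  have S2 : T ^ (1 / 3 - c0) ≤ (T ^ (1 / 6 - c / 2)) ^ 2 :=
    eS ▸ Real.rpow_le_rpow_of_exponent_le T1 (by linarith)
  rw [eF]
  generalize T ^ (1 / 6 - c / 2) = S at *
  generalize T ^ (c / 20) = W at *
  have W0 : 0 < W := by linarith
  have S10 : 10 ≤ S := h10.trans S1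
  have S0 : 0 < S := by linarith
  have S100 : 100 ≤ S ^ 2 := by nlinarith
  have eG : S ^ 2 * W / W = S ^ 2 := by field_simp
  have WG : W ≤ S ^ 2 * W := by nlinarith
  have piece : ∀ P : ℝ, 0 < P → P ≤ 2 * T → ‖Zs P t‖ ≤ S * W ^ 2 := by
    intro P hP hPT
    have blk : ∀ i ∈ range J, ‖SH P (S ^ 2 * W) (2 ^ i) t‖ ≤ 1 + C2 * W := by
      intro i hi
      have H1 : 1 ≤ 2 ^ i := Nat.one_le_two_pow
      have p1 : 0 ≤ C2 * W := by positivity
      rcases le_total (P / ((2 ^ i : ℕ) : ℝ)) (S ^ 2) with hs | hs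
      · have H2 : ((2 ^ i : ℕ) : ℝ) ≤ 8 * T := by
          refine le_trans ?_ J2
          push_cast
          exact pow_le_pow_right₀ (by norm_num) (mem_range.1 hi).le
        refine (SH_small t hP W0 WG H1 (eG.symm ▸ hs)).trans ?_
        calc _ ≤ 8 * T * (18 * T * (16 * Real.exp (-(W / 3)))) := by gcongr; linarith
          _ = 2304 * (T ^ 2 * Real.exp (-(W / 3))) := by ring
          _ ≤ _ := by linarith
      · have Y1 : 100 ≤ P / ((2 ^ i : ℕ) : ℝ) := S100.trans hs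
        have hI : StarI T (P / ((2 ^ i : ℕ) : ℝ)) W := by
          rcases le_total ((P / ((2 ^ i : ℕ) : ℝ)) ^ 3) T with h | h
          · exact mono (hS _ (S2.trans hs) h) (by linarith) w4
          · exact of_bound (hT _ Y1 h)
        have := h2 T P (S ^ 2 * W) W t _ H1 Y1 hPT (by positivity) W0.le hI t1 t2
        linarith
    have a1 := h1 P (S ^ 2 * W) t J {t} hP (by linarith) (by linarith)
      (fun s hs s' hs' hne => absurd ((mem_singleton.1 hs).trans (mem_singleton.1 hs').symm) hne)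
      (fun s hs => by rw [mem_singleton.1 hs]; exact ⟨le_rfl, by linarith⟩)
    rw [sum_singleton] at a1
    have a2 := sum_le_card_nsmul _ _ _ blk
    rw [card_range, nsmul_eq_mul] at a2
    have a3 : (J : ℝ) * (1 + C2 * W) ≤ b * W * (1 + C2 * W) := by gcongr
    have W2 : W ≤ W ^ 2 := by nlinarith
    have a4 : 1 + b * W * (1 + C2 * W) ≤ (1 + b + b * C2) * W ^ 2 := by
      have : b * W ≤ b * W ^ 2 := by gcongr
      nlinarith
    have a5 : ‖Zs P t‖ ^ 2 ≤ (S * W ^ 2) ^ 2 := by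
      calc _ ≤ _ := a1
        _ ≤ C1 * (S ^ 2 * W * ((1 + b + b * C2) * W ^ 2)) := by gcongr; linarith
        _ = C1 * (1 + b + b * C2) * (S ^ 2 * W ^ 3) := by ring
        _ ≤ W * (S ^ 2 * W ^ 3) := by gcongr
        _ = _ := by ring
    exact (pow_le_pow_iff_left₀ (norm_nonneg _) (by positivity) two_ne_zero).1 a5
  have b1 := hZ T t J T2 t1 t2 J1
  have b2 := sum_le_card_nsmul (range J) (fun j => ‖Zs (2 * T / 2 ^ j) t‖) (S * W ^ 2)
    fun j _ => piece _ (by positivity) (div_le_self (by linarith) (one_le_pow₀ (by norm_num)))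
  rw [card_range, nsmul_eq_mul] at b2
  have b3 : (J : ℝ) * (S * W ^ 2) ≤ W * W * (S * W ^ 2) := by
    gcongr
    exact J3.trans (by gcongr)
  have b4 : S ≤ S * W ^ 4 := le_mul_of_one_le_right S0.le (one_le_pow₀ (by linarith))
  have b5 : 2 * (S * W ^ 4) ≤ W * (S * W ^ 4) := by gcongr
  nlinarith

end Pool.Agent.MP_3d0d30_nt.Six
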