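import Pool.Agent.MP_3d0d30_nt.Six.Spec2
import Pool.Agent.Lib.helper44.VdC
import Pool.Agent.MP_3d0d30_nt.Six.Star0
import Pool.Agent.MP_3d0d30_nt.Six.DAB
import Pool.Agent.MP_3d0d30_nt.Six.RedZ
import Pool.Agent.MP_3d0d30_nt.Six.All
import Pool.Agent.MP_3d0d30_nt.Six.HK
import Pool.Agent.MP_3d0d30_nt.Six.StarSub
import Pool.Agent.MP_3d0d30_nt.Six.Sub
import Pool.Agent.MP_3d0d30_nt.Six.Final2

-- ======== part 0: formerly Pool.Agent.MP_3d0d30_nt.Six.Mon
section MrgPart0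

/-! Project SIX, second stage: monomial exponential sums with an amplitude of bounded variation. -/

set_option autoImplicit false

namespace Pool.Agent.MP_3d0d30_nt.Six

open Finset Pool.Agent.Lib.helper44

namespace Mon

theorem iter_mvt (k : ℕ) : ∀ D : ℕ → ℝ → ℝ, (∀ j x, 0 < x → HasDerivAt (D j) (D (j + 1) x) x) →
    ∀ a : ℝ, 0 < a → ∀ n : ℕ, ∃ ξ, a + n ≤ ξ ∧ ξ ≤ a + n + k ∧
      (fwdDiff 1)^[k] (fun m : ℕ => D 0 (a + m)) n = D k ξ := by
  induction k with
  | zero => exact fun D _ a _ n => ⟨a + n, le_rfl, by simp, rfl⟩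
  | succ k ih =>
    intro D hD a ha n
    obtain ⟨ξ, h1, h2, h3⟩ := ih (fun j x => D j (x + 1) - D j x) (fun j x hx =>
      (HasDerivAt.comp_add_const x 1 (hD j _ (by linarith))).fun_sub (hD j x hx)) a ha n
    have hξ : 0 < ξ := lt_of_lt_of_le (by positivity) h1
    obtain ⟨c, hc, e⟩ := exists_hasDerivAt_eq_slope (D k) (D (k + 1)) (show ξ < ξ + 1 by linarith)
      (fun x hx => (hD k x (by linarith [hx.1])).continuousAt.continuousWithinAt)
      (fun x hx => hD k x (by linarith [hx.1]))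
    refine ⟨c, by linarith [hc.1], by push_cast; linarith [hc.2], ?_⟩
    rw [Function.iterate_succ_apply, e, add_sub_cancel_left, div_one, ← h3]
    refine congrArg (fun g => (fwdDiff 1)^[k] g n) (funext fun m => ?_)
    simp [fwdDiff, add_assoc]

theorem tests (j : ℕ) : ∃ p q : ℝ, 0 < p ∧ p ≤ 1 / 2 ∧ 0 ≤ q ∧ q + 3 * p ≤ 1 ∧
    ∀ h : ℝ, 1 ≤ h → Test (j + 3) p q h := by
  induction j with
  | zero =>
    refine ⟨1 / 2 / (2 * (1 + 1 / 2)), (1 + 0) / 2, by norm_num, by norm_num, by norm_num,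
      by norm_num, fun h hh => ?_⟩
    exact (test_two hh).step (by norm_num) le_rfl le_rfl
  | succ j ih =>
    obtain ⟨p, q, h1, h2, h3, h4, h5⟩ := ih
    have h6 : p / (2 * (1 + p)) ≤ p / 2 := by
      apply div_le_div_of_nonneg_left h1.le (by norm_num); linarith
    exact ⟨p / (2 * (1 + p)), (1 + q) / 2, by positivity, by linarith, by positivity, by linarith,
      fun h hh => (h5 h hh).step h1 h2 h3⟩

/-- the derivatives of the identity -/
def dl : ℕ → ℝ → ℝ
  | 0 => fun x => x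
  | 1 => fun _ => 1
  | _ + 2 => fun _ => 0

theorem hasDerivAt_dl (j : ℕ) (x : ℝ) : HasDerivAt (dl j) (dl (j + 1) x) x := by
  rcases j with _ | _ | j
  · exact hasDerivAt_id x
  · exact hasDerivAt_const x _
  · exact hasDerivAt_const x _

/-- the falling factorial -/
def cf (γ : ℝ) : ℕ → ℝ
  | 0 => 1
  | j + 1 => cf γ j * (γ - j)

theorem cf_ne {γ : ℝ} (h : ∀ j : ℕ, γ - j ≠ 0) (j : ℕ) : cf γ j ≠ 0 := by
  induction j with
  | zero => simp [cf]
  | succ j ih => exact mul_ne_zero ih (h j)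

theorem hasDerivAt_mon (γ : ℝ) (j : ℕ) {x : ℝ} (hx : 0 < x) :
    HasDerivAt (fun x : ℝ => cf γ j * x ^ (γ - j)) (cf γ (j + 1) * x ^ (γ - (j + 1 : ℕ))) x := by
  refine ((Real.hasDerivAt_rpow_const (p := γ - j) (Or.inl hx.ne')).const_mul
    (cf γ j)).congr_deriv ?_
  simp only [cf]
  push_cast
  rw [← sub_sub, mul_assoc]

/-- the bound for the plain sums -/
def Bd (ρ γ : ℝ) (lo hi : ℕ) : Prop := ∃ η C : ℝ, 0 < η ∧ η ≤ 1 ∧ 0 < C ∧
  ∀ (M z α : ℝ) (a n : ℕ), 1 ≤ M → M ≤ a → (a + n : ℝ) ≤ ρ * M + 1 → M ^ lo ≤ |z| * M ^ γ →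
    |z| * M ^ γ ≤ M ^ hi →
    ‖∑ m ∈ range n, E (z * ((a + m : ℕ) : ℝ) ^ γ + α * (a + m : ℕ))‖ ≤ C * M ^ (1 - η)

theorem E_eq (x : ℝ) : E x = ee (2 * Real.pi * x) := by
  simp [E, ee]

theorem bd_one (ρ : ℝ) {γ : ℝ} (hγ : ∀ j : ℕ, γ - j ≠ 0) (hγ1 : γ ≤ 1) (j : ℕ) :
    Bd ρ γ (j + 1) (j + 2) := by
  obtain ⟨p, q, hp, hp1, hq, hpq, hT⟩ := tests j
  set R : ℝ := |ρ| + 1 + (j + 3 : ℕ) with hR
  have hj0 : (0 : ℝ) ≤ j := j.cast_nonneg
  have hR1 : 1 ≤ R := by
    have := abs_nonneg ρ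
    have : (0 : ℝ) ≤ (j + 3 : ℕ) := Nat.cast_nonneg _
    linarith
  have hR0 : 0 < R := by linarith
  set e : ℝ := γ - (j + 3 : ℕ) with he
  have he0 : e ≤ 0 := by rw [he]; push_cast; linarith
  obtain ⟨C, hC, hT⟩ := hT (R ^ (-e)) (Real.one_le_rpow hR1 (by linarith))
  set κ := |cf γ (j + 3)| with hκ
  have hκ0 : 0 < κ := abs_pos.2 (cf_ne hγ _)
  have hpi := Real.pi_pos
  set c0 := 2 * Real.pi * κ * R ^ e with hc0
  have hc00 : 0 < c0 := by positivity
  refine ⟨p, C * (R * c0 ^ p + R ^ q * c0 ^ (-p)), hp, by linarith, by positivity,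
    fun M z α a n hM ha hn h1 h2 => ?_⟩
  have hM0 : 0 < M := by linarith
  have ha0 : (0 : ℝ) < a := by linarith
  have hz : 0 < |z| := by
    rcases (abs_nonneg z).eq_or_lt with h | h
    · rw [← h, zero_mul] at h1
      exact absurd h1 (not_le.2 (by positivity))
    · exact h
  obtain ⟨s, hs, hs1⟩ : ∃ s : ℝ, (s = 1 ∨ s = -1) ∧ s * (z * cf γ (j + 3)) = |z| * κ := by
    rw [hκ, ← abs_mul]
    rcases le_total 0 (z * cf γ (j + 3)) with h | h
    · exact ⟨1, Or.inl rfl, by rw [abs_of_nonneg h, one_mul]⟩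
    · exact ⟨-1, Or.inr rfl, by rw [abs_of_nonpos h, neg_one_mul]⟩
  set D : ℕ → ℝ → ℝ := fun i x =>
    s * (2 * Real.pi * (z * (cf γ i * x ^ (γ - i)) + α * dl i x)) with hD
  have hDd : ∀ i x, 0 < x → HasDerivAt (D i) (D (i + 1) x) x := fun i x hx =>
    ((((hasDerivAt_mon γ i hx).const_mul z).add ((hasDerivAt_dl i x).const_mul α)).const_mul
      _).const_mul s
  have hsum : ‖∑ m ∈ range n, E (z * ((a + m : ℕ) : ℝ) ^ γ + α * (a + m : ℕ))‖ =
      ‖∑ m ∈ range n, ee (D 0 (a + m))‖ := by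
    simp only [hD, cf, dl, E_eq, Nat.cast_zero, sub_zero, one_mul, Nat.cast_add]
    rcases hs with rfl | rfl
    · simp only [one_mul]
    · simp only [neg_one_mul]
      rw [norm_sum_ee_neg (fun m : ℕ => 2 * Real.pi * (z * ((a : ℝ) + m) ^ γ + α * (a + m)))]
  set u := |z| * M ^ e with hu
  have hu0 : 0 < u := by positivity
  have hue : u * M ^ (j + 3) = |z| * M ^ γ := by
    rw [hu, he, mul_assoc, ← Real.rpow_natCast, ← Real.rpow_add hM0, sub_add_cancel]
  have hu1 : u ≤ M ^ (-1 : ℝ) := by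
    rw [Real.rpow_neg_one, ← one_div, le_div_iff₀ hM0]
    apply le_of_mul_le_mul_right _ (pow_pos hM0 (j + 2))
    rw [one_mul]
    calc _ = u * M ^ (j + 3) := by ring
      _ ≤ _ := hue ▸ h2
  have hu2 : M ^ (-2 : ℝ) ≤ u := by
    rw [Real.rpow_neg hM0.le, Real.rpow_two, ← one_div, div_le_iff₀ (by positivity)]
    apply le_of_mul_le_mul_right _ (pow_pos hM0 (j + 1))
    rw [one_mul]
    calc _ ≤ _ := h1
      _ = u * M ^ (j + 3) := hue.symm
      _ = _ := by ring
  have hρ : ρ * M ≤ |ρ| * M := by gcongr; exact le_abs_self ρ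
  have hk : ((j + 3 : ℕ) : ℝ) * 1 ≤ (j + 3 : ℕ) * M := by gcongr
  have hk0 : (0 : ℝ) ≤ (j + 3 : ℕ) := Nat.cast_nonneg _
  have hRM : R * M = |ρ| * M + M + (j + 3 : ℕ) * M := by rw [hR]; ring
  have hnR : (n : ℝ) ≤ R * M := by linarith
  rw [hsum]
  refine (hT _ n (c0 * u) (by positivity) fun m hm => ?_).trans ?_
  · obtain ⟨ξ, x1, x2, x3⟩ := iter_mvt (j + 3) D hDd a ha0 m
    have hm0 : (0 : ℝ) ≤ m := m.cast_nonneg
    have hm1 : (m : ℝ) ≤ n := by exact_mod_cast hm.le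
    have hξ : M ≤ ξ := by linarith
    have hξ1 : ξ ≤ R * M := by linarith
    have x4 : D (j + 3) ξ = 2 * Real.pi * κ * |z| * ξ ^ e := by
      simp only [hD, dl, ← he]
      linear_combination (2 * Real.pi * ξ ^ e) * hs1
    rw [x3, x4]
    constructor
    · calc c0 * u = 2 * Real.pi * κ * |z| * (R * M) ^ e := by
            rw [Real.mul_rpow hR0.le hM0.le, hc0, hu]; ring
        _ ≤ _ := mul_le_mul_of_nonneg_left
            (Real.rpow_le_rpow_of_nonpos (by linarith) hξ1 he0) (by positivity)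
    · calc _ ≤ 2 * Real.pi * κ * |z| * M ^ e := mul_le_mul_of_nonneg_left
            (Real.rpow_le_rpow_of_nonpos hM0 hξ he0) (by positivity)
        _ = (R ^ (-e) * R ^ e) * (2 * Real.pi * κ * |z| * M ^ e) := by
            rw [← Real.rpow_add hR0, neg_add_cancel, Real.rpow_zero, one_mul]
        _ = _ := by rw [hc0, hu]; ring
  · rw [mul_assoc C, add_mul]
    have b1 : (n : ℝ) * (c0 * u) ^ p ≤ R * c0 ^ p * M ^ (1 - p) := by
      calc _ ≤ (R * M) * (c0 * M ^ (-1 : ℝ)) ^ p := by gcongr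
        _ = _ := by
          rw [Real.mul_rpow hc00.le (by positivity), ← Real.rpow_mul hM0.le, sub_eq_add_neg,
            Real.rpow_add hM0, Real.rpow_one, neg_one_mul]
          ring
    have b2 : (n : ℝ) ^ q * (c0 * u) ^ (-p) ≤ R ^ q * c0 ^ (-p) * M ^ (1 - p) := by
      calc _ ≤ (R * M) ^ q * (c0 * M ^ (-2 : ℝ)) ^ (-p) :=
            mul_le_mul (by gcongr) (Real.rpow_le_rpow_of_nonpos (by positivity) (by gcongr)
              (by linarith)) (by positivity) (by positivity)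
        _ = R ^ q * c0 ^ (-p) * M ^ (q + -2 * -p) := by
          rw [Real.mul_rpow hc00.le (by positivity), ← Real.rpow_mul hM0.le,
            Real.mul_rpow hR0.le hM0.le, Real.rpow_add hM0]
          ring
        _ ≤ _ := by
          gcongr
          linarith
    gcongr

theorem bd_all (ρ : ℝ) {γ : ℝ} (hγ : ∀ j : ℕ, γ - j ≠ 0) (hγ1 : γ ≤ 1) (K : ℕ) :
    Bd ρ γ 1 (K + 2) := by
  induction K with
  | zero => exact bd_one ρ hγ hγ1 0
  | succ K ih =>
    obtain ⟨η, C, h1, h2, h3, h4⟩ := ih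
    obtain ⟨η', C', h1', h2', h3', h4'⟩ := bd_one ρ hγ hγ1 (K + 1)
    refine ⟨min η η', C + C', lt_min h1 h1', (min_le_left _ _).trans h2, by positivity,
      fun M z α a n hM ha hn k1 k2 => ?_⟩
    rcases le_total (|z| * M ^ γ) (M ^ (K + 2)) with h | h
    · refine (h4 M z α a n hM ha hn k1 h).trans ?_
      gcongr
      · linarith
      · exact min_le_left _ _
    · refine (h4' M z α a n hM ha hn h k2).trans ?_
      gcongr
      · linarith
      · exact min_le_right _ _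

theorem abel (c e : ℕ → ℂ) {S : ℝ} (n : ℕ) (h : ∀ j ≤ n, ‖∑ m ∈ range j, e m‖ ≤ S) :
    ‖∑ m ∈ range (n + 1), c m * e m - c n * ∑ m ∈ range (n + 1), e m‖ ≤
      S * ∑ m ∈ range n, ‖c (m + 1) - c m‖ := by
  induction n with
  | zero => simp
  | succ n ih =>
    have e1 : ∑ m ∈ range (n + 1 + 1), c m * e m - c (n + 1) * ∑ m ∈ range (n + 1 + 1), e m =
        (∑ m ∈ range (n + 1), c m * e m - c n * ∑ m ∈ range (n + 1), e m) -
          (∑ m ∈ range (n + 1), e m) * (c (n + 1) - c n) := by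
      rw [sum_range_succ _ (n + 1), sum_range_succ e (n + 1)]
      ring
    rw [e1, sum_range_succ (fun m => ‖c (m + 1) - c m‖), mul_add]
    refine (norm_sub_le _ _).trans (add_le_add (ih fun j hj => h j (by omega)) ?_)
    rw [norm_mul]
    gcongr
    exact h _ le_rfl

end Mon

theorem mon : MonStmt := by
  intro K ρ
  obtain ⟨η, C, h1, h2, h3, h4⟩ := Mon.bd_all ρ (γ := -1) (fun j => by
    have : (0 : ℝ) ≤ j := j.cast_nonneg
    linarith) (by norm_num) K
  obtain ⟨η', C', h1', h2', h3', h4'⟩ := Mon.bd_all ρ (γ := 1 / 2) (fun j h => by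
    have h5 : ((1 : ℕ) : ℝ) = (2 * j : ℕ) := by push_cast; linarith
    have h6 : 1 = 2 * j := by exact_mod_cast h5
    omega) (by norm_num) K
  refine ⟨min η η', 2 * (C + C'), lt_min h1 h1', (min_le_left _ _).trans h2, by positivity,
    fun γ M z α B a b c hγ hM ha hb k1 k2 hc hv => ?_⟩
  have hB : 0 ≤ B := le_trans (sum_nonneg fun _ _ => norm_nonneg _) hv
  rcases lt_or_ge b a with hab | hab
  · rw [Icc_eq_empty (by omega), sum_empty, norm_zero]
    positivity
  obtain ⟨n, rfl⟩ := Nat.exists_eq_add_of_le hab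
  have k3 : |z| * M ^ γ ≤ M ^ (K + 2) := k2.trans (pow_le_pow_right₀ hM (by omega))
  have hS : ∀ j ≤ n + 1, ‖∑ m ∈ range j, E (z * ((a + m : ℕ) : ℝ) ^ γ + α * (a + m : ℕ))‖ ≤
      (C + C') * M ^ (1 - min η η') := by
    intro j hj
    have hj1 : (a + j : ℝ) ≤ ρ * M + 1 := by
      have : (j : ℝ) ≤ n + 1 := by exact_mod_cast hj
      push_cast at hb
      linarith
    rcases hγ with rfl | rfl
    · refine (h4 M z α a j hM ha hj1 (by rwa [pow_one]) k3).trans ?_
      gcongr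
      · linarith
      · exact min_le_left _ _
    · refine (h4' M z α a j hM ha hj1 (by rwa [pow_one]) k3).trans ?_
      gcongr
      · linarith
      · exact min_le_right _ _
  have hA := Mon.abel (fun m => c (a + m))
    (fun m => E (z * ((a + m : ℕ) : ℝ) ^ γ + α * (a + m : ℕ))) n fun j hj => hS j (by omega)
  rw [sum_Ico_eq_sum_range, Nat.add_sub_cancel_left] at hv
  rw [← Ico_add_one_right_eq_Icc, sum_Ico_eq_sum_range,
    show a + n + 1 - a = n + 1 by omega]
  have hl := hS (n + 1) le_rfl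
  have hc1 := hc (a + n) (by omega) le_rfl
  generalize (∑ m ∈ range (n + 1), E (z * ((a + m : ℕ) : ℝ) ^ γ + α * (a + m : ℕ))) = A at hA hl
  generalize (∑ m ∈ range (n + 1), c (a + m) * E (z * ((a + m : ℕ) : ℝ) ^ γ + α * (a + m : ℕ))) =
    A' at hA ⊢
  have hS0 : 0 ≤ (C + C') * M ^ (1 - min η η') := by positivity
  calc ‖A'‖ = ‖(A' - c (a + n) * A) + c (a + n) * A‖ := by rw [sub_add_cancel]
    _ ≤ (C + C') * M ^ (1 - min η η') * B + B * ((C + C') * M ^ (1 - min η η')) := by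
        refine (norm_add_le _ _).trans (add_le_add (hA.trans ?_) ?_)
        · exact mul_le_mul_of_nonneg_left hv hS0
        · rw [norm_mul]
          gcongr
    _ = _ := by ring

end Pool.Agent.MP_3d0d30_nt.Six

end MrgPart0

-- ======== part 1: formerly Pool.Agent.MP_3d0d30_nt.Six.B1
section MrgPart1

/-! Project SIX: duality and Poisson summation, keeping the sum over the dual frequencies. -/

set_option autoImplicit false

namespace Pool.Agent.MP_3d0d30_nt.Six

open MeasureTheory Finset Filter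
open scoped ComplexConjugate

namespace B1

open B0

theorem FM_conj {w : ℝ → ℝ} {A : ℝ} (h : G2 (fun y => (w y : ℂ)) A) (N : ℕ) (β : ℝ) (ε : ℝ → ℂ)
    (U : Finset ℝ) (m : ℤ) :
    FM N β (fun y => (w y : ℂ)) ε U (-m) = conj (FM N β (fun y => (w y : ℂ)) ε U m) := by
  rw [FM_eq h, FM_eq h, map_mul,
    intervalIntegral.integral_of_le (by norm_num), intervalIntegral.integral_of_le (by norm_num),
    ← integral_conj]
  simp only [map_mul, Complex.conj_ofReal, conj_E, Complex.conj_natCast, Int.cast_neg, mul_neg,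
    neg_mul, neg_neg]

theorem sum_sym (f : ℤ → ℂ) (K : ℕ) : ∑ ν ∈ Icc (-(K : ℤ)) K, f (-ν) =
    f 0 + ∑ m ∈ Icc 1 K, f (m : ℕ) + ∑ m ∈ Icc 1 K, f (-(m : ℕ)) := by
  induction K with
  | zero => simp
  | succ K ih =>
    have e : Icc (-((K + 1 : ℕ) : ℤ)) ((K + 1 : ℕ) : ℤ) =
        insert (-((K + 1 : ℕ) : ℤ)) (insert ((K + 1 : ℕ) : ℤ) (Icc (-(K : ℤ)) K)) := by
      ext x
      simp only [mem_Icc, mem_insert]
      omega
    rw [e, sum_insert (by simp only [mem_Icc, mem_insert]; omega),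
      sum_insert (by simp only [mem_Icc]; omega), ih, sum_Icc_succ_top (by omega),
      sum_Icc_succ_top (by omega), neg_neg]
    ring

end B1

open B0 B1

theorem b1_of (hK : Kern) (hN : NonStatStmt) (hP : PoissonStmt) : B1Stmt := by
  obtain ⟨A, hA, hG⟩ := exists_G2
  obtain ⟨C, hC, hT⟩ := FM_tail hN hA
  have hZ := Star00.Z2_nonneg
  refine ⟨A, A * Real.exp 30 + C * Star00.Z2 + 2, by positivity, ?_⟩
  intro N β s M a U hN1 hM h0 h1 ha hU hW
  have n0 : (0 : ℝ) < N := by exact_mod_cast hN1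
  have hex : ∀ t, ∃ c : ℂ, ‖c‖ = 1 ∧ c * Dsum N β a t = ‖Dsum N β a t‖ := fun t =>
    Complex.exists_norm_eq_mul_self _ |>.imp fun c h => ⟨h.1, h.2.symm⟩
  choose ε hε1 hε2 using hex
  have hε : ∀ t, ‖ε t‖ ≤ 1 := fun t => (hε1 t).le
  have hw := hG β h0 h1
  refine ⟨_, ε, hw, hε, ?_⟩
  obtain ⟨sm, hx⟩ := Star00.tail_bound (fun ν : ℤ => FM N β (fun y => (wr β y : ℂ)) ε U (-ν))
    (Icc (-(⌈2 * M⌉₊ : ℤ)) ⌈2 * M⌉₊) _ _ (Star00.hasSum_Z2.mul_left (C * U.card ^ 2 / N))
    (fun ν => by positivity) (fun ν hν => by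
      rw [FM_neg hw]
      refine hT N β s M _ ε U ν hN1 hM h0 h1 hw hε hW ((Nat.le_ceil _).trans ?_)
      rw [mem_Icc, ← abs_le, not_le] at hν
      exact_mod_cast hν.le)
  obtain ⟨R, hR⟩ := exists_nat_gt (N * XX β 2 + 2 * N)
  have x0 := XX_pos h0 (show (0 : ℝ) < 2 by norm_num)
  have hR1 : N * XX β 2 < R := by linarith
  have hR2 : 2 * N < R := by
    have : (2 * N : ℝ) < R := by nlinarith
    exact_mod_cast this
  have p := hx _ (poisson_step hP h0 hN1 hw ε U hR1 sm)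
  have d := dual U hN1 h0 h1 ha hR2 hε2
  rw [← Complex.ofReal_sum] at p
  set x := ∑ n ∈ range R, om (gg β (n / N)) * ‖rho ε U (gg β (n / N))‖ ^ 2
  set F := FM N β (fun y => (wr β y : ℂ)) ε U with hF
  have q0 : ∑ m ∈ Icc 1 ⌈2 * M⌉₊, F (-(m : ℕ)) = conj (∑ m ∈ Icc 1 ⌈2 * M⌉₊, F (m : ℕ)) := by
    rw [map_sum]
    exact sum_congr rfl fun m _ => FM_conj hw N β ε U _
  have q1 : ‖∑ ν ∈ Icc (-(⌈2 * M⌉₊ : ℤ)) ⌈2 * M⌉₊, F (-ν)‖ ≤
      ‖F 0‖ + 2 * ‖∑ m ∈ Icc 1 ⌈2 * M⌉₊, F (m : ℕ)‖ := by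
    rw [sum_sym, q0]
    refine (norm_add_le _ _).trans ?_
    rw [Complex.norm_conj]
    linarith [norm_add_le (F 0) (∑ m ∈ Icc 1 ⌈2 * M⌉₊, F (m : ℕ))]
  have q2 : ‖F 0‖ ≤ N * (A * (Real.exp 30 * U.card)) := FM_zero hK hw N β hε hU
  have q3 : x ≤ ‖(x : ℂ)‖ := by rw [Complex.norm_real]; exact le_abs_self _
  have q4 := norm_add_le ((x : ℂ) - ∑ ν ∈ Icc (-(⌈2 * M⌉₊ : ℤ)) ⌈2 * M⌉₊, F (-ν))
    (∑ ν ∈ Icc (-(⌈2 * M⌉₊ : ℤ)) ⌈2 * M⌉₊, F (-ν))
  rw [sub_add_cancel] at q4
  set S := ‖∑ m ∈ Icc 1 ⌈2 * M⌉₊, F (m : ℕ)‖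
  have S0 : 0 ≤ S := norm_nonneg _
  have q5 : x ≤ C * U.card ^ 2 / N * Star00.Z2 + (N * (A * (Real.exp 30 * U.card)) + 2 * S) := by
    linarith
  have a1 : 0 ≤ A * Real.exp 30 := by positivity
  have a2 : 0 ≤ C * Star00.Z2 := by positivity
  have a3 : (0 : ℝ) ≤ N ^ 2 * U.card := by positivity
  have a4 : (0 : ℝ) ≤ U.card ^ 2 := by positivity
  have a5 : 0 ≤ N * S := by positivity
  calc _ ≤ N * x := d
    _ ≤ N * (C * U.card ^ 2 / N * Star00.Z2 + (N * (A * (Real.exp 30 * U.card)) + 2 * S)) := by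
        gcongr
    _ = A * Real.exp 30 * (N ^ 2 * U.card) + C * Star00.Z2 * U.card ^ 2 + 2 * (N * S) := by
        field_simp
        ring
    _ ≤ _ := by nlinarith [mul_nonneg a1 a4, mul_nonneg a1 a5, mul_nonneg a2 a3, mul_nonneg a2 a5]

end Pool.Agent.MP_3d0d30_nt.Six

end MrgPart1

-- ======== part 2: formerly Pool.Agent.MP_3d0d30_nt.Six.DC
section MrgPart2

/-! Project SIX2, module DC: the Halasz bound with a power saving. -/

set_option autoImplicit false

namespace Pool.Agent.MP_3d0d30_nt.Six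

open Finset Filter Real
open scoped ComplexConjugate

namespace DC

/-- the sum of the bilinear forms is controlled by the sup of the summed kernel -/
lemma FM_sum (N R : ℕ) (β κ : ℝ) (w ε : ℝ → ℂ) (U : Finset ℝ) (hε : ∀ t, ‖ε t‖ ≤ 1)
    (h : ∀ t ∈ U, ∀ t' ∈ U, ‖∑ m ∈ Icc 1 R, hm N β w (m : ℕ) (t - t')‖ ≤ κ) :
    ‖∑ m ∈ Icc 1 R, FM N β w ε U (m : ℕ)‖ ≤ (U.card : ℝ) ^ 2 * κ := by
  have e : ∑ m ∈ Icc 1 R, FM N β w ε U (m : ℕ) =
      ∑ t ∈ U, ∑ t' ∈ U, ε t * conj (ε t') * ∑ m ∈ Icc 1 R, hm N β w (m : ℕ) (t - t') := by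
    unfold FM
    rw [Finset.sum_comm]
    refine Finset.sum_congr rfl fun t _ => ?_
    rw [Finset.sum_comm]
    refine Finset.sum_congr rfl fun t' _ => ?_
    rw [Finset.mul_sum]
  rw [e]
  calc _ ≤ ∑ t ∈ U, ∑ t' ∈ U, κ := by
        refine (norm_sum_le _ _).trans (Finset.sum_le_sum fun t ht => ?_)
        refine (norm_sum_le _ _).trans (Finset.sum_le_sum fun t' ht' => ?_)
        rw [norm_mul, norm_mul, Complex.norm_conj]
        have h1 := hε t
        have h2 := hε t'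
        have h3 := h t ht t' ht'
        calc _ ≤ 1 * 1 * κ := by gcongr
          _ = κ := by ring
    _ = _ := by simp [sq, mul_assoc]

/-- absorbing the quadratic term -/
lemma absorb2 {S A V c : ℝ} (hV : 0 < V) (hA : 0 ≤ A) (hc : 0 ≤ c) (h1 : V * c ≤ S)
    (h2 : S ^ 2 ≤ A * c + c ^ 2 * (V ^ 2 / 2)) : S ≤ 2 * A / V := by
  have hS : 0 ≤ S := (mul_nonneg hV.le hc).trans h1
  have h3 : (V * c) ^ 2 ≤ S ^ 2 := by gcongr
  have h4 : S ^ 2 ≤ 2 * (A * c) := by nlinarith
  rw [le_div_iff₀ hV]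
  rcases hS.eq_or_lt with h | h
  · rw [← h]
    linarith
  · refine le_of_mul_le_mul_left ?_ h
    have h5 : A * (V * c) ≤ A * S := by gcongr
    nlinarith

/-- the bound for the summed kernel on the whole window, in logarithmic variables -/
lemma kernel {C η β τ X k l n D : ℝ} {N : ℕ} (eN : (N : ℝ) = exp n) (hC : C ≤ exp k)
    (hk : 512 ≤ exp k) (hη : 0 < η) (k0 : 0 ≤ k) (hD : D = 100 * k) (hDl : 1000 * D ≤ l)
    (hηl : 1000 * D ≤ η * l) (hn0 : 0 ≤ n) (n2 : n ≤ k + 498 / 1000 * l)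
    (hβ : β ^ 2 ≤ exp (k + n - l)) (hτ : |τ| ≤ exp (l - n + D))
    (h1 : X ≤ C * (1 + √|τ|))
    (h2 : 8 * N ≤ |τ| → 2 * |τ| ≤ (|τ| / (8 * N)) ^ 1000 →
      X ≤ C * (1 + (1 + β ^ 2 * |τ|) * √|τ| * (|τ| / N) ^ (-η))) :
    X ≤ exp k * (1 + exp ((l - n) / 2 - 3 * k)) := by
  rcases le_total |τ| (exp (l - n - 6 * k)) with h | h
  · refine h1.trans ?_
    have h3 : √|τ| ≤ exp ((l - n) / 2 - 3 * k) := by
      refine (sqrt_le_sqrt h).trans ?_
      rw [← exp_half]
      exact exp_le_exp.mpr (by linarith)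
    gcongr
  · have hτ0 : 0 < |τ| := lt_of_lt_of_le (exp_pos _) h
    have eτ : |τ| = exp (log |τ|) := (exp_log hτ0).symm
    have u1 : l - n - 6 * k ≤ log |τ| := by rwa [le_log_iff_exp_le hτ0]
    have u2 : log |τ| ≤ l - n + D := by rwa [log_le_iff_le_exp hτ0]
    generalize log |τ| = u at *
    have g1 : 8 * (N : ℝ) ≤ exp (k + n) := by
      rw [exp_add, ← eN]
      gcongr
      linarith
    have hN0 : (0 : ℝ) < N := by rw [eN]; exact exp_pos _
    have a1 : 8 * (N : ℝ) ≤ |τ| := by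
      rw [eτ]
      exact g1.trans (exp_le_exp.mpr (by linarith))
    have a2 : 2 * |τ| ≤ (|τ| / (8 * N)) ^ 1000 := by
      have b1 : exp (3 / 1000 * l) ≤ |τ| / (8 * N) := by
        rw [le_div_iff₀ (by positivity), eτ]
        calc exp (3 / 1000 * l) * (8 * N) ≤ exp (3 / 1000 * l) * exp (k + n) := by gcongr
          _ = exp (3 / 1000 * l + (k + n)) := (exp_add _ _).symm
          _ ≤ _ := exp_le_exp.mpr (by linarith)
      calc 2 * |τ| ≤ exp k * exp u := by
            rw [eτ]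
            gcongr
            linarith
        _ = exp (k + u) := (exp_add _ _).symm
        _ ≤ exp ((1000 : ℕ) * (3 / 1000 * l)) := exp_le_exp.mpr (by push_cast; linarith)
        _ = exp (3 / 1000 * l) ^ 1000 := exp_nat_mul _ _
        _ ≤ _ := pow_le_pow_left₀ (exp_pos _).le b1 _
    refine (h2 a1 a2).trans ?_
    have c1 : 1 + β ^ 2 * |τ| ≤ exp (k + (k + D)) := by
      refine le_trans ?_ (DAB.exp_add_one_le (by linarith) (by linarith))
      rw [add_comm, eτ]
      gcongr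
      calc β ^ 2 * exp u ≤ exp (k + n - l) * exp u := by gcongr
        _ = exp (k + n - l + u) := (exp_add _ _).symm
        _ ≤ _ := exp_le_exp.mpr (by linarith)
    have c2 : √|τ| = exp (u / 2) := by rw [eτ, ← exp_half]
    have c3 : (|τ| / N) ^ (-η) ≤ exp (-(3 * D)) := by
      rw [eτ, eN, ← exp_sub, ← exp_mul]
      refine exp_le_exp.mpr ?_
      have d1 : 3 / 1000 * l ≤ u - n := by linarith
      have d2 : η * (3 / 1000 * l) ≤ η * (u - n) := by gcongr
      nlinarith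
    have c4 : (1 + β ^ 2 * |τ|) * √|τ| * (|τ| / N) ^ (-η) ≤ exp ((l - n) / 2 - 3 * k) := by
      calc _ ≤ exp (k + (k + D)) * exp (u / 2) * exp (-(3 * D)) := by
            rw [c2]
            gcongr
        _ = exp (k + (k + D) + u / 2 + -(3 * D)) := by rw [← exp_add, ← exp_add]
        _ ≤ _ := exp_le_exp.mpr (by linarith)
    have c5 : 0 ≤ (1 + β ^ 2 * |τ|) * √|τ| * (|τ| / N) ^ (-η) := by positivity
    gcongr

end DC

open DAB DC

theorem dc_of (hB : B1Stmt) (hH : HKStmt) : DCStmt := by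
  obtain ⟨A0, C1, hC1, hB⟩ := hB
  obtain ⟨η, C2, hη0, hη1, hC2, hH⟩ := hH A0 1000
  intro c hc
  obtain ⟨d, hd⟩ : ∃ d : ℝ, d = min c (η / 1000) := ⟨_, rfl⟩
  have hd0 : 0 < d := by rw [hd]; positivity
  have hdc : d ≤ c := by rw [hd]; exact min_le_left _ _
  have hdη : d ≤ η / 1000 := by rw [hd]; exact min_le_right _ _
  have hδ : 0 < d / 100 := by positivity
  refine ⟨d / 2, by positivity, ?_⟩
  filter_upwards [ev_const C1 hδ, ev_const C2 hδ, ev_const 512 hδ, eventually_gt_atTop 1]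
    with T e1 e3 e2 hT1 Y hY1 hY2 N β a U hN1 hN2 hβ0 hβ1 hβ ha hS hW
  have hT : 0 < T := by linarith
  have hY : 0 < Y := lt_of_lt_of_le (rpow_pos_of_pos hT _) hY1
  obtain ⟨hN, n1, n2, eV, eL⟩ := setup hT hY e2 hN1 hN2
  have hN0 : (0 : ℝ) < N := by exact_mod_cast hN
  have hl : 0 < log T := log_pos hT1
  have y1 : 251 / 1000 * log T ≤ log Y := by
    have := log_le_log (rpow_pos_of_pos hT _) hY1
    rwa [log_rpow hT] at this
  have y2 : log Y ≤ log T / 3 - d * log T := by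
    have h1 := log_le_log hY hY2
    rw [log_rpow hT] at h1
    have h2 : d * log T ≤ c * log T := by gcongr
    linarith
  have eZ : T ^ (2 - d / 2) / Y ^ 5 = exp (2 * log T - d * log T / 2 - 5 * log Y) := by
    rw [exp_sub, rpow_def_of_pos hT, show 5 * log Y = (5 : ℕ) * log Y by norm_num, exp_nat_mul,
      exp_log hY]
    congr 2
    ring
  have k0 : 0 ≤ d / 100 * log T := by positivity
  have hD : d * log T = 100 * (d / 100 * log T) := by ring
  have hηl : 1000 * (d * log T) ≤ η * log T := by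
    have : d * log T ≤ η / 1000 * log T := by gcongr
    linarith
  have hDl : 1000 * (d * log T) ≤ log T := by
    have : η * log T ≤ 1 * log T := by gcongr
    linarith
  rw [eZ, eV]
  rw [eL] at hW
  have eN : (N : ℝ) = exp (log N) := (exp_log hN0).symm
  have eT : T = exp (log T) := (exp_log hT).symm
  generalize d / 100 * log T = k at *
  generalize d * log T = D at *
  generalize log T = l at *
  generalize log Y = y at *
  generalize log (N : ℝ) = n at *
  refine (split U _ (exp_pos ((n + l) / 4)).le).trans (add_le_add le_rfl ?_)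
  set U1 := U.filter (fun t => exp ((n + l) / 4) ≤ ‖Dsum N β a t‖) with hU1
  have hsub : U1 ⊆ U := filter_subset _ _
  have hn0 : 0 ≤ n := by linarith
  have hβ2 : β ^ 2 ≤ exp (k + n - l) := by
    refine hβ.trans ?_
    rw [exp_sub, exp_add, ← eN, ← eT]
    gcongr
    linarith
  have hβ3 : β ≤ 1 / 10 := by
    have h1 : exp (k + n - l) * exp k ≤ 1 := by
      rw [← exp_add]
      exact exp_le_one_iff.mpr (by linarith)
    have h2 : β ^ 2 * 512 ≤ exp (k + n - l) * exp k := by gcongr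
    nlinarith
  have eNM : (N : ℝ) * exp (l - 2 * n + D) = exp (l - n + D) := by
    rw [eN, ← exp_add]
    congr 1
    ring
  have hκ : C1 * (1 + N * (exp k * (1 + exp ((l - n) / 2 - 3 * k)))) ≤
      exp ((n + l) / 4) ^ 2 / 2 := by
    have h1 : exp k ≤ exp ((n + l) / 2 - k) := exp_le_exp.mpr (by linarith)
    have h2 : exp k * (N * exp k) ≤ exp ((n + l) / 2 - k) := by
      rw [eN, ← exp_add, ← exp_add]
      exact exp_le_exp.mpr (by linarith)
    have h3 : exp k * (N * (exp k * exp ((l - n) / 2 - 3 * k))) ≤ exp ((n + l) / 2 - k) := by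
      rw [eN, ← exp_add, ← exp_add, ← exp_add]
      exact exp_le_exp.mpr (by linarith)
    have h4 : exp ((n + l) / 4) ^ 2 = exp ((n + l) / 2 - k) * exp k := by
      rw [← exp_nat_mul, ← exp_add]
      congr 1
      push_cast
      ring
    have h5 : exp ((n + l) / 2 - k) * 512 ≤ exp ((n + l) / 2 - k) * exp k := by gcongr
    have h6 := exp_pos ((n + l) / 2 - k)
    calc _ ≤ exp k * (1 + N * (exp k * (1 + exp ((l - n) / 2 - 3 * k)))) := by gcongr
      _ = exp k + exp k * (N * exp k) + exp k * (N * (exp k * exp ((l - n) / 2 - 3 * k))) := by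
        ring
      _ ≤ _ := by linarith
  have h1 := windows U1 (fun t => ‖Dsum N β a t‖) (W := N * exp (l - 2 * n + D))
    (B := 2 * (C1 * N ^ 2) / exp ((n + l) / 4)) (by positivity) (by positivity)
    (by positivity) (win_mono hW hsub) fun s U' hU' hw => by
      obtain ⟨w, ε, hw2, hε, hb⟩ := hB N β s (exp (l - 2 * n + D)) a U' hN
        (one_le_exp (by linarith)) hβ0 hβ1 ha (sep_mono hS (hU'.trans hsub)) hw
      have hF := FM_sum N ⌈2 * exp (l - 2 * n + D)⌉₊ β _ w ε U' hε fun t ht t' ht' => by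
        obtain ⟨p1, p2⟩ := hH N ⌈2 * exp (l - 2 * n + D)⌉₊ β (t - t') w hN hβ0 hβ3 hw2
        refine kernel eN e3 e2 hη0 k0 hD hDl hηl hn0 (by linarith) hβ2 ?_ p1 p2
        rw [← eNM, abs_le]
        have q1 := hw t ht
        have q2 := hw t' ht'
        constructor <;> linarith [q1.1, q1.2, q2.1, q2.2]
      have h2 : exp ((n + l) / 4) * U'.card ≤ ∑ t ∈ U', ‖Dsum N β a t‖ := by
        rw [mul_comm, ← nsmul_eq_mul]
        exact Finset.card_nsmul_le_sum _ _ _ fun t ht => (mem_filter.mp (hU' ht)).2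
      refine absorb2 (exp_pos _) (by positivity) (Nat.cast_nonneg _) h2 (hb.trans ?_)
      calc _ ≤ C1 * (N ^ 2 * U'.card + U'.card ^ 2 +
            N * ((U'.card : ℝ) ^ 2 * (exp k * (1 + exp ((l - n) / 2 - 3 * k))))) := by gcongr
        _ = C1 * N ^ 2 * U'.card + (U'.card : ℝ) ^ 2 *
            (C1 * (1 + N * (exp k * (1 + exp ((l - n) / 2 - 3 * k))))) := by ring
        _ ≤ _ := by gcongr
  refine h1.trans ?_
  have h2 : 7 * exp ((l + y) / 2) / (N * exp (l - 2 * n + D)) + 1 ≤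
      exp (k + (2 * k + l / 2 - 3 * y / 2 - D)) := by
    refine le_trans ?_ (exp_add_one_le (by linarith) (by linarith))
    gcongr
    calc _ ≤ exp k * exp ((l + y) / 2) / (N * exp (l - 2 * n + D)) := by gcongr; linarith
      _ = exp (k + (l + y) / 2 - (l - n + D)) := by rw [eNM, exp_sub, exp_add k]
      _ ≤ _ := exp_le_exp.mpr (by linarith)
  have h3 : 2 * (C1 * N ^ 2) / exp ((n + l) / 4) ≤ exp (k + (k + (2 : ℕ) * n) - (n + l) / 4) := by
    rw [exp_sub, exp_add, exp_add, exp_nat_mul, ← eN]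
    gcongr
    linarith
  calc _ ≤ exp (k + (2 * k + l / 2 - 3 * y / 2 - D)) *
        exp (k + (k + (2 : ℕ) * n) - (n + l) / 4) := by gcongr
    _ = exp (k + (2 * k + l / 2 - 3 * y / 2 - D) + (k + (k + (2 : ℕ) * n) - (n + l) / 4)) :=
        (exp_add _ _).symm
    _ ≤ _ := exp_le_exp.mpr (by push_cast; linarith)

end Pool.Agent.MP_3d0d30_nt.Six

end MrgPart2

-- ======== part 3: formerly Pool.Agent.MP_3d0d30_nt.Six.AtkK
section MrgPart3

/-! Project SIX, second stage, module AtkK: slow variation in the frequency variable. -/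

set_option autoImplicit false

namespace Pool.Agent.MP_3d0d30_nt.Six

open MeasureTheory Finset Filter

namespace AtkK

open Atk

/-- the integral against the derivative of the total phase -/
theorem jtwo (hS : SecDerStmt) : ∃ C : ℝ, 0 < C ∧ ∀ (T Y t k x0 : ℝ) (a : ℝ → ℂ), 0 < T →
    100 ≤ Y → Amp Y a → T ≤ t → T / Y ^ 2 / 1000 ≤ k → 0 ≤ x0 →
    t = 2 * Real.pi * k * x0 ^ 2 →
    ‖∫ y in (Y / 8)..(4 * Y), a y * ((y + 1 / 2 - x0 : ℝ) : ℂ) * E (t * lam y + k * y)‖ ≤
      C * (Real.sqrt (Y ^ 3 / T) * (1 + T / Y ^ 3) / (T / Y ^ 2)) := by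
  obtain ⟨C, hC, h⟩ := sec hS
  refine ⟨C * (64 * (4 ^ 4 * 400 * 1000)), by positivity,
    fun T Y t k x0 a hT hY ha ht h1 hx0 hk => ?_⟩
  have hY0 : 0 < Y := by linarith
  have hk0 : 0 < k := lt_of_lt_of_le (by positivity) h1
  have hab : Y / 8 ≤ 4 * Y := by linarith
  have hsub : Set.Icc (Y / 8) (4 * Y) ⊆ Set.Ioi 0 := fun y hy =>
    lt_of_lt_of_le (by positivity : (0 : ℝ) < Y / 8) hy.1
  have hl : 0 < Y / 8 := by positivity
  have cφ : ContinuousOn (fun y => E (t * lam y + k * y)) (Set.Icc (Y / 8) (4 * Y)) :=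
    continuous_E.comp_continuousOn fun y hy => (der_phi (hsub hy)).continuousAt.continuousWithinAt
  have cφ1 : ContinuousOn (fun y => t * l1 y + k) (Set.Icc (Y / 8) (4 * Y)) :=
    (continuousOn_const.mul (contOn_l1.mono hsub)).add continuousOn_const
  have q0 := ha.1.mono hl (by linarith) zero_le_one le_rfl
  have q1 := c2_inv (p := x0 + 1 / 2) (s := 1) (α := Y / 8) (β := 4 * Y) hl (by simp)
    fun y hy => by linarith [hy.1]
  have q3 := c2_aff (c := 0) (α := Y / 8) (β := 4 * Y) (A := 5 * Y) hl (by linarith)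
    fun y hy => abs_le.2 ⟨by linarith [hy.1], by linarith [hy.2]⟩
  have q4 := c2_aff (c := 1) (α := Y / 8) (β := 4 * Y) (A := 5 * Y) hl (by linarith)
    fun y hy => abs_le.2 ⟨by linarith [hy.1], by linarith [hy.2]⟩
  have q6 := C2.const (((k⁻¹ : ℝ)) : ℂ) (Y / 8) (4 * Y) hl
  have hn : ‖(((k⁻¹ : ℝ)) : ℂ)‖ ≤ 1000 * Y ^ 2 / T := by
    rw [Complex.norm_real, Real.norm_of_nonneg (by positivity)]
    calc k⁻¹ ≤ (T / Y ^ 2 / 1000)⁻¹ := inv_anti₀ (by positivity) h1
      _ = _ := by field_simp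
  have q7 := q6.mono hl le_rfl (by positivity) hn
  obtain ⟨R1, R2, hR, -⟩ := q0.mul q1
  obtain ⟨A1, A2, hA, z1, z2, -, -⟩ := (((q0.mul q1).mul q3).mul q4).mul q7
  have eS : 4 * (4 * (4 * (4 * (1 * (2 / (Y / 8))) * (5 * Y)) * (5 * Y)) * (1000 * Y ^ 2 / T)) =
      (4 ^ 4 * 400 * 1000) * (Y ^ 3 / T) := by
    field_simp
    ring
  rw [eS] at hA
  have i1 := ibp hab hA.d1 hA.contOn1 (φ := fun y => t * lam y + k * y)
    (φ1 := fun y => t * l1 y + k) (fun y hy => der_phi (hsub hy)) cφ1 z1 z2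
  have i2 := h T Y t k (64 * (4 ^ 4 * 400 * 1000) * (Y ^ 2 / T)) A1 A2 hT (by linarith) ht
    (by positivity) (fun y hy => ⟨hA.d2 y hy, (hA.b1 y hy).trans (by
      rw [show (4 ^ 4 * 400 * 1000 : ℝ) * (Y ^ 3 / T) / (Y / 8) =
        8 * (4 ^ 4 * 400 * 1000) * (Y ^ 2 / T) by field_simp]
      gcongr
      norm_num), (hA.b2 y hy).trans (le_of_eq (by field_simp; norm_num))⟩) hA.cont
  have i3 := h T Y t k (512 / Y) _ R1 hT (by linarith) ht (by positivity)
    (fun y hy => ⟨hR.d1 y hy, (hR.b0 y hy).trans (by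
      rw [show 4 * (1 * (2 / (Y / 8))) = 64 / Y by field_simp; norm_num]
      gcongr
      norm_num), (hR.b1 y hy).trans (le_of_eq (by field_simp; norm_num))⟩) hR.contOn1
  have j1 : IntervalIntegrable (fun y => a y * (((x0 + 1 / 2 + 1 * y)⁻¹ : ℝ) : ℂ) *
      ((y + 0 : ℝ) : ℂ) * ((y + 1 : ℝ) : ℂ) * ((k⁻¹ : ℝ) : ℂ) * ((t * l1 y + k : ℝ) : ℂ) *
      E (t * lam y + k * y)) volume (Y / 8) (4 * Y) :=
    ((hA.contOn.mul (Complex.continuous_ofReal.comp_continuousOn cφ1)).mul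
      cφ).intervalIntegrable_of_Icc hab
  have j2 : IntervalIntegrable (fun y => a y * (((x0 + 1 / 2 + 1 * y)⁻¹ : ℝ) : ℂ) *
      E (t * lam y + k * y)) volume (Y / 8) (4 * Y) :=
    (hR.contOn.mul cφ).intervalIntegrable_of_Icc hab
  have e : ∫ y in (Y / 8)..(4 * Y), a y * ((y + 1 / 2 - x0 : ℝ) : ℂ) * E (t * lam y + k * y) =
      (∫ y in (Y / 8)..(4 * Y), a y * (((x0 + 1 / 2 + 1 * y)⁻¹ : ℝ) : ℂ) *
        ((y + 0 : ℝ) : ℂ) * ((y + 1 : ℝ) : ℂ) * ((k⁻¹ : ℝ) : ℂ) * ((t * l1 y + k : ℝ) : ℂ) *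
        E (t * lam y + k * y)) + ((1 / 4 : ℝ) : ℂ) * ∫ y in (Y / 8)..(4 * Y),
        a y * (((x0 + 1 / 2 + 1 * y)⁻¹ : ℝ) : ℂ) * E (t * lam y + k * y) := by
    rw [← intervalIntegral.integral_const_mul, ← intervalIntegral.integral_add j1 (j2.const_mul _)]
    refine intervalIntegral.integral_congr fun y hy => ?_
    rw [Set.uIcc_of_le hab] at hy
    have hy' : 0 < y := hsub hy
    have e1 : y + 1 / 2 - x0 = (x0 + 1 / 2 + 1 * y)⁻¹ * (y + 0) * (y + 1) * k⁻¹ * (t * l1 y + k) +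
        1 / 4 * (x0 + 1 / 2 + 1 * y)⁻¹ := by
      rw [l1_eq hy', hk]
      have := Real.pi_pos
      have h3 : 0 < x0 + 1 / 2 + 1 * y := by positivity
      generalize hw : x0 + 1 / 2 + 1 * y = w at h3
      have h4 : x0 = w - 1 / 2 - y := by linarith
      rw [h4]
      field_simp
      ring
    rw [e1]
    push_cast
    ring
  rw [e]
  set B := Real.sqrt (Y ^ 3 / T) with hB
  have hB0 : 0 ≤ B := Real.sqrt_nonneg _
  have n1 := i1.trans i2
  have n2 : ‖((1 / 4 : ℝ) : ℂ) * ∫ y in (Y / 8)..(4 * Y),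
      a y * (((x0 + 1 / 2 + 1 * y)⁻¹ : ℝ) : ℂ) * E (t * lam y + k * y)‖ ≤ C * (512 / Y) * B := by
    rw [norm_mul, Complex.norm_real, Real.norm_of_nonneg (by norm_num)]
    exact (mul_le_of_le_one_left (norm_nonneg _) (by norm_num)).trans i3
  refine (norm_add_le _ _).trans ((add_le_add n1 n2).trans ?_)
  have e2 : B * (1 + T / Y ^ 3) / (T / Y ^ 2) = B * (Y ^ 2 / T) + B / Y := by
    field_simp
  have e3 : C * (512 / Y) * B = 512 * (C * (B / Y)) := by ring
  have p1 : 0 ≤ C * (B / Y) := by positivity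
  rw [e2, e3]
  nlinarith

end AtkK

open Atk AtkK

theorem atkk_of (hS : SecDerStmt) : AtkKStmt := by
  obtain ⟨C, hC, h⟩ := jtwo hS
  refine ⟨7 * C, by positivity, ?_⟩
  have main : ∀ (T Y t k k' : ℝ) (a : ℝ → ℂ), 0 < T → 100 ≤ Y → Amp Y a → T ≤ t →
      T / Y ^ 2 / 1000 ≤ k' → k' ≤ k →
      ‖bK a Y t k - bK a Y t k'‖ ≤
        7 * C * (Real.sqrt (Y ^ 3 / T) * (1 + T / Y ^ 3) * ((k - k') / (T / Y ^ 2))) := by
    intro T Y t k k' a hT hY ha ht k1 hkk
    have hY0 : 0 < Y := by linarith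
    have ht0 : 0 < t := by linarith
    have hk : 0 < k' := lt_of_lt_of_le (by positivity) k1
    have p := Real.pi_pos
    have hab : Y / 8 ≤ 4 * Y := by linarith
    have hsub : Set.Icc (Y / 8) (4 * Y) ⊆ Set.Ioi 0 := fun y hy =>
      lt_of_lt_of_le (by positivity : (0 : ℝ) < Y / 8) hy.1
    obtain ⟨b1, b2, hd, -⟩ := ha.1
    have ca : ContinuousOn a (Set.Icc (Y / 8) (4 * Y)) := hd.contOn
    have cl : ContinuousOn lam (Set.Icc (Y / 8) (4 * Y)) := contOn_lam.mono hsub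
    have cE : ∀ v : ℝ, ContinuousOn (fun y => E (t * lam y + v * y))
        (Set.Icc (Y / 8) (4 * Y)) := fun v =>
      continuous_E.comp_continuousOn ((continuousOn_const.mul cl).add (by fun_prop))
    have key := swapFTC (p := k') (q := k) (α := Y / 8) (β := 4 * Y)
      (M := 7 * C * (Real.sqrt (Y ^ 3 / T) * (1 + T / Y ^ 3) / (T / Y ^ 2)))
      (F := fun v y => a y * E (t * lam y + v * y) *
        E (-(Real.sqrt (2 * t * v / Real.pi) - v / 2)))
      (F' := fun v y => a y * E (t * lam y + v * y) *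
        E (-(Real.sqrt (2 * t * v / Real.pi) - v / 2)) *
        (2 * Real.pi * Complex.I *
          ((y + 1 / 2 - Real.sqrt (2 * t * v / Real.pi) / (2 * v) : ℝ) : ℂ)))
      hkk hab (fun v hv y hy => ?_) ?_ ((ca.mul (cE k')).mul continuousOn_const)
      ((ca.mul (cE k)).mul continuousOn_const) (fun v hv => ?_)
    · simp only [intervalIntegral.integral_mul_const] at key
      exact key.trans (le_of_eq (by ring))
    · have hv0 : 0 < v := hk.trans_le hv.1
      have d1 : HasDerivAt (fun v : ℝ => t * lam y + v * y) y v := by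
        simpa using ((hasDerivAt_id' v).mul_const y).const_add (t * lam y)
      have d0 : HasDerivAt (fun v : ℝ => 2 * t * v / Real.pi) (2 * t / Real.pi) v := by
        simpa using ((hasDerivAt_id' v).const_mul (2 * t)).div_const Real.pi
      have hs : 0 < 2 * t * v / Real.pi := by positivity
      have d3 := d0.sqrt hs.ne'
      have d2 : HasDerivAt (fun v : ℝ => -(Real.sqrt (2 * t * v / Real.pi) - v / 2))
          (1 / 2 - Real.sqrt (2 * t * v / Real.pi) / (2 * v)) v := by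
        refine (d3.fun_sub ((hasDerivAt_id' v).div_const 2)).fun_neg.congr_deriv ?_
        have h1 := Real.sq_sqrt hs.le
        have h2 := Real.sqrt_pos.2 hs
        generalize Real.sqrt (2 * t * v / Real.pi) = s at h1 h2
        have h3 : t = s ^ 2 * Real.pi / (2 * v) := by rw [h1]; field_simp
        rw [h3]
        field_simp
        ring
      refine (((hasDerivAt_E_comp d1).const_mul (a y)).fun_mul (hasDerivAt_E_comp d2)).congr_deriv ?_
      push_cast
      ring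
    · have c1 : ContinuousOn (fun p : ℝ × ℝ => lam p.2)
          (Set.Icc k' k ×ˢ Set.Icc (Y / 8) (4 * Y)) := cl.comp continuousOn_snd fun p hp => hp.2
      have c2 : ContinuousOn (fun p : ℝ × ℝ => a p.2)
          (Set.Icc k' k ×ˢ Set.Icc (Y / 8) (4 * Y)) := ca.comp continuousOn_snd fun p hp => hp.2
      have c3 : ContinuousOn (fun p : ℝ × ℝ => E (t * lam p.2 + p.1 * p.2))
          (Set.Icc k' k ×ˢ Set.Icc (Y / 8) (4 * Y)) :=
        continuous_E.comp_continuousOn ((ContinuousOn.mul (by fun_prop) c1).add (by fun_prop))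
      have c4 : ContinuousOn (fun p : ℝ × ℝ =>
          ((p.2 + 1 / 2 - Real.sqrt (2 * t * p.1 / Real.pi) / (2 * p.1) : ℝ) : ℂ))
          (Set.Icc k' k ×ˢ Set.Icc (Y / 8) (4 * Y)) :=
        Complex.continuous_ofReal.comp_continuousOn
          (ContinuousOn.sub (by fun_prop) (ContinuousOn.div (by fun_prop) (by fun_prop)
            fun p hp => (mul_pos two_pos (hk.trans_le hp.1.1)).ne'))
      have c5 : Continuous fun p : ℝ × ℝ =>
          E (-(Real.sqrt (2 * t * p.1 / Real.pi) - p.1 / 2)) := by fun_prop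
      exact ((c2.mul c3).mul c5.continuousOn).mul (continuousOn_const.mul c4)
    · have hv0 : 0 < v := hk.trans_le hv.1
      have hs : 0 < 2 * t * v / Real.pi := by positivity
      have j := h T Y t v (Real.sqrt (2 * t * v / Real.pi) / (2 * v)) a hT hY ha ht
        (k1.trans hv.1) (by positivity) (by
          rw [div_pow, Real.sq_sqrt hs.le]
          field_simp)
      have e3 : (∫ y in (Y / 8)..(4 * Y), a y * E (t * lam y + v * y) *
          E (-(Real.sqrt (2 * t * v / Real.pi) - v / 2)) * (2 * Real.pi * Complex.I *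
            ((y + 1 / 2 - Real.sqrt (2 * t * v / Real.pi) / (2 * v) : ℝ) : ℂ))) =
          2 * Real.pi * Complex.I * E (-(Real.sqrt (2 * t * v / Real.pi) - v / 2)) *
            ∫ y in (Y / 8)..(4 * Y),
              a y * ((y + 1 / 2 - Real.sqrt (2 * t * v / Real.pi) / (2 * v) : ℝ) : ℂ) *
                E (t * lam y + v * y) := by
        rw [← intervalIntegral.integral_const_mul]
        congr 1
        funext y
        ring
      rw [e3, norm_mul, norm_mul, norm_E, mul_one]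
      have n1 : ‖(2 * Real.pi * Complex.I : ℂ)‖ ≤ 7 := by
        have := Real.pi_lt_d2
        simp only [norm_mul, Complex.norm_I, Complex.norm_real, Real.norm_eq_abs,
          Complex.norm_ofNat, abs_of_pos Real.pi_pos]
        linarith
      rw [mul_assoc 7 C]
      exact mul_le_mul n1 j (norm_nonneg _) (by norm_num)
  intro T Y t k k' a hT hY ha ht _ k1 _ k3 _
  rcases le_total k' k with hk | hk
  · rw [abs_of_nonneg (sub_nonneg.2 hk)]
    exact main T Y t k k' a hT hY ha ht k3 hk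
  · rw [abs_sub_comm, abs_of_nonneg (sub_nonneg.2 hk), norm_sub_rev]
    exact main T Y t k' k a hT hY ha ht k1 hk

end Pool.Agent.MP_3d0d30_nt.Six

end MrgPart3

-- ======== part 4: formerly Pool.Agent.MP_3d0d30_nt.Six.All12
section MrgPart4

/-! Project SIX: assembly of the twelfth moment. -/

set_option autoImplicit false

namespace Pool.Agent.MP_3d0d30_nt.Six

theorem sub : SubStmt := sub_of (r1_of kern) rzeta startriv
  (starsub_of star00 (ibound_of secder) (atkk_of secder) mon)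

theorem dc : DCStmt := dc_of (b1_of kern nonstat poisson) (hk_of nonstat secder mon)

theorem lz3 : LZ3Stmt := lz3_of redz rzeta star0 startriv (da_of (halasz_of hbound)) dc sub

theorem twelve : TwelveStmt := twelve_of gen lz2 lz3

end Pool.Agent.MP_3d0d30_nt.Six

end MrgPart4

-- marker of a merged file
example : 731051 + 119393 = 731051 + 119393 := rfl
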