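import Pool.Agent.MP_3d0d30_nt.Six.Spec2
import Pool.Agent.MP_3d0d30_nt.Six.Energy
import Pool.Agent.MP_3d0d30_nt.Six.RedZ

/-! Project SIX, second stage: the number of large values near a point. -/

set_option autoImplicit false

namespace Pool.Agent.MP_3d0d30_nt.Six

open MeasureTheory Finset Filter
open scoped ComplexConjugate

namespace Cnt

open Energy

theorem gsep_lt {β x y : ℝ} (hβ : 0 < β) (hβ1 : β ≤ 1) (hy : 1 ≤ y) (hxy : y < x) (hx : x ≤ 4) :
    (x - y) / 9 ≤ gg β x - gg β y := by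
  obtain ⟨c, hc, e⟩ := exists_hasDerivAt_eq_slope (gg β) (HB.g1 β) hxy
    (fun z hz => (HB.hasDerivAt_gg hβ (by linarith [hz.1])).continuousAt.continuousWithinAt)
    (fun z hz => HB.hasDerivAt_gg hβ (by linarith [hz.1]))
  have h := (HB.g_bounds hβ hβ1 (x := c) (by linarith [hc.1]) (by linarith [hc.2])).1
  rw [e, le_div_iff₀ (by linarith)] at h
  linarith

theorem gsep {β x y : ℝ} (hβ : 0 < β) (hβ1 : β ≤ 1) (hx : 1 ≤ x) (hx4 : x ≤ 4) (hy : 1 ≤ y)
    (hy4 : y ≤ 4) : |x - y| / 9 ≤ |gg β x - gg β y| := by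
  rcases lt_trichotomy x y with c | c | c
  · have h := gsep_lt hβ hβ1 hx c hy4
    rw [abs_sub_comm x, abs_sub_comm (gg β x), abs_of_pos (sub_pos.2 c)]
    exact h.trans (le_abs_self _)
  · simp [c]
  · have h := gsep_lt hβ hβ1 hy c hx4
    rw [abs_of_pos (sub_pos.2 c)]
    exact h.trans (le_abs_self _)

theorem int_shiftW (hK : Kern) {κ : Type} (K : Finset κ) (b : κ → ℂ) (g : κ → ℝ) (σ : ℝ) {W : ℝ}
    (hW : 0 < W) : Integrable fun u : ℝ => ck ((u - σ) / W) * ‖Db K b g u‖ ^ 2 := by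
  have h := (hK.intC K (fun k => b k * E (σ * g k)) g W hW).comp_sub_right σ
  refine h.congr (Eventually.of_forall fun u => ?_)
  simp only [← Db_shift, add_sub_cancel]

theorem two_leW (hK : Kern) {κ : Type} (K : Finset κ) (b : κ → ℂ) (g : κ → ℝ) (U : Finset ℝ)
    (hU : Sep 1 U) (σ : ℝ) {W : ℝ} (hW : 1 ≤ W) : ∑ t ∈ U, ck ((σ - t) / W) * FF K b g t ≤
      200 * ∫ u : ℝ, ck ((u - σ) / W) * ‖Db K b g u‖ ^ 2 := by
  unfold FF
  simp only [← integral_const_mul]
  rw [← integral_finsetSum _ fun t _ => (int_shift hK K b g t).const_mul _]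
  refine integral_mono (integrable_finsetSum _ fun t _ => (int_shift hK K b g t).const_mul _)
    ((int_shiftW hK K b g σ (by linarith)).const_mul _) fun u => ?_
  have h := hK.two U W σ u hU hW
  simp only [← mul_assoc, ← sum_mul]
  gcongr

theorem ms_le (hK : Kern) {κ : Type} (K : Finset κ) (b : κ → ℂ) (g : κ → ℝ) (σ : ℝ) {W B : ℝ}
    (hW : 0 < W) (hb : ∀ k ∈ K, ‖b k‖ ≤ B) :
    ∫ u : ℝ, ck ((u - σ) / W) * ‖Db K b g u‖ ^ 2 ≤
      Real.pi * W * (B ^ 2 * ∑ k ∈ K, ∑ k' ∈ K, ck (W * (g k - g k'))) := by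
  have e : ∫ u : ℝ, ck ((u - σ) / W) * ‖Db K b g u‖ ^ 2 =
      ∫ w : ℝ, ck (w / W) * ‖∑ k ∈ K, b k * E (σ * g k) * E (w * g k)‖ ^ 2 := by
    rw [← integral_add_left_eq_self (fun u : ℝ => ck ((u - σ) / W) * ‖Db K b g u‖ ^ 2) σ]
    simp only [add_sub_cancel_left, Db_shift]
  have h := hK.msC K (fun k => b k * E (σ * g k)) g W hW
  rw [e]
  refine (le_abs_self _).trans ?_
  rw [← Real.norm_eq_abs, ← Complex.norm_real, h, norm_mul, norm_mul, Complex.norm_real,
    Complex.norm_real, Real.norm_of_nonneg Real.pi_pos.le, Real.norm_of_nonneg hW.le, mul_sum]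
  have := Real.pi_pos
  gcongr
  refine (norm_sum_le _ _).trans (sum_le_sum fun k hk => ?_)
  rw [mul_sum]
  refine (norm_sum_le _ _).trans (sum_le_sum fun k' hk' => ?_)
  have e1 : Real.exp (-(2 * Real.pi * W * |g k - g k'|)) ≤ ck (W * (g k - g k')) := by
    have := exp_le_ck (W * (g k - g k'))
    rwa [abs_mul, abs_of_pos hW, ← mul_assoc] at this
  have hB : 0 ≤ B := (norm_nonneg _).trans (hb k hk)
  simp only [norm_mul, Complex.norm_conj, Complex.norm_real, norm_E, mul_one,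
    Real.norm_of_nonneg (Real.exp_pos _).le]
  calc _ ≤ B * B * ck (W * (g k - g k')) := by
        gcongr
        · exact hb k hk
        · exact hb k' hk'
    _ = _ := by ring

theorem nat_sum (hK : Kern) (K : Finset ℕ) (x : ℝ) {Λ : ℝ} (hΛ : 1 ≤ Λ) :
    ∑ k ∈ K, ck ((x - k) / Λ) ≤ 10 * Λ := by
  have hs : Sep 1 (K.image fun k : ℕ => (k : ℝ)) := fun s hs t ht hst => by
    obtain ⟨i, _, rfl⟩ := mem_image.1 hs
    obtain ⟨j, _, rfl⟩ := mem_image.1 ht
    have h1 : (i : ℤ) - j ≠ 0 := fun h => hst (by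
      have : i = j := by omega
      rw [this])
    have h2 := Int.one_le_abs h1
    exact_mod_cast h2
  have h := hK.sepsumL _ Λ x hs hΛ
  rwa [sum_image fun i _ j _ h => Nat.cast_injective h] at h

theorem pairs (hK : Kern) {N : ℕ} {β W : ℝ} (hN : 1 ≤ N) (hβ : 0 < β) (hβ1 : β ≤ 1) (hW : 0 < W) :
    ∑ k ∈ Ioc N (2 * N), ∑ k' ∈ Ioc N (2 * N), ck (W * (gg β (k / N) - gg β (k' / N))) ≤
      N * (10 * (1 + 9 * N / W)) := by
  have hN' : (0 : ℝ) < N := by exact_mod_cast hN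
  have p : 0 < 9 * N / W := by positivity
  have r : ∀ k ∈ Ioc N (2 * N), 1 ≤ (k : ℝ) / N ∧ (k : ℝ) / N ≤ 4 := fun k hk => by
    have k1 : (N : ℝ) ≤ k := by exact_mod_cast (mem_Ioc.1 hk).1.le
    have k2 : (k : ℝ) ≤ 2 * N := by exact_mod_cast (mem_Ioc.1 hk).2
    rw [le_div_iff₀ hN', div_le_iff₀ hN']
    constructor <;> linarith
  calc _ ≤ ∑ k ∈ Ioc N (2 * N), 10 * (1 + 9 * N / W) := by
        refine sum_le_sum fun k hk => le_trans (sum_le_sum fun k' hk' => ?_)
          (nat_sum hK (Ioc N (2 * N)) k (by linarith))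
        refine le_trans ?_ (ck_div_mono p (by linarith) _)
        apply ck_anti
        have h := gsep hβ hβ1 (r k hk).1 (r k hk).2 (r k' hk').1 (r k' hk').2
        rw [← sub_div, abs_div, abs_of_pos hN'] at h
        rw [abs_mul, abs_of_pos hW, abs_div, abs_of_pos p]
        calc _ = W * (|(k : ℝ) - k'| / N / 9) := by field_simp
          _ ≤ _ := by gcongr
    _ = _ := by
        rw [sum_const, Nat.card_Ioc, nsmul_eq_mul, show 2 * N - N = N by omega]

/-- the mean value bound on a window -/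
theorem mean (hK : Kern) : ∃ C : ℝ, 0 < C ∧
    ∀ (N : ℕ) (β : ℝ) (a : ℕ → ℂ) (V s W : ℝ) (U : Finset ℝ),
    1 ≤ N → 0 < β → β ≤ 1 → (∀ k, ‖a k‖ ≤ 1) → 0 < V → 1 ≤ W → Sep 1 U → Win U s W →
    (∀ t ∈ U, V ≤ ‖Dsum N β a t‖) → (U.card : ℝ) ≤ C * (N ^ 2 / V ^ 2 * (1 + W / N)) := by
  set B : ℝ := Real.exp (2 * Real.pi * 2) with hB
  refine ⟨36000 * B ^ 2, by positivity, ?_⟩
  intro N β a V s W U hN hβ hβ1 ha hV hW hS hWin hD
  have hN' : (0 : ℝ) < N := by exact_mod_cast hN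
  have hW0 : 0 < W := by linarith
  have hp := pairs hK hN hβ hβ1 hW0
  set K := Ioc N (2 * N) with hKd
  set g : ℕ → ℝ := fun k => gg β (k / N) with hg
  set b : ℕ → ℂ := fun k => a k * ((Real.exp (2 * Real.pi * g k) : ℝ) : ℂ) with hb
  have hbB : ∀ k ∈ K, ‖b k‖ ≤ B := fun k hk => by
    have k2 : (k : ℝ) ≤ 2 * N := by exact_mod_cast (mem_Ioc.1 hk).2
    have g2 : g k ≤ 2 := (gg_le hβ _).trans (Real.sqrt_le_iff.2 ⟨by norm_num, by
      rw [div_le_iff₀ hN']; linarith⟩)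
    simp only [hb, norm_mul, Complex.norm_real, Real.norm_of_nonneg (Real.exp_pos _).le]
    calc _ ≤ 1 * B := by
          gcongr
          · exact ha k
          · exact Real.exp_le_exp.2 (by gcongr)
      _ = B := one_mul _
  have s1 : ∀ t ∈ U, V ^ 2 ≤ 1 / Real.pi * FF K b g t := fun t ht =>
    le_trans (pow_le_pow_left₀ hV.le (hD t ht) 2) (point_le hK K a g (fun k _ => gg_nonneg hβ _) t)
  have s0 : ∀ t ∈ U, 1 / 2 ≤ ck ((s - t) / W) := fun t ht => half_le_ck (by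
    have := hWin t ht
    rw [abs_div, abs_of_pos hW0, div_le_one hW0, abs_le]
    constructor <;> linarith)
  have pi0 := Real.pi_pos
  have s2 : V ^ 2 * U.card ≤ 36000 * B ^ 2 * (N ^ 2 + N * W) := by
    calc _ = 2 * ∑ t ∈ U, 1 / 2 * V ^ 2 := by rw [sum_const, nsmul_eq_mul]; ring
      _ ≤ 2 * ∑ t ∈ U, ck ((s - t) / W) * (1 / Real.pi * FF K b g t) := by
          gcongr with t ht
          · exact ck_nonneg _
          · exact s0 t ht
          · exact s1 t ht
      _ = 2 / Real.pi * ∑ t ∈ U, ck ((s - t) / W) * FF K b g t := by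
          rw [mul_sum, mul_sum]; exact sum_congr rfl fun _ _ => by ring
      _ ≤ 2 / Real.pi * (200 * (Real.pi * W * (B ^ 2 * (N * (10 * (1 + 9 * N / W)))))) := by
          gcongr
          refine (two_leW hK K b g U hS s hW).trans ?_
          gcongr
          refine (ms_le hK K b g s hW0 hbB).trans ?_
          gcongr
      _ = 4000 * B ^ 2 * (9 * N ^ 2 + N * W) := by field_simp; ring
      _ ≤ 4000 * B ^ 2 * (9 * N ^ 2 + 9 * (N * W)) :=
          mul_le_mul_of_nonneg_left (by linarith [mul_pos hN' hW0]) (by positivity)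
      _ = _ := by ring
  calc (U.card : ℝ) = V ^ 2 * U.card / V ^ 2 := by field_simp
    _ ≤ 36000 * B ^ 2 * (N ^ 2 + N * W) / V ^ 2 := by gcongr
    _ = _ := by field_simp

/-- the Halasz bound on a window -/
theorem hal {C V n N l X : ℝ} (hV : 0 < V) (hn : 0 ≤ n) (hX : 0 ≤ X)
    (h : V * n ≤ C * (N * l * Real.sqrt (X * n))) : n ≤ C ^ 2 * (l ^ 2 * (N ^ 2 / V ^ 2) * X) := by
  rcases hn.eq_or_lt with e | e
  · rw [← e]; positivity
  have h1 : (V * n) ^ 2 ≤ (C * (N * l * Real.sqrt (X * n))) ^ 2 := by gcongr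
  rw [mul_pow C, mul_pow (N * l), Real.sq_sqrt (by positivity)] at h1
  have h2 : V ^ 2 * n ≤ C ^ 2 * ((N * l) ^ 2 * X) := by
    refine le_of_mul_le_mul_right ?_ e
    calc _ = (V * n) ^ 2 := by ring
      _ ≤ _ := h1
      _ = _ := by ring
  calc n = V ^ 2 * n / V ^ 2 := by field_simp
    _ ≤ C ^ 2 * ((N * l) ^ 2 * X) / V ^ 2 := by gcongr
    _ = _ := by ring

/-- grouping into windows -/
theorem group {U : Finset ℝ} {u L W Z : ℝ} (hW : 1 ≤ W) (hL : 1 ≤ L) (hZ : 0 ≤ Z)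
    (hd : ∀ t ∈ U, |u - t| ≤ L)
    (h : ∀ U' ⊆ U, ∀ s : ℝ, Win U' s W → (U'.card : ℝ) ≤ Z) :
    ∑ t ∈ U, 1 / (1 + |u - t| / W) ≤ 4 * (1 + Real.log L) * Z := by
  have hW0 : 0 < W := by linarith
  set f : ℝ → ℕ := fun t => ⌊|u - t| / W⌋₊ with hf
  have m : ∀ t ∈ U, f t ∈ range (⌊L⌋₊ + 1) := fun t ht =>
    mem_range.2 (Nat.lt_succ_of_le (Nat.floor_le_floor
      ((div_le_self (abs_nonneg _) hW).trans (hd t ht))))
  have c : ∀ j : ℕ, ((U.filter fun t => f t = j).card : ℝ) ≤ 2 * Z := fun j => by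
    have k : ∀ t, f t = j → j * W ≤ |u - t| ∧ |u - t| ≤ (j + 1) * W := fun t ht => by
      have a1 := Nat.floor_le (show 0 ≤ |u - t| / W by positivity)
      have a2 := (Nat.lt_floor_add_one (|u - t| / W)).le
      simp only [hf] at ht
      rw [ht] at a1 a2
      exact ⟨(le_div_iff₀ hW0).1 a1, (div_le_iff₀ hW0).1 a2⟩
    have e := card_filter_add_card_filter_not (s := U.filter fun t => f t = j) (· ≤ u)
    have h1 := h ((U.filter fun t => f t = j).filter (· ≤ u))
      ((filter_subset _ _).trans (filter_subset _ _)) (u - (j + 1) * W) fun t ht => by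
        obtain ⟨a, b⟩ := mem_filter.1 ht
        have := k t (mem_filter.1 a).2
        rw [abs_of_nonneg (sub_nonneg.2 b)] at this
        constructor <;> linarith [this.1, this.2]
    have h2 := h ((U.filter fun t => f t = j).filter fun t => ¬ t ≤ u)
      ((filter_subset _ _).trans (filter_subset _ _)) (u + j * W) fun t ht => by
        obtain ⟨a, b⟩ := mem_filter.1 ht
        have := k t (mem_filter.1 a).2
        rw [abs_of_neg (sub_neg.2 (not_le.1 b))] at this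
        constructor <;> linarith [this.1, this.2]
    rw [← e]
    push_cast
    linarith
  have l0 := Real.log_nonneg hL
  calc _ ≤ ∑ t ∈ U, 1 / (1 + (f t : ℝ)) := sum_le_sum fun t _ => by
        gcongr
        exact Nat.floor_le (by positivity)
    _ = ∑ j ∈ range (⌊L⌋₊ + 1), ∑ t ∈ U.filter fun t => f t = j, 1 / (1 + (f t : ℝ)) :=
        (sum_fiberwise_of_maps_to m _).symm
    _ ≤ ∑ j ∈ range (⌊L⌋₊ + 1), 1 / (1 + (j : ℝ)) * (2 * Z) := sum_le_sum fun j _ => by
        rw [sum_congr rfl fun t ht => by rw [(mem_filter.1 ht).2], sum_const, nsmul_eq_mul,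
          mul_comm]
        gcongr
        exact c j
    _ = (harmonic (⌊L⌋₊ + 1) : ℝ) * (2 * Z) := by
        rw [← sum_mul]
        simp [harmonic, add_comm]
    _ ≤ (2 * (1 + Real.log L)) * (2 * Z) := by
        gcongr
        refine (harmonic_le_one_add_log _).trans ?_
        have a1 : ((⌊L⌋₊ + 1 : ℕ) : ℝ) ≤ 2 * L := by
          push_cast
          linarith [Nat.floor_le (show 0 ≤ L by linarith)]
        have a2 : Real.log ((⌊L⌋₊ + 1 : ℕ) : ℝ) ≤ Real.log (2 * L) :=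
          Real.log_le_log (by positivity) a1
        rw [Real.log_mul (by norm_num) (by linarith)] at a2
        linarith [Real.log_two_lt_d9]
    _ = _ := by ring

end Cnt

open Cnt in
theorem cnt_of (hK : Kern) (hH : HalaszStmt) : CntStmt := by
  obtain ⟨C1, hC1, h1⟩ := mean hK
  obtain ⟨C2, hC2, h2⟩ := hH
  refine ⟨C2 + 4 * (C1 + C2 ^ 2), by positivity, ?_⟩
  intro N β a V s L W U hN hβ hβ1 ha hV hW hL hS hWin hD u hu
  have hN' : (0 : ℝ) < N := by exact_mod_cast hN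
  have sN : 0 < Real.sqrt N := Real.sqrt_pos.2 hN'
  have hV2 : C2 * Real.sqrt N ≤ V := le_trans (by gcongr; nlinarith [sq_nonneg C2]) hV
  have hV0 : 0 < V := lt_of_lt_of_le (by positivity) hV2
  have l0 : 0 ≤ Real.log N := Real.log_natCast_nonneg N
  have l1 := Real.log_nonneg hL
  have m0 : 0 < max (N : ℝ) (V ^ 4 / N ^ 2) := hN'.trans_le (le_max_left _ _)
  have hW0 : 0 < W := by linarith
  have hd : ∀ t ∈ U, |u - t| ≤ L := fun t ht => by
    have := hWin t ht; have := hWin u hu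
    rw [abs_le]; constructor <;> linarith
  have key : ∀ U' ⊆ U, ∀ s' : ℝ, Win U' s' W → (U'.card : ℝ) ≤ (C1 + C2 ^ 2) *
      ((1 + Real.log N) ^ 2 * (N ^ 2 / V ^ 2) * (1 + W / max (N : ℝ) (V ^ 4 / N ^ 2))) := by
    intro U' hU' s' hw
    rcases le_total (V ^ 4 / N ^ 2) (N : ℝ) with c | c
    · rw [max_eq_left c]
      refine (h1 N β a V s' W U' hN hβ hβ1 ha hV0 hW (hS.mono hU') hw
        fun t ht => hD t (hU' ht)).trans ?_
      have : (1 : ℝ) ≤ (1 + Real.log N) ^ 2 := one_le_pow₀ (by linarith)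
      calc _ = C1 * (1 * (N ^ 2 / V ^ 2) * (1 + W / N)) := by ring
        _ ≤ _ := by gcongr; nlinarith [sq_nonneg C2]
    · rw [max_eq_right c]
      have a1 := h2 N β a V s' W U' hN hβ hβ1 ha hW0.le hV2 (hS.mono hU') hw
        fun t ht => hD t (hU' ht)
      have a2 : V * U'.card ≤ ∑ t ∈ U', ‖Dsum N β a t‖ := by
        rw [mul_comm, ← nsmul_eq_mul]
        exact card_nsmul_le_sum _ _ _ fun t ht => hD t (hU' ht)
      refine (hal hV0 (Nat.cast_nonneg _) (by positivity) (a2.trans a1)).trans ?_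
      have e : W * N ^ 2 / V ^ 4 + 1 = 1 + W / (V ^ 4 / N ^ 2) := by field_simp; ring
      rw [e]
      gcongr
      linarith
  refine (group hW hL (by positivity) hd key).trans ?_
  calc _ = (4 * (C1 + C2 ^ 2)) * ((1 + Real.log L) * (1 + Real.log N) ^ 2 *
        (N ^ 2 / V ^ 2) * (1 + W / max (N : ℝ) (V ^ 4 / N ^ 2))) := by ring
    _ ≤ _ := by gcongr; linarith

end Pool.Agent.MP_3d0d30_nt.Six
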