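import Pool.Agent.MP_3d0d30_nt.Six.Spec2
import Pool.Agent.MP_3d0d30_nt.Six.DAB

/-! Project SIX, second stage, module DB2: exponent bookkeeping for the second large values
estimate. -/

set_option autoImplicit false

namespace Pool.Agent.MP_3d0d30_nt.Six

open Finset Filter Real

namespace DB2

/-- the choice of the cell length -/
lemma exists_lam {k l y w m : ℝ} (hk : 0 ≤ k) (hm : m = (32 * w - 3 * l) / 9) (hy : 2 * w ≤ y)
    (h1 : 3 / 26 * l ≤ w) (h2 : w ≤ 14 / 100 * l) :
    ∃ p : ℝ, 5 * k + l - 4 * y + m ≤ p ∧ 2 * k + m ≤ p ∧ p ≤ 4 * w / 3 + 5 * k ∧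
      (p + (m / 2 - l / 2 + 2 * y + 2 * k) ≤ 4 * w / 3 + 7 * k ∨
        p + (m / 2 + l / 2 - 2 * y + 2 * k) ≤ 4 * w / 3 + 7 * k) := by
  rcases le_total (5 * k + l - 4 * y + m) (2 * k + m) with h | h
  · exact ⟨2 * k + m, h, le_rfl, by linarith, Or.inr (by linarith)⟩
  · exact ⟨5 * k + l - 4 * y + m, le_rfl, h, by linarith, Or.inl (by linarith)⟩

lemma add_le_exp {a b c k : ℝ} (ha : a ≤ c) (hb : b ≤ c) (hk : 2 ≤ exp k) :
    exp a + exp b ≤ exp (k + c) := by
  rw [exp_add]
  have h1 := exp_le_exp.mpr ha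
  have h2 := exp_le_exp.mpr hb
  have h3 := exp_pos c
  nlinarith

/-- the size of the last factor of the estimate -/
lemma xi_bound {k l n m b p c : ℝ} (hk : 2 ≤ exp k) (hp : p ≤ c)
    (h : p + ((n + m) / 2 - b - n) ≤ c ∨ p + ((n + m) / 2 - b - (l - n)) ≤ c) :
    (exp p * (1 + √(exp n * exp m) / (exp b * max (exp n) (exp ((n + l) / 4) ^ 4 / exp n ^ 2)))) ^
      (1 / 3 : ℝ) ≤ exp ((k + c) / 3) := by
  have e1 : exp ((n + l) / 4) ^ 4 / exp n ^ 2 = exp (l - n) := by
    rw [← exp_nat_mul, ← exp_nat_mul, ← exp_sub]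
    congr 1
    push_cast
    ring
  have e2 : √(exp n * exp m) = exp ((n + m) / 2) := by rw [← exp_add, exp_half]
  rw [e1, e2]
  have h1 : exp p * (1 + exp ((n + m) / 2) / (exp b * max (exp n) (exp (l - n)))) ≤
      exp (k + c) := by
    rcases h with h | h
    · calc _ ≤ exp p * (1 + exp ((n + m) / 2) / (exp b * exp n)) := by
            gcongr
            exact le_max_left _ _
        _ = exp p + exp (p + ((n + m) / 2 - b - n)) := by
            rw [mul_add, mul_one, ← exp_add, ← exp_sub, ← exp_add]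
            congr 2
            ring
        _ ≤ _ := add_le_exp hp h hk
    · calc _ ≤ exp p * (1 + exp ((n + m) / 2) / (exp b * exp (l - n))) := by
            gcongr
            exact le_max_right _ _
        _ = exp p + exp (p + ((n + m) / 2 - b - (l - n))) := by
            rw [mul_add, mul_one, ← exp_add, ← exp_sub, ← exp_add]
            congr 2
            ring
        _ ≤ _ := add_le_exp hp h hk
  calc _ ≤ exp (k + c) ^ (1 / 3 : ℝ) := by gcongr
    _ = _ := by
      rw [← exp_mul]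
      congr 1
      ring

end DB2

open DAB DB2

theorem db2_of (hL : LV2Stmt) : DB2Stmt := by
  obtain ⟨C, hC0, hC⟩ := hL
  intro ε hε
  have hδ : 0 < min ε 1 / 100 := by positivity
  have hδ1 : min ε 1 / 100 ≤ ε / 100 := by gcongr; exact min_le_left _ _
  have hδ2 : min ε 1 / 100 ≤ 1 / 100 := by gcongr; exact min_le_right _ _
  filter_upwards [ev_const C hδ, ev_const 512 hδ, ev_log hδ, eventually_gt_atTop 1]
    with T e1 e2 e3 hT1 v Y hv1 hv2 hY1 hY2 N β a U hN1 hN2 hβ0 _ hβl hβ ha hS hW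
  have hT : 0 < T := by linarith
  have hY : 0 < Y := lt_of_lt_of_le (rpow_pos_of_pos hT _) hY1
  obtain ⟨hN, n1, n2, eV, eL⟩ := setup hT hY e2 hN1 hN2
  have hN0 : (0 : ℝ) < N := by exact_mod_cast hN
  have hl : 0 < log T := log_pos hT1
  have y1 : 2 * (v * log T) ≤ log Y := by
    have := log_le_log (rpow_pos_of_pos hT _) hY1
    rw [log_rpow hT] at this
    linarith
  have y2 : 3 * log Y ≤ log T := by
    have := log_le_log (by positivity) hY2
    rw [log_pow] at this
    exact_mod_cast this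
  have eZ : T ^ (4 / 3 - 44 / 9 * v + ε) =
      exp (4 / 3 * log T - 44 / 9 * (v * log T) + ε * log T) := by
    rw [rpow_def_of_pos hT]
    congr 1
    ring
  have k1 : min ε 1 / 100 * log T ≤ ε * log T / 100 := by
    calc _ ≤ ε / 100 * log T := by gcongr
      _ = _ := by ring
  have k2 : min ε 1 / 100 * log T ≤ 1 / 100 * log T := by gcongr
  have k0 : 0 ≤ min ε 1 / 100 * log T := by positivity
  have v1 : 3 / 26 * log T ≤ v * log T := by gcongr
  have v2 : v * log T ≤ 14 / 100 * log T := by gcongr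
  have h2k : log 2 ≤ min ε 1 / 100 * log T := by
    rw [log_le_iff_le_exp (by norm_num)]
    linarith
  have b1 : log N - log T - min ε 1 / 100 * log T ≤ 2 * log β := by
    have := log_le_log (by positivity) hβl
    rw [log_pow, log_div hN0.ne' (by positivity), log_mul (by norm_num) hT.ne'] at this
    push_cast at this
    linarith
  have b2 : 2 * log β ≤ min ε 1 / 100 * log T + log N - log T := by
    have := log_le_log (by positivity) hβ
    rw [log_pow, log_div (by positivity) hT.ne', log_mul (by norm_num) hN0.ne'] at this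
    push_cast at this
    linarith
  rw [eZ, eV]
  rw [eL] at hW
  have eN : (N : ℝ) = exp (log N) := (exp_log hN0).symm
  have eβ : β = exp (log β) := (exp_log hβ0).symm
  clear h2k hβl hβ hN1 hN2 hY1 hY2 eZ eV eL hδ hδ1 hδ2
  generalize min ε 1 / 100 * log T = k at *
  generalize v * log T = w at *
  generalize ε * log T = e at *
  generalize log T = l at *
  generalize log Y = y at *
  generalize log (N : ℝ) = n at *
  generalize log β = b at *
  obtain ⟨m, hm⟩ : ∃ m : ℝ, m = (32 * w - 3 * l) / 9 := ⟨_, rfl⟩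
  obtain ⟨p, p1, p2, p3, p4⟩ := exists_lam k0 hm y1 v1 v2
  refine (split U _ (exp_pos ((n + l) / 4)).le).trans (add_le_add le_rfl ?_)
  set U1 := U.filter (fun t => exp ((n + l) / 4) ≤ ‖Dsum N β a t‖) with hU1
  have hsub : U1 ⊆ U := filter_subset _ _
  have hn0 : 0 ≤ n := by linarith
  have hm0 : 0 ≤ m := by linarith
  have hβ2 : β ^ 2 = exp (2 * b) := by
    rw [eβ, ← exp_nat_mul]
    norm_num
  have hβ3 : β ≤ 1 / 10 := by
    have h1 : exp (2 * b) * exp k ≤ 1 := by
      rw [← exp_add]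
      exact exp_le_one_iff.mpr (by linarith)
    have h2 : β ^ 2 * 512 ≤ exp (2 * b) * exp k := by
      rw [hβ2]
      gcongr
    nlinarith
  have eNM : (N : ℝ) * exp m = exp (n + m) := by rw [exp_add, ← eN]
  have hCV : C * √(N : ℝ) ≤ exp ((n + l) / 4) := by
    rw [eN, ← exp_half]
    calc C * exp (n / 2) ≤ exp k * exp (n / 2) := by gcongr
      _ = exp (k + n / 2) := (exp_add _ _).symm
      _ ≤ _ := exp_le_exp.mpr (by linarith)
  have hΛ1 : 400 * (β ^ 2 * (3 * N * exp m) + 1) ≤ exp p := by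
    have h1 : β ^ 2 * (N * exp m) ≤ exp (p - 2 * k) := by
      rw [hβ2, eNM, ← exp_add]
      exact exp_le_exp.mpr (by linarith)
    have h2 : 1 ≤ exp (p - 2 * k) := one_le_exp (by linarith)
    have h3 : exp p = exp k * exp k * exp (p - 2 * k) := by
      rw [← exp_add, ← exp_add]
      congr 1
      ring
    have h4 : 1600 ≤ exp k * exp k := by nlinarith
    calc _ = 1200 * (β ^ 2 * (N * exp m)) + 400 := by ring
      _ ≤ 1600 * exp (p - 2 * k) := by linarith
      _ ≤ _ := by
        rw [h3]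
        gcongr
  have hΛ2 : exp m ≤ exp p := exp_le_exp.mpr (by linarith)
  have hΛ3 : exp p ≤ N * exp m := by
    rw [eNM]
    exact exp_le_exp.mpr (by linarith)
  have hΛ4 : β * exp p ≤ 1 := by
    rw [eβ, ← exp_add]
    exact exp_le_one_iff.mpr (by linarith)
  have hlog : 0 < 1 + log (N * exp m) := by
    rw [eNM, log_exp]
    linarith
  have h1 := windows U1 (fun t => ‖Dsum N β a t‖) (W := N * exp m) (by positivity) (by positivity)
    (by positivity) (win_mono hW hsub) fun s U' hU' hw =>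
      hC N β s (exp m) (exp ((n + l) / 4)) (exp p) a U' hN (one_le_exp hm0) hβ0 hβ3 ha hCV
        hΛ1 hΛ2 hΛ3 hΛ4 (sep_mono hS (hU'.trans hsub)) hw
        (fun t ht => (mem_filter.mp (hU' ht)).2)
  refine h1.trans ?_
  have h2 : 7 * exp ((l + y) / 2) / (N * exp m) + 1 ≤
      exp (k + (2 * k + 5 * y / 2 - l / 2 - m)) := by
    refine le_trans ?_ (exp_add_one_le (by linarith) (by linarith))
    gcongr
    calc _ ≤ exp k * exp ((l + y) / 2) / (N * exp m) := by gcongr; linarith
      _ = exp (k + (l + y) / 2 - (n + m)) := by rw [exp_sub, exp_add, eNM]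
      _ ≤ _ := exp_le_exp.mpr (by linarith)
  have h3 : (1 + log (N * exp m)) ^ 5 ≤ exp (5 * k) := by
    have h1 : 1 + log (N * exp m) ≤ exp k := by
      rw [eNM, log_exp]
      linarith
    calc _ ≤ exp k ^ 5 := by gcongr
      _ = _ := by
        rw [← exp_nat_mul]
        norm_num
  have h4 := xi_bound (k := k) (l := l) (n := n) (m := m) (b := b) (p := p)
    (c := 4 * w / 3 + 7 * k) (by linarith) (by linarith)
    (p4.imp (fun h => by linarith) (fun h => by linarith))
  rw [← eN, ← eβ] at h4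
  obtain ⟨z, hz⟩ : ∃ z : ℝ, z = 4 / 3 * l - 44 / 9 * w + e - 10 * k - (5 * y / 2 - l / 2 - m) :=
    ⟨_, rfl⟩
  have t1 : (N : ℝ) ^ 2 / exp ((n + l) / 4) ≤ exp z := by
    rw [eN, ← exp_nat_mul, ← exp_sub]
    exact exp_le_exp.mpr (by push_cast; linarith)
  have t2 : (N : ℝ) ^ (11 / 4 : ℝ) * exp m ^ (3 / 4 : ℝ) / exp ((n + l) / 4) ^ 2 ≤ exp z := by
    rw [eN, ← exp_nat_mul, ← exp_mul, ← exp_mul, ← exp_add, ← exp_sub]
    exact exp_le_exp.mpr (by push_cast; linarith)
  have t3 : (N : ℝ) ^ (10 / 3 : ℝ) * exp m * (exp p * (1 + √(N * exp m) /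
      (β * max (N : ℝ) (exp ((n + l) / 4) ^ 4 / N ^ 2)))) ^ (1 / 3 : ℝ) /
      exp ((n + l) / 4) ^ 3 ≤ exp z := by
    calc _ ≤ (N : ℝ) ^ (10 / 3 : ℝ) * exp m * exp ((k + (4 * w / 3 + 7 * k)) / 3) /
          exp ((n + l) / 4) ^ 3 := by gcongr
      _ ≤ _ := by
        rw [eN, ← exp_nat_mul, ← exp_mul, ← exp_add, ← exp_add, ← exp_sub]
        exact exp_le_exp.mpr (by push_cast; linarith)
  have t4 : (N : ℝ) ^ 2 / exp ((n + l) / 4) +
      (N : ℝ) ^ (11 / 4 : ℝ) * exp m ^ (3 / 4 : ℝ) / exp ((n + l) / 4) ^ 2 +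
      (N : ℝ) ^ (10 / 3 : ℝ) * exp m * (exp p * (1 + √(N * exp m) /
      (β * max (N : ℝ) (exp ((n + l) / 4) ^ 4 / N ^ 2)))) ^ (1 / 3 : ℝ) /
      exp ((n + l) / 4) ^ 3 ≤ exp k * exp z := by
    have := exp_pos z
    nlinarith
  calc _ ≤ exp (k + (2 * k + 5 * y / 2 - l / 2 - m)) *
        (exp k * (exp (5 * k) * (exp k * exp z))) := by gcongr
    _ = _ := by
      rw [← exp_add, ← exp_add, ← exp_add, ← exp_add]
      congr 1
      linarith

end Pool.Agent.MP_3d0d30_nt.Six
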