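import Pool.Agent.MP_3d0d30_nt.Six.Spec2
import Pool.Agent.MP_3d0d30_nt.Six.Energy

/-! Project SIX, second stage: the weighted energy lemma. -/

set_option autoImplicit false

namespace Pool.Agent.MP_3d0d30_nt.Six

open MeasureTheory Finset Filter
open scoped ComplexConjugate

namespace EnK

open Energy

theorem int_shiftL (hK : Kern) {κ : Type} (K : Finset κ) (b : κ → ℂ) (g : κ → ℝ) {Λ : ℝ}
    (hΛ : 0 < Λ) (σ : ℝ) : Integrable fun u : ℝ => ck ((u - σ) / Λ) * ‖Db K b g u‖ ^ 2 := by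
  have h := (hK.intC K (fun k => b k * E (σ * g k)) g Λ hΛ).comp_sub_right σ
  refine h.congr (Eventually.of_forall fun u => ?_)
  simp only [← Db_shift, add_sub_cancel]

/-- the local mean at scale `Λ` -/
noncomputable def FL {κ : Type} (K : Finset κ) (b : κ → ℂ) (g : κ → ℝ) (Λ σ : ℝ) : ℝ :=
  ∫ u : ℝ, ck ((u - σ) / Λ) * ‖Db K b g u‖ ^ 2

theorem FL_ms (hK : Kern) {κ : Type} (K : Finset κ) (b : κ → ℂ) (g : κ → ℝ) {Λ : ℝ}
    (hΛ : 0 < Λ) (σ : ℝ) :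
    (FL K b g Λ σ : ℂ) = Real.pi * Λ * ∑ k ∈ K, ∑ k' ∈ K, b k * conj (b k') *
      ((Real.exp (-(2 * Real.pi * Λ * |g k - g k'|)) : ℝ) : ℂ) * E (σ * (g k - g k')) := by
  have h := hK.msC K (fun k => b k * E (σ * g k)) g Λ hΛ
  have e : FL K b g Λ σ
      = ∫ w : ℝ, ck (w / Λ) * ‖∑ k ∈ K, b k * E (σ * g k) * E (w * g k)‖ ^ 2 := by
    unfold FL
    rw [← integral_add_left_eq_self (fun u : ℝ => ck ((u - σ) / Λ) * ‖Db K b g u‖ ^ 2) σ]
    simp only [add_sub_cancel_left, Db_shift]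
  rw [e, h]
  congr 1
  refine sum_congr rfl fun k _ => sum_congr rfl fun k' _ => ?_
  rw [mul_sub, E_sub, map_mul]
  ring

theorem two_leL (hK : Kern) {κ : Type} (K : Finset κ) (b : κ → ℂ) (g : κ → ℝ) (U : Finset ℝ)
    (hU : Sep 1 U) {Λ : ℝ} (hΛ : 1 ≤ Λ) (σ : ℝ) :
    ∑ t ∈ U, ck ((σ - t) / Λ) * FF K b g t ≤ 200 * FL K b g Λ σ := by
  unfold FF FL
  simp only [← integral_const_mul]
  rw [← integral_finsetSum _ fun t _ => (int_shift hK K b g t).const_mul _]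
  refine integral_mono (integrable_finsetSum _ fun t _ => (int_shift hK K b g t).const_mul _)
    ((int_shiftL hK K b g (by linarith) σ).const_mul _) fun u => ?_
  have h := hK.two U Λ σ u hU hΛ
  simp only [← mul_assoc, ← sum_mul]
  gcongr

/-- the weighted sum over pairs -/
noncomputable def QQ (U : Finset ℝ) (κ : ℝ → ℝ) (z : ℝ) : ℂ :=
  ∑ p ∈ U ×ˢ U, (κ (p.1 - p.2) : ℂ) * E ((p.1 - p.2) * z)

theorem cube_leK (hK : Kern) {ι : Type} (K : Finset ι) (b : ι → ℂ) (g : ι → ℝ) (U : Finset ℝ)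
    (κ : ℝ → ℝ) {Λ B : ℝ} (hΛ : 0 < Λ) (hb : ∀ k ∈ K, ‖b k‖ ≤ B) :
    ∑ t1 ∈ U, ∑ t2 ∈ U, ∑ t3 ∈ U, κ (t1 - t3) * FL K b g Λ (t1 + t2 - t3) ≤
      Real.pi * Λ * B ^ 2 * ∑ k ∈ K, ∑ k' ∈ K, Real.exp (-(2 * Real.pi * Λ * |g k - g k'|)) *
        (‖QQ U κ (g k - g k')‖ * ‖RR U (g k - g k')‖) := by
  have h1 : ∀ z : ℝ, ∑ t1 ∈ U, ∑ t2 ∈ U, ∑ t3 ∈ U, (κ (t1 - t3) : ℂ) * E ((t1 + t2 - t3) * z) =
      QQ U κ z * RR U z := fun z => by
    unfold RR QQ
    rw [sum_product, sum_mul]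
    refine sum_congr rfl fun t1 _ => ?_
    rw [sum_mul_sum, sum_comm]
    refine sum_congr rfl fun t3 _ => sum_congr rfl fun t2 _ => ?_
    rw [mul_assoc, ← E_add]; congr 2; ring
  have h2 : ((∑ t1 ∈ U, ∑ t2 ∈ U, ∑ t3 ∈ U, κ (t1 - t3) * FL K b g Λ (t1 + t2 - t3) : ℝ) : ℂ) =
      Real.pi * Λ * ∑ k ∈ K, ∑ k' ∈ K, b k * conj (b k') *
      ((Real.exp (-(2 * Real.pi * Λ * |g k - g k'|)) : ℝ) : ℂ) *
        (QQ U κ (g k - g k') * RR U (g k - g k')) := by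
    simp only [Complex.ofReal_sum, Complex.ofReal_mul, FL_ms hK K b g hΛ, ← h1]
    simp only [mul_sum]
    simp only [sum_comm (s := U) (t := K)]
    refine sum_congr rfl fun _ _ => sum_congr rfl fun _ _ => sum_congr rfl fun _ _ =>
      sum_congr rfl fun _ _ => sum_congr rfl fun _ _ => by ring
  refine (le_abs_self _).trans ?_
  rw [← Real.norm_eq_abs, ← Complex.norm_real, h2, norm_mul, norm_mul, Complex.norm_real,
    Complex.norm_real, Real.norm_of_nonneg Real.pi_pos.le, Real.norm_of_nonneg hΛ.le,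
    mul_assoc (Real.pi * Λ), mul_sum]
  have := Real.pi_pos
  gcongr
  refine (norm_sum_le _ _).trans (sum_le_sum fun k hk => ?_)
  rw [mul_sum]
  refine (norm_sum_le _ _).trans (sum_le_sum fun k' hk' => ?_)
  have hB : 0 ≤ B := (norm_nonneg _).trans (hb k hk)
  simp only [norm_mul, Complex.norm_conj, Complex.norm_real,
    Real.norm_of_nonneg (Real.exp_pos _).le]
  calc _ ≤ B * B * Real.exp (-(2 * Real.pi * Λ * |g k - g k'|)) *
        (‖QQ U κ (g k - g k')‖ * ‖RR U (g k - g k')‖) := by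
        gcongr
        · exact hb k hk
        · exact hb k' hk'
    _ = _ := by ring

theorem amgm {x y η : ℝ} (hη : 0 < η) : x * y ≤ η / 2 * x ^ 2 + 1 / (2 * η) * y ^ 2 := by
  have h : 0 ≤ (η * x - y) ^ 2 / (2 * η) := by positivity
  have e : (η * x - y) ^ 2 / (2 * η) = η / 2 * x ^ 2 + 1 / (2 * η) * y ^ 2 - x * y := by
    field_simp; ring
  linarith

end EnK

open Energy EnK in
theorem enk_of (hK : Kern) (hO : OffDStmt) : EnKStmt := by
  classical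
  obtain ⟨C, hC, hO⟩ := hO
  set B : ℝ := Real.exp (2 * Real.pi * 2) with hB
  have hB0 : 0 < B := Real.exp_pos _
  refine ⟨400 * B ^ 2 + (200 * B ^ 2 * C) ^ 2, by positivity, ?_⟩
  intro N β a V s L Λ U κ hN hβ hβ1 ha hV hΛ hΛL hLN hκ hS hW hD
  have hN' : (0 : ℝ) < N := by exact_mod_cast hN
  have hΛ0 : 0 < Λ := by linarith
  have hl : 0 < 1 + Real.log N := by
    have := Real.log_nonneg (show (1 : ℝ) ≤ N by exact_mod_cast hN)
    linarith
  set l := 1 + Real.log N with hld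
  set K := Ioc N (2 * N) with hKd
  set g : ℕ → ℝ := fun k => gg β (k / N) with hg
  set b : ℕ → ℂ := fun k => a k * ((Real.exp (2 * Real.pi * g k) : ℝ) : ℂ) with hb
  have hbB : ∀ k ∈ K, ‖b k‖ ≤ B := fun k hk => by
    have k2 : (k : ℝ) ≤ 2 * N := by exact_mod_cast (mem_Ioc.1 hk).2
    have g2 : g k ≤ 2 := (gg_le hβ _).trans (Real.sqrt_le_iff.2 ⟨by norm_num, by
      rw [div_le_iff₀ hN']; linarith⟩)
    simp only [hb, norm_mul, Complex.norm_real, Real.norm_of_nonneg (Real.exp_pos _).le]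
    calc _ ≤ 1 * B := by
          gcongr
          · exact ha k
          · exact Real.exp_le_exp.2 (by gcongr)
      _ = B := one_mul _
  have s1 : ∀ t ∈ U, V ^ 2 ≤ 1 / Real.pi * FF K b g t := fun t ht =>
    le_trans (pow_le_pow_left₀ hV.le (hD t ht) 2) (point_le hK K a g (fun k _ => gg_nonneg hβ _) t)
  have s2 : ∀ σ : ℝ, V ^ 2 * ∑ t ∈ U, ck ((σ - t) / Λ) ≤ 200 / Real.pi * FL K b g Λ σ :=
    fun σ => by
    calc _ = ∑ t ∈ U, ck ((σ - t) / Λ) * V ^ 2 := by rw [mul_comm, sum_mul]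
      _ ≤ ∑ t ∈ U, ck ((σ - t) / Λ) * (1 / Real.pi * FF K b g t) :=
          sum_le_sum fun t ht => mul_le_mul_of_nonneg_left (s1 t ht) (ck_nonneg _)
      _ = 1 / Real.pi * ∑ t ∈ U, ck ((σ - t) / Λ) * FF K b g t := by
          rw [mul_sum]; exact sum_congr rfl fun _ _ => by ring
      _ ≤ 1 / Real.pi * (200 * FL K b g Λ σ) := by gcongr; exact two_leL hK K b g U hS hΛ σ
      _ = _ := by ring
  set ex : ℕ → ℕ → ℝ := fun k k' => Real.exp (-(2 * Real.pi * Λ * |g k - g k'|)) with hex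
  have s3 : V ^ 2 * EK U Λ κ ≤ 200 * Λ * B ^ 2 * ∑ k ∈ K, ∑ k' ∈ K, ex k k' *
      (‖QQ U κ (g k - g k')‖ * ‖RR U (g k - g k')‖) := by
    calc _ = ∑ t1 ∈ U, ∑ t2 ∈ U, ∑ t3 ∈ U,
          κ (t1 - t3) * (V ^ 2 * ∑ t ∈ U, ck ((t1 + t2 - t3 - t) / Λ)) := by
          simp only [EK, mul_sum]
          exact sum_congr rfl fun _ _ => sum_congr rfl fun _ _ => sum_congr rfl fun _ _ =>
            sum_congr rfl fun _ _ => by ring
      _ ≤ ∑ t1 ∈ U, ∑ t2 ∈ U, ∑ t3 ∈ U,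
          κ (t1 - t3) * (200 / Real.pi * FL K b g Λ (t1 + t2 - t3)) :=
          sum_le_sum fun _ _ => sum_le_sum fun _ _ => sum_le_sum fun _ _ =>
            mul_le_mul_of_nonneg_left (s2 _) (hκ _).1
      _ = 200 / Real.pi * ∑ t1 ∈ U, ∑ t2 ∈ U, ∑ t3 ∈ U,
          κ (t1 - t3) * FL K b g Λ (t1 + t2 - t3) := by
          simp only [mul_sum]
          exact sum_congr rfl fun _ _ => sum_congr rfl fun _ _ => sum_congr rfl fun _ _ => by ring
      _ ≤ 200 / Real.pi * (Real.pi * Λ * B ^ 2 * ∑ k ∈ K, ∑ k' ∈ K, ex k k' *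
          (‖QQ U κ (g k - g k')‖ * ‖RR U (g k - g k')‖)) := by
          gcongr; exact cube_leK hK K b g U κ hΛ0 hbB
      _ = _ := by have := Real.pi_pos; field_simp
  set Q0 := ∑ t1 ∈ U, ∑ t3 ∈ U, κ (t1 - t3) with hQ0
  have hQ00 : 0 ≤ Q0 := sum_nonneg fun _ _ => sum_nonneg fun _ _ => (hκ _).1
  have sQ : ∑ k ∈ K, ∑ k' ∈ K.erase k, ex k k' * ‖QQ U κ (g k - g k')‖ ^ 2
      ≤ C * (l * N ^ 2 / Λ * EK U Λ κ) := by
    refine (hO (U ×ˢ U) (fun p => (κ (p.1 - p.2) : ℂ)) (fun p => p.1 - p.2) N β (-L) L Λ hN hβ hβ1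
      hΛ hΛL hLN fun p hp => ?_).trans ?_
    · have h1 := hW _ (mem_product.1 hp).1
      have h2 := hW _ (mem_product.1 hp).2
      constructor <;> linarith
    · gcongr
      unfold EK
      rw [sum_product]
      refine sum_le_sum fun t1 _ => ?_
      rw [sum_comm (s := U) (t := U) (f := fun t2 t3 => ∑ t4 ∈ U,
        ck ((t1 + t2 - t3 - t4) / Λ) * κ (t1 - t3))]
      refine sum_le_sum fun t3 _ => ?_
      rw [sum_product, sum_comm]
      refine sum_le_sum fun t2 _ => sum_le_sum fun t4 _ => ?_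
      simp only [Complex.norm_real, Real.norm_of_nonneg (hκ _).1]
      rw [show t1 - t3 - (t4 - t2) = t1 + t2 - t3 - t4 by ring]
      have h1 := mul_nonneg (hκ (t1 - t3)).1 (ck_nonneg ((t1 + t2 - t3 - t4) / Λ))
      nlinarith [(hκ (t4 - t2)).2]
  have sR : ∑ k ∈ K, ∑ k' ∈ K.erase k, ex k k' * ‖RR U (g k - g k')‖ ^ 2
      ≤ C * (l * N ^ 2 / Λ * PP U Λ) := by
    have h := hO U (fun _ => 1) (fun t => t) N β s L Λ hN hβ hβ1 hΛ hΛL hLN fun t ht => by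
      have h1 := hW t ht
      constructor <;> linarith
    simpa only [one_mul, norm_one, RR, PP] using h
  set η := V ^ 2 / (200 * B ^ 2 * C * l * N ^ 2) with hη
  have hη0 : 0 < η := by positivity
  have s4 : ∑ k ∈ K, ∑ k' ∈ K, ex k k' * (‖QQ U κ (g k - g k')‖ * ‖RR U (g k - g k')‖)
      ≤ N * (Q0 * U.card) + (η / 2 * (C * (l * N ^ 2 / Λ * EK U Λ κ))
        + 1 / (2 * η) * (C * (l * N ^ 2 / Λ * PP U Λ))) := by
    have e1 : ∀ k ∈ K, ∑ k' ∈ K, ex k k' * (‖QQ U κ (g k - g k')‖ * ‖RR U (g k - g k')‖)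
        ≤ Q0 * U.card + (η / 2 * ∑ k' ∈ K.erase k, ex k k' * ‖QQ U κ (g k - g k')‖ ^ 2
          + 1 / (2 * η) * ∑ k' ∈ K.erase k, ex k k' * ‖RR U (g k - g k')‖ ^ 2) := by
      intro k hk
      rw [← add_sum_erase K _ hk]
      refine add_le_add ?_ ?_
      · have a1 : ‖QQ U κ (g k - g k)‖ ≤ Q0 := by
          refine (norm_sum_le _ _).trans (le_of_eq ?_)
          rw [hQ0, sum_product]
          simp only [norm_mul, norm_E, mul_one, Complex.norm_real, Real.norm_of_nonneg (hκ _).1]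
        have a2 : ex k k = 1 := by simp [hex]
        rw [a2, one_mul]
        exact mul_le_mul a1 (norm_RR_le _ _) (norm_nonneg _) hQ00
      · rw [mul_sum, mul_sum, ← sum_add_distrib]
        refine sum_le_sum fun k' _ => ?_
        have a3 : 0 ≤ ex k k' := (Real.exp_pos _).le
        calc _ ≤ ex k k' * (η / 2 * ‖QQ U κ (g k - g k')‖ ^ 2
              + 1 / (2 * η) * ‖RR U (g k - g k')‖ ^ 2) := mul_le_mul_of_nonneg_left (amgm hη0) a3
          _ = _ := by ring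
    refine (sum_le_sum e1).trans ?_
    rw [sum_add_distrib, sum_const, nsmul_eq_mul, sum_add_distrib, ← mul_sum, ← mul_sum]
    have hc : (K.card : ℝ) = N := by
      rw [hKd, Nat.card_Ioc]; congr 1; omega
    rw [hc]
    gcongr
  have hP := PP_nonneg U Λ
  have s5 : V ^ 2 * EK U Λ κ ≤ 200 * Λ * B ^ 2 * (N * (Q0 * U.card)) + V ^ 2 * EK U Λ κ / 2
      + (200 * B ^ 2 * C * l * N ^ 2) ^ 2 / (2 * V ^ 2) * PP U Λ := by
    refine s3.trans ((mul_le_mul_of_nonneg_left s4 (by positivity)).trans (le_of_eq ?_))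
    rw [hη]; field_simp; ring
  have s6 : EK U Λ κ ≤ 400 * B ^ 2 * (Λ * N / V ^ 2 * U.card * Q0)
      + (200 * B ^ 2 * C) ^ 2 * (l ^ 2 * (N ^ 4 / V ^ 4) * PP U Λ) := by
    refine le_of_mul_le_mul_left (a := V ^ 2 / 2) ?_ (by positivity)
    have e : V ^ 2 / 2 * (400 * B ^ 2 * (Λ * N / V ^ 2 * U.card * Q0)
        + (200 * B ^ 2 * C) ^ 2 * (l ^ 2 * (N ^ 4 / V ^ 4) * PP U Λ))
        = 200 * Λ * B ^ 2 * (N * (Q0 * U.card))
          + (200 * B ^ 2 * C * l * N ^ 2) ^ 2 / (2 * V ^ 2) * PP U Λ := by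
      field_simp; ring
    rw [e]; linarith
  refine s6.trans ?_
  have p1 : 0 ≤ Λ * N / V ^ 2 * U.card * Q0 := by positivity
  have p2 : 0 ≤ l ^ 2 * (N ^ 4 / V ^ 4) * PP U Λ := by positivity
  have p3 : 0 ≤ 400 * B ^ 2 := by positivity
  have p4 : 0 ≤ (200 * B ^ 2 * C) ^ 2 := by positivity
  nlinarith [mul_nonneg p3 p2, mul_nonneg p4 p1]

end Pool.Agent.MP_3d0d30_nt.Six
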