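import Pool.Agent.MP_3d0d30_nt.Six.L4bB
import Pool.Agent.MP_3d0d30_nt.Six.Spec2

/-! Project SIX, module L4b: the fourth power bound for regular sets. -/

set_option autoImplicit false

namespace Pool.Agent.MP_3d0d30_nt.Six

open MeasureTheory Finset Filter Set L4
open scoped ComplexConjugate Topology

namespace L4b

/-- one term of `HH` -/
noncomputable def tm (w ε : ℝ → ℂ) (q β : ℝ) (p : ℝ × ℝ) (c : ℝ) : ℂ :=
  conj (ε p.1) * conj (ε p.2) * E (-((p.1 + p.2) * c)) * I2 w q β (p.1 - p.2) c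

variable {w w1 w2 ε : ℝ → ℂ} {A q β Λ μ s L : ℝ} {U : Finset ℝ}

theorem cont_tm (h : GD w w1 w2 A) (p : ℝ × ℝ) : Continuous (tm w ε q β p) :=
  (continuous_const.mul (by fun_prop)).mul h.cont_I2

theorem ip_tm (hε : ∀ t, ‖ε t‖ ≤ 1) (p p' : ℝ × ℝ) : ‖ip (tm w ε q β p) (tm w ε q β p')‖ ≤
    ‖JJ w q β (p.1 - p.2) (p'.1 - p'.2) (gm p p')‖ := by
  have e : ip (tm w ε q β p) (tm w ε q β p') = conj (ε p.1) * conj (ε p.2) * (ε p'.1 * ε p'.2) *
      JJ w q β (p.1 - p.2) (p'.1 - p'.2) (gm p p') := by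
    rw [ip, JJ, ← intervalIntegral.integral_const_mul]
    congr 1; ext c
    have e : E (-(gm p p' * c)) = E (-((p.1 + p.2) * c)) * conj (E (-((p'.1 + p'.2) * c))) := by
      rw [← E_sub]; congr 1; unfold gm; ring
    rw [e]; simp only [tm, map_mul, Complex.conj_conj]; ring
  rw [e, norm_mul]
  refine mul_le_of_le_one_left (norm_nonneg _) ?_
  simp only [norm_mul, Complex.norm_conj]
  exact mul_le_one₀ (mul_le_one₀ (hε _) (norm_nonneg _) (hε _)) (by positivity)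
    (mul_le_one₀ (hε _) (norm_nonneg _) (hε _))

/-- the cells of a pair -/
noncomputable def cl (Λ : ℝ) (p : ℝ × ℝ) : ℤ × ℤ := (⌊p.1 / Λ⌋, ⌊p.2 / Λ⌋)

/-- pairs of near cells -/
def nr (q Λ : ℝ) (a : ℤ × ℤ) : Prop := |(a.1 : ℝ) - a.2| * Λ ≤ 8 * q + Λ

theorem floor_cell (hΛ : 0 < Λ) (x : ℝ) : (⌊x / Λ⌋ : ℝ) * Λ ≤ x ∧ x ≤ ((⌊x / Λ⌋ : ℝ) + 1) * Λ :=
  ⟨(le_div_iff₀ hΛ).1 (Int.floor_le _), (div_le_iff₀ hΛ).1 (Int.lt_floor_add_one _).le⟩

theorem EE_le (hK : Kern) {V : Finset ℝ} (hV : Sep 1 V) : EE V 1 ≤ 10 * (V.card : ℝ) ^ 3 := by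
  calc EE V 1 ≤ ∑ _t1 ∈ V, ∑ _t2 ∈ V, ∑ _t3 ∈ V, (10 : ℝ) := by
        refine sum_le_sum fun t1 _ => sum_le_sum fun t2 _ => sum_le_sum fun t3 _ => ?_
        simpa only [div_one] using hK.sepsum V (t1 + t2 - t3) hV
    _ = _ := by simp only [sum_const, nsmul_eq_mul]; ring

open Classical in
theorem blk_of (hK : Kern) (hΛ : 0 < Λ) (hL : 1 ≤ L) (hμ : 1 ≤ μ) (hU : Sep 1 U) (hW : Win U s L)
    (hR : Regular U Λ μ) {a : ℤ × ℤ}
    (ha : a ∈ ((U ×ˢ U).filter fun p => nr q Λ (cl Λ p)).image (cl Λ)) :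
    Blk q Λ μ (12800 * (1 + Real.log L))
      (((U ×ˢ U).filter fun p => nr q Λ (cl Λ p)).filter fun p => cl Λ p = a) a.1 a.2 := by
  obtain ⟨p0, hp0, rfl⟩ := Finset.mem_image.1 ha
  obtain ⟨hp1, hp2⟩ := mem_filter.1 hp0
  obtain ⟨u1, u2⟩ := mem_product.1 hp1
  set V1 := U.filter fun t => ⌊t / Λ⌋ = ⌊p0.1 / Λ⌋ with hV1
  set V2 := U.filter fun t => ⌊t / Λ⌋ = ⌊p0.2 / Λ⌋ with hV2
  have e : (((U ×ˢ U).filter fun p => nr q Λ (cl Λ p)).filter fun p => cl Λ p = cl Λ p0) =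
      V1 ×ˢ V2 := by
    ext p
    simp only [mem_filter, mem_product, hV1, hV2]
    constructor
    · rintro ⟨⟨⟨h1, h2⟩, -⟩, h3⟩
      exact ⟨⟨h1, congrArg Prod.fst h3⟩, h2, congrArg Prod.snd h3⟩
    · rintro ⟨⟨h1, h2⟩, h3, h4⟩
      have h5 : cl Λ p = cl Λ p0 := Prod.ext h2 h4
      exact ⟨⟨⟨h1, h3⟩, h5 ▸ hp2⟩, h5⟩
  obtain ⟨a1, a2⟩ : μ ≤ (V1.card : ℝ) ∧ (V1.card : ℝ) ≤ 2 * μ := hR _ u1
  obtain ⟨b1, b2⟩ : μ ≤ (V2.card : ℝ) ∧ (V2.card : ℝ) ≤ 2 * μ := hR _ u2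
  have μ0 : 0 ≤ μ := by linarith
  rw [e]
  refine ⟨fun p hp => ?_, ?_, ?_, ?_, hp2⟩
  · obtain ⟨h1, h2⟩ := mem_product.1 hp
    have f1 := floor_cell hΛ p.1
    have f2 := floor_cell hΛ p.2
    rw [(mem_filter.1 h1).2] at f1
    rw [(mem_filter.1 h2).2] at f2
    exact ⟨f1.1, f1.2, f2.1, f2.2⟩
  · rw [card_product, Nat.cast_mul, sq]; gcongr
  · rw [card_product, Nat.cast_mul]
    calc _ ≤ 2 * μ * (2 * μ) := by gcongr
      _ = _ := by ring
  · have sV : V1 ∪ V2 ⊆ U := union_subset (filter_subset _ _) (filter_subset _ _)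
    have sP : V1 ×ˢ V2 ⊆ (V1 ∪ V2) ×ˢ (V1 ∪ V2) :=
      product_subset_product subset_union_left subset_union_right
    have cV : ((V1 ∪ V2).card : ℝ) ≤ 4 * μ := by
      have : ((V1 ∪ V2).card : ℝ) ≤ V1.card + V2.card := by exact_mod_cast Finset.card_union_le _ _
      linarith
    have l0 := Real.log_nonneg hL
    calc _ ≤ ∑ p ∈ (V1 ∪ V2) ×ˢ (V1 ∪ V2), ∑ p' ∈ (V1 ∪ V2) ×ˢ (V1 ∪ V2), 1 / (1 + |gm p p'|) :=
          (sum_le_sum fun p _ => sum_le_sum_of_subset_of_nonneg sP fun _ _ _ => by positivity).trans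
            (sum_le_sum_of_subset_of_nonneg sP fun _ _ _ => sum_nonneg fun _ _ => by positivity)
      _ ≤ 20 * (1 + Real.log L) * EE (V1 ∪ V2) 1 := by
          simp only [sum_product, gm]
          exact hK.elog _ s L hL (hW.mono sV)
      _ ≤ 20 * (1 + Real.log L) * (10 * (4 * μ) ^ 3) := by
          gcongr
          exact (EE_le hK (hU.mono sV)).trans (by gcongr)
      _ = _ := by ring

theorem elog_scale (hK : Kern) (hΛ : 1 ≤ Λ) (hL : 1 ≤ L) (hW : Win U s L) :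
    ∑ p ∈ U ×ˢ U, ∑ p' ∈ U ×ˢ U, 1 / (1 + |gm p p' / Λ|) ≤ 20 * (1 + Real.log L) * EE U Λ := by
  classical
  have Λ0 : 0 < Λ := by linarith
  have inj : Set.InjOn (fun t : ℝ => t / Λ) U := fun a _ b _ h => by
    simpa [div_left_inj' Λ0.ne'] using h
  have := hK.elog (U.image fun t => t / Λ) (s / Λ) L hL fun t ht => by
    obtain ⟨u, hu, rfl⟩ := Finset.mem_image.1 ht
    refine ⟨by gcongr; exact (hW u hu).1, ?_⟩
    calc u / Λ ≤ (s + L) / Λ := by gcongr; exact (hW u hu).2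
      _ = s / Λ + L / Λ := add_div _ _ _
      _ ≤ _ := by gcongr; exact div_le_self (by linarith) hΛ
  simp only [EE, sum_image inj, div_one, ← add_div, ← sub_div] at this
  simpa only [sum_product, gm, EE] using this

theorem sum_Wt (hK : Kern) (hΛ : 1 ≤ Λ) (hL : 1 ≤ L) (hW : Win U s L) {W X Y : ℝ} (hX : 0 ≤ X) :
    ∑ p ∈ U ×ˢ U, ∑ p' ∈ U ×ˢ U, Wt Λ W X Y p p' ≤
      X * (20 * (1 + Real.log L) * EE U Λ) + Y * (2 * EK U Λ (kap W)) := by
  have e1 : ∑ p ∈ U ×ˢ U, ∑ p' ∈ U ×ˢ U, ck (gm p p' / Λ) * kap W (p.1 - p'.1) = EK U Λ (kap W) := by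
    simp only [sum_product, gm, EK]
  have e2 : ∑ p ∈ U ×ˢ U, ∑ p' ∈ U ×ˢ U, ck (gm p p' / Λ) * kap W (p.1 - p'.2) = EK U Λ (kap W) := by
    simp only [sum_product, gm, EK]
    refine sum_congr rfl fun t1 _ => sum_congr rfl fun t2 _ => ?_
    rw [sum_comm]
    refine sum_congr rfl fun t3 _ => sum_congr rfl fun t4 _ => ?_
    rw [sub_right_comm]
  simp only [Wt, sum_add_distrib, ← mul_sum]
  rw [e1, e2, ← two_mul]
  gcongr
  exact elog_scale hK hΛ hL hW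

theorem sq_HH2 (hK : Kern) (hN : NonStatStmt) (hS : SecDerStmt) : ∃ C : ℝ, 0 < C ∧
    ∀ (w w1 w2 ε : ℝ → ℂ) (A q β s L Λ μ : ℝ) (U : Finset ℝ), GD w w1 w2 A → 1 ≤ q → 0 < β →
    β ≤ 1 / 10 → (∀ t, ‖ε t‖ ≤ 1) → 400 * (β ^ 2 * q + 1) ≤ Λ → β * Λ ≤ 1 → Λ ≤ L → 1 ≤ μ →
    Sep 1 U → Win U s L → Regular U Λ μ →
    ∫ c in (1 / 2 : ℝ)..2, ‖HH w ε U q β c‖ ^ 2 ≤ C * (A ^ 4 * ((1 + Real.log L) / q *
      (EK U Λ (kap (μ * Real.sqrt q / β)) / μ + EE U Λ / Λ) + U.card ^ 4 / q ^ 4)) := by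
  classical
  obtain ⟨C1, hC1, h1⟩ := ker hS
  obtain ⟨C2, hC2, h2⟩ := far hN
  refine ⟨2 * (6656000 * C1) + 3 * C2 ^ 2, by positivity,
    fun w w1 w2 ε A q β s L Λ μ U h hq hβ hβ1 hε hΛ1 hΛ2 hΛL hμ hU hW hR => ?_⟩
  have q0 : 0 < q := by linarith
  have Λ1 : 1 ≤ Λ := by nlinarith [mul_pos (pow_pos hβ 2) q0]
  have Λ0 : 0 < Λ := by linarith
  have hL : 1 ≤ L := Λ1.trans hΛL
  have μ0 : 0 < μ := by linarith
  have l0 := Real.log_nonneg hL
  have hA := h.nonneg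
  have cT := cont_tm (ε := ε) (q := q) (β := β) h
  set T := tm w ε q β with hT
  set B := C1 * (A ^ 4 / q) with hB
  have B0 : 0 ≤ B := by positivity
  have hk : Ker T q β Λ B := fun p p' hp hp' => by
    obtain ⟨k1, k2, k3⟩ := h1 w w1 w2 A q β Λ _ _ (gm p p') h hq hβ hβ1 hΛ1 hΛ2 hp hp'
    have := ip_tm (w := w) (q := q) (β := β) hε p p'
    exact ⟨fun a => this.trans (k1 a), fun a => this.trans (k2 a),
      fun z a b c => this.trans (k3 z a b c)⟩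
  set P := (U ×ˢ U).filter fun p => nr q Λ (cl Λ p) with hP
  set Q := (U ×ˢ U).filter fun p => ¬nr q Λ (cl Λ p) with hQ
  set W := μ * Real.sqrt q / β with hW'
  have W0 : 0 < W := by have := Real.sqrt_pos.2 q0; positivity
  set Z := 12800 * (1 + Real.log L) with hZ
  have fib : ∀ {M : Type} [AddCommMonoid M] (f : ℝ × ℝ → M),
      ∑ a ∈ P.image (cl Λ), ∑ p ∈ P.filter fun p => cl Λ p = a, f p = ∑ p ∈ P, f p :=
    fun f => sum_fiberwise_of_maps_to (fun p hp => mem_image_of_mem _ hp) f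
  have K0 : 0 ≤ EK U Λ (kap W) := sum_nonneg fun _ _ => sum_nonneg fun _ _ => sum_nonneg fun _ _ =>
    sum_nonneg fun _ _ => mul_nonneg (ck_nonneg _) (kap_nonneg W0 _)
  have E0 := EE_nonneg U Λ
  have wn := Wt_nonneg (Λ := Λ) (X := B / Λ) (Y := 260 * B * Z / μ) W0 (by positivity)
    (by positivity)
  have b1 : ∫ c in (1 / 2 : ℝ)..2, ‖∑ p ∈ P, T p c‖ ^ 2 ≤
      6656000 * C1 * (A ^ 4 * ((1 + Real.log L) / q * (EK U Λ (kap W) / μ + EE U Λ / Λ))) := by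
    rw [← norm_ip_self fun c => ∑ p ∈ P, T p c]
    simp only [← fib fun p => T p _]
    rw [ip_sum _ _ (fun a c => ∑ p ∈ P.filter fun p => cl Λ p = a, T p c)
      fun a => continuous_finsetSum _ fun p _ => cT p]
    calc _ ≤ ∑ a ∈ P.image (cl Λ), ∑ b ∈ P.image (cl Λ), ∑ p ∈ P.filter fun p => cl Λ p = a,
          ∑ p' ∈ P.filter fun p => cl Λ p = b, Wt Λ W (B / Λ) (260 * B * Z / μ) p p' :=
          (norm_sum_le _ _).trans (sum_le_sum fun a ha => (norm_sum_le _ _).trans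
            (sum_le_sum fun b hb => block (blk_of hK Λ0 hL hμ hU hW hR ha)
              (blk_of hK Λ0 hL hμ hU hW hR hb) hq hβ Λ0 hΛ2 hμ (by linarith) B0 cT hk))
      _ = ∑ p ∈ P, ∑ p' ∈ P, Wt Λ W (B / Λ) (260 * B * Z / μ) p p' := by
          rw [← fib fun p => ∑ p' ∈ P, Wt Λ W (B / Λ) (260 * B * Z / μ) p p']
          refine sum_congr rfl fun a _ => ?_
          rw [sum_comm]
          exact sum_congr rfl fun p _ => fib _
      _ ≤ ∑ p ∈ U ×ˢ U, ∑ p' ∈ U ×ˢ U, Wt Λ W (B / Λ) (260 * B * Z / μ) p p' :=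
          (sum_le_sum fun p _ => sum_le_sum_of_subset_of_nonneg (filter_subset _ _)
            fun _ _ _ => wn _ _).trans (sum_le_sum_of_subset_of_nonneg (filter_subset _ _)
              fun _ _ _ => sum_nonneg fun _ _ => wn _ _)
      _ ≤ _ := sum_Wt hK Λ1 hL hW (by positivity)
      _ = 20 * C1 * (A ^ 4 * ((1 + Real.log L) / q * (EE U Λ / Λ))) +
          6656000 * C1 * (A ^ 4 * ((1 + Real.log L) / q * (EK U Λ (kap W) / μ))) := by
          rw [hB, hZ]; ring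
      _ ≤ 6656000 * C1 * (A ^ 4 * ((1 + Real.log L) / q * (EE U Λ / Λ))) +
          6656000 * C1 * (A ^ 4 * ((1 + Real.log L) / q * (EK U Λ (kap W) / μ))) := by
          gcongr; norm_num
      _ = _ := by ring
  have b2 : ∀ c ∈ Set.Icc (1 / 2 : ℝ) 2, ‖∑ p ∈ Q, T p c‖ ≤ U.card ^ 2 * (C2 * (A ^ 2 / q ^ 2)) :=
    fun c hc => by
    have : ∀ p ∈ Q, ‖T p c‖ ≤ C2 * (A ^ 2 / q ^ 2) := fun p hp => by
      have f1 := floor_cell Λ0 p.1
      have f2 := floor_cell Λ0 p.2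
      have f3 := (cell_dist Λ0 f1.1 f1.2 f2.1 f2.2).2
      have f4 : 8 * q + Λ < |(⌊p.1 / Λ⌋ : ℝ) - ⌊p.2 / Λ⌋| * Λ := not_le.1 (mem_filter.1 hp).2
      simp only [hT, tm, norm_mul, norm_E, mul_one, Complex.norm_conj]
      exact (mul_le_of_le_one_left (norm_nonneg _) (mul_le_one₀ (hε _) (norm_nonneg _) (hε _))).trans
        (h2 w w1 w2 A q β _ c h q0 hβ hβ1 (by linarith) hc)
    refine ((norm_sum_le _ _).trans (sum_le_sum this)).trans ?_
    rw [sum_const, nsmul_eq_mul]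
    gcongr
    have := card_filter_le (U ×ˢ U) fun p => ¬nr q Λ (cl Λ p)
    rw [card_product, ← sq] at this
    exact_mod_cast this
  have cP : Continuous fun c => ∑ p ∈ P, T p c := continuous_finsetSum _ fun p _ => cT p
  have iP : IntervalIntegrable (fun c => 2 * ‖∑ p ∈ P, T p c‖ ^ 2) volume (1 / 2 : ℝ) 2 :=
    Continuous.intervalIntegrable (by fun_prop) _ _
  have b3 : ∫ c in (1 / 2 : ℝ)..2, ‖HH w ε U q β c‖ ^ 2 ≤ ∫ c in (1 / 2 : ℝ)..2,
      (2 * ‖∑ p ∈ P, T p c‖ ^ 2 + 2 * (U.card ^ 2 * (C2 * (A ^ 2 / q ^ 2))) ^ 2) := by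
    refine intervalIntegral.integral_mono_on (by norm_num)
      (((cont_HH h ε U).norm.pow 2).intervalIntegrable _ _) (iP.add intervalIntegrable_const)
      fun c hc => ?_
    have e : HH w ε U q β c = ∑ p ∈ P, T p c + ∑ p ∈ Q, T p c :=
      (sum_filter_add_sum_filter_not _ _ _).symm
    have n1 := pow_le_pow_left₀ (norm_nonneg _) (norm_add_le (∑ p ∈ P, T p c) (∑ p ∈ Q, T p c)) 2
    have n2 := pow_le_pow_left₀ (norm_nonneg _) (b2 c hc) 2
    rw [e]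
    nlinarith [sq_nonneg (‖∑ p ∈ P, T p c‖ - ‖∑ p ∈ Q, T p c‖)]
  rw [intervalIntegral.integral_add iP intervalIntegrable_const, intervalIntegral.integral_const_mul,
    intervalIntegral.integral_const, smul_eq_mul] at b3
  have e4 : (2 - 1 / 2 : ℝ) * (2 * (U.card ^ 2 * (C2 * (A ^ 2 / q ^ 2))) ^ 2) =
      3 * C2 ^ 2 * (A ^ 4 * (U.card ^ 4 / q ^ 4)) := by ring
  rw [e4] at b3
  have p1 : 0 ≤ A ^ 4 * ((1 + Real.log L) / q * (EK U Λ (kap W) / μ + EE U Λ / Λ)) := by positivity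
  have p2 : 0 ≤ A ^ 4 * ((U.card : ℝ) ^ 4 / q ^ 4) := by positivity
  rw [mul_add (A ^ 4)]
  generalize A ^ 4 * ((1 + Real.log L) / q * (EK U Λ (kap W) / μ + EE U Λ / Λ)) = X at *
  generalize A ^ 4 * ((U.card : ℝ) ^ 4 / q ^ 4) = Y at *
  nlinarith [mul_nonneg hC1.le p2, mul_nonneg (sq_nonneg C2) p1]

/-- reduction to the mean square of `HH` -/
theorem reduce (hK : Kern) {N m : ℕ} (h : GD w w1 w2 A) (hβ : 0 < β) (hε : ∀ t, ‖ε t‖ ≤ 1)
    (hU : Sep 1 U) : ‖FM N β w ε U m‖ ^ 4 ≤ 4 * Real.exp 30 * (N ^ 4 * U.card ^ 3 *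
      ∫ c in (1 / 2 : ℝ)..2, ‖HH w ε U (N * m) β c‖ ^ 2) := by
  have c0 := h.c0
  set q : ℝ := N * m with hq
  have cF : Continuous (FF w ε U q β) := by unfold FF XX; fun_prop
  have zF : ∀ y, y ∉ Set.Ioo (1 / 2 : ℝ) 2 → FF w ε U q β y = 0 := fun y hy => by
    simp [FF, (h.z y hy).1]
  set g : ℝ → ℂ := fun t => ∫ y, FF w ε U q β y * E (t * y) with hg
  have e1 : FM N β w ε U m = N * ∑ t ∈ U, ε t * g t := by
    rw [FM, mul_sum]
    refine sum_congr rfl fun t _ => ?_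
    simp only [hg, FF, sum_mul, Six.hm]
    rw [integral_finsetSum _ fun s _ => Continuous.integrable_of_hasCompactSupport
      (by unfold XX; fun_prop) (supp_compact fun y hy => by simp [(h.z y hy).1]), mul_sum, mul_sum]
    refine sum_congr rfl fun s _ => ?_
    have e : ∀ y, conj (ε s) * (w y * E (-(s * y) - q * XX β y)) * E (t * y) =
        conj (ε s) * (w y * E ((t - s) * y - N * ((m : ℤ) : ℝ) * XX β y)) := fun y => by
      rw [mul_assoc, mul_assoc, ← E_add]; congr 3; rw [hq]; push_cast; ring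
    simp only [e]
    rw [integral_const_mul]; ring
  choose η hη using fun t => RCLike.exists_norm_eq_mul_self (g t ^ 2)
  have cH := cont_HH (q := q) (β := β) h ε U
  set ρ : ℝ → ℂ := fun c => ∑ t ∈ U, η t * E (2 * c * t) with hρ
  have cρ : Continuous ρ := by fun_prop
  set S := ∑ t ∈ U, ‖g t‖ ^ 2 with hS'
  have e2 : (S : ℂ) = 2 * ∫ c in (1 / 2 : ℝ)..2,
      ρ c * (E (-(q / β ^ 2 * (Real.cosh (2 * β * c) - 1))) * HH w ε U q β c) := by
    simp only [hρ, sum_mul]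
    rw [intervalIntegral.integral_finsetSum fun t _ =>
      Continuous.intervalIntegrable (by fun_prop) _ _, mul_sum, hS']
    push_cast
    refine sum_congr rfl fun t _ => ?_
    have := (hη t).2
    rw [norm_pow] at this
    push_cast at this
    refine this.trans ?_
    simp only [hg]
    rw [sq_rep cF zF t]
    simp only [conv_FF h hβ.ne', mul_assoc (η t)]
    rw [intervalIntegral.integral_const_mul]; ring
  have S0 : 0 ≤ S := by positivity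
  have b1 : S ≤ 2 * ∫ c in (1 / 2 : ℝ)..2, ‖ρ c‖ * ‖HH w ε U q β c‖ := by
    calc S = ‖(S : ℂ)‖ := by rw [Complex.norm_real, Real.norm_of_nonneg S0]
      _ ≤ _ := by
        rw [e2, norm_mul, Complex.norm_ofNat]
        refine mul_le_mul_of_nonneg_left ((intervalIntegral.norm_integral_le_integral_norm
          (by norm_num)).trans (le_of_eq ?_)) zero_le_two
        simp only [norm_mul, norm_E, one_mul]
  have b2 := cs_interval cρ.norm cH.norm (show (1 / 2 : ℝ) ≤ 2 by norm_num)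
  have b3 := rho_le hK hU (η := η) fun t => (hη t).1.le
  have Y0 : 0 ≤ ∫ c in (1 / 2 : ℝ)..2, ‖HH w ε U q β c‖ ^ 2 :=
    intervalIntegral.integral_nonneg (by norm_num) fun _ _ => sq_nonneg _
  set Y := ∫ c in (1 / 2 : ℝ)..2, ‖HH w ε U q β c‖ ^ 2 with hY
  have b5 : S ^ 2 ≤ 4 * (Real.exp 30 * U.card * Y) := by
    have := mul_le_mul_of_nonneg_right b3 Y0
    nlinarith [pow_le_pow_left₀ S0 b1 2]
  have b6 : ‖∑ t ∈ U, ε t * g t‖ ^ 2 ≤ U.card * S :=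
    (pow_le_pow_left₀ (norm_nonneg _) ((norm_sum_le _ _).trans (sum_le_sum fun t _ => by
      rw [norm_mul]; exact mul_le_of_le_one_left (norm_nonneg _) (hε t))) 2).trans
      sq_sum_le_card_mul_sum_sq
  rw [e1, norm_mul, Complex.norm_natCast, mul_pow]
  calc _ = (N : ℝ) ^ 4 * (‖∑ t ∈ U, ε t * g t‖ ^ 2) ^ 2 := by ring
    _ ≤ (N : ℝ) ^ 4 * (U.card * S) ^ 2 := by gcongr
    _ = (N : ℝ) ^ 4 * U.card ^ 2 * S ^ 2 := by ring
    _ ≤ (N : ℝ) ^ 4 * U.card ^ 2 * (4 * (Real.exp 30 * U.card * Y)) :=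
        mul_le_mul_of_nonneg_left b5 (by positivity)
    _ = _ := by ring

end L4b

open L4b in
theorem l4b_of (hK : Kern) (hN : NonStatStmt) (hS : SecDerStmt) : L4bStmt := fun A => by
  obtain ⟨C, hC, h1⟩ := sq_HH2 hK hN hS
  refine ⟨4 * Real.exp 30 * C * (1 + A ^ 4), by positivity,
    fun N m β s L Λ μ w ε U hN hm hβ hβ1 ⟨w1, w2, g1, g2, g3⟩ hε hΛ1 hΛ2 hΛL hμ hU hW hR => ?_⟩
  have h : GD w w1 w2 A := ⟨g1, g2, g3⟩
  have q1 : (1 : ℝ) ≤ N * m :=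
    one_le_mul_of_one_le_of_one_le (by exact_mod_cast hN) (by exact_mod_cast hm)
  have b1 := h1 w w1 w2 ε A (N * m) β s L Λ μ U h q1 hβ hβ1 hε hΛ1 hΛ2 hΛL hμ hU hW hR
  have Λ1 : 1 ≤ Λ := by nlinarith [mul_pos (pow_pos hβ 2) (one_pos.trans_le q1)]
  have l0 := Real.log_nonneg (Λ1.trans hΛL)
  have W0 : 0 < μ * Real.sqrt (N * m) / β := by
    have := Real.sqrt_pos.2 (one_pos.trans_le q1)
    have : 0 < μ := by linarith
    positivity
  have K0 : 0 ≤ EK U Λ (kap (μ * Real.sqrt (N * m) / β)) := sum_nonneg fun _ _ =>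
    sum_nonneg fun _ _ => sum_nonneg fun _ _ =>
      sum_nonneg fun _ _ => mul_nonneg (ck_nonneg _) (kap_nonneg W0 _)
  have E0 := EE_nonneg U Λ
  refine (reduce hK h hβ hε hU).trans ?_
  change _ ≤ _ * (_ * (_ * (EK U Λ (kap (μ * Real.sqrt (N * m) / β)) / μ + _) + _))
  have X0 : 0 ≤ (1 + Real.log L) / (N * m) * (EK U Λ (kap (μ * Real.sqrt (N * m) / β)) / μ +
      EE U Λ / Λ) + (U.card : ℝ) ^ 4 / (N * m) ^ 4 := by
    have : 0 < μ := by linarith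
    have : 0 < Λ := by linarith
    positivity
  generalize (1 + Real.log L) / (N * m) * (EK U Λ (kap (μ * Real.sqrt (N * m) / β)) / μ +
      EE U Λ / Λ) + (U.card : ℝ) ^ 4 / (N * m) ^ 4 = X at *
  calc _ ≤ 4 * Real.exp 30 * ((N : ℝ) ^ 4 * U.card ^ 3 * (C * ((1 + A ^ 4) * X))) := by
        gcongr
        refine b1.trans ?_
        gcongr; linarith
    _ = _ := by ring

end Pool.Agent.MP_3d0d30_nt.Six
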