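import Mathlib.Algebra.Order.Chebyshev
import Mathlib.NumberTheory.Harmonic.Bounds
import Pool.Agent.MP_3d0d30_nt.Six.Spec2
import Pool.Agent.MP_3d0d30_nt.Six.LV

/-! Project SIX, second stage: the second large values estimate from its ingredients. -/

set_option autoImplicit false

namespace Pool.Agent.MP_3d0d30_nt.Six

open MeasureTheory Finset Filter

namespace LV2

theorem sum_inv (K : ℕ) : ∑ m ∈ Icc 1 K, 1 / (m : ℝ) ≤ 1 + Real.log K := by
  have h := harmonic_le_one_add_log K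
  rw [harmonic_eq_sum_Icc] at h
  push_cast at h
  simpa using h

theorem root4 {x : ℝ} (hx : 0 ≤ x) : Real.sqrt (Real.sqrt x) ^ 4 = x := by
  rw [show 4 = 2 * 2 from rfl, pow_mul, Real.sq_sqrt (Real.sqrt_nonneg _), Real.sq_sqrt hx]

theorem sum4 (K : ℕ) (f : ℕ → ℝ) {a b : ℝ} (ha : 0 ≤ a) (hb : 0 ≤ b) (hf : ∀ m, 0 ≤ f m)
    (h : ∀ m ∈ Icc 1 K, f m ^ 4 ≤ a / m + b / (m : ℝ) ^ 4) :
    (∑ m ∈ Icc 1 K, f m) ^ 4 ≤ 8 * (4 * (K : ℝ) ^ 3 * a + (1 + Real.log K) ^ 4 * b) := by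
  set p := Real.sqrt (Real.sqrt a)
  set q := Real.sqrt (Real.sqrt b)
  have p0 : 0 ≤ p := Real.sqrt_nonneg _
  have q0 : 0 ≤ q := Real.sqrt_nonneg _
  have p4 : p ^ 4 = a := root4 ha
  have q4 : q ^ 4 = b := root4 hb
  clear_value p q
  set y : ℕ → ℝ := fun m => 1 / Real.sqrt (Real.sqrt m) with hy
  have y0 : ∀ m, 0 ≤ y m := fun m => by simp only [hy]; positivity
  have h1 : ∀ m ∈ Icc 1 K, f m ≤ p * y m + q * (1 / m) := fun m hm => by
    have e1 : y m ^ 4 = 1 / m := by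
      simp only [hy]; rw [div_pow, one_pow, root4 (Nat.cast_nonneg m)]
    have u0 : 0 ≤ p * y m := mul_nonneg p0 (y0 m)
    have v0 : 0 ≤ q * (1 / (m : ℝ)) := by positivity
    refine (pow_le_pow_iff_left₀ (hf m) (add_nonneg u0 v0) (n := 4) (by norm_num)).1
      ((h m hm).trans (le_trans (le_of_eq ?_) (pow_add_pow_le u0 v0 (by norm_num))))
    rw [mul_pow, mul_pow, p4, q4, e1]; ring
  have Y0 : 0 ≤ ∑ m ∈ Icc 1 K, y m := sum_nonneg fun m _ => y0 m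
  have h2 : (∑ m ∈ Icc 1 K, y m) ^ 2 ≤ K * (2 * Real.sqrt K) := by
    refine sq_sum_le_card_mul_sum_sq.trans ?_
    rw [Nat.card_Icc, Nat.add_sub_cancel]
    refine mul_le_mul_of_nonneg_left (le_trans (le_of_eq ?_) (LV.sum_inv_sqrt K)) (Nat.cast_nonneg K)
    refine sum_congr rfl fun m _ => ?_
    simp only [hy]
    rw [div_pow, one_pow, Real.sq_sqrt (Real.sqrt_nonneg _)]
  have h3 : (∑ m ∈ Icc 1 K, y m) ^ 4 ≤ 4 * (K : ℝ) ^ 3 :=
    calc _ = ((∑ m ∈ Icc 1 K, y m) ^ 2) ^ 2 := by ring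
      _ ≤ (K * (2 * Real.sqrt K)) ^ 2 := pow_le_pow_left₀ (sq_nonneg _) h2 2
      _ = 4 * (K : ℝ) ^ 2 * Real.sqrt K ^ 2 := by ring
      _ = _ := by rw [Real.sq_sqrt (Nat.cast_nonneg K)]; ring
  have H0 : 0 ≤ ∑ m ∈ Icc 1 K, 1 / (m : ℝ) := sum_nonneg fun m _ => by positivity
  have h4 := pow_le_pow_left₀ H0 (sum_inv K) 4
  have h5 := sum_le_sum h1
  rw [sum_add_distrib, ← mul_sum, ← mul_sum] at h5
  refine (pow_le_pow_left₀ (sum_nonneg fun m _ => hf m) h5 4).trans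
    ((add_pow_le (mul_nonneg p0 Y0) (mul_nonneg q0 H0) 4).trans ?_)
  rw [mul_pow, mul_pow, p4, q4, mul_comm a, mul_comm b, show (2 : ℝ) ^ (4 - 1) = 8 by norm_num]
  exact mul_le_mul_of_nonneg_left (add_le_add (mul_le_mul_of_nonneg_right h3 ha)
    (mul_le_mul_of_nonneg_right h4 hb)) (by norm_num)

theorem solve {S k a b c : ℝ} (hS : 0 < S) (hk : 0 ≤ k) (ha : 0 ≤ a) (hb : 0 ≤ b) (hc : 0 ≤ c)
    (h : S ^ 8 ≤ k * (a ^ 4 * S ^ 4 + b ^ 3 * S ^ 5 + c * S ^ 7)) :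
    S ≤ (1 + k) * (c + a + b) := by
  have h0 : 0 ≤ k * (c + a + b) := by positivity
  rcases le_total S a with h1 | h1
  · linarith
  rcases le_total S b with h2 | h2
  · linarith
  have h3 : S * S ^ 7 ≤ k * (c + a + b) * S ^ 7 :=
    calc S * S ^ 7 = S ^ 8 := by ring
      _ ≤ k * (a * a ^ 3 * S ^ 4 + b * b ^ 2 * S ^ 5 + c * S ^ 7) := h.trans (le_of_eq (by ring))
      _ ≤ k * (a * S ^ 3 * S ^ 4 + b * S ^ 2 * S ^ 5 + c * S ^ 7) := by gcongr
      _ = _ := by ring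
  have h4 := le_of_mul_le_mul_right h3 (by positivity)
  linarith

/-- the two energies of a regular set of large values -/
theorem energy (hR : RegStmt) (hE : EnKStmt) (hC : CntStmt) : ∃ C : ℝ, 0 < C ∧
    ∀ (N : ℕ) (β s M V Λ μ : ℝ) (a : ℕ → ℂ) (U : Finset ℝ),
    1 ≤ N → 1 ≤ M → 0 < β → β ≤ 1 / 10 → (∀ k, ‖a k‖ ≤ 1) → C * Real.sqrt N ≤ V →
    M ≤ Λ → Λ ≤ N * M → 1 ≤ μ → μ ≤ 2 * Λ → Regular U Λ μ →
    Sep 1 U → Win U s (N * M) → (∀ t ∈ U, V ≤ ‖Dsum N β a t‖) → ∀ m : ℕ, 1 ≤ m → (m : ℝ) ≤ 3 * M →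
    EK U Λ (fun x => 1 / (1 + |x| / (μ * Real.sqrt (N * m) / β))) / μ + EE U Λ / Λ ≤
      C * ((1 + Real.log (N * M)) ^ 3 * (N ^ 4 / V ^ 4 * U.card +
        Λ * (1 + Real.sqrt (N * M) / (β * max (N : ℝ) (V ^ 4 / N ^ 2))) * N ^ 3 / V ^ 4 *
          U.card ^ 2)) := by
  obtain ⟨CR, cR, -, hP⟩ := hR
  obtain ⟨CE, cE, hE⟩ := hE
  obtain ⟨CC, cC, hC⟩ := hC
  refine ⟨CC + CE * (3 * CR + 6 * CC), by positivity,
    fun N β s M V Λ μ a U hN hM hβ hβ' ha hV hMΛ hΛ hμ hμ' hU hS hW hD m m1 m2 => ?_⟩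
  have N1 : (1 : ℝ) ≤ N := by exact_mod_cast hN
  have m1' : (1 : ℝ) ≤ m := by exact_mod_cast m1
  have sN : 1 ≤ Real.sqrt N := Real.one_le_sqrt.2 N1
  have c0 : 0 ≤ CE * (3 * CR + 6 * CC) := by positivity
  have hV' : CC * Real.sqrt N ≤ V :=
    le_trans (mul_le_mul_of_nonneg_right (by linarith) (by linarith)) hV
  have V0 : 0 < V := lt_of_lt_of_le (by positivity) hV'
  have L1 : 1 ≤ N * M := one_le_mul_of_one_le_of_one_le N1 hM
  have Λ1 : 1 ≤ Λ := hM.trans hMΛ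
  have g0 := Real.log_nonneg N1
  have g1 : Real.log N ≤ Real.log (N * M) :=
    Real.log_le_log (by linarith) (le_mul_of_one_le_right (by linarith) hM)
  replace hP := hP U Λ μ (by linarith) hU
  replace hE := fun κ hκ => hE N β a V s (N * M) Λ U κ hN hβ (by linarith) ha V0 Λ1 hΛ
    (by gcongr) hκ hS hW hD
  replace hC := fun W hW1 => hC N β a V s (N * M) W U hN hβ (by linarith) ha hV' hW1 L1 hS hW hD
  set W0 := max (N : ℝ) (V ^ 4 / N ^ 2) with hW0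
  have W1 : (N : ℝ) ≤ W0 := le_max_left _ _
  clear_value W0
  have W2 : 0 < W0 := by linarith
  set l := 1 + Real.log (N * M) with hl
  have l1 : 1 ≤ l := by linarith
  have l2 : 1 + Real.log N ≤ l := by linarith
  clear_value l
  set n : ℝ := (U.card : ℝ) with hn
  have n0 : 0 ≤ n := Nat.cast_nonneg _
  have hQ : ∀ W : ℝ, 1 ≤ W → ∑ t1 ∈ U, ∑ t3 ∈ U, 1 / (1 + |t1 - t3| / W) ≤
      n * (CC * (l ^ 3 * (N ^ 2 / V ^ 2) * (1 + W / W0))) := fun W hW1 => by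
    have := sum_le_card_nsmul U (fun t1 => ∑ t3 ∈ U, 1 / (1 + |t1 - t3| / W))
      (CC * (l ^ 3 * (N ^ 2 / V ^ 2) * (1 + W / W0))) fun u hu => (hC W hW1 u hu).trans (by
        have : 0 ≤ W / W0 := by positivity
        rw [show l ^ 3 = l * l ^ 2 by ring]
        gcongr)
    rwa [nsmul_eq_mul] at this
  set ξ := Real.sqrt (N * M) / (β * W0) with hξ
  have ξ0 : 0 ≤ ξ := by positivity
  have hP' : (1 + Real.log N) ^ 2 * (N ^ 4 / V ^ 4) * PP U Λ ≤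
      CR * μ * (l ^ 3 * (N ^ 4 / V ^ 4 * n)) :=
    calc _ ≤ l ^ 2 * (N ^ 4 / V ^ 4) * (CR * (μ * n)) := by
          have := PP_nonneg U Λ
          gcongr
      _ ≤ l ^ 3 * (N ^ 4 / V ^ 4) * (CR * (μ * n)) := by
          have : l ^ 2 ≤ l ^ 3 := pow_le_pow_right₀ l1 (by norm_num)
          gcongr
      _ = _ := by ring
  have e1 : EK U Λ (fun x => 1 / (1 + |x| / (μ * Real.sqrt (N * m) / β))) / μ ≤
      CE * (CR * (l ^ 3 * (N ^ 4 / V ^ 4 * n)) +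
        2 * CC * (l ^ 3 * (Λ * (1 + ξ) * N ^ 3 / V ^ 4 * n ^ 2))) := by
    have s1 : 1 ≤ Real.sqrt (N * m) := Real.one_le_sqrt.2 (one_le_mul_of_one_le_of_one_le N1 m1')
    have s2 : Real.sqrt (N * m) ≤ 2 * Real.sqrt (N * M) := by
      rw [show (2 : ℝ) = Real.sqrt 4 by
        rw [show (4 : ℝ) = 2 ^ 2 by norm_num, Real.sqrt_sq (by norm_num)],
        ← Real.sqrt_mul (by norm_num)]
      have := mul_le_mul_of_nonneg_left m2 (show (0 : ℝ) ≤ N by linarith)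
      exact Real.sqrt_le_sqrt (by linarith)
    have w1 : 1 ≤ μ * Real.sqrt (N * m) / β := by
      rw [le_div_iff₀ hβ]
      have := one_le_mul_of_one_le_of_one_le hμ s1
      linarith
    have w2 : 1 + μ * Real.sqrt (N * m) / β / W0 ≤ μ * (2 * (1 + ξ)) :=
      calc _ ≤ μ * 2 + μ * (2 * Real.sqrt (N * M)) / β / W0 := by gcongr; linarith
        _ = _ := by rw [hξ]; field_simp
    have w3 := hQ _ w1
    have w4 := hE (fun x => 1 / (1 + |x| / (μ * Real.sqrt (N * m) / β))) fun x =>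
      ⟨by positivity, by
        rw [div_le_one (by positivity)]
        exact le_add_of_nonneg_right (by positivity)⟩
    rw [div_le_iff₀ (by linarith)]
    refine w4.trans ?_
    calc _ ≤ CE * (CR * μ * (l ^ 3 * (N ^ 4 / V ^ 4 * n)) + Λ * N / V ^ 2 * n *
          (n * (CC * (l ^ 3 * (N ^ 2 / V ^ 2) * (μ * (2 * (1 + ξ))))))) := by
          refine mul_le_mul_of_nonneg_left (add_le_add hP' (mul_le_mul_of_nonneg_left
            (w3.trans ?_) (by positivity))) cE.le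
          gcongr
      _ = _ := by ring
  have e2 : EE U Λ / Λ ≤ CE * (2 * CR * (l ^ 3 * (N ^ 4 / V ^ 4 * n)) +
      4 * CC * (l ^ 3 * (Λ * (1 + ξ) * N ^ 3 / V ^ 4 * n ^ 2))) := by
    have w4 := hE (fun _ => 1) fun _ => ⟨zero_le_one, le_rfl⟩
    have w5 : EK U Λ (fun _ => 1) = EE U Λ := by simp [EK, EE]
    have w6 : ∑ t1 ∈ U, ∑ t3 ∈ U, (1 : ℝ) ≤
        2 * ∑ t1 ∈ U, ∑ t3 ∈ U, 1 / (1 + |t1 - t3| / (N * M)) := by
      rw [mul_sum]
      refine sum_le_sum fun t1 h1 => ?_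
      rw [mul_sum]
      refine sum_le_sum fun t3 h3 => ?_
      have : |t1 - t3| / (N * M) ≤ 1 := by
        rw [div_le_one (by linarith), abs_le]
        constructor <;> linarith [(hW t1 h1).1, (hW t1 h1).2, (hW t3 h3).1, (hW t3 h3).2]
      rw [mul_one_div, le_div_iff₀ (by positivity)]
      linarith
    have w2 : 1 + N * M / W0 ≤ 2 * (Λ * (1 + ξ)) := by
      have : N * M / W0 ≤ M := by
        rw [div_le_iff₀ W2, mul_comm M]; exact mul_le_mul_of_nonneg_right W1 (by linarith)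
      have := mul_nonneg (show 0 ≤ Λ by linarith) ξ0
      linarith
    have w3 := hQ _ L1
    rw [div_le_iff₀ (by linarith), ← w5]
    refine w4.trans ?_
    calc _ ≤ CE * (CR * (2 * Λ) * (l ^ 3 * (N ^ 4 / V ^ 4 * n)) + Λ * N / V ^ 2 * n *
          (2 * (n * (CC * (l ^ 3 * (N ^ 2 / V ^ 2) * (2 * (Λ * (1 + ξ)))))))) := by
          refine mul_le_mul_of_nonneg_left (add_le_add (hP'.trans ?_) (mul_le_mul_of_nonneg_left
            (w6.trans (mul_le_mul_of_nonneg_left (w3.trans ?_) (by norm_num))) (by positivity)))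
            cE.le
          · gcongr
          · gcongr
      _ = _ := by ring
  have x0 : 0 ≤ l ^ 3 * (N ^ 4 / V ^ 4 * n) := by positivity
  have y0 : 0 ≤ l ^ 3 * (Λ * (1 + ξ) * N ^ 3 / V ^ 4 * n ^ 2) := by positivity
  rw [mul_add (l ^ 3)]
  generalize l ^ 3 * (N ^ 4 / V ^ 4 * n) = x at *
  generalize l ^ 3 * (Λ * (1 + ξ) * N ^ 3 / V ^ 4 * n ^ 2) = y at *
  have z1 : 0 ≤ CE * CC * x := by positivity
  have z2 : 0 ≤ CE * CR * y := by positivity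
  have z3 : 0 ≤ CC * (x + y) := by positivity
  linarith

end LV2

theorem lv2_of (hR : RegStmt) (hE : EnKStmt) (hC : CntStmt) (h4 : L4bStmt) (hB : B0Stmt) :
    LV2Stmt := by
  obtain ⟨CE, cE, hE⟩ := LV2.energy hR hE hC
  obtain ⟨CR, cR, hR, -⟩ := hR
  obtain ⟨A0, CB, cB, hB⟩ := hB
  obtain ⟨C4, c4, h4⟩ := h4 A0
  set κ : ℝ := (4 * CB) ^ 4 * (864 * (C4 * (1 + CE))) with hκ
  have κ0 : 0 ≤ κ := by positivity
  clear_value κ
  have c0 : 0 ≤ CR * (1 + κ + 4 * CB) := by positivity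
  refine ⟨1 + CE + 4 * CB + CR * (1 + κ + 4 * CB), by positivity,
    fun N β s M V Λ a U0 hN hM hβ hβ' ha hV hΛ hMΛ hΛ' hβΛ hU0 hW0 hD0 => ?_⟩
  have N1 : (1 : ℝ) ≤ N := by exact_mod_cast hN
  have sN : 1 ≤ Real.sqrt N := Real.one_le_sqrt.2 N1
  have hV1 : Real.sqrt N ≤ V := le_trans (le_mul_of_one_le_left (by linarith) (by linarith)) hV
  have hV2 : CE * Real.sqrt N ≤ V :=
    le_trans (mul_le_mul_of_nonneg_right (by linarith) (by linarith)) hV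
  have hV3 : 4 * CB ≤ V := le_trans ((le_mul_of_one_le_right (by linarith) sN).trans
    (mul_le_mul_of_nonneg_right (by linarith) (by linarith))) hV
  have V1 : 1 ≤ V := sN.trans hV1
  have V0 : 0 < V := by linarith
  have hV4 : (N : ℝ) ≤ V ^ 2 := by
    rw [← Real.sq_sqrt (show (0 : ℝ) ≤ N by linarith)]; gcongr
  have L1 : 1 ≤ N * M := one_le_mul_of_one_le_of_one_le N1 hM
  have Λ1 : 1 ≤ Λ := hM.trans hMΛ
  have lg := Real.log_nonneg L1
  obtain ⟨U, hUU, μ, μ1, μ2, hreg, hS0⟩ := hR U0 Λ (fun t => ‖Dsum N β a t‖) hU0 Λ1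
    fun _ => norm_nonneg _
  have hU := hU0.mono hUU
  have hW := hW0.mono hUU
  have hD : ∀ t ∈ U, V ≤ ‖Dsum N β a t‖ := fun t ht => hD0 t (hUU ht)
  obtain ⟨w, ε, hw, hε, hS⟩ := hB N β s M a U hN hM hβ (by linarith) ha hU hW
  replace hE := hE N β s M V Λ μ a U hN hM hβ hβ' ha hV2 hMΛ hΛ' μ1 μ2 hreg hU hW hD
  replace h4 := fun (m : ℕ) (m1 : 1 ≤ m) (m2 : (m : ℝ) ≤ 3 * M) =>
    h4 N m β s (N * M) Λ μ w ε U hN m1 hβ hβ' hw hε (le_trans (by
      have : (N : ℝ) * m ≤ 3 * N * M := by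
        linarith [mul_le_mul_of_nonneg_left m2 (show (0 : ℝ) ≤ N by linarith)]
      gcongr) hΛ) hβΛ hΛ' μ1 hU hW hreg
  have lΛ : Real.log Λ ≤ Real.log (N * M) := Real.log_le_log (by linarith) hΛ'
  set K := ⌈2 * M⌉₊ with hK
  have hK3 : (K : ℝ) ≤ 3 * M := (Nat.ceil_lt_add_one (by linarith)).le.trans (by linarith)
  have hK1 : (1 : ℝ) ≤ K := le_trans (by linarith) (Nat.le_ceil (2 * M))
  have lK0 := Real.log_nonneg hK1
  have lK : 1 + Real.log K ≤ 3 * (1 + Real.log (N * M)) := by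
    have e0 : M ≤ N * M := le_mul_of_one_le_left (by linarith) N1
    have e1 : Real.log K ≤ Real.log (3 * (N * M)) := Real.log_le_log (by linarith) (by linarith)
    have e2 := Real.log_le_sub_one_of_pos (show (0 : ℝ) < 3 by norm_num)
    rw [Real.log_mul (by norm_num) (by linarith)] at e1
    linarith
  set Z := Λ * (1 + Real.sqrt (N * M) / (β * max (N : ℝ) (V ^ 4 / N ^ 2))) with hZ
  have Z0 : 0 ≤ Z := by
    have : (0 : ℝ) < max (N : ℝ) (V ^ 4 / N ^ 2) := lt_max_of_lt_left (by linarith)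
    positivity
  clear_value Z
  set l := 1 + Real.log (N * M) with hl
  have l1 : 1 ≤ l := by linarith
  have l2 : 1 + Real.log Λ ≤ l := by linarith
  clear_value l
  set S := ∑ t ∈ U, ‖Dsum N β a t‖ with hSd
  set n : ℝ := (U.card : ℝ) with hn
  have n0 : 0 ≤ n := Nat.cast_nonneg _
  have hnS : n ≤ S / V := by
    rw [le_div_iff₀ V0]
    simpa [hn] using card_nsmul_le_sum U _ V hD
  have S0 : 0 ≤ S := sum_nonneg fun _ _ => norm_nonneg _
  clear_value S n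
  set t2 := (N : ℝ) ^ (11 / 4 : ℝ) * M ^ (3 / 4 : ℝ) / V ^ 2 with ht2
  set t3 := (N : ℝ) ^ (10 / 3 : ℝ) * M * Z ^ (1 / 3 : ℝ) / V ^ 3 with ht3
  have t10 : 0 ≤ (N : ℝ) ^ 2 / V := by positivity
  have t20 : 0 ≤ t2 := by positivity
  have t30 : 0 ≤ t3 := by positivity
  have pw : ∀ (x p : ℝ) (k j : ℕ), 0 ≤ x → p * k = j → (x ^ p) ^ k = x ^ j := fun x p k j hx e => by
    rw [← Real.rpow_mul_natCast hx, e, Real.rpow_natCast]
  have t24 : t2 ^ 4 = N ^ 11 * M ^ 3 / V ^ 8 := by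
    rw [ht2, div_pow, mul_pow, pw _ _ 4 11 (by linarith) (by norm_num),
      pw _ _ 4 3 (by linarith) (by norm_num), ← pow_mul]
  have t33 : t3 ^ 3 = N ^ 10 * M ^ 3 * Z / V ^ 9 := by
    rw [ht3, div_pow, mul_pow, mul_pow, pw _ _ 3 10 (by linarith) (by norm_num),
      pw _ _ 3 1 Z0 (by norm_num), ← pow_mul, pow_one]
  clear_value t2 t3
  have l4 : 1 ≤ l ^ 4 := one_le_pow₀ l1
  suffices hfin : S ≤ (1 + κ + 4 * CB) * l ^ 4 * (N ^ 2 / V + t2 + t3) by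
    calc _ ≤ CR * (1 + Real.log Λ) * S := hS0
      _ ≤ CR * l * ((1 + κ + 4 * CB) * l ^ 4 * (N ^ 2 / V + t2 + t3)) := by gcongr
      _ = CR * (1 + κ + 4 * CB) * (l ^ 5 * (N ^ 2 / V + t2 + t3)) := by ring
      _ ≤ _ := by gcongr; linarith
  rcases le_or_gt S (4 * CB * (N ^ 2 / V)) with hc | hc
  · refine hc.trans (mul_le_mul ?_ (by linarith) t10 (by positivity))
    exact le_trans (by linarith) (le_mul_of_one_le_right (by linarith) l4)
  have Sp : 0 < S := lt_of_le_of_lt (by positivity) hc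
  have hm : ∀ m ∈ Icc 1 K, ‖FM N β w ε U m‖ ^ 4 ≤
      C4 * (1 + CE) * (l ^ 4 * N ^ 3 * n ^ 3 * (N ^ 4 / V ^ 4 * n + Z * N ^ 3 / V ^ 4 * n ^ 2)) / m +
        C4 * (1 + CE) * n ^ 7 / (m : ℝ) ^ 4 := by
    intro m hm
    obtain ⟨m1, m2⟩ := mem_Icc.1 hm
    have m1' : (1 : ℝ) ≤ m := by exact_mod_cast m1
    have m2' : (m : ℝ) ≤ 3 * M := le_trans (by exact_mod_cast m2) hK3
    have e1 := hE m m1 m2'
    calc _ ≤ _ := h4 m m1 m2'
      _ ≤ C4 * (N ^ 4 * n ^ 3 * (l / (N * m) * ((1 + CE) *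
          (l ^ 3 * (N ^ 4 / V ^ 4 * n + Z * N ^ 3 / V ^ 4 * n ^ 2))) +
            (1 + CE) * (n ^ 4 / (N * m) ^ 4))) := by
          gcongr
          · exact e1.trans (by gcongr; linarith)
          · exact le_mul_of_one_le_left (by positivity) (by linarith)
      _ = _ := by field_simp
  have hX4 := LV2.sum4 K (fun m => ‖FM N β w ε U m‖) (by positivity) (by positivity)
    (fun _ => norm_nonneg _) hm
  set X := ∑ m ∈ Icc 1 K, ‖FM N β w ε U m‖ with hX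
  have X0 : 0 ≤ X := sum_nonneg fun _ _ => norm_nonneg _
  clear_value X
  have hSX : S ^ 2 ≤ 4 * CB * (N * X) := by
    have a1 : CB * (N ^ 2 * n) ≤ S ^ 2 / 4 := by
      calc _ ≤ CB * (N ^ 2 * (S / V)) := by gcongr
        _ = 4 * CB * (N ^ 2 / V) * S / 4 := by ring
        _ ≤ S * S / 4 := by gcongr
        _ = _ := by ring
    have a2 : CB * n ^ 2 ≤ S ^ 2 / 4 := by
      have b1 : 4 * CB ≤ V ^ 2 := hV3.trans (le_self_pow₀ V1 (by norm_num))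
      calc _ ≤ CB * (S / V) ^ 2 := by gcongr
        _ = 4 * CB * (S ^ 2 / 4) / V ^ 2 := by ring
        _ ≤ V ^ 2 * (S ^ 2 / 4) / V ^ 2 := by gcongr
        _ = _ := by field_simp
    have a3 : 0 ≤ CB * (N * X) := by positivity
    linarith
  have hN4 : (N : ℝ) ^ 4 / V ^ 7 ≤ N ^ 2 / V := by
    rw [div_le_div_iff₀ (by positivity) V0]
    calc (N : ℝ) ^ 4 * V = N ^ 2 * N ^ 2 * V * 1 := by ring
      _ ≤ N ^ 2 * (V ^ 2) ^ 2 * V * V ^ 2 := by gcongr; exact one_le_pow₀ V1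
      _ = _ := by ring
  have key : S ^ 8 ≤ κ * l ^ 4 * (t2 ^ 4 * S ^ 4 + t3 ^ 3 * S ^ 5 + N ^ 2 / V * S ^ 7) :=
    calc _ = (S ^ 2) ^ 4 := by ring
      _ ≤ (4 * CB * (N * X)) ^ 4 := by gcongr
      _ = (4 * CB) ^ 4 * N ^ 4 * X ^ 4 := by ring
      _ ≤ (4 * CB) ^ 4 * N ^ 4 * (8 * (4 * (3 * M) ^ 3 * (C4 * (1 + CE) * (l ^ 4 * N ^ 3 *
          (S / V) ^ 3 * (N ^ 4 / V ^ 4 * (S / V) + Z * N ^ 3 / V ^ 4 * (S / V) ^ 2))) +
            (3 * l) ^ 4 * (C4 * (1 + CE) * (S / V) ^ 7))) := by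
          refine mul_le_mul_of_nonneg_left (hX4.trans ?_) (by positivity)
          gcongr
      _ = κ * l ^ 4 * (t2 ^ 4 * S ^ 4 + t3 ^ 3 * S ^ 5 + 3 / 4 * (N ^ 4 / V ^ 7) * S ^ 7) := by
          rw [hκ, t24, t33]; field_simp; ring
      _ ≤ _ := by
          have : 0 ≤ (N : ℝ) ^ 4 / V ^ 7 := by positivity
          gcongr
          linarith
  refine (LV2.solve Sp (by positivity) t20 t30 t10 key).trans
    (mul_le_mul_of_nonneg_right ?_ (by positivity))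
  have := mul_nonneg cB.le (zero_le_one.trans l4)
  linarith

end Pool.Agent.MP_3d0d30_nt.Six
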