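import Pool.Agent.MP_3d0d30_nt.Six.Spec
import Mathlib.Analysis.Complex.ExponentialBounds
import Mathlib.RingTheory.PiTensorProduct
import Mathlib.NumberTheory.ArithmeticFunction.Misc

-- ======== part 0: formerly Pool.Agent.MP_3d0d30_nt.Six.Kern1
section MrgPart0

/-! Project SIX: the Fourier pair of the Cauchy and Laplace kernels. -/

set_option autoImplicit false

namespace Pool.Agent.MP_3d0d30_nt.Six.Kn

open MeasureTheory Finset Filter Set
open scoped ComplexConjugate FourierTransform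

theorem intExp {b : ℝ} (hb : 0 < b) :
    Integrable fun s : ℝ => Real.exp (-(2 * Real.pi * |s| / b)) := by
  have hp := Real.pi_pos
  have ha : 0 < 2 * Real.pi / b := by positivity
  rw [← integrableOn_univ, ← Iic_union_Ioi (a := (0 : ℝ)), integrableOn_union]
  constructor
  · refine (integrableOn_exp_mul_Iic ha 0).congr_fun (fun s hs => ?_) measurableSet_Iic
    simp only [abs_of_nonpos (mem_Iic.1 hs)]
    congr 1; ring
  · refine (integrableOn_exp_mul_Ioi (neg_lt_zero.2 ha) 0).congr_fun (fun s hs => ?_)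
      measurableSet_Ioi
    simp only [abs_of_pos (mem_Ioi.1 hs)]
    congr 1; ring

theorem int_mul_E {f : ℝ → ℝ} (hf : Integrable f) (θ : ℝ) :
    Integrable fun s : ℝ => (f s : ℂ) * E (s * θ) :=
  hf.ofReal.mul_bdd (c := 1) (by fun_prop) (Eventually.of_forall fun s => by simp)

theorem laplace {b : ℝ} (θ : ℝ) (hb : 0 < b) :
    ∫ s : ℝ, ((Real.exp (-(2 * Real.pi * |s| / b)) : ℝ) : ℂ) * E (s * θ) =
      ((b / Real.pi * ck (b * θ) : ℝ) : ℂ) := by
  have hp := Real.pi_pos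
  have ha : 0 < 2 * Real.pi / b := by positivity
  have hi := int_mul_E (intExp hb) θ
  rw [← intervalIntegral.integral_Iic_add_Ioi (b := 0) hi.integrableOn hi.integrableOn]
  set p : ℂ := ((2 * Real.pi / b : ℝ) : ℂ) + ((2 * Real.pi * θ : ℝ) : ℂ) * Complex.I with hpd
  set q : ℂ := -((2 * Real.pi / b : ℝ) : ℂ) + ((2 * Real.pi * θ : ℝ) : ℂ) * Complex.I with hqd
  have p1 : p.re = 2 * Real.pi / b := by
    simp only [hpd, Complex.add_re, Complex.ofReal_re, Complex.mul_re, Complex.I_re,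
      Complex.ofReal_im, Complex.I_im]; ring
  have q1 : q.re = -(2 * Real.pi / b) := by
    simp only [hqd, Complex.add_re, Complex.neg_re, Complex.ofReal_re, Complex.mul_re, Complex.I_re,
      Complex.ofReal_im, Complex.I_im]; ring
  have e1 : ∫ s in Iic (0 : ℝ), ((Real.exp (-(2 * Real.pi * |s| / b)) : ℝ) : ℂ) * E (s * θ) =
      ∫ s in Iic (0 : ℝ), Complex.exp (p * s) := by
    refine setIntegral_congr_fun measurableSet_Iic fun s hs => ?_
    simp only [abs_of_nonpos (mem_Iic.1 hs), E, Complex.ofReal_exp, ← Complex.exp_add, hpd]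
    congr 1; push_cast; ring
  have e2 : ∫ s in Ioi (0 : ℝ), ((Real.exp (-(2 * Real.pi * |s| / b)) : ℝ) : ℂ) * E (s * θ) =
      ∫ s in Ioi (0 : ℝ), Complex.exp (q * s) := by
    refine setIntegral_congr_fun measurableSet_Ioi fun s hs => ?_
    simp only [abs_of_pos (mem_Ioi.1 hs), E, Complex.ofReal_exp, ← Complex.exp_add, hqd]
    congr 1; push_cast; ring
  rw [e1, e2, integral_exp_mul_complex_Iic (by rw [p1]; exact ha),
    integral_exp_mul_complex_Ioi (by rw [q1]; linarith)]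
  have hp0 : p ≠ 0 := fun h => by rw [h] at p1; simp only [Complex.zero_re] at p1; linarith
  have hq0 : q ≠ 0 := fun h => by rw [h] at q1; simp only [Complex.zero_re] at q1; linarith
  have hb0 : (b : ℂ) ≠ 0 := by exact_mod_cast hb.ne'
  have hpi : (Real.pi : ℂ) ≠ 0 := by exact_mod_cast hp.ne'
  have hd : (1 + ((b : ℂ) * θ) ^ 2) ≠ 0 := by
    have : (0 : ℝ) < 1 + (b * θ) ^ 2 := by positivity
    exact_mod_cast this.ne'
  have hpq : p * q = -((2 * Real.pi / b) ^ 2 * (1 + ((b : ℂ) * θ) ^ 2)) := by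
    simp only [hpd, hqd]
    push_cast
    field_simp
    linear_combination (b : ℂ) ^ 2 * θ ^ 2 * Complex.I_sq
  have hd2 : q - p = -(2 * (2 * Real.pi / b)) := by
    simp only [hpd, hqd]; push_cast; ring
  simp only [Complex.ofReal_zero, mul_zero, Complex.exp_zero, ck]
  rw [neg_div, ← sub_eq_add_neg, div_sub_div _ _ hp0 hq0, one_mul, mul_one, hpq, hd2]
  push_cast
  field_simp

theorem intExp0 {b : ℝ} (hb : 0 < b) :
    ∫ s : ℝ, Real.exp (-(2 * Real.pi * |s| / b)) = b / Real.pi := by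
  have := laplace 0 hb
  simp only [mul_zero, E_zero, mul_one, ck_zero] at this
  rw [integral_complex_ofReal] at this
  exact_mod_cast this

theorem intExp1 {b : ℝ} (hb : 0 < b) :
    Integrable (fun s : ℝ => Real.exp (-(2 * Real.pi * |s| / b)) * |s|) ∧
      ∫ s : ℝ, Real.exp (-(2 * Real.pi * |s| / b)) * |s| ≤ b ^ 2 := by
  have hp := Real.pi_gt_three
  have hb2 : 0 < 2 * b := by linarith
  have key : ∀ s : ℝ, Real.exp (-(2 * Real.pi * |s| / b)) * |s| ≤
      b / Real.pi * Real.exp (-(2 * Real.pi * |s| / (2 * b))) := by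
    intro s
    have h1 : Real.pi * |s| / b ≤ Real.exp (Real.pi * |s| / b) := by
      linarith [Real.add_one_le_exp (Real.pi * |s| / b)]
    calc _ = Real.exp (-(2 * Real.pi * |s| / b)) * (b / Real.pi * (Real.pi * |s| / b)) := by
          field_simp
      _ ≤ Real.exp (-(2 * Real.pi * |s| / b)) * (b / Real.pi * Real.exp (Real.pi * |s| / b)) := by
          gcongr
      _ = b / Real.pi * (Real.exp (-(2 * Real.pi * |s| / b)) * Real.exp (Real.pi * |s| / b)) := by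
          ring
      _ = _ := by
          rw [← Real.exp_add]; congr 2; field_simp; ring
  have hi : Integrable (fun s : ℝ => Real.exp (-(2 * Real.pi * |s| / b)) * |s|) :=
    ((intExp hb2).const_mul (b / Real.pi)).mono' (by fun_prop)
      (Eventually.of_forall fun s => by rw [Real.norm_of_nonneg (by positivity)]; exact key s)
  refine ⟨hi, (integral_mono hi ((intExp hb2).const_mul (b / Real.pi)) key).trans ?_⟩
  rw [integral_const_mul, intExp0 hb2]
  rw [div_mul_div_comm, div_le_iff₀ (by positivity)]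
  have : 2 ≤ Real.pi * Real.pi := by nlinarith
  nlinarith [sq_nonneg b]

theorem cauchy {Λ : ℝ} (θ : ℝ) (hΛ : 0 < Λ) : ∫ s : ℝ, (ck (s / Λ) : ℂ) * E (s * θ) =
    ((Real.pi * Λ * Real.exp (-(2 * Real.pi * Λ * |θ|)) : ℝ) : ℂ) := by
  have hp := Real.pi_pos
  have hb : 0 < Λ⁻¹ := inv_pos.2 hΛ
  set f : ℝ → ℂ := fun s => ((Real.exp (-(2 * Real.pi * |s| / Λ⁻¹)) : ℝ) : ℂ) with hf
  have hF : 𝓕 f = fun w => ((Λ⁻¹ / Real.pi * ck (w / Λ) : ℝ) : ℂ) := by
    ext w
    rw [Real.fourier_real_eq_integral_exp_smul]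
    have := laplace (-w) hb
    rw [mul_neg, ck_neg, mul_comm Λ⁻¹ w, ← div_eq_mul_inv w] at this
    rw [← this]
    congr 1
    ext s
    rw [smul_eq_mul, mul_comm, E]
    congr 2
    push_cast
    ring
  have hc : Continuous f := by rw [hf]; fun_prop
  have hi : Integrable f := (intExp hb).ofReal
  have hi2 : Integrable (𝓕 f) := by
    rw [hF]; exact ((integrable_ck_div hΛ.ne').const_mul _).ofReal
  have h := congrFun (hc.fourierInv_fourier_eq hi hi2) θ
  rw [Real.fourierInv_eq', hF] at h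
  have e : ∀ s : ℝ, (ck (s / Λ) : ℂ) * E (s * θ) = (Real.pi * Λ : ℝ) *
      (Complex.exp (((2 * Real.pi * inner ℝ s θ : ℝ) : ℂ) * Complex.I) •
        ((Λ⁻¹ / Real.pi * ck (s / Λ) : ℝ) : ℂ)) := by
    intro s
    have h1 : (Λ : ℂ) ≠ 0 := by exact_mod_cast hΛ.ne'
    have h2 : (Real.pi : ℂ) ≠ 0 := by exact_mod_cast hp.ne'
    have h3 : Complex.exp (((2 * Real.pi * inner ℝ s θ : ℝ) : ℂ) * Complex.I) = E (s * θ) := by
      simp only [RCLike.inner_apply, conj_trivial, E]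
      congr 1; push_cast; ring
    rw [h3, smul_eq_mul]
    push_cast
    field_simp
  simp only [e]
  rw [integral_const_mul, h, hf, ← Complex.ofReal_mul]
  congr 3
  field_simp

/-- mean square against an integrable weight -/
theorem ms {ι : Type} {f : ℝ → ℝ} (hf : Integrable f) (S : Finset ι) (a : ι → ℂ) (θ : ι → ℝ) :
    ((∫ s : ℝ, f s * ‖∑ i ∈ S, a i * E (s * θ i)‖ ^ 2 : ℝ) : ℂ) =
      ∑ i ∈ S, ∑ j ∈ S, a i * conj (a j) * ∫ s : ℝ, (f s : ℂ) * E (s * (θ i - θ j)) := by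
  rw [← integral_complex_ofReal]
  have e : ∀ s : ℝ, ((f s * ‖∑ i ∈ S, a i * E (s * θ i)‖ ^ 2 : ℝ) : ℂ) =
      ∑ i ∈ S, ∑ j ∈ S, a i * conj (a j) * ((f s : ℂ) * E (s * (θ i - θ j))) := by
    intro s
    push_cast
    rw [← Complex.mul_conj', map_sum, sum_mul_sum, mul_sum]
    refine sum_congr rfl fun i _ => ?_
    rw [mul_sum]
    refine sum_congr rfl fun j _ => ?_
    rw [mul_sub, E_sub, map_mul]
    ring
  simp only [e]
  rw [integral_finsetSum _ fun i _ => integrable_finsetSum _ fun j _ =>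
    (int_mul_E hf _).const_mul _]
  refine sum_congr rfl fun i _ => ?_
  rw [integral_finsetSum _ fun j _ => (int_mul_E hf _).const_mul _]
  refine sum_congr rfl fun j _ => ?_
  rw [integral_const_mul]

theorem intms {ι : Type} {f : ℝ → ℝ} (hf : Integrable f) (S : Finset ι) (a : ι → ℂ) (θ : ι → ℝ) :
    Integrable fun s : ℝ => f s * ‖∑ i ∈ S, a i * E (s * θ i)‖ ^ 2 := by
  refine hf.mul_bdd (c := (∑ i ∈ S, ‖a i‖) ^ 2) (by fun_prop) (Eventually.of_forall fun s => ?_)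
  rw [Real.norm_of_nonneg (by positivity)]
  gcongr
  exact (norm_sum_le _ _).trans (by simp)

theorem msC {ι : Type} (S : Finset ι) (a : ι → ℂ) (θ : ι → ℝ) {Λ : ℝ} (hΛ : 0 < Λ) :
    ((∫ s : ℝ, ck (s / Λ) * ‖∑ i ∈ S, a i * E (s * θ i)‖ ^ 2 : ℝ) : ℂ) =
      Real.pi * Λ * ∑ i ∈ S, ∑ j ∈ S,
        a i * conj (a j) * ((Real.exp (-(2 * Real.pi * Λ * |θ i - θ j|)) : ℝ) : ℂ) := by
  rw [ms (integrable_ck_div hΛ.ne'), mul_sum]
  refine sum_congr rfl fun i _ => ?_
  rw [mul_sum]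
  refine sum_congr rfl fun j _ => ?_
  rw [cauchy _ hΛ]
  push_cast
  ring

theorem msL {ι : Type} (S : Finset ι) (a : ι → ℂ) (θ : ι → ℝ) {b : ℝ} (hb : 0 < b) :
    ((∫ s : ℝ, Real.exp (-(2 * Real.pi * |s| / b)) * ‖∑ i ∈ S, a i * E (s * θ i)‖ ^ 2 : ℝ) : ℂ) =
      b / Real.pi * ∑ i ∈ S, ∑ j ∈ S, a i * conj (a j) * ((ck (b * (θ i - θ j)) : ℝ) : ℂ) := by
  rw [ms (intExp hb), mul_sum]
  refine sum_congr rfl fun i _ => ?_
  rw [mul_sum]
  refine sum_congr rfl fun j _ => ?_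
  rw [laplace _ hb]
  push_cast
  ring

theorem jensen {f : ℝ → ℂ} (hc : Continuous f) {B : ℝ} (hB : ∀ s, ‖f s‖ ≤ B) :
    ‖∫ s : ℝ, (ck s : ℂ) * f s‖ ^ 2 ≤ Real.pi * ∫ s : ℝ, ck s * ‖f s‖ ^ 2 := by
  have hp := Real.pi_pos
  have i1 : Integrable fun s => ck s * ‖f s‖ :=
    integrable_ck.mul_bdd (c := B) (by fun_prop) (Eventually.of_forall fun s => by simpa using hB s)
  have i2 : Integrable fun s => ck s * ‖f s‖ ^ 2 :=
    integrable_ck.mul_bdd (c := B ^ 2) (by fun_prop) (Eventually.of_forall fun s => by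
      rw [Real.norm_of_nonneg (by positivity)]
      gcongr
      exact hB s)
  have h1 : ‖∫ s : ℝ, (ck s : ℂ) * f s‖ ≤ ∫ s, ck s * ‖f s‖ := by
    refine (norm_integral_le_integral_norm _).trans (le_of_eq ?_)
    congr 1
    ext s
    rw [norm_mul, Complex.norm_real, Real.norm_of_nonneg (ck_nonneg s)]
  set X := ∫ s, ck s * ‖f s‖
  set Y := ∫ s, ck s * ‖f s‖ ^ 2
  have h2 : 0 ≤ ∫ s, (ck s * ‖f s‖ ^ 2 - 2 * (X / Real.pi) * (ck s * ‖f s‖) +
      (X / Real.pi) ^ 2 * ck s) := integral_nonneg fun s => by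
    have := mul_nonneg (ck_nonneg s) (sq_nonneg (‖f s‖ - X / Real.pi))
    simp only [Pi.zero_apply]
    linarith
  have i3 : Integrable fun s => ck s * ‖f s‖ ^ 2 - 2 * (X / Real.pi) * (ck s * ‖f s‖) :=
    i2.sub (i1.const_mul _)
  rw [integral_add i3 (integrable_ck.const_mul _),
    integral_sub i2 (i1.const_mul _), integral_const_mul, integral_const_mul, integral_ck] at h2
  have h3 : X ^ 2 ≤ Real.pi * Y := by
    have e : Y - 2 * (X / Real.pi) * X + (X / Real.pi) ^ 2 * Real.pi = Y - X ^ 2 / Real.pi := by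
      field_simp; ring
    change 0 ≤ Y - 2 * (X / Real.pi) * X + (X / Real.pi) ^ 2 * Real.pi at h2
    rw [e, sub_nonneg, div_le_iff₀ hp] at h2
    linarith
  exact (pow_le_pow_left₀ (norm_nonneg _) h1 2).trans h3

theorem trick {ι : Type} (S : Finset ι) (a : ι → ℂ) (θ : ι → ℝ) (θ0 : ℝ) (h : ∀ i ∈ S, θ0 ≤ θ i) :
    ‖∑ i ∈ S, a i‖ ^ 2 ≤ 1 / Real.pi * ∫ s : ℝ, ck s *
      ‖∑ i ∈ S, a i * ((Real.exp (2 * Real.pi * (θ i - θ0)) : ℝ) : ℂ) * E (s * θ i)‖ ^ 2 := by
  have hp := Real.pi_pos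
  set f : ℝ → ℂ := fun s =>
    ∑ i ∈ S, a i * ((Real.exp (2 * Real.pi * (θ i - θ0)) : ℝ) : ℂ) * E (s * (θ i - θ0)) with hf
  have hn : ∀ s, ‖f s‖ =
      ‖∑ i ∈ S, a i * ((Real.exp (2 * Real.pi * (θ i - θ0)) : ℝ) : ℂ) * E (s * θ i)‖ := by
    intro s
    have : f s = (∑ i ∈ S, a i * ((Real.exp (2 * Real.pi * (θ i - θ0)) : ℝ) : ℂ) * E (s * θ i)) *
        conj (E (s * θ0)) := by
      rw [sum_mul]
      refine sum_congr rfl fun i _ => ?_
      rw [mul_sub s, E_sub]; ring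
    rw [this, norm_mul, Complex.norm_conj, norm_E, mul_one]
  have e : ∫ s : ℝ, (ck s : ℂ) * f s = Real.pi * ∑ i ∈ S, a i := by
    have e1 : ∀ s : ℝ, (ck s : ℂ) * f s = ∑ i ∈ S,
        a i * ((Real.exp (2 * Real.pi * (θ i - θ0)) : ℝ) : ℂ) *
          ((ck (s / 1) : ℂ) * E (s * (θ i - θ0))) := by
      intro s
      rw [hf, mul_sum, div_one]
      exact sum_congr rfl fun i _ => by ring
    simp only [e1]
    rw [integral_finsetSum _ fun i _ => (int_mul_E (integrable_ck_div one_ne_zero) _).const_mul _,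
      mul_sum]
    refine sum_congr rfl fun i hi => ?_
    rw [integral_const_mul, cauchy _ one_pos, abs_of_nonneg (sub_nonneg.2 (h i hi)), mul_assoc,
      ← Complex.ofReal_mul, mul_one, mul_one, mul_left_comm, ← Real.exp_add, add_neg_cancel,
      Real.exp_zero, mul_one, mul_comm]
  have hj := jensen (f := f) (by rw [hf]; fun_prop)
    (B := ∑ i ∈ S, ‖a i * ((Real.exp (2 * Real.pi * (θ i - θ0)) : ℝ) : ℂ)‖) fun s =>
      (norm_sum_le _ _).trans (sum_le_sum fun i _ => by rw [norm_mul, norm_E, mul_one])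
  rw [e, norm_mul, Complex.norm_real, Real.norm_of_nonneg hp.le, mul_pow] at hj
  simp only [hn] at hj
  rw [one_div, ← div_eq_inv_mul, le_div_iff₀ hp]
  nlinarith

end Pool.Agent.MP_3d0d30_nt.Six.Kn

end MrgPart0

-- ======== part 1: formerly Pool.Agent.MP_3d0d30_nt.Six.Kern
section MrgPart1

/-! Project SIX: sums of the Cauchy kernel over separated sets. -/

set_option autoImplicit false

namespace Pool.Agent.MP_3d0d30_nt.Six

open MeasureTheory Finset Filter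
open scoped ComplexConjugate

namespace Kn

theorem ck_le_three {a b : ℝ} (h : |a - b| ≤ 1) : ck a ≤ 3 * ck b := by
  unfold ck
  have h1 : (a - b) ^ 2 ≤ 1 := by rwa [sq_le_one_iff_abs_le_one]
  rw [mul_one_div, div_le_div_iff₀ (by positivity) (by positivity)]
  nlinarith [sq_nonneg (2 * a - b)]

theorem sepsumL (U : Finset ℝ) (Λ u : ℝ) (hU : Sep 1 U) (hΛ : 1 ≤ Λ) :
    ∑ t ∈ U, ck ((u - t) / Λ) ≤ 10 * Λ := by
  have hΛ0 : 0 < Λ := by linarith
  have hi : Integrable fun s : ℝ => ck ((u - s) / Λ) :=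
    (integrable_ck_div hΛ0.ne').comp_sub_left u
  have hI : ∫ s : ℝ, ck ((u - s) / Λ) = Real.pi * Λ := by
    rw [integral_sub_left_eq_self (fun s => ck (s / Λ)), integral_ck_div hΛ0]
  have h1 : ∀ t ∈ U, ck ((u - t) / Λ) ≤
      3 * ∫ s in Set.Ico (t - 1 / 2) (t + 1 / 2), ck ((u - s) / Λ) := by
    intro t _
    rw [← integral_const_mul]
    calc _ = ∫ _ in Set.Ico (t - 1 / 2) (t + 1 / 2), ck ((u - t) / Λ) := by
          rw [setIntegral_const, Real.volume_real_Ico_of_le (by linarith), smul_eq_mul]; ring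
      _ ≤ _ := by
          refine setIntegral_mono_on (integrableOn_const (by simp)) (hi.const_mul 3).integrableOn
            measurableSet_Ico fun s hs => ck_le_three ?_
          rw [← sub_div, abs_div, abs_of_pos hΛ0, div_le_one hΛ0, abs_le]
          constructor <;> linarith [hs.1, hs.2]
  refine (sum_le_sum h1).trans ?_
  rw [← mul_sum, ← integral_biUnion_finset U (fun _ _ => measurableSet_Ico) ?_
    fun _ _ => hi.integrableOn]
  · have h2 := setIntegral_le_integral (s := ⋃ t ∈ U, Set.Ico (t - 1 / 2) (t + 1 / 2)) hi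
      (Eventually.of_forall fun s => ck_nonneg _)
    rw [hI] at h2
    nlinarith [Real.pi_lt_d2]
  · intro s hs t ht hst
    have := hU s hs t ht hst
    rw [Function.onFun, Set.disjoint_left]
    intro x hx hx'
    rcases le_abs.1 this with h | h <;> linarith [hx.1, hx.2, hx'.1, hx'.2]

theorem sepsum (U : Finset ℝ) (u : ℝ) (hU : Sep 1 U) : ∑ t ∈ U, ck (u - t) ≤ 10 := by
  simpa using sepsumL U 1 u hU le_rfl

/-- pointwise splitting of a product of two kernels -/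
theorem split {Λ w a b : ℝ} (hΛ : 1 ≤ Λ) (hw : Λ < |w|) (h : |w| ≤ |a| + |b|) :
    ck (a / Λ) * ck b ≤ 4 * ck (w / Λ) * ck b + 8 / Λ ^ 2 * ck (w / Λ) * ck (a / Λ) := by
  have hΛ0 : 0 < Λ := by linarith
  have p1 := ck_nonneg b
  have p2 := ck_nonneg (a / Λ)
  have p3 := ck_nonneg (w / Λ)
  rcases le_total |b| |a| with hab | hab
  · have h1 : ck (a / Λ) ≤ 2 ^ 2 * ck (w / Λ) := ck_le_mul (by norm_num) (by
      rw [abs_div, abs_div, ← mul_div_assoc]
      gcongr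
      linarith)
    have h2 : 0 ≤ 8 / Λ ^ 2 * ck (w / Λ) * ck (a / Λ) := by positivity
    nlinarith
  · have hw0 : 0 < |w| := by linarith
    have h1 : ck b ≤ 8 / Λ ^ 2 * ck (w / Λ) := by
      have e1 : w ^ 2 ≤ 4 * b ^ 2 := by
        rw [← sq_abs w, ← sq_abs b]; nlinarith [abs_nonneg b]
      have e2 : Λ ^ 2 ≤ w ^ 2 := by rw [← sq_abs w]; gcongr
      unfold ck
      rw [div_mul_div_comm, div_pow, mul_add, mul_div_cancel₀ _ (by positivity),
        div_le_div_iff₀ (by positivity) (by positivity)]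
      nlinarith
    have h2 : 0 ≤ 4 * ck (w / Λ) * ck b := by positivity
    nlinarith

theorem two (U : Finset ℝ) (Λ σ u : ℝ) (hU : Sep 1 U) (hΛ : 1 ≤ Λ) :
    ∑ t ∈ U, ck ((σ - t) / Λ) * ck (u - t) ≤ 200 * ck ((u - σ) / Λ) := by
  have hΛ0 : 0 < Λ := by linarith
  have s1 := sepsum U u hU
  have s2 := sepsumL U Λ σ hU hΛ
  have p3 := ck_nonneg ((u - σ) / Λ)
  rcases le_or_gt |u - σ| Λ with hw | hw
  · have h1 : 1 / 2 ≤ ck ((u - σ) / Λ) :=
      half_le_ck (by rwa [abs_div, abs_of_pos hΛ0, div_le_one hΛ0])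
    have h2 : ∑ t ∈ U, ck ((σ - t) / Λ) * ck (u - t) ≤ ∑ t ∈ U, ck (u - t) :=
      sum_le_sum fun t _ => mul_le_of_le_one_left (ck_nonneg _) (ck_le_one _)
    linarith
  · refine (sum_le_sum fun t _ => split hΛ hw ?_).trans ?_
    · calc |u - σ| = |(u - t) - (σ - t)| := by ring_nf
        _ ≤ _ := by linarith [abs_sub (u - t) (σ - t)]
    · rw [sum_add_distrib, ← mul_sum, ← mul_sum]
      have h3 : 8 / Λ ^ 2 * (10 * Λ) ≤ 80 := by
        rw [div_mul_eq_mul_div, div_le_iff₀ (by positivity)]; nlinarith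
      calc _ ≤ 4 * ck ((u - σ) / Λ) * 10 + 8 / Λ ^ 2 * ck ((u - σ) / Λ) * (10 * Λ) := by gcongr
        _ = (40 + 8 / Λ ^ 2 * (10 * Λ)) * ck ((u - σ) / Λ) := by ring
        _ ≤ _ := by gcongr; linarith

theorem twoI (Λ τ : ℝ) (hΛ : 1 ≤ Λ) : ∫ w : ℝ, ck (w / Λ) * ck (τ + w) ≤ 200 * ck (τ / Λ) := by
  have hΛ0 : 0 < Λ := by linarith
  have i1 : Integrable fun w : ℝ => ck (τ + w) := integrable_ck.comp_add_left τ
  have i2 := integrable_ck_div hΛ0.ne'
  have i3 : Integrable fun w : ℝ => ck (w / Λ) * ck (τ + w) :=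
    i2.mul_bdd (c := 1) (by fun_prop) (Eventually.of_forall fun w => by
      rw [Real.norm_of_nonneg (ck_nonneg _)]; exact ck_le_one _)
  have s1 : ∫ w : ℝ, ck (τ + w) = Real.pi := by rw [integral_add_left_eq_self, integral_ck]
  have p3 := ck_nonneg (τ / Λ)
  have hp := Real.pi_lt_four
  have hp0 := Real.pi_pos
  rcases le_or_gt |τ| Λ with hw | hw
  · have h1 : 1 / 2 ≤ ck (τ / Λ) := half_le_ck (by rwa [abs_div, abs_of_pos hΛ0, div_le_one hΛ0])
    have h2 := integral_mono i3 i1 fun w => mul_le_of_le_one_left (ck_nonneg _) (ck_le_one _)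
    linarith
  · have h2 := integral_mono i3 ((i1.const_mul (4 * ck (τ / Λ))).add
      (i2.const_mul (8 / Λ ^ 2 * ck (τ / Λ)))) fun w => split (a := w) (b := τ + w) hΛ hw (by
        calc |τ| = |(τ + w) - w| := by ring_nf
          _ ≤ _ := by linarith [abs_sub (τ + w) w])
    refine h2.trans ?_
    simp only [Pi.add_apply]
    rw [integral_add (i1.const_mul _) (i2.const_mul _), integral_const_mul, integral_const_mul, s1,
      integral_ck_div hΛ0]
    have h3 : 8 / Λ ^ 2 * (Real.pi * Λ) ≤ 80 := by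
      rw [div_mul_eq_mul_div, div_le_iff₀ (by positivity)]; nlinarith
    calc _ = (4 * Real.pi + 8 / Λ ^ 2 * (Real.pi * Λ)) * ck (τ / Λ) := by ring
      _ ≤ _ := by gcongr; linarith

theorem sieve (U : Finset ℝ) (η : ℝ → ℂ) (hU : Sep 1 U) (hη : ∀ t, ‖η t‖ ≤ 1) :
    ∫ s in (-4 : ℝ)..4, ‖∑ t ∈ U, η t * E (s * t)‖ ^ 2 ≤ Real.exp 30 * U.card := by
  have hp := Real.pi_gt_three
  have hp' := Real.pi_lt_d2
  have i1 := intms (intExp one_pos) U η fun t => t
  have h1 := msL U η (fun t => t) one_pos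
  set F : ℝ → ℝ := fun s => ‖∑ t ∈ U, η t * E (s * t)‖ ^ 2 with hF
  have h2 : ∫ s : ℝ, Real.exp (-(2 * Real.pi * |s| / 1)) * F s ≤ 4 * U.card := by
    have h3 := congrArg norm h1
    rw [Complex.norm_real, norm_mul] at h3
    refine (le_abs_self _).trans (le_of_eq_of_le h3 ?_)
    have h4 : ‖((1 : ℝ) : ℂ) / Real.pi‖ ≤ 0.4 := by
      rw [norm_div, Complex.norm_real, Complex.norm_real, norm_one, Real.norm_of_nonneg (by linarith),
        div_le_iff₀ (by linarith)]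
      linarith
    have h5 : ‖∑ i ∈ U, ∑ j ∈ U, η i * conj (η j) * ((ck (1 * (i - j)) : ℝ) : ℂ)‖ ≤ 10 * U.card := by
      refine (norm_sum_le _ _).trans ?_
      calc _ ≤ ∑ _i ∈ U, (10 : ℝ) := sum_le_sum fun i _ => (norm_sum_le _ _).trans
            ((sum_le_sum fun j _ => ?_).trans (sepsum U i hU))
        _ = _ := by simp [mul_comm]
      rw [norm_mul, norm_mul, Complex.norm_conj, Complex.norm_real, one_mul,
        Real.norm_of_nonneg (ck_nonneg _)]
      exact mul_le_of_le_one_left (ck_nonneg _) (mul_le_one₀ (hη i) (norm_nonneg _) (hη j))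
    calc _ ≤ 0.4 * (10 * U.card : ℝ) := by gcongr
      _ = _ := by ring
  have hc : Continuous F := by rw [hF]; fun_prop
  rw [intervalIntegral.integral_of_le (by norm_num)]
  calc _ ≤ ∫ s in Set.Ioc (-4 : ℝ) 4, Real.exp 26 * (Real.exp (-(2 * Real.pi * |s| / 1)) * F s) := by
        refine setIntegral_mono_on (hc.integrableOn_Icc.mono_set Set.Ioc_subset_Icc_self)
          (i1.const_mul _).integrableOn measurableSet_Ioc fun s hs => ?_
        rw [← mul_assoc, ← Real.exp_add]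
        refine le_mul_of_one_le_left (by positivity) (Real.one_le_exp ?_)
        have : |s| ≤ 4 := abs_le.2 ⟨hs.1.le, hs.2⟩
        nlinarith [abs_nonneg s]
    _ ≤ ∫ s, Real.exp 26 * (Real.exp (-(2 * Real.pi * |s| / 1)) * F s) :=
        setIntegral_le_integral (i1.const_mul _) (Eventually.of_forall fun s => by positivity)
    _ ≤ Real.exp 26 * (4 * U.card) := by rw [integral_const_mul]; gcongr
    _ ≤ Real.exp 26 * (Real.exp 4 * U.card) := by gcongr; linarith [Real.add_one_le_exp 4]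
    _ = _ := by rw [← mul_assoc, ← Real.exp_add]; norm_num

theorem EE_eq (U : Finset ℝ) {Λ : ℝ} (hΛ : 0 < Λ) : EE U Λ = Real.pi * Λ *
    ∫ s : ℝ, Real.exp (-(2 * Real.pi * |s| / Λ⁻¹)) *
      ‖∑ p ∈ U ×ˢ U, (1 : ℂ) * E (s * (p.1 + p.2))‖ ^ 2 := by
  have h := msL (U ×ˢ U) (fun _ => (1 : ℂ)) (fun p => p.1 + p.2) (inv_pos.2 hΛ)
  have e : ∑ i ∈ U ×ˢ U, ∑ j ∈ U ×ˢ U, (1 : ℂ) * conj (1 : ℂ) *
      ((ck (Λ⁻¹ * (i.1 + i.2 - (j.1 + j.2))) : ℝ) : ℂ) = (EE U Λ : ℝ) := by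
    simp only [EE, sum_product, map_one, one_mul]
    push_cast
    refine sum_congr rfl fun _ _ => sum_congr rfl fun _ _ => sum_congr rfl fun _ _ =>
      sum_congr rfl fun _ _ => ?_
    congr 2
    field_simp
    ring
  rw [e] at h
  have h' : ∫ s : ℝ, Real.exp (-(2 * Real.pi * |s| / Λ⁻¹)) *
      ‖∑ p ∈ U ×ˢ U, (1 : ℂ) * E (s * (p.1 + p.2))‖ ^ 2 = Λ⁻¹ / Real.pi * EE U Λ := by
    exact_mod_cast h
  rw [h']
  have := Real.pi_pos
  field_simp

theorem escale (U : Finset ℝ) {Λ : ℝ} (hΛ : 1 ≤ Λ) : EE U Λ ≤ Λ * EE U 1 := by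
  have hΛ0 : 0 < Λ := by linarith
  have hp := Real.pi_pos
  rw [EE_eq U hΛ0, EE_eq U one_pos, mul_one, ← mul_assoc, mul_comm Λ]
  gcongr ?_ * ?_
  refine integral_mono (intms (intExp (inv_pos.2 hΛ0)) _ _ _) (intms (intExp (inv_pos.2 one_pos)) _ _ _)
    fun s => ?_
  simp only [div_inv_eq_mul]
  gcongr

theorem inv_le_sum (γ : ℝ) (J : ℕ) (h : |γ| ≤ 2 ^ J) :
    1 / (1 + |γ|) ≤ 4 * ∑ j ∈ range (J + 1), ck (γ / 2 ^ j) / 2 ^ j := by
  induction J with
  | zero =>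
    have h1 := half_le_ck (x := γ) (by simpa using h)
    have h2 : 1 / (1 + |γ|) ≤ 1 := by
      rw [div_le_one (by positivity)]; linarith [abs_nonneg γ]
    simp only [zero_add, range_one, sum_singleton, pow_zero, div_one]
    linarith
  | succ J ih =>
    rw [sum_range_succ]
    have h0 : 0 ≤ ∑ j ∈ range (J + 1), ck (γ / 2 ^ j) / 2 ^ j :=
      sum_nonneg fun j _ => div_nonneg (ck_nonneg _) (by positivity)
    rcases le_or_gt |γ| (2 ^ J) with h1 | h1
    · have := ih h1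
      have h2 : 0 ≤ ck (γ / 2 ^ (J + 1)) / 2 ^ (J + 1) := div_nonneg (ck_nonneg _) (by positivity)
      linarith
    · have h2 : 1 / 2 ≤ ck (γ / 2 ^ (J + 1)) := half_le_ck (by
        rwa [abs_div, abs_of_pos (by positivity : (0 : ℝ) < 2 ^ (J + 1)),
          div_le_one (by positivity)])
      have h3 : 1 / (1 + |γ|) ≤ 4 * ((1 / 2) / 2 ^ (J + 1)) := by
        calc _ ≤ 1 / (2 : ℝ) ^ J := by gcongr; linarith
          _ = _ := by rw [pow_succ]; field_simp; norm_num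
      have h4 : (1 / 2) / (2 : ℝ) ^ (J + 1) ≤ ck (γ / 2 ^ (J + 1)) / 2 ^ (J + 1) := by gcongr
      linarith

theorem elog (U : Finset ℝ) (s L : ℝ) (hL : 1 ≤ L) (hU : Win U s L) :
    ∑ t1 ∈ U, ∑ t2 ∈ U, ∑ t3 ∈ U, ∑ t4 ∈ U, 1 / (1 + |t1 + t2 - t3 - t4|) ≤
      20 * (1 + Real.log L) * EE U 1 := by
  obtain ⟨n, hn, hn'⟩ := exists_nat_pow_near (x := 2 * L) (y := (2 : ℝ)) (by linarith) one_lt_two
  have hlog : (n : ℝ) + 2 ≤ 5 * (1 + Real.log L) := by
    have h1 := Real.log_le_log (by positivity) hn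
    rw [Real.log_pow, Real.log_mul (by norm_num) (by linarith)] at h1
    have h2 := Real.log_two_gt_d9
    have h3 := Real.log_two_lt_d9
    have h4 := Real.log_nonneg hL
    have h5 : (0 : ℝ) ≤ n := n.cast_nonneg
    nlinarith
  calc _ ≤ ∑ t1 ∈ U, ∑ t2 ∈ U, ∑ t3 ∈ U, ∑ t4 ∈ U,
        4 * ∑ j ∈ range (n + 1 + 1), ck ((t1 + t2 - t3 - t4) / 2 ^ j) / 2 ^ j := by
        refine sum_le_sum fun t1 h1 => sum_le_sum fun t2 h2 => sum_le_sum fun t3 h3 =>
          sum_le_sum fun t4 h4 => inv_le_sum _ _ (le_trans ?_ hn'.le)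
        rw [abs_le]
        constructor <;>
          linarith [(hU t1 h1).1, (hU t1 h1).2, (hU t2 h2).1, (hU t2 h2).2, (hU t3 h3).1,
            (hU t3 h3).2, (hU t4 h4).1, (hU t4 h4).2]
    _ = 4 * ∑ j ∈ range (n + 1 + 1), EE U (2 ^ j) / 2 ^ j := by
        simp only [← mul_sum, EE, sum_div]
        congr 1
        rw [sum_comm (s := range (n + 1 + 1))]
        refine sum_congr rfl fun _ _ => ?_
        rw [sum_comm (s := range (n + 1 + 1))]
        refine sum_congr rfl fun _ _ => ?_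
        rw [sum_comm (s := range (n + 1 + 1))]
        refine sum_congr rfl fun _ _ => ?_
        rw [sum_comm (s := range (n + 1 + 1))]
    _ ≤ 4 * ∑ _j ∈ range (n + 1 + 1), EE U 1 := by
        gcongr with j
        rw [div_le_iff₀ (by positivity), mul_comm]
        exact escale U (one_le_pow₀ one_le_two)
    _ = 4 * (n + 2) * EE U 1 := by simp; ring
    _ ≤ _ := by
        have := EE_nonneg U 1
        nlinarith

end Kn

theorem kern : Kern where
  cauchy := fun _ θ h => Kn.cauchy θ h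
  laplace := fun _ θ h => Kn.laplace θ h
  intExp := fun _ h => Kn.intExp h
  intExp0 := fun _ h => Kn.intExp0 h
  intExp1 := fun _ h => Kn.intExp1 h
  intC := fun S a θ _ h => Kn.intms (integrable_ck_div h.ne') S a θ
  msC := fun S a θ _ h => Kn.msC S a θ h
  intL := fun S a θ _ h => Kn.intms (Kn.intExp h) S a θ
  msL := fun S a θ _ h => Kn.msL S a θ h
  trick := Kn.trick
  sepsum := Kn.sepsum
  sepsumL := Kn.sepsumL
  two := Kn.two
  twoI := Kn.twoI
  sieve := Kn.sieve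
  elog := Kn.elog

end Pool.Agent.MP_3d0d30_nt.Six

end MrgPart1

-- ======== part 2: formerly Pool.Agent.MP_3d0d30_nt.Six.NS
section MrgPart2

/-! Project SIX, module NS: oscillatory integrals. -/

set_option autoImplicit false

namespace Pool.Agent.MP_3d0d30_nt.Six

open MeasureTheory Set intervalIntegral

namespace NS

theorem hasDerivAt_inv {φ1 : ℝ → ℝ} {v y : ℝ} (h : HasDerivAt φ1 v y) (h0 : φ1 y ≠ 0) :
    HasDerivAt (fun y => (φ1 y)⁻¹) (-(v * (φ1 y)⁻¹ ^ 2)) y := by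
  refine (h.fun_inv h0).congr_deriv ?_
  field_simp

/-- one integration by parts -/
theorem ibp {a a1 : ℝ → ℂ} {φ φ1 φ2 : ℝ → ℝ} {α β : ℝ} (hab : α ≤ β)
    (ha : ∀ y ∈ Icc α β, HasDerivAt a (a1 y) y) (ca : ContinuousOn a1 (Icc α β))
    (hφ : ∀ y ∈ Icc α β, HasDerivAt φ (φ1 y) y ∧ HasDerivAt φ1 (φ2 y) y ∧ φ1 y ≠ 0)
    (cφ : ContinuousOn φ2 (Icc α β)) :
    ‖∫ y in α..β, a y * E (φ y)‖ ≤ ‖a α‖ * |(φ1 α)⁻¹| + ‖a β‖ * |(φ1 β)⁻¹| +
      ‖∫ y in α..β, (a1 y * ((φ1 y)⁻¹ : ℝ) - a y * (φ2 y * (φ1 y)⁻¹ ^ 2 : ℝ)) * E (φ y)‖ := by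
  have c0 : ContinuousOn a (Icc α β) := fun y hy => (ha y hy).continuousAt.continuousWithinAt
  have c1 : ContinuousOn φ (Icc α β) := fun y hy => (hφ y hy).1.continuousAt.continuousWithinAt
  have c2 : ContinuousOn (fun y => (φ1 y)⁻¹) (Icc α β) := fun y hy =>
    (hasDerivAt_inv (hφ y hy).2.1 (hφ y hy).2.2).continuousAt.continuousWithinAt
  have c3 : ContinuousOn (fun y => E (φ y)) (Icc α β) := continuous_E.comp_continuousOn c1
  have i1 : IntervalIntegrable (fun y => a y * E (φ y)) volume α β :=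
    (c0.mul c3).intervalIntegrable_of_Icc hab
  have i2 : IntervalIntegrable (fun y =>
      (a1 y * ((φ1 y)⁻¹ : ℝ) - a y * (φ2 y * (φ1 y)⁻¹ ^ 2 : ℝ)) * E (φ y)) volume α β :=
    (((ca.mul (Complex.continuous_ofReal.comp_continuousOn c2)).sub (c0.mul
      (Complex.continuous_ofReal.comp_continuousOn (cφ.mul (c2.pow 2))))).mul
        c3).intervalIntegrable_of_Icc hab
  have h := integral_eq_sub_of_hasDerivAt (f := fun y => a y * ((φ1 y)⁻¹ : ℝ) * E (φ y))
    (fun y hy => by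
      rw [uIcc_of_le hab] at hy
      obtain ⟨h1, h2, h3⟩ := hφ y hy
      have h4 : (φ1 y : ℂ) ≠ 0 := by exact_mod_cast h3
      refine (((ha y hy).fun_mul (hasDerivAt_inv h2 h3).ofReal_comp).fun_mul
        (hasDerivAt_E_comp h1)).congr_deriv ?_
      push_cast
      field_simp
      ring) (i2.add (i1.const_mul (2 * Real.pi * Complex.I)))
  rw [integral_add i2 (i1.const_mul _), intervalIntegral.integral_const_mul] at h
  have h1 : 1 ≤ ‖(2 * Real.pi * Complex.I : ℂ)‖ := by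
    simp only [norm_mul, Complex.norm_I, Complex.norm_real, Real.norm_eq_abs, Complex.norm_ofNat,
      abs_of_pos Real.pi_pos]
    linarith [Real.pi_gt_three]
  refine (le_mul_of_one_le_left (norm_nonneg _) h1).trans ?_
  rw [← norm_mul, eq_sub_of_add_eq' h]
  refine (norm_sub_le _ _).trans (add_le_add_left ((norm_sub_le _ _).trans_eq ?_) _)
  simp only [norm_mul, norm_E, Complex.norm_real, Real.norm_eq_abs, mul_one]
  ring

theorem first {a a1 : ℝ → ℂ} {φ φ1 φ2 : ℝ → ℝ} {α β A A1 μ σ : ℝ} (hab : α ≤ β) (hμ : 0 < μ)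
    (ha : ∀ y ∈ Icc α β, HasDerivAt a (a1 y) y ∧ ‖a y‖ ≤ A ∧ ‖a1 y‖ ≤ A1)
    (ca : ContinuousOn a1 (Icc α β))
    (hφ : ∀ y ∈ Icc α β, HasDerivAt φ (φ1 y) y ∧ HasDerivAt φ1 (φ2 y) y ∧ μ ≤ |φ1 y|)
    (cφ : ContinuousOn φ2 (Icc α β)) (hσ : |σ| = 1) (hs : ∀ y ∈ Icc α β, |φ2 y| = σ * φ2 y) :
    ‖∫ y in α..β, a y * E (φ y)‖ ≤ 4 * ((A + (β - α) * A1) / μ) := by
  have h0 : ∀ y ∈ Icc α β, φ1 y ≠ 0 := fun y hy h => by
    have := (hφ y hy).2.2
    rw [h, abs_zero] at this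
    linarith
  have hq : ∀ y ∈ Icc α β, |(φ1 y)⁻¹| ≤ μ⁻¹ := fun y hy => by
    rw [abs_inv]
    exact inv_anti₀ hμ (hφ y hy).2.2
  have m1 : α ∈ Icc α β := left_mem_Icc.2 hab
  have m2 : β ∈ Icc α β := right_mem_Icc.2 hab
  have hA : 0 ≤ A := (norm_nonneg _).trans (ha α m1).2.1
  have hA1 : 0 ≤ A1 := (norm_nonneg _).trans (ha α m1).2.2
  have c2 : ContinuousOn (fun y => (φ1 y)⁻¹) (Icc α β) := fun y hy =>
    (hasDerivAt_inv (hφ y hy).2.1 (h0 y hy)).continuousAt.continuousWithinAt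
  have i1 : IntervalIntegrable (fun y => -(φ2 y * (φ1 y)⁻¹ ^ 2)) volume α β :=
    (cφ.mul (c2.pow 2)).neg.intervalIntegrable_of_Icc hab
  have e1 := integral_eq_sub_of_hasDerivAt (f := fun y => (φ1 y)⁻¹) (fun y hy => by
    rw [uIcc_of_le hab] at hy
    exact hasDerivAt_inv (hφ y hy).2.1 (h0 y hy)) i1
  have b1 : ‖∫ y in α..β, (a1 y * ((φ1 y)⁻¹ : ℝ) - a y * (φ2 y * (φ1 y)⁻¹ ^ 2 : ℝ)) * E (φ y)‖ ≤
      ∫ y in α..β, (A1 * μ⁻¹ + -(A * σ) * -(φ2 y * (φ1 y)⁻¹ ^ 2)) := by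
    refine norm_integral_le_of_norm_le hab (ae_of_all _ fun y hy => ?_)
      (intervalIntegrable_const.add (i1.const_mul _))
    have hy' : y ∈ Icc α β := Ioc_subset_Icc_self hy
    rw [norm_mul, norm_E, mul_one]
    refine (norm_sub_le _ _).trans ?_
    rw [norm_mul, norm_mul, Complex.norm_real, Complex.norm_real, Real.norm_eq_abs,
      Real.norm_eq_abs, abs_mul, hs y hy', abs_of_nonneg (sq_nonneg (φ1 y)⁻¹)]
    have k1 : 0 ≤ σ * φ2 y * (φ1 y)⁻¹ ^ 2 := by rw [← hs y hy']; positivity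
    have k2 := mul_le_mul_of_nonneg_right (ha y hy').2.1 k1
    have k3 := mul_le_mul (ha y hy').2.2 (hq y hy') (abs_nonneg _) hA1
    linarith
  rw [integral_add intervalIntegrable_const (i1.const_mul _),
    intervalIntegral.integral_const, intervalIntegral.integral_const_mul, e1, smul_eq_mul] at b1
  have b2 : -(A * σ) * ((φ1 β)⁻¹ - (φ1 α)⁻¹) ≤ A * (μ⁻¹ + μ⁻¹) := by
    refine (le_abs_self _).trans ?_
    rw [abs_mul, abs_neg, abs_mul, hσ, mul_one, abs_of_nonneg hA]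
    gcongr
    exact (abs_sub _ _).trans (add_le_add (hq β m2) (hq α m1))
  have b3 := mul_le_mul (ha α m1).2.1 (hq α m1) (abs_nonneg _) hA
  have b4 := mul_le_mul (ha β m2).2.1 (hq β m2) (abs_nonneg _) hA
  have b5 : 0 ≤ (β - α) * (A1 * μ⁻¹) := mul_nonneg (by linarith) (by positivity)
  refine (ibp hab (fun y hy => (ha y hy).1) ca
    (fun y hy => ⟨(hφ y hy).1, (hφ y hy).2.1, h0 y hy⟩) cφ).trans ?_
  rw [div_eq_mul_inv]
  nlinarith

theorem split {ψ : ℝ → ℝ} {α β : ℝ} (hab : α ≤ β) (hc : ContinuousOn ψ (Icc α β))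
    (hm : MonotoneOn ψ (Icc α β)) (v : ℝ) : ∃ c ∈ Icc α β,
      (α = c ∨ ∀ y ∈ Icc α c, ψ y ≤ v) ∧ (c = β ∨ ∀ y ∈ Icc c β, v ≤ ψ y) := by
  have m1 : α ∈ Icc α β := left_mem_Icc.2 hab
  have m2 : β ∈ Icc α β := right_mem_Icc.2 hab
  rcases le_total v (ψ α) with h1 | h1
  · exact ⟨α, m1, Or.inl rfl, Or.inr fun y hy => h1.trans (hm m1 hy hy.1)⟩
  rcases le_total (ψ β) v with h2 | h2
  · exact ⟨β, m2, Or.inr fun y hy => (hm hy m2 hy.2).trans h2, Or.inl rfl⟩
  obtain ⟨c, hc1, hc2⟩ := intermediate_value_Icc hab hc ⟨h1, h2⟩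
  exact ⟨c, hc1, Or.inr fun y hy => hc2 ▸ hm ⟨hy.1, hy.2.trans hc1.2⟩ hc1 hy.2,
    Or.inr fun y hy => hc2 ▸ hm hc1 ⟨hc1.1.trans hy.1, hy.2⟩ hy.1⟩

theorem second {a a1 : ℝ → ℂ} {φ φ1 φ2 : ℝ → ℝ} {α β A A1 κ σ : ℝ} (hab : α ≤ β) (hκ : 0 < κ)
    (ha : ∀ y ∈ Icc α β, HasDerivAt a (a1 y) y ∧ ‖a y‖ ≤ A ∧ ‖a1 y‖ ≤ A1)
    (ca : ContinuousOn a1 (Icc α β))
    (hφ : ∀ y ∈ Icc α β, HasDerivAt φ (φ1 y) y ∧ HasDerivAt φ1 (φ2 y) y)
    (cφ : ContinuousOn φ2 (Icc α β)) (hσ : σ = 1 ∨ σ = -1) (hs : ∀ y ∈ Icc α β, κ ≤ σ * φ2 y) :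
    ‖∫ y in α..β, a y * E (φ y)‖ ≤ 10 * ((A + (β - α) * A1) / Real.sqrt κ) := by
  set r := Real.sqrt κ with hr
  have hr0 : 0 < r := Real.sqrt_pos.2 hκ
  have hrr : r * r = κ := Real.mul_self_sqrt hκ.le
  have m1 : α ∈ Icc α β := left_mem_Icc.2 hab
  have hA : 0 ≤ A := (norm_nonneg _).trans (ha α m1).2.1
  have hA1 : 0 ≤ A1 := (norm_nonneg _).trans (ha α m1).2.2
  have hσ1 : |σ| = 1 := by rcases hσ with rfl | rfl <;> simp
  have habs : ∀ x : ℝ, |σ * x| = |x| := fun x => by rw [abs_mul, hσ1, one_mul]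
  have hB : 0 ≤ (A + (β - α) * A1) / r := by
    have : 0 ≤ β - α := by linarith
    positivity
  have piece : ∀ c d, α ≤ c → c ≤ d → d ≤ β → (c = d ∨ ∀ y ∈ Icc c d, r ≤ |σ * φ1 y|) →
      ‖∫ y in c..d, a y * E (φ y)‖ ≤ 4 * ((A + (β - α) * A1) / r) := fun c d h1 h2 h3 h => by
    rcases h with rfl | h
    · simpa using hB
    have hs' : Icc c d ⊆ Icc α β := Icc_subset_Icc h1 h3
    refine (first h2 hr0 (fun y hy => ha y (hs' hy)) (ca.mono hs')
      (fun y hy => ⟨(hφ y (hs' hy)).1, (hφ y (hs' hy)).2, habs _ ▸ h y hy⟩) (cφ.mono hs') hσ1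
      fun y hy => by rw [← habs, abs_of_nonneg (hκ.le.trans (hs y (hs' hy)))]).trans ?_
    gcongr
  have hψ : ∀ y ∈ Icc α β, HasDerivAt (fun y => σ * φ1 y) (σ * φ2 y) y := fun y hy =>
    (hφ y hy).2.const_mul σ
  have cψ : ContinuousOn (fun y => σ * φ1 y) (Icc α β) := fun y hy =>
    (hψ y hy).continuousAt.continuousWithinAt
  have inc : ∀ x ∈ Icc α β, ∀ y ∈ Icc α β, x ≤ y → κ * (y - x) ≤ σ * φ1 y - σ * φ1 x :=
    (convex_Icc α β).mul_sub_le_image_sub_of_le_deriv cψ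
      (fun y hy => (hψ y (interior_subset hy)).differentiableAt.differentiableWithinAt)
      fun y hy => by rw [(hψ y (interior_subset hy)).deriv]; exact hs y (interior_subset hy)
  have mono : MonotoneOn (fun y => σ * φ1 y) (Icc α β) := fun x hx y hy hxy => by
    have := inc x hx y hy hxy
    have : 0 ≤ κ * (y - x) := mul_nonneg hκ.le (by linarith)
    simp only
    linarith
  obtain ⟨c, hc, c1, c2⟩ := split hab cψ mono (-r)
  have hs' : Icc c β ⊆ Icc α β := Icc_subset_Icc hc.1 le_rfl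
  obtain ⟨d, hd, d1, d2⟩ := split hc.2 (cψ.mono hs') (mono.mono hs') r
  have p1 := piece α c le_rfl hc.1 hc.2
    (c1.imp id fun h y hy => le_abs.2 (Or.inr (by linarith [h y hy])))
  have p2 := piece d β (hc.1.trans hd.1) hd.2 le_rfl
    (d2.imp id fun h y hy => le_abs.2 (Or.inl (h y hy)))
  have p3 : d - c ≤ 2 / r := by
    have h2 : 0 ≤ 2 / r := by positivity
    rcases c2 with h | h
    · linarith [hd.2]
    rcases d1 with h' | h'
    · linarith
    have e1 := h c (left_mem_Icc.2 hc.2)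
    have e2 := h' d (right_mem_Icc.2 hd.1)
    have e3 := inc c hc d (hs' hd) hd.1
    rw [le_div_iff₀ hr0]
    refine le_of_mul_le_mul_left ?_ hr0
    nlinarith
  have p4 : ‖∫ y in c..d, a y * E (φ y)‖ ≤ 2 * ((A + (β - α) * A1) / r) := by
    refine (intervalIntegral.norm_integral_le_of_norm_le_const (C := A) fun y hy => ?_).trans ?_
    · rw [uIoc_of_le hd.1] at hy
      rw [norm_mul, norm_E, mul_one]
      exact (ha y ⟨hc.1.trans hy.1.le, hy.2.trans hd.2⟩).2.1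
    · have : 0 ≤ (β - α) * A1 := mul_nonneg (by linarith) hA1
      rw [abs_of_nonneg (by linarith [hd.1])]
      calc _ ≤ (A + (β - α) * A1) * (2 / r) := by gcongr <;> linarith [hd.1]
        _ = _ := by ring
  have ii : ∀ c d, α ≤ c → c ≤ d → d ≤ β →
      IntervalIntegrable (fun y => a y * E (φ y)) volume c d := fun c d h1 h2 h3 =>
    ContinuousOn.intervalIntegrable_of_Icc h2 fun y hy =>
      ((ha y (Icc_subset_Icc h1 h3 hy)).1.mul
        (hasDerivAt_E_comp (hφ y (Icc_subset_Icc h1 h3 hy)).1)).continuousAt.continuousWithinAt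
  rw [← integral_add_adjacent_intervals (ii α c le_rfl hc.1 hc.2) (ii c β hc.1 hc.2 le_rfl),
    ← integral_add_adjacent_intervals (ii c d hc.1 hd.1 hd.2)
      (ii d β (hc.1.trans hd.1) hd.2 le_rfl)]
  refine (norm_add_le _ _).trans ((add_le_add_right (norm_add_le _ _) _).trans ?_)
  linarith

theorem amp {a a1 a2 : ℂ} {q u v A l μ : ℝ} (hl : 0 < l) (hμ : 0 < μ) (b0 : ‖a‖ ≤ A)
    (b1 : ‖a1‖ ≤ A / l) (b2 : ‖a2‖ ≤ A / l ^ 2) (k0 : |q| ≤ μ⁻¹) (k2 : |u| ≤ μ / l)
    (k3 : |v| ≤ μ / l ^ 2) :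
    ‖(a2 * (q : ℝ) - a1 * (2 * u * q ^ 2 : ℝ) - a * (v * q ^ 2 - 2 * u ^ 2 * q ^ 3 : ℝ)) * (q : ℝ) -
      (a1 * (q : ℝ) - a * (u * q ^ 2 : ℝ)) * (u * q ^ 2 : ℝ)‖ ≤ 8 * (A / (μ * l) ^ 2) := by
  have hA : 0 ≤ A := (norm_nonneg _).trans b0
  have e : (a2 * (q : ℝ) - a1 * (2 * u * q ^ 2 : ℝ) -
      a * (v * q ^ 2 - 2 * u ^ 2 * q ^ 3 : ℝ)) * (q : ℝ) -
      (a1 * (q : ℝ) - a * (u * q ^ 2 : ℝ)) * (u * q ^ 2 : ℝ) =
      a2 * q ^ 2 - 3 * (a1 * u * q ^ 3) - a * v * q ^ 3 + 3 * (a * u ^ 2 * q ^ 4) := by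
    push_cast
    ring
  rw [e]
  refine (norm_add_le _ _).trans ((add_le_add_left ((norm_sub_le _ _).trans
    (add_le_add_left (norm_sub_le _ _) _)) _).trans ?_)
  simp only [norm_mul, norm_pow, Complex.norm_real, Real.norm_eq_abs, Complex.norm_ofNat]
  calc _ ≤ A / l ^ 2 * μ⁻¹ ^ 2 + 3 * (A / l * (μ / l) * μ⁻¹ ^ 3) + A * (μ / l ^ 2) * μ⁻¹ ^ 3 +
        3 * (A * (μ / l) ^ 2 * μ⁻¹ ^ 4) := by gcongr
    _ = _ := by field_simp; ring

end NS

open NS

theorem firstder : FirstDerStmt := by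
  refine ⟨4, by norm_num, fun a a1 φ φ1 φ2 α β A A1 μ hab hμ ha ca hφ cφ hs => ?_⟩
  rcases hs with hs | hs
  · exact first (σ := 1) hab hμ ha ca hφ cφ abs_one fun y hy => by
      rw [abs_of_nonneg (hs y hy), one_mul]
  · exact first (σ := -1) hab hμ ha ca hφ cφ (by simp) fun y hy => by
      rw [abs_of_nonpos (hs y hy), neg_one_mul]

theorem secder : SecDerStmt := by
  refine ⟨10, by norm_num, fun a a1 φ φ1 φ2 α β A A1 κ hab hκ ha ca hφ cφ hs => ?_⟩
  rcases hs with hs | hs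
  · exact second hab hκ ha ca hφ cφ (Or.inl rfl) fun y hy => by linarith [hs y hy]
  · exact second hab hκ ha ca hφ cφ (Or.inr rfl) fun y hy => by linarith [hs y hy]

theorem nonstat : NonStatStmt := by
  refine ⟨8, by norm_num, fun a φ φ1 φ2 φ3 α β l A μ hab hl hμ ⟨a1, a2, h, e1, e2, e3, e4⟩ hφ
    c3 => ?_⟩
  have h0 : ∀ y ∈ Icc α β, φ1 y ≠ 0 := fun y hy h => by
    have := (hφ y hy).2.2.2.1
    rw [h, abs_zero] at this
    linarith
  have hq := fun y (hy : y ∈ Icc α β) => hasDerivAt_inv (hφ y hy).2.1 (h0 y hy)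
  have ca : ContinuousOn a (Icc α β) := fun y hy => (h.d1 y hy).continuousAt.continuousWithinAt
  have ca1 : ContinuousOn a1 (Icc α β) := fun y hy => (h.d2 y hy).continuousAt.continuousWithinAt
  have ca2 := h.cont
  have c1 : ContinuousOn φ1 (Icc α β) := fun y hy =>
    (hφ y hy).2.1.continuousAt.continuousWithinAt
  have c2 : ContinuousOn φ2 (Icc α β) := fun y hy =>
    (hφ y hy).2.2.1.continuousAt.continuousWithinAt
  have s1 := ibp hab h.d1 ca1 (fun y hy => ⟨(hφ y hy).1, (hφ y hy).2.1, h0 y hy⟩) c2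
  have s2 := ibp (a := fun y => a1 y * ((φ1 y)⁻¹ : ℝ) - a y * (φ2 y * (φ1 y)⁻¹ ^ 2 : ℝ))
    (a1 := fun y => a2 y * ((φ1 y)⁻¹ : ℝ) - a1 y * (2 * φ2 y * (φ1 y)⁻¹ ^ 2 : ℝ) -
      a y * (φ3 y * (φ1 y)⁻¹ ^ 2 - 2 * φ2 y ^ 2 * (φ1 y)⁻¹ ^ 3 : ℝ)) hab
    (fun y hy => by
      refine (((h.d2 y hy).fun_mul (hq y hy).ofReal_comp).fun_sub ((h.d1 y hy).fun_mul
        ((hφ y hy).2.2.1.fun_mul ((hq y hy).fun_pow 2)).ofReal_comp)).congr_deriv ?_
      push_cast
      ring)
    (by fun_prop (disch := exact h0))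
    (fun y hy => ⟨(hφ y hy).1, (hφ y hy).2.1, h0 y hy⟩) c2
  simp only [e1, e2, e3, e4, norm_zero, zero_mul, zero_add, sub_zero] at s1 s2
  refine s1.trans (s2.trans ((intervalIntegral.norm_integral_le_of_norm_le_const
    (C := 8 * (A / (μ * l) ^ 2)) fun y hy => ?_).trans_eq
      (by rw [abs_of_nonneg (by linarith)]; ring)))
  rw [uIoc_of_le hab] at hy
  have hy' : y ∈ Icc α β := Ioc_subset_Icc_self hy
  obtain ⟨-, -, -, k1, k2, k3⟩ := hφ y hy'
  have k0 : |(φ1 y)⁻¹| ≤ μ⁻¹ := by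
    rw [abs_inv]
    exact inv_anti₀ hμ k1
  rw [norm_mul, norm_E, mul_one]
  exact amp hl hμ (h.b0 y hy') (h.b1 y hy') (h.b2 y hy') k0 k2 k3

end Pool.Agent.MP_3d0d30_nt.Six

end MrgPart2

-- ======== part 3: formerly Pool.Agent.MP_3d0d30_nt.Six.Small
section MrgPart3

/-! Project SIX: Poisson summation and the divisor bound. -/

set_option autoImplicit false

namespace Pool.Agent.MP_3d0d30_nt.Six

open MeasureTheory Finset Filter
open scoped ComplexConjugate FourierTransform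

namespace Small

/-- the continuous extension by zero -/
noncomputable def ext0 (g : ℝ → ℂ) (α β : ℝ) (y : ℝ) : ℂ := g (max α (min y β))

theorem ext0_cont {g : ℝ → ℂ} {α β : ℝ} (hab : α ≤ β) (hg : ContinuousOn g (Set.Icc α β)) :
    Continuous (ext0 g α β) := by
  unfold ext0
  refine hg.comp_continuous (by fun_prop) fun y => ⟨le_max_left _ _, ?_⟩
  exact max_le hab (min_le_right _ _)

theorem ext0_in {g : ℝ → ℂ} {α β y : ℝ} (hy : y ∈ Set.Icc α β) : ext0 g α β y = g y := by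
  unfold ext0
  rw [min_eq_left hy.2, max_eq_right hy.1]

theorem ext0_out {g : ℝ → ℂ} {α β y : ℝ} (hab : α ≤ β) (h1 : g α = 0) (h2 : g β = 0)
    (hy : y ∉ Set.Icc α β) : ext0 g α β y = 0 := by
  unfold ext0
  rw [Set.mem_Icc, not_and_or, not_le, not_le] at hy
  rcases hy with hy | hy
  · rw [max_eq_left ((min_le_left _ _).trans hy.le), h1]
  · rw [min_eq_right hy.le, max_eq_right hab, h2]

theorem fourier_ext0 {g : ℝ → ℂ} {α β h : ℝ} (hab : α ≤ β) (hh : 0 < h) (h1 : g α = 0)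
    (h2 : g β = 0) (w : ℝ) :
    𝓕 (fun x : ℝ => ext0 g α β (x / h)) w = h * ∫ y in α..β, g y * E (h * (-w) * y) := by
  rw [Real.fourier_real_eq_integral_exp_smul]
  have e1 : (fun v : ℝ => Complex.exp (((-2 * Real.pi * v * w : ℝ) : ℂ) * Complex.I) •
      ext0 g α β (v / h)) =
      fun v : ℝ => (fun y : ℝ => ext0 g α β y * E (h * (-w) * y)) (v / h) := by
    ext v
    simp only [smul_eq_mul, E]
    rw [mul_comm]
    congr 2
    have : (h : ℂ) ≠ 0 := by exact_mod_cast hh.ne'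
    push_cast
    field_simp
  rw [e1, Measure.integral_comp_div (fun y : ℝ => ext0 g α β y * E (h * (-w) * y)) h,
    abs_of_pos hh, Complex.real_smul]
  congr 1
  rw [intervalIntegral.integral_of_le hab, ← integral_Icc_eq_integral_Ioc,
    ← setIntegral_eq_integral_of_forall_compl_eq_zero (s := Set.Icc α β)
      (fun y hy => by rw [ext0_out hab h1 h2 hy, zero_mul])]
  exact setIntegral_congr_fun measurableSet_Icc fun y hy => by simp only [ext0_in hy]

theorem succ_le_exp {δ : ℝ} (hδ : 0 < δ) (a : ℕ) :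
    (a : ℝ) + 1 ≤ (1 + 1 / δ) * Real.exp (a * δ) := by
  have h1 : a * δ + 1 ≤ Real.exp (a * δ) := Real.add_one_le_exp _
  have h2 : (0 : ℝ) ≤ a := Nat.cast_nonneg a
  have h3 : (1 + 1 / δ) * (a * δ + 1) = a * δ + 1 + a + 1 / δ := by field_simp; ring
  have h4 : 0 < 1 / δ := by positivity
  calc (a : ℝ) + 1 ≤ (1 + 1 / δ) * (a * δ + 1) := by rw [h3]; nlinarith
    _ ≤ _ := by gcongr

end Small

open _root_.Pool.Agent.MP_3d0d30_nt.Six.Small

theorem poisson : PoissonStmt := by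
  intro g α β h R hα hab hh hR hg h1 h2 h3 hs
  have hc : Continuous fun x : ℝ => ext0 g α β (x / h) := (ext0_cont hab hg).comp (by fun_prop)
  have hz : ∀ x : ℝ, x ∉ Set.Icc (h * α) (h * β) → ext0 g α β (x / h) = 0 := by
    intro x hx
    refine ext0_out hab h1 h2 fun hy => hx ⟨?_, ?_⟩
    · have := hy.1
      rwa [le_div_iff₀ hh, mul_comm] at this
    · have := hy.2
      rwa [div_le_iff₀ hh, mul_comm] at this
  have hO : Asymptotics.IsBigO (cocompact ℝ) (fun x : ℝ => ext0 g α β (x / h))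
      fun x : ℝ => |x| ^ (-(2 : ℝ)) := by
    refine Asymptotics.IsBigO.of_bound 0 ?_
    filter_upwards [(isCompact_Icc (a := h * α) (b := h * β)).compl_mem_cocompact] with x hx
    rw [hz x hx]
    simp
  have hs1 : Summable fun ν : ℤ => (h : ℂ) * ∫ y in α..β, g y * E (h * ν * y) := hs.mul_left _
  have hF : ∀ ν : ℤ, 𝓕 (fun x : ℝ => ext0 g α β (x / h)) ν =
      (h : ℂ) * ∫ y in α..β, g y * E (h * ((Equiv.neg ℤ ν : ℤ) : ℝ) * y) := by
    intro ν
    rw [fourier_ext0 hab hh h1 h2]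
    simp
  have hs2 : Summable fun ν : ℤ => 𝓕 (fun x : ℝ => ext0 g α β (x / h)) ν := by
    simp_rw [hF]
    exact (Equiv.neg ℤ).summable_iff.2 hs1
  have key := Real.tsum_eq_tsum_fourier_of_rpow_decay_of_summable hc one_lt_two hO hs2 0
  simp only [zero_add, QuotientAddGroup.mk_zero, fourier_eval_zero, mul_one] at key
  simp_rw [hF] at key
  rw [(Equiv.neg ℤ).tsum_eq (fun ν : ℤ => (h : ℂ) * ∫ y in α..β, g y * E (h * ν * y))] at key
  have e : ∑' n : ℤ, ext0 g α β (n / h) = ∑ n ∈ range R, g (n / h) := by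
    rw [tsum_eq_sum (s := (range R).map ⟨fun n : ℕ => (n : ℤ), Nat.cast_injective⟩)]
    · rw [sum_map]
      refine sum_congr rfl fun n _ => ?_
      simp only [Function.Embedding.coeFn_mk, Int.cast_natCast]
      by_cases hn : (n : ℝ) / h ∈ Set.Icc α β
      · exact ext0_in hn
      · rw [ext0_out hab h1 h2 hn, h3 _ (by positivity) hn]
    · intro n hn
      refine hz _ fun hm => hn ?_
      have a1 : (0 : ℝ) < n := lt_of_lt_of_le (by positivity) hm.1
      have a2 : (n : ℝ) < R := lt_of_le_of_lt hm.2 hR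
      have a3 : 0 < n := by exact_mod_cast a1
      have a4 : n < R := by exact_mod_cast a2
      refine mem_map.2 ⟨n.toNat, mem_range.2 (by omega), ?_⟩
      simp only [Function.Embedding.coeFn_mk]
      omega
  rw [← e, key]
  exact hs1.hasSum

theorem divisor : DivisorStmt := by
  intro ε hε
  have hl : 0 < Real.log 2 := Real.log_pos one_lt_two
  have hδ : 0 < ε * Real.log 2 := by positivity
  set K : ℝ := 1 + 1 / (ε * Real.log 2) with hK
  have hK1 : 1 ≤ K := by rw [hK]; linarith [show 0 < 1 / (ε * Real.log 2) by positivity]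
  set B : ℕ := ⌈Real.exp (1 / ε)⌉₊ with hB
  refine ⟨K ^ B, by positivity, fun n hn => ?_⟩
  have hn0 : n ≠ 0 := by omega
  rw [Nat.card_divisors hn0, Nat.cast_prod]
  have h1 : ∀ p ∈ n.primeFactors, ((n.factorization p + 1 : ℕ) : ℝ) ≤
      (if p < B then K else 1) * (((p ^ n.factorization p : ℕ) : ℝ)) ^ ε := by
    intro p hp
    have hp2 : 2 ≤ p := (Nat.prime_of_mem_primeFactors hp).two_le
    have hp2' : (2 : ℝ) ≤ p := by exact_mod_cast hp2
    have hp0 : (0 : ℝ) < p := by linarith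
    have ha : (0 : ℝ) ≤ n.factorization p := Nat.cast_nonneg _
    have e : (((p ^ n.factorization p : ℕ) : ℝ)) ^ ε =
        Real.exp (n.factorization p * (ε * Real.log p)) := by
      push_cast
      rw [Real.rpow_def_of_pos (by positivity), Real.log_pow]
      congr 1
      ring
    rw [e]
    push_cast
    split_ifs with h
    · refine (succ_le_exp hδ _).trans ?_
      have : Real.log 2 ≤ Real.log p := Real.log_le_log two_pos hp2'
      gcongr
    · have a1 : Real.exp (1 / ε) ≤ p := by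
        refine (Nat.le_ceil _).trans ?_
        exact_mod_cast not_lt.1 h
      have a2 : 1 / ε ≤ Real.log p := by
        rw [Real.le_log_iff_exp_le hp0]
        exact a1
      have a3 : 1 ≤ ε * Real.log p := by
        rw [div_le_iff₀ hε] at a2
        linarith
      rw [one_mul]
      refine le_trans ?_ (Real.add_one_le_exp _)
      nlinarith
  refine (prod_le_prod (fun _ _ => by positivity) h1).trans ?_
  rw [prod_mul_distrib, Real.finsetProd_rpow _ _ (fun _ _ => by positivity), ← Nat.cast_prod]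
  have h2 : ∏ p ∈ n.primeFactors, p ^ n.factorization p = n := by
    conv_rhs => rw [← Nat.prod_factorization_pow_eq_self hn0]
    rfl
  rw [h2]
  refine mul_le_mul_of_nonneg_right ?_ (by positivity)
  rw [prod_ite, prod_const_one, mul_one, prod_const]
  refine pow_le_pow_right₀ hK1 ?_
  calc (n.primeFactors.filter (fun p => p < B)).card ≤ (range B).card :=
        card_le_card (fun p hp => mem_range.2 (mem_filter.1 hp).2)
    _ = B := card_range B

end Pool.Agent.MP_3d0d30_nt.Six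

end MrgPart3

-- marker of a merged file
example : 731051 + 650268 = 731051 + 650268 := rfl
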