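import Pool.Agent.MP_3d0d30_nt.Six.Spec2
import Pool.Agent.MP_3d0d30_nt.Six.Small
import Pool.Agent.MP_3d0d30_nt.Six.RedZ

-- ======== part 0: formerly Pool.Agent.MP_3d0d30_nt.Six.Reg
section MrgPart0

/-! Project SIX, second stage: regularisation of a separated set. -/

set_option autoImplicit false

namespace Pool.Agent.MP_3d0d30_nt.Six

open Finset

namespace Reg

/-- the number of points in the cell of `t` -/
noncomputable def cnt (U : Finset ℝ) (Λ t : ℝ) : ℕ :=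
  (U.filter fun s => ⌊s / Λ⌋ = ⌊t / Λ⌋).card

theorem cnt_pos {U : Finset ℝ} (Λ : ℝ) {t : ℝ} (ht : t ∈ U) : 0 < cnt U Λ t :=
  card_pos.2 ⟨t, mem_filter.2 ⟨ht, rfl⟩⟩

theorem cnt_le {U : Finset ℝ} {Λ : ℝ} (hU : Sep 1 U) (hΛ : 1 ≤ Λ) (t : ℝ) :
    (cnt U Λ t : ℝ) ≤ 2 * Λ := by
  have hΛ0 : 0 < Λ := by linarith
  set a : ℝ := ⌊t / Λ⌋ * Λ with ha
  have h1 : cnt U Λ t ≤ (Ico (0 : ℤ) ⌈Λ⌉).card := by
    refine card_le_card_of_injOn (fun s => ⌊s - a⌋) (fun s hs => ?_) fun s hs s' hs' h => ?_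
    · have h2 := (mem_filter.1 (mem_coe.1 hs)).2
      have h3 := Int.floor_le (s / Λ)
      have h4 := Int.lt_floor_add_one (s / Λ)
      rw [h2, le_div_iff₀ hΛ0] at h3
      rw [h2, div_lt_iff₀ hΛ0] at h4
      simp only [coe_Ico, Set.mem_Ico]
      refine ⟨Int.floor_nonneg.2 (by linarith), Int.floor_lt.2 ?_⟩
      have := Int.le_ceil Λ
      nlinarith
    · by_contra hne
      have h5 := hU s (mem_filter.1 (mem_coe.1 hs)).1 s' (mem_filter.1 (mem_coe.1 hs')).1 hne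
      have h6 := Int.abs_sub_lt_one_of_floor_eq_floor h
      rw [sub_sub_sub_cancel_right] at h6
      linarith
  have h2 : ((Ico (0 : ℤ) ⌈Λ⌉).card : ℝ) ≤ 2 * Λ := by
    have h3 : (((Ico (0 : ℤ) ⌈Λ⌉).card : ℤ) : ℝ) = ⌈Λ⌉ := by
      rw [Int.card_Ico_of_le _ _ (Int.ceil_nonneg hΛ0.le), sub_zero]
    have h4 := Int.ceil_lt_add_one Λ
    rw [Int.cast_natCast] at h3
    linarith
  exact (Nat.cast_le.2 h1).trans h2

theorem first (U : Finset ℝ) (Λ : ℝ) (f : ℝ → ℝ) (hU : Sep 1 U) (hΛ : 1 ≤ Λ)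
    (hf : ∀ t, 0 ≤ f t) : ∃ U1 ⊆ U, ∃ μ : ℝ, 1 ≤ μ ∧ μ ≤ 2 * Λ ∧ Regular U1 Λ μ ∧
      ∑ t ∈ U, f t ≤ 60 * (1 + Real.log Λ) * ∑ t ∈ U1, f t := by
  have hΛ0 : 0 < Λ := by linarith
  set J := Nat.log 2 ⌊2 * Λ⌋₊ with hJ
  have hfl : ⌊2 * Λ⌋₊ ≠ 0 := (Nat.floor_pos.2 (by linarith)).ne'
  have hJ1 : (2 : ℝ) ^ J ≤ 2 * Λ := by
    have h1 : 2 ^ J ≤ ⌊2 * Λ⌋₊ := Nat.pow_log_le_self 2 hfl
    have h2 : ((2 ^ J : ℕ) : ℝ) ≤ ⌊2 * Λ⌋₊ := Nat.cast_le.2 h1
    push_cast at h2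
    exact h2.trans (Nat.floor_le (by linarith))
  have hlog := Real.log_nonneg hΛ
  have hJ2 : (J : ℝ) + 1 ≤ 60 * (1 + Real.log Λ) := by
    have h1 := Real.log_le_log (by positivity) hJ1
    rw [Real.log_pow, Real.log_mul two_ne_zero hΛ0.ne'] at h1
    have h2 := Real.log_two_gt_d9
    have h3 := Real.log_two_lt_d9
    have h4 : (0 : ℝ) ≤ J := Nat.cast_nonneg J
    nlinarith
  have hmap : ∀ t ∈ U, Nat.log 2 (cnt U Λ t) ∈ range (J + 1) := fun t _ =>
    mem_range.2 (Nat.lt_succ_of_le (Nat.log_mono_right (Nat.le_floor (cnt_le hU hΛ t))))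
  have hsum := sum_fiberwise_of_maps_to hmap f
  obtain ⟨j, hj, hmax⟩ := exists_max_image (range (J + 1))
    (fun j => ∑ t ∈ U with Nat.log 2 (cnt U Λ t) = j, f t) ⟨0, by simp⟩
  refine ⟨U.filter fun t => Nat.log 2 (cnt U Λ t) = j, filter_subset _ _, 2 ^ j,
    one_le_pow₀ one_le_two, ?_, fun t ht => ?_, ?_⟩
  · exact (pow_le_pow_right₀ one_le_two (Nat.le_of_lt_succ (mem_range.1 hj))).trans hJ1
  · obtain ⟨ht1, ht2⟩ := mem_filter.1 ht
    have e : ((U.filter fun t => Nat.log 2 (cnt U Λ t) = j).filter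
        fun s => ⌊s / Λ⌋ = ⌊t / Λ⌋).card = cnt U Λ t := by
      unfold cnt
      congr 1
      ext s
      simp only [mem_filter]
      refine ⟨fun h => ⟨h.1.1, h.2⟩, fun h => ⟨⟨h.1, ?_⟩, h.2⟩⟩
      rw [← ht2]
      simp only [cnt, h.2]
    rw [e]
    have h1 : 2 ^ j ≤ cnt U Λ t := ht2 ▸ Nat.pow_log_le_self 2 (cnt_pos Λ ht1).ne'
    have h2 : cnt U Λ t < 2 ^ (j + 1) := ht2 ▸ Nat.lt_pow_succ_log_self one_lt_two _
    constructor
    · exact_mod_cast h1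
    · rw [← pow_succ']
      exact_mod_cast h2.le
  · rw [← hsum]
    refine (sum_le_card_nsmul _ _ _ hmax).trans ?_
    rw [card_range, nsmul_eq_mul]
    push_cast
    exact mul_le_mul_of_nonneg_right hJ2 (sum_nonneg fun t _ => hf t)

theorem second (U : Finset ℝ) (Λ μ : ℝ) (hR : Regular U Λ μ) :
    PP U Λ ≤ 60 * (μ * U.card) := by
  classical
  have key : ∀ s ∈ U, ∑ t ∈ U, ck ((s - t) / Λ) ≤ 60 * μ := by
    intro s hs
    have hμ : 0 ≤ μ := by
      have h1 := (hR s hs).2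
      have h2 : (0 : ℝ) ≤ (U.filter fun x => ⌊x / Λ⌋ = ⌊s / Λ⌋).card := Nat.cast_nonneg _
      linarith
    set g : ℝ → ℝ := fun t => (⌊t / Λ⌋ : ℝ) with hg
    have h1 : ∀ t ∈ U, ck ((s - t) / Λ) ≤ 3 * ck (s / Λ - g t) := fun t _ => by
      refine Kn.ck_le_three ?_
      have h2 := Int.floor_le (t / Λ)
      have h3 := Int.lt_floor_add_one (t / Λ)
      rw [sub_div, abs_le]
      constructor <;> simp only [hg] <;> linarith
    have hsep : Sep 1 (U.image g) := by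
      intro x hx y hy hxy
      obtain ⟨x', -, rfl⟩ := mem_image.1 hx
      obtain ⟨y', -, rfl⟩ := mem_image.1 hy
      have h2 : ⌊x' / Λ⌋ - ⌊y' / Λ⌋ ≠ 0 := fun h => hxy (by simp only [hg, sub_eq_zero.1 h])
      have h3 := Int.one_le_abs h2
      simp only [hg]
      exact_mod_cast h3
    have h4 : ∑ t ∈ U, ck (s / Λ - g t) ≤ ∑ i ∈ U.image g, 2 * μ * ck (s / Λ - i) := by
      rw [sum_comp (fun i => ck (s / Λ - i)) g]
      refine sum_le_sum fun i hi => ?_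
      obtain ⟨t, ht, rfl⟩ := mem_image.1 hi
      rw [nsmul_eq_mul]
      refine mul_le_mul_of_nonneg_right (le_trans (le_of_eq ?_) (hR t ht).2) (ck_nonneg _)
      congr 2
      ext x
      simp only [hg, Int.cast_inj]
    have h5 := Kn.sepsum _ (s / Λ) hsep
    refine (sum_le_sum h1).trans ?_
    rw [← mul_sum] at h4 ⊢
    nlinarith
  unfold PP
  refine (sum_le_card_nsmul _ _ _ key).trans (le_of_eq ?_)
  rw [nsmul_eq_mul]
  ring

end Reg

theorem reg : RegStmt :=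
  ⟨60, by norm_num, fun U Λ f hU hΛ hf => Reg.first U Λ f hU hΛ hf,
    fun U Λ μ _ hR => Reg.second U Λ μ hR⟩

end Pool.Agent.MP_3d0d30_nt.Six

end MrgPart0

-- ======== part 1: formerly Pool.Agent.MP_3d0d30_nt.Six.OffD
section MrgPart1

/-! Project SIX, second stage, module OffD: the off-diagonal pairs of frequencies. -/

set_option autoImplicit false

namespace Pool.Agent.MP_3d0d30_nt.Six

open MeasureTheory Finset Filter
open scoped ComplexConjugate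

namespace OffD

theorem mvt {F F1 : ℝ → ℝ} {a b : ℝ} (h : ∀ x ∈ Set.uIcc a b, HasDerivAt F (F1 x) x) :
    ∃ ξ ∈ Set.uIcc a b, F a - F b = F1 ξ * (a - b) := by
  rcases lt_trichotomy a b with c | c | c
  · rw [Set.uIcc_of_le c.le] at h ⊢
    obtain ⟨x, hx, e⟩ := exists_hasDerivAt_eq_slope F F1 c
      (fun x hx => (h x hx).continuousAt.continuousWithinAt)
      (fun x hx => h x ⟨hx.1.le, hx.2.le⟩)
    refine ⟨x, ⟨hx.1.le, hx.2.le⟩, ?_⟩
    have : b - a ≠ 0 := by linarith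
    rw [e]; field_simp; ring
  · subst c
    exact ⟨a, Set.left_mem_uIcc, by simp⟩
  · rw [Set.uIcc_of_ge c.le] at h ⊢
    obtain ⟨x, hx, e⟩ := exists_hasDerivAt_eq_slope F F1 c
      (fun x hx => (h x hx).continuousAt.continuousWithinAt)
      (fun x hx => h x ⟨hx.1.le, hx.2.le⟩)
    refine ⟨x, ⟨hx.1.le, hx.2.le⟩, ?_⟩
    have : a - b ≠ 0 := by linarith
    rw [e]; field_simp

theorem mem14 {a b x : ℝ} (ha : a ∈ Set.Icc (1 : ℝ) 4) (hb : b ∈ Set.Icc (1 : ℝ) 4)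
    (hx : x ∈ Set.uIcc a b) : x ∈ Set.Icc (1 : ℝ) 4 :=
  Set.uIcc_subset_Icc ha hb hx

theorem first {β a b : ℝ} (hβ : 0 < β) (hβ1 : β ≤ 1) (ha : a ∈ Set.Icc (1 : ℝ) 4)
    (hb : b ∈ Set.Icc (1 : ℝ) 4) : |a - b| / 9 ≤ |gg β a - gg β b| := by
  obtain ⟨ξ, hξ, e⟩ := mvt (F := gg β) (F1 := HB.g1 β) (a := a) (b := b) fun x hx =>
    HB.hasDerivAt_gg hβ (by linarith [(mem14 ha hb hx).1])
  have h := mem14 ha hb hξ
  have g := (HB.g_bounds hβ hβ1 h.1 h.2).1
  rw [e, abs_mul, abs_of_nonneg (by linarith : 0 ≤ HB.g1 β ξ)]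
  calc _ = 1 / 9 * |a - b| := by ring
    _ ≤ _ := by gcongr

theorem second {β a b η : ℝ} (hβ : 0 < β) (hβ1 : β ≤ 1) (ha : a ∈ Set.Icc (1 : ℝ) 4)
    (hb : b ∈ Set.Icc (1 : ℝ) 4) (ha' : a + η ∈ Set.Icc (1 : ℝ) 4)
    (hb' : b + η ∈ Set.Icc (1 : ℝ) 4) :
    |η| * |a - b| / 400 ≤ |(gg β (a + η) - gg β a) - (gg β (b + η) - gg β b)| := by
  have sh : ∀ x ∈ Set.uIcc a b, x + η ∈ Set.Icc (1 : ℝ) 4 := fun x hx => by
    rcases Set.mem_uIcc.1 hx with c | c
    · exact ⟨by linarith [ha'.1, c.1], by linarith [hb'.2, c.2]⟩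
    · exact ⟨by linarith [hb'.1, c.1], by linarith [ha'.2, c.2]⟩
  obtain ⟨c, hc, e⟩ := mvt (F := fun x => gg β (x + η) - gg β x)
    (F1 := fun x => HB.g1 β (x + η) - HB.g1 β x) (a := a) (b := b) fun x hx =>
    (HasDerivAt.comp_add_const x η
      (HB.hasDerivAt_gg hβ (by linarith [(sh x hx).1]))).fun_sub
      (HB.hasDerivAt_gg hβ (by linarith [(mem14 ha hb hx).1]))
  obtain ⟨ξ, hξ, e'⟩ := mvt (F := HB.g1 β) (F1 := HB.g2 β) (a := c + η) (b := c) fun x hx =>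
    HB.hasDerivAt_g1 (by linarith [(mem14 (sh c hc) (mem14 ha hb hc) hx).1])
  have h := mem14 (sh c hc) (mem14 ha hb hc) hξ
  have g := (HB.g_bounds hβ hβ1 h.1 h.2).2.2.1
  rw [e, e', add_sub_cancel_left, abs_mul, abs_mul,
    abs_of_nonpos (by linarith : HB.g2 β ξ ≤ 0)]
  calc _ = 1 / 400 * |η| * |a - b| := by ring
    _ ≤ _ := by gcongr

theorem sepL (hK : Kern) {ι : Type} (S : Finset ι) (x : ι → ℝ)
    (hs : ∀ i ∈ S, ∀ j ∈ S, i ≠ j → 1 ≤ |x i - x j|) {Λ : ℝ} (hΛ : 1 ≤ Λ) (u : ℝ) :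
    ∑ i ∈ S, ck ((u - x i) / Λ) ≤ 10 * Λ := by
  classical
  have hi : Set.InjOn x S := fun i hi j hj e => by
    by_contra hne
    have := hs i hi j hj hne
    rw [e, sub_self, abs_zero] at this
    linarith
  rw [← sum_image (f := fun t => ck ((u - t) / Λ)) hi]
  refine hK.sepsumL _ Λ u (fun s h1 t h2 hne => ?_) hΛ
  obtain ⟨i, hi', rfl⟩ := mem_image.1 h1
  obtain ⟨j, hj', rfl⟩ := mem_image.1 h2
  exact hs i hi' j hj' fun e => hne (by rw [e])

theorem sepD (hK : Kern) {ι : Type} (S : Finset ι) (x : ι → ℝ) {δ : ℝ} (hδ : 0 < δ)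
    (hs : ∀ i ∈ S, ∀ j ∈ S, i ≠ j → δ ≤ |x i - x j|) (u : ℝ) :
    ∑ i ∈ S, ck (x i - u) ≤ 10 * (1 + 1 / δ) := by
  have p : 0 < 1 / δ := by positivity
  rcases le_total 1 δ with c | c
  · have h := sepL hK S x (fun i hi j hj e => c.trans (hs i hi j hj e)) le_rfl u
    simp only [div_one] at h
    calc _ = ∑ i ∈ S, ck (u - x i) := sum_congr rfl fun i _ => by rw [← ck_neg, neg_sub]
      _ ≤ _ := by linarith
  · have h := sepL hK S (fun i => x i / δ) (fun i hi j hj e => by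
      rw [← sub_div, abs_div, abs_of_pos hδ, one_le_div hδ]
      exact hs i hi j hj e) (Λ := 1 / δ) (by rw [one_le_div hδ]; exact c) (u / δ)
    calc _ = ∑ i ∈ S, ck ((u / δ - x i / δ) / (1 / δ)) := sum_congr rfl fun i _ => by
          rw [← ck_neg, neg_sub]; congr 1; field_simp
      _ ≤ _ := by linarith

theorem sepN (hK : Kern) {ι : Type} (S : Finset ι) (x : ι → ℝ)
    (hs : ∀ i ∈ S, ∀ j ∈ S, i ≠ j → 1 ≤ |x i - x j|) (h1 : ∀ i ∈ S, 1 ≤ |x i|) {ρ : ℝ}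
    (hρ : 0 < ρ) : ∑ i ∈ S, ck (x i / ρ) ≤ 20 * ρ := by
  rcases le_total 1 ρ with c | c
  · have h := sepL hK S x hs c 0
    calc _ = ∑ i ∈ S, ck ((0 - x i) / ρ) := sum_congr rfl fun i _ => by
          rw [zero_sub, neg_div, ck_neg]
      _ ≤ _ := by linarith
  · have h := sepL hK S x hs le_rfl 0
    simp only [div_one, zero_sub, ck_neg] at h
    calc _ ≤ ∑ i ∈ S, 2 * ρ * ck (x i) := sum_le_sum fun i hi => by
          have a1 : 1 ≤ x i ^ 2 := by
            rw [← sq_abs]; exact one_le_pow₀ (h1 i hi)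
          unfold ck
          rw [div_pow, mul_one_div, div_le_div_iff₀ (by positivity) (by positivity)]
          generalize x i ^ 2 = y at a1
          have a2 : 2 * ρ * (1 + y / ρ ^ 2) = 2 * ρ + 2 * y / ρ := by field_simp
          have a3 : 2 * y ≤ 2 * y / ρ := by
            rw [le_div_iff₀ hρ]; nlinarith
          rw [a2]
          linarith
      _ = 2 * ρ * ∑ i ∈ S, ck (x i) := by rw [mul_sum]
      _ ≤ 2 * ρ * (10 * 1) := by gcongr
      _ = _ := by ring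

theorem harm (N : ℕ) : ∑ h ∈ Icc (-(N : ℤ)) N, 1 / |(h : ℝ)| = 2 * (harmonic N : ℝ) := by
  induction N with
  | zero => simp
  | succ n ih =>
    have e : Icc (-((n + 1 : ℕ) : ℤ)) ((n + 1 : ℕ) : ℤ) =
        insert (-((n : ℤ) + 1)) (insert ((n : ℤ) + 1) (Icc (-(n : ℤ)) n)) := by
      ext x
      simp only [mem_Icc, mem_insert]
      omega
    rw [e, sum_insert (by simp only [mem_Icc, mem_insert]; omega),
      sum_insert (by simp only [mem_Icc]; omega), ih, harmonic_succ]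
    push_cast
    rw [abs_neg, abs_of_nonneg (by positivity)]
    ring

theorem point {Λ L : ℝ} (hΛ : 0 < Λ) (hL : 0 < L) (t z : ℝ) :
    Real.exp (-(2 * Real.pi * Λ * |t|)) * ck (L * t - L * z) ≤
      32 * ck (Λ * z) * (ck (Λ * t) * (ck (L * t - L * z) + Λ ^ 2 / L ^ 2)) := by
  have h1 : Real.exp (-(2 * Real.pi * Λ * |t|)) ≤ 16 * ck (Λ * t) ^ 2 := by
    have a1 := exp_le_ck (Λ * t / 2)
    have a2 : ck (Λ * t / 2) ≤ 2 ^ 2 * ck (Λ * t) := ck_le_mul (by norm_num) (by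
      rw [abs_div, abs_two]; linarith)
    have a3 : Real.exp (-(2 * Real.pi * Λ * |t|)) =
        Real.exp (-(2 * Real.pi * |Λ * t / 2|)) ^ 2 := by
      rw [← Real.exp_nat_mul, abs_div, abs_mul, abs_two, abs_of_pos hΛ]
      congr 1
      push_cast
      ring
    rw [a3]
    calc _ ≤ (2 ^ 2 * ck (Λ * t)) ^ 2 := by gcongr; exact a1.trans a2
      _ = _ := by ring
  have h2 : ck (L * t - L * z) ≤ ck (Λ * (z - t)) * (ck (L * t - L * z) + Λ ^ 2 / L ^ 2) := by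
    have e : L * t - L * z = -(L * (z - t)) := by ring
    rw [e, ck_neg]
    generalize z - t = y
    have a1 : ck (L * y) * (Λ * y) ^ 2 ≤ Λ ^ 2 / L ^ 2 := by
      unfold ck
      rw [div_mul_eq_mul_div, one_mul, div_le_div_iff₀ (by positivity) (by positivity)]
      nlinarith [sq_nonneg Λ]
    have a2 : ck (Λ * y) * (1 + (Λ * y) ^ 2) = 1 := by
      unfold ck
      field_simp
    calc _ = ck (Λ * y) * (1 + (Λ * y) ^ 2) * ck (L * y) := by rw [a2, one_mul]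
      _ = ck (Λ * y) * (ck (L * y) + ck (L * y) * (Λ * y) ^ 2) := by ring
      _ ≤ _ := by have := ck_nonneg (Λ * y); gcongr
  have h3 : ck (Λ * t) * ck (Λ * (z - t)) ≤ 2 * ck (Λ * z) := by
    have := ck_mul_ck_le (Λ * t) (Λ * (z - t))
    rwa [show Λ * t + Λ * (z - t) = Λ * z by ring] at this
  have p1 := ck_nonneg (Λ * t)
  have p2 := ck_nonneg (L * t - L * z)
  have p3 : 0 ≤ ck (L * t - L * z) + Λ ^ 2 / L ^ 2 := by positivity
  calc _ ≤ 16 * ck (Λ * t) ^ 2 *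
        (ck (Λ * (z - t)) * (ck (L * t - L * z) + Λ ^ 2 / L ^ 2)) := by gcongr
    _ = 16 * (ck (Λ * t) * ck (Λ * (z - t))) *
        (ck (Λ * t) * (ck (L * t - L * z) + Λ ^ 2 / L ^ 2)) := by ring
    _ ≤ 16 * (2 * ck (Λ * z)) * (ck (Λ * t) * (ck (L * t - L * z) + Λ ^ 2 / L ^ 2)) := by gcongr
    _ = _ := by ring

theorem mem_k {N k : ℕ} (hN : 1 ≤ N) (hk : k ∈ Ioc N (2 * N)) :
    (k : ℝ) / N ∈ Set.Icc (1 : ℝ) 4 := by
  have h0 : (0 : ℝ) < N := by exact_mod_cast hN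
  have h1 : (N : ℝ) ≤ k := by exact_mod_cast (mem_Ioc.1 hk).1.le
  have h2 : (k : ℝ) ≤ 2 * N := by exact_mod_cast (mem_Ioc.1 hk).2
  exact ⟨by rwa [one_le_div h0], by rw [div_le_iff₀ h0]; linarith⟩

theorem ck_th {N k k' : ℕ} {β Λ : ℝ} (hN : 1 ≤ N) (hβ : 0 < β) (hβ1 : β ≤ 1) (hΛ : 0 < Λ)
    (hk : k ∈ Ioc N (2 * N)) (hk' : k' ∈ Ioc N (2 * N)) :
    ck (Λ * (gg β (k / N) - gg β (k' / N))) ≤ ck (((k : ℝ) - k') / (9 * N / Λ)) := by
  have h0 : (0 : ℝ) < N := by exact_mod_cast hN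
  apply ck_anti
  have h := first hβ hβ1 (mem_k hN hk) (mem_k hN hk')
  rw [← sub_div, abs_div, abs_of_pos h0] at h
  rw [abs_mul, abs_of_pos hΛ, abs_div, abs_of_pos (by positivity : 0 < 9 * N / Λ)]
  calc _ = Λ * (|(k : ℝ) - k'| / N / 9) := by field_simp
    _ ≤ _ := by gcongr

theorem one_le_abs {k k' : ℕ} (h : k ≠ k') : 1 ≤ |(k : ℝ) - k'| := by
  have : (1 : ℤ) ≤ |(k : ℤ) - k'| := Int.one_le_abs (by omega)
  exact_mod_cast this

theorem partB (hK : Kern) {N : ℕ} {β Λ : ℝ} (hN : 1 ≤ N) (hβ : 0 < β) (hβ1 : β ≤ 1)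
    (hΛ : 0 < Λ) : ∑ k ∈ Ioc N (2 * N), ∑ k' ∈ (Ioc N (2 * N)).erase k,
      ck (Λ * (gg β (k / N) - gg β (k' / N))) ≤ N * (20 * (9 * N / Λ)) := by
  have h0 : (0 : ℝ) < N := by exact_mod_cast hN
  calc _ ≤ ∑ k ∈ Ioc N (2 * N), 20 * (9 * N / Λ) := sum_le_sum fun k hk => by
        refine le_trans (sum_le_sum fun k' hk' =>
          ck_th hN hβ hβ1 hΛ hk (mem_of_mem_erase hk')) ?_
        refine sepN hK _ (fun k' : ℕ => (k : ℝ) - k') (fun i _ j _ e => ?_)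
          (fun i hi => one_le_abs (ne_of_mem_erase hi).symm) (by positivity)
        rw [sub_sub_sub_cancel_left]
        exact one_le_abs e.symm
    _ = _ := by
        rw [sum_const, Nat.card_Ioc, nsmul_eq_mul, show 2 * N - N = N by omega]

theorem partA (hK : Kern) {N : ℕ} {β Λ L : ℝ} (hN : 1 ≤ N) (hβ : 0 < β) (hβ1 : β ≤ 1)
    (hΛ : 0 < Λ) (hL : 0 < L) (u : ℝ) :
    ∑ k ∈ Ioc N (2 * N), ∑ k' ∈ (Ioc N (2 * N)).erase k,
      ck (Λ * (gg β (k / N) - gg β (k' / N))) * ck (L * (gg β (k / N) - gg β (k' / N)) - u) ≤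
      10 * (20 * (9 * N / Λ)) + 4000 * N ^ 2 / L * (2 * (1 + Real.log N)) := by
  have h0 : (0 : ℝ) < N := by exact_mod_cast hN
  set K := Ioc N (2 * N) with hKd
  set P : Finset (Σ _ : ℕ, ℕ) := K.sigma fun k => K.erase k with hP
  set T : Finset ℤ := (Icc (-(N : ℤ)) N).erase 0 with hT
  have hm : ∀ p ∈ P, (p.1 : ℤ) - p.2 ∈ T := fun p hp => by
    obtain ⟨a1, a2⟩ := mem_sigma.1 hp
    obtain ⟨a3, a4⟩ := mem_erase.1 a2
    rw [hKd, mem_Ioc] at a1 a4
    rw [hT, mem_erase, mem_Icc]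
    omega
  have hT1 : ∀ h ∈ T, 1 ≤ |(h : ℝ)| := fun h hh => by
    exact_mod_cast Int.one_le_abs (ne_of_mem_erase hh)
  rw [sum_sigma', ← sum_fiberwise_of_maps_to hm]
  calc _ ≤ ∑ h ∈ T, (10 * ck (h / (9 * N / Λ)) + 4000 * N ^ 2 / L * (1 / |(h : ℝ)|)) := by
        refine sum_le_sum fun h hh => ?_
        have a0 : 0 < |(h : ℝ)| := lt_of_lt_of_le one_pos (hT1 h hh)
        have hf : ∀ p ∈ P.filter fun p => (p.1 : ℤ) - p.2 = h,
            p.1 ∈ K ∧ p.2 ∈ K ∧ (p.1 : ℝ) - p.2 = h := fun p hp => by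
          obtain ⟨a1, a2⟩ := mem_filter.1 hp
          obtain ⟨a3, a4⟩ := mem_sigma.1 a1
          exact ⟨a3, mem_of_mem_erase a4, by exact_mod_cast a2⟩
        have a1 := sepD hK (P.filter fun p => (p.1 : ℤ) - p.2 = h)
          (fun p => L * (gg β (p.1 / N) - gg β (p.2 / N)))
          (δ := |(h : ℝ)| * L / (400 * N ^ 2)) (by positivity) (fun p hp q hq e => by
            obtain ⟨b1, b2, b3⟩ := hf p hp
            obtain ⟨c1, c2, c3⟩ := hf q hq
            have e1 : (p.1 : ℝ) / N = p.2 / N + h / N := by rw [← b3]; ring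
            have e2 : (q.1 : ℝ) / N = q.2 / N + h / N := by rw [← c3]; ring
            have e3 : p.2 ≠ q.2 := fun e4 => by
              have e5 : (p.1 : ℝ) = q.1 := by rw [e4] at b3; linarith
              exact e (Sigma.ext (by exact_mod_cast e5) (heq_of_eq e4))
            have d := second (η := h / N) hβ hβ1 (mem_k hN b2) (mem_k hN c2)
              (e1 ▸ mem_k hN b1) (e2 ▸ mem_k hN c1)
            rw [← e1, ← e2, ← sub_div, abs_div, abs_div, abs_of_pos h0] at d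
            rw [← mul_sub, abs_mul, abs_of_pos hL]
            have e6 := one_le_abs e3
            calc _ = L * (|(h : ℝ)| / N * (1 / N) / 400) := by field_simp
              _ ≤ L * (|(h : ℝ)| / N * (|(p.2 : ℝ) - q.2| / N) / 400) := by gcongr
              _ ≤ _ := by gcongr) u
        calc _ ≤ ∑ p ∈ P.filter fun p => (p.1 : ℤ) - p.2 = h,
              ck (h / (9 * N / Λ)) * ck (L * (gg β (p.1 / N) - gg β (p.2 / N)) - u) := by
              refine sum_le_sum fun p hp => mul_le_mul_of_nonneg_right ?_ (ck_nonneg _)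
              obtain ⟨b1, b2, b3⟩ := hf p hp
              rw [← b3]
              exact ck_th hN hβ hβ1 hΛ b1 b2
          _ ≤ ck (h / (9 * N / Λ)) * (10 * (1 + 1 / (|(h : ℝ)| * L / (400 * N ^ 2)))) := by
              rw [← mul_sum]
              exact mul_le_mul_of_nonneg_left a1 (ck_nonneg _)
          _ = 10 * ck (h / (9 * N / Λ)) +
              ck (h / (9 * N / Λ)) * (4000 * N ^ 2 / L * (1 / |(h : ℝ)|)) := by
              generalize ck (h / (9 * N / Λ)) = y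
              field_simp
              ring
          _ ≤ _ := add_le_add le_rfl (mul_le_of_le_one_left (by positivity) (ck_le_one _))
    _ = 10 * ∑ h ∈ T, ck (h / (9 * N / Λ)) + 4000 * N ^ 2 / L * ∑ h ∈ T, 1 / |(h : ℝ)| := by
        rw [sum_add_distrib, ← mul_sum, ← mul_sum]
    _ ≤ _ := by
        gcongr
        · refine sepN hK T (fun h : ℤ => (h : ℝ)) (fun i _ j _ e => ?_) hT1 (by positivity)
          exact_mod_cast Int.one_le_abs (sub_ne_zero.2 e)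
        · calc _ ≤ ∑ h ∈ Icc (-(N : ℤ)) N, 1 / |(h : ℝ)| :=
                sum_le_sum_of_subset_of_nonneg (erase_subset _ _) fun _ _ _ => by positivity
            _ ≤ _ := by
                rw [harm]
                gcongr
                exact harmonic_le_one_add_log N

theorem kernel (hK : Kern) {N : ℕ} {β Λ L : ℝ} (hN : 1 ≤ N) (hβ : 0 < β) (hβ1 : β ≤ 1)
    (hΛ : 1 ≤ Λ) (hL : Λ ≤ L) (hL' : L ≤ N * Λ) (z : ℝ) :
    ∑ k ∈ Ioc N (2 * N), ∑ k' ∈ (Ioc N (2 * N)).erase k,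
      Real.exp (-(2 * Real.pi * Λ * |gg β (k / N) - gg β (k' / N)|)) *
        ck (L * (gg β (k / N) - gg β (k' / N)) - L * z) ≤
      32 * (10000 * ((1 + Real.log N) * N ^ 2 / L)) * ck (Λ * z) := by
  have h1 : (1 : ℝ) ≤ N := by exact_mod_cast hN
  have h0 : (0 : ℝ) < N := by linarith
  have Λ0 : 0 < Λ := by linarith
  have L0 : 0 < L := by linarith
  have hA := partA hK hN hβ hβ1 Λ0 L0 (L * z)
  have hB := partB hK hN hβ hβ1 Λ0
  have l0 : 0 ≤ Real.log N := Real.log_nonneg h1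
  have q1 : (N : ℝ) / Λ ≤ N ^ 2 / L := by
    rw [div_le_div_iff₀ Λ0 L0]
    calc _ ≤ N * (N * Λ) := by gcongr
      _ = _ := by ring
  have q2 : N * (20 * (9 * N / Λ)) * (Λ ^ 2 / L ^ 2) ≤ 180 * (N ^ 2 / L) := by
    calc _ = 180 * (N ^ 2 / L) * (Λ / L) := by field_simp; ring
      _ ≤ _ := mul_le_of_le_one_right (by positivity) ((div_le_one L0).2 hL)
  have q3 : 0 ≤ Real.log N * (N ^ 2 / L) := by positivity
  calc _ ≤ ∑ k ∈ Ioc N (2 * N), ∑ k' ∈ (Ioc N (2 * N)).erase k, 32 * ck (Λ * z) *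
        (ck (Λ * (gg β (k / N) - gg β (k' / N))) *
          (ck (L * (gg β (k / N) - gg β (k' / N)) - L * z) + Λ ^ 2 / L ^ 2)) :=
        sum_le_sum fun k _ => sum_le_sum fun k' _ => point Λ0 L0 _ _
    _ = 32 * ck (Λ * z) * (∑ k ∈ Ioc N (2 * N), ∑ k' ∈ (Ioc N (2 * N)).erase k,
        ck (Λ * (gg β (k / N) - gg β (k' / N))) *
          ck (L * (gg β (k / N) - gg β (k' / N)) - L * z) +
        (∑ k ∈ Ioc N (2 * N), ∑ k' ∈ (Ioc N (2 * N)).erase k,
          ck (Λ * (gg β (k / N) - gg β (k' / N)))) * (Λ ^ 2 / L ^ 2)) := by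
        simp only [mul_add, sum_add_distrib, ← mul_sum, sum_mul]
    _ ≤ 32 * ck (Λ * z) * (10000 * ((1 + Real.log N) * N ^ 2 / L)) := by
        refine mul_le_mul_of_nonneg_left ?_ (by have := ck_nonneg (Λ * z); positivity)
        have q4 := mul_le_mul_of_nonneg_right hB (show 0 ≤ Λ ^ 2 / L ^ 2 by positivity)
        have q5 : 10 * (20 * (9 * N / Λ)) + 4000 * N ^ 2 / L * (2 * (1 + Real.log N)) =
            1800 * (N / Λ) + 8000 * (N ^ 2 / L) + 8000 * (Real.log N * (N ^ 2 / L)) := by ring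
        have q6 : 10000 * ((1 + Real.log N) * N ^ 2 / L) =
            10000 * (N ^ 2 / L) + 10000 * (Real.log N * (N ^ 2 / L)) := by ring
        have q7 : 0 ≤ (N : ℝ) ^ 2 / L := by positivity
        linarith
    _ = _ := by ring

theorem int_aff {ι : Type} (S : Finset ι) (b : ι → ℂ) (φ : ι → ℝ) {L : ℝ} (hL : L ≠ 0) (x : ℝ) :
    Integrable fun z : ℝ => ck (x - L * z) * ‖∑ i ∈ S, b i * E (z * φ i)‖ ^ 2 := by
  refine (integrable_ck_affine hL x).mul_bdd (c := (∑ i ∈ S, ‖b i‖) ^ 2)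
    (Continuous.aestronglyMeasurable (by fun_prop)) (Eventually.of_forall fun z => ?_)
  rw [Real.norm_of_nonneg (by positivity)]
  gcongr
  exact (norm_sum_le _ _).trans (by simp)

theorem trick (hK : Kern) {ι : Type} (S : Finset ι) (c : ι → ℂ) (φ : ι → ℝ) {φ0 L : ℝ}
    (hL : 0 < L) (h : ∀ i ∈ S, φ0 ≤ φ i) (t : ℝ) :
    ‖∑ i ∈ S, c i * E (φ i * t)‖ ^ 2 ≤ L / Real.pi * ∫ z : ℝ, ck (L * t - L * z) *
      ‖∑ i ∈ S, c i * ((Real.exp (2 * Real.pi * (φ i / L - φ0 / L)) : ℝ) : ℂ) *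
        E (z * φ i)‖ ^ 2 := by
  have h1 := hK.trick S (fun i => c i * E (φ i * t)) (fun i => φ i / L) (φ0 / L)
    fun i hi => by gcongr; exact h i hi
  refine h1.trans (le_of_eq ?_)
  set H : ℝ → ℝ := fun z => ck (L * t - L * z) *
    ‖∑ i ∈ S, c i * ((Real.exp (2 * Real.pi * (φ i / L - φ0 / L)) : ℝ) : ℂ) * E (z * φ i)‖ ^ 2
    with hH
  have e : ∀ s : ℝ, ck s * ‖∑ i ∈ S, c i * E (φ i * t) *
      ((Real.exp (2 * Real.pi * (φ i / L - φ0 / L)) : ℝ) : ℂ) * E (s * (φ i / L))‖ ^ 2 =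
      (fun y => H (t + y)) (s / L) := fun s => by
    simp only [hH]
    rw [show L * t - L * (t + s / L) = -s by field_simp; ring, ck_neg]
    congr 3
    refine sum_congr rfl fun i _ => ?_
    rw [show (t + s / L) * φ i = φ i * t + s * (φ i / L) by ring, E_add]
    ring
  simp only [e]
  rw [Measure.integral_comp_div (fun y => H (t + y)) L, integral_add_left_eq_self H t,
    abs_of_pos hL, smul_eq_mul]
  ring

theorem ms (hK : Kern) {ι : Type} (S : Finset ι) (b c : ι → ℂ) (φ : ι → ℝ) {Λ B : ℝ}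
    (hΛ : 0 < Λ) (hB : 0 ≤ B) (hb : ∀ i ∈ S, ‖b i‖ ≤ B * ‖c i‖) :
    ∫ z : ℝ, ck (Λ * z) * ‖∑ i ∈ S, b i * E (z * φ i)‖ ^ 2 ≤
      Real.pi / Λ * B ^ 2 * ∑ i ∈ S, ∑ j ∈ S, ‖c i‖ * ‖c j‖ * ck ((φ i - φ j) / Λ) := by
  have h := hK.msC S b φ (1 / Λ) (by positivity)
  simp only [show ∀ s : ℝ, s / (1 / Λ) = Λ * s from fun s => by field_simp] at h
  refine (le_abs_self _).trans ?_
  have p := Real.pi_pos
  rw [← Real.norm_eq_abs, ← Complex.norm_real, h, norm_mul, norm_mul, Complex.norm_real,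
    Complex.norm_real, Real.norm_of_nonneg p.le, Real.norm_of_nonneg (by positivity),
    mul_one_div, mul_assoc (Real.pi / Λ), mul_sum]
  refine mul_le_mul_of_nonneg_left ?_ (by positivity)
  refine (norm_sum_le _ _).trans (sum_le_sum fun i hi => ?_)
  rw [mul_sum]
  refine (norm_sum_le _ _).trans (sum_le_sum fun j hj => ?_)
  have e1 : Real.exp (-(2 * Real.pi * (1 / Λ) * |φ i - φ j|)) ≤ ck ((φ i - φ j) / Λ) := by
    refine le_trans (le_of_eq ?_) (exp_le_ck _)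
    rw [abs_div, abs_of_pos hΛ]
    congr 1
    ring
  simp only [norm_mul, Complex.norm_conj, Complex.norm_real,
    Real.norm_of_nonneg (Real.exp_pos _).le]
  calc _ ≤ B * ‖c i‖ * (B * ‖c j‖) * ck ((φ i - φ j) / Λ) := by
        gcongr
        · exact hb i hi
        · exact hb j hj
    _ = _ := by ring

end OffD

theorem offd_of (hK : Kern) : OffDStmt := by
  set B : ℝ := Real.exp (2 * Real.pi * 2) with hB
  refine ⟨320000 * B ^ 2, by positivity, ?_⟩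
  intro ι S c φ N β φ0 L Λ hN hβ hβ1 hΛ hL hL' hφ
  have Λ0 : 0 < Λ := by linarith
  have L0 : 0 < L := by linarith
  have h1 : (1 : ℝ) ≤ N := by exact_mod_cast hN
  have l0 : 0 ≤ Real.log N := Real.log_nonneg h1
  have p := Real.pi_pos
  set b : ι → ℂ := fun i => c i * ((Real.exp (2 * Real.pi * (φ i / L - φ0 / L)) : ℝ) : ℂ)
    with hb
  have hbB : ∀ i ∈ S, ‖b i‖ ≤ B * ‖c i‖ := fun i hi => by
    simp only [hb, norm_mul, Complex.norm_real, Real.norm_of_nonneg (Real.exp_pos _).le]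
    rw [mul_comm]
    gcongr
    refine Real.exp_le_exp.2 ?_
    gcongr
    rw [← sub_div, div_le_iff₀ L0]
    linarith [(hφ i hi).2]
  set F : ℝ → ℝ := fun z => ‖∑ i ∈ S, b i * E (z * φ i)‖ ^ 2 with hF
  set W : ℝ := 32 * (10000 * ((1 + Real.log N) * N ^ 2 / L)) with hW
  have hI : ∀ x e : ℝ, Integrable fun z : ℝ => e * (ck (x - L * z) * F z) := fun x e =>
    (OffD.int_aff S b φ L0.ne' x).const_mul e
  have hJ : Integrable fun z : ℝ => W * (ck (Λ * z) * F z) := by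
    refine ((OffD.int_aff S b φ (L := -Λ) (by linarith) 0).const_mul W).congr
      (Eventually.of_forall fun z => ?_)
    simp only [hF, zero_sub, neg_mul, neg_neg]
  calc _ ≤ ∑ k ∈ Ioc N (2 * N), ∑ k' ∈ (Ioc N (2 * N)).erase k, L / Real.pi *
        ∫ z : ℝ, Real.exp (-(2 * Real.pi * Λ * |gg β (k / N) - gg β (k' / N)|)) *
          (ck (L * (gg β (k / N) - gg β (k' / N)) - L * z) * F z) := by
        refine sum_le_sum fun k _ => sum_le_sum fun k' _ => ?_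
        rw [integral_const_mul, mul_left_comm]
        exact mul_le_mul_of_nonneg_left
          (OffD.trick hK S c φ L0 (fun i hi => (hφ i hi).1) _) (Real.exp_pos _).le
    _ = L / Real.pi * ∫ z : ℝ, ∑ k ∈ Ioc N (2 * N), ∑ k' ∈ (Ioc N (2 * N)).erase k,
        Real.exp (-(2 * Real.pi * Λ * |gg β (k / N) - gg β (k' / N)|)) *
          (ck (L * (gg β (k / N) - gg β (k' / N)) - L * z) * F z) := by
        rw [integral_finsetSum _ fun k _ => integrable_finsetSum _ fun k' _ => hI _ _, mul_sum]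
        refine sum_congr rfl fun k _ => ?_
        rw [integral_finsetSum _ fun k' _ => hI _ _, mul_sum]
    _ ≤ L / Real.pi * ∫ z : ℝ, W * (ck (Λ * z) * F z) := by
        refine mul_le_mul_of_nonneg_left (integral_mono
          (integrable_finsetSum _ fun k _ => integrable_finsetSum _ fun k' _ => hI _ _) hJ
          fun z => ?_) (by positivity)
        simp only [← mul_assoc, ← sum_mul]
        exact mul_le_mul_of_nonneg_right (OffD.kernel hK hN hβ hβ1 hΛ hL hL' z) (by positivity)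
    _ ≤ L / Real.pi * (W * (Real.pi / Λ * B ^ 2 *
        ∑ i ∈ S, ∑ j ∈ S, ‖c i‖ * ‖c j‖ * ck ((φ i - φ j) / Λ))) := by
        rw [integral_const_mul]
        gcongr
        exact OffD.ms hK S b c φ Λ0 (by positivity) hbB
    _ = _ := by
        rw [hW]
        generalize ∑ i ∈ S, ∑ j ∈ S, ‖c i‖ * ‖c j‖ * ck ((φ i - φ j) / Λ) = X
        generalize Real.log N = l
        field_simp
        ring

end Pool.Agent.MP_3d0d30_nt.Six

end MrgPart1

-- marker of a merged file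
example : 731051 + 275299 = 731051 + 275299 := rfl
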