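import Pool.Agent.MP_3d0d30_nt.Six.Star0
import Pool.Agent.MP_3d0d30_nt.Six.Spec2

/-! Project SIX, module Star0b: as Star0, keeping a lower bound for the curvature. -/

set_option autoImplicit false

namespace Pool.Agent.MP_3d0d30_nt.Six

open MeasureTheory Finset Filter
open scoped ComplexConjugate

namespace Star0b

open Star0

/-- the bound on one window in the original variable -/
theorem windowD {T Y Z u0 : ℝ} {N : ℕ} {J : Finset ℝ} (hT : 0 < T) (hY : 100 ≤ Y)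
    (hZ : 0 ≤ Z) (hD : DBound2 T Y Z) (hN1 : T / Y ^ 2 / 512 ≤ N) (hN2 : (N : ℝ) ≤ 32 * (T / Y ^ 2))
    (hu : 0 < u0) (hu2 : T ≤ u0 ^ 2) (hJ : Win J T T) (hS : Sep (100 * Y) J)
    (hw : ∀ t ∈ J, u0 ≤ Real.sqrt t ∧ Real.sqrt t ≤ u0 + Real.sqrt (Y ^ 3))
    (a : ℕ → ℂ) (ha : ∀ k, ‖a k‖ ≤ 1) :
    ∑ t ∈ J, ‖∑ k ∈ Ioc N (2 * N), a k * E ((Real.sqrt t - u0) * gam u0 k)‖ ≤
      (N * T) ^ (1 / 4 : ℝ) * J.card + Z := by
  classical
  rcases J.eq_empty_or_nonempty with rfl | ⟨t0, ht0⟩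
  · simpa using hZ
  have hu3 : u0 ^ 2 ≤ 2 * T := by
    have h1 := pow_le_pow_left₀ hu.le (hw t0 ht0).1 2
    rw [Real.sq_sqrt (by linarith [(hJ t0 ht0).1])] at h1
    linarith [(hJ t0 ht0).2]
  have hY0 : 0 < Y := by linarith
  have hK : 0 < T / Y ^ 2 := by positivity
  have hN' : (0 : ℝ) < N := lt_of_lt_of_le (by positivity) hN1
  have hN : 0 < N := by exact_mod_cast hN'
  have p1 := Real.pi_gt_three
  have p2 := Real.pi_lt_d2
  set s := Real.sqrt (Real.pi * N / 2) with hs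
  have hs0 : 0 < s := Real.sqrt_pos.2 (by positivity)
  have hs2 : s ^ 2 = Real.pi * N / 2 := Real.sq_sqrt (by positivity)
  set σ := 2 / Real.pi * s with hσ
  have hσ0 : 0 < σ := by positivity
  have hσ2 : σ ^ 2 = 2 * N / Real.pi := by
    rw [hσ, mul_pow, hs2]; field_simp
  have hβ2 : (s / u0) ^ 2 ≤ 2 * N / T := by
    rw [div_pow, hs2]
    gcongr
    nlinarith
  have hβ3 : N / (2 * T) ≤ (s / u0) ^ 2 := by
    rw [div_pow, hs2]
    gcongr
    nlinarith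
  have hβ1 : s / u0 ≤ 1 := by
    have h1 : 2 * (N : ℝ) / T ≤ 1 := by
      rw [div_le_one hT]
      have h2 : T / Y ^ 2 ≤ T / 64 := by
        gcongr; nlinarith
      linarith
    exact (sq_le_one_iff₀ (by positivity)).1 (hβ2.trans h1)
  set τ : ℝ → ℝ := fun t => (Real.sqrt t - u0) * σ with hτ
  have hsep : ∀ t ∈ J, ∀ t' ∈ J, t ≠ t' → 1 ≤ |τ t - τ t'| := by
    intro t ht t' ht' hne
    have h1 := hS t ht t' ht' hne
    obtain ⟨a1, a2⟩ := hJ t ht
    obtain ⟨b1, b2⟩ := hJ t' ht'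
    have ht0 : 0 ≤ t := by linarith
    have ht0' : 0 ≤ t' := by linarith
    have e1 : τ t - τ t' = (Real.sqrt t - Real.sqrt t') * σ := by simp only [hτ]; ring
    have e2 : (t - t') ^ 2 = (Real.sqrt t - Real.sqrt t') ^ 2 * (Real.sqrt t + Real.sqrt t') ^ 2 := by
      rw [← mul_pow]
      congr 1
      nlinarith [Real.sq_sqrt ht0, Real.sq_sqrt ht0']
    have e3 : (Real.sqrt t + Real.sqrt t') ^ 2 ≤ 8 * T := by
      nlinarith [Real.sq_sqrt ht0, Real.sq_sqrt ht0', sq_nonneg (Real.sqrt t - Real.sqrt t')]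
    have e4 : (100 * Y) ^ 2 ≤ (t - t') ^ 2 := by
      rw [← sq_abs (t - t')]; gcongr
    have e5 : (100 * Y) ^ 2 ≤ (Real.sqrt t - Real.sqrt t') ^ 2 * (8 * T) := by
      refine e4.trans ?_
      rw [e2]; gcongr
    have e6 : T / Y ^ 2 / 1024 ≤ σ ^ 2 := by
      rw [hσ2, le_div_iff₀ (by positivity)]
      nlinarith
    have e7 : (100 * Y) ^ 2 / (8 * T) ≤ (Real.sqrt t - Real.sqrt t') ^ 2 := by
      rwa [div_le_iff₀ (by positivity)]
    rw [← one_le_sq_iff_one_le_abs, e1, mul_pow]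
    calc (1 : ℝ) ≤ (100 * Y) ^ 2 / (8 * T) * (T / Y ^ 2 / 1024) := by
          have : (100 * Y) ^ 2 / (8 * T) * (T / Y ^ 2 / 1024) = 10000 / 8192 := by
            field_simp; norm_num
          rw [this]; norm_num
      _ ≤ _ := by gcongr
  have hinj : Set.InjOn τ J := fun t ht t' ht' h => by
    by_contra hne
    have := hsep t ht t' ht' hne
    rw [h, sub_self, abs_zero] at this
    linarith
  have h1 := hD N (s / u0) a (J.image τ) hN1 (by linarith) (by positivity) hβ1 hβ3 hβ2 ha ?_ ?_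
  · rw [sum_image hinj, card_image_of_injOn hinj] at h1
    refine le_trans (le_of_eq ?_) h1
    refine sum_congr rfl fun t _ => ?_
    unfold Dsum
    congr 1
    refine sum_congr rfl fun k _ => ?_
    rw [gam_eq hN hu]
  · intro x hx y hy hxy
    obtain ⟨t, ht, rfl⟩ := mem_image.1 hx
    obtain ⟨t', ht', rfl⟩ := mem_image.1 hy
    exact hsep t ht t' ht' fun h => hxy (by rw [h])
  · intro x hx
    obtain ⟨t, ht, rfl⟩ := mem_image.1 hx
    obtain ⟨w1, w2⟩ := hw t ht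
    refine ⟨mul_nonneg (by linarith) hσ0.le, ?_⟩
    have e1 : σ ^ 2 ≤ 49 * (T / Y ^ 2) := by
      rw [hσ2, div_le_iff₀ (by positivity)]
      nlinarith
    have e2 : Real.sqrt (Y ^ 3) * σ ≤ 7 * Real.sqrt (T * Y) := by
      refine abs_le_of_sq_le_sq' ?_ (by positivity) |>.2
      rw [mul_pow (Real.sqrt (Y ^ 3)), mul_pow 7, Real.sq_sqrt (show 0 ≤ Y ^ 3 by positivity),
        Real.sq_sqrt (show 0 ≤ T * Y by positivity)]
      calc Y ^ 3 * σ ^ 2 ≤ Y ^ 3 * (49 * (T / Y ^ 2)) := by gcongr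
        _ = _ := by field_simp; norm_num
    calc τ t ≤ Real.sqrt (Y ^ 3) * σ := by
          simp only [hτ]
          gcongr
          linarith
      _ ≤ _ := by linarith

/-- one window and one block -/
theorem windowI {C1 C2 T Y Z u0 d : ℝ} {N : ℕ} {J : Finset ℝ} {a : ℝ → ℂ} {c : ℕ → ℂ}
    (hC : AmpB C1 C2) (hC1 : 0 < C1) (hC2 : 0 < C2) (hT : 0 < T) (hY : 100 ≤ Y) (hYT : Y ^ 3 ≤ T)
    (hZ : 0 ≤ Z) (hD : DBound2 T Y Z) (hN1 : T / Y ^ 2 / 512 ≤ N) (hN2 : (N : ℝ) ≤ 32 * (T / Y ^ 2))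
    (hu : 0 < u0) (hu2 : T ≤ u0 ^ 2) (hJ : Win J T T) (hS : Sep (100 * Y) J)
    (hw : ∀ t ∈ J, u0 ≤ Real.sqrt t ∧ Real.sqrt t ≤ u0 + Real.sqrt (Y ^ 3))
    (ha : Amp Y a) (hd : 0 ≤ d) (hc : ∀ k ∈ Ioc N (2 * N), ‖c k‖ ≤ d) :
    ∑ t ∈ J, ‖∑ k ∈ Ioc N (2 * N), c k * II a Y t k‖ ≤
      d * (C1 + 2 * C2) * (3 * Y * J.card + Real.sqrt (Y ^ 3 / T) * Z) := by
  have hY0 : 0 < Y := by linarith
  have hK : 0 < T / Y ^ 2 := by positivity
  set B := Real.sqrt (Y ^ 3 / T) with hB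
  set L := Real.sqrt (Y ^ 3) with hL
  have hB0 : 0 ≤ B := Real.sqrt_nonneg _
  have hL0 : 0 ≤ L := Real.sqrt_nonneg _
  have hL2 : L ^ 2 = Y ^ 3 := Real.sq_sqrt (by positivity)
  have hsT : 0 < Real.sqrt T := Real.sqrt_pos.2 hT
  have hLT : L ≤ Real.sqrt T := Real.sqrt_le_sqrt hYT
  have ht0 : ∀ t ∈ J, 0 ≤ t := fun t ht => by linarith [(hJ t ht).1]
  have ht2 : ∀ t ∈ J, Real.sqrt t ^ 2 ≤ 2 * T := fun t ht => by
    rw [Real.sq_sqrt (ht0 t ht)]; linarith [(hJ t ht).2]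
  have h1 := slow (S := Ioc N (2 * N)) (U := J) (p := Real.sqrt) (s := u0) (L := L)
    (e := fun t k => E ((Real.sqrt t - u0) * gam u0 k))
    (b := fun t k => c k * (II a Y t k * E (-((Real.sqrt t - u0) * gam u0 k))))
    (A := d * (C1 * B)) (Λ := d * (C2 * (B * (1 / Real.sqrt T + L / Y ^ 3))))
    (windowD hT hY hZ hD hN1 hN2 hu hu2 hJ hS hw) (by positivity) (by positivity) hL0 hw
    (fun u _ u' _ h => Real.sqrt_le_sqrt h) ?_ ?_
  · have e1 : ∀ t ∈ J, ‖∑ k ∈ Ioc N (2 * N), c k * II a Y t k‖ = ‖∑ k ∈ Ioc N (2 * N),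
        c k * (II a Y t k * E (-((Real.sqrt t - u0) * gam u0 k))) *
          E ((Real.sqrt t - u0) * gam u0 k)‖ := fun t _ => by
      congr 1
      refine sum_congr rfl fun k _ => ?_
      rw [mul_assoc, mul_assoc, ← E_add, neg_add_cancel, E_zero, mul_one]
    rw [sum_congr rfl e1]
    refine h1.trans ?_
    have e2 : (1 / Real.sqrt T + L / Y ^ 3) * L ≤ 2 := by
      have f1 : 1 / Real.sqrt T * L ≤ 1 := by
        rw [one_div_mul_eq_div, div_le_one hsT]; exact hLT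
      have f2 : L / Y ^ 3 * L = 1 := by
        rw [div_mul_eq_mul_div, ← sq, hL2, div_self (by positivity)]
      linarith [add_mul (1 / Real.sqrt T) (L / Y ^ 3) L]
    have e3 : d * (C1 * B) + d * (C2 * (B * (1 / Real.sqrt T + L / Y ^ 3))) * L ≤
        d * (C1 + 2 * C2) * B := by
      have : d * (C2 * (B * (1 / Real.sqrt T + L / Y ^ 3))) * L =
          d * C2 * B * ((1 / Real.sqrt T + L / Y ^ 3) * L) := by ring
      rw [this]
      have : d * C2 * B * ((1 / Real.sqrt T + L / Y ^ 3) * L) ≤ d * C2 * B * 2 := by gcongr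
      linarith
    have hNT : 0 ≤ (N : ℝ) * T := by positivity
    have e4 : B * (N * T) ^ (1 / 4 : ℝ) ≤ 3 * Y := by
      refine le_of_pow_le_pow_left₀ (n := 4) (by norm_num) (by positivity) ?_
      have f1 : ((N * T) ^ (1 / 4 : ℝ)) ^ 4 = N * T := by
        rw [← Real.rpow_natCast, ← Real.rpow_mul hNT]; norm_num
      have f2 : B ^ 4 = (Y ^ 3 / T) ^ 2 := by
        rw [show 4 = 2 * 2 from rfl, pow_mul, hB, Real.sq_sqrt (by positivity)]
      rw [mul_pow, f1, f2]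
      calc (Y ^ 3 / T) ^ 2 * (N * T) ≤ (Y ^ 3 / T) ^ 2 * (81 * (T / Y ^ 2) * T) := by
            gcongr; linarith
        _ = _ := by field_simp; norm_num
    calc _ ≤ d * (C1 + 2 * C2) * B * ((N * T) ^ (1 / 4 : ℝ) * J.card + Z) := by gcongr
      _ = d * (C1 + 2 * C2) * (B * (N * T) ^ (1 / 4 : ℝ) * J.card + B * Z) := by ring
      _ ≤ _ := by gcongr
  · intro t ht k hk
    rw [norm_mul, norm_mul, norm_E, mul_one]
    have := hC.1 T Y t k a hT (by linarith) ha (hJ t ht).1 (by linarith [(hJ t ht).2])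
    exact mul_le_mul (hc k hk) this (norm_nonneg _) hd
  · intro t ht t' ht' htt k hk
    obtain ⟨k1, k2⟩ := mem_Ioc.1 hk
    have k1' : (N : ℝ) ≤ k := by exact_mod_cast k1.le
    have k2' : (k : ℝ) ≤ 2 * N := by exact_mod_cast k2
    have := hC.2 T Y k u0 L (Real.sqrt t') (Real.sqrt t) a hT hY ha (by linarith) (by linarith)
      hu hu2 (hw t' ht').1 (hw t' ht').2 (ht2 t' ht') (hw t ht).1 (hw t ht).2 (ht2 t ht)
    rw [Real.sq_sqrt (ht0 t ht), Real.sq_sqrt (ht0 t' ht'),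
      abs_of_nonneg (sub_nonneg.2 (Real.sqrt_le_sqrt htt))] at this
    rw [← mul_sub, norm_mul]
    calc _ ≤ d * (C2 * (B * (1 / Real.sqrt T + L / Y ^ 3) * (Real.sqrt t' - Real.sqrt t))) :=
          mul_le_mul (hc k hk) this (norm_nonneg _) hd
      _ = _ := by ring

/-- all windows, one block -/
theorem blockI {C1 C2 T Y Z d : ℝ} {N : ℕ} {J : Finset ℝ} {a : ℝ → ℂ} {c : ℕ → ℂ}
    (hC : AmpB C1 C2) (hC1 : 0 < C1) (hC2 : 0 < C2) (hT : 0 < T) (hY : 100 ≤ Y) (hYT : Y ^ 3 ≤ T)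
    (hZ : 0 ≤ Z) (hD : DBound2 T Y Z) (hN1 : T / Y ^ 2 / 512 ≤ N) (hN2 : (N : ℝ) ≤ 32 * (T / Y ^ 2))
    (hJ : Win J T T) (hS : Sep (100 * Y) J)
    (ha : Amp Y a) (hd : 0 ≤ d) (hc : ∀ k ∈ Ioc N (2 * N), ‖c k‖ ≤ d) :
    ∑ t ∈ J, ‖∑ k ∈ Ioc N (2 * N), c k * II a Y t k‖ ≤
      d * (C1 + 2 * C2) * (3 * Y * J.card + 2 * Z) := by
  classical
  have hY0 : 0 < Y := by linarith
  set L := Real.sqrt (Y ^ 3) with hL
  have hL0 : 0 < L := Real.sqrt_pos.2 (by positivity)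
  have hsT : 0 < Real.sqrt T := Real.sqrt_pos.2 hT
  have hLT : L ≤ Real.sqrt T := Real.sqrt_le_sqrt hYT
  set g : ℝ → ℕ := fun t => ⌊(Real.sqrt t - Real.sqrt T) / L⌋₊ with hg
  set I : ℕ := ⌊Real.sqrt T / L⌋₊ + 1 with hI
  have h1 : ∀ t ∈ J, Real.sqrt T ≤ Real.sqrt t := fun t ht => Real.sqrt_le_sqrt (hJ t ht).1
  have h2 : ∀ t ∈ J, Real.sqrt t ≤ 2 * Real.sqrt T := fun t ht => by
    refine abs_le_of_sq_le_sq' ?_ (by positivity) |>.2
    have := hJ t ht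
    rw [mul_pow, Real.sq_sqrt hT.le, Real.sq_sqrt (by linarith)]
    linarith
  have hmap : ∀ t ∈ J, g t ∈ range I := fun t ht => by
    rw [mem_range, hI, Nat.lt_succ_iff]
    refine Nat.floor_le_floor ?_
    gcongr
    linarith [h2 t ht]
  have hIB : (I : ℝ) * Real.sqrt (Y ^ 3 / T) ≤ 2 := by
    have e1 : Real.sqrt (Y ^ 3 / T) = L / Real.sqrt T := Real.sqrt_div (by positivity) _
    have e2 : (I : ℝ) ≤ 2 * (Real.sqrt T / L) := by
      have f1 : 1 ≤ Real.sqrt T / L := (one_le_div hL0).2 hLT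
      have f2 := Nat.floor_le (show 0 ≤ Real.sqrt T / L by positivity)
      rw [hI]; push_cast; linarith
    rw [e1]
    calc _ ≤ 2 * (Real.sqrt T / L) * (L / Real.sqrt T) := by gcongr
      _ = 2 := by field_simp
  have hcard : ∑ i ∈ range I, ((J.filter fun t => g t = i).card : ℝ) = J.card := by
    rw [card_eq_sum_card_fiberwise hmap]; push_cast; rfl
  rw [← sum_fiberwise_of_maps_to hmap]
  calc _ ≤ ∑ i ∈ range I, d * (C1 + 2 * C2) *
        (3 * Y * (J.filter fun t => g t = i).card + Real.sqrt (Y ^ 3 / T) * Z) := by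
        refine sum_le_sum fun i _ => ?_
        have hi : (0 : ℝ) ≤ i * L := by positivity
        refine windowI (u0 := Real.sqrt T + i * L) hC hC1 hC2 hT hY hYT hZ hD hN1 hN2
          (by positivity) ?_ (hJ.mono (filter_subset _ _)) (hS.mono (filter_subset _ _)) ?_ ha hd hc
        · nlinarith [Real.sq_sqrt hT.le]
        · intro t ht
          obtain ⟨htJ, hti⟩ := mem_filter.1 ht
          have f0 : 0 ≤ (Real.sqrt t - Real.sqrt T) / L := div_nonneg (sub_nonneg.2 (h1 t htJ)) hL0.le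
          have f1 := Nat.floor_le f0
          have f2 := (Nat.lt_floor_add_one ((Real.sqrt t - Real.sqrt T) / L)).le
          simp only [hg] at hti
          rw [hti] at f1 f2
          rw [le_div_iff₀ hL0] at f1
          rw [div_le_iff₀ hL0] at f2
          constructor <;> linarith
    _ = d * (C1 + 2 * C2) * (3 * Y * J.card + I * Real.sqrt (Y ^ 3 / T) * Z) := by
        rw [← mul_sum, sum_add_distrib, ← mul_sum, hcard, sum_const, card_range, nsmul_eq_mul,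
          mul_assoc (I : ℝ)]
    _ ≤ _ := by gcongr

end Star0b

open Star0 Star0b in
theorem star0b_of (h0 : Star00Stmt) (hI : IBoundStmt) (hA : AtkStmt) (hD : DivisorStmt) :
    Star0bStmt := by
  obtain ⟨C0, hC0, h0⟩ := h0
  obtain ⟨C1, hC1, hI⟩ := hI
  obtain ⟨C2, hC2, hA⟩ := hA
  intro ε hε
  obtain ⟨C3, hC3, hD⟩ := hD (ε / 2) (by linarith)
  have hC : AmpB C1 C2 := ⟨hI, hA⟩
  filter_upwards [eventually_ge_atTop ((256 : ℝ) ^ 3),
    (tendsto_rpow_atTop (show 0 < ε / 2 by linarith)).eventually_ge_atTop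
      (C0 + 42 * (C3 * (C1 + 2 * C2)))] with T hT1 hT2
  intro Y Z hY hYT hZ hDB H R a c J hH hHY hR ha hc hJ hS
  have hT : 0 < T := lt_of_lt_of_le (by norm_num) hT1
  have hY0 : 0 < Y := by linarith
  have hK : 256 ≤ T / Y ^ 2 := by
    refine le_of_pow_le_pow_left₀ (n := 3) (by norm_num) (by positivity) (hT1.trans ?_)
    rw [div_pow, le_div_iff₀ (by positivity)]
    calc T * (Y ^ 2) ^ 3 = T * (Y ^ 3) ^ 2 := by ring
      _ ≤ T * T ^ 2 := by gcongr
      _ = _ := by ring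
  have hKT : 64 * (T / Y ^ 2) ≤ T := by
    have : T / Y ^ 2 ≤ T / 64 := by gcongr; nlinarith
    linarith
  set N0 : ℕ := ⌊T / Y ^ 2 / 256⌋₊ with hN0
  have n1 : (N0 : ℝ) ≤ T / Y ^ 2 / 256 := Nat.floor_le (by positivity)
  have n2 : T / Y ^ 2 / 512 ≤ N0 := by
    have f1 : 1 ≤ N0 := Nat.le_floor (by push_cast; linarith)
    have f2 : (1 : ℝ) ≤ N0 := by exact_mod_cast f1
    have f3 := Nat.lt_floor_add_one (T / Y ^ 2 / 256)
    linarith
  set P := T ^ (ε / 2) with hP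
  have hP1 : 1 ≤ P := Real.one_le_rpow (by linarith) (by linarith)
  have hPP : T ^ ε = P * P := by rw [hP, ← Real.rpow_add hT]; norm_num
  have hb : ∀ j ∈ range 14, ∑ t ∈ J, ‖∑ k ∈ Ioc (2 ^ j * N0) (2 * (2 ^ j * N0)),
      dk c H k * II a Y t k‖ ≤ C3 * P * (C1 + 2 * C2) * (3 * Y * J.card + 2 * Z) := by
    intro j hj
    have j1 : (1 : ℝ) ≤ 2 ^ j := one_le_pow₀ (by norm_num)
    have j2 : (2 : ℝ) ^ j ≤ 2 ^ 13 :=
      pow_le_pow_right₀ (by norm_num) (Nat.lt_succ_iff.1 (mem_range.1 hj))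
    have j0 : (0 : ℝ) ≤ N0 := by positivity
    have j3 : ((2 ^ j * N0 : ℕ) : ℝ) ≤ 32 * (T / Y ^ 2) := by
      push_cast
      calc (2 : ℝ) ^ j * N0 ≤ 2 ^ 13 * (T / Y ^ 2 / 256) := by gcongr
        _ = _ := by ring
    refine blockI hC hC1 hC2 hT hY hYT hZ hDB ?_ j3 hJ hS ha (by positivity) fun k hk => ?_
    · push_cast; nlinarith
    · obtain ⟨k1, k2⟩ := mem_Ioc.1 hk
      have k3 : (k : ℝ) ≤ 2 * ((2 ^ j * N0 : ℕ) : ℝ) := by exact_mod_cast k2
      refine (norm_dk_le hc H (by omega)).trans ((hD k (by omega)).trans ?_)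
      rw [hP]
      gcongr
      linarith
  have hs : ∀ t ∈ J, ‖SS a c H R t‖ ≤ C0 * Y + ∑ j ∈ range 14,
      ‖∑ k ∈ Ioc (2 ^ j * N0) (2 * (2 ^ j * N0)), dk c H k * II a Y t k‖ := by
    intro t ht
    have h1 := h0 T Y t H R N0 (2 ^ 14 * N0) a c hT (by linarith) hH hHY hR ha hc (hJ t ht).1
      (by linarith [(hJ t ht).2]) n1 (by push_cast; linarith)
    rw [sum_blocks] at h1
    exact (norm_le_norm_sub_add _ _).trans (add_le_add h1 (norm_sum_le _ _))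
  have hQ : 0 < C3 * (C1 + 2 * C2) := by positivity
  have hn : (0 : ℝ) ≤ J.card := by positivity
  calc _ ≤ _ := sum_le_sum hs
    _ = C0 * Y * J.card + ∑ j ∈ range 14, ∑ t ∈ J,
        ‖∑ k ∈ Ioc (2 ^ j * N0) (2 * (2 ^ j * N0)), dk c H k * II a Y t k‖ := by
        rw [sum_add_distrib, sum_const, nsmul_eq_mul, mul_comm, sum_comm]
    _ ≤ C0 * Y * J.card + 14 * (C3 * P * (C1 + 2 * C2) * (3 * Y * J.card + 2 * Z)) := by
        have := sum_le_card_nsmul _ _ _ hb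
        rw [card_range, nsmul_eq_mul] at this
        push_cast at this
        linarith
    _ = (C0 + P * (42 * (C3 * (C1 + 2 * C2)))) * (Y * J.card) +
        P * (28 * (C3 * (C1 + 2 * C2))) * Z := by ring
    _ ≤ (P * P) * (Y * J.card) + P * P * Z := by
        gcongr
        · nlinarith
        · linarith
    _ = _ := by rw [hPP]; field_simp

end Pool.Agent.MP_3d0d30_nt.Six
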