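import Pool.Agent.MP_3d0d30_nt.Six.All
import Pool.Agent.MP_3d0d30_nt.Six.OffD
import Pool.Agent.MP_3d0d30_nt.Six.EnK
import Pool.Agent.MP_3d0d30_nt.Six.Cnt
import Pool.Agent.MP_3d0d30_nt.Six.L4b
import Pool.Agent.MP_3d0d30_nt.Six.LV2
import Pool.Agent.MP_3d0d30_nt.Six.DB2
import Pool.Agent.MP_3d0d30_nt.Six.Star0b
import Pool.Agent.MP_3d0d30_nt.Six.Final2

/-! Project SIX: assembly of the exponent 16/13. -/

set_option autoImplicit false

namespace Pool.Agent.MP_3d0d30_nt.Six

theorem star0b : Star0bStmt := star0b_of star00 (ibound_of secder) (atk_of secder) divisor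

theorem lv2 : LV2Stmt := lv2_of reg (enk_of kern (offd_of kern)) (cnt_of kern (halasz_of hbound))
  (l4b_of kern nonstat secder) (b0_of kern nonstat poisson)

theorem lz4 : LZ4Stmt := lz4_of redz rzeta star0b startriv (db2_of lv2) lz1

theorem main2 : Main2Stmt := main2_of gen lz1 lz4

end Pool.Agent.MP_3d0d30_nt.Six
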