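import Pool.Agent.MP_3d0d30_nt.Six.L4

-- ======== part 0: formerly Pool.Agent.MP_3d0d30_nt.Six.L4bA
section MrgPart0

/-! Project SIX, module L4b, part A: the kernel in three ranges. -/

set_option autoImplicit false

namespace Pool.Agent.MP_3d0d30_nt.Six.L4b

open MeasureTheory Finset Filter Set L4
open scoped ComplexConjugate Topology

/-- the kernel -/
noncomputable def JJ (w : ℝ → ℂ) (q β d d' γ : ℝ) : ℂ :=
  ∫ c in (1 / 2 : ℝ)..2, I2 w q β d c * conj (I2 w q β d' c) * E (-(γ * c))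

/-- the curvature of the outer phase -/
noncomputable def rho (q β d d' : ℝ) : ℝ :=
  q * |(d * β / (2 * q)) ^ 2 - (d' * β / (2 * q)) ^ 2| /
    (rt β (d * β / (2 * q)) 0 + rt β (d' * β / (2 * q)) 0)

theorem outer2 (hS : SecDerStmt) : ∃ C : ℝ, 0 < C ∧ ∀ (w w1 w2 : ℝ → ℂ) (A q β d d' γ : ℝ),
    GD w w1 w2 A → 0 < q → 0 < β → β ≤ 1 / 10 →
    ‖JJ w q β d d' γ‖ ≤ C * (A ^ 4 / q) ∧
    (0 < |γ| → 24 * rho q β d d' ≤ |γ| → ‖JJ w q β d d' γ‖ ≤ C * (A ^ 4 / q) / |γ|) ∧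
    (0 < rho q β d d' → ‖JJ w q β d d' γ‖ ≤ C * (A ^ 4 / q) / Real.sqrt (rho q β d d')) := by
  obtain ⟨C1, hC1, h1⟩ := slow hS
  obtain ⟨C2, hC2, h2⟩ := secder_abs hS
  refine ⟨2 * C1 ^ 2 * (5 + 3 * C2), by positivity,
    fun w w1 w2 A q β d d' γ h hq hβ hβ1 => ?_⟩
  obtain ⟨b, b1, cb, hb⟩ := h1 w w1 w2 A q β d h hq hβ (by linarith)
  obtain ⟨g, g1, cg, hg⟩ := h1 w w1 w2 A q β d' h hq hβ (by linarith)
  have cb0 : Continuous b := continuous_iff_continuousAt.2 fun c => (hb c).2.1.continuousAt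
  have cg0 : Continuous g := continuous_iff_continuousAt.2 fun c => (hg c).2.1.continuousAt
  set B := 2 * C1 ^ 2 * (A ^ 4 / q) with hB
  have hB0 : 0 ≤ B := by positivity
  have nm : ∀ {u v : ℂ}, ‖u‖ ≤ C1 * (A * A / Real.sqrt q) → ‖v‖ ≤ C1 * (A * A / Real.sqrt q) →
      ‖u * conj v‖ ≤ B / 2 := fun hu hv => by
    rw [norm_mul, Complex.norm_conj]
    refine (mul_le_mul hu hv (norm_nonneg _) ((norm_nonneg _).trans hu)).trans (le_of_eq ?_)
    have := Real.sqrt_pos.2 hq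
    rw [hB]; nth_rewrite 3 [← Real.mul_self_sqrt hq.le]; field_simp
  have ham : ∀ y ∈ Set.Icc (1 / 2 : ℝ) 2, HasDerivAt (fun c => b c * conj (g c))
      (b1 y * conj (g y) + b y * conj (g1 y)) y ∧ ‖b y * conj (g y)‖ ≤ B ∧
      ‖b1 y * conj (g y) + b y * conj (g1 y)‖ ≤ B := fun y _ =>
    ⟨(hb y).2.1.mul (hg y).2.1.star, (nm (hb y).2.2.1 (hg y).2.2.1).trans (by linarith),
      (norm_add_le _ _).trans (by
        linarith [nm (hb y).2.2.2 (hg y).2.2.1, nm (hb y).2.2.1 (hg y).2.2.2])⟩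
  have cam : ContinuousOn (fun y => b1 y * conj (g y) + b y * conj (g1 y)) (Set.Icc (1 / 2 : ℝ) 2) :=
    ((cb.mul (Complex.continuous_conj.comp cg0)).add
      (cb0.mul (Complex.continuous_conj.comp cg))).continuousOn
  unfold JJ rho
  set D := d * β / (2 * q) with hD
  set D' := d' * β / (2 * q) with hD'
  have dφ : ∀ y, HasDerivAt (fun c => Xi q β d c - Xi q β d' c - γ * c) (T1 q β D D' y - γ) y ∧
      HasDerivAt (fun y => T1 q β D D' y - γ) (T2 q β D D' y) y := fun y =>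
    ⟨(((d_Xi y).sub (d_Xi y)).sub (dlin γ y)).congr_deriv (by unfold X1 T1; ring),
      (d_T1 hβ.ne' D' y).sub_const γ⟩
  have e : ∀ c, I2 w q β d c * conj (I2 w q β d' c) * E (-(γ * c)) =
      b c * conj (g c) * E (Xi q β d c - Xi q β d' c - γ * c) := fun c => by
    rw [(hb c).1, (hg c).1, E_sub, E_sub, conj_E (γ * c), map_mul]; ring
  simp only [e]
  have tb := fun y (hy : y ∈ Set.Icc (1 / 2 : ℝ) 2) => T_bounds hq hβ hβ1 D D' hy
  have S1 : 1 ≤ rt β D 0 + rt β D' 0 := by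
    linarith [cosh_le_rt (β := β) (D := D) (c := 0), rt_pos (β := β) (D := D') (c := 0),
      Real.one_le_cosh (2 * β * 0)]
  set S := rt β D 0 + rt β D' 0 with hS'
  set ρ := q * |D ^ 2 - D' ^ 2| / S with hρ
  have eB : 2 * C1 ^ 2 * (5 + 3 * C2) * (A ^ 4 / q) = (5 + 3 * C2) * B := by rw [hB]; ring
  rw [eB]
  refine ⟨?_, fun hγ hc => ?_, fun ρ0 => ?_⟩
  · have := intervalIntegral.norm_integral_le_of_norm_le_const (a := 1 / 2) (b := 2) (C := B)
      (f := fun c => b c * conj (g c) * E (Xi q β d c - Xi q β d' c - γ * c)) fun y _ => by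
        rw [norm_mul, norm_E, mul_one]
        exact (nm (hb y).2.2.1 (hg y).2.2.1).trans (by linarith)
    rw [abs_of_pos (by norm_num)] at this
    nlinarith [mul_nonneg hC2.le hB0]
  · have := firstder (μ := |γ| / 2) (by norm_num) (by linarith) ham cam (fun y hy => ⟨(dφ y).1,
      (dφ y).2, by
        have := abs_sub_abs_le_abs_sub γ (T1 q β D D' y)
        rw [abs_sub_comm] at this
        linarith [(tb y hy).1], by
        obtain ⟨-, u, u1, u2, u3⟩ := tb y hy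
        rw [u3, abs_neg, abs_mul, abs_div, abs_mul, abs_of_pos hq, abs_of_pos (by linarith : 0 < u),
          abs_of_pos (by linarith : 0 < S)]
        have : u * ρ ≤ 4 * ρ := by gcongr
        have : 0 ≤ ρ := by positivity
        linarith⟩) (continuous_T2 D').continuousOn
    have e2 : B / (|γ| / 2) = 2 * (B / |γ|) := by field_simp
    rw [e2] at this
    rw [mul_div_assoc]
    have : 0 ≤ C2 * (B / |γ|) := by positivity
    nlinarith
  · have := h2 _ _ _ _ _ (1 / 2) 2 B B ρ (by norm_num) ρ0 ham cam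
      (fun y _ => dφ y) (by
        rcases le_total (D ^ 2 - D' ^ 2) 0 with hs | hs
        · refine Or.inl fun y hy => ?_
          obtain ⟨-, u, u1, u2, u3⟩ := tb y hy
          have : q * (D ^ 2 - D' ^ 2) / S = -ρ := by rw [hρ, abs_of_nonpos hs]; ring
          rw [u3, this]; nlinarith
        · refine Or.inr fun y hy => ?_
          obtain ⟨-, u, u1, u2, u3⟩ := tb y hy
          have : q * (D ^ 2 - D' ^ 2) / S = ρ := by rw [hρ, abs_of_nonneg hs]
          rw [u3, this]; nlinarith) (continuous_T2 D').continuousOn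
    refine this.trans ?_
    have e3 : (B + (2 - 1 / 2) * B) / Real.sqrt ρ = 5 / 2 * (B / Real.sqrt ρ) := by ring
    rw [e3, mul_div_assoc (5 + 3 * C2)]
    have p1 : 0 ≤ B / Real.sqrt ρ := by positivity
    have : 0 ≤ C2 * (B / Real.sqrt ρ) := by positivity
    nlinarith

variable {q β d d' Λ : ℝ}

theorem rt_zero_sq (β D : ℝ) : rt β D 0 ^ 2 = 1 + D ^ 2 := by
  rw [rt_sq]; simp

theorem one_le_rt (β D : ℝ) : 1 ≤ rt β D 0 := by
  linarith [cosh_le_rt (β := β) (D := D) (c := 0), Real.one_le_cosh (2 * β * 0)]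

theorem abs_le_rt (β D : ℝ) : |D| ≤ rt β D 0 :=
  abs_le_of_sq_le_sq' (by rw [sq_abs, rt_zero_sq]; linarith) rt_pos.le |>.2

theorem rho_eq (hq : 0 < q) (hβ : 0 < β) : rho q β d d' = β ^ 2 * (|d - d'| * |d + d'|) / (4 * q) /
    (rt β (d * β / (2 * q)) 0 + rt β (d' * β / (2 * q)) 0) := by
  have e : (d * β / (2 * q)) ^ 2 - (d' * β / (2 * q)) ^ 2 =
      β ^ 2 / (4 * q ^ 2) * ((d - d') * (d + d')) := by field_simp; ring
  rw [rho, e, abs_mul, abs_mul, abs_of_pos (by positivity : 0 < β ^ 2 / (4 * q ^ 2))]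
  congr 1; field_simp

theorem rho_le1 (hq : 0 < q) (hβ : 0 < β) : rho q β d d' ≤ β * |d - d'| / 2 := by
  have h1 := abs_le_rt β (d * β / (2 * q))
  have h2 := abs_le_rt β (d' * β / (2 * q))
  have h3 := one_le_rt β (d * β / (2 * q))
  have h4 := one_le_rt β (d' * β / (2 * q))
  have e : ∀ x : ℝ, |x * β / (2 * q)| = |x| * β / (2 * q) := fun x => by
    rw [abs_div, abs_mul, abs_of_pos hβ, abs_of_pos (by positivity : 0 < 2 * q)]
  rw [e] at h1 h2
  rw [rho_eq hq hβ, div_le_iff₀ (by linarith)]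
  have h5 : |d + d'| * β / (2 * q) ≤ |d| * β / (2 * q) + |d'| * β / (2 * q) := by
    rw [← add_div, ← add_mul]; gcongr; exact abs_add_le _ _
  calc _ = β * |d - d'| / 2 * (|d + d'| * β / (2 * q)) := by field_simp; ring
    _ ≤ _ := by gcongr; linarith

theorem rho_le2 (hq : 1 ≤ q) (hβ : 0 < β) (h1 : 400 * (β ^ 2 * q + 1) ≤ Λ) (h2 : β * Λ ≤ 1)
    (hd : |d| ≤ 8 * q + 2 * Λ) (hd' : |d'| ≤ 8 * q + 2 * Λ) : 24 * rho q β d d' ≤ Λ := by
  have q0 : 0 < q := by linarith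
  have h3 := one_le_rt β (d * β / (2 * q))
  have h4 := one_le_rt β (d' * β / (2 * q))
  have Λ0 : 0 < Λ := by nlinarith [mul_pos (pow_pos hβ 2) q0]
  have a1 : d ^ 2 ≤ (8 * q + 2 * Λ) ^ 2 := sq_le_sq' (abs_le.1 hd).1 (abs_le.1 hd).2
  have a2 : d' ^ 2 ≤ (8 * q + 2 * Λ) ^ 2 := sq_le_sq' (abs_le.1 hd').1 (abs_le.1 hd').2
  have a3 : |d - d'| * |d + d'| ≤ 128 * q ^ 2 + 8 * Λ ^ 2 := by
    rw [← abs_mul]
    exact abs_le.2 ⟨by nlinarith [sq_nonneg d, sq_nonneg (4 * q - Λ)],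
      by nlinarith [sq_nonneg d', sq_nonneg (4 * q - Λ)]⟩
  have a4 : (β * Λ) ^ 2 ≤ q := (pow_le_one₀ (by positivity) h2).trans hq
  rw [rho_eq q0 hβ]
  calc _ ≤ 24 * (β ^ 2 * (128 * q ^ 2 + 8 * Λ ^ 2) / (4 * q) / 2) := by gcongr; linarith
    _ = 384 * (β ^ 2 * q) + 24 * ((β * Λ) ^ 2 / q) := by field_simp; ring
    _ ≤ 384 * (β ^ 2 * q) + 24 * 1 := by gcongr; rwa [div_le_one q0]
    _ ≤ _ := by nlinarith [mul_pos (pow_pos hβ 2) q0]

theorem rho_ge (hq : 1 ≤ q) (hβ : 0 < β) (hβ1 : β ≤ 1 / 10) (h2 : β * Λ ≤ 1)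
    (hd : |d| ≤ 8 * q + 2 * Λ) (hd' : |d'| ≤ 8 * q + 2 * Λ) {z : ℝ} (hz : 0 < z)
    (z1 : z ≤ |d - d'|) (z2 : z ≤ |d + d'|) : (β * z / (4 * Real.sqrt q)) ^ 2 ≤ rho q β d d' := by
  have q0 : 0 < q := by linarith
  have up : ∀ x : ℝ, |x| ≤ 8 * q + 2 * Λ → rt β (x * β / (2 * q)) 0 ≤ 2 := fun x hx => by
    have e : |x * β / (2 * q)| ≤ 7 / 5 := by
      rw [abs_div, abs_mul, abs_of_pos hβ, abs_of_pos (by positivity : 0 < 2 * q),
        div_le_iff₀ (by positivity)]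
      nlinarith [mul_le_mul_of_nonneg_right hx hβ.le, mul_le_mul_of_nonneg_left hβ1 q0.le]
    refine abs_le_of_sq_le_sq' ?_ (by norm_num) |>.2
    rw [rt_zero_sq, ← sq_abs]
    nlinarith [abs_nonneg (x * β / (2 * q))]
  have h3 := one_le_rt β (d * β / (2 * q))
  have h4 := one_le_rt β (d' * β / (2 * q))
  have u1 := up d hd
  have u2 := up d' hd'
  rw [rho_eq q0 hβ, div_pow, mul_pow 4, Real.sq_sqrt q0.le]
  calc _ = β ^ 2 * (z * z) / (4 * q) / 4 := by field_simp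
    _ ≤ _ := by gcongr; linarith

/-- the kernel on pairs of near pairs -/
theorem ker (hS : SecDerStmt) : ∃ C : ℝ, 0 < C ∧ ∀ (w w1 w2 : ℝ → ℂ) (A q β Λ d d' γ : ℝ),
    GD w w1 w2 A → 1 ≤ q → 0 < β → β ≤ 1 / 10 → 400 * (β ^ 2 * q + 1) ≤ Λ → β * Λ ≤ 1 →
    |d| ≤ 8 * q + 2 * Λ → |d'| ≤ 8 * q + 2 * Λ →
    (|d - d'| ≤ 2 * Λ → ‖JJ w q β d d' γ‖ ≤ C * (A ^ 4 / q) * (1 / (1 + |γ|))) ∧
    (Λ ≤ |γ| → ‖JJ w q β d d' γ‖ ≤ C * (A ^ 4 / q) / Λ * (1 / (1 + |γ / Λ|))) ∧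
    (∀ z : ℝ, 0 < z → z ≤ |d - d'| → z ≤ |d + d'| →
      ‖JJ w q β d d' γ‖ ≤ C * (A ^ 4 / q) * (Real.sqrt q / (β * z))) := by
  obtain ⟨C, hC, h⟩ := outer2 hS
  refine ⟨25 * C, by positivity, fun w w1 w2 A q β Λ d d' γ hG hq hβ hβ1 h1 h2 hd hd' => ?_⟩
  have q0 : 0 < q := by linarith
  have Λ0 : 0 < Λ := by nlinarith [mul_pos (pow_pos hβ 2) q0]
  obtain ⟨k1, k2, k3⟩ := h w w1 w2 A q β d d' γ hG q0 hβ hβ1
  rw [mul_assoc 25]
  have B0 : 0 ≤ C * (A ^ 4 / q) := by positivity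
  generalize C * (A ^ 4 / q) = B at *
  have g0 := abs_nonneg γ
  refine ⟨fun hdd => ?_, fun hγ => ?_, fun z hz z1 z2 => ?_⟩
  · have r1 : rho q β d d' ≤ 1 := (rho_le1 q0 hβ).trans (by nlinarith)
    rw [mul_one_div, le_div_iff₀ (by positivity)]
    rcases le_total |γ| 24 with hγ | hγ
    · nlinarith [norm_nonneg (JJ w q β d d' γ)]
    · have := k2 (by linarith) (by linarith)
      rw [le_div_iff₀ (by linarith)] at this
      nlinarith [norm_nonneg (JJ w q β d d' γ)]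
  · have := k2 (by linarith) ((rho_le2 hq hβ h1 h2 hd hd').trans hγ)
    refine this.trans ?_
    have e : 25 * B / Λ * (1 / (1 + |γ / Λ|)) = 25 * B / (Λ + |γ|) := by
      rw [abs_div, abs_of_pos Λ0]; field_simp
    rw [e, div_le_div_iff₀ (by linarith) (by linarith)]
    nlinarith [mul_le_mul_of_nonneg_left hγ B0, mul_nonneg B0 g0]
  · have r := rho_ge hq hβ hβ1 h2 hd hd' hz z1 z2
    have s0 := Real.sqrt_pos.2 q0
    have p0 : 0 < β * z / (4 * Real.sqrt q) := by positivity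
    have r1 : β * z / (4 * Real.sqrt q) ≤ Real.sqrt (rho q β d d') := Real.le_sqrt_of_sq_le r
    refine (k3 ((pow_pos p0 2).trans_le r)).trans ?_
    calc _ ≤ B / (β * z / (4 * Real.sqrt q)) := by gcongr
      _ = 4 * B * (Real.sqrt q / (β * z)) := by field_simp
      _ ≤ _ := by gcongr; norm_num

/-- the inner integral without stationary point -/
theorem far (hN : NonStatStmt) : ∃ C : ℝ, 0 < C ∧ ∀ (w w1 w2 : ℝ → ℂ) (A q β d c : ℝ),
    GD w w1 w2 A → 0 < q → 0 < β → β ≤ 1 / 10 → 8 * q ≤ |d| → c ∈ Set.Icc (1 / 2 : ℝ) 2 →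
    ‖I2 w q β d c‖ ≤ C * (A ^ 2 / q ^ 2) := by
  obtain ⟨C, hC, h⟩ := hN
  refine ⟨18 * C, by positivity, fun w w1 w2 A q β d c hG hq hβ hβ1 hd hc => ?_⟩
  have hA := hG.nonneg
  have x1 : |2 * β * c| ≤ 4 * β := abs_le.2 ⟨by nlinarith [hc.1], by nlinarith [hc.2]⟩
  have x0 := abs_nonneg (2 * β * c)
  have k1 := Real.one_le_cosh (2 * β * c)
  have k2 : Real.cosh (2 * β * c) ≤ 29 / 25 :=
    (cosh_le (by linarith)).trans (by nlinarith [sq_abs (2 * β * c)])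
  have := h (fun a => w (c + a) * w (c - a)) (ph q β d c) (ph1 q β d c) (ph2 q β c) (ph3 q β c)
    (-1) 1 (1 / 3) (4 * (A * A)) (2 * q) (by norm_num) (by norm_num) (by positivity)
    ((hG.amp c).mono (by norm_num) (by norm_num) (by positivity) le_rfl) (fun y hy => by
      have y1 : |2 * β * y| ≤ 2 * β := abs_le.2 ⟨by nlinarith [hy.1], by nlinarith [hy.2]⟩
      have y0 := abs_nonneg (2 * β * y)
      have l1 := Real.one_le_cosh (2 * β * y)
      have l2 : Real.cosh (2 * β * y) ≤ 26 / 25 :=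
        (cosh_le (by linarith)).trans (by nlinarith [sq_abs (2 * β * y)])
      have l3 : |Real.sinh (2 * β * y)| ≤ 12 / 5 * β :=
        (abs_sinh_le (by linarith)).trans (by nlinarith [sq_abs (2 * β * y)])
      refine ⟨d_ph hβ.ne' y, d_ph1 hβ.ne' y, d_ph2 y, ?_, ?_, ?_⟩
      · have p : |2 * q / β * Real.cosh (2 * β * c) * Real.sinh (2 * β * y)| ≤ 6 * q := by
          rw [abs_mul, abs_of_pos (by positivity)]
          calc _ ≤ 2 * q / β * (29 / 25) * (12 / 5 * β) := by gcongr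
            _ = 696 / 125 * q := by field_simp; ring
            _ ≤ _ := by linarith
        have := abs_sub_abs_le_abs_sub (-d) (2 * q / β * Real.cosh (2 * β * c) * Real.sinh (2 * β * y))
        rw [abs_neg] at this
        unfold ph1; linarith
      · rw [ph2, abs_neg, abs_of_pos (by positivity)]
        calc _ ≤ 4 * q * (29 / 25) * (26 / 25) := by gcongr
          _ ≤ _ := by linarith
      · rw [ph3, abs_neg, abs_mul, abs_of_pos (by positivity)]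
        calc _ ≤ 8 * q * (1 / 10) * (29 / 25) * (12 / 5 * (1 / 10)) := by
              gcongr; exact l3.trans (by linarith)
          _ ≤ 18 * q := by linarith
          _ = _ := by ring) (by unfold ph3; fun_prop)
  refine this.trans (le_of_eq ?_)
  field_simp; ring

end Pool.Agent.MP_3d0d30_nt.Six.L4b

end MrgPart0

-- ======== part 1: formerly Pool.Agent.MP_3d0d30_nt.Six.L4bB
section MrgPart1

/-! Project SIX, module L4b, part B: blocks of pairs. -/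

set_option autoImplicit false

namespace Pool.Agent.MP_3d0d30_nt.Six.L4b

open MeasureTheory Finset Filter Set L4
open scoped ComplexConjugate Topology

/-- the inner product on `[1/2, 2]` -/
noncomputable def ip (f g : ℝ → ℂ) : ℂ := ∫ c in (1 / 2 : ℝ)..2, f c * conj (g c)

theorem ip_self (f : ℝ → ℂ) : ip f f = ((∫ c in (1 / 2 : ℝ)..2, ‖f c‖ ^ 2 : ℝ) : ℂ) := by
  rw [ip, ← intervalIntegral.integral_ofReal]
  congr 1; ext c
  rw [Complex.ofReal_pow, ← Complex.mul_conj']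

theorem norm_ip_self (f : ℝ → ℂ) : ‖ip f f‖ = ∫ c in (1 / 2 : ℝ)..2, ‖f c‖ ^ 2 := by
  rw [ip_self, Complex.norm_real, Real.norm_of_nonneg]
  exact intervalIntegral.integral_nonneg (by norm_num) fun _ _ => sq_nonneg _

theorem ip_sum {ι : Type} (S S' : Finset ι) (f : ι → ℝ → ℂ) (hf : ∀ i, Continuous (f i)) :
    ip (fun c => ∑ i ∈ S, f i c) (fun c => ∑ j ∈ S', f j c) =
      ∑ i ∈ S, ∑ j ∈ S', ip (f i) (f j) := by
  have ci : ∀ i j, Continuous fun c => f i c * conj (f j c) := fun i j =>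
    (hf i).mul (Complex.continuous_conj.comp (hf j))
  unfold ip
  rw [sum_congr rfl fun i _ =>
      (intervalIntegral.integral_finsetSum fun j _ => (ci i j).intervalIntegrable _ _).symm,
    ← intervalIntegral.integral_finsetSum fun i _ =>
      (continuous_finsetSum _ fun j _ => ci i j).intervalIntegrable _ _]
  congr 1; ext c
  rw [map_sum, sum_mul_sum]

theorem ip_le {f g : ℝ → ℂ} (cf : Continuous f) (cg : Continuous g) {X : ℝ} (h1 : ‖ip f f‖ ≤ X)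
    (h2 : ‖ip g g‖ ≤ X) : ‖ip f g‖ ≤ X := by
  rw [norm_ip_self] at h1 h2
  have i1 : IntervalIntegrable (fun c => ‖f c‖ ^ 2) volume (1 / 2 : ℝ) 2 :=
    Continuous.intervalIntegrable (by fun_prop) _ _
  have i2 : IntervalIntegrable (fun c => ‖g c‖ ^ 2) volume (1 / 2 : ℝ) 2 :=
    Continuous.intervalIntegrable (by fun_prop) _ _
  have h3 : ‖ip f g‖ ≤ ∫ c in (1 / 2 : ℝ)..2, (‖f c‖ ^ 2 + ‖g c‖ ^ 2) / 2 := by
    refine (intervalIntegral.norm_integral_le_integral_norm (by norm_num)).trans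
      (intervalIntegral.integral_mono_on (by norm_num)
        ((cf.mul (Complex.continuous_conj.comp cg)).norm.intervalIntegrable _ _)
        ((i1.add i2).div_const 2) fun c _ => ?_)
    rw [norm_mul, Complex.norm_conj]
    nlinarith [sq_nonneg (‖f c‖ - ‖g c‖)]
  rw [intervalIntegral.integral_div, intervalIntegral.integral_add i1 i2] at h3
  linarith

/-- the frequency attached to two pairs -/
def gm (p p' : ℝ × ℝ) : ℝ := p.1 + p.2 - p'.1 - p'.2

/-- a block of pairs -/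
structure Blk (q Λ μ Z : ℝ) (F : Finset (ℝ × ℝ)) (i j : ℝ) : Prop where
  loc : ∀ p ∈ F, i * Λ ≤ p.1 ∧ p.1 ≤ (i + 1) * Λ ∧ j * Λ ≤ p.2 ∧ p.2 ≤ (j + 1) * Λ
  lo : μ ^ 2 ≤ F.card
  up : (F.card : ℝ) ≤ 4 * μ ^ 2
  en : ∑ p ∈ F, ∑ p' ∈ F, 1 / (1 + |gm p p'|) ≤ Z * μ ^ 3
  near : |i - j| * Λ ≤ 8 * q + Λ

/-- bounds for the inner products of the terms -/
def Ker (T : ℝ × ℝ → ℝ → ℂ) (q β Λ B : ℝ) : Prop := ∀ p p' : ℝ × ℝ,
  |p.1 - p.2| ≤ 8 * q + 2 * Λ → |p'.1 - p'.2| ≤ 8 * q + 2 * Λ →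
  (|(p.1 - p.2) - (p'.1 - p'.2)| ≤ 2 * Λ → ‖ip (T p) (T p')‖ ≤ B * (1 / (1 + |gm p p'|))) ∧
  (Λ ≤ |gm p p'| → ‖ip (T p) (T p')‖ ≤ B / Λ * (1 / (1 + |gm p p' / Λ|))) ∧
  (∀ z : ℝ, 0 < z → z ≤ |(p.1 - p.2) - (p'.1 - p'.2)| → z ≤ |(p.1 - p.2) + (p'.1 - p'.2)| →
    ‖ip (T p) (T p')‖ ≤ B * (Real.sqrt q / (β * z)))

/-- the weight -/
noncomputable def kap (W x : ℝ) : ℝ := 1 / (1 + |x| / W)

/-- the majorant -/
noncomputable def Wt (Λ W X Y : ℝ) (p p' : ℝ × ℝ) : ℝ :=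
  X * (1 / (1 + |gm p p' / Λ|)) +
    Y * (ck (gm p p' / Λ) * kap W (p.1 - p'.1) + ck (gm p p' / Λ) * kap W (p.1 - p'.2))

variable {q β Λ μ Z B : ℝ} {F F' : Finset (ℝ × ℝ)} {i j i' j' : ℝ} {T : ℝ × ℝ → ℝ → ℂ}

theorem kap_nonneg {W : ℝ} (hW : 0 < W) (x : ℝ) : 0 ≤ kap W x := by unfold kap; positivity

theorem Wt_nonneg {W X Y : ℝ} (hW : 0 < W) (hX : 0 ≤ X) (hY : 0 ≤ Y) (p p' : ℝ × ℝ) :
    0 ≤ Wt Λ W X Y p p' := by
  have := kap_nonneg hW (p.1 - p'.1)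
  have := kap_nonneg hW (p.1 - p'.2)
  have := ck_nonneg (gm p p' / Λ)
  unfold Wt; positivity

/-- two points in cells -/
theorem cell_dist {x y a b : ℝ} (hΛ : 0 < Λ) (h1 : a * Λ ≤ x) (h2 : x ≤ (a + 1) * Λ)
    (h3 : b * Λ ≤ y) (h4 : y ≤ (b + 1) * Λ) :
    |x - y| ≤ (|a - b| + 1) * Λ ∧ (|a - b| - 1) * Λ ≤ |x - y| := by
  have h : |(x - y) - (a - b) * Λ| ≤ Λ := abs_le.2 ⟨by linarith, by linarith⟩
  have p1 := abs_sub_abs_le_abs_sub (x - y) ((a - b) * Λ)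
  have p2 := abs_sub_abs_le_abs_sub ((a - b) * Λ) (x - y)
  rw [abs_sub_comm ((a - b) * Λ)] at p2
  rw [abs_mul, abs_of_pos hΛ] at p1 p2
  constructor <;> linarith

theorem Blk.dist (h : Blk q Λ μ Z F i j) (hΛ : 0 < Λ) {p : ℝ × ℝ} (hp : p ∈ F) :
    |p.1 - p.2| ≤ 8 * q + 2 * Λ := by
  obtain ⟨h1, h2, h3, h4⟩ := h.loc p hp
  linarith [(cell_dist hΛ h1 h2 h3 h4).1, h.near]

theorem Blk.self (h : Blk q Λ μ Z F i j) (hΛ : 0 < Λ) (hB : 0 ≤ B) (cT : ∀ p, Continuous (T p))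
    (hk : Ker T q β Λ B) :
    ‖ip (fun c => ∑ p ∈ F, T p c) (fun c => ∑ p ∈ F, T p c)‖ ≤ B * (Z * μ ^ 3) := by
  rw [ip_sum _ _ _ cT]
  refine le_trans ?_ (mul_le_mul_of_nonneg_left h.en hB)
  simp only [mul_sum]
  refine (norm_sum_le _ _).trans (sum_le_sum fun p hp => (norm_sum_le _ _).trans
    (sum_le_sum fun p' hp' => (hk p p' (h.dist hΛ hp) (h.dist hΛ hp')).1 ?_))
  obtain ⟨h1, h2, h3, h4⟩ := h.loc p hp
  obtain ⟨h5, h6, h7, h8⟩ := h.loc p' hp'
  exact abs_le.2 ⟨by linarith, by linarith⟩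

theorem block (h : Blk q Λ μ Z F i j) (h' : Blk q Λ μ Z F' i' j') (hq : 1 ≤ q) (hβ : 0 < β)
    (hΛ : 0 < Λ) (h2 : β * Λ ≤ 1) (hμ : 1 ≤ μ) (hZ : 32 ≤ Z) (hB : 0 ≤ B)
    (cT : ∀ p, Continuous (T p)) (hk : Ker T q β Λ B) :
    ‖ip (fun c => ∑ p ∈ F, T p c) (fun c => ∑ p ∈ F', T p c)‖ ≤
      ∑ p ∈ F, ∑ p' ∈ F', Wt Λ (μ * Real.sqrt q / β) (B / Λ) (260 * B * Z / μ) p p' := by
  have s1 : 1 ≤ Real.sqrt q := Real.le_sqrt_of_sq_le (by linarith)
  set W := μ * Real.sqrt q / β with hW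
  have W1 : Λ ≤ W := by rw [hW, le_div_iff₀ hβ]; nlinarith
  have W0 : 0 < W := hΛ.trans_le W1
  have hg : ∀ p ∈ F, ∀ p' ∈ F', |gm p p' - (i + j - i' - j') * Λ| ≤ 2 * Λ := fun p hp p' hp' => by
    obtain ⟨h1, h2, h3, h4⟩ := h.loc p hp
    obtain ⟨h5, h6, h7, h8⟩ := h'.loc p' hp'
    unfold gm
    exact abs_le.2 ⟨by linarith, by linarith⟩
  rcases le_total 3 |i + j - i' - j'| with hc | hc
  · rw [ip_sum _ _ _ cT]
    refine (norm_sum_le _ _).trans (sum_le_sum fun p hp => (norm_sum_le _ _).trans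
      (sum_le_sum fun p' hp' => ((hk p p' (h.dist hΛ hp) (h'.dist hΛ hp')).2.1 ?_).trans ?_))
    · have p1 := abs_sub_abs_le_abs_sub ((i + j - i' - j') * Λ) (gm p p')
      rw [abs_sub_comm ((i + j - i' - j') * Λ), abs_mul, abs_of_pos hΛ] at p1
      nlinarith [hg p hp p' hp']
    · have := kap_nonneg W0 (p.1 - p'.1)
      have := kap_nonneg W0 (p.1 - p'.2)
      have := ck_nonneg (gm p p' / Λ)
      refine le_add_of_nonneg_right ?_
      positivity
  have hγ : ∀ p ∈ F, ∀ p' ∈ F', |gm p p'| ≤ 5 * Λ := fun p hp p' hp' => by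
    have p1 := abs_sub_abs_le_abs_sub (gm p p') ((i + j - i' - j') * Λ)
    rw [abs_mul, abs_of_pos hΛ] at p1
    nlinarith [hg p hp p' hp']
  set x := min |i - i'| |i - j'| with hx
  have x0 : 0 ≤ x := le_min (abs_nonneg _) (abs_nonneg _)
  set y := (x + 1) * Λ / W with hy
  have y0 : 0 < y := by positivity
  have y1 : y ≤ x + 1 := by rw [hy, div_le_iff₀ W0]; gcongr
  have μ0 : 0 < μ := by linarith
  have Z0 : 0 < Z := by linarith
  have main : ‖ip (fun c => ∑ p ∈ F, T p c) (fun c => ∑ p ∈ F', T p c)‖ ≤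
      10 * B * Z * μ ^ 3 / (1 + y) := by
    rw [le_div_iff₀ (by positivity)]
    rcases le_total y 9 with hy9 | hy9
    · have := ip_le (continuous_finsetSum _ fun p _ => cT p) (continuous_finsetSum _ fun p _ => cT p)
        (h.self hΛ hB cT hk) (h'.self hΛ hB cT hk)
      calc _ ≤ B * (Z * μ ^ 3) * 10 := by gcongr; linarith
        _ = _ := by ring
    · have x8 : 8 ≤ x := by linarith
      have t : ∀ p ∈ F, ∀ p' ∈ F', ‖ip (T p) (T p')‖ ≤ B * (Real.sqrt q / (β * ((x + 1) * Λ))) :=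
        fun p hp p' hp' => by
        obtain ⟨h1, h2, h3, h4⟩ := h.loc p hp
        obtain ⟨h5, h6, h7, h8⟩ := h'.loc p' hp'
        have d1 := (cell_dist hΛ h1 h2 h5 h6).2
        have d2 := (cell_dist hΛ h1 h2 h7 h8).2
        have m1 : x * Λ ≤ |i - i'| * Λ := by gcongr; exact min_le_left _ _
        have m2 : x * Λ ≤ |i - j'| * Λ := by gcongr; exact min_le_right _ _
        have m3 : 8 * Λ ≤ x * Λ := by gcongr
        have g5 := hγ p hp p' hp'
        refine (hk p p' (h.dist hΛ hp) (h'.dist hΛ hp')).2.2 _ (by positivity) ?_ ?_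
        · have e : (p.1 - p.2) - (p'.1 - p'.2) = 2 * (p.1 - p'.1) - gm p p' := by unfold gm; ring
          have := abs_sub_abs_le_abs_sub (2 * (p.1 - p'.1)) (gm p p')
          rw [abs_mul, abs_two] at this
          rw [e]; linarith
        · have e : (p.1 - p.2) + (p'.1 - p'.2) = 2 * (p.1 - p'.2) - gm p p' := by unfold gm; ring
          have := abs_sub_abs_le_abs_sub (2 * (p.1 - p'.2)) (gm p p')
          rw [abs_mul, abs_two] at this
          rw [e]; linarith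
      have e : Real.sqrt q / (β * ((x + 1) * Λ)) = 1 / (μ * y) := by
        rw [hy, hW]; field_simp
      have : ‖ip (fun c => ∑ p ∈ F, T p c) (fun c => ∑ p ∈ F', T p c)‖ ≤
          4 * μ ^ 2 * (4 * μ ^ 2 * (B * (1 / (μ * y)))) := by
        rw [ip_sum _ _ _ cT]
        refine ((norm_sum_le _ _).trans (sum_le_sum fun p hp => (norm_sum_le _ _).trans
          (sum_le_sum fun p' hp' => t p hp p' hp'))).trans ?_
        simp only [sum_const, nsmul_eq_mul, e]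
        gcongr
        exacts [h.up, h'.up]
      calc _ ≤ 4 * μ ^ 2 * (4 * μ ^ 2 * (B * (1 / (μ * y)))) * (2 * y) := by gcongr; linarith
        _ = 1 * B * 32 * μ ^ 3 := by field_simp; ring
        _ ≤ _ := by gcongr; norm_num
  refine main.trans ?_
  have low : ∀ p ∈ F, ∀ p' ∈ F', 10 * B * Z / μ / (1 + y) ≤
      Wt Λ W (B / Λ) (260 * B * Z / μ) p p' := fun p hp p' hp' => by
    obtain ⟨h1, h2, h3, h4⟩ := h.loc p hp
    obtain ⟨h5, h6, h7, h8⟩ := h'.loc p' hp'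
    have d1 := (cell_dist hΛ h1 h2 h5 h6).1
    have d2 := (cell_dist hΛ h1 h2 h7 h8).1
    have k1 := kap_nonneg W0 (p.1 - p'.1)
    have k2 := kap_nonneg W0 (p.1 - p'.2)
    have k3 : 1 / (1 + y) ≤ kap W (p.1 - p'.1) + kap W (p.1 - p'.2) := by
      rcases min_choice |i - i'| |i - j'| with e | e
      · refine le_add_of_le_of_nonneg ?_ k2
        rw [kap, hy, hx, e]; gcongr
      · refine le_add_of_nonneg_of_le k1 ?_
        rw [kap, hy, hx, e]; gcongr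
    have k4 : 1 / 26 ≤ ck (gm p p' / Λ) := by
      have : ck 5 ≤ ck (gm p p' / Λ) := ck_anti (by
        rw [abs_div, abs_of_pos hΛ, div_le_iff₀ hΛ, abs_of_pos (by norm_num : (0 : ℝ) < 5)]
        exact hγ p hp p' hp')
      refine le_trans (le_of_eq ?_) this
      unfold ck; norm_num
    refine le_add_of_nonneg_of_le (by positivity) ?_
    rw [← mul_add]
    calc _ = 260 * B * Z / μ * (1 / 26 * (1 / (1 + y))) := by field_simp; ring
      _ ≤ _ := by gcongr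
  refine le_trans ?_ (sum_le_sum fun p hp => sum_le_sum fun p' hp' => low p hp p' hp')
  simp only [sum_const, nsmul_eq_mul]
  calc _ = μ ^ 2 * (μ ^ 2 * (10 * B * Z / μ / (1 + y))) := by field_simp
    _ ≤ _ := by gcongr; exacts [h.lo, h'.lo]

end Pool.Agent.MP_3d0d30_nt.Six.L4b

end MrgPart1

-- marker of a merged file
example : 731051 + 866588 = 731051 + 866588 := rfl
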